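import Pool.Agent.Lib.MP_de5eaa_nt.Poi.Defs

set_option autoImplicit false

namespace Pool.Agent.Lib.MP_de5eaa_nt.Poi

open Finset MeasureTheory Filter Topology
open Pool.Agent.Lib.MP_de5eaa_nt.Near (hs wq)

/-- ROW M0 (elementary facts). -/
theorem hI_nonneg (J : Set ℝ) (L t y : ℝ) : 0 ≤ hI J L t y := by
  unfold hI
  split_ifs
  · exact zero_le_one
  · exact le_rfl

theorem hI_le_one (J : Set ℝ) (L t y : ℝ) : hI J L t y ≤ 1 := by
  unfold hI
  split_ifs
  · exact le_rfl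
  · exact zero_le_one

/-- `Finset.card_filter`, a cast and the definition of `hI`. -/
theorem cnt_eq (J : Set ℝ) (L : ℝ) (I : Finset ℕ) (y : ℕ → ℝ) (t : ℝ) :
    (cnt J L I y t : ℝ) = ∑ n ∈ I, hI J L t (y n) := by
  classical
  unfold cnt hI
  rw [Finset.card_filter]
  push_cast
  rfl

theorem M0_hI_congr {J J' : Set ℝ} {L L' t t' y y' : ℝ} (h : Hit J L t y ↔ Hit J' L' t' y') :
    hI J L t y = hI J' L' t' y' := by
  unfold hI
  by_cases h1 : Hit J L t y
  · rw [if_pos h1, if_pos (h.1 h1)]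
  · rw [if_neg h1, if_neg (fun h2 => h1 (h.2 h2))]

/-- shifting `y` by an integer -/
theorem hI_add_int (J : Set ℝ) (L t y : ℝ) (a : ℤ) : hI J L t (y + a) = hI J L t y := by
  apply M0_hI_congr
  constructor
  · rintro ⟨b, hb⟩
    refine ⟨b - a, ?_⟩
    have e : y - t - ((b - a : ℤ) : ℝ) = y + a - t - b := by push_cast; ring
    rw [e]
    exact hb
  · rintro ⟨b, hb⟩
    refine ⟨b + a, ?_⟩
    have e : y + a - t - ((b + a : ℤ) : ℝ) = y - t - b := by push_cast; ring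
    rw [e]
    exact hb

/-- shifting `t` by an integer -/
theorem hI_t_add_int (J : Set ℝ) (L t y : ℝ) (a : ℤ) : hI J L (t + a) y = hI J L t y := by
  apply M0_hI_congr
  constructor
  · rintro ⟨b, hb⟩
    refine ⟨b + a, ?_⟩
    have e : y - t - ((b + a : ℤ) : ℝ) = y - (t + a) - b := by push_cast; ring
    rw [e]
    exact hb
  · rintro ⟨b, hb⟩
    refine ⟨b - a, ?_⟩
    have e : y - (t + a) - ((b - a : ℤ) : ℝ) = y - t - b := by push_cast; ring
    rw [e]
    exact hb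

/-- reflection: `J = [-R', R']` is symmetric -/
theorem hI_neg (R' L y : ℝ) : hI (Set.Icc (-R') R') L 0 (-y) = hI (Set.Icc (-R') R') L 0 y := by
  apply M0_hI_congr
  constructor
  · rintro ⟨b, hb⟩
    refine ⟨-b, ?_⟩
    have e : L * (y - 0 - ((-b : ℤ) : ℝ)) = -(L * (-y - 0 - b)) := by push_cast; ring
    rw [e]
    exact ⟨neg_le_neg hb.2, by linarith [hb.1]⟩
  · rintro ⟨b, hb⟩
    refine ⟨-b, ?_⟩
    have e : L * (-y - 0 - ((-b : ℤ) : ℝ)) = -(L * (y - 0 - b)) := by push_cast; ring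
    rw [e]
    exact ⟨neg_le_neg hb.2, by linarith [hb.1]⟩

/-- the inclusion of the sets gives the inequality -/
theorem hI_of_hit {J : Set ℝ} {L t y : ℝ} (h : Hit J L t y) : hI J L t y = 1 := by
  unfold hI
  exact if_pos h

theorem hI_of_not_hit {J : Set ℝ} {L t y : ℝ} (h : ¬ Hit J L t y) : hI J L t y = 0 := by
  unfold hI
  exact if_neg h

/-- for disjoint blocks (`j ∈ V`) the counts add up -/
theorem cnt_biUnion (J : Set ℝ) (L : ℝ) (V : Finset ℕ) (A : ℕ → Finset ℕ)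
    (hd : ∀ i ∈ V, ∀ j ∈ V, i ≠ j → Disjoint (A i) (A j)) (y : ℕ → ℝ) (t : ℝ) :
    cnt J L (V.biUnion A) y t = ∑ j ∈ V, cnt J L (A j) y t := by
  have h : (cnt J L (V.biUnion A) y t : ℝ) = ((∑ j ∈ V, cnt J L (A j) y t : ℕ) : ℝ) := by
    rw [cnt_eq, Finset.sum_biUnion hd]
    push_cast
    exact Finset.sum_congr rfl fun j _ => (cnt_eq J L (A j) y t).symm
  exact_mod_cast h

theorem card_UU (Q : ℕ) : (UU Q).card = Q.totient := by
  rfl

end Pool.Agent.Lib.MP_de5eaa_nt.Poi
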