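import Pool.Agent.Lib.MP_de5eaa_nt.Poi.Defs
import Pool.Agent.Lib.MP_de5eaa_nt.Poi.M0

set_option autoImplicit false

namespace Pool.Agent.Lib.MP_de5eaa_nt.Poi

open Finset MeasureTheory Filter Topology
open Pool.Agent.Lib.MP_de5eaa_nt.Near (hs wq)

theorem B1a_step {x P S N : ℝ} (hx0 : 0 ≤ x) (hx1 : x ≤ 1) (hS0 : 0 ≤ S) (hSN : S ≤ N)
    (h0 : 0 ≤ P - (1 - S)) (h1 : P - (1 - S) ≤ N * (N - 1) / 2) :
    0 ≤ P * x - (1 - (S + (1 - x))) ∧ P * x - (1 - (S + (1 - x))) ≤ (N + 1) * (N + 1 - 1) / 2 := by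
  have e : P * x - (1 - (S + (1 - x))) = x * (P - (1 - S)) + (1 - x) * S := by ring
  have hx2 : 0 ≤ 1 - x := by linarith
  rw [e]
  refine ⟨add_nonneg (mul_nonneg hx0 h0) (mul_nonneg hx2 hS0), ?_⟩
  have a1 : x * (P - (1 - S)) ≤ P - (1 - S) := by
    have := mul_le_mul_of_nonneg_right hx1 h0
    linarith
  have a2 : (1 - x) * S ≤ S := by
    have := mul_nonneg hx0 hS0
    nlinarith
  nlinarith

theorem B1a_aux {x y : ℝ} (hx0 : 0 ≤ x) (hx1 : x ≤ 1) (hy0 : 0 ≤ y) (hy1 : y ≤ 1) (c d : ℕ) :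
    0 ≤ x ^ c * y ^ d - (1 - ((1 - x) * c + (1 - y) * d)) ∧
      x ^ c * y ^ d - (1 - ((1 - x) * c + (1 - y) * d)) ≤ ((c : ℝ) + d) * ((c : ℝ) + d - 1) / 2 := by
  have hx2 : 0 ≤ 1 - x := by linarith
  have hy2 : 0 ≤ 1 - y := by linarith
  have hS : ∀ c d : ℕ, 0 ≤ (1 - x) * (c : ℝ) + (1 - y) * (d : ℝ) ∧
      (1 - x) * (c : ℝ) + (1 - y) * (d : ℝ) ≤ (c : ℝ) + d := by
    intro c d
    have hc : (0 : ℝ) ≤ c := Nat.cast_nonneg c
    have hd : (0 : ℝ) ≤ d := Nat.cast_nonneg d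
    refine ⟨add_nonneg (mul_nonneg hx2 hc) (mul_nonneg hy2 hd), ?_⟩
    have := mul_nonneg hx0 hc
    have := mul_nonneg hy0 hd
    nlinarith
  induction c with
  | zero =>
    induction d with
    | zero => norm_num
    | succ d ih =>
      have h := B1a_step hy0 hy1 (hS 0 d).1 (hS 0 d).2 ih.1 ih.2
      have e1 : x ^ 0 * y ^ (d + 1) - (1 - ((1 - x) * ((0 : ℕ) : ℝ) + (1 - y) * ((d + 1 : ℕ) : ℝ))) =
          x ^ 0 * y ^ d * y - (1 - ((1 - x) * ((0 : ℕ) : ℝ) + (1 - y) * (d : ℝ) + (1 - y))) := by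
        push_cast
        ring
      have e2 : (((0 : ℕ) : ℝ) + ((d + 1 : ℕ) : ℝ)) * (((0 : ℕ) : ℝ) + ((d + 1 : ℕ) : ℝ) - 1) / 2 =
          (((0 : ℕ) : ℝ) + (d : ℝ) + 1) * (((0 : ℕ) : ℝ) + (d : ℝ) + 1 - 1) / 2 := by
        push_cast
        ring
      rw [e1, e2]
      exact h
  | succ c ih =>
    have h := B1a_step hx0 hx1 (hS c d).1 (hS c d).2 ih.1 ih.2
    have e1 : x ^ (c + 1) * y ^ d - (1 - ((1 - x) * ((c + 1 : ℕ) : ℝ) + (1 - y) * (d : ℝ))) =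
        x ^ c * y ^ d * x - (1 - ((1 - x) * (c : ℝ) + (1 - y) * (d : ℝ) + (1 - x))) := by
      push_cast
      ring
    have e2 : (((c + 1 : ℕ) : ℝ) + (d : ℝ)) * (((c + 1 : ℕ) : ℝ) + (d : ℝ) - 1) / 2 =
        ((c : ℝ) + (d : ℝ) + 1) * ((c : ℝ) + (d : ℝ) + 1 - 1) / 2 := by
      push_cast
      ring
    rw [e1, e2]
    exact h

/-- ROW B1a (Bonferroni). Prove `0 ≤ P - (1 - S) ≤ N (N-1)/2` where `P = x^c y^d`, `S = (1-x) c + (1-y) d`, `N = c + d`, by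
induction on `c` and on `d`: if `P` is multiplied by `x` then `P x - (1 - S - (1-x)) = x (P - (1 - S)) + (1-x) S` and `0 ≤ (1-x) S ≤ N`. -/
theorem bonf {x y : ℝ} (hx0 : 0 ≤ x) (hx1 : x ≤ 1) (hy0 : 0 ≤ y) (hy1 : y ≤ 1) (c d : ℕ) :
    |x ^ c * y ^ d - (1 - (1 - x) * c - (1 - y) * d)| ≤ (c : ℝ) * (c - 1) / 2 + (d : ℝ) * (d - 1) / 2 + c * d := by
  have h := B1a_aux hx0 hx1 hy0 hy1 c d
  have e : x ^ c * y ^ d - (1 - (1 - x) * c - (1 - y) * d) =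
      x ^ c * y ^ d - (1 - ((1 - x) * c + (1 - y) * d)) := by ring
  rw [e, abs_of_nonneg h.1]
  refine h.2.trans (le_of_eq ?_)
  ring

/-- the number of the pairs -/
noncomputable def prs (J : Set ℝ) (L : ℝ) (A : Finset ℕ) (y : ℕ → ℝ) (t : ℝ) : ℝ :=
  ∑ n ∈ A, ∑ m ∈ A.filter (n < ·), hI J L t (y n) * hI J L t (y m)

theorem B1b_pairs (h : ℕ → ℝ) (hh : ∀ n, h n * h n = h n) (A : Finset ℕ) :
    ∑ n ∈ A, ∑ m ∈ A.filter (n < ·), h n * h m = (∑ n ∈ A, h n) * ((∑ n ∈ A, h n) - 1) / 2 := by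
  induction A using Finset.induction_on_max with
  | empty => simp
  | insert a s hlt ih =>
    have ha : a ∉ s := fun h' => lt_irrefl a (hlt a h')
    rw [Finset.sum_insert ha, Finset.sum_insert ha]
    have h1 : (insert a s).filter (a < ·) = ∅ := by
      apply Finset.filter_eq_empty_iff.2
      intro x hx
      rcases Finset.mem_insert.1 hx with h2 | h2
      · omega
      · have := hlt x h2
        omega
    have h2 : ∑ n ∈ s, ∑ m ∈ (insert a s).filter (n < ·), h n * h m =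
        ∑ n ∈ s, (h n * h a + ∑ m ∈ s.filter (n < ·), h n * h m) := by
      apply Finset.sum_congr rfl
      intro n hn
      rw [Finset.filter_insert, if_pos (hlt n hn), Finset.sum_insert]
      intro h3
      exact ha (Finset.mem_filter.1 h3).1
    rw [h1, Finset.sum_empty, h2, Finset.sum_add_distrib, ih, ← Finset.sum_mul]
    have h3 := hh a
    linear_combination (-1 / 2 : ℝ) * h3

/-- ROW B1b. The number of the pairs `n < m` in the set `{n ∈ A | Hit}` of `c` elements is `c (c-1)/2`. Induction on the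
maximum of `A` (`Finset.induction_on_max`): adding `m0 > A` adds `cnt * hI J L t (y m0)` and `hI` is `0` or `1`. Or:
`2 prs + ∑ n, hI^2 = (∑ hI)^2`. -/
theorem prs_eq (J : Set ℝ) (L : ℝ) (A : Finset ℕ) (y : ℕ → ℝ) (t : ℝ) :
    prs J L A y t = (cnt J L A y t : ℝ) * ((cnt J L A y t : ℝ) - 1) / 2 := by
  rw [cnt_eq]
  exact B1b_pairs (fun n => hI J L t (y n)) (fun n => by
    by_cases h : Hit J L t (y n)
    · rw [hI_of_hit h]; norm_num
    · rw [hI_of_not_hit h]; norm_num) A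

end Pool.Agent.Lib.MP_de5eaa_nt.Poi
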