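import Pool.Agent.Lib.MP_de5eaa_nt.Poi.Defs

set_option autoImplicit false

namespace Pool.Agent.Lib.MP_de5eaa_nt.Poi

open Finset MeasureTheory Filter Topology
open Pool.Agent.Lib.MP_de5eaa_nt.Near (hs wq)

/-- ROW B2a (telescoping). Induction on `k`: `∏_{i ≤ k} f u i = (∏_{i<k} f u i) (f u k - κ k) + κ k ∏_{i<k} f u i`. -/
theorem tele_avg {ι : Type*} (U : Finset ι) (k : ℕ) (f : ι → ℕ → ℝ) (κ : ℕ → ℝ) (hκ : ∀ j < k, |κ j| ≤ 1) (e : ℕ → ℝ)
    (he : ∀ j < k, |∑ u ∈ U, (∏ i ∈ range j, f u i) * (f u j - κ j)| ≤ e j) :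
    |(∑ u ∈ U, ∏ i ∈ range k, f u i) - (U.card : ℝ) * ∏ i ∈ range k, κ i| ≤ ∑ j ∈ range k, e j := by
  induction k with
  | zero => simp
  | succ k ih =>
    have h1 := ih (fun j hj => hκ j (Nat.lt_succ_of_lt hj)) (fun j hj => he j (Nat.lt_succ_of_lt hj))
    have h2 := he k (Nat.lt_succ_self k)
    have h3 := hκ k (Nat.lt_succ_self k)
    have e1 : ∑ u ∈ U, ∏ i ∈ range (k + 1), f u i =
        ∑ u ∈ U, (∏ i ∈ range k, f u i) * (f u k - κ k) + κ k * ∑ u ∈ U, ∏ i ∈ range k, f u i := by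
      rw [Finset.mul_sum, ← Finset.sum_add_distrib]
      refine Finset.sum_congr rfl fun u _ => ?_
      rw [Finset.prod_range_succ]
      ring
    have e2 : (∑ u ∈ U, ∏ i ∈ range (k + 1), f u i) - (U.card : ℝ) * ∏ i ∈ range (k + 1), κ i =
        ∑ u ∈ U, (∏ i ∈ range k, f u i) * (f u k - κ k) +
          κ k * ((∑ u ∈ U, ∏ i ∈ range k, f u i) - (U.card : ℝ) * ∏ i ∈ range k, κ i) := by
      rw [e1, Finset.prod_range_succ]
      ring
    rw [e2, Finset.sum_range_succ]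
    refine (abs_add_le _ _).trans ?_
    rw [abs_mul]
    have h4 : |κ k| * |(∑ u ∈ U, ∏ i ∈ range k, f u i) - (U.card : ℝ) * ∏ i ∈ range k, κ i| ≤
        1 * |(∑ u ∈ U, ∏ i ∈ range k, f u i) - (U.card : ℝ) * ∏ i ∈ range k, κ i| :=
      mul_le_mul_of_nonneg_right h3 (abs_nonneg _)
    linarith

theorem B2b_add {f g : ℝ → ℝ} {v w : ℝ}
    (hf : IntervalIntegrable f volume 0 1 ∧ ∫ t in (0 : ℝ)..1, f t = v)
    (hg : IntervalIntegrable g volume 0 1 ∧ ∫ t in (0 : ℝ)..1, g t = w) :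
    IntervalIntegrable (fun t => f t + g t) volume 0 1 ∧ ∫ t in (0 : ℝ)..1, (f t + g t) = v + w :=
  ⟨hf.1.add hg.1, by rw [intervalIntegral.integral_add hf.1 hg.1, hf.2, hg.2]⟩

theorem B2b_sub {f g : ℝ → ℝ} {v w : ℝ}
    (hf : IntervalIntegrable f volume 0 1 ∧ ∫ t in (0 : ℝ)..1, f t = v)
    (hg : IntervalIntegrable g volume 0 1 ∧ ∫ t in (0 : ℝ)..1, g t = w) :
    IntervalIntegrable (fun t => f t - g t) volume 0 1 ∧ ∫ t in (0 : ℝ)..1, (f t - g t) = v - w :=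
  ⟨hf.1.sub hg.1, by rw [intervalIntegral.integral_sub hf.1 hg.1, hf.2, hg.2]⟩

theorem B2b_const (v : ℝ) :
    IntervalIntegrable (fun _ => v) volume 0 1 ∧ ∫ _t in (0 : ℝ)..1, v = v :=
  ⟨intervalIntegrable_const, by simp⟩

theorem B2b_mul {f : ℝ → ℝ} {v : ℝ} (r : ℝ)
    (hf : IntervalIntegrable f volume 0 1 ∧ ∫ t in (0 : ℝ)..1, f t = v) :
    IntervalIntegrable (fun t => f t * r) volume 0 1 ∧ ∫ t in (0 : ℝ)..1, (f t * r) = v * r :=
  ⟨hf.1.mul_const r, by rw [intervalIntegral.integral_mul_const, hf.2]⟩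

theorem B2b_sum {ι : Type*} (U : Finset ι) {f : ι → ℝ → ℝ} {v : ι → ℝ}
    (hf : ∀ u ∈ U, IntervalIntegrable (f u) volume 0 1 ∧ ∫ t in (0 : ℝ)..1, f u t = v u) :
    IntervalIntegrable (fun t => ∑ u ∈ U, f u t) volume 0 1 ∧
      ∫ t in (0 : ℝ)..1, (∑ u ∈ U, f u t) = ∑ u ∈ U, v u := by
  classical
  induction U using Finset.induction_on with
  | empty => simp
  | insert a s has ih =>
    have h1 := hf a (mem_insert_self a s)
    have h2 := ih fun u hu => hf u (mem_insert_of_mem hu)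
    have h3 := B2b_add h1 h2
    simp only [sum_insert has]
    exact h3

theorem B2b_abs {F G : ℝ → ℝ} {v w : ℝ}
    (hF : IntervalIntegrable F volume 0 1 ∧ ∫ t in (0 : ℝ)..1, F t = v)
    (hG : IntervalIntegrable G volume 0 1 ∧ ∫ t in (0 : ℝ)..1, G t = w)
    (h : ∀ t, |F t| ≤ G t) : |v| ≤ w := by
  rw [← hF.2, ← hG.2]
  have h1 : ‖∫ t in (0 : ℝ)..1, F t‖ ≤ ∫ t in (0 : ℝ)..1, G t :=
    intervalIntegral.norm_integral_le_of_norm_le (f := F) zero_le_one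
      (Filter.Eventually.of_forall fun t _ => by rw [Real.norm_eq_abs]; exact h t) hG.1
  rwa [Real.norm_eq_abs] at h1

/-- ROW B2b (integration in two variables without Fubini). For fixed `s` integrate the inequality over `t ∈ [0,1]`
(`intervalIntegral.abs_integral_le_integral_abs`, `intervalIntegral.integral_mono_on`): the inequality with `a u t`, `P u t`,
`C u j t` replaced by their integrals; then integrate over `s`. -/
theorem int_two {ι κ : Type*} (U : Finset ι) (V : Finset κ) (a b P : ι → ℝ → ℝ) (C : ι → κ → ℝ → ℝ) (c e : ℝ)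
    (ha : ∀ u ∈ U, IntervalIntegrable (a u) volume 0 1) (hb : ∀ u ∈ U, IntervalIntegrable (b u) volume 0 1)
    (hP : ∀ u ∈ U, IntervalIntegrable (P u) volume 0 1)
    (hC : ∀ u ∈ U, ∀ j ∈ V, IntervalIntegrable (C u j) volume 0 1)
    (h : ∀ t s : ℝ, |(∑ u ∈ U, a u t * b u s) - c| ≤ e + ∑ u ∈ U, (P u t + P u s + ∑ j ∈ V, C u j t * C u j s)) :
    |(∑ u ∈ U, (∫ t in (0 : ℝ)..1, a u t) * ∫ t in (0 : ℝ)..1, b u t) - c| ≤
      e + ∑ u ∈ U, (2 * (∫ t in (0 : ℝ)..1, P u t) + ∑ j ∈ V, (∫ t in (0 : ℝ)..1, C u j t) ^ 2) := by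
  have h1 : ∀ s : ℝ, |(∑ u ∈ U, (∫ t in (0 : ℝ)..1, a u t) * b u s) - c| ≤
      e + ∑ u ∈ U, ((∫ t in (0 : ℝ)..1, P u t) + P u s +
        ∑ j ∈ V, (∫ t in (0 : ℝ)..1, C u j t) * C u j s) := by
    intro s
    refine B2b_abs (F := fun t => (∑ u ∈ U, a u t * b u s) - c)
      (G := fun t => e + ∑ u ∈ U, (P u t + P u s + ∑ j ∈ V, C u j t * C u j s)) ?_ ?_
      (fun t => h t s)
    · exact B2b_sub (B2b_sum U fun u hu => B2b_mul (b u s) ⟨ha u hu, rfl⟩) (B2b_const c)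
    · exact B2b_add (B2b_const e) (B2b_sum U fun u hu =>
        B2b_add (B2b_add ⟨hP u hu, rfl⟩ (B2b_const (P u s)))
          (B2b_sum V fun j hj => B2b_mul (C u j s) ⟨hC u hu j hj, rfl⟩))
  have h2 : |(∑ u ∈ U, (∫ t in (0 : ℝ)..1, b u t) * ∫ t in (0 : ℝ)..1, a u t) - c| ≤
      e + ∑ u ∈ U, ((∫ t in (0 : ℝ)..1, P u t) + (∫ t in (0 : ℝ)..1, P u t) +
        ∑ j ∈ V, (∫ t in (0 : ℝ)..1, C u j t) * ∫ t in (0 : ℝ)..1, C u j t) := by
    refine B2b_abs (F := fun s => (∑ u ∈ U, b u s * ∫ t in (0 : ℝ)..1, a u t) - c)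
      (G := fun s => e + ∑ u ∈ U, ((∫ t in (0 : ℝ)..1, P u t) + P u s +
        ∑ j ∈ V, C u j s * ∫ t in (0 : ℝ)..1, C u j t)) ?_ ?_ (fun s => ?_)
    · exact B2b_sub (B2b_sum U fun u hu => B2b_mul _ ⟨hb u hu, rfl⟩) (B2b_const c)
    · exact B2b_add (B2b_const e) (B2b_sum U fun u hu =>
        B2b_add (B2b_add (B2b_const _) ⟨hP u hu, rfl⟩)
          (B2b_sum V fun j hj => B2b_mul _ ⟨hC u hu j hj, rfl⟩))
    · have h3 := h1 s
      simp only [mul_comm (∫ t in (0 : ℝ)..1, _) _] at h3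
      exact h3
  have e1 : ∑ u ∈ U, (∫ t in (0 : ℝ)..1, a u t) * ∫ t in (0 : ℝ)..1, b u t =
      ∑ u ∈ U, (∫ t in (0 : ℝ)..1, b u t) * ∫ t in (0 : ℝ)..1, a u t :=
    sum_congr rfl fun u _ => mul_comm _ _
  rw [e1]
  refine h2.trans (le_of_eq ?_)
  congr 1
  refine sum_congr rfl fun u _ => ?_
  rw [two_mul]
  congr 1
  exact sum_congr rfl fun j _ => by rw [sq]

end Pool.Agent.Lib.MP_de5eaa_nt.Poi
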