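import Pool.Agent.Lib.MP_de5eaa_nt.Poi.Defs
import Pool.Agent.Lib.MP_de5eaa_nt.Poi.B1
import Pool.Agent.Lib.MP_de5eaa_nt.Poi.B2

set_option autoImplicit false

namespace Pool.Agent.Lib.MP_de5eaa_nt.Poi

open Finset MeasureTheory Filter Topology
open Pool.Agent.Lib.MP_de5eaa_nt.Near (hs wq)

theorem B3_lin {ι : Type*} (U : Finset ι) (B : Finset ℕ) (Z : ι → ℕ → ℝ) (G : ι → ℝ) {J : Set ℝ}
    {L w D : ℝ} (t : ℝ) (h : ∀ n ∈ B, |∑ u ∈ U, G u * (hI J L t (Z u n) - w)| ≤ D) :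
    |∑ u ∈ U, G u * ((cnt J L B (Z u) t : ℝ) - (B.card : ℝ) * w)| ≤ (B.card : ℝ) * D := by
  have e : ∑ u ∈ U, G u * ((cnt J L B (Z u) t : ℝ) - (B.card : ℝ) * w) =
      ∑ n ∈ B, ∑ u ∈ U, G u * (hI J L t (Z u n) - w) := by
    rw [Finset.sum_comm]
    refine Finset.sum_congr rfl fun u _ => ?_
    rw [cnt_eq, ← Finset.mul_sum, Finset.sum_sub_distrib, Finset.sum_const, nsmul_eq_mul]
  rw [e]
  calc |∑ n ∈ B, ∑ u ∈ U, G u * (hI J L t (Z u n) - w)|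
      ≤ ∑ n ∈ B, |∑ u ∈ U, G u * (hI J L t (Z u n) - w)| := Finset.abs_sum_le_sum_abs _ _
    _ ≤ ∑ _n ∈ B, D := Finset.sum_le_sum h
    _ = (B.card : ℝ) * D := by rw [Finset.sum_const, nsmul_eq_mul]

theorem B3_step {ι : Type*} (U : Finset ι) (B : Finset ℕ) (Z : ι → ℕ → ℝ) (G : ι → ℝ) {J : Set ℝ}
    {L w D x y : ℝ} (hx0 : 0 ≤ x) (hx1 : x ≤ 1) (hy0 : 0 ≤ y) (hy1 : y ≤ 1)
    (hG0 : ∀ u, 0 ≤ G u) (hG1 : ∀ u, G u ≤ 1) (t s : ℝ)
    (h1 : ∀ n ∈ B, |∑ u ∈ U, G u * (hI J L t (Z u n) - w)| ≤ D)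
    (h2 : ∀ n ∈ B, |∑ u ∈ U, G u * (hI J L s (Z u n) - w)| ≤ D) :
    |∑ u ∈ U, G u * (x ^ cnt J L B (Z u) t * y ^ cnt J L B (Z u) s -
      (1 - (2 - x - y) * ((B.card : ℝ) * w)))| ≤
      2 * D * (B.card : ℝ) + ∑ u ∈ U, (prs J L B (Z u) t + prs J L B (Z u) s +
        (cnt J L B (Z u) t : ℝ) * (cnt J L B (Z u) s : ℝ)) := by
  have l1 := B3_lin U B Z G t h1
  have l2 := B3_lin U B Z G s h2
  have e : ∑ u ∈ U, G u * (x ^ cnt J L B (Z u) t * y ^ cnt J L B (Z u) s -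
      (1 - (2 - x - y) * ((B.card : ℝ) * w))) =
      (∑ u ∈ U, G u * (x ^ cnt J L B (Z u) t * y ^ cnt J L B (Z u) s -
        (1 - (1 - x) * (cnt J L B (Z u) t : ℝ) - (1 - y) * (cnt J L B (Z u) s : ℝ)))) -
      (1 - x) * (∑ u ∈ U, G u * ((cnt J L B (Z u) t : ℝ) - (B.card : ℝ) * w)) -
      (1 - y) * (∑ u ∈ U, G u * ((cnt J L B (Z u) s : ℝ) - (B.card : ℝ) * w)) := by
    rw [Finset.mul_sum, Finset.mul_sum, ← Finset.sum_sub_distrib, ← Finset.sum_sub_distrib]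
    refine Finset.sum_congr rfl fun u _ => ?_
    ring
  have l3 : |∑ u ∈ U, G u * (x ^ cnt J L B (Z u) t * y ^ cnt J L B (Z u) s -
        (1 - (1 - x) * (cnt J L B (Z u) t : ℝ) - (1 - y) * (cnt J L B (Z u) s : ℝ)))| ≤
      ∑ u ∈ U, (prs J L B (Z u) t + prs J L B (Z u) s +
        (cnt J L B (Z u) t : ℝ) * (cnt J L B (Z u) s : ℝ)) := by
    refine le_trans (Finset.abs_sum_le_sum_abs _ _) (Finset.sum_le_sum fun u _ => ?_)
    rw [abs_mul, abs_of_nonneg (hG0 u), prs_eq, prs_eq]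
    have hb := bonf hx0 hx1 hy0 hy1 (cnt J L B (Z u) t) (cnt J L B (Z u) s)
    calc G u * |x ^ cnt J L B (Z u) t * y ^ cnt J L B (Z u) s -
        (1 - (1 - x) * (cnt J L B (Z u) t : ℝ) - (1 - y) * (cnt J L B (Z u) s : ℝ))|
        ≤ 1 * |x ^ cnt J L B (Z u) t * y ^ cnt J L B (Z u) s -
        (1 - (1 - x) * (cnt J L B (Z u) t : ℝ) - (1 - y) * (cnt J L B (Z u) s : ℝ))| :=
          mul_le_mul_of_nonneg_right (hG1 u) (abs_nonneg _)
      _ ≤ _ := by rw [one_mul]; exact hb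
  rw [e]
  generalize (∑ u ∈ U, G u * (x ^ cnt J L B (Z u) t * y ^ cnt J L B (Z u) s -
        (1 - (1 - x) * (cnt J L B (Z u) t : ℝ) - (1 - y) * (cnt J L B (Z u) s : ℝ)))) = a at l3 ⊢
  generalize (∑ u ∈ U, G u * ((cnt J L B (Z u) t : ℝ) - (B.card : ℝ) * w)) = b at l1 ⊢
  generalize (∑ u ∈ U, G u * ((cnt J L B (Z u) s : ℝ) - (B.card : ℝ) * w)) = c at l2 ⊢
  have m1 : |(1 - x) * b| ≤ (B.card : ℝ) * D := by
    rw [abs_mul, abs_of_nonneg (by linarith : (0 : ℝ) ≤ 1 - x)]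
    calc (1 - x) * |b| ≤ 1 * |b| := mul_le_mul_of_nonneg_right (by linarith) (abs_nonneg _)
      _ ≤ _ := by rw [one_mul]; exact l1
  have m2 : |(1 - y) * c| ≤ (B.card : ℝ) * D := by
    rw [abs_mul, abs_of_nonneg (by linarith : (0 : ℝ) ≤ 1 - y)]
    calc (1 - y) * |c| ≤ 1 * |c| := mul_le_mul_of_nonneg_right (by linarith) (abs_nonneg _)
      _ ≤ _ := by rw [one_mul]; exact l2
  calc |a - (1 - x) * b - (1 - y) * c| ≤ |a - (1 - x) * b| + |(1 - y) * c| := abs_sub _ _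
    _ ≤ |a| + |(1 - x) * b| + |(1 - y) * c| := by
      have := abs_sub a ((1 - x) * b)
      linarith
    _ ≤ _ := by linarith

/-- ROW B3 (pointwise estimate). `tele_avg` with `f u i = x^{c_i} y^{d_i}`, `c_i = cnt J L (A i) (Y u) t`, `d_i = cnt J L (A i) (Y u) s`,
`κ i = 1 - (2-x-y) |A i| w` (`|κ i| ≤ 1` by `hA`, as `0 ≤ 2 - x - y ≤ 2`), using `cnt_biUnion` and `Finset.prod_pow_eq_pow_sum` for the product over
the blocks. For `G u = ∏_{i<j} f u i ∈ [0,1]` (it depends only on the counts for `i < j`, so it satisfies the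
hypothesis of `hlin`): `f u j - κ j = -(1-x) (c_j - |A j| w) - (1-y) (d_j - |A j| w) + E`, `|E| ≤ prs (t) + prs (s) + c_j d_j` (`bonf`,
`prs_eq`), and `∑_u G u (c_j - |A j| w) = ∑_{n ∈ A j} ∑_u G u (hI J L t (Y u n) - w)` is at most `|A j| D` in absolute value
(`cnt_eq`, `hlin`). -/
theorem pt_bound {ι : Type*} (U : Finset ι) (k : ℕ) (A : ℕ → Finset ℕ)
    (hd : ∀ i < k, ∀ j < k, i ≠ j → Disjoint (A i) (A j)) (Y : ι → ℕ → ℝ) {J : Set ℝ} {L w D x y : ℝ}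
    (hx0 : 0 ≤ x) (hx1 : x ≤ 1) (hy0 : 0 ≤ y) (hy1 : y ≤ 1) (hw : 0 ≤ w) (hA : ∀ j < k, ((A j).card : ℝ) * w ≤ 1)
    (hlin : ∀ j < k, ∀ n ∈ A j, ∀ t : ℝ, ∀ G : ι → ℝ, (∀ u, 0 ≤ G u) → (∀ u, G u ≤ 1) →
      (∀ u v, (∀ i < j, ∀ n' ∈ A i, ∀ t' : ℝ, Hit J L t' (Y u n') ↔ Hit J L t' (Y v n')) → G u = G v) →
      |∑ u ∈ U, G u * (hI J L t (Y u n) - w)| ≤ D) (t s : ℝ) :
    |(∑ u ∈ U, x ^ cnt J L ((range k).biUnion A) (Y u) t * y ^ cnt J L ((range k).biUnion A) (Y u) s) -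
      (U.card : ℝ) * ∏ j ∈ range k, (1 - (2 - x - y) * (((A j).card : ℝ) * w))| ≤
      2 * D * (∑ j ∈ range k, ((A j).card : ℝ)) + ∑ u ∈ U, ((∑ j ∈ range k, prs J L (A j) (Y u) t) +
        (∑ j ∈ range k, prs J L (A j) (Y u) s) +
        ∑ j ∈ range k, (cnt J L (A j) (Y u) t : ℝ) * (cnt J L (A j) (Y u) s : ℝ)) := by
  have hcnt : ∀ u r, cnt J L ((range k).biUnion A) (Y u) r = ∑ j ∈ range k, cnt J L (A j) (Y u) r :=
    fun u r => cnt_biUnion J L (range k) A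
      (fun i hi j hj hij => hd i (Finset.mem_range.1 hi) j (Finset.mem_range.1 hj) hij) (Y u) r
  have hprod : ∀ u, x ^ cnt J L ((range k).biUnion A) (Y u) t *
      y ^ cnt J L ((range k).biUnion A) (Y u) s =
      ∏ i ∈ range k, (x ^ cnt J L (A i) (Y u) t * y ^ cnt J L (A i) (Y u) s) := by
    intro u
    rw [hcnt, hcnt, Finset.prod_mul_distrib, Finset.prod_pow_eq_pow_sum,
      Finset.prod_pow_eq_pow_sum]
  rw [Finset.sum_congr rfl fun u _ => hprod u]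
  have hf0 : ∀ u i, 0 ≤ x ^ cnt J L (A i) (Y u) t * y ^ cnt J L (A i) (Y u) s :=
    fun u i => mul_nonneg (pow_nonneg hx0 _) (pow_nonneg hy0 _)
  have hf1 : ∀ u i, x ^ cnt J L (A i) (Y u) t * y ^ cnt J L (A i) (Y u) s ≤ 1 :=
    fun u i => mul_le_one₀ (pow_le_one₀ hx0 hx1) (pow_nonneg hy0 _) (pow_le_one₀ hy0 hy1)
  have hκ : ∀ j < k, |1 - (2 - x - y) * (((A j).card : ℝ) * w)| ≤ 1 := by
    intro j hj
    have h1 := hA j hj
    have h0 : 0 ≤ ((A j).card : ℝ) * w := mul_nonneg (Nat.cast_nonneg _) hw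
    have h2 : 0 ≤ (2 - x - y) * (((A j).card : ℝ) * w) := mul_nonneg (by linarith) h0
    have h3 : (2 - x - y) * (((A j).card : ℝ) * w) ≤ 2 * 1 :=
      mul_le_mul (by linarith) h1 h0 (by norm_num)
    rw [abs_le]
    constructor <;> linarith
  refine le_trans (tele_avg U k (fun u i => x ^ cnt J L (A i) (Y u) t * y ^ cnt J L (A i) (Y u) s)
    (fun j => 1 - (2 - x - y) * (((A j).card : ℝ) * w)) hκ
    (fun j => 2 * D * ((A j).card : ℝ) + ∑ u ∈ U, (prs J L (A j) (Y u) t + prs J L (A j) (Y u) s +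
        (cnt J L (A j) (Y u) t : ℝ) * (cnt J L (A j) (Y u) s : ℝ))) ?_) (le_of_eq ?_)
  · intro j hj
    have hG0 : ∀ u, 0 ≤ ∏ i ∈ range j, (x ^ cnt J L (A i) (Y u) t * y ^ cnt J L (A i) (Y u) s) :=
      fun u => Finset.prod_nonneg fun i _ => hf0 u i
    have hG1 : ∀ u, ∏ i ∈ range j, (x ^ cnt J L (A i) (Y u) t * y ^ cnt J L (A i) (Y u) s) ≤ 1 :=
      fun u => Finset.prod_le_one (fun i _ => hf0 u i) fun i _ => hf1 u i
    have hdep : ∀ u v, (∀ i < j, ∀ n' ∈ A i, ∀ t' : ℝ, Hit J L t' (Y u n') ↔ Hit J L t' (Y v n')) →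
        ∏ i ∈ range j, (x ^ cnt J L (A i) (Y u) t * y ^ cnt J L (A i) (Y u) s) =
        ∏ i ∈ range j, (x ^ cnt J L (A i) (Y v) t * y ^ cnt J L (A i) (Y v) s) := by
      intro u v huv
      refine Finset.prod_congr rfl fun i hi => ?_
      have hi' := Finset.mem_range.1 hi
      have hc : ∀ r, cnt J L (A i) (Y u) r = cnt J L (A i) (Y v) r := by
        intro r
        have hr : (cnt J L (A i) (Y u) r : ℝ) = (cnt J L (A i) (Y v) r : ℝ) := by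
          rw [cnt_eq, cnt_eq]
          refine Finset.sum_congr rfl fun n hn => ?_
          by_cases h : Hit J L r (Y u n)
          · rw [hI_of_hit h, hI_of_hit ((huv i hi' n hn r).1 h)]
          · rw [hI_of_not_hit h, hI_of_not_hit fun h' => h ((huv i hi' n hn r).2 h')]
        exact_mod_cast hr
      rw [hc, hc]
    exact B3_step U (A j) Y _ hx0 hx1 hy0 hy1 hG0 hG1 t s
      (fun n hn => hlin j hj n hn t _ hG0 hG1 hdep) (fun n hn => hlin j hj n hn s _ hG0 hG1 hdep)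
  · rw [Finset.sum_add_distrib, ← Finset.mul_sum, Finset.sum_comm]
    refine congrArg _ (Finset.sum_congr rfl fun u _ => ?_)
    rw [Finset.sum_add_distrib, Finset.sum_add_distrib]

end Pool.Agent.Lib.MP_de5eaa_nt.Poi
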