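import Pool.Agent.Lib.MP_de5eaa_nt.Poi.Defs

set_option autoImplicit false

namespace Pool.Agent.Lib.MP_de5eaa_nt.Poi

open Finset MeasureTheory Filter Topology
open Pool.Agent.Lib.MP_de5eaa_nt.Near (hs wq)

theorem M1_iUnion (S : Set ℝ) (L y : ℝ) : {t : ℝ | Hit S L t y} ∩ Set.Ioc 0 1 =
    ⋃ a : ℤ, {t : ℝ | L * (y - t - a) ∈ S} ∩ Set.Ioc 0 1 := by
  ext t
  simp only [Hit, Set.mem_inter_iff, Set.mem_ofPred_eq, Set.mem_iUnion]
  constructor
  · rintro ⟨⟨a, ha⟩, ht⟩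
    exact ⟨a, ha, ht⟩
  · rintro ⟨a, ha, ht⟩
    exact ⟨⟨a, ha⟩, ht⟩

theorem M1_meas {S : Set ℝ} (hS : MeasurableSet S) (L y : ℝ) (a : ℤ) :
    MeasurableSet ({t : ℝ | L * (y - t - a) ∈ S} ∩ Set.Ioc 0 1) := by
  refine MeasurableSet.inter ?_ measurableSet_Ioc
  have h : Measurable fun t : ℝ => L * (y - t - a) := by fun_prop
  exact h hS

theorem M1_vol {S : Set ℝ} (hS : MeasurableSet S) (L y : ℝ) (a : ℤ) :
    volume ({t : ℝ | L * (y - t - a) ∈ S} ∩ Set.Ioc 0 1) =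
      volume ((fun s : ℝ => L * s) ⁻¹' S ∩ Set.Ico (y + ((-1 - a : ℤ) : ℝ))
        (y + ((-1 - a : ℤ) : ℝ) + 1)) := by
  have hm : MeasurableSet ((fun s : ℝ => L * s) ⁻¹' S ∩ Set.Ico (y + ((-1 - a : ℤ) : ℝ))
        (y + ((-1 - a : ℤ) : ℝ) + 1)) := by
    refine MeasurableSet.inter ?_ measurableSet_Ico
    have h : Measurable fun s : ℝ => L * s := by fun_prop
    exact h hS
  have h := (Measure.measurePreserving_sub_left (volume : Measure ℝ) (y - a)).measure_preimage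
    hm.nullMeasurableSet
  rw [← h]
  congr 1
  ext t
  simp only [Set.mem_inter_iff, Set.mem_ofPred_eq, Set.mem_Ioc, Set.mem_preimage, Set.mem_Ico]
  have e : y - t - a = y - a - t := by ring
  rw [e]
  push_cast
  constructor
  · rintro ⟨h1, h2, h3⟩
    exact ⟨h1, by linarith, by linarith⟩
  · rintro ⟨h1, h2, h3⟩
    exact ⟨h1, by linarith, by linarith⟩

theorem M1_tsum {S : Set ℝ} (hS : MeasurableSet S) {L : ℝ} (hL : 0 < L) (y : ℝ) :
    ∑' a : ℤ, volume ({t : ℝ | L * (y - t - a) ∈ S} ∩ Set.Ioc 0 1) =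
      ENNReal.ofReal (1 / L) * volume S := by
  have h1 : ∑' a : ℤ, volume ({t : ℝ | L * (y - t - a) ∈ S} ∩ Set.Ioc 0 1) =
      ∑' n : ℤ, volume ((fun s : ℝ => L * s) ⁻¹' S ∩ Set.Ico (y + (n : ℝ)) (y + (n : ℝ) + 1)) := by
    rw [← (Equiv.subLeft (-1 : ℤ)).tsum_eq]
    refine tsum_congr fun a => ?_
    rw [M1_vol hS]
    have e : (-1 - (Equiv.subLeft (-1 : ℤ)) a : ℤ) = a := by
      rw [Equiv.subLeft_apply]
      ring
    rw [e]
  have hQ : MeasurableSet ((fun s : ℝ => L * s) ⁻¹' S) := by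
    have h : Measurable fun s : ℝ => L * s := by fun_prop
    exact h hS
  rw [h1, ← measure_iUnion, ← Set.inter_iUnion, iUnion_Ico_add_intCast, Set.inter_univ,
    Real.volume_preimage_mul_left hL.ne', abs_of_pos (inv_pos.2 hL), one_div]
  · intro i j hij
    refine Disjoint.mono Set.inter_subset_right Set.inter_subset_right ?_
    exact Set.pairwise_disjoint_Ico_add_intCast y hij
  · intro n
    exact hQ.inter measurableSet_Ico

/-- ROW M1 (unfolding). The sets `T a = {t ∈ (0,1] | L (y - t - a) ∈ S}` (`a : ℤ`) cover the set, and `T a` is the preimage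
under the reflection `t ↦ y - a - t` of `{s ∈ [y-a-1, y-a) | L s ∈ S}`, so `volume (T a) = volume ({s | L s ∈ S} ∩
Set.Ico (y - a - 1) (y - a))`. The intervals `Set.Ico (y-a-1) (y-a)` are disjoint and cover `ℝ`, hence
`∑' a, volume (T a) = volume {s | L s ∈ S} = volume S / L` (`Real.volume_preimage_mul_left`). Then
`measure_iUnion_le` (first statement), and for the second statement the `T a` are disjoint (`L(y-t-a), L(y-t-a')
∈ [-R,R]` gives `L |a - a'| ≤ 2R < L`, `a = a'`), `measure_iUnion`. -/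
theorem unfold_le {S : Set ℝ} (hS : MeasurableSet S) {L : ℝ} (hL : 0 < L) (y : ℝ) :
    volume ({t : ℝ | Hit S L t y} ∩ Set.Ioc 0 1) ≤ ENNReal.ofReal (1 / L) * volume S := by
  rw [M1_iUnion, ← M1_tsum hS hL y]
  exact measure_iUnion_le _

theorem unfold_eq {S : Set ℝ} (hS : MeasurableSet S) {L R : ℝ} (hR0 : 0 ≤ R) (hSR : S ⊆ Set.Icc (-R) R) (hL : 2 * R < L)
    (y : ℝ) : volume ({t : ℝ | Hit S L t y} ∩ Set.Ioc 0 1) = ENNReal.ofReal (1 / L) * volume S := by
  have hL0 : 0 < L := by linarith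
  rw [M1_iUnion, ← M1_tsum hS hL0 y]
  refine measure_iUnion ?_ fun a => M1_meas hS L y a
  intro a b hab
  refine Set.disjoint_left.2 ?_
  rintro t ⟨h1, -⟩ ⟨h2, -⟩
  apply hab
  have h3 := hSR h1
  have h4 := hSR h2
  rw [Set.mem_Icc] at h3 h4
  have h5 : L * ((a : ℝ) - b) < L := by nlinarith [h3.1, h4.2]
  have h6 : -L < L * ((a : ℝ) - b) := by nlinarith [h3.2, h4.1]
  have h7 : (a : ℝ) - b < 1 := by
    by_contra hc
    push Not at hc
    nlinarith
  have h8 : -1 < (a : ℝ) - b := by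
    by_contra hc
    push Not at hc
    nlinarith
  have h9 : a - b < 1 := by exact_mod_cast h7
  have h10 : -1 < a - b := by exact_mod_cast h8
  omega

end Pool.Agent.Lib.MP_de5eaa_nt.Poi
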