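import Pool.Agent.Lib.MP_de5eaa_nt.Poi.Defs

set_option autoImplicit false

namespace Pool.Agent.Lib.MP_de5eaa_nt.Poi

open Finset MeasureTheory Filter Topology
open Pool.Agent.Lib.MP_de5eaa_nt.Near (hs wq)

theorem M2_bdd {f : ℝ → ℝ} (hf : Measurable f) (h0 : ∀ t, 0 ≤ f t) (h1 : ∀ t, f t ≤ 1) (a b : ℝ) :
    IntervalIntegrable f volume a b := by
  refine (intervalIntegrable_const (c := (1 : ℝ)) (μ := volume) (a := a) (b := b)).mono_fun' hf.aestronglyMeasurable ?_
  filter_upwards with t
  rw [Real.norm_eq_abs, abs_of_nonneg (h0 t)]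
  exact h1 t

theorem M2_hI_nonneg (J : Set ℝ) (L t y : ℝ) : 0 ≤ hI J L t y := by
  unfold hI
  split_ifs <;> norm_num

theorem M2_hI_le (J : Set ℝ) (L t y : ℝ) : hI J L t y ≤ 1 := by
  unfold hI
  split_ifs <;> norm_num

/-- ROW M2 (measurability). `{t | Hit J L t y} = ⋃ a : ℤ, (fun t => L * (y - t - a)) ⁻¹' J`, a countable union of
measurable sets; `hI` is its indicator; `cnt` is a finite sum of indicators (`Finset.card_filter`); `x ^ cnt` is a
composition with a function `ℕ → ℝ` (`measurable_from_nat` / `measurable_of_countable`). The functions are bounded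
(`0 ≤ hI ≤ 1`, `0 ≤ x ^ cnt ≤ 1`), hence interval integrable (`Measure.integrableOn_of_bounded`, or
`MeasureTheory.Integrable.mono'` with a constant). -/
theorem meas_hit {J : Set ℝ} (hJ : MeasurableSet J) (L y : ℝ) : MeasurableSet {t | Hit J L t y} := by
  have h : {t | Hit J L t y} = ⋃ a : ℤ, (fun t : ℝ => L * (y - t - a)) ⁻¹' J := by
    ext t
    simp only [Set.mem_ofPred_eq, Set.mem_iUnion, Set.mem_preimage, Hit]
  rw [h]
  refine MeasurableSet.iUnion fun a => ?_
  have hm : Measurable fun t : ℝ => L * (y - t - a) := by fun_prop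
  exact hm hJ

theorem meas_hI {J : Set ℝ} (hJ : MeasurableSet J) (L y : ℝ) : Measurable fun t => hI J L t y := by
  classical
  unfold hI
  exact Measurable.ite (meas_hit hJ L y) measurable_const measurable_const

theorem meas_cnt {J : Set ℝ} (hJ : MeasurableSet J) (L : ℝ) (I : Finset ℕ) (y : ℕ → ℝ) :
    Measurable fun t => cnt J L I y t := by
  classical
  unfold cnt
  simp only [Finset.card_filter]
  refine Finset.measurable_sum _ fun n _ => ?_
  exact Measurable.ite (meas_hit hJ L (y n)) measurable_const measurable_const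

theorem integrable_hI {J : Set ℝ} (hJ : MeasurableSet J) (L y : ℝ) (a b : ℝ) :
    IntervalIntegrable (fun t => hI J L t y) volume a b :=
  M2_bdd (meas_hI hJ L y) (fun t => M2_hI_nonneg J L t y) (fun t => M2_hI_le J L t y) a b

theorem integrable_hI_mul {J : Set ℝ} (hJ : MeasurableSet J) (L y y' : ℝ) (a b : ℝ) :
    IntervalIntegrable (fun t => hI J L t y * hI J L t y') volume a b :=
  M2_bdd ((meas_hI hJ L y).mul (meas_hI hJ L y'))
    (fun t => mul_nonneg (M2_hI_nonneg J L t y) (M2_hI_nonneg J L t y'))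
    (fun t => mul_le_one₀ (M2_hI_le J L t y) (M2_hI_nonneg J L t y') (M2_hI_le J L t y')) a b

theorem integrable_pow {J : Set ℝ} (hJ : MeasurableSet J) (L : ℝ) (I : Finset ℕ) (y : ℕ → ℝ) {x : ℝ} (h0 : 0 ≤ x)
    (h1 : x ≤ 1) (a b : ℝ) : IntervalIntegrable (fun t => x ^ cnt J L I y t) volume a b := by
  refine M2_bdd ?_ (fun t => pow_nonneg h0 _) (fun t => pow_le_one₀ h0 h1) a b
  exact (measurable_from_nat (f := fun k : ℕ => x ^ k)).comp (meas_cnt hJ L I y)

end Pool.Agent.Lib.MP_de5eaa_nt.Poi
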