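import Pool.Agent.Lib.MP_de5eaa_nt.Poi.Defs
import Pool.Agent.Lib.MP_de5eaa_nt.Poi.M0
import Pool.Agent.Lib.MP_de5eaa_nt.Poi.M1
import Pool.Agent.Lib.MP_de5eaa_nt.Poi.M2

set_option autoImplicit false

namespace Pool.Agent.Lib.MP_de5eaa_nt.Poi

open Finset MeasureTheory Filter Topology
open Pool.Agent.Lib.MP_de5eaa_nt.Near (hs wq)

/-- ROW M3. `∫₀¹ hI = volume ({t | Hit} ∩ (0,1]) = lam / L` (`unfold_eq`; `intervalIntegral.integral_of_le`, the
function is the indicator of `{t | Hit J L t y}`, `MeasureTheory.integral_indicator_one` / `setIntegral_indicator`). -/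
theorem int_hI {J : Set ℝ} {lam K R L : ℝ} (hJ : Nice J lam K R) (hL : 2 * R < L) (y : ℝ) :
    ∫ t in (0 : ℝ)..1, hI J L t y = lam / L := by
  have hL0 : 0 < L := lt_of_le_of_lt (mul_nonneg zero_le_two hJ.R0) hL
  have hfun : (fun t => hI J L t y) = Set.indicator {t : ℝ | Hit J L t y} (fun _ => (1 : ℝ)) := by
    funext t
    by_cases h : Hit J L t y
    · rw [hI_of_hit h, Set.indicator_of_mem (show t ∈ {t : ℝ | Hit J L t y} from h)]
    · rw [hI_of_not_hit h, Set.indicator_of_notMem (show t ∉ {t : ℝ | Hit J L t y} from h)]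
  rw [intervalIntegral.integral_of_le zero_le_one, hfun, integral_indicator (meas_hit hJ.meas L y),
    integral_const, Measure.real, Measure.restrict_restrict (meas_hit hJ.meas L y),
    Measure.restrict_apply MeasurableSet.univ, Set.univ_inter,
    unfold_eq hJ.meas hJ.R0 hJ.sub hL y, hJ.vol, ← ENNReal.ofReal_mul (by positivity),
    ENNReal.toReal_ofReal (mul_nonneg (by positivity) hJ.lam0), smul_eq_mul, mul_one]
  ring

/-- If `Hit J L t y` (with the integer `a`) and `Hit J L t y'` (with `a'`) then `L (y' - y - 0 - (a' - a))` is a difference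
of two elements of `[-R,R]`, so the right side is `lam / L`, and the product is at most `hI J L t y`, whose integral is
`lam / L`. If there is no such `t` then the left side is zero and the right side is nonnegative. -/
theorem int_pair {J : Set ℝ} {lam K R L : ℝ} (hJ : Nice J lam K R) (hL : 2 * R < L) (y y' : ℝ) :
    ∫ t in (0 : ℝ)..1, hI J L t y * hI J L t y' ≤ lam / L * hI (Set.Icc (-(2 * R)) (2 * R)) L 0 (y' - y) := by
  by_cases h : Hit (Set.Icc (-(2 * R)) (2 * R)) L 0 (y' - y)
  · rw [hI_of_hit h, mul_one, ← int_hI hJ hL y]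
    refine intervalIntegral.integral_mono_on zero_le_one (integrable_hI_mul hJ.meas L y y' 0 1)
      (integrable_hI hJ.meas L y 0 1) fun t _ => ?_
    exact mul_le_of_le_one_right (hI_nonneg J L t y) (hI_le_one J L t y')
  · have h0 : ∀ t : ℝ, hI J L t y * hI J L t y' = 0 := by
      intro t
      by_cases h1 : Hit J L t y
      · by_cases h2 : Hit J L t y'
        · exfalso
          apply h
          obtain ⟨a, ha⟩ := h1
          obtain ⟨a', ha'⟩ := h2
          have e1 := hJ.sub ha
          have e2 := hJ.sub ha'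
          rw [Set.mem_Icc] at e1 e2
          refine ⟨a' - a, ?_⟩
          have e : L * (y' - y - 0 - ((a' - a : ℤ) : ℝ)) = L * (y' - t - a') - L * (y - t - a) := by
            push_cast
            ring
          rw [e, Set.mem_Icc]
          constructor <;> linarith [e1.1, e1.2, e2.1, e2.2]
        · rw [hI_of_not_hit h2, mul_zero]
      · rw [hI_of_not_hit h1, zero_mul]
    rw [hI_of_not_hit h, mul_zero]
    simp only [h0, intervalIntegral.integral_zero, le_refl]

end Pool.Agent.Lib.MP_de5eaa_nt.Poi
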