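import Pool.Agent.Lib.MP_de5eaa_nt.Poi.Defs
import Pool.Agent.Lib.MP_de5eaa_nt.Poi.B3
import Pool.Agent.Lib.MP_de5eaa_nt.Poi.M3

set_option autoImplicit false

namespace Pool.Agent.Lib.MP_de5eaa_nt.Poi

open Finset MeasureTheory Filter Topology
open Pool.Agent.Lib.MP_de5eaa_nt.Near (hs wq)

theorem B4_sum_int {κ : Type*} (s : Finset κ) (f : κ → ℝ → ℝ)
    (h : ∀ i ∈ s, IntervalIntegrable (f i) volume 0 1) :
    IntervalIntegrable (fun t => ∑ i ∈ s, f i t) volume 0 1 := by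
  have h1 := IntervalIntegrable.sum s (f := f) h
  have h2 : (∑ i ∈ s, f i) = fun t => ∑ i ∈ s, f i t := by
    funext t
    exact Finset.sum_apply t s f
  rwa [h2] at h1

theorem B4_prs_int {J : Set ℝ} {lam K R : ℝ} (L : ℝ) (hJ : Nice J lam K R) (A : Finset ℕ) (y : ℕ → ℝ) :
    IntervalIntegrable (fun t => prs J L A y t) volume 0 1 := by
  unfold prs
  exact B4_sum_int A _ fun n _ => B4_sum_int _ _ fun m _ => integrable_hI_mul hJ.meas L (y n) (y m) 0 1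

theorem B4_cnt_int {J : Set ℝ} {lam K R L : ℝ} (hJ : Nice J lam K R) (hL : 2 * R < L) (A : Finset ℕ) (y : ℕ → ℝ) :
    ∫ t in (0 : ℝ)..1, (cnt J L A y t : ℝ) = (A.card : ℝ) * (lam / L) := by
  simp only [cnt_eq]
  rw [intervalIntegral.integral_finsetSum fun n _ => integrable_hI hJ.meas L (y n) 0 1]
  rw [Finset.sum_congr rfl fun n _ => int_hI hJ hL (y n), Finset.sum_const, nsmul_eq_mul]

theorem B4_prs_le {J : Set ℝ} {lam K R L : ℝ} (hJ : Nice J lam K R) (hL : 2 * R < L) (A : Finset ℕ) (y : ℕ → ℝ) :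
    ∫ t in (0 : ℝ)..1, prs J L A y t ≤ ∑ n ∈ A, ∑ m ∈ A.filter (n < ·),
      lam / L * hI (Set.Icc (-(2 * R)) (2 * R)) L 0 (y m - y n) := by
  unfold prs
  rw [intervalIntegral.integral_finsetSum fun n _ =>
    B4_sum_int _ _ fun m _ => integrable_hI_mul hJ.meas L (y n) (y m) 0 1]
  refine Finset.sum_le_sum fun n _ => ?_
  rw [intervalIntegral.integral_finsetSum fun m _ => integrable_hI_mul hJ.meas L (y n) (y m) 0 1]
  exact Finset.sum_le_sum fun m _ => int_pair hJ hL (y n) (y m)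

/-- ROW B4. Integrate `pt_bound` with `int_two` (`V = range k`, `P u t = ∑ j, prs J L (A j) (Y u) t`, `C u j t = cnt J L (A j) (Y u) t`).
`∫ cnt = |A j| lam/L` (`cnt_eq`, `int_hI`), `∫ prs ≤ ∑_{n<m} lam/L hI(...)` (`int_pair`), integrability from `M2`. -/
theorem gf_blocks {ι : Type*} (U : Finset ι) (k : ℕ) (A : ℕ → Finset ℕ)
    (hd : ∀ i < k, ∀ j < k, i ≠ j → Disjoint (A i) (A j)) (Y : ι → ℕ → ℝ) {J : Set ℝ} {lam K R L D x y : ℝ}
    (hJ : Nice J lam K R) (hL : 2 * R < L)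
    (hx0 : 0 ≤ x) (hx1 : x ≤ 1) (hy0 : 0 ≤ y) (hy1 : y ≤ 1) (hA : ∀ j < k, ((A j).card : ℝ) * (lam / L) ≤ 1)
    (hlin : ∀ j < k, ∀ n ∈ A j, ∀ t : ℝ, ∀ G : ι → ℝ, (∀ u, 0 ≤ G u) → (∀ u, G u ≤ 1) →
      (∀ u v, (∀ i < j, ∀ n' ∈ A i, ∀ t' : ℝ, Hit J L t' (Y u n') ↔ Hit J L t' (Y v n')) → G u = G v) →
      |∑ u ∈ U, G u * (hI J L t (Y u n) - lam / L)| ≤ D) :
    |(∑ u ∈ U, gf J L ((range k).biUnion A) (Y u) x * gf J L ((range k).biUnion A) (Y u) y) -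
      (U.card : ℝ) * ∏ j ∈ range k, (1 - (2 - x - y) * (((A j).card : ℝ) * (lam / L)))| ≤
      2 * D * (∑ j ∈ range k, ((A j).card : ℝ)) + (U.card : ℝ) * (∑ j ∈ range k, (((A j).card : ℝ) * (lam / L)) ^ 2) +
        2 * (lam / L) * ∑ j ∈ range k, ∑ n ∈ A j, ∑ m ∈ (A j).filter (n < ·), ∑ u ∈ U,
          hI (Set.Icc (-(2 * R)) (2 * R)) L 0 (Y u m - Y u n) := by
  have hL0 : 0 < L := lt_of_le_of_lt (by linarith [hJ.R0]) hL
  have hw : 0 ≤ lam / L := div_nonneg hJ.lam0 hL0.le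
  have hmain := int_two U (range k) (fun u t => x ^ cnt J L ((range k).biUnion A) (Y u) t)
    (fun u t => y ^ cnt J L ((range k).biUnion A) (Y u) t)
    (fun u t => ∑ j ∈ range k, prs J L (A j) (Y u) t) (fun u j t => (cnt J L (A j) (Y u) t : ℝ))
    ((U.card : ℝ) * ∏ j ∈ range k, (1 - (2 - x - y) * (((A j).card : ℝ) * (lam / L))))
    (2 * D * (∑ j ∈ range k, ((A j).card : ℝ)))
    (fun u _ => integrable_pow hJ.meas L _ (Y u) hx0 hx1 0 1)
    (fun u _ => integrable_pow hJ.meas L _ (Y u) hy0 hy1 0 1)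
    (fun u _ => B4_sum_int _ _ fun j _ => B4_prs_int L hJ (A j) (Y u))
    (fun u _ j _ => by
      simp only [cnt_eq]
      exact B4_sum_int _ _ fun n _ => integrable_hI hJ.meas L (Y u n) 0 1)
    (fun t s => pt_bound U k A hd Y hx0 hx1 hy0 hy1 hw hA hlin t s)
  unfold gf
  refine hmain.trans ?_
  have h1 : ∀ u ∈ U, 2 * (∫ t in (0 : ℝ)..1, ∑ j ∈ range k, prs J L (A j) (Y u) t) +
      ∑ j ∈ range k, (∫ t in (0 : ℝ)..1, (cnt J L (A j) (Y u) t : ℝ)) ^ 2 ≤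
      2 * (∑ j ∈ range k, ∑ n ∈ A j, ∑ m ∈ (A j).filter (n < ·),
        lam / L * hI (Set.Icc (-(2 * R)) (2 * R)) L 0 (Y u m - Y u n)) +
      ∑ j ∈ range k, (((A j).card : ℝ) * (lam / L)) ^ 2 := by
    intro u _
    have h2 : ∑ j ∈ range k, (∫ t in (0 : ℝ)..1, (cnt J L (A j) (Y u) t : ℝ)) ^ 2 =
        ∑ j ∈ range k, (((A j).card : ℝ) * (lam / L)) ^ 2 :=
      Finset.sum_congr rfl fun j _ => by rw [B4_cnt_int hJ hL]
    have h3 : ∫ t in (0 : ℝ)..1, ∑ j ∈ range k, prs J L (A j) (Y u) t ≤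
        ∑ j ∈ range k, ∑ n ∈ A j, ∑ m ∈ (A j).filter (n < ·),
        lam / L * hI (Set.Icc (-(2 * R)) (2 * R)) L 0 (Y u m - Y u n) := by
      rw [intervalIntegral.integral_finsetSum fun j _ => B4_prs_int L hJ (A j) (Y u)]
      exact Finset.sum_le_sum fun j _ => B4_prs_le hJ hL (A j) (Y u)
    rw [h2]
    linarith
  have h4 := Finset.sum_le_sum h1
  have h6 : ∀ (X : ι → ℝ) (c : ℝ), ∑ u ∈ U, (2 * X u + c) = 2 * (∑ u ∈ U, X u) + (U.card : ℝ) * c := by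
    intro X c
    rw [Finset.sum_add_distrib, Finset.sum_const, nsmul_eq_mul, ← Finset.mul_sum]
  rw [h6] at h4
  have h5 : ∑ u ∈ U, ∑ j ∈ range k, ∑ n ∈ A j, ∑ m ∈ (A j).filter (n < ·),
        lam / L * hI (Set.Icc (-(2 * R)) (2 * R)) L 0 (Y u m - Y u n) =
      lam / L * ∑ j ∈ range k, ∑ n ∈ A j, ∑ m ∈ (A j).filter (n < ·), ∑ u ∈ U,
          hI (Set.Icc (-(2 * R)) (2 * R)) L 0 (Y u m - Y u n) := by
    rw [Finset.sum_comm, Finset.mul_sum]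
    refine Finset.sum_congr rfl fun j _ => ?_
    rw [Finset.sum_comm, Finset.mul_sum]
    refine Finset.sum_congr rfl fun n _ => ?_
    rw [Finset.sum_comm, Finset.mul_sum]
    refine Finset.sum_congr rfl fun m _ => ?_
    rw [Finset.mul_sum]
  rw [h5] at h4
  linarith

end Pool.Agent.Lib.MP_de5eaa_nt.Poi
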