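import Pool.Agent.Lib.MP_de5eaa_nt.Poi.Defs
import Pool.Agent.Lib.MP_de5eaa_nt.Poi.M3

set_option autoImplicit false

namespace Pool.Agent.Lib.MP_de5eaa_nt.Poi

open Finset MeasureTheory Filter Topology
open Pool.Agent.Lib.MP_de5eaa_nt.Near (hs wq)

/-- ROW B5. `0 ≤ x ^ c ≤ 1`, integrals over `[0,1]`; `x = 1` gives `1`. -/
theorem gf_nonneg {J : Set ℝ} (L : ℝ) (I : Finset ℕ) (y : ℕ → ℝ) {x : ℝ} (h0 : 0 ≤ x) : 0 ≤ gf J L I y x := by
  unfold gf
  exact intervalIntegral.integral_nonneg zero_le_one fun t _ => pow_nonneg h0 _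

theorem gf_le_one {J : Set ℝ} (hJ : MeasurableSet J) (L : ℝ) (I : Finset ℕ) (y : ℕ → ℝ) {x : ℝ} (h0 : 0 ≤ x)
    (h1 : x ≤ 1) : gf J L I y x ≤ 1 := by
  unfold gf
  have h2 : ∫ t in (0 : ℝ)..1, x ^ cnt J L I y t ≤ ∫ _t in (0 : ℝ)..1, (1 : ℝ) :=
    intervalIntegral.integral_mono_on zero_le_one (integrable_pow hJ L I y h0 h1 0 1)
      intervalIntegrable_const fun t _ => pow_le_one₀ h0 h1
  simpa using h2

theorem gf_one (J : Set ℝ) (L : ℝ) (I : Finset ℕ) (y : ℕ → ℝ) : gf J L I y 1 = 1 := by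
  unfold gf
  simp

/-- the number of the points as a sum of indicators -/
theorem B5b_cnt (J : Set ℝ) (L : ℝ) (I : Finset ℕ) (y : ℕ → ℝ) (t : ℝ) :
    ((cnt J L I y t : ℕ) : ℝ) = ∑ n ∈ I, hI J L t (y n) := by
  classical
  unfold cnt hI
  rw [Finset.card_filter]
  push_cast
  refine Finset.sum_congr rfl fun n _ => ?_
  by_cases h : Hit J L t (y n) <;> simp [h]

theorem B5b_pow {x : ℝ} (h0 : 0 ≤ x) (h1 : x ≤ 1) {a b : ℕ} (h : a ≤ b) :
    |x ^ b - x ^ a| ≤ (b : ℝ) - a := by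
  rcases Nat.eq_or_lt_of_le h with h2 | h2
  · rw [h2]
    simp
  · have h3 : x ^ b ≤ x ^ a := pow_le_pow_of_le_one h0 h1 h
    have h4 : 0 ≤ x ^ b := pow_nonneg h0 b
    have h5 : x ^ a ≤ 1 := pow_le_one₀ h0 h1
    have h6 : (a : ℝ) + 1 ≤ b := by exact_mod_cast h2
    rw [abs_sub_comm, abs_of_nonneg (by linarith)]
    linarith

/-- Pointwise `0 ≤ x^{cnt A} - x^{cnt I} ≤ cnt I - cnt A = ∑ n ∈ I \ A, hI` (`x^a - x^b ≤ b - a` for `a ≤ b`: the
left side is at most `1`, and it is zero for `a = b`). Integrate (`int_hI`). -/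
theorem gf_diff {J : Set ℝ} {lam K R L : ℝ} (hJ : Nice J lam K R) (hL : 2 * R < L) {A I : Finset ℕ} (hAI : A ⊆ I)
    (y : ℕ → ℝ) {x : ℝ} (h0 : 0 ≤ x) (h1 : x ≤ 1) :
    |gf J L I y x - gf J L A y x| ≤ ((I.card : ℝ) - A.card) * (lam / L) := by
  have hcnt : ∀ t, (((cnt J L I y t : ℕ) : ℝ) - (cnt J L A y t : ℕ)) =
      ∑ n ∈ I \ A, hI J L t (y n) := by
    intro t
    rw [B5b_cnt, B5b_cnt, ← Finset.sum_sdiff hAI]
    ring
  have hle : ∀ t, cnt J L A y t ≤ cnt J L I y t := by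
    intro t
    classical
    unfold cnt
    exact Finset.card_le_card (Finset.filter_subset_filter _ hAI)
  have i1 := integrable_pow hJ.meas L I y h0 h1 0 1
  have i2 := integrable_pow hJ.meas L A y h0 h1 0 1
  have i3 : IntervalIntegrable (fun t => ∑ n ∈ I \ A, hI J L t (y n)) volume 0 1 := by
    have := IntervalIntegrable.sum (I \ A) (f := fun n t => hI J L t (y n)) (μ := volume)
      (a := (0 : ℝ)) (b := 1) fun n _ => integrable_hI hJ.meas L (y n) 0 1
    have h7 : (fun t => ∑ n ∈ I \ A, hI J L t (y n)) =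
        ∑ n ∈ I \ A, (fun t => hI J L t (y n)) := by
      funext t
      rw [Finset.sum_apply]
    rw [h7]
    exact this
  have hcard : ((I \ A).card : ℝ) = (I.card : ℝ) - A.card := by
    rw [Finset.card_sdiff_of_subset hAI, Nat.cast_sub (Finset.card_le_card hAI)]
  unfold gf
  rw [← intervalIntegral.integral_sub i1 i2]
  calc |∫ t in (0 : ℝ)..1, (x ^ cnt J L I y t - x ^ cnt J L A y t)|
      ≤ ∫ t in (0 : ℝ)..1, |x ^ cnt J L I y t - x ^ cnt J L A y t| :=
        intervalIntegral.abs_integral_le_integral_abs zero_le_one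
    _ ≤ ∫ t in (0 : ℝ)..1, ∑ n ∈ I \ A, hI J L t (y n) := by
        refine intervalIntegral.integral_mono_on zero_le_one (i1.sub i2).abs i3 fun t _ => ?_
        rw [← hcnt t]
        exact B5b_pow h0 h1 (hle t)
    _ = ((I.card : ℝ) - A.card) * (lam / L) := by
        rw [intervalIntegral.integral_finsetSum fun n _ => integrable_hI hJ.meas L (y n) 0 1]
        rw [Finset.sum_congr rfl fun n _ => int_hI hJ hL (y n), Finset.sum_const, nsmul_eq_mul,
          hcard]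

end Pool.Agent.Lib.MP_de5eaa_nt.Poi
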