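import Pool.Agent.Lib.MP_de5eaa_nt.Poi.Defs

set_option autoImplicit false

namespace Pool.Agent.Lib.MP_de5eaa_nt.Poi

open Finset MeasureTheory Filter Topology
open Pool.Agent.Lib.MP_de5eaa_nt.Near (hs wq)

/-- ROW C1. `(∑ (f - e)^2)/|U| = ((∑ f^2)/|U| - e^2) - 2 e ((∑ f)/|U| - e) ≤ 3 δ ≤ ε^3`, and each `u` of the set contributes
more than `ε^2` (Chebyshev's inequality). (`U` empty: trivial.) -/
theorem cheb_var {ι : Type*} (U : Finset ι) (f : ι → ℝ) {e δ ε : ℝ} (he0 : 0 ≤ e) (he1 : e ≤ 1) (hε : 0 < ε)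
    (hδ : 3 * δ ≤ ε ^ 3) (h2 : |(∑ u ∈ U, f u ^ 2) / (U.card : ℝ) - e ^ 2| ≤ δ)
    (h1 : |(∑ u ∈ U, f u) / (U.card : ℝ) - e| ≤ δ) :
    ((U.filter fun u => ε < |f u - e|).card : ℝ) ≤ ε * U.card := by
  classical
  rcases Nat.eq_zero_or_pos U.card with h0 | hpos
  · have hU : U = ∅ := Finset.card_eq_zero.mp h0
    subst hU
    simp
  have hn : (0 : ℝ) < (U.card : ℝ) := by exact_mod_cast hpos
  set n : ℝ := (U.card : ℝ) with hn_def
  have hsum : ∑ u ∈ U, (f u - e) ^ 2 = (∑ u ∈ U, f u ^ 2) - 2 * e * (∑ u ∈ U, f u) + n * e ^ 2 := by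
    have : ∀ u ∈ U, (f u - e) ^ 2 = f u ^ 2 - 2 * e * f u + e ^ 2 := by
      intro u _
      ring
    rw [Finset.sum_congr rfl this, Finset.sum_add_distrib, Finset.sum_sub_distrib, ← Finset.mul_sum,
      Finset.sum_const, nsmul_eq_mul]
  have hdiv : (∑ u ∈ U, (f u - e) ^ 2) / n
      = ((∑ u ∈ U, f u ^ 2) / n - e ^ 2) - 2 * e * ((∑ u ∈ U, f u) / n - e) := by
    rw [hsum]
    field_simp
    ring
  have hb2 := (abs_le.mp h2).2
  have hb1 := (abs_le.mp h1).1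
  have hδ0 : 0 ≤ δ := le_trans (abs_nonneg _) h2
  have hle : (∑ u ∈ U, (f u - e) ^ 2) / n ≤ ε ^ 3 := by
    rw [hdiv]
    have hmul : e * (-δ) ≤ e * ((∑ u ∈ U, f u) / n - e) := mul_le_mul_of_nonneg_left hb1 he0
    have hmul2 : e * δ ≤ 1 * δ := mul_le_mul_of_nonneg_right he1 hδ0
    linarith
  have hle2 : (∑ u ∈ U, (f u - e) ^ 2) ≤ ε ^ 3 * n := (div_le_iff₀ hn).mp hle
  have hcard : ((U.filter fun u => ε < |f u - e|).card : ℝ) * ε ^ 2 ≤ ∑ u ∈ U, (f u - e) ^ 2 := by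
    calc ((U.filter fun u => ε < |f u - e|).card : ℝ) * ε ^ 2
        = ∑ u ∈ U.filter (fun u => ε < |f u - e|), ε ^ 2 := by
          rw [Finset.sum_const, nsmul_eq_mul]
      _ ≤ ∑ u ∈ U.filter (fun u => ε < |f u - e|), (f u - e) ^ 2 := by
          apply Finset.sum_le_sum
          intro u hu
          have hu2 := (Finset.mem_filter.mp hu).2
          rw [← sq_abs (f u - e)]
          exact pow_le_pow_left₀ hε.le hu2.le 2
      _ ≤ ∑ u ∈ U, (f u - e) ^ 2 :=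
          Finset.sum_le_sum_of_subset_of_nonneg (Finset.filter_subset _ _) (fun u _ _ => sq_nonneg _)
  have hfin : ((U.filter fun u => ε < |f u - e|).card : ℝ) * ε ^ 2 ≤ (ε * n) * ε ^ 2 := by
    calc _ ≤ _ := hcard
      _ ≤ ε ^ 3 * n := hle2
      _ = (ε * n) * ε ^ 2 := by ring
  exact le_of_mul_le_mul_right hfin (by positivity)

end Pool.Agent.Lib.MP_de5eaa_nt.Poi
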