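import Pool.Agent.Lib.MP_de5eaa_nt.Poi.Defs

set_option autoImplicit false

namespace Pool.Agent.Lib.MP_de5eaa_nt.Poi

open Finset MeasureTheory Filter Topology
open Pool.Agent.Lib.MP_de5eaa_nt.Near (hs wq)

theorem C2_min (r : ℕ) (δ : Fin r → ℝ) (h : ∀ i, 0 < δ i) : ∃ δ0 : ℝ, 0 < δ0 ∧ ∀ i, δ0 ≤ δ i := by
  rcases isEmpty_or_nonempty (Fin r) with hr | hr
  · exact ⟨1, one_pos, fun i => (hr.false i).elim⟩
  · obtain ⟨i0, h0⟩ := Finite.exists_min δ
    exact ⟨δ i0, h i0, h0⟩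

/-- the Poisson weights -/
noncomputable def C2_e (lam : ℝ) (i : ℕ) : ℝ := Real.exp (-lam) * lam ^ i / (Nat.factorial i : ℝ)

theorem C2_hasSum (lam x : ℝ) :
    HasSum (fun i => C2_e lam i * x ^ i) (Real.exp (-(lam * (1 - x)))) := by
  have h1 : HasSum (fun n : ℕ => (lam * x) ^ n / (n.factorial : ℝ)) (Real.exp (lam * x)) := by
    have h := NormedSpace.expSeries_div_hasSum_exp (lam * x)
    rw [← Real.exp_eq_exp_ℝ] at h
    exact h
  have h2 := h1.mul_left (Real.exp (-lam))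
  rw [← Real.exp_add] at h2
  have h3 : -lam + lam * x = -(lam * (1 - x)) := by ring
  rw [h3] at h2
  have h4 : (fun i : ℕ => C2_e lam i * x ^ i) =
      fun i : ℕ => Real.exp (-lam) * ((lam * x) ^ i / (i.factorial : ℝ)) := by
    funext i
    unfold C2_e
    rw [mul_pow]
    ring
  rw [h4]
  exact h2

theorem C2_e_nonneg {lam : ℝ} (hlam : 0 ≤ lam) (i : ℕ) : 0 ≤ C2_e lam i := by
  unfold C2_e
  positivity

theorem C2_e_le_one {lam : ℝ} (hlam : 0 ≤ lam) (i : ℕ) : C2_e lam i ≤ 1 := by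
  have h1 := C2_hasSum lam 1
  have h2 : Real.exp (-(lam * (1 - 1))) = 1 := by
    rw [sub_self, mul_zero, neg_zero, Real.exp_zero]
  rw [h2] at h1
  have h3 := le_hasSum h1 i (fun j _ => mul_nonneg (C2_e_nonneg hlam j) (by positivity))
  rw [one_pow, mul_one] at h3
  exact h3

theorem C2_tail {d : ℕ → ℝ} (hd : ∀ i, |d i| ≤ 1) {x : ℝ} (hx0 : 0 < x) (hx : x ≤ 1 / 2) {D : ℝ}
    (hD : HasSum (fun i => d i * x ^ i) D) (r : ℕ) :
    |D - ∑ i ∈ range (r + 1), d i * x ^ i| ≤ 2 * x ^ (r + 1) := by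
  have h1 := (hasSum_nat_add_iff' (r + 1)).2 hD
  have h2 : HasSum (fun n : ℕ => x ^ n * x ^ (r + 1)) ((1 - x)⁻¹ * x ^ (r + 1)) :=
    (hasSum_geometric_of_lt_one hx0.le (by linarith)).mul_right _
  have h3 : ∀ n : ℕ, ‖d (n + (r + 1)) * x ^ (n + (r + 1))‖ ≤ x ^ n * x ^ (r + 1) := by
    intro n
    rw [Real.norm_eq_abs, abs_mul, abs_of_pos (pow_pos hx0 (n + (r + 1))), ← pow_add]
    calc |d (n + (r + 1))| * x ^ (n + (r + 1)) ≤ 1 * x ^ (n + (r + 1)) := by
          gcongr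
          exact hd _
      _ = x ^ (n + (r + 1)) := one_mul _
  have h4 := tsum_of_norm_bounded h2 h3
  rw [h1.tsum_eq, Real.norm_eq_abs] at h4
  refine h4.trans ?_
  have h5 : (1 - x)⁻¹ ≤ 2 := by
    rw [inv_le_comm₀ (by linarith) (by norm_num)]
    linarith
  gcongr

theorem C2_key {d : ℕ → ℝ} (hd : ∀ i, |d i| ≤ 1) {x ε : ℝ} (hx0 : 0 < x) (hx : x ≤ 1 / 2)
    (hxe : x ≤ ε / 8) {D : ℝ} (hD : HasSum (fun i => d i * x ^ i) D) (r : ℕ)
    (hDd : |D| ≤ ε * x ^ r / 4) (hi : ∀ i, i < r → |d i| ≤ ε * x ^ r / (4 * (r + 1))) :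
    |d r| ≤ ε := by
  have hε : 0 < ε := by linarith
  have hxr : 0 < x ^ r := pow_pos hx0 r
  have h1 := C2_tail hd hx0 hx hD r
  rw [Finset.sum_range_succ] at h1
  have h2 : |∑ i ∈ range r, d i * x ^ i| ≤ ε * x ^ r / 4 := by
    calc |∑ i ∈ range r, d i * x ^ i| ≤ ∑ i ∈ range r, |d i * x ^ i| :=
          Finset.abs_sum_le_sum_abs _ _
      _ ≤ ∑ i ∈ range r, ε * x ^ r / (4 * (r + 1)) := by
          apply Finset.sum_le_sum
          intro i hir
          rw [Finset.mem_range] at hir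
          rw [abs_mul, abs_of_pos (pow_pos hx0 i)]
          have h3 : x ^ i ≤ 1 := pow_le_one₀ hx0.le (by linarith)
          calc |d i| * x ^ i ≤ |d i| * 1 := by gcongr
            _ = |d i| := mul_one _
            _ ≤ _ := hi i hir
      _ = r * (ε * x ^ r / (4 * (r + 1))) := by
          rw [Finset.sum_const, Finset.card_range, nsmul_eq_mul]
      _ ≤ ε * x ^ r / 4 := by
          have h4 : (r : ℝ) * (ε * x ^ r / (4 * (r + 1))) = ε * x ^ r / 4 * (r / (r + 1)) := by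
            field_simp
          rw [h4]
          have h5 : (r : ℝ) / (r + 1) ≤ 1 := by
            rw [div_le_one (by positivity)]
            linarith
          calc ε * x ^ r / 4 * (r / (r + 1)) ≤ ε * x ^ r / 4 * 1 := by gcongr
            _ = ε * x ^ r / 4 := mul_one _
  have h6 : |d r| * x ^ r ≤ ε * x ^ r := by
    have h7 : |d r * x ^ r| = |d r| * x ^ r := by rw [abs_mul, abs_of_pos hxr]
    rw [← h7]
    have h8 : d r * x ^ r = D - ∑ i ∈ range r, d i * x ^ i -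
        (D - (∑ i ∈ range r, d i * x ^ i + d r * x ^ r)) := by ring
    have h9 : 2 * x ^ (r + 1) ≤ ε * x ^ r / 4 := by
      rw [pow_succ]
      nlinarith
    calc |d r * x ^ r| = |D - ∑ i ∈ range r, d i * x ^ i -
        (D - (∑ i ∈ range r, d i * x ^ i + d r * x ^ r))| := by rw [← h8]
      _ ≤ |D - ∑ i ∈ range r, d i * x ^ i| + |D - (∑ i ∈ range r, d i * x ^ i + d r * x ^ r)| :=
          abs_sub _ _
      _ ≤ (|D| + |∑ i ∈ range r, d i * x ^ i|) + 2 * x ^ (r + 1) := by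
          gcongr
          exact abs_sub _ _
      _ ≤ ε * x ^ r / 4 + ε * x ^ r / 4 + ε * x ^ r / 4 := by gcongr
      _ ≤ ε * x ^ r := by nlinarith
  exact le_of_mul_le_mul_right h6 hxr

/-- ROW C2 (inversion). Strong induction on `r`. `e^{-lam(1-x)} = ∑_i e_i x^i`, `e_i = e^{-lam} lam^i/i! ∈ [0,1]` (`Real.exp` series:
`NormedSpace.expSeries_div_hasSum_exp` / `Real.hasSum_exp`..., `∑ e_i = 1` gives `e_i ≤ 1`). Put `d_i = q_i - e_i`, `|d_i| ≤ 1`, `D(x) = ∑ d_i x^i` (a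
convergent series for `0 ≤ x < 1`). Take `x = min (1/2) (ε/8)`: `d_r x^r = D(x) - ∑_{i<r} d_i x^i - ∑_{i>r} d_i x^i`, where the last
sum is at most `x^{r+1}/(1-x) ≤ 2 x^{r+1}`. So `|d_r| ≤ (|D(x)| + ∑_{i<r} |d_i|)/x^r + 2x ≤ ε` if `|D(x)| ≤ δ := ε x^r/4` and `|d_i| ≤
ε x^r/(4 (r+1))` for `i < r`; by the induction hypothesis the latter are consequences of finitely many conditions (union of the
finite sets, minimum of the `δ`'s; `choose` over `i < r`). -/
theorem inversion {lam : ℝ} (hlam : 0 ≤ lam) (r : ℕ) {ε : ℝ} (hε : 0 < ε) :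
    ∃ X : Finset ℝ, (∀ x ∈ X, 0 ≤ x ∧ x ≤ 1) ∧ ∃ δ : ℝ, 0 < δ ∧ ∀ (N : ℕ) (q : ℕ → ℝ), (∀ i, 0 ≤ q i) → (∀ i, q i ≤ 1) →
      (∀ i, N < i → q i = 0) →
      (∀ x ∈ X, |(∑ i ∈ range (N + 1), q i * x ^ i) - Real.exp (-(lam * (1 - x)))| ≤ δ) →
      |q r - Real.exp (-lam) * lam ^ r / (Nat.factorial r : ℝ)| ≤ ε := by
  induction r using Nat.strong_induction_on generalizing ε with
  | _ r ih =>
    obtain ⟨x, hxdef⟩ : ∃ x : ℝ, x = min (1 / 2) (ε / 8) := ⟨_, rfl⟩
    have hx0 : 0 < x := by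
      rw [hxdef]
      exact lt_min (by norm_num) (by linarith)
    have hx : x ≤ 1 / 2 := by
      rw [hxdef]
      exact min_le_left _ _
    have hxe : x ≤ ε / 8 := by
      rw [hxdef]
      exact min_le_right _ _
    have hε' : 0 < ε * x ^ r / (4 * ((r : ℝ) + 1)) := by positivity
    have hih : ∀ i : Fin r, ∃ X : Finset ℝ, (∀ x ∈ X, 0 ≤ x ∧ x ≤ 1) ∧ ∃ δ : ℝ, 0 < δ ∧
        ∀ (N : ℕ) (q : ℕ → ℝ), (∀ i, 0 ≤ q i) → (∀ i, q i ≤ 1) → (∀ i, N < i → q i = 0) →
        (∀ x ∈ X, |(∑ i ∈ range (N + 1), q i * x ^ i) - Real.exp (-(lam * (1 - x)))| ≤ δ) →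
        |q i - Real.exp (-lam) * lam ^ (i : ℕ) / (Nat.factorial i : ℝ)| ≤
          ε * x ^ r / (4 * ((r : ℝ) + 1)) :=
      fun i => ih i i.2 hε'
    choose X hX δ hδ hmain using hih
    obtain ⟨δ0, hδ0, hδi⟩ := C2_min r δ hδ
    refine ⟨insert x (Finset.univ.biUnion X), ?_, min δ0 (ε * x ^ r / 4), ?_, ?_⟩
    · intro y hy
      rw [Finset.mem_insert, Finset.mem_biUnion] at hy
      rcases hy with rfl | ⟨i, -, hi⟩
      · exact ⟨hx0.le, by linarith⟩
      · exact hX i y hi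
    · exact lt_min hδ0 (by positivity)
    · intro N q hq0 hq1 hqN hq
      have hqs : HasSum (fun i => q i * x ^ i) (∑ i ∈ range (N + 1), q i * x ^ i) := by
        apply hasSum_sum_of_ne_finset_zero
        intro i hi
        rw [Finset.mem_range, not_lt] at hi
        rw [hqN i (by omega), zero_mul]
      have hD : HasSum (fun i => (q i - C2_e lam i) * x ^ i)
          ((∑ i ∈ range (N + 1), q i * x ^ i) - Real.exp (-(lam * (1 - x)))) := by
        have h1 := hqs.sub (C2_hasSum lam x)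
        have h2 : (fun i => (q i - C2_e lam i) * x ^ i) =
            fun i => q i * x ^ i - C2_e lam i * x ^ i := by
          funext i
          ring
        rw [h2]
        exact h1
      have hd : ∀ i, |q i - C2_e lam i| ≤ 1 := by
        intro i
        rw [abs_le]
        have h1 := hq0 i
        have h2 := hq1 i
        have h3 := C2_e_nonneg hlam i
        have h4 := C2_e_le_one hlam i
        constructor <;> linarith
      refine C2_key (d := fun i => q i - C2_e lam i) hd hx0 hx hxe hD r ?_ ?_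
      · exact (hq x (Finset.mem_insert_self _ _)).trans (min_le_right _ _)
      · intro i hir
        refine hmain ⟨i, hir⟩ N q hq0 hq1 hqN fun y hy => ?_
        refine (hq y ?_).trans ((min_le_left _ _).trans (hδi ⟨i, hir⟩))
        exact Finset.mem_insert_of_mem (Finset.mem_biUnion.2 ⟨⟨i, hir⟩, Finset.mem_univ _, hy⟩)

end Pool.Agent.Lib.MP_de5eaa_nt.Poi
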