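import Pool.Agent.Lib.MP_de5eaa_nt.Poi.Defs
import Pool.Agent.Lib.MP_de5eaa_nt.Poi.M0
import Pool.Agent.Lib.MP_de5eaa_nt.Poi.M1
import Pool.Agent.Lib.MP_de5eaa_nt.Poi.M2

set_option autoImplicit false

namespace Pool.Agent.Lib.MP_de5eaa_nt.Poi

open Finset MeasureTheory Filter Topology
open Pool.Agent.Lib.MP_de5eaa_nt.Near (hs wq)

open Classical in
/-- ROW M4 (perturbation). A `t` with `cnt J L I y t ≠ cnt J L I y' t` has an `n ∈ I` with
`¬ (Hit J L t (y n) ↔ Hit J L t (y' n))`; with `δ = L (y' n - y n)` and `S = {s | ¬ (s ∈ J ↔ s + δ ∈ J)}` this gives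
`Hit S L t (y n)` (if `Hit J L t (y n)` with `a` and not `Hit J L t (y' n)`, then `s = L (y n - t - a) ∈ J` and
`s + δ = L (y' n - t - a) ∉ J`; the other case is the same). Now `unfold_le` and `Nice.pert`:
`volume ≤ 1/L * (2 K |L (y' n - y n)|) = 2 K |y' n - y n|`, and sum over `n` (`measure_biUnion_finset_le`). `S` is
measurable since `J` is. -/
theorem cnt_pert {J : Set ℝ} {lam K R L : ℝ} (hJ : Nice J lam K R) (hL : 0 < L) (I : Finset ℕ) (y y' : ℕ → ℝ) :
    volume ({t | cnt J L I y t ≠ cnt J L I y' t} ∩ Set.Ioc 0 1) ≤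
      ENNReal.ofReal (∑ n ∈ I, 2 * K * |y' n - y n|) := by
  let S : ℕ → Set ℝ := fun n => {s | ¬ (s ∈ J ↔ s + L * (y' n - y n) ∈ J)}
  have hSm : ∀ n, MeasurableSet (S n) := by
    intro n
    have h1 : MeasurableSet {s : ℝ | s + L * (y' n - y n) ∈ J} :=
      (measurable_id.add_const (L * (y' n - y n))) hJ.meas
    exact ((measurableSet_setOfPred.1 hJ.meas).iff (measurableSet_setOfPred.1 h1)).not.setOf
  have hsub : {t | cnt J L I y t ≠ cnt J L I y' t} ∩ Set.Ioc 0 1 ⊆
      ⋃ n ∈ I, ({t | Hit (S n) L t (y n)} ∩ Set.Ioc 0 1) := by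
    rintro t ⟨ht, ht1⟩
    have hex : ∃ n ∈ I, ¬ (Hit J L t (y n) ↔ Hit J L t (y' n)) := by
      by_contra hcon
      push Not at hcon
      apply ht
      show cnt J L I y t = cnt J L I y' t
      unfold cnt
      congr 1
      exact Finset.filter_congr hcon
    obtain ⟨n, hn, hne⟩ := hex
    have hit : Hit (S n) L t (y n) := by
      by_cases h1 : Hit J L t (y n)
      · have h2 : ¬ Hit J L t (y' n) := fun h2 => hne ⟨fun _ => h2, fun _ => h1⟩
        obtain ⟨a, ha⟩ := h1
        refine ⟨a, ?_⟩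
        show ¬ (L * (y n - t - a) ∈ J ↔ L * (y n - t - a) + L * (y' n - y n) ∈ J)
        intro h3
        apply h2
        refine ⟨a, ?_⟩
        have h4 := h3.1 ha
        have h5 : L * (y n - t - a) + L * (y' n - y n) = L * (y' n - t - a) := by ring
        rwa [h5] at h4
      · have h2 : Hit J L t (y' n) := by
          by_contra h2
          exact hne ⟨fun h => absurd h h1, fun h => absurd h h2⟩
        obtain ⟨a, ha⟩ := h2
        refine ⟨a, ?_⟩
        show ¬ (L * (y n - t - a) ∈ J ↔ L * (y n - t - a) + L * (y' n - y n) ∈ J)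
        intro h3
        apply h1
        refine ⟨a, ?_⟩
        have h5 : L * (y n - t - a) + L * (y' n - y n) = L * (y' n - t - a) := by ring
        rw [h5] at h3
        exact h3.2 ha
    exact Set.mem_biUnion hn ⟨hit, ht1⟩
  have hterm : ∀ n ∈ I, volume ({t | Hit (S n) L t (y n)} ∩ Set.Ioc 0 1) ≤
      ENNReal.ofReal (2 * K * |y' n - y n|) := by
    intro n _
    have h1 := unfold_le (hSm n) hL (y n)
    have h2 : volume (S n) ≤ ENNReal.ofReal (2 * K * |L * (y' n - y n)|) := hJ.pert (L * (y' n - y n))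
    calc volume ({t | Hit (S n) L t (y n)} ∩ Set.Ioc 0 1)
        ≤ ENNReal.ofReal (1 / L) * volume (S n) := h1
      _ ≤ ENNReal.ofReal (1 / L) * ENNReal.ofReal (2 * K * |L * (y' n - y n)|) := by gcongr
      _ = ENNReal.ofReal (2 * K * |y' n - y n|) := by
          rw [← ENNReal.ofReal_mul (by positivity)]
          congr 1
          rw [abs_mul, abs_of_pos hL]
          field_simp
  calc volume ({t | cnt J L I y t ≠ cnt J L I y' t} ∩ Set.Ioc 0 1)
      ≤ volume (⋃ n ∈ I, ({t | Hit (S n) L t (y n)} ∩ Set.Ioc 0 1)) := measure_mono hsub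
    _ ≤ ∑ n ∈ I, volume ({t | Hit (S n) L t (y n)} ∩ Set.Ioc 0 1) := measure_biUnion_finset_le I _
    _ ≤ ∑ n ∈ I, ENNReal.ofReal (2 * K * |y' n - y n|) := Finset.sum_le_sum hterm
    _ = ENNReal.ofReal (∑ n ∈ I, 2 * K * |y' n - y n|) := by
        rw [ENNReal.ofReal_sum_of_nonneg]
        intro n _
        have := hJ.K0
        positivity

end Pool.Agent.Lib.MP_de5eaa_nt.Poi
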