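import Pool.Agent.Lib.MP_de5eaa_nt.Poi.Defs
import Pool.Agent.Lib.MP_de5eaa_nt.Poi.M0
import Pool.Agent.Lib.MP_de5eaa_nt.Poi.M2

set_option autoImplicit false

namespace Pool.Agent.Lib.MP_de5eaa_nt.Poi

open Finset MeasureTheory Filter Topology
open Pool.Agent.Lib.MP_de5eaa_nt.Near (hs wq)

theorem M5_hit_add (J : Set ℝ) (L t y : ℝ) (a : ℤ) : Hit J L t (y + a) ↔ Hit J L t y := by
  constructor
  · rintro ⟨b, hb⟩
    refine ⟨b - a, ?_⟩
    have h1 : L * (y - t - ((b - a : ℤ) : ℝ)) = L * (y + a - t - b) := by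
      push_cast
      ring
    rw [h1]
    exact hb
  · rintro ⟨b, hb⟩
    refine ⟨b + a, ?_⟩
    have h1 : L * (y + a - t - ((b + a : ℤ) : ℝ)) = L * (y - t - b) := by
      push_cast
      ring
    rw [h1]
    exact hb

theorem M5_hit_t (J : Set ℝ) (L t y : ℝ) (a : ℤ) : Hit J L (t + a) y ↔ Hit J L t y := by
  constructor
  · rintro ⟨b, hb⟩
    refine ⟨a + b, ?_⟩
    have h1 : L * (y - t - ((a + b : ℤ) : ℝ)) = L * (y - (t + a) - b) := by
      push_cast
      ring
    rw [h1]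
    exact hb
  · rintro ⟨b, hb⟩
    refine ⟨b - a, ?_⟩
    have h1 : L * (y - (t + a) - ((b - a : ℤ) : ℝ)) = L * (y - t - b) := by
      push_cast
      ring
    rw [h1]
    exact hb

theorem M5_hit_shift (J : Set ℝ) (L t y c : ℝ) : Hit J L t (y + c) ↔ Hit J L (t + -c) y := by
  constructor
  · rintro ⟨b, hb⟩
    refine ⟨b, ?_⟩
    have h1 : L * (y - (t + -c) - b) = L * (y + c - t - b) := by ring
    rw [h1]
    exact hb
  · rintro ⟨b, hb⟩
    refine ⟨b, ?_⟩
    have h1 : L * (y + c - t - b) = L * (y - (t + -c) - b) := by ring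
    rw [h1]
    exact hb

theorem M5_cnt_t (J : Set ℝ) (L : ℝ) (I : Finset ℕ) (y : ℕ → ℝ) (t : ℝ) (a : ℤ) :
    cnt J L I y (t + a) = cnt J L I y t := by
  classical
  unfold cnt
  congr 1
  ext n
  rw [Finset.mem_filter, Finset.mem_filter]
  exact and_congr_right fun _ => M5_hit_t J L t (y n) a

theorem M5_cnt_shift (J : Set ℝ) (L : ℝ) (I : Finset ℕ) (y : ℕ → ℝ) (t c : ℝ) :
    cnt J L I (fun n => y n + c) t = cnt J L I y (t + -c) := by
  classical
  unfold cnt
  congr 1
  ext n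
  rw [Finset.mem_filter, Finset.mem_filter]
  exact and_congr_right fun _ => M5_hit_shift J L t (y n) c

/-- ROW M5 (shift). `cnt J L I (fun n => y n + c) t = cnt J L I y (t - c)` and `cnt J L I y (t + 1) = cnt J L I y t`. So
the volume of `{t ∈ (0,1] | cnt (y + c) t = r}` is the volume of `{t ∈ (-c, 1-c] | cnt y t = r}` and by periodicity this
does not depend on `c` (`Function.Periodic.intervalIntegral_add_eq` for the indicator function, or
`Real.isAddFundamentalDomain`/`isAddFundamentalDomain_Ioc`). -/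
theorem cnt_shift {J : Set ℝ} (hJ : MeasurableSet J) (L : ℝ) (I : Finset ℕ) (y : ℕ → ℝ) (c : ℝ) (r : ℕ) :
    volume ({t | cnt J L I (fun n => y n + c) t = r} ∩ Set.Ioc 0 1) =
      volume ({t | cnt J L I y t = r} ∩ Set.Ioc 0 1) := by
  have hS : MeasurableSet {t | cnt J L I y t = r} :=
    meas_cnt hJ L I y (measurableSet_singleton r)
  have h1 : {t | cnt J L I (fun n => y n + c) t = r} ∩ Set.Ioc 0 1 =
      (fun t : ℝ => t + -c) ⁻¹' ({t | cnt J L I y t = r} ∩ Set.Ioc (-c) (-c + 1)) := by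
    ext t
    constructor
    · rintro ⟨h2, h3, h4⟩
      refine ⟨?_, ?_, ?_⟩
      · have h5 : cnt J L I (fun n => y n + c) t = r := h2
        rw [M5_cnt_shift] at h5
        exact h5
      · change -c < t + -c
        linarith
      · change t + -c ≤ -c + 1
        linarith
    · rintro ⟨h2, h3, h4⟩
      have h3' : -c < t + -c := h3
      have h4' : t + -c ≤ -c + 1 := h4
      refine ⟨?_, by linarith, by linarith⟩
      have h5 : cnt J L I y (t + -c) = r := h2
      rw [← M5_cnt_shift] at h5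
      exact h5
  rw [h1, measure_preimage_add_right]
  have hinv : ∀ g : AddSubgroup.zmultiples (1 : ℝ),
      (fun x : ℝ => g +ᵥ x) ⁻¹' {t | cnt J L I y t = r} = {t | cnt J L I y t = r} := by
    rintro ⟨g, hg⟩
    obtain ⟨a, rfl⟩ := AddSubgroup.mem_zmultiples_iff.mp hg
    ext t
    have h2 : ((⟨a • (1 : ℝ), hg⟩ : AddSubgroup.zmultiples (1 : ℝ)) +ᵥ t : ℝ) = t + a := by
      change a • (1 : ℝ) + t = t + a
      rw [zsmul_eq_mul, mul_one, add_comm]
    change cnt J L I y ((⟨a • (1 : ℝ), hg⟩ : AddSubgroup.zmultiples (1 : ℝ)) +ᵥ t) = r ↔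
      cnt J L I y t = r
    rw [h2, M5_cnt_t]
  have h6 := IsAddFundamentalDomain.measure_set_eq
    (isAddFundamentalDomain_Ioc (T := (1 : ℝ)) one_pos (-c) volume)
    (isAddFundamentalDomain_Ioc (T := (1 : ℝ)) one_pos 0 volume) hS hinv
  rw [zero_add] at h6
  exact h6

/-- adding integers to the points changes nothing -/
theorem cnt_add_int (J : Set ℝ) (L : ℝ) (I : Finset ℕ) (y y' : ℕ → ℝ) (h : ∀ n ∈ I, ∃ a : ℤ, y' n = y n + a) (t : ℝ) :
    cnt J L I y' t = cnt J L I y t := by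
  classical
  unfold cnt
  congr 1
  ext n
  rw [Finset.mem_filter, Finset.mem_filter]
  refine and_congr_right fun hn => ?_
  obtain ⟨a, ha⟩ := h n hn
  rw [ha]
  exact M5_hit_add J L t (y n) a

end Pool.Agent.Lib.MP_de5eaa_nt.Poi
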