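import Pool.Agent.Lib.MP_de5eaa_nt.Poi.Defs
import Pool.Agent.Lib.MP_de5eaa_nt.Poi.M2
import Pool.Agent.Lib.MP_de5eaa_nt.Poi.M4
import Pool.Agent.Lib.MP_de5eaa_nt.Poi.M5

set_option autoImplicit false

namespace Pool.Agent.Lib.MP_de5eaa_nt.Poi

open Finset MeasureTheory Filter Topology
open Pool.Agent.Lib.MP_de5eaa_nt.Near (hs wq)

/-- the proportion of the `t` for which there are exactly `r` points in `t + J / L` -/
noncomputable def pv (J : Set ℝ) (L : ℝ) (I : Finset ℕ) (y : ℕ → ℝ) (r : ℕ) : ℝ :=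
  (volume ({t | cnt J L I y t = r} ∩ Set.Ioc 0 1)).toReal

theorem C3a_cnt_le (J : Set ℝ) (L : ℝ) (I : Finset ℕ) (y : ℕ → ℝ) (t : ℝ) :
    cnt J L I y t ≤ I.card := by
  classical
  unfold cnt
  exact Finset.card_filter_le _ _

theorem pv_nonneg (J : Set ℝ) (L : ℝ) (I : Finset ℕ) (y : ℕ → ℝ) (r : ℕ) : 0 ≤ pv J L I y r := by
  exact ENNReal.toReal_nonneg

theorem pv_le_one (J : Set ℝ) (L : ℝ) (I : Finset ℕ) (y : ℕ → ℝ) (r : ℕ) : pv J L I y r ≤ 1 := by
  have h : volume ({t | cnt J L I y t = r} ∩ Set.Ioc 0 1) ≤ 1 := by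
    refine (measure_mono Set.inter_subset_right).trans ?_
    rw [Real.volume_Ioc]
    simp
  have h2 := ENNReal.toReal_mono ENNReal.one_ne_top h
  rw [ENNReal.toReal_one] at h2
  exact h2

/-- `cnt ≤ |I|` -/
theorem pv_zero (J : Set ℝ) (L : ℝ) (I : Finset ℕ) (y : ℕ → ℝ) {r : ℕ} (hr : I.card < r) : pv J L I y r = 0 := by
  have h : ({t | cnt J L I y t = r} ∩ Set.Ioc 0 1) = ∅ := by
    ext t
    refine ⟨fun ht => ?_, fun ht => absurd ht (Set.notMem_empty t)⟩
    have h1 : cnt J L I y t = r := ht.1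
    have h2 : cnt J L I y t ≤ I.card := C3a_cnt_le J L I y t
    omega
  unfold pv
  rw [h, measure_empty, ENNReal.toReal_zero]

/-- ROW C3. `x ^ cnt t = ∑_{i ≤ |I|} x^i 1_{cnt t = i}` (`cnt ≤ |I|`); integrate (`integral_finset_sum`, the integral of an
indicator function is the measure; `intervalIntegral.integral_of_le`). -/
theorem gf_eq {J : Set ℝ} (hJ : MeasurableSet J) (L : ℝ) (I : Finset ℕ) (y : ℕ → ℝ) (x : ℝ) :
    gf J L I y x = ∑ i ∈ range (I.card + 1), pv J L I y i * x ^ i := by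
  have hm : ∀ i : ℕ, MeasurableSet {t | cnt J L I y t = i} := fun i =>
    (meas_cnt hJ L I y) (measurableSet_singleton i)
  have h1 : ∀ t : ℝ, x ^ cnt J L I y t =
      ∑ i ∈ range (I.card + 1), Set.indicator {t | cnt J L I y t = i} (fun _ => x ^ i) t := by
    intro t
    have h2 : cnt J L I y t ∈ range (I.card + 1) :=
      Finset.mem_range.2 (Nat.lt_succ_of_le (C3a_cnt_le J L I y t))
    rw [Finset.sum_eq_single_of_mem _ h2]
    · rw [Set.indicator_of_mem]
      exact rfl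
    · intro i _ hi
      rw [Set.indicator_of_notMem]
      intro h3
      exact hi (Eq.symm h3)
  unfold gf
  rw [intervalIntegral.integral_of_le zero_le_one]
  simp_rw [h1]
  rw [integral_finsetSum]
  · refine Finset.sum_congr rfl fun i _ => ?_
    rw [integral_indicator_const _ (hm i), Measure.real, Measure.restrict_apply (hm i), smul_eq_mul]
    rfl
  · intro i _
    exact (integrable_const _).indicator (hm i)

/-- `{cnt y = r}` and `{cnt y' = r}` differ by a subset of `{cnt y ≠ cnt y'}`; `cnt_pert`. -/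
theorem pv_pert {J : Set ℝ} {lam K R L : ℝ} (hJ : Nice J lam K R) (hL : 0 < L) (I : Finset ℕ) (y y' : ℕ → ℝ) (r : ℕ) :
    |pv J L I y r - pv J L I y' r| ≤ ∑ n ∈ I, 2 * K * |y' n - y n| := by
  have hfin : ∀ S : Set ℝ, volume (S ∩ Set.Ioc 0 1) ≠ ⊤ := fun S =>
    ((measure_mono Set.inter_subset_right).trans_lt (by rw [Real.volume_Ioc]; exact ENNReal.ofReal_lt_top)).ne
  have hs0 : 0 ≤ ∑ n ∈ I, 2 * K * |y' n - y n| :=
    Finset.sum_nonneg fun n _ => mul_nonneg (mul_nonneg (by norm_num) hJ.K0) (abs_nonneg _)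
  have hd : (volume ({t | cnt J L I y t ≠ cnt J L I y' t} ∩ Set.Ioc 0 1)).toReal ≤
      ∑ n ∈ I, 2 * K * |y' n - y n| := ENNReal.toReal_le_of_le_ofReal hs0 (cnt_pert hJ hL I y y')
  have h1 : pv J L I y r ≤ pv J L I y' r +
      (volume ({t | cnt J L I y t ≠ cnt J L I y' t} ∩ Set.Ioc 0 1)).toReal := by
    unfold pv
    rw [← ENNReal.toReal_add (hfin _) (hfin _)]
    refine ENNReal.toReal_mono (ENNReal.add_ne_top.2 ⟨hfin _, hfin _⟩)
      ((measure_mono ?_).trans (measure_union_le _ _))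
    rintro t ⟨ht, ht'⟩
    by_cases h : cnt J L I y t = cnt J L I y' t
    · exact Or.inl ⟨h.symm.trans ht, ht'⟩
    · exact Or.inr ⟨h, ht'⟩
  have h2 : pv J L I y' r ≤ pv J L I y r +
      (volume ({t | cnt J L I y t ≠ cnt J L I y' t} ∩ Set.Ioc 0 1)).toReal := by
    unfold pv
    rw [← ENNReal.toReal_add (hfin _) (hfin _)]
    refine ENNReal.toReal_mono (ENNReal.add_ne_top.2 ⟨hfin _, hfin _⟩)
      ((measure_mono ?_).trans (measure_union_le _ _))
    rintro t ⟨ht, ht'⟩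
    by_cases h : cnt J L I y t = cnt J L I y' t
    · exact Or.inl ⟨h.trans ht, ht'⟩
    · exact Or.inr ⟨h, ht'⟩
  rw [abs_le]
  constructor <;> linarith

end Pool.Agent.Lib.MP_de5eaa_nt.Poi
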