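import Pool.Agent.Lib.MP_de5eaa_nt.Poi.Defs

set_option autoImplicit false

namespace Pool.Agent.Lib.MP_de5eaa_nt.Poi

open Finset MeasureTheory Filter Topology
open Pool.Agent.Lib.MP_de5eaa_nt.Near (hs wq)

theorem H1_theta (m : ℕ) : Chebyshev.theta (m : ℝ) = ∑ p ∈ (Ioc 0 m).filter Nat.Prime, Real.log p := by
  unfold Chebyshev.theta
  rw [Nat.floor_natCast]

theorem H1_diff {n m : ℕ} (h : n ≤ m) : Chebyshev.theta (m : ℝ) - Chebyshev.theta (n : ℝ) =
    ∑ p ∈ (Ioc n m).filter Nat.Prime, Real.log p := by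
  rw [H1_theta, H1_theta]
  have h1 : (Ioc 0 m).filter Nat.Prime =
      (Ioc 0 n).filter Nat.Prime ∪ (Ioc n m).filter Nat.Prime := by
    rw [← Finset.filter_union]
    congr 1
    ext x
    simp only [Finset.mem_union, Finset.mem_Ioc]
    omega
  have h2 : Disjoint ((Ioc 0 n).filter Nat.Prime) ((Ioc n m).filter Nat.Prime) := by
    rw [Finset.disjoint_left]
    intro x hx hy
    have h3 := (Finset.mem_Ioc.1 (Finset.mem_filter.1 hx).1).2
    have h4 := (Finset.mem_Ioc.1 (Finset.mem_filter.1 hy).1).1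
    omega
  rw [h1, Finset.sum_union h2]
  ring

/-- ROW H1 (two primes in `(n, (1+η) n]`). From the prime number theorem: `theta x / x → 1`. If there were at most one
prime in `(n, ⌊(1+η) n⌋]` then `theta ((1+η)n) - theta n ≤ log ((1+η) n)`, but the left side is `(η + o(1)) n`. -/
theorem two_primes (hT : Tendsto (fun x : ℕ => Chebyshev.theta x / (x : ℝ)) atTop (𝓝 1)) {η : ℝ} (hη : 0 < η) :
    ∀ᶠ n : ℕ in atTop, ∃ p q : ℕ, p.Prime ∧ q.Prime ∧ n < p ∧ p < q ∧ (q : ℝ) ≤ (1 + η) * n := by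
  obtain ⟨e, he0, he1, heη⟩ : ∃ e : ℝ, 0 < e ∧ e ≤ 1 ∧ e ≤ η :=
    ⟨min η 1, lt_min hη one_pos, min_le_right _ _, min_le_left _ _⟩
  have h1 : ∀ᶠ x : ℕ in atTop, |Chebyshev.theta x / (x : ℝ) - 1| < e / 8 := by
    have := (Metric.tendsto_nhds.1 hT) (e / 8) (by positivity)
    simpa [Real.dist_eq] using this
  obtain ⟨N, hN⟩ := eventually_atTop.1 h1
  have h2 : ∀ᶠ x : ℝ in atTop, |Real.log x| ≤ e / 8 * |x| := by
    have := Real.isLittleO_log_id_atTop.bound (show 0 < e / 8 by positivity)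
    simpa [Real.norm_eq_abs] using this
  have h3 : ∀ᶠ n : ℕ in atTop, |Real.log (2 * (n : ℝ))| ≤ e / 8 * |2 * (n : ℝ)| := by
    have ht : Tendsto (fun n : ℕ => 2 * (n : ℝ)) atTop atTop :=
      Tendsto.const_mul_atTop (by norm_num) tendsto_natCast_atTop_atTop
    exact ht.eventually h2
  have h4 : ∀ᶠ n : ℕ in atTop, (8 / e : ℝ) ≤ n :=
    tendsto_natCast_atTop_atTop.eventually_ge_atTop _
  filter_upwards [h3, h4, eventually_ge_atTop N, eventually_ge_atTop 1] with n hlog hn8 hnN hn1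
  have hn0 : (0 : ℝ) < n := by exact_mod_cast hn1
  set m : ℕ := ⌊(1 + e) * (n : ℝ)⌋₊ with hm
  have hm1 : (m : ℝ) ≤ (1 + e) * n := Nat.floor_le (by positivity)
  have hm2 : (1 + e) * (n : ℝ) < m + 1 := Nat.lt_floor_add_one _
  have hnm : n ≤ m := by
    apply Nat.le_floor
    nlinarith
  have hm0 : (0 : ℝ) < m := by
    have : (n : ℝ) ≤ m := by exact_mod_cast hnm
    linarith
  have hA := hN n hnN
  have hB := hN m (le_trans hnN hnm)
  rw [abs_lt] at hA hB
  have hA' : Chebyshev.theta (n : ℝ) ≤ (1 + e / 8) * n := by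
    have h5 : Chebyshev.theta (n : ℝ) / n < 1 + e / 8 := by linarith [hA.2]
    rw [div_lt_iff₀ hn0] at h5
    exact h5.le
  have hB' : (1 - e / 8) * m ≤ Chebyshev.theta (m : ℝ) := by
    have h5 : 1 - e / 8 < Chebyshev.theta (m : ℝ) / m := by linarith [hB.1]
    rw [lt_div_iff₀ hm0] at h5
    exact h5.le
  have he8 : 1 ≤ e / 8 * n := by
    have h5 := mul_le_mul_of_nonneg_left hn8 (show 0 ≤ e / 8 by positivity)
    have h6 : e / 8 * (8 / e) = 1 := by field_simp
    rw [h6] at h5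
    exact h5
  have hlow : e / 2 * n ≤ Chebyshev.theta (m : ℝ) - Chebyshev.theta (n : ℝ) := by
    have h5 : (1 - e / 8) * ((1 + e) * n - 1) ≤ (1 - e / 8) * m :=
      mul_le_mul_of_nonneg_left (by linarith) (by linarith)
    nlinarith [mul_nonneg (mul_nonneg he0.le (sub_nonneg.2 he1)) hn0.le]
  have hup : Real.log (2 * n) ≤ e / 4 * n := by
    have h5 := (abs_le.1 hlog).2
    rw [abs_of_pos (by positivity)] at h5
    linarith
  -- at least two primes
  have hcard : 1 < ((Ioc n m).filter Nat.Prime).card := by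
    by_contra hc
    push Not at hc
    have h5 : ∑ p ∈ (Ioc n m).filter Nat.Prime, Real.log p ≤ Real.log (2 * n) := by
      have h6 : ∀ p ∈ (Ioc n m).filter Nat.Prime, Real.log p ≤ Real.log (2 * n) := by
        intro p hp
        have h7 := Finset.mem_Ioc.1 (Finset.mem_filter.1 hp).1
        have h8 : (0 : ℝ) < p := by exact_mod_cast (by omega : 0 < p)
        have h9 : (p : ℝ) ≤ m := by exact_mod_cast h7.2
        exact Real.log_le_log h8 (by nlinarith)
      have h7 := Finset.sum_le_card_nsmul _ _ _ h6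
      have h8 : 0 ≤ Real.log (2 * n) := Real.log_nonneg (by
        have : (1 : ℝ) ≤ n := by exact_mod_cast hn1
        linarith)
      refine h7.trans ?_
      rw [nsmul_eq_mul]
      have h9 : (((Ioc n m).filter Nat.Prime).card : ℝ) ≤ 1 := by exact_mod_cast hc
      nlinarith
    rw [← H1_diff hnm] at h5
    nlinarith
  obtain ⟨a, ha, b, hb, hab⟩ := Finset.one_lt_card.1 hcard
  have ha' := Finset.mem_filter.1 ha
  have hb' := Finset.mem_filter.1 hb
  have ha2 := Finset.mem_Ioc.1 ha'.1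
  have hb2 := Finset.mem_Ioc.1 hb'.1
  have hle : ∀ x : ℕ, x ≤ m → (x : ℝ) ≤ (1 + η) * n := by
    intro x hx
    have h5 : (x : ℝ) ≤ m := by exact_mod_cast hx
    nlinarith
  rcases lt_or_gt_of_ne hab with h | h
  · exact ⟨a, b, ha'.2, hb'.2, ha2.1, h, hle b hb2.2⟩
  · exact ⟨b, a, hb'.2, ha'.2, hb2.1, h, hle a ha2.2⟩

end Pool.Agent.Lib.MP_de5eaa_nt.Poi
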