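import Pool.Agent.Lib.MP_de5eaa_nt.Poi.Defs
import Pool.Agent.Lib.MP_de5eaa_nt.Poi.H1

set_option autoImplicit false

namespace Pool.Agent.Lib.MP_de5eaa_nt.Poi

open Finset MeasureTheory Filter Topology
open Pool.Agent.Lib.MP_de5eaa_nt.Near (hs wq)

theorem I1_div_tendsto {M : ℕ} (hM : 2 ≤ M) : Tendsto (fun L : ℕ => L / M) atTop atTop := by
  refine tendsto_atTop_atTop.2 (fun b => ⟨b * M, fun a ha => ?_⟩)
  exact (Nat.le_div_iff_mul_le (by omega)).2 ha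

theorem I1_mul_tendsto {M : ℕ} (hM : 2 ≤ M) (j : ℕ) :
    Tendsto (fun L : ℕ => (j + 1) * (L / M)) atTop atTop := by
  refine tendsto_atTop_mono (fun L => ?_) (I1_div_tendsto hM)
  exact Nat.le_mul_of_pos_left _ (Nat.succ_pos j)

/-- ROW I1. `two_primes` with `η = 1/(2 M^2)` at `n = (j+1) (L/M)` for each of the finitely many `j` with `j + 1 < M`
(`n → ∞` as `L → ∞`; `Filter.eventually_all_finset` over `range M`), then choice. `q ≤ (1 + η) (j+1) N0 ≤ (j+1) N0 + N0/(2M)` (real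
division, `j + 1 ≤ M`), and `N0/(2M) ≤ (N0/M : ℕ)` for `N0 = L/M ≥ 2 M` (`⌊z⌋ ≥ z - 1 ≥ z/2` for `z ≥ 2`). -/
theorem blk_exists (hT : Tendsto (fun x : ℕ => Chebyshev.theta x / (x : ℝ)) atTop (𝓝 1)) {M : ℕ} (hM : 2 ≤ M) :
    ∀ᶠ L : ℕ in atTop, ∃ (A : ℕ → Finset ℕ) (P P' : ℕ → ℕ), Blk L M A P P' := by
  have hM0 : (0 : ℝ) < (M : ℝ) := by exact_mod_cast (show 0 < M by omega)
  have hη : (0 : ℝ) < 1 / (2 * (M : ℝ) ^ 2) := by positivity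
  have key : ∀ᶠ L : ℕ in atTop, ∀ j ∈ range M, ∃ p q : ℕ, p.Prime ∧ q.Prime ∧
      (j + 1) * (L / M) < p ∧ p < q ∧
      (q : ℝ) ≤ (1 + 1 / (2 * (M : ℝ) ^ 2)) * (((j + 1) * (L / M) : ℕ) : ℝ) :=
    (Filter.eventually_all_finset (range M)).2
      (fun j _ => (I1_mul_tendsto hM j).eventually (two_primes hT hη))
  filter_upwards [key] with L h1
  have hc : ∀ j, ∃ p q : ℕ, j + 1 < M → (p.Prime ∧ q.Prime ∧
      (j + 1) * (L / M) < p ∧ p < q ∧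
      (q : ℝ) ≤ (1 + 1 / (2 * (M : ℝ) ^ 2)) * (((j + 1) * (L / M) : ℕ) : ℝ)) := by
    intro j
    by_cases hj : j + 1 < M
    · obtain ⟨p, q, h⟩ := h1 j (mem_range.2 (by omega))
      exact ⟨p, q, fun _ => h⟩
    · exact ⟨0, 0, fun h => absurd h hj⟩
  choose P P' hP using hc
  refine ⟨fun j => Ioc (P' j) ((j + 2) * (L / M)), P, P', ?_⟩
  refine ⟨fun j hj => (hP j hj).1, fun j hj => (hP j hj).2.1, fun j hj => (hP j hj).2.2.1,
    fun j hj => (hP j hj).2.2.2.1, fun j hj => ?_, fun j hj => rfl⟩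
  have h2 := (hP j hj).2.2.2.2
  by_contra hcon
  rw [not_le] at hcon
  have h3 : (j + 1) * (L / M) + (L / M) / M + 1 ≤ P' j := hcon
  have h4 : ((((j + 1) * (L / M) : ℕ) : ℝ)) + ((((L / M) / M : ℕ)) : ℝ) + 1 ≤ (P' j : ℝ) := by
    exact_mod_cast h3
  have h5 : L / M < M * ((L / M) / M + 1) := Nat.lt_mul_div_succ _ (by omega)
  have h5' : ((L / M : ℕ) : ℝ) < (M : ℝ) * (((((L / M) / M : ℕ)) : ℝ) + 1) := by exact_mod_cast h5
  have h6 : (((j + 1) * (L / M) : ℕ) : ℝ) ≤ (M : ℝ) * ((L / M : ℕ) : ℝ) := by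
    have : (j + 1) * (L / M) ≤ M * (L / M) := Nat.mul_le_mul_right _ hj.le
    exact_mod_cast this
  have h7 : (((j + 1) * (L / M) : ℕ) : ℝ) / (2 * (M : ℝ) ^ 2) ≤ ((L / M : ℕ) : ℝ) / (2 * (M : ℝ)) := by
    rw [div_le_div_iff₀ (by positivity) (by positivity)]
    nlinarith [h6, hM0]
  have h8 : ((L / M : ℕ) : ℝ) / (M : ℝ) < ((((L / M) / M : ℕ)) : ℝ) + 1 := by
    rw [div_lt_iff₀ hM0]
    linarith
  have h9 : ((L / M : ℕ) : ℝ) / (2 * (M : ℝ)) ≤ ((L / M : ℕ) : ℝ) / (M : ℝ) := by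
    apply div_le_div_of_nonneg_left (Nat.cast_nonneg _) hM0
    linarith
  have h10 : (1 + 1 / (2 * (M : ℝ) ^ 2)) * (((j + 1) * (L / M) : ℕ) : ℝ) =
      (((j + 1) * (L / M) : ℕ) : ℝ) + (((j + 1) * (L / M) : ℕ) : ℝ) / (2 * (M : ℝ) ^ 2) := by
    ring
  rw [h10] at h2
  linarith

end Pool.Agent.Lib.MP_de5eaa_nt.Poi
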