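import Pool.Agent.Lib.MP_de5eaa_nt.Poi.Defs

set_option autoImplicit false

namespace Pool.Agent.Lib.MP_de5eaa_nt.Poi

open Finset MeasureTheory Filter Topology
open Pool.Agent.Lib.MP_de5eaa_nt.Near (hs wq)

/-- ROW F0a (lifting units). By the Chinese remainder theorem there is a residue modulo `m e0` which is `r` modulo `m` and
`1` modulo `e0`; it is a unit modulo `m e0`, `m e0 ∣ Q` (coprime), and units lift along `ZMod Q → ZMod (m e0)`
(`ZMod.unitsMap_surjective`). (Or: `Nat.chineseRemainder` and then add a multiple of `m e0` to be coprime to the primes of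
`Q` not dividing `m e0`.) -/
theorem lift {Q m e0 : ℕ} (hQ : 0 < Q) (hm : m ∣ Q) (he : e0 ∣ Q) (hc : m.Coprime e0) {r : ℕ} (hr : m.Coprime r) :
    ∃ w : ℕ, Q.Coprime w ∧ w ≡ r [MOD m] ∧ w ≡ 1 [MOD e0] := by
  have hme : m * e0 ∣ Q := hc.mul_dvd_of_dvd_of_dvd hm he
  obtain ⟨k, hk1, hk2⟩ := Nat.chineseRemainder hc r 1
  have hkc : k.Coprime (m * e0) := by
    apply Nat.Coprime.mul_right
    · rw [Nat.coprime_comm, Nat.coprime_iff_gcd_eq_one]
      have := hk1.gcd_eq
      rw [Nat.gcd_comm, this, Nat.gcd_comm]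
      exact hr
    · have := hk2.gcd_eq
      rw [Nat.coprime_iff_gcd_eq_one, this]
      simp
  have : NeZero Q := ⟨hQ.ne'⟩
  obtain ⟨w, hw⟩ := ZMod.unitsMap_surjective hme (ZMod.unitOfCoprime k hkc)
  refine ⟨(w : ZMod Q).val, ?_, ?_⟩
  · exact (ZMod.val_coe_unit_coprime w).symm
  · have h1 : (((w : ZMod Q).val : ℕ) : ZMod (m * e0)) = (k : ZMod (m * e0)) := by
      have h2 := congrArg (Units.val) hw
      rw [ZMod.coe_unitOfCoprime] at h2
      rw [← h2]
      rw [ZMod.unitsMap_val, ZMod.natCast_val]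
    have h3 : (w : ZMod Q).val ≡ k [MOD m * e0] := (ZMod.natCast_eq_natCast_iff _ _ _).1 h1
    exact ⟨(h3.of_mul_right e0).trans hk1, (h3.of_mul_left m).trans hk2⟩

/-- ROW F0b. Multiplication by a unit permutes the reduced residues: `u ↦ u w % Q` is a bijection of `UU Q`
(injective: `Nat.ModEq.cancel_right_of_coprime`; `Finset.sum_nbij` or `Finset.sum_bij'`). -/
theorem sum_unit {Q w : ℕ} (hQ : 0 < Q) (hw : Q.Coprime w) (F : ℕ → ℝ) :
    ∑ u ∈ UU Q, F (u * w % Q) = ∑ u ∈ UU Q, F u := by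
  have hmap : ∀ u ∈ UU Q, u * w % Q ∈ UU Q := by
    intro u hu
    unfold UU at hu ⊢
    rw [mem_filter, mem_range] at hu ⊢
    refine ⟨Nat.mod_lt _ hQ, ?_⟩
    have h1 : Q.Coprime (u * w) := Nat.Coprime.mul_right hu.2 hw
    rw [Nat.coprime_iff_gcd_eq_one] at h1 ⊢
    rw [← h1, Nat.gcd_comm, ← Nat.gcd_rec]
  have hinj : Set.InjOn (fun u => u * w % Q) (UU Q : Set ℕ) := by
    intro u hu v hv h
    rw [mem_coe] at hu hv
    unfold UU at hu hv
    rw [mem_filter, mem_range] at hu hv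
    have h1 : u * w ≡ v * w [MOD Q] := h
    have h2 := Nat.ModEq.cancel_right_of_coprime hw h1
    rwa [Nat.ModEq, Nat.mod_eq_of_lt hu.1, Nat.mod_eq_of_lt hv.1] at h2
  have himg : (UU Q).image (fun u => u * w % Q) = UU Q := by
    apply Finset.eq_of_subset_of_card_le
    · intro v hv
      rw [mem_image] at hv
      obtain ⟨u, hu, rfl⟩ := hv
      exact hmap u hu
    · rw [Finset.card_image_of_injOn hinj]
  conv_rhs => rw [← himg]
  rw [Finset.sum_image hinj]

end Pool.Agent.Lib.MP_de5eaa_nt.Poi
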