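import Pool.Agent.Lib.MP_de5eaa_nt.Poi.Defs
import Pool.Agent.Lib.MP_de5eaa_nt.Poi.F0

set_option autoImplicit false

namespace Pool.Agent.Lib.MP_de5eaa_nt.Poi

open Finset MeasureTheory Filter Topology
open Pool.Agent.Lib.MP_de5eaa_nt.Near (hs wq)

theorem F1_bez {m e : ℕ} (hm0 : 0 < m) (hc : m.Coprime e) (a : ℤ) (ha : IsCoprime a (m : ℤ)) :
    ∃ (α : ℕ) (β : ℤ), a = α * e + β * m ∧ m.Coprime α := by
  obtain ⟨x, y, hxy⟩ := Nat.isCoprime_iff_coprime.2 hc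
  have hm1 : (m : ℤ) ≠ 0 := by exact_mod_cast hm0.ne'
  have h1 : (((a * y) % m).toNat : ℤ) = (a * y) % m := Int.toNat_of_nonneg (Int.emod_nonneg _ hm1)
  have h2 : (m : ℤ) * ((a * y) / m) + (a * y) % m = a * y := Int.mul_ediv_add_emod _ _
  have h3 : a = (((a * y) % m).toNat : ℤ) * e + (a * x + (a * y) / m * e) * m := by
    rw [h1]
    linear_combination (e : ℤ) * (-h2) - a * hxy
  refine ⟨((a * y) % m).toNat, a * x + (a * y) / m * e, h3, ?_⟩
  rw [← Nat.isCoprime_iff_coprime]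
  obtain ⟨c, d, hcd⟩ := ha
  refine ⟨c * (a * x + (a * y) / m * e) + d, c * e, ?_⟩
  linear_combination hcd - c * h3

theorem F1_int (u w r m e q s α : ℕ) (β k1 k2 : ℤ) (hm0 : 0 < m) (he0 : 0 < e) (hq : q = m * e * s)
    (h1 : (w : ℤ) = r + m * k1) (h2 : (w : ℤ) = 1 + e * k2) (h : ℝ)
    (hh : h = (α : ℝ) / m + (β : ℝ) / e) :
    ((u * w % q : ℕ) : ℝ) * h = ((u : ℝ) * β / e + ((r * (u * α) % m : ℕ) : ℝ) / m) +
      ((-((u * w / q : ℕ) : ℤ) * s * (α * e + β * m) + u * α * k1 + u * β * k2 +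
        ((r * (u * α) / m : ℕ) : ℤ) : ℤ) : ℝ) := by
  have hm1 : (m : ℝ) ≠ 0 := by exact_mod_cast hm0.ne'
  have he1 : (e : ℝ) ≠ 0 := by exact_mod_cast he0.ne'
  have a1 : (q : ℝ) * ((u * w / q : ℕ) : ℝ) + ((u * w % q : ℕ) : ℝ) = u * w := by
    exact_mod_cast Nat.div_add_mod (u * w) q
  have a2 : (m : ℝ) * ((r * (u * α) / m : ℕ) : ℝ) + ((r * (u * α) % m : ℕ) : ℝ) = r * (u * α) := by
    exact_mod_cast Nat.div_add_mod (r * (u * α)) m
  have b1 : (w : ℝ) = r + m * k1 := by exact_mod_cast h1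
  have b2 : (w : ℝ) = 1 + e * k2 := by exact_mod_cast h2
  have hq1 : (q : ℝ) = m * e * s := by exact_mod_cast hq
  have c1 : ((u * w % q : ℕ) : ℝ) = u * w - q * ((u * w / q : ℕ) : ℝ) := by linear_combination a1
  have c2 : ((r * (u * α) % m : ℕ) : ℝ) = r * (u * α) - m * ((r * (u * α) / m : ℕ) : ℝ) := by
    linear_combination a2
  rw [c1, c2, hh, hq1]
  generalize u * w / q = X at *
  generalize r * (u * α) / m = Y at *
  have d1 : (u : ℝ) * w * (α / m) = u * α * r / m + u * α * k1 := by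
    rw [b1]
    field_simp
  have d2 : (u : ℝ) * w * (β / e) = u * β / e + u * β * k2 := by
    rw [b2]
    field_simp
  have d3 : ((m : ℝ) * e * s) * (X : ℝ) * (α / m + β / e) = X * s * (α * e + β * m) := by
    field_simp
  have d4 : ((r : ℝ) * (u * α) - m * (Y : ℝ)) / m = u * α * r / m - (Y : ℝ) := by
    field_simp
  rw [d4]
  push_cast
  linear_combination d1 + d2 - d3

/-- ROW F1. Let `h = a / d` in lowest terms, `d = m e`, `e ∣ e0` (as `d ∣ m e0`, `m ∣ d`). Since `gcd(m, e) = 1` there are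
integers `α, β` with `a = α e + β m`, so `h = α/m + β/e` and `gcd(α, m) = 1`.
For `r ∈ UU m` let `w r` be the lift (`lift`). By `sum_unit` for each `r`:
`∑_u G u f(u h) = ∑_u G (u w % Q) f((u w % Q) h)`. Now `h.den ∣ Q` (`h.den ∣ m e0 ∣ Q`), so `(u w % Q) h = u w h` modulo one, and
`G (u w % Q) = G u` since `e0 ∣ Q` and `w ≡ 1 [MOD e0]`. And `u w h = u w α/m + u w β/e ≡ u r α/m + u β/e` modulo one.
Sum over `r ∈ UU m` (there are `φ(m)` of them): `φ(m) ∑_u G u f(u h) = ∑_u G u ∑_r f(u β/e + (u α) r/m)`, and for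
`u ∈ UU Q` the map `r ↦ (u α) r mod m` permutes the `r ∈ UU m` (`f` has period one). So `c u = u β / e`. -/
theorem fib {Q m e0 : ℕ} (hQ : 0 < Q) (hm : m ∣ Q) (he : e0 ∣ Q) (hc : m.Coprime e0) {h : ℚ} (hd : h.den ∣ m * e0)
    (hmd : m ∣ h.den) (f : ℝ → ℝ) (hf : ∀ (y : ℝ) (a : ℤ), f (y + a) = f y) (G : ℕ → ℝ)
    (hG : ∀ u v : ℕ, u ≡ v [MOD e0] → G u = G v) :
    ∃ c : ℕ → ℝ, (m.totient : ℝ) * ∑ u ∈ UU Q, G u * f ((u : ℝ) * (h : ℝ)) =
      ∑ u ∈ UU Q, G u * ∑ r ∈ UU m, f (c u + (r : ℝ) / m) := by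
  have hm0 : 0 < m := Nat.pos_of_dvd_of_pos hm hQ
  obtain ⟨e, hde⟩ := hmd
  have hd0 : 0 < h.den := h.pos
  have he0 : 0 < e := by
    rcases Nat.eq_zero_or_pos e with h0 | h0
    · rw [h0, mul_zero] at hde
      omega
    · exact h0
  have hee : e ∣ e0 := by
    rw [hde] at hd
    exact Nat.dvd_of_mul_dvd_mul_left hm0 hd
  have hcme : m.Coprime e := Nat.Coprime.coprime_dvd_right hee hc
  have hcop : IsCoprime h.num (m : ℤ) := by
    have h1 : IsCoprime h.num (h.den : ℤ) := by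
      rw [Int.isCoprime_iff_gcd_eq_one]
      exact h.reduced
    rw [hde] at h1
    push_cast at h1
    exact h1.of_mul_right_left
  obtain ⟨α, β, hab, hma⟩ := F1_bez hm0 hcme h.num hcop
  have hm1 : (m : ℝ) ≠ 0 := by exact_mod_cast hm0.ne'
  have he1 : (e : ℝ) ≠ 0 := by exact_mod_cast he0.ne'
  have hh : (h : ℝ) = (α : ℝ) / m + (β : ℝ) / e := by
    rw [Rat.cast_def, hde, hab]
    push_cast
    field_simp
  obtain ⟨s, hs0⟩ : m * e ∣ Q := by
    refine dvd_trans ?_ (hc.mul_dvd_of_dvd_of_dvd hm he)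
    exact Nat.mul_dvd_mul_left m hee
  have key : ∀ r ∈ UU m, ∑ u ∈ UU Q, G u * f ((u : ℝ) * (h : ℝ)) =
      ∑ u ∈ UU Q, G u * f ((u : ℝ) * β / e + ((r * (u * α) % m : ℕ) : ℝ) / m) := by
    intro r hr
    have hr1 : m.Coprime r := (Finset.mem_filter.1 hr).2
    obtain ⟨w, hw, hwr, hw1⟩ := lift hQ hm he hc hr1
    rw [← sum_unit hQ hw (fun u => G u * f ((u : ℝ) * (h : ℝ)))]
    refine Finset.sum_congr rfl fun u _ => ?_
    have g1 : G (u * w % Q) = G u := by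
      apply hG
      have h1 : u * w % Q ≡ u * w [MOD e0] := (Nat.mod_modEq _ _).of_dvd he
      have h2 : u * w ≡ u * 1 [MOD e0] := Nat.ModEq.mul_left u hw1
      rw [mul_one] at h2
      exact h1.trans h2
    obtain ⟨k1, hk1⟩ : ∃ k1 : ℤ, (w : ℤ) = r + m * k1 := by
      obtain ⟨k, hk⟩ := (Nat.modEq_iff_dvd.1 hwr.symm)
      exact ⟨k, by linear_combination hk⟩
    obtain ⟨k2, hk2⟩ : ∃ k2 : ℤ, (w : ℤ) = 1 + e * k2 := by
      obtain ⟨k, hk⟩ := (Nat.modEq_iff_dvd.1 ((hw1.of_dvd hee).symm))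
      exact ⟨k, by push_cast at hk; linear_combination hk⟩
    have h3 := F1_int u w r m e Q s α β k1 k2 hm0 he0 hs0 hk1 hk2 (h : ℝ) hh
    rw [g1]
    rw [h3, hf]
  refine ⟨fun u => (u : ℝ) * β / e, ?_⟩
  have hcard : (m.totient : ℝ) = ((UU m).card : ℝ) := rfl
  rw [hcard, ← nsmul_eq_mul, ← Finset.sum_const, Finset.sum_congr rfl key, Finset.sum_comm]
  refine Finset.sum_congr rfl fun u hu => ?_
  rw [← Finset.mul_sum]
  congr 1
  have hu1 : Q.Coprime u := (Finset.mem_filter.1 hu).2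
  have hu2 : m.Coprime (u * α) := Nat.Coprime.mul_right (Nat.Coprime.coprime_dvd_left hm hu1) hma
  exact sum_unit hm0 hu2 (fun r => f ((u : ℝ) * β / e + (r : ℝ) / m))

end Pool.Agent.Lib.MP_de5eaa_nt.Poi
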