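import Pool.Agent.Lib.MP_de5eaa_nt.Poi.Defs
import Pool.Agent.Lib.MP_de5eaa_nt.Poi.F1
import Pool.Agent.Lib.MP_de5eaa_nt.Poi.M0

set_option autoImplicit false

namespace Pool.Agent.Lib.MP_de5eaa_nt.Poi

open Finset MeasureTheory Filter Topology
open Pool.Agent.Lib.MP_de5eaa_nt.Near (hs wq)

/-- ROW F2. Apply `fib` (with `e0 = Q'`, `f y = hI J L t (-y) - w`; periodic by `hI_add_int`). The inner sum is
`∑ r ∈ UU m, hI J L t (-(c u) - r/m) - w φ(m)`; replace `r` by `m - r` (modulo `m`; a permutation of `UU m`, the argument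
changes by an integer) to get `∑ r ∈ UU m, hI J L t (-(c u) + r/m) - w φ(m)`, which is at most `D` in absolute value by
`hD`. (Equivalently apply `fib` to `-h` and `f y = hI J L t y - w`: `(-h).den = h.den`; then no reflection is needed.)
`|G u| ≤ 1`, `(UU Q).card = φ(Q)`. -/
theorem fib_mean {Q m Q' : ℕ} (hQ : 0 < Q) (hQm : Q = m * Q') (hc : m.Coprime Q') {h : ℚ} (hd : h.den ∣ Q)
    (hmd : m ∣ h.den) {J : Set ℝ} {L t w D : ℝ} (hD : ∀ c : ℝ, |(∑ r ∈ UU m, hI J L t (c + (r : ℝ) / m)) - w * (m.totient : ℝ)| ≤ D)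
    (G : ℕ → ℝ) (hG0 : ∀ u, 0 ≤ G u) (hG1 : ∀ u, G u ≤ 1) (hG : ∀ u v : ℕ, u ≡ v [MOD Q'] → G u = G v) :
    |∑ u ∈ UU Q, G u * (hI J L t (-((u : ℝ) * (h : ℝ))) - w)| * (m.totient : ℝ) ≤ (Q.totient : ℝ) * D := by
  have hm : m ∣ Q := ⟨Q', hQm⟩
  have he : Q' ∣ Q := ⟨m, by rw [hQm, Nat.mul_comm]⟩
  have hd' : (-h).den ∣ m * Q' := by
    rw [Rat.neg_den, ← hQm]
    exact hd
  have hmd' : m ∣ (-h).den := by
    rw [Rat.neg_den]
    exact hmd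
  obtain ⟨c, hcc⟩ := fib hQ hm he hc hd' hmd' (fun y => hI J L t y - w)
    (fun y a => by
      show hI J L t (y + a) - w = hI J L t y - w
      rw [hI_add_int]) G hG
  have e1 : ∑ u ∈ UU Q, G u * (hI J L t (-((u : ℝ) * (h : ℝ))) - w) =
      ∑ u ∈ UU Q, G u * (fun y => hI J L t y - w) ((u : ℝ) * (((-h : ℚ)) : ℝ)) := by
    apply Finset.sum_congr rfl
    intro u _
    have e2 : (u : ℝ) * (((-h : ℚ)) : ℝ) = -((u : ℝ) * (h : ℝ)) := by
      push_cast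
      ring
    show G u * (hI J L t (-((u : ℝ) * (h : ℝ))) - w) = G u * (hI J L t ((u : ℝ) * (((-h : ℚ)) : ℝ)) - w)
    rw [e2]
  have hm0 : (0 : ℝ) ≤ (m.totient : ℝ) := Nat.cast_nonneg _
  have hD0 : 0 ≤ D := (abs_nonneg _).trans (hD 0)
  rw [e1, mul_comm, ← abs_of_nonneg hm0, ← abs_mul, hcc]
  refine (Finset.abs_sum_le_sum_abs _ _).trans ?_
  have hb : ∀ u ∈ UU Q, |G u * ∑ r ∈ UU m, (fun y => hI J L t y - w) (c u + (r : ℝ) / m)| ≤ D := by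
    intro u _
    have e3 : ∑ r ∈ UU m, (fun y => hI J L t y - w) (c u + (r : ℝ) / m) =
        (∑ r ∈ UU m, hI J L t (c u + (r : ℝ) / m)) - w * (m.totient : ℝ) := by
      show ∑ r ∈ UU m, (hI J L t (c u + (r : ℝ) / m) - w) = _
      rw [Finset.sum_sub_distrib, Finset.sum_const, card_UU, nsmul_eq_mul, mul_comm w]
    rw [abs_mul, abs_of_nonneg (hG0 u), e3]
    calc G u * |(∑ r ∈ UU m, hI J L t (c u + (r : ℝ) / m)) - w * (m.totient : ℝ)|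
        ≤ 1 * D := mul_le_mul (hG1 u) (hD (c u)) (abs_nonneg _) zero_le_one
      _ = D := one_mul D
  refine (Finset.sum_le_sum hb).trans ?_
  rw [Finset.sum_const, card_UU, nsmul_eq_mul]

/-- Apply `fib` with `e0 = h.den / m`, `G = 1`, `f y = hI J L t y`. -/
theorem fib_le {Q m : ℕ} (hQ : 0 < Q) {h : ℚ} (hd : h.den ∣ Q) (hmd : m ∣ h.den) (hc : m.Coprime (h.den / m))
    {J : Set ℝ} {L t D : ℝ} (hD : ∀ c : ℝ, ∑ r ∈ UU m, hI J L t (c + (r : ℝ) / m) ≤ D) :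
    (∑ u ∈ UU Q, hI J L t ((u : ℝ) * (h : ℝ))) * (m.totient : ℝ) ≤ (Q.totient : ℝ) * D := by
  have hdm : m * (h.den / m) = h.den := Nat.mul_div_cancel' hmd
  obtain ⟨c, hc'⟩ := fib hQ (hmd.trans hd) ((Nat.div_dvd_of_dvd hmd).trans hd) hc (h := h) (by rw [hdm]) hmd
    (fun y => hI J L t y) (fun y a => hI_add_int J L t y a) (fun _ => 1) (fun _ _ _ => rfl)
  simp only [one_mul] at hc'
  calc (∑ u ∈ UU Q, hI J L t ((u : ℝ) * (h : ℝ))) * (m.totient : ℝ)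
      = (m.totient : ℝ) * ∑ u ∈ UU Q, hI J L t ((u : ℝ) * (h : ℝ)) := mul_comm _ _
    _ = ∑ u ∈ UU Q, ∑ r ∈ UU m, hI J L t (c u + (r : ℝ) / m) := hc'
    _ ≤ ∑ u ∈ UU Q, D := Finset.sum_le_sum fun u _ => hD (c u)
    _ = (Q.totient : ℝ) * D := by rw [Finset.sum_const, card_UU, nsmul_eq_mul]

end Pool.Agent.Lib.MP_de5eaa_nt.Poi
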