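import Pool.Agent.Lib.MP_de5eaa_nt.Poi.Defs
import Pool.Agent.Lib.MP_de5eaa_nt.Poi.M0

set_option autoImplicit false

namespace Pool.Agent.Lib.MP_de5eaa_nt.Poi

open Finset MeasureTheory Filter Topology
open Pool.Agent.Lib.MP_de5eaa_nt.Near (hs wq)

theorem G0_card {J : Set ℝ} {lam K R L : ℝ} (hJ : Nice J lam K R) (hL : 2 * R < L) {m : ℕ}
    (hm : 0 < m) (t c : ℝ) :
    (∑ r ∈ range m, hI J L t (c + (r : ℝ) / m)) =
      (({k : ℤ | L * (c - t) + k * (L / m) ∈ J}.ncard : ℕ) : ℝ) := by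
  classical
  have hR := hJ.R0
  have hL0 : 0 < L := by linarith
  have hmR : (0 : ℝ) < m := by exact_mod_cast hm
  have hmZ : (0 : ℤ) < m := by exact_mod_cast hm
  have hfin := (hJ.grid (L / m) (by positivity) (L * (c - t))).1
  have e1 : (∑ r ∈ range m, hI J L t (c + (r : ℝ) / m)) =
      (((range m).filter fun r : ℕ => Hit J L t (c + (r : ℝ) / m)).card : ℝ) := by
    rw [Finset.card_filter, Nat.cast_sum]
    refine Finset.sum_congr rfl fun r _ => ?_
    unfold hI
    split_ifs <;> simp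
  rw [e1, Set.ncard_eq_toFinset_card _ hfin]
  congr 1
  symm
  refine Finset.card_bij (fun k _ => (k % (m : ℤ)).toNat) ?_ ?_ ?_
  · intro k hk
    rw [Set.Finite.mem_toFinset, Set.mem_ofPred_eq] at hk
    have h0 : 0 ≤ k % (m : ℤ) := Int.emod_nonneg _ hmZ.ne'
    have h1 : k % (m : ℤ) < m := Int.emod_lt_of_pos _ hmZ
    rw [Finset.mem_filter, Finset.mem_range]
    refine ⟨by omega, k / (m : ℤ) * (-1), ?_⟩
    have h2 : (((k % (m : ℤ)).toNat : ℕ) : ℝ) = ((k % (m : ℤ) : ℤ) : ℝ) := by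
      rw [← Int.cast_natCast, Int.toNat_of_nonneg h0]
    have h3 : (k : ℝ) = ((k % (m : ℤ) : ℤ) : ℝ) + (m : ℝ) * ((k / (m : ℤ) : ℤ) : ℝ) := by
      have := Int.emod_add_mul_ediv k (m : ℤ)
      exact_mod_cast this.symm
    rw [h2]
    have h4 : L * (c + ((k % (m : ℤ) : ℤ) : ℝ) / m - t - ((k / (m : ℤ) * (-1) : ℤ) : ℝ)) =
        L * (c - t) + k * (L / m) := by
      rw [h3]
      push_cast
      field_simp
      ring
    rw [h4]
    exact hk
  · intro k hk k' hk' heq
    rw [Set.Finite.mem_toFinset, Set.mem_ofPred_eq] at hk hk'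
    have h0 : 0 ≤ k % (m : ℤ) := Int.emod_nonneg _ hmZ.ne'
    have h0' : 0 ≤ k' % (m : ℤ) := Int.emod_nonneg _ hmZ.ne'
    have h1 : k % (m : ℤ) = k' % (m : ℤ) := by
      have h2 : (k % (m : ℤ)).toNat = (k' % (m : ℤ)).toNat := heq
      omega
    obtain ⟨d, hd⟩ : (m : ℤ) ∣ k' - k := Int.ModEq.dvd (n := (m : ℤ)) h1
    have hb := hJ.sub hk
    have hb' := hJ.sub hk'
    rw [Set.mem_Icc] at hb hb'
    have h5 : ((k' : ℝ) - k) * (L / m) = L * d := by
      have : ((k' - k : ℤ) : ℝ) = ((m * d : ℤ) : ℝ) := by rw [hd]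
      push_cast at this
      rw [this]
      field_simp
    have h6 : |L * (d : ℝ)| < L := by
      rw [← h5, abs_lt]
      constructor <;> nlinarith [hb.1, hb.2, hb'.1, hb'.2]
    have h7 : d = 0 := by
      rw [abs_mul, abs_of_pos hL0] at h6
      have h8 : |(d : ℝ)| < 1 := by
        by_contra h9
        push Not at h9
        nlinarith
      have h9 : |d| < 1 := by exact_mod_cast h8
      exact Int.abs_lt_one_iff.1 h9
    rw [h7, mul_zero] at hd
    omega
  · intro r hr
    rw [Finset.mem_filter, Finset.mem_range] at hr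
    obtain ⟨hr1, a, ha⟩ := hr
    refine ⟨(r : ℤ) - a * m, ?_, ?_⟩
    · rw [Set.Finite.mem_toFinset, Set.mem_ofPred_eq]
      have h4 : L * (c - t) + (((r : ℤ) - a * m : ℤ) : ℝ) * (L / m) =
          L * (c + (r : ℝ) / m - t - a) := by
        push_cast
        field_simp
        ring
      rw [h4]
      exact ha
    · have h1 : ((r : ℤ) - a * m) % (m : ℤ) = r := by
        rw [Int.sub_mul_emod_self_right]
        exact Int.emod_eq_of_lt (by omega) (by omega)
      rw [h1, Int.toNat_natCast]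

/-- ROW G0 (full grids). Since `2 R < L` there is at most one integer `a` for each `r`, and `(r, a) ↦ r - a m` is a
bijection from `{(r,a) | r ∈ range m, L (c + r/m - t - a) ∈ J}` onto `{k : ℤ | L (c - t) + k (L/m) ∈ J}` (inverse:
`r = k % m`, `a = -(k / m)`). So the sum is the `ncard` of this set, and `Nice.grid` with the step `h = L / m > 0` gives
the error `K` (main term `lam / (L/m) = lam * m / L`). Hint: `Finset.card_filter`, then `Set.ncard_coe_finset` and
`Finset.card_bij` / `Set.ncard_congr` from the filtered `range m` to the finite set. -/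
theorem grid_sum {J : Set ℝ} {lam K R L : ℝ} (hJ : Nice J lam K R) (hL : 2 * R < L) {m : ℕ} (hm : 0 < m) (t c : ℝ) :
    |(∑ r ∈ range m, hI J L t (c + (r : ℝ) / m)) - lam * m / L| ≤ K := by
  have hR := hJ.R0
  have hL0 : 0 < L := by linarith
  have hmR : (0 : ℝ) < m := by exact_mod_cast hm
  have h1 := (hJ.grid (L / m) (by positivity) (L * (c - t))).2
  rw [G0_card hJ hL hm]
  have h2 : lam * m / L = lam / (L / m) := by
    field_simp
  rw [h2]
  exact h1

end Pool.Agent.Lib.MP_de5eaa_nt.Poi
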