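import Pool.Agent.Lib.MP_de5eaa_nt.Poi.Defs
import Pool.Agent.Lib.MP_de5eaa_nt.Poi.G0

set_option autoImplicit false

namespace Pool.Agent.Lib.MP_de5eaa_nt.Poi

open Finset MeasureTheory Filter Topology
open Pool.Agent.Lib.MP_de5eaa_nt.Near (hs wq)

theorem G1a_dvd (g : ℕ → ℝ) {a : ℕ} (b : ℕ) (ha : 0 < a) :
    ∑ r ∈ range (a * b), (if a ∣ r then g r else 0) = ∑ r ∈ range b, g (a * r) := by
  rw [← Finset.sum_filter]
  have h : (range (a * b)).filter (fun r => a ∣ r) = (range b).image (fun r => a * r) := by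
    ext r
    rw [mem_filter, mem_range, mem_image]
    constructor
    · rintro ⟨h1, r', rfl⟩
      exact ⟨r', mem_range.2 (lt_of_mul_lt_mul_left h1 (Nat.zero_le a)), rfl⟩
    · rintro ⟨r', h1, rfl⟩
      exact ⟨mul_lt_mul_of_pos_left (mem_range.1 h1) ha, Dvd.intro _ rfl⟩
  rw [h, Finset.sum_image]
  intro x _ y _ hxy
  exact Nat.eq_of_mul_eq_mul_left ha hxy

theorem G1a_UU (g : ℕ → ℝ) {p q : ℕ} (hp : p.Prime) (hq : q.Prime) (hpq : p ≠ q) :
    ∑ r ∈ UU (p * q), g r = ∑ r ∈ range (p * q), g r - ∑ r ∈ range q, g (p * r) -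
      ∑ r ∈ range p, g (q * r) + g 0 := by
  have hc : Nat.Coprime p q := (Nat.coprime_primes hp hq).2 hpq
  have h1 := G1a_dvd g q hp.pos
  have h2 := G1a_dvd g p hq.pos
  rw [Nat.mul_comm q p] at h2
  have h3 := G1a_dvd g 1 (Nat.mul_pos hp.pos hq.pos)
  rw [mul_one, Finset.sum_range_one, mul_zero] at h3
  rw [← h1, ← h2, ← h3, ← Finset.sum_sub_distrib, ← Finset.sum_sub_distrib,
    ← Finset.sum_add_distrib, UU, Finset.sum_filter]
  refine Finset.sum_congr rfl fun r _ => ?_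
  have e1 : (p * q).Coprime r ↔ ¬ p ∣ r ∧ ¬ q ∣ r := by
    rw [Nat.coprime_mul_iff_left, hp.coprime_iff_not_dvd, hq.coprime_iff_not_dvd]
  have e2 : p * q ∣ r ↔ p ∣ r ∧ q ∣ r :=
    ⟨fun h => ⟨dvd_trans (Dvd.intro _ rfl) h, dvd_trans (Dvd.intro_left _ rfl) h⟩,
      fun h => hc.mul_dvd_of_dvd_of_dvd h.1 h.2⟩
  by_cases hpr : p ∣ r <;> by_cases hqr : q ∣ r
  · rw [if_neg (fun h => (e1.1 h).1 hpr), if_pos hpr, if_pos hqr, if_pos (e2.2 ⟨hpr, hqr⟩)]
    ring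
  · rw [if_neg (fun h => (e1.1 h).1 hpr), if_pos hpr, if_neg hqr, if_neg (fun h => hqr (e2.1 h).2)]
    ring
  · rw [if_neg (fun h => (e1.1 h).2 hqr), if_neg hpr, if_pos hqr, if_neg (fun h => hpr (e2.1 h).1)]
    ring
  · rw [if_pos (e1.2 ⟨hpr, hqr⟩), if_neg hpr, if_neg hqr, if_neg (fun h => hpr (e2.1 h).1)]
    ring

/-- ROW G1 (units modulo `p q`). `UU (p q)` is `range (p q)` without the multiples of `p` and the multiples of `q`; `0` is
the only common multiple. So `∑ over UU (p q) = ∑ over range (p q) - ∑ over r = p r' (r' < q) - ∑ over r = q r' (r' < p) +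
(r = 0)`, and these are the four full grids of `grid_sum` with the moduli `p q`, `q`, `p`, `1` (`p r'/(p q) = r'/q`). The main
terms: `lam (p q - q - p + 1) / L = lam φ(p q) / L`. -/
theorem units_arc {J : Set ℝ} {lam K R L : ℝ} (hJ : Nice J lam K R) (hL : 2 * R < L) {p q : ℕ} (hp : p.Prime)
    (hq : q.Prime) (hpq : p ≠ q) (t c : ℝ) :
    |(∑ r ∈ UU (p * q), hI J L t (c + (r : ℝ) / ((p * q : ℕ) : ℝ))) - lam / L * ((p * q).totient : ℝ)| ≤ 4 * K := by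
  have hp0 : (p : ℝ) ≠ 0 := Nat.cast_ne_zero.2 hp.ne_zero
  have hq0 : (q : ℝ) ≠ 0 := Nat.cast_ne_zero.2 hq.ne_zero
  rw [G1a_UU (fun r => hI J L t (c + (r : ℝ) / ((p * q : ℕ) : ℝ))) hp hq hpq]
  have h0 := grid_sum hJ hL (Nat.mul_pos hp.pos hq.pos) t c
  have h1 := grid_sum hJ hL hq.pos t c
  have h2 := grid_sum hJ hL hp.pos t c
  have h3 := grid_sum hJ hL one_pos t c
  rw [Finset.sum_range_one] at h3
  have e1 : ∑ r ∈ range q, hI J L t (c + ((p * r : ℕ) : ℝ) / ((p * q : ℕ) : ℝ)) =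
      ∑ r ∈ range q, hI J L t (c + (r : ℝ) / q) := by
    refine Finset.sum_congr rfl fun r _ => ?_
    rw [Nat.cast_mul, Nat.cast_mul, mul_div_mul_left _ _ hp0]
  have e2 : ∑ r ∈ range p, hI J L t (c + ((q * r : ℕ) : ℝ) / ((p * q : ℕ) : ℝ)) =
      ∑ r ∈ range p, hI J L t (c + (r : ℝ) / p) := by
    refine Finset.sum_congr rfl fun r _ => ?_
    rw [Nat.cast_mul, Nat.cast_mul, mul_comm (p : ℝ), mul_div_mul_left _ _ hq0]
  have e3 : hI J L t (c + ((0 : ℕ) : ℝ) / ((p * q : ℕ) : ℝ)) =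
      hI J L t (c + ((0 : ℕ) : ℝ) / ((1 : ℕ) : ℝ)) := by
    rw [Nat.cast_zero, zero_div, zero_div]
  have e4 : ((p * q).totient : ℝ) = p * q - p - q + 1 := by
    rw [Nat.totient_mul ((Nat.coprime_primes hp hq).2 hpq), Nat.totient_prime hp,
      Nat.totient_prime hq, Nat.cast_mul, Nat.cast_sub hp.one_le, Nat.cast_sub hq.one_le]
    push_cast
    ring
  rw [e1, e2, e3, e4]
  have e5 : lam / L * ((p : ℝ) * q - p - q + 1) =
      lam * ((p * q : ℕ) : ℝ) / L - lam * q / L - lam * p / L + lam * ((1 : ℕ) : ℝ) / L := by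
    push_cast
    ring
  rw [e5]
  rw [abs_le] at h0 h1 h2 h3 ⊢
  constructor <;> linarith [h0.1, h0.2, h1.1, h1.2, h2.1, h2.2, h3.1, h3.2]

/-- the upper bound with a full grid: drop the condition of coprimality (`hI ≥ 0`) -/
theorem arc_le {J : Set ℝ} {lam K R L : ℝ} (hJ : Nice J lam K R) (hL : 2 * R < L) {m : ℕ} (hm : 0 < m) (t c : ℝ) :
    ∑ r ∈ UU m, hI J L t (c + (r : ℝ) / m) ≤ lam * m / L + K := by
  have h1 : ∑ r ∈ UU m, hI J L t (c + (r : ℝ) / m) ≤ ∑ r ∈ range m, hI J L t (c + (r : ℝ) / m) := by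
    refine Finset.sum_le_sum_of_subset_of_nonneg (Finset.filter_subset _ _) fun r _ _ => ?_
    unfold hI
    split_ifs <;> norm_num
  have h2 := (abs_le.1 (grid_sum hJ hL hm t c)).2
  linarith only [h1, h2]

end Pool.Agent.Lib.MP_de5eaa_nt.Poi
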