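import Pool.Agent.Lib.MP_de5eaa_nt.Poi.Defs

set_option autoImplicit false

namespace Pool.Agent.Lib.MP_de5eaa_nt.Poi

open Finset MeasureTheory Filter Topology
open Pool.Agent.Lib.MP_de5eaa_nt.Near (hs wq)

theorem H2a_norm_inv {q k : ℕ} (hq : q.Prime) (hk : k ≠ 0) :
    padicNorm q (1 / (k : ℚ)) = (q : ℚ) ^ k.factorization q := by
  have : Fact q.Prime := ⟨hq⟩
  have hk' : (k : ℚ) ≠ 0 := by exact_mod_cast hk
  rw [padicNorm.eq_zpow_of_nonzero (one_div_ne_zero hk'), one_div, padicValRat.inv,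
    padicValRat.of_nat, neg_neg, zpow_natCast, Nat.factorization_def k hq]

theorem H2a_norm {q n m k0 : ℕ} (hq : q.Prime) (hn : 1 ≤ n) (h1 : n ≤ k0) (h2 : k0 < m)
    (h : ∀ k, n ≤ k → k < m → k ≠ k0 → k.factorization q < k0.factorization q) :
    padicNorm q (hs n m) = (q : ℚ) ^ k0.factorization q := by
  have : Fact q.Prime := ⟨hq⟩
  have hk0 : k0 ∈ Ico n m := by
    rw [mem_Ico]
    exact ⟨h1, h2⟩
  have hpos : ∀ k ∈ Ico n m, k ≠ 0 := fun k hk => by
    rw [mem_Ico] at hk
    omega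
  have hq1 : (1 : ℚ) < (q : ℚ) := by exact_mod_cast hq.one_lt
  have e : hs n m = 1 / (k0 : ℚ) + ∑ k ∈ (Ico n m).erase k0, 1 / (k : ℚ) := by
    unfold hs
    exact (Finset.add_sum_erase (Ico n m) (fun k => 1 / (k : ℚ)) hk0).symm
  have h3 : padicNorm q (1 / (k0 : ℚ)) = (q : ℚ) ^ k0.factorization q :=
    H2a_norm_inv hq (hpos _ hk0)
  have h4 : padicNorm q (∑ k ∈ (Ico n m).erase k0, 1 / (k : ℚ)) < (q : ℚ) ^ k0.factorization q := by
    apply padicNorm.sum_lt'
    · intro k hk
      rw [mem_erase] at hk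
      rw [H2a_norm_inv hq (hpos _ hk.2)]
      have hk2 := hk.2
      rw [mem_Ico] at hk2
      exact pow_lt_pow_right₀ hq1 (h k hk2.1 hk2.2 hk.1)
    · have : (0 : ℚ) < (q : ℚ) := by linarith
      positivity
  rw [e, padicNorm.add_eq_max_of_ne (by rw [h3]; exact h4.ne'), h3]
  exact max_eq_left h4.le

/-- ROW H2a. The term `1/k0` has the `q`-adic valuation `-v_q(k0)`, all the other terms have larger valuation, so the sum
has the valuation `-v_q(k0)` (nonarchimedean: `padicNorm.add_eq_max_of_ne`, `padicNorm.sum_lt'`; compare the file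
`Near/N2.lean`, theorem `norm_hs`), hence `v_q(den) = v_q(k0)` (numerator and denominator are coprime). -/
theorem den_val {q n m k0 : ℕ} (hq : q.Prime) (hn : 1 ≤ n) (h1 : n ≤ k0) (h2 : k0 < m) (h0 : 0 < k0.factorization q)
    (h : ∀ k, n ≤ k → k < m → k ≠ k0 → k.factorization q < k0.factorization q) :
    (hs n m).den.factorization q = k0.factorization q := by
  have : Fact q.Prime := ⟨hq⟩
  have h3 := H2a_norm hq hn h1 h2 h
  have hq1 : (1 : ℚ) < (q : ℚ) := by exact_mod_cast hq.one_lt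
  have hq0 : (0 : ℚ) < (q : ℚ) := by linarith
  have hne : hs n m ≠ 0 := by
    intro h4
    rw [h4, padicNorm.zero] at h3
    have : (0 : ℚ) < (q : ℚ) ^ k0.factorization q := pow_pos hq0 _
    linarith
  rw [padicNorm.eq_zpow_of_nonzero hne, ← zpow_natCast] at h3
  have h5 : -padicValRat q (hs n m) = ((k0.factorization q : ℕ) : ℤ) :=
    zpow_right_injective₀ hq0 hq1.ne' h3
  rw [padicValRat_def] at h5
  rw [Nat.factorization_def _ hq]
  rcases Nat.eq_zero_or_pos (padicValInt q (hs n m).num) with h6 | h6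
  · omega
  · exfalso
    have h7 : q ∣ (hs n m).num.natAbs := by
      have : 1 ≤ padicValNat q (hs n m).num.natAbs := h6
      exact dvd_of_one_le_padicValNat this
    have h8 : q ∣ (hs n m).den := by
      apply dvd_of_one_le_padicValNat
      omega
    have h9 := Nat.dvd_gcd h7 h8
    rw [(hs n m).reduced] at h9
    exact hq.one_lt.ne' (Nat.dvd_one.1 h9)

/-- ROW H2b. For `n ≤ p < m ≤ 2 p` the prime `p` is the only multiple of `p` in `[n, m)`; `den_val` with `k0 = p`. -/
theorem den_prime {p n m : ℕ} (hp : p.Prime) (hn : 1 ≤ n) (h1 : n ≤ p) (h2 : p < m) (h3 : m ≤ 2 * p) :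
    (hs n m).den.factorization p = 1 := by
  have e : p.factorization p = 1 := hp.factorization_self
  have h := den_val hp hn h1 h2 (by rw [e]; exact Nat.one_pos) (fun k hk1 hk2 hk3 => by
    rw [e, Nat.lt_one_iff]
    refine Nat.factorization_eq_zero_of_not_dvd fun hd => ?_
    obtain ⟨c, rfl⟩ := hd
    have hp0 := hp.pos
    have hc1 : c < 2 := by
      by_contra hc
      push Not at hc
      have := Nat.mul_le_mul_left p hc
      omega
    have hc2 : c ≠ 0 := by
      rintro rfl
      omega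
    have hc3 : c = 1 := by omega
    exact hk3 (by rw [hc3, mul_one]))
  rw [h, e]

theorem H2b_sum {q : ℕ} (hq : q.Prime) (s : Finset ℕ) (h : ∀ k ∈ s, ¬ q ∣ k) :
    ¬ q ∣ (∑ k ∈ s, 1 / (k : ℚ)).den := by
  induction s using Finset.induction_on with
  | empty =>
    rw [Finset.sum_empty]
    exact fun hd => hq.one_lt.ne' (Nat.dvd_one.1 hd)
  | insert a s ha ih =>
    rw [Finset.sum_insert ha]
    intro hd
    rcases (hq.dvd_mul).1 (hd.trans (Rat.add_den_dvd _ _)) with h1 | h1
    · have ha0 : 0 < a := Nat.pos_of_ne_zero fun h0 =>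
        h a (Finset.mem_insert_self a s) (h0 ▸ dvd_zero q)
      rw [one_div, Rat.inv_natCast_den_of_pos ha0] at h1
      exact h a (Finset.mem_insert_self a s) h1
    · exact ih (fun k hk => h k (Finset.mem_insert_of_mem hk)) h1

/-- ROW H2c. If no `k ∈ [n,m)` is divisible by `q` then `q` does not divide the denominator (it divides the product of
the `k`). -/
theorem den_zero {q n m : ℕ} (hq : q.Prime) (hn : 1 ≤ n) (h : ∀ k, n ≤ k → k < m → ¬ q ∣ k) :
    (hs n m).den.factorization q = 0 :=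
  Nat.factorization_eq_zero_of_not_dvd (H2b_sum hq (Ico n m) fun k hk => by
    rw [mem_Ico] at hk
    exact h k hk.1 hk.2)

end Pool.Agent.Lib.MP_de5eaa_nt.Poi
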