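import Pool.Agent.Lib.MP_de5eaa_nt.Poi.Defs

set_option autoImplicit false

namespace Pool.Agent.Lib.MP_de5eaa_nt.Poi

open Finset MeasureTheory Filter Topology
open Pool.Agent.Lib.MP_de5eaa_nt.Near (hs wq)

/-- ROW H7a. Every `k ∈ [n, m)` divides `QQ L` (`Finset.dvd_lcm`), so `QQ L * hs n m` is an integer
(`Rat.den_dvd_of...`: if `N * q = z` with `N : ℕ`, `z : ℤ` then `q.den ∣ N`). -/
theorem den_dvd_QQ {L n m : ℕ} (hn : 1 ≤ n) (hm : m ≤ L + 1) : (hs n m).den ∣ QQ L := by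
  have hpos : QQ L ≠ 0 := by
    unfold QQ
    rw [Ne, Finset.lcm_eq_zero_iff]
    rintro ⟨x, hx, hx0⟩
    have h1 := (Finset.mem_Icc.1 (Finset.mem_coe.1 hx)).1
    simp only [id] at hx0
    omega
  have hq : (QQ L : ℚ) ≠ 0 := Nat.cast_ne_zero.2 hpos
  have h1 : hs n m = ((∑ k ∈ Ico n m, ((QQ L / k : ℕ) : ℤ) : ℤ) : ℚ) / ((QQ L : ℤ) : ℚ) := by
    unfold hs
    push_cast
    rw [Finset.sum_div]
    refine Finset.sum_congr rfl fun k hk => ?_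
    have hk1 := Finset.mem_Ico.1 hk
    have hd : k ∣ QQ L := by
      unfold QQ
      exact Finset.dvd_lcm (f := id) (Finset.mem_Icc.2 ⟨by omega, by omega⟩)
    have hk0 : (k : ℚ) ≠ 0 := Nat.cast_ne_zero.2 (by omega)
    have hc : (((QQ L : ℤ) / (k : ℤ) : ℤ) : ℚ) = (QQ L : ℚ) / (k : ℚ) := by
      rw [Int.cast_div (Int.natCast_dvd_natCast.2 hd) (by exact_mod_cast hk0)]
      push_cast
      rfl
    rw [hc]
    field_simp
  have h2 := Rat.den_dvd (∑ k ∈ Ico n m, ((QQ L / k : ℕ) : ℤ)) (QQ L : ℤ)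
  rw [Rat.divInt_eq_div, ← h1] at h2
  exact Int.natCast_dvd_natCast.1 h2

theorem QQ_pos (L : ℕ) : 0 < QQ L := by
  refine Nat.pos_of_ne_zero ?_
  unfold QQ
  rw [Ne, Finset.lcm_eq_zero_iff]
  rintro ⟨x, hx, hx0⟩
  have h1 := (Finset.mem_Icc.1 (Finset.mem_coe.1 hx)).1
  simp only [id] at hx0
  omega

theorem H7b_aux (ℓ : ℕ) (s : Finset ℕ) (hs : ∀ k ∈ s, k ≠ 0 ∧ k.factorization ℓ ≤ 1) :
    s.lcm id ≠ 0 ∧ (s.lcm id).factorization ℓ ≤ 1 := by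
  classical
  induction s using Finset.induction_on with
  | empty => simp
  | insert a t ha ih =>
    have h1 := ih fun k hk => hs k (Finset.mem_insert_of_mem hk)
    have h2 := hs a (Finset.mem_insert_self a t)
    have e : (insert a t).lcm id = Nat.lcm a (t.lcm id) := by
      rw [Finset.lcm_insert]; rfl
    rw [e]
    refine ⟨Nat.lcm_ne_zero h2.1 h1.1, ?_⟩
    rw [Nat.factorization_lcm h2.1 h1.1, Finsupp.sup_apply]
    exact sup_le h2.2 h1.2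

/-- ROW H7b. A prime `ℓ ≤ L < ℓ²` divides `QQ L` exactly once: it does not divide by `ℓ²` any `k ≤ L`
(`Finset.lcm` of numbers with `v_ℓ ≤ 1` has `v_ℓ ≤ 1`: e.g. `Finset.lcm_dvd` applied to
the candidate `N = ℓ * (the lcm of the parts prime to ℓ)`, or induction over the set with `Nat.factorization_lcm`). -/
theorem QQ_val {L ℓ : ℕ} (hℓ : ℓ.Prime) (h1 : ℓ ≤ L) (h2 : L < ℓ ^ 2) : (QQ L).factorization ℓ = 1 := by
  have h0 := H7b_aux ℓ (Icc 1 L) (by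
    intro k hk
    rw [Finset.mem_Icc] at hk
    have hk0 : k ≠ 0 := by omega
    refine ⟨hk0, ?_⟩
    by_contra hcon
    have h3 : 2 ≤ k.factorization ℓ := by omega
    have h4 : ℓ ^ 2 ∣ k := (hℓ.pow_dvd_iff_le_factorization hk0).2 h3
    have h5 := Nat.le_of_dvd (Nat.pos_of_ne_zero hk0) h4
    omega)
  have h6 : ℓ ∣ (Icc 1 L).lcm id := Finset.dvd_lcm (f := id) (Finset.mem_Icc.2 ⟨hℓ.one_lt.le, h1⟩)
  have h7 : 1 ≤ ((Icc 1 L).lcm id).factorization ℓ :=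
    (hℓ.pow_dvd_iff_le_factorization h0.1).1 (by rw [pow_one]; exact h6)
  exact le_antisymm h0.2 h7

theorem H7c_dvd_fac (m : ℕ) : QQ m ∣ m.factorial := by
  unfold QQ
  refine Finset.lcm_dvd fun k hk => ?_
  rw [Finset.mem_Icc] at hk
  exact Nat.dvd_factorial hk.1 hk.2

theorem H7c_cop {p n m : ℕ} (hp : p.Prime) (h1 : 1 ≤ n) (h : n ≤ p) (hm : m = n - 1) :
    p.Coprime (QQ m) := by
  rw [Nat.Prime.coprime_iff_not_dvd hp]
  intro hd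
  have h2 := (Nat.Prime.dvd_factorial hp).1 (hd.trans (H7c_dvd_fac m))
  omega

theorem H7c_not {p N Q r : ℕ} (hp : p.Prime) (hN : 0 < N) (h : N = (p * r) * Q)
    (hv : N.factorization p = 1) : p.Coprime Q := by
  rw [Nat.Prime.coprime_iff_not_dvd hp]
  rintro ⟨s, rfl⟩
  have h2 : p ^ 2 ∣ N := ⟨r * s, by rw [h]; ring⟩
  have h3 := (hp.pow_dvd_iff_le_factorization hN.ne').1 h2
  omega

/-- ROW H7c. `Q' = QQ L / (ℓ ℓ')`. For `n ≤ ℓ` the denominator of `hs 1 n` divides `QQ (n-1)`, divides `QQ L`, and is not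
divisible by `ℓ` or `ℓ'` (it divides the product of the `k < n ≤ ℓ`), so it is coprime to `ℓ ℓ'` and divides
`Q'`. -/
theorem QQ_split {L ℓ ℓ' : ℕ} (hℓ : ℓ.Prime) (hℓ' : ℓ'.Prime) (h : ℓ < ℓ') (h1 : ℓ' ≤ L) (h2 : L < ℓ ^ 2) :
    ∃ Q' : ℕ, QQ L = (ℓ * ℓ') * Q' ∧ (ℓ * ℓ').Coprime Q' ∧ ∀ n : ℕ, 1 ≤ n → n ≤ ℓ → (hs 1 n).den ∣ Q' := by
  have hL := QQ_pos L
  have h3 : L < ℓ' ^ 2 := by nlinarith
  have v1 := QQ_val hℓ (by omega : ℓ ≤ L) h2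
  have v2 := QQ_val hℓ' h1 h3
  have d1 : ℓ ∣ QQ L := Finset.dvd_lcm (f := id) (Finset.mem_Icc.2 ⟨hℓ.one_le, by omega⟩)
  have d2 : ℓ' ∣ QQ L := Finset.dvd_lcm (f := id) (Finset.mem_Icc.2 ⟨hℓ'.one_le, h1⟩)
  have hc : ℓ.Coprime ℓ' := (Nat.coprime_primes hℓ hℓ').2 (by omega)
  obtain ⟨Q', hQ⟩ := Nat.Coprime.mul_dvd_of_dvd_of_dvd hc d1 d2
  refine ⟨Q', hQ, ?_, ?_⟩
  · exact Nat.Coprime.mul_left (H7c_not hℓ hL hQ v1)
      (H7c_not (r := ℓ) hℓ' hL (by rw [hQ]; ring) v2)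
  · intro n hn hn2
    have e1 : (hs 1 n).den ∣ QQ L := den_dvd_QQ le_rfl (by omega)
    have e2 : (hs 1 n).den ∣ QQ (n - 1) := den_dvd_QQ le_rfl (by omega)
    have e3 : (hs 1 n).den.Coprime (ℓ * ℓ') := by
      refine Nat.Coprime.coprime_dvd_left e2 (Nat.Coprime.mul_right ?_ ?_)
      · exact (H7c_cop hℓ hn hn2 rfl).symm
      · exact (H7c_cop hℓ' hn (by omega) rfl).symm
    rw [hQ] at e1
    exact e3.dvd_of_dvd_mul_left e1

end Pool.Agent.Lib.MP_de5eaa_nt.Poi
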