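import Pool.Agent.Lib.MP_de5eaa_nt.Poi.Defs
import Pool.Agent.Lib.MP_de5eaa_nt.Poi.F2
import Pool.Agent.Lib.MP_de5eaa_nt.Poi.G1
import Pool.Agent.Lib.MP_de5eaa_nt.Poi.H2
import Pool.Agent.Lib.MP_de5eaa_nt.Poi.H7

set_option autoImplicit false

namespace Pool.Agent.Lib.MP_de5eaa_nt.Poi

open Finset MeasureTheory Filter Topology
open Pool.Agent.Lib.MP_de5eaa_nt.Near (hs wq)

/-- the hits do not change when the point moves by an integer -/
theorem I2_hit {J : Set ℝ} {L t y z : ℝ} (b : ℤ) (h : z = y + b) : Hit J L t y → Hit J L t z := by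
  rintro ⟨a, ha⟩
  refine ⟨a + b, ?_⟩
  have e : L * (z - t - ((a + b : ℤ) : ℝ)) = L * (y - t - a) := by
    rw [h]; push_cast; ring
  rw [e]; exact ha

/-- if the denominator of `h` divides `Q'` and `u ≡ v` modulo `Q'` then `u h` and `v h` differ by an integer -/
theorem I2_int {u v Q' : ℕ} {h : ℚ} (hd : h.den ∣ Q') (huv : u ≡ v [MOD Q']) :
    ∃ b : ℤ, -((v : ℝ) * (h : ℝ)) = -((u : ℝ) * (h : ℝ)) + b := by
  obtain ⟨c, hc⟩ := (Nat.modEq_iff_dvd.mp (huv.of_dvd hd))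
  refine ⟨-(c * h.num), ?_⟩
  have hden : (h.den : ℝ) ≠ 0 := by exact_mod_cast h.den_nz
  have hq : (h : ℝ) = (h.num : ℝ) / (h.den : ℝ) := by
    exact_mod_cast (Rat.num_div_den h).symm
  have hc' : (v : ℝ) - (u : ℝ) = (h.den : ℝ) * (c : ℝ) := by exact_mod_cast hc
  have hv : (v : ℝ) = (u : ℝ) + (h.den : ℝ) * (c : ℝ) := by linarith
  rw [hv, hq]
  push_cast
  field_simp
  ring

/-- ROW I2. Let `N0 = L/M`, `p = P j`, `q = P' j`, `Q = QQ L`. `p < q ≤ (j+1) N0 + N0/M ≤ (j+2) N0 ≤ M N0 ≤ L` and `L < N0^2 < p^2`, so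
`QQ_split`: `Q = (p q) Q'`, coprime, the denominators of `hs 1 n'`, `n' ≤ p`, divide `Q'`. Let `n ∈ A j`: `q < n ≤ (j+2) N0 ≤ 2 (j+1) N0 <
2 p < 2 q`, so `den_prime` (with `[1, n)`): `p` and `q` divide the denominator of `hs 1 n` exactly once, so `p q ∣ den`;
the denominator divides `Q` (`den_dvd_QQ`). Apply `fib_mean` with `m = p q`, `w = lam / L`, `D = 4 K` (`units_arc`), `h = hs 1 n`
(`YY u n = -(u h)`). The hypothesis on `G`: if `u ≡ v [MOD Q']` then for `i < j` and `n' ∈ A i` (`n' ≤ (i+2) N0 ≤ (j+1) N0 < p`)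
`YY u n' - YY v n' = -(u - v) hs 1 n'` is an integer, so the hits agree. Result:
`|∑| φ(p q) ≤ φ(Q) 4 K`, and `φ(p q) = (p-1)(q-1) ≥ N0^2` (`p > (j+1) N0 ≥ N0`). -/
theorem lin_inst {L M : ℕ} {A : ℕ → Finset ℕ} {P P' : ℕ → ℕ} (hB : Blk L M A P P') (hM : 2 ≤ M) (hLM : L < (L / M) ^ 2)
    {J : Set ℝ} {lam K R : ℝ} (hJ : Nice J lam K R) (hL : 2 * R < L) {j : ℕ} (hj : j + 1 < M) {n : ℕ} (hn : n ∈ A j)
    (t : ℝ) (G : ℕ → ℝ) (hG0 : ∀ u, 0 ≤ G u) (hG1 : ∀ u, G u ≤ 1)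
    (hG : ∀ u v, (∀ i < j, ∀ n' ∈ A i, ∀ t' : ℝ, Hit J L t' (YY u n') ↔ Hit J L t' (YY v n')) → G u = G v) :
    |∑ u ∈ UU (QQ L), G u * (hI J L t (YY u n) - lam / L)| ≤
      ((QQ L).totient : ℝ) * (4 * K / (((L / M : ℕ) : ℝ)) ^ 2) := by
  have hj0 : j + 2 ≤ M := by omega
  have hp := hB.prime j hj
  have hq := hB.prime' j hj
  have h1 := hB.lt j hj
  have h2 := hB.lt' j hj
  have h3 := hB.le j hj
  have h4 := hB.eq j hj
  set N0 := L / M with hN0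
  have hN0pos : 0 < N0 := by
    rcases Nat.eq_zero_or_pos N0 with h | h
    · rw [h] at hLM; simp at hLM
    · exact h
  rw [h4, Finset.mem_Ioc] at hn
  obtain ⟨hn1, hn2⟩ := hn
  have hdiv : N0 / M ≤ N0 := Nat.div_le_self _ _
  have e1 : (j + 1) * N0 + N0 = (j + 2) * N0 := by ring
  have hML : M * N0 ≤ L := Nat.mul_div_le L M
  have hjM : (j + 2) * N0 ≤ M * N0 := Nat.mul_le_mul_right _ hj0
  have hqL : P' j ≤ L := by omega
  have hN0p : N0 < P j := by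
    have : 1 * N0 ≤ (j + 1) * N0 := Nat.mul_le_mul_right _ (by omega)
    omega
  have hLp : L < P j ^ 2 := lt_of_lt_of_le hLM (Nat.pow_le_pow_left hN0p.le 2)
  obtain ⟨Q', hQ, hcop, hQ'⟩ := QQ_split hp hq h2 hqL hLp
  have hn2p : n ≤ 2 * P j := by
    have : (j + 2) * N0 ≤ 2 * ((j + 1) * N0) := by
      have : (j + 2) * N0 ≤ (2 * (j + 1)) * N0 := Nat.mul_le_mul_right _ (by omega)
      calc (j + 2) * N0 ≤ (2 * (j + 1)) * N0 := this
        _ = 2 * ((j + 1) * N0) := by ring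
    omega
  have fp : (hs 1 n).den.factorization (P j) = 1 :=
    den_prime hp le_rfl hp.one_lt.le (by omega) hn2p
  have fq : (hs 1 n).den.factorization (P' j) = 1 :=
    den_prime hq le_rfl hq.one_lt.le hn1 (by omega)
  have dp : P j ∣ (hs 1 n).den := Nat.dvd_of_factorization_pos (by rw [fp]; exact one_ne_zero)
  have dq : P' j ∣ (hs 1 n).den := Nat.dvd_of_factorization_pos (by rw [fq]; exact one_ne_zero)
  have hcpq : (P j).Coprime (P' j) := (Nat.coprime_primes hp hq).mpr h2.ne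
  have dpq : P j * P' j ∣ (hs 1 n).den := hcpq.mul_dvd_of_dvd_of_dvd dp dq
  have dQ : (hs 1 n).den ∣ QQ L := den_dvd_QQ le_rfl (by omega)
  have hGmod : ∀ u v : ℕ, u ≡ v [MOD Q'] → G u = G v := by
    intro u v huv
    apply hG u v
    intro i hi n' hn' t'
    have h4' := hB.eq i (by omega)
    rw [h4', Finset.mem_Ioc, ← hN0] at hn'
    have hin : (i + 2) * N0 ≤ (j + 1) * N0 := Nat.mul_le_mul_right _ (by omega)
    have hd := hQ' n' (by omega) (by omega)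
    obtain ⟨b, hb⟩ := I2_int hd huv
    have hb' : YY v n' = YY u n' + b := by
      unfold YY; exact hb
    constructor
    · exact I2_hit b hb'
    · exact I2_hit (-b) (by rw [hb']; push_cast; ring)
  have main := fib_mean (Q := QQ L) (m := P j * P' j) (Q' := Q') (QQ_pos L) hQ hcop (h := hs 1 n) dQ dpq
    (J := J) (L := L) (t := t) (w := lam / L) (D := 4 * K)
    (fun c => units_arc hJ hL hp hq h2.ne t c) G hG0 hG1 hGmod
  have eS : ∑ u ∈ UU (QQ L), G u * (hI J L t (YY u n) - lam / L) =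
      ∑ u ∈ UU (QQ L), G u * (hI J L t (-((u : ℝ) * ((hs 1 n : ℚ) : ℝ))) - lam / L) := rfl
  rw [eS]
  set S := |∑ u ∈ UU (QQ L), G u * (hI J L t (-((u : ℝ) * ((hs 1 n : ℚ) : ℝ))) - lam / L)| with hS
  have htot : N0 ^ 2 ≤ (P j * P' j).totient := by
    rw [Nat.totient_mul hcpq, Nat.totient_prime hp, Nat.totient_prime hq, pow_two]
    exact Nat.mul_le_mul (by omega) (by omega)
  have htot' : ((N0 : ℝ)) ^ 2 ≤ ((P j * P' j).totient : ℝ) := by exact_mod_cast htot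
  have hN0r : (0 : ℝ) < (N0 : ℝ) ^ 2 := by positivity
  have hS0 : 0 ≤ S := abs_nonneg _
  have h5 : S * (N0 : ℝ) ^ 2 ≤ ((QQ L).totient : ℝ) * (4 * K) :=
    le_trans (mul_le_mul_of_nonneg_left htot' hS0) main
  have h6 : S ≤ ((QQ L).totient : ℝ) * (4 * K) / (N0 : ℝ) ^ 2 := by
    rw [le_div_iff₀ hN0r]; exact h5
  calc S ≤ ((QQ L).totient : ℝ) * (4 * K) / (N0 : ℝ) ^ 2 := h6
    _ = ((QQ L).totient : ℝ) * (4 * K / (N0 : ℝ) ^ 2) := by ring

end Pool.Agent.Lib.MP_de5eaa_nt.Poi
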