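import Pool.Agent.Lib.MP_de5eaa_nt.Poi.Defs
import Pool.Agent.Lib.MP_de5eaa_nt.Poi.M0
import Pool.Agent.Lib.MP_de5eaa_nt.Poi.H7

set_option autoImplicit false

namespace Pool.Agent.Lib.MP_de5eaa_nt.Poi

open Finset MeasureTheory Filter Topology
open Pool.Agent.Lib.MP_de5eaa_nt.Near (hs wq)

theorem I3_YY {n m : ℕ} (hn : 1 ≤ n) (hnm : n ≤ m) (u : ℕ) :
    YY u m - YY u n = -((u : ℝ) * ((hs n m : ℚ) : ℝ)) := by
  have h : hs 1 n + hs n m = hs 1 m := by
    unfold hs
    exact Finset.sum_Ico_consecutive _ hn hnm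
  unfold YY
  rw [← h]
  push_cast
  ring

theorem I3_sum {L n m : ℕ} (hn : 1 ≤ n) (hnm : n ≤ m) (R : ℝ) :
    ∑ u ∈ UU (QQ L), hI (Set.Icc (-(2 * R)) (2 * R)) L 0 (YY u m - YY u n) =
      ((QQ L).totient : ℝ) * pp R L n m := by
  have hφ : ((QQ L).totient : ℝ) ≠ 0 := by
    have := Nat.totient_pos.2 (QQ_pos L)
    exact_mod_cast this.ne'
  unfold pp
  rw [mul_div_cancel₀ _ hφ]
  refine Finset.sum_congr rfl fun u _ => ?_
  rw [I3_YY hn hnm u, hI_neg]

theorem I3_pp_nonneg (R : ℝ) (L n m : ℕ) : 0 ≤ pp R L n m := by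
  unfold pp
  exact div_nonneg (Finset.sum_nonneg fun u _ => hI_nonneg _ _ _ _) (Nat.cast_nonneg _)

theorem I3_mem {L M : ℕ} {A : ℕ → Finset ℕ} {P P' : ℕ → ℕ} (hB : Blk L M A P P') {j n : ℕ}
    (hj : j + 1 < M) (hn : n ∈ A j) :
    (j + 1) * (L / M) < n ∧ n ≤ (j + 2) * (L / M) := by
  have h1 := hB.lt j hj
  have h2 := hB.lt' j hj
  rw [hB.eq j hj, Finset.mem_Ioc] at hn
  exact ⟨by omega, hn.2⟩

/-- ROW I3. For `n < m` in `A j` (`1 ≤ n`): `YY u m - YY u n = -(u * hs n m)` (`hs 1 m = hs 1 n + hs n m`,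
`Finset.sum_Ico_consecutive`), so by `hI_neg` the sum over `u` is `φ(QQ L) * pp R L n m` (`φ ≠ 0`: `QQ_pos`). And
`N0 = L/M ≤ (j+1) N0 < P' j < n < m ≤ (j+2) N0 ≤ min (n + N0) L`. The blocks are disjoint, so the pairs `(n, m)` are distinct: the
sum over `j` and `n ∈ A j` is the sum over `n` in the union, a subset of `Icc (L/M) L`; the terms `pp` are
nonnegative (`Finset.sum_biUnion`, `Finset.sum_le_sum_of_subset_of_nonneg`). -/
theorem pair_inst {L M : ℕ} {A : ℕ → Finset ℕ} {P P' : ℕ → ℕ} (hB : Blk L M A P P') (hM : 2 ≤ M) (R : ℝ) :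
    ∑ j ∈ range (M - 1), ∑ n ∈ A j, ∑ m ∈ (A j).filter (n < ·), ∑ u ∈ UU (QQ L),
      hI (Set.Icc (-(2 * R)) (2 * R)) L 0 (YY u m - YY u n) ≤
    ((QQ L).totient : ℝ) * ∑ n ∈ Icc (L / M) L, ∑ m ∈ Ioc n (min (n + L / M) L), pp R L n m := by
  have hM0 : 0 < M := by omega
  have hterm : ∀ j ∈ range (M - 1), ∀ n ∈ A j,
      ∑ m ∈ (A j).filter (n < ·), ∑ u ∈ UU (QQ L),
        hI (Set.Icc (-(2 * R)) (2 * R)) L 0 (YY u m - YY u n) ≤
      ((QQ L).totient : ℝ) * ∑ m ∈ Ioc n (min (n + L / M) L), pp R L n m := by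
    intro j hj n hn
    have hj' : j + 1 < M := by
      have := Finset.mem_range.1 hj
      omega
    have hn' := I3_mem hB hj' hn
    have hn1 : 1 ≤ n := by
      have : 0 ≤ (j + 1) * (L / M) := Nat.zero_le _
      omega
    have hML : M * (L / M) ≤ L := Nat.mul_div_le L M
    have hjM : (j + 2) * (L / M) ≤ M * (L / M) := Nat.mul_le_mul_right _ (by omega)
    have hj1 : (j + 2) * (L / M) = (j + 1) * (L / M) + L / M := by ring
    have e : ∀ m ∈ (A j).filter (n < ·), ∑ u ∈ UU (QQ L),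
        hI (Set.Icc (-(2 * R)) (2 * R)) L 0 (YY u m - YY u n) =
        ((QQ L).totient : ℝ) * pp R L n m := by
      intro m hm
      exact I3_sum hn1 (Finset.mem_filter.1 hm).2.le R
    rw [Finset.sum_congr rfl e, ← Finset.mul_sum]
    refine mul_le_mul_of_nonneg_left ?_ (Nat.cast_nonneg _)
    refine Finset.sum_le_sum_of_subset_of_nonneg ?_ fun m _ _ => I3_pp_nonneg R L n m
    intro m hm
    obtain ⟨hm1, hm2⟩ := Finset.mem_filter.1 hm
    have hm' := I3_mem hB hj' hm1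
    rw [Finset.mem_Ioc, le_min_iff]
    refine ⟨hm2, ?_, ?_⟩ <;> omega
  have hdis : ∀ i ∈ range (M - 1), ∀ j ∈ range (M - 1), i ≠ j → Disjoint (A i) (A j) := by
    have key : ∀ i j : ℕ, i + 1 < M → j + 1 < M → i < j → Disjoint (A i) (A j) := by
      intro i j hi hj hij
      rw [Finset.disjoint_left]
      intro n h1 h2
      have h3 := (I3_mem hB hi h1).2
      have h4 := (I3_mem hB hj h2).1
      have h5 : (i + 2) * (L / M) ≤ (j + 1) * (L / M) := Nat.mul_le_mul_right _ (by omega)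
      omega
    intro i hi j hj hij
    have hi' := Finset.mem_range.1 hi
    have hj' := Finset.mem_range.1 hj
    rcases lt_or_gt_of_ne hij with h | h
    · exact key i j (by omega) (by omega) h
    · exact (key j i (by omega) (by omega) h).symm
  calc ∑ j ∈ range (M - 1), ∑ n ∈ A j, ∑ m ∈ (A j).filter (n < ·), ∑ u ∈ UU (QQ L),
        hI (Set.Icc (-(2 * R)) (2 * R)) L 0 (YY u m - YY u n)
      ≤ ∑ j ∈ range (M - 1), ∑ n ∈ A j,
          ((QQ L).totient : ℝ) * ∑ m ∈ Ioc n (min (n + L / M) L), pp R L n m :=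
        Finset.sum_le_sum fun j hj => Finset.sum_le_sum fun n hn => hterm j hj n hn
    _ = ∑ n ∈ (range (M - 1)).biUnion A,
          ((QQ L).totient : ℝ) * ∑ m ∈ Ioc n (min (n + L / M) L), pp R L n m := by
        rw [Finset.sum_biUnion]
        intro i hi j hj hij
        exact hdis i hi j hj hij
    _ ≤ ∑ n ∈ Icc (L / M) L,
          ((QQ L).totient : ℝ) * ∑ m ∈ Ioc n (min (n + L / M) L), pp R L n m := by
        refine Finset.sum_le_sum_of_subset_of_nonneg ?_ fun n _ _ =>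
          mul_nonneg (Nat.cast_nonneg _) (Finset.sum_nonneg fun m _ => I3_pp_nonneg R L n m)
        intro n hn
        obtain ⟨j, hj, hnj⟩ := Finset.mem_biUnion.1 hn
        have hj' : j + 1 < M := by
          have := Finset.mem_range.1 hj
          omega
        have hn' := I3_mem hB hj' hnj
        have hML : M * (L / M) ≤ L := Nat.mul_div_le L M
        have hjM : (j + 2) * (L / M) ≤ M * (L / M) := Nat.mul_le_mul_right _ (by omega)
        have hj1 : 1 * (L / M) ≤ (j + 1) * (L / M) := Nat.mul_le_mul_right _ (by omega)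
        rw [Finset.mem_Icc]
        constructor <;> omega
    _ = ((QQ L).totient : ℝ) *
          ∑ n ∈ Icc (L / M) L, ∑ m ∈ Ioc n (min (n + L / M) L), pp R L n m := by
        rw [Finset.mul_sum]

end Pool.Agent.Lib.MP_de5eaa_nt.Poi
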