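import Pool.Agent.Lib.MP_de5eaa_nt.Poi.Defs

set_option autoImplicit false

namespace Pool.Agent.Lib.MP_de5eaa_nt.Poi

open Finset MeasureTheory Filter Topology
open Pool.Agent.Lib.MP_de5eaa_nt.Near (hs wq)

/-- `A j ⊆ ((j+1) N0, (j+2) N0]` -/
theorem I4_mem {L M : ℕ} {A : ℕ → Finset ℕ} {P P' : ℕ → ℕ} (hB : Blk L M A P P') {j x : ℕ} (hj : j + 1 < M)
    (hx : x ∈ A j) : (j + 1) * (L / M) < x ∧ x ≤ (j + 2) * (L / M) := by
  rw [hB.eq j hj, mem_Ioc] at hx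
  have h1 := hB.lt j hj
  have h2 := hB.lt' j hj
  exact ⟨by omega, hx.2⟩

/-- two blocks `i < j` have no common element -/
theorem I4_lt {L M : ℕ} {A : ℕ → Finset ℕ} {P P' : ℕ → ℕ} (hB : Blk L M A P P') {i j : ℕ} (hj : j + 1 < M)
    (hij : i < j) : Disjoint (A i) (A j) := by
  rw [Finset.disjoint_left]
  intro x hx hx'
  have h1 := I4_mem hB (by omega : i + 1 < M) hx
  have h2 := I4_mem hB hj hx'
  have h3 : (i + 2) * (L / M) ≤ (j + 1) * (L / M) := Nat.mul_le_mul_right _ (by omega)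
  omega

/-- ROW I4. With `N0 = L / M` (natural division): `A j = (P' j, (j+2) N0]`, `(j+1) N0 < P' j ≤ (j+1) N0 + N0/M`, so
`N0 - N0/M ≤ |A j| ≤ N0`, the blocks are pairwise disjoint (`A j ⊆ ((j+1) N0, (j+2) N0]`) and contained in `(0, M N0] ⊆ [1, L]`.
Numerics for `M^2 ≤ L`: `L/M - 1 ≤ N0 ≤ L/M` (real), `|A j| ≥ N0 (1 - 1/M) ≥ (L/M - 1)(1 - 1/M) ≥ L/M - L/M^2 - 1 ≥ L/M - 2 L/M^2`. -/
theorem blk_disj {L M : ℕ} {A : ℕ → Finset ℕ} {P P' : ℕ → ℕ} (hB : Blk L M A P P') :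
    ∀ i < M - 1, ∀ j < M - 1, i ≠ j → Disjoint (A i) (A j) := by
  intro i hi j hj hij
  rcases Nat.lt_or_gt_of_ne hij with h | h
  · exact I4_lt hB (by omega) h
  · exact (I4_lt hB (by omega) h).symm

theorem blk_sub {L M : ℕ} {A : ℕ → Finset ℕ} {P P' : ℕ → ℕ} (hB : Blk L M A P P') (hM : 2 ≤ M) :
    (range (M - 1)).biUnion A ⊆ Icc 1 L := by
  intro x hx
  rw [mem_biUnion] at hx
  obtain ⟨j, hj, hx⟩ := hx
  rw [mem_range] at hj
  have h1 := I4_mem hB (by omega : j + 1 < M) hx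
  have h2 : (j + 2) * (L / M) ≤ M * (L / M) := Nat.mul_le_mul_right _ (by omega)
  have h3 : M * (L / M) ≤ L := Nat.mul_div_le L M
  rw [mem_Icc]
  omega

/-- the number of the elements of `A j` -/
theorem I4_card {L M : ℕ} {A : ℕ → Finset ℕ} {P P' : ℕ → ℕ} (hB : Blk L M A P P') {j : ℕ} (hj : j + 1 < M) :
    (A j).card = (j + 2) * (L / M) - P' j := by
  rw [hB.eq j hj, Nat.card_Ioc]

theorem blk_card_le {L M : ℕ} {A : ℕ → Finset ℕ} {P P' : ℕ → ℕ} (hB : Blk L M A P P') {j : ℕ} (hj : j + 1 < M) :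
    ((A j).card : ℝ) ≤ (L : ℝ) / M := by
  have h1 := hB.lt j hj
  have h2 := hB.lt' j hj
  have h3 : (j + 2) * (L / M) = (j + 1) * (L / M) + L / M := by ring
  have h4 : (A j).card ≤ L / M := by
    rw [I4_card hB hj]
    generalize L / M = N at *
    omega
  calc ((A j).card : ℝ) ≤ ((L / M : ℕ) : ℝ) := by exact_mod_cast h4
    _ ≤ (L : ℝ) / M := Nat.cast_div_le

theorem blk_card_ge {L M : ℕ} {A : ℕ → Finset ℕ} {P P' : ℕ → ℕ} (hB : Blk L M A P P') (hM : 2 ≤ M) (hLM : M ^ 2 ≤ L)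
    {j : ℕ} (hj : j + 1 < M) : (L : ℝ) / M - 2 * L / (M : ℝ) ^ 2 ≤ ((A j).card : ℝ) := by
  have h1 := hB.le j hj
  have h3 : (j + 2) * (L / M) = (j + 1) * (L / M) + L / M := by ring
  have h4 : L / M ≤ (A j).card + (L / M) / M := by
    rw [I4_card hB hj]
    omega
  have h5 : ((L / M : ℕ) : ℝ) ≤ ((A j).card : ℝ) + (((L / M) / M : ℕ) : ℝ) := by exact_mod_cast h4
  have h6 : (((L / M) / M : ℕ) : ℝ) ≤ ((L / M : ℕ) : ℝ) / M := Nat.cast_div_le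
  have hM0 : (0 : ℝ) < M := by exact_mod_cast (by omega : 0 < M)
  have hM1 : (1 : ℝ) ≤ M := by exact_mod_cast (by omega : 1 ≤ M)
  have h7 : (L : ℝ) / M - 1 ≤ ((L / M : ℕ) : ℝ) := by
    have h8 : L < (L / M + 1) * M := by
      have := Nat.lt_div_mul_add (a := L) (b := M) (by omega)
      rw [add_mul, one_mul]
      exact this
    have h9 : (L : ℝ) < (((L / M : ℕ) : ℝ) + 1) * M := by exact_mod_cast h8
    rw [sub_le_iff_le_add, div_le_iff₀ hM0]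
    exact h9.le
  have hLM' : (M : ℝ) ^ 2 ≤ L := by exact_mod_cast hLM
  have h10 : (1 : ℝ) ≤ (L : ℝ) / (M : ℝ) ^ 2 := by
    rw [le_div_iff₀ (by positivity), one_mul]
    exact hLM'
  have h11 : (0 : ℝ) ≤ 1 - 1 / M := by
    rw [sub_nonneg, div_le_one hM0]
    exact hM1
  have h12 : ((L : ℝ) / M - 1) * (1 - 1 / M) ≤ ((L / M : ℕ) : ℝ) * (1 - 1 / M) :=
    mul_le_mul_of_nonneg_right h7 h11
  have h13 : ((L : ℝ) / M - 1) * (1 - 1 / M) = (L : ℝ) / M - L / (M : ℝ) ^ 2 - 1 + 1 / M := by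
    field_simp
    ring
  have h14 : ((L / M : ℕ) : ℝ) * (1 - 1 / M) = ((L / M : ℕ) : ℝ) - ((L / M : ℕ) : ℝ) / M := by
    rw [mul_sub, mul_one, mul_one_div]
  have h15 : (0 : ℝ) ≤ 1 / (M : ℝ) := by positivity
  have h16 : 2 * (L : ℝ) / (M : ℝ) ^ 2 = L / (M : ℝ) ^ 2 + L / (M : ℝ) ^ 2 := by ring
  rw [h16]
  linarith

/-- Sum over `j` (`M - 1` blocks, disjoint): `|⋃ A j| = ∑ |A j| ≥ (M-1)(L/M - 2L/M^2) ≥ L - 3 L/M`. -/
theorem blk_card_union {L M : ℕ} {A : ℕ → Finset ℕ} {P P' : ℕ → ℕ} (hB : Blk L M A P P') (hM : 2 ≤ M)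
    (hLM : M ^ 2 ≤ L) : (L : ℝ) - 3 * L / M ≤ (((range (M - 1)).biUnion A).card : ℝ) := by
  rw [Finset.card_biUnion (fun i hi j hj hij =>
    blk_disj hB i (mem_range.mp hi) j (mem_range.mp hj) hij), Nat.cast_sum]
  have h1 : ∑ _j ∈ range (M - 1), ((L : ℝ) / M - 2 * L / (M : ℝ) ^ 2) ≤
      ∑ j ∈ range (M - 1), ((A j).card : ℝ) := by
    refine Finset.sum_le_sum fun j hj => ?_
    rw [mem_range] at hj
    exact blk_card_ge hB hM hLM (by omega)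
  refine le_trans ?_ h1
  rw [Finset.sum_const, card_range, nsmul_eq_mul, Nat.cast_sub (by omega : 1 ≤ M), Nat.cast_one]
  have hM0 : (0 : ℝ) < M := by exact_mod_cast (by omega : 0 < M)
  have h2 : ((M : ℝ) - 1) * ((L : ℝ) / M - 2 * L / (M : ℝ) ^ 2) =
      (L : ℝ) - 3 * L / M + 2 * L / (M : ℝ) ^ 2 := by
    field_simp
    ring
  rw [h2]
  have h3 : (0 : ℝ) ≤ 2 * L / (M : ℝ) ^ 2 := by positivity
  linarith

end Pool.Agent.Lib.MP_de5eaa_nt.Poi
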