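import Pool.Agent.Lib.MP_de5eaa_nt.Poi.Defs

set_option autoImplicit false

namespace Pool.Agent.Lib.MP_de5eaa_nt.Poi

open Finset MeasureTheory Filter Topology
open Pool.Agent.Lib.MP_de5eaa_nt.Near (hs wq)

/-- ROW N1a. An interval `[a,b]` satisfies `Nice`: measurable, volume `b - a`. GRID: for `h > 0` the integers `m` with
`a ≤ c + m h ≤ b` are `Finset.Icc ⌈(a-c)/h⌉ ⌊(b-c)/h⌋`, whose cardinality is `max 0 (⌊(b-c)/h⌋ + 1 - ⌈(a-c)/h⌉)`, and this
is in `[(b-a)/h - 1, (b-a)/h + 1]` (use `Int.floor_le`, `Int.lt_floor_add_one`, `Int.le_ceil`, `Int.ceil_lt_add_one`,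
`Int.card_Icc`, `Set.ncard_coe_finset`). PERT: for `δ ≥ 0` a point `s` with `¬ (s ∈ [a,b] ↔ s + δ ∈ [a,b])` is in
`[a - δ, a] ∪ [b - δ, b]`, for `δ < 0` in `[a, a - δ] ∪ [b, b - δ]`; both have volume `≤ 2|δ|`. -/
theorem nice_Icc {a b R : ℝ} (hab : a ≤ b) (ha : -R ≤ a) (hb : b ≤ R) : Nice (Set.Icc a b) (b - a) 1 R := by
  refine ⟨measurableSet_Icc, sub_nonneg.2 hab, zero_le_one, by linarith, Set.Icc_subset_Icc ha hb,
    Real.volume_Icc, ?_, ?_⟩
  · intro h hh c
    have hset : {m : ℤ | c + m * h ∈ Set.Icc a b} = ↑(Finset.Icc ⌈(a - c) / h⌉ ⌊(b - c) / h⌋) := by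
      ext m
      simp only [Set.mem_ofPred_eq, Set.mem_Icc, Finset.coe_Icc, Int.ceil_le, Int.le_floor, div_le_iff₀ hh,
        le_div_iff₀ hh]
      constructor
      · rintro ⟨h1, h2⟩
        constructor <;> linarith
      · rintro ⟨h1, h2⟩
        constructor <;> linarith
    rw [hset]
    refine ⟨Finset.finite_toSet _, ?_⟩
    rw [Set.ncard_coe_finset, Int.card_Icc]
    have h1 := Int.floor_le ((b - c) / h)
    have h2 := Int.lt_floor_add_one ((b - c) / h)
    have h3 := Int.le_ceil ((a - c) / h)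
    have h4 := Int.ceil_lt_add_one ((a - c) / h)
    have h5 : (b - a) / h = (b - c) / h - (a - c) / h := by
      rw [← sub_div]
      congr 1
      ring
    have h6 : 0 ≤ (b - a) / h := div_nonneg (sub_nonneg.2 hab) hh.le
    have h7 : (0 : ℤ) ≤ ⌊(b - c) / h⌋ + 1 - ⌈(a - c) / h⌉ := by
      have h8 : (-1 : ℝ) < ((⌊(b - c) / h⌋ + 1 - ⌈(a - c) / h⌉ : ℤ) : ℝ) := by
        push_cast
        linarith
      have h9 : (-1 : ℤ) < ⌊(b - c) / h⌋ + 1 - ⌈(a - c) / h⌉ := by exact_mod_cast h8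
      omega
    have h8 : (((⌊(b - c) / h⌋ + 1 - ⌈(a - c) / h⌉).toNat : ℕ) : ℝ) =
        (⌊(b - c) / h⌋ : ℝ) + 1 - (⌈(a - c) / h⌉ : ℝ) := by
      have h9 : (((⌊(b - c) / h⌋ + 1 - ⌈(a - c) / h⌉).toNat : ℤ)) = ⌊(b - c) / h⌋ + 1 - ⌈(a - c) / h⌉ :=
        Int.toNat_of_nonneg h7
      have h10 : (((⌊(b - c) / h⌋ + 1 - ⌈(a - c) / h⌉).toNat : ℤ) : ℝ) =
          ((⌊(b - c) / h⌋ + 1 - ⌈(a - c) / h⌉ : ℤ) : ℝ) := by rw [h9]
      push_cast at h10
      exact_mod_cast h10
    rw [h8, abs_le]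
    constructor <;> linarith
  · intro δ
    have key : ∀ u v w x : ℝ, v - u = |δ| → x - w = |δ| →
        {s | ¬ (s ∈ Set.Icc a b ↔ s + δ ∈ Set.Icc a b)} ⊆ Set.Icc u v ∪ Set.Icc w x →
        volume {s | ¬ (s ∈ Set.Icc a b ↔ s + δ ∈ Set.Icc a b)} ≤ ENNReal.ofReal (2 * 1 * |δ|) := by
      intro u v w x h1 h2 h3
      refine (measure_mono h3).trans ((measure_union_le _ _).trans ?_)
      rw [Real.volume_Icc, Real.volume_Icc, h1, h2, ← ENNReal.ofReal_add (abs_nonneg δ) (abs_nonneg δ)]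
      refine le_of_eq ?_
      congr 1
      ring
    rcases le_or_gt 0 δ with hδ | hδ
    · refine key (a - δ) a (b - δ) b (by rw [abs_of_nonneg hδ]; ring) (by rw [abs_of_nonneg hδ]; ring) ?_
      intro s hs
      simp only [Set.mem_ofPred_eq, Set.mem_Icc] at hs
      simp only [Set.mem_union, Set.mem_Icc]
      by_cases h1 : a ≤ s ∧ s ≤ b
      · right
        have h2 : ¬ (a ≤ s + δ ∧ s + δ ≤ b) := fun h => hs ⟨fun _ => h, fun _ => h1⟩
        have h3 : b < s + δ := by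
          by_contra h
          exact h2 ⟨by linarith [h1.1], not_lt.1 h⟩
        exact ⟨by linarith, h1.2⟩
      · left
        have h2 : a ≤ s + δ ∧ s + δ ≤ b := by
          by_contra h
          exact hs ⟨fun h' => absurd h' h1, fun h' => absurd h' h⟩
        have h3 : s < a := by
          by_contra h
          exact h1 ⟨not_lt.1 h, by linarith [h2.2]⟩
        exact ⟨by linarith [h2.1], h3.le⟩
    · refine key a (a - δ) b (b - δ) (by rw [abs_of_neg hδ]; ring) (by rw [abs_of_neg hδ]; ring) ?_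
      intro s hs
      simp only [Set.mem_ofPred_eq, Set.mem_Icc] at hs
      simp only [Set.mem_union, Set.mem_Icc]
      by_cases h1 : a ≤ s ∧ s ≤ b
      · left
        have h2 : ¬ (a ≤ s + δ ∧ s + δ ≤ b) := fun h => hs ⟨fun _ => h, fun _ => h1⟩
        have h3 : s + δ < a := by
          by_contra h
          exact h2 ⟨not_lt.1 h, by linarith [h1.2]⟩
        exact ⟨h1.1, by linarith⟩
      · right
        have h2 : a ≤ s + δ ∧ s + δ ≤ b := by
          by_contra h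
          exact hs ⟨fun h' => absurd h' h1, fun h' => absurd h' h⟩
        have h3 : b < s := by
          by_contra h
          exact h1 ⟨by linarith [h2.1], not_lt.1 h⟩
        exact ⟨h3.le, by linarith [h2.2]⟩

end Pool.Agent.Lib.MP_de5eaa_nt.Poi
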