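import Pool.Agent.Lib.MP_de5eaa_nt.Poi.Defs
import Pool.Agent.Lib.MP_de5eaa_nt.Poi.N1a
import Pool.Agent.Lib.MP_de5eaa_nt.Poi.G1
import Pool.Agent.Lib.MP_de5eaa_nt.Poi.F2
import Pool.Agent.Lib.MP_de5eaa_nt.Poi.H7

set_option autoImplicit false

namespace Pool.Agent.Lib.MP_de5eaa_nt.Poi

open Finset MeasureTheory Filter Topology
open Pool.Agent.Lib.MP_de5eaa_nt.Near (hs wq)

/-- ROW H6 (the bound by a part of the denominator). `fib_le` with `Q = QQ L`, `h = hs n m` (its denominator divides `QQ L`,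
`den_dvd_QQ`), `t = 0`, and `arc_le` for the interval `[-2R, 2R]` (`nice_Icc` with the bound `2R`, length `4R`, error `1`;
`2 (2R) < L`): `D = 4 R b / L + 1`. Divide by `φ(QQ L) > 0`. -/
theorem pp_le {R : ℝ} (hR : 0 ≤ R) {L n m b : ℕ} (hL : 4 * R < L) (hn : 1 ≤ n) (hm : m ≤ L + 1)
    (hb : b ∣ (hs n m).den) (hc : b.Coprime ((hs n m).den / b)) :
    pp R L n m * (b.totient : ℝ) ≤ 4 * R * b / L + 1 := by
  have hb0 : 0 < b := Nat.pos_of_dvd_of_pos hb (hs n m).den_pos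
  have hN : Nice (Set.Icc (-(2 * R)) (2 * R)) (2 * R - -(2 * R)) 1 (2 * R) :=
    nice_Icc (by linarith) le_rfl le_rfl
  have hA : ∀ c : ℝ, ∑ r ∈ UU b, hI (Set.Icc (-(2 * R)) (2 * R)) (L : ℝ) 0 (c + (r : ℝ) / b)
      ≤ 4 * R * b / L + 1 := by
    intro c
    have h := arc_le hN (L := (L : ℝ)) (by linarith) hb0 0 c
    have e : (2 * R - -(2 * R)) * (b : ℝ) / L + 1 = 4 * R * b / L + 1 := by ring
    linarith
  have hF := fib_le (QQ_pos L) (den_dvd_QQ hn hm) hb hc hA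
  have hφ : (0 : ℝ) < ((QQ L).totient : ℝ) := by
    exact_mod_cast Nat.totient_pos.2 (QQ_pos L)
  unfold pp
  rw [div_mul_eq_mul_div, div_le_iff₀ hφ]
  linarith

theorem pp_nonneg (R : ℝ) (L n m : ℕ) : 0 ≤ pp R L n m := by
  unfold pp
  refine div_nonneg (Finset.sum_nonneg fun u _ => ?_) (Nat.cast_nonneg _)
  unfold hI
  split_ifs
  · exact zero_le_one
  · exact le_rfl

end Pool.Agent.Lib.MP_de5eaa_nt.Poi
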