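import Pool.Agent.Lib.MP_de5eaa_nt.Poi.Defs

set_option autoImplicit false

namespace Pool.Agent.Lib.MP_de5eaa_nt.Poi

open Finset MeasureTheory Filter Topology
open Pool.Agent.Lib.MP_de5eaa_nt.Near (hs wq)

theorem K1a_prod (S : Finset ℕ) (hS : ∀ s ∈ S, 2 ≤ s) :
    ∏ s ∈ S, s ≤ (S.card + 1) * ∏ s ∈ S, (s - 1) := by
  classical
  revert hS
  induction S using Finset.induction_on_max with
  | empty => intro _; simp
  | insert a S ha ih =>
    intro hS
    have haS : a ∉ S := fun h => lt_irrefl _ (ha a h)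
    have ih' := ih (fun s hs => hS s (Finset.mem_insert_of_mem hs))
    have hcard : S.card ≤ a - 2 := by
      have hsub : S ⊆ Finset.Ico 2 a := by
        intro s hs
        exact Finset.mem_Ico.mpr ⟨hS s (Finset.mem_insert_of_mem hs), ha s hs⟩
      simpa using Finset.card_le_card hsub
    have ha2 : 2 ≤ a := hS a (Finset.mem_insert_self _ _)
    rw [Finset.prod_insert haS, Finset.prod_insert haS, Finset.card_insert_of_notMem haS]
    obtain ⟨c, hc⟩ : ∃ c, a = c + 1 := ⟨a - 1, by omega⟩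
    have hcS : S.card + 1 ≤ c := by omega
    subst hc
    have h1 : (c + 1) * (S.card + 1) ≤ (S.card + 1 + 1) * c := by nlinarith
    calc (c + 1) * ∏ s ∈ S, s ≤ (c + 1) * ((S.card + 1) * ∏ s ∈ S, (s - 1)) :=
          Nat.mul_le_mul_left _ ih'
      _ = ((c + 1) * (S.card + 1)) * ∏ s ∈ S, (s - 1) := by ring
      _ ≤ ((S.card + 1 + 1) * c) * ∏ s ∈ S, (s - 1) := Nat.mul_le_mul_right _ h1
      _ = (S.card + 1 + 1) * ((c + 1 - 1) * ∏ s ∈ S, (s - 1)) := by
          rw [Nat.add_sub_cancel]; ring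

/-- ROW K1. `B / φ(B) = ∏_{p ∣ B} p/(p-1) ≤ ∏_{i=1}^{ω} (i+1)/i = ω + 1` (the `i`-th prime divisor is at least `i + 1`) and
`2^ω ≤ B`. A proof by strong induction / `Nat.recOnPosPrimePosCoprime` or induction on the largest prime factor: if
`B = p^k B'` with `p` the largest prime divisor, `ω(B') = ω - 1`, then `p ≥ ω + 1` and `B/φ(B) ≤ ω * p/(p-1) ≤ ω (ω+1)/ω`. Or: for a
finite set `S` of numbers `≥ 2`, `∏_{s ∈ S} s ≤ (|S| + 1) ∏_{s ∈ S} (s - 1)` by induction on `S` with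
`Finset.induction_on_max` (`max S ≥ |S| + 1`). Then `Nat.totient_mul_prod_primeFactors`, and `2^ω ≤ B` gives
`ω ≤ Nat.log 2 B`. -/
theorem totient_ge (B : ℕ) (hB : 0 < B) : (B : ℝ) ≤ ((Nat.log 2 B : ℕ) + 1 : ℝ) * (B.totient : ℝ) := by
  have h2 : ∀ s ∈ B.primeFactors, 2 ≤ s := fun s hs => (Nat.prime_of_mem_primeFactors hs).two_le
  have hP := K1a_prod B.primeFactors h2
  have hpos : 0 < ∏ s ∈ B.primeFactors, (s - 1) :=
    Finset.prod_pos (fun s hs => by have := h2 s hs; omega)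
  have hT := Nat.totient_mul_prod_primeFactors B
  have h3 : B ≤ B.totient * (B.primeFactors.card + 1) := by
    refine Nat.le_of_mul_le_mul_right ?_ hpos
    calc B * ∏ s ∈ B.primeFactors, (s - 1) = B.totient * ∏ s ∈ B.primeFactors, s := hT.symm
      _ ≤ B.totient * ((B.primeFactors.card + 1) * ∏ s ∈ B.primeFactors, (s - 1)) :=
          Nat.mul_le_mul_left _ hP
      _ = B.totient * (B.primeFactors.card + 1) * ∏ s ∈ B.primeFactors, (s - 1) := by ring
  have h4 : 2 ^ B.primeFactors.card ≤ B := by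
    calc 2 ^ B.primeFactors.card = ∏ s ∈ B.primeFactors, 2 := by
          rw [Finset.prod_const]
      _ ≤ ∏ s ∈ B.primeFactors, s := Finset.prod_le_prod' h2
      _ ≤ B := Nat.le_of_dvd hB (Nat.prod_primeFactors_dvd B)
  have h5 : B.primeFactors.card ≤ Nat.log 2 B := Nat.le_log_of_pow_le (by norm_num) h4
  have h6 : B ≤ (Nat.log 2 B + 1) * B.totient := by
    calc B ≤ B.totient * (B.primeFactors.card + 1) := h3
      _ ≤ B.totient * (Nat.log 2 B + 1) := Nat.mul_le_mul_left _ (by omega)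
      _ = _ := by ring
  exact_mod_cast h6

/-- The harmonic sum is positive, so its numerator is at least `1`, and it has `m - n` terms, each at most `1/n`:
`1 / den ≤ hs n m ≤ (m - n) / n`. -/
theorem den_ge {n m : ℕ} (hn : 1 ≤ n) (hnm : n < m) : (n : ℝ) ≤ ((m - n : ℕ) : ℝ) * ((hs n m).den : ℝ) := by
  have hne : (Ico n m).Nonempty := nonempty_Ico.2 hnm
  have hpos : ∀ k ∈ Ico n m, (0 : ℚ) < 1 / (k : ℚ) := by
    intro k hk
    have h1 : 0 < k := lt_of_lt_of_le hn (mem_Ico.1 hk).1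
    have h2 : (0 : ℚ) < (k : ℚ) := by exact_mod_cast h1
    positivity
  have hs0 : 0 < hs n m := Finset.sum_pos hpos hne
  have hn0 : (0 : ℚ) < (n : ℚ) := by exact_mod_cast hn
  have hup : hs n m ≤ ((m - n : ℕ) : ℚ) * (1 / (n : ℚ)) := by
    have h1 : hs n m ≤ ∑ _k ∈ Ico n m, (1 / (n : ℚ)) := by
      refine Finset.sum_le_sum fun k hk => ?_
      have h2 : (n : ℚ) ≤ (k : ℚ) := by exact_mod_cast (mem_Ico.1 hk).1
      exact one_div_le_one_div_of_le hn0 h2
    rwa [Finset.sum_const, Nat.card_Ico, nsmul_eq_mul] at h1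
  have hnum : 1 ≤ (hs n m).num := Rat.num_pos.2 hs0
  have hden0 : (0 : ℚ) < ((hs n m).den : ℚ) := by exact_mod_cast (hs n m).den_pos
  have hlow : 1 ≤ hs n m * ((hs n m).den : ℚ) := by
    rw [Rat.mul_den_eq_num]
    exact_mod_cast hnum
  have hq : (n : ℚ) ≤ ((m - n : ℕ) : ℚ) * ((hs n m).den : ℚ) := by
    have h3 : hs n m * ((hs n m).den : ℚ) ≤ ((m - n : ℕ) : ℚ) * (1 / (n : ℚ)) * ((hs n m).den : ℚ) :=
      mul_le_mul_of_nonneg_right hup hden0.le
    have h4 : (1 : ℚ) ≤ ((m - n : ℕ) : ℚ) * (1 / (n : ℚ)) * ((hs n m).den : ℚ) := hlow.trans h3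
    have h5 := mul_le_mul_of_nonneg_left h4 hn0.le
    rw [mul_one] at h5
    calc (n : ℚ) ≤ (n : ℚ) * (((m - n : ℕ) : ℚ) * (1 / (n : ℚ)) * ((hs n m).den : ℚ)) := h5
      _ = ((m - n : ℕ) : ℚ) * ((hs n m).den : ℚ) := by
        field_simp
  exact_mod_cast hq

/-- The denominator divides the product of the `k ∈ [n, m)`, each at most `L`. -/
theorem den_le {n m L : ℕ} (hn : 1 ≤ n) (hm : m ≤ L + 1) : (hs n m).den ≤ L ^ (m - n) := by
  rcases le_or_gt m n with h | h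
  · have h1 : hs n m = 0 := by
      rw [hs, Ico_eq_empty (not_lt.2 h), sum_empty]
    rw [h1, Nat.sub_eq_zero_of_le h, pow_zero]
    exact le_of_eq Rat.den_zero
  · have hL : 0 < L := by omega
    have hP0 : 0 < ∏ k ∈ Ico n m, k :=
      Finset.prod_pos fun k hk => lt_of_lt_of_le hn (mem_Ico.1 hk).1
    have hPle : ∏ k ∈ Ico n m, k ≤ L ^ (m - n) := by
      have h2 : ∏ k ∈ Ico n m, k ≤ ∏ _k ∈ Ico n m, L := by
        refine Finset.prod_le_prod' fun k hk => ?_
        have := (mem_Ico.1 hk).2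
        omega
      rwa [Finset.prod_const, Nat.card_Ico] at h2
    refine (Nat.le_of_dvd hP0 ?_).trans hPle
    have h3 : hs n m = ((∑ k ∈ Ico n m, ((∏ l ∈ (Ico n m).erase k, l : ℕ) : ℤ) : ℤ) : ℚ) /
        (((∏ k ∈ Ico n m, k : ℕ) : ℤ) : ℚ) := by
      have hPq : ((∏ k ∈ Ico n m, k : ℕ) : ℚ) ≠ 0 := by exact_mod_cast hP0.ne'
      rw [hs, Int.cast_sum, Finset.sum_div]
      refine Finset.sum_congr rfl fun k hk => ?_
      have hk0 : (k : ℚ) ≠ 0 := by
        have h4 : 0 < k := lt_of_lt_of_le hn (mem_Ico.1 hk).1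
        exact_mod_cast h4.ne'
      rw [Int.cast_natCast, Int.cast_natCast, div_eq_div_iff hk0 hPq, one_mul,
        ← Finset.mul_prod_erase (Ico n m) (fun l => l) hk, Nat.cast_mul, mul_comm]
    have h5 := Rat.den_dvd (∑ k ∈ Ico n m, ((∏ l ∈ (Ico n m).erase k, l : ℕ) : ℤ))
      ((∏ k ∈ Ico n m, k : ℕ) : ℤ)
    rw [Rat.divInt_eq_div, ← h3] at h5
    exact_mod_cast h5

end Pool.Agent.Lib.MP_de5eaa_nt.Poi
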