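import Pool.Agent.Lib.MP_de5eaa_nt.Poi.Defs
import Pool.Agent.Lib.MP_de5eaa_nt.Poi.K1
import Pool.Agent.Lib.MP_de5eaa_nt.Poi.H6

set_option autoImplicit false

namespace Pool.Agent.Lib.MP_de5eaa_nt.Poi

open Finset MeasureTheory Filter Topology
open Pool.Agent.Lib.MP_de5eaa_nt.Near (hs wq)

/-- ROW K2. `pp_le` with `b = B = (hs n m).den` (`B / B = 1`): `pp * φ(B) ≤ 4 R B / L + 1`. With `T = Nat.log 2 B + 1`:
`B ≤ T φ(B)` (`totient_ge`) and `1 ≤ (h/n) B` (`den_ge`, `h = m - n`), so `pp * φ(B) ≤ 4R/L * T φ(B) + (h/n) T φ(B)`; divide by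
`φ(B) > 0`. Finally `B ≤ L^h < 2^{h (log2 L + 1)}` gives `T ≤ h (Nat.log 2 L + 1) + 1`. -/
theorem pp_expl {R : ℝ} (hR : 0 ≤ R) {L n m : ℕ} (hL : 4 * R < L) (hn : 1 ≤ n) (hnm : n < m) (hm : m ≤ L) :
    pp R L n m ≤ (((m - n : ℕ) : ℝ) * ((Nat.log 2 L : ℕ) + 1) + 1) * (4 * R / L + ((m - n : ℕ) : ℝ) / n) := by
  have hB : 0 < (hs n m).den := (hs n m).pos
  have hL0 : (0 : ℝ) < L := lt_of_le_of_lt (mul_nonneg (by norm_num) hR) hL
  have hn0 : (0 : ℝ) < n := by exact_mod_cast hn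
  have h1 := pp_le (b := (hs n m).den) hR hL hn (hm.trans (Nat.le_succ L)) dvd_rfl (by
    rw [Nat.div_self hB]
    exact Nat.coprime_one_right _)
  have h2 := totient_ge (hs n m).den hB
  have h3 := den_ge hn hnm
  have h4 := den_le (L := L) hn (hm.trans (Nat.le_succ L))
  have hφ : (0 : ℝ) < ((hs n m).den.totient : ℝ) := by
    exact_mod_cast Nat.totient_pos.2 hB
  have hh0 : (0 : ℝ) ≤ ((m - n : ℕ) : ℝ) / n := div_nonneg (Nat.cast_nonneg _) hn0.le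
  have hR0 : 0 ≤ 4 * R / L := div_nonneg (mul_nonneg (by norm_num) hR) hL0.le
  have hs0 : 0 ≤ 4 * R / L + ((m - n : ℕ) : ℝ) / n := add_nonneg hR0 hh0
  have h5 : 4 * R * ((hs n m).den : ℝ) / L + 1 ≤
      (4 * R / L + ((m - n : ℕ) : ℝ) / n) * ((hs n m).den : ℝ) := by
    have h6 : 1 ≤ ((m - n : ℕ) : ℝ) / n * ((hs n m).den : ℝ) := by
      rw [div_mul_eq_mul_div, le_div_iff₀ hn0, one_mul]
      exact h3
    have h7 : 4 * R * ((hs n m).den : ℝ) / L = 4 * R / L * ((hs n m).den : ℝ) := by ring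
    rw [h7, add_mul]
    linarith
  have hlog : Nat.log 2 (hs n m).den ≤ (m - n) * (Nat.log 2 L + 1) := by
    have h8 : (hs n m).den ≤ 2 ^ ((m - n) * (Nat.log 2 L + 1)) := by
      refine h4.trans ?_
      rw [Nat.mul_comm, pow_mul]
      exact Nat.pow_le_pow_left (Nat.lt_pow_succ_log_self (by norm_num) L).le _
    calc Nat.log 2 (hs n m).den ≤ Nat.log 2 (2 ^ ((m - n) * (Nat.log 2 L + 1))) :=
          Nat.log_mono_right h8
      _ = (m - n) * (Nat.log 2 L + 1) := Nat.log_pow (by norm_num) _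
  have hlog' : ((Nat.log 2 (hs n m).den : ℕ) : ℝ) ≤
      ((m - n : ℕ) : ℝ) * ((Nat.log 2 L : ℕ) + 1) := by
    exact_mod_cast hlog
  have h9 : pp R L n m * ((hs n m).den.totient : ℝ) ≤
      ((((m - n : ℕ) : ℝ) * ((Nat.log 2 L : ℕ) + 1) + 1) *
        (4 * R / L + ((m - n : ℕ) : ℝ) / n)) * ((hs n m).den.totient : ℝ) := by
    calc pp R L n m * ((hs n m).den.totient : ℝ) ≤ 4 * R * ((hs n m).den : ℝ) / L + 1 := h1
      _ ≤ (4 * R / L + ((m - n : ℕ) : ℝ) / n) * ((hs n m).den : ℝ) := h5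
      _ ≤ (4 * R / L + ((m - n : ℕ) : ℝ) / n) *
            (((Nat.log 2 (hs n m).den : ℕ) + 1 : ℝ) * ((hs n m).den.totient : ℝ)) :=
          mul_le_mul_of_nonneg_left h2 hs0
      _ ≤ (4 * R / L + ((m - n : ℕ) : ℝ) / n) *
            ((((m - n : ℕ) : ℝ) * ((Nat.log 2 L : ℕ) + 1) + 1) *
              ((hs n m).den.totient : ℝ)) := by
          refine mul_le_mul_of_nonneg_left ?_ hs0
          refine mul_le_mul_of_nonneg_right ?_ hφ.le
          linarith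
      _ = _ := by ring
  exact le_of_mul_le_mul_right h9 hφ

end Pool.Agent.Lib.MP_de5eaa_nt.Poi
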