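import Pool.Agent.Lib.MP_de5eaa_nt.Poi.Defs
import Pool.Agent.Lib.MP_de5eaa_nt.Poi.K2

set_option autoImplicit false

namespace Pool.Agent.Lib.MP_de5eaa_nt.Poi

open Finset MeasureTheory Filter Topology
open Pool.Agent.Lib.MP_de5eaa_nt.Near (hs wq)

theorem K3_ev (A : ℝ) : ∀ᶠ L : ℕ in atTop,
    A * (2 * Real.log (L : ℝ) + 2) ≤ (L : ℝ) ^ (1 / 8 : ℝ) := by
  have h1 : (fun x : ℝ => Real.log x) =o[atTop] fun x : ℝ => x ^ (1 / 8 : ℝ) :=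
    isLittleO_log_rpow_atTop (by norm_num)
  have h2 : (fun _ : ℝ => (1 : ℝ)) =o[atTop] fun x : ℝ => x ^ (1 / 8 : ℝ) := by
    rw [Asymptotics.isLittleO_const_left]
    right
    exact tendsto_norm_atTop_atTop.comp (tendsto_rpow_atTop (by norm_num))
  have h3 : (fun x : ℝ => A * (2 * Real.log x + 2)) =o[atTop] fun x : ℝ => x ^ (1 / 8 : ℝ) := by
    have h4 := ((h1.const_mul_left 2).add (h2.const_mul_left 2)).const_mul_left A
    refine h4.congr_left fun x => ?_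
    ring
  have h5 := h3.bound (c := 1) one_pos
  have h6 : ∀ᶠ x : ℝ in atTop, A * (2 * Real.log x + 2) ≤ x ^ (1 / 8 : ℝ) := by
    filter_upwards [h5, eventually_ge_atTop (0 : ℝ)] with x hx hx0
    rw [one_mul, Real.norm_eq_abs, Real.norm_eq_abs, abs_of_nonneg (Real.rpow_nonneg hx0 _)] at hx
    exact (le_abs_self _).trans hx
  exact tendsto_natCast_atTop_atTop.eventually h6

theorem K3_log {L : ℕ} (hL : 1 ≤ L) : ((Nat.log 2 L : ℕ) : ℝ) ≤ 2 * Real.log (L : ℝ) := by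
  have h1 : (2 : ℕ) ^ Nat.log 2 L ≤ L := Nat.pow_log_le_self 2 (by omega)
  have h2 : (2 : ℝ) ^ Nat.log 2 L ≤ (L : ℝ) := by exact_mod_cast h1
  have h3 : Real.log ((2 : ℝ) ^ Nat.log 2 L) ≤ Real.log (L : ℝ) :=
    Real.log_le_log (by positivity) h2
  rw [Real.log_pow] at h3
  have h4 : (1 / 2 : ℝ) ≤ Real.log 2 := by
    have := Real.log_two_gt_d9
    linarith
  have h5 : (0 : ℝ) ≤ ((Nat.log 2 L : ℕ) : ℝ) := Nat.cast_nonneg _
  nlinarith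

/-- ROW K3 (numerics). With `h = m - n`, `h^4 < n ≤ L`: `h < L^{1/4}` and `h/n ≤ n^{-3/4}` (`h < n^{1/4}`), `n ≥ L/M ≥ (L/(2M) :
ℝ)` for `L ≥ 2 M`. So the bound `pp_expl` is at most `(L^{1/4} (log2 L + 1) + 1) (4R/L + (2M/L)^{3/4})`, which is
`≤ L^{-3/8}` for `L` large (exponent `-1/2` and a logarithm; `isLittleO_log_rpow_atTop`, `Nat.log 2 L ≤ Real.logb 2 L`). -/
theorem pp_small {R : ℝ} (hR : 0 ≤ R) {M : ℕ} (hM : 2 ≤ M) : ∀ᶠ L : ℕ in atTop, ∀ n m : ℕ, L / M ≤ n → n < m → m ≤ L →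
    (m - n) ^ 4 < n → pp R L n m ≤ (L : ℝ) ^ (-(3 / 8) : ℝ) := by
  have e1 : ∀ᶠ L : ℕ in atTop, 4 * R < (L : ℝ) :=
    tendsto_natCast_atTop_atTop.eventually (eventually_gt_atTop (4 * R))
  filter_upwards [e1, eventually_ge_atTop (2 * M), K3_ev (4 * R + 2 * M)] with L hL1 hL2 hL3
  intro n m hn hnm hm h4
  have hL0 : 1 ≤ L := by omega
  have hLpos : (0 : ℝ) < (L : ℝ) := by exact_mod_cast hL0
  have hMpos : (0 : ℝ) < (M : ℝ) := by exact_mod_cast (by omega : 0 < M)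
  have hq2 : 2 ≤ L / M := (Nat.le_div_iff_mul_le (by omega)).2 hL2
  have hn1 : 1 ≤ n := by omega
  have hnpos : (0 : ℝ) < (n : ℝ) := by exact_mod_cast hn1
  -- `L ≤ 2 M n`
  have hLn : L ≤ 2 * M * n := by
    have h1 : L < M * (L / M + 1) := Nat.lt_mul_div_succ L (by omega)
    have h2 : M * (L / M + 1) ≤ M * (2 * n) := Nat.mul_le_mul_left M (by omega)
    have h3 : M * (2 * n) = 2 * M * n := by ring
    omega
  have hLn' : (L : ℝ) ≤ 2 * M * n := by exact_mod_cast hLn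
  obtain ⟨h, hh⟩ : ∃ h : ℕ, h = m - n := ⟨_, rfl⟩
  have hexpl := pp_expl hR hL1 hn1 hnm hm
  rw [← hh] at hexpl h4
  have hh1 : 1 ≤ h := by omega
  have hh1' : (1 : ℝ) ≤ (h : ℝ) := by exact_mod_cast hh1
  have h4' : ((h : ℝ)) ^ 4 ≤ (n : ℝ) := by exact_mod_cast h4.le
  have hnL : (n : ℝ) ≤ (L : ℝ) := by exact_mod_cast (by omega : n ≤ L)
  -- `t = L^(1/8)`
  obtain ⟨t, ht⟩ : ∃ t : ℝ, t = (L : ℝ) ^ (1 / 8 : ℝ) := ⟨_, rfl⟩
  have htpos : 0 < t := by rw [ht]; exact Real.rpow_pos_of_pos hLpos _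
  have ht8 : t ^ 8 = (L : ℝ) := by
    rw [ht, ← Real.rpow_natCast, ← Real.rpow_mul hLpos.le]
    norm_num
  have ht3 : (L : ℝ) ^ (-(3 / 8) : ℝ) = (t ^ 3)⁻¹ := by
    rw [Real.rpow_neg hLpos.le, ht, ← Real.rpow_natCast, ← Real.rpow_mul hLpos.le]
    norm_num
  have hL1' : (1 : ℝ) ≤ (L : ℝ) := by exact_mod_cast hL0
  have ht1 : 1 ≤ t := by
    rw [ht]
    exact Real.one_le_rpow hL1' (by norm_num)
  rw [← ht] at hL3
  have hlog := K3_log hL0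
  have hA : 0 ≤ 4 * R + 2 * (M : ℝ) := by positivity
  have hlog0 : (0 : ℝ) ≤ ((Nat.log 2 L : ℕ) : ℝ) := Nat.cast_nonneg _
  have hT : (4 * R + 2 * (M : ℝ)) * (((Nat.log 2 L : ℕ) : ℝ) + 2) ≤ t :=
    (mul_le_mul_of_nonneg_left (by linarith) hA).trans hL3
  -- `h ≤ t^2`
  have hht : (h : ℝ) ≤ t ^ 2 := by
    refine le_of_pow_le_pow_left₀ (n := 4) (by norm_num) (by positivity) ?_
    calc (h : ℝ) ^ 4 ≤ n := h4'
      _ ≤ L := hnL
      _ = (t ^ 2) ^ 4 := by rw [← ht8]; ring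
  -- `h / n ≤ 2 M / t^6`
  have hhn : (h : ℝ) / n ≤ 2 * M / t ^ 6 := by
    refine le_of_pow_le_pow_left₀ (n := 4) (by norm_num) (by positivity) ?_
    rw [div_pow, div_pow, div_le_div_iff₀ (by positivity) (by positivity)]
    have h5 : (t ^ 6) ^ 4 = (L : ℝ) ^ 3 := by rw [← ht8]; ring
    rw [h5]
    have h6 : (L : ℝ) ^ 3 ≤ (2 * M * n) ^ 3 := pow_le_pow_left₀ hLpos.le hLn' 3
    have h7 : (1 : ℝ) ≤ 2 * M := by
      have : (1 : ℝ) ≤ (M : ℝ) := by exact_mod_cast (by omega : 1 ≤ M)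
      linarith
    calc (h : ℝ) ^ 4 * (L : ℝ) ^ 3 ≤ (n : ℝ) * (2 * M * n) ^ 3 :=
          mul_le_mul h4' h6 (by positivity) hnpos.le
      _ = (2 * M : ℝ) ^ 3 * (n : ℝ) ^ 4 := by ring
      _ ≤ (2 * M : ℝ) ^ 4 * (n : ℝ) ^ 4 :=
          mul_le_mul_of_nonneg_right (pow_le_pow_right₀ h7 (by norm_num)) (by positivity)
  have hRL : 4 * R / (L : ℝ) ≤ 4 * R / t ^ 6 := by
    refine div_le_div_of_nonneg_left (by positivity) (by positivity) ?_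
    rw [← ht8]
    exact pow_le_pow_right₀ ht1 (by norm_num)
  rw [ht3]
  have hB : 4 * R / (L : ℝ) + (h : ℝ) / n ≤ (4 * R + 2 * M) / t ^ 6 := by
    rw [add_div]
    exact add_le_add hRL hhn
  have hC : (h : ℝ) * (((Nat.log 2 L : ℕ) : ℝ) + 1) + 1 ≤ t ^ 2 * (((Nat.log 2 L : ℕ) : ℝ) + 2) := by
    calc (h : ℝ) * (((Nat.log 2 L : ℕ) : ℝ) + 1) + 1
        ≤ (h : ℝ) * (((Nat.log 2 L : ℕ) : ℝ) + 1) + h := by linarith
      _ = (h : ℝ) * (((Nat.log 2 L : ℕ) : ℝ) + 2) := by ring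
      _ ≤ t ^ 2 * (((Nat.log 2 L : ℕ) : ℝ) + 2) :=
          mul_le_mul_of_nonneg_right hht (by positivity)
  refine hexpl.trans ?_
  calc ((h : ℝ) * (((Nat.log 2 L : ℕ) : ℝ) + 1) + 1) * (4 * R / (L : ℝ) + (h : ℝ) / n)
      ≤ (t ^ 2 * (((Nat.log 2 L : ℕ) : ℝ) + 2)) * ((4 * R + 2 * M) / t ^ 6) :=
        mul_le_mul hC hB (by positivity) (by positivity)
    _ = ((4 * R + 2 * M) * (((Nat.log 2 L : ℕ) : ℝ) + 2)) * (t ^ 2 / t ^ 6) := by ring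
    _ ≤ t * (t ^ 2 / t ^ 6) := mul_le_mul_of_nonneg_right hT (by positivity)
    _ = (t ^ 3)⁻¹ := by field_simp

end Pool.Agent.Lib.MP_de5eaa_nt.Poi
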