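import Pool.Agent.Lib.MP_de5eaa_nt.Poi.Defs
import Pool.Agent.Lib.MP_de5eaa_nt.Poi.H2

set_option autoImplicit false

namespace Pool.Agent.Lib.MP_de5eaa_nt.Poi

open Finset MeasureTheory Filter Topology
open Pool.Agent.Lib.MP_de5eaa_nt.Near (hs wq)

/-- the valuations of the binomial coefficient and of the denominator agree -/
theorem H3_key {n h q : ℕ} (hn : 1 ≤ n) (hq : q.Prime) (hhq : h < q)
    (hd : q ∣ (n + h - 1).choose h) :
    (hs n (n + h)).den.factorization q = ((n + h - 1).choose h).factorization q := by
  have hB : (n + h - 1).choose h ≠ 0 := (Nat.choose_pos (by omega)).ne'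
  have h1 : ∏ i ∈ range h, (n + i) = h.factorial * (n + h - 1).choose h := by
    rw [← Nat.ascFactorial_eq_prod_range, Nat.ascFactorial_eq_factorial_mul_choose']
  have h2 : q ∣ ∏ i ∈ range h, (n + i) := by
    rw [h1]
    exact Dvd.dvd.mul_left hd _
  obtain ⟨i0, hi0, hdi⟩ := (hq.prime.dvd_finsetProd_iff _).1 h2
  rw [mem_range] at hi0
  have h3 : ∀ i, i < h → i ≠ i0 → ¬ q ∣ n + i := by
    intro i hi hne hdv
    rcases lt_or_gt_of_ne hne with hlt | hgt
    · have h4 := (Nat.dvd_sub hdi hdv)
      have h5 : n + i0 - (n + i) = i0 - i := by omega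
      rw [h5] at h4
      have := Nat.le_of_dvd (by omega) h4
      omega
    · have h4 := (Nat.dvd_sub hdv hdi)
      have h5 : n + i - (n + i0) = i - i0 := by omega
      rw [h5] at h4
      have := Nat.le_of_dvd (by omega) h4
      omega
  have h6 : ((n + h - 1).choose h).factorization q = (n + i0).factorization q := by
    have h7 : (∏ i ∈ range h, (n + i)).factorization q = ∑ i ∈ range h, (n + i).factorization q := by
      rw [Nat.factorization_prod (fun i _ => by omega), Finset.sum_apply']
    have h8 : (h.factorial * (n + h - 1).choose h).factorization q =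
        ((n + h - 1).choose h).factorization q := by
      rw [Nat.factorization_mul (Nat.factorial_ne_zero h) hB, Finsupp.add_apply,
        Nat.factorization_eq_zero_of_not_dvd (fun hdv => by
          have := (hq.dvd_factorial).1 hdv
          omega), zero_add]
    rw [← h8, ← h1, h7, Finset.sum_eq_single i0]
    · intro i hi hne
      exact Nat.factorization_eq_zero_of_not_dvd (h3 i (mem_range.1 hi) hne)
    · intro hni
      exact absurd (mem_range.2 hi0) hni
  have h9 : 0 < (n + i0).factorization q := hq.factorization_pos_of_dvd (by omega) hdi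
  rw [h6]
  refine den_val hq hn (by omega) (by omega) h9 ?_
  intro k hk1 hk2 hk3
  have h10 := h3 (k - n) (by omega) (by omega)
  have h11 : n + (k - n) = k := by omega
  rw [h11] at h10
  rw [Nat.factorization_eq_zero_of_not_dvd h10]
  exact h9

/-- ROW H3. Write `N = n + h - 1`, `choose N h = n (n+1) ... (n+h-1) / h!` (`Nat.ascFactorial_eq_factorial_mul_choose`,
`n.ascFactorial h = h! * (n + h - 1).choose h`, `Nat.ascFactorial_eq_prod_range`). Let `q > h` be a prime. It does not
divide `h!`, so `v_q(choose N h) = v_q(∏_{k ∈ [n,n+h)} k) = ∑_k v_q(k)`. At most one `k0 ∈ [n, n+h)` is divisible by `q` (two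
multiples differ by at least `q > h`). If `q ∣ choose N h` then there is such a `k0`, `v_q(choose N h) = v_q(k0)`
and `den_val` (others have valuation `0`) gives `v_q(den) = v_q(k0)`. So for every prime `q ∣ rough h N`:
`v_q(rough h N) = v_q(choose N h) = v_q(den)`. This gives both statements (compare factorizations: `rough h N ∣ den`, and a
prime dividing `rough` does not divide `den / rough`). -/
theorem rough_dvd {n h : ℕ} (hn : 1 ≤ n) (hh : 1 ≤ h) : rough h (n + h - 1) ∣ (hs n (n + h)).den ∧
    (rough h (n + h - 1)).Coprime ((hs n (n + h)).den / rough h (n + h - 1)) := by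
  have hD : (hs n (n + h)).den ≠ 0 := (hs n (n + h)).den_nz
  set D := (hs n (n + h)).den with hDdef
  set S := ((n + h - 1).choose h).primeFactors.filter (h < ·) with hS
  have hSp : ∀ q ∈ S, q.Prime ∧ h < q ∧ q ∣ (n + h - 1).choose h := by
    intro q hq
    rw [hS, mem_filter] at hq
    exact ⟨Nat.prime_of_mem_primeFactors hq.1, hq.2, Nat.dvd_of_mem_primeFactors hq.1⟩
  have hfac : ∀ q ∈ S, D.factorization q = ((n + h - 1).choose h).factorization q := by
    intro q hq
    obtain ⟨h1, h2, h3⟩ := hSp q hq
    exact H3_key hn h1 h2 h3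
  have hr : rough h (n + h - 1) = ∏ q ∈ S, q ^ D.factorization q := by
    unfold rough
    refine Finset.prod_congr rfl fun q hq => ?_
    rw [hfac q hq]
  have hsub : S ⊆ D.primeFactors := by
    intro q hq
    obtain ⟨h1, h2, h3⟩ := hSp q hq
    have hB : (n + h - 1).choose h ≠ 0 := (Nat.choose_pos (by omega)).ne'
    have h4 : 0 < D.factorization q := by
      rw [hfac q hq]
      exact h1.factorization_pos_of_dvd hB h3
    rw [← Nat.support_factorization, Finsupp.mem_support_iff]
    omega
  have hDe : D = (∏ q ∈ S, q ^ D.factorization q) *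
      ∏ q ∈ D.primeFactors \ S, q ^ D.factorization q := by
    rw [mul_comm, Finset.prod_sdiff hsub]
    exact (Nat.prod_factorization_pow_eq_self hD).symm
  have hpos : 0 < ∏ q ∈ S, q ^ D.factorization q :=
    Finset.prod_pos fun q hq => pow_pos (hSp q hq).1.pos _
  have hdiv : D / (∏ q ∈ S, q ^ D.factorization q) =
      ∏ q ∈ D.primeFactors \ S, q ^ D.factorization q :=
    Nat.div_eq_of_eq_mul_right hpos hDe
  rw [hr]
  refine ⟨Dvd.intro _ hDe.symm, ?_⟩
  rw [hdiv]
  refine Nat.Coprime.prod_left fun q hq => Nat.Coprime.prod_right fun r hr' => ?_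
  rw [Finset.mem_sdiff] at hr'
  refine Nat.Coprime.pow _ _ ?_
  rw [Nat.coprime_primes (hSp q hq).1 (Nat.prime_of_mem_primeFactors hr'.1)]
  rintro rfl
  exact hr'.2 hq

end Pool.Agent.Lib.MP_de5eaa_nt.Poi
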