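import Pool.Agent.Lib.MP_de5eaa_nt.Poi.Defs

set_option autoImplicit false

namespace Pool.Agent.Lib.MP_de5eaa_nt.Poi

open Finset MeasureTheory Filter Topology
open Pool.Agent.Lib.MP_de5eaa_nt.Near (hs wq)

theorem rough_pos (h N : ℕ) : 0 < rough h N := by
  unfold rough
  refine Finset.prod_pos fun q hq => ?_
  exact pow_pos (Nat.prime_of_mem_primeFactors (Finset.mem_filter.1 hq).1).pos _

/-- the part of the binomial coefficient composed of the primes up to `h` -/
theorem H4a_small {N h : ℕ} (hN : 1 ≤ N) :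
    ∏ q ∈ (N.choose h).primeFactors.filter (fun q => ¬ h < q), q ^ (N.choose h).factorization q ≤
      N ^ (Nat.primeCounting h) := by
  have h1 : ∏ q ∈ (N.choose h).primeFactors.filter (fun q => ¬ h < q),
      q ^ (N.choose h).factorization q ≤
      N ^ ((N.choose h).primeFactors.filter (fun q => ¬ h < q)).card := by
    refine Finset.prod_le_pow_card _ _ _ fun q _ => ?_
    exact Nat.pow_factorization_choose_le (by omega)
  have h2 : ((N.choose h).primeFactors.filter (fun q => ¬ h < q)).card ≤ Nat.primeCounting h := by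
    unfold Nat.primeCounting Nat.primeCounting'
    rw [Nat.count_eq_card_filter_range]
    refine Finset.card_le_card fun q hq => ?_
    rw [Finset.mem_filter] at hq ⊢
    rw [Finset.mem_range]
    exact ⟨by omega, Nat.prime_of_mem_primeFactors hq.1⟩
  exact h1.trans (Nat.pow_le_pow_right hN h2)

theorem H4a_fac (h : ℕ) : h.factorial ≤ h ^ h := Nat.factorial_le_pow h

/-- ROW H4a. `n ^ h ≤ n (n+1) ... (n+h-1) = h! choose(N,h)` (`Nat.pow_succ_le_ascFactorial`, or
`Nat.pow_le...`), `h! ≤ h ^ h` (`Nat.factorial_le_pow`), and `choose(N,h) = (∏ over the primes q ≤ h of q^{v_q}) * rough`, where each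
`q^{v_q(choose N h)} ≤ N` (`Nat.pow_factorization_choose_le`) and the number of these primes is at most
`Nat.primeCounting h`. (`Nat.factorization_prod_pow_eq_self`, `Finset.prod_filter_mul_prod_filter_not`.) -/
theorem rough_ge {n h : ℕ} (hn : 1 ≤ n) (hh : 1 ≤ h) :
    n ^ h ≤ h ^ h * (n + h - 1) ^ (Nat.primeCounting h) * rough h (n + h - 1) := by
  obtain ⟨N, hN⟩ : ∃ N, N = n + h - 1 := ⟨_, rfl⟩
  have hN1 : 1 ≤ N := by omega
  have hhN : h ≤ N := by omega
  have h1 : n ^ h ≤ h.factorial * N.choose h := by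
    have h2 := Nat.pow_succ_le_ascFactorial n h
    rw [Nat.ascFactorial_eq_factorial_mul_choose'] at h2
    rw [hN]
    exact h2
  have hC : N.choose h ≠ 0 := (Nat.choose_pos hhN).ne'
  have h3 : N.choose h ≤ N ^ (Nat.primeCounting h) * rough h N := by
    have h4 : N.choose h = (∏ q ∈ (N.choose h).primeFactors.filter (h < ·),
        q ^ (N.choose h).factorization q) * ∏ q ∈ (N.choose h).primeFactors.filter
          (fun q => ¬ h < q), q ^ (N.choose h).factorization q := by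
      rw [Finset.prod_filter_mul_prod_filter_not]
      have h5 := Nat.prod_factorization_pow_eq_self hC
      conv_lhs => rw [← h5]
      rw [Finsupp.prod, Nat.support_factorization]
    calc N.choose h = rough h N * ∏ q ∈ (N.choose h).primeFactors.filter
          (fun q => ¬ h < q), q ^ (N.choose h).factorization q := h4
      _ ≤ rough h N * N ^ (Nat.primeCounting h) := Nat.mul_le_mul_left _ (H4a_small hN1)
      _ = N ^ (Nat.primeCounting h) * rough h N := mul_comm _ _
  rw [← hN]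
  calc n ^ h ≤ h.factorial * N.choose h := h1
    _ ≤ h ^ h * (N ^ (Nat.primeCounting h) * rough h N) := Nat.mul_le_mul (H4a_fac h) h3
    _ = h ^ h * N ^ (Nat.primeCounting h) * rough h N := by ring

theorem H4b_card {n h : ℕ} (hh : 2 ≤ h) (hhn : h ≤ n) (hn : n ≤ h ^ 4) :
    (((n + h - 1).choose h).primeFactors.filter (h < ·)).card ≤ 5 * h := by
  have hC : 0 < (n + h - 1).choose h := Nat.choose_pos (by omega)
  have h1 : h ^ (((n + h - 1).choose h).primeFactors.filter (h < ·)).card ≤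
      ∏ q ∈ ((n + h - 1).choose h).primeFactors.filter (h < ·), q := by
    rw [← Finset.prod_const]
    exact Finset.prod_le_prod' fun q hq => (Finset.mem_filter.1 hq).2.le
  have h2 : ∏ q ∈ ((n + h - 1).choose h).primeFactors.filter (h < ·), q ≤
      ∏ q ∈ ((n + h - 1).choose h).primeFactors, q :=
    Finset.prod_le_prod_of_subset_of_one_le' (Finset.filter_subset _ _)
      fun q hq _ => (Nat.prime_of_mem_primeFactors hq).one_le
  have h3 : ∏ q ∈ ((n + h - 1).choose h).primeFactors, q ≤ (n + h - 1).choose h :=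
    Nat.le_of_dvd hC (Nat.prod_primeFactors_dvd _)
  have h4 : (n + h - 1).choose h ≤ (n + h - 1) ^ h := Nat.choose_le_pow _ _
  have h5 : n + h - 1 ≤ h ^ 5 := by
    have e : h ^ 5 = h ^ 4 * h := by ring
    have e2 : h ^ 4 * 2 ≤ h ^ 4 * h := Nat.mul_le_mul_left _ hh
    omega
  have h6 : (n + h - 1) ^ h ≤ h ^ (5 * h) := by
    rw [pow_mul]
    exact Nat.pow_le_pow_left h5 h
  exact (Nat.pow_le_pow_iff_right (by omega)).1 (h1.trans (h2.trans (h3.trans (h4.trans h6))))

theorem H4b_sub (h N : ℕ) :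
    (rough h N).primeFactors ⊆ (N.choose h).primeFactors.filter (h < ·) := by
  intro q hq
  have hqp := Nat.prime_of_mem_primeFactors hq
  have hqd := Nat.dvd_of_mem_primeFactors hq
  unfold rough at hqd
  obtain ⟨r, hr, hrd⟩ := (hqp.prime.dvd_finsetProd_iff _).1 hqd
  have hrp : r.Prime := Nat.prime_of_mem_primeFactors (Finset.mem_filter.1 hr).1
  have h1 : q ∣ r := hqp.dvd_of_dvd_pow hrd
  have h2 : q = r := (Nat.prime_dvd_prime_iff_eq hqp hrp).1 h1
  rw [h2]
  exact hr

theorem H4b_factor {h q : ℕ} (hh : 2 ≤ h) (hq : h < q) :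
    Real.exp (-(1 / (h : ℝ))) ≤ 1 - (q : ℝ)⁻¹ := by
  have h0 : (0 : ℝ) < h := by exact_mod_cast (by omega : 0 < h)
  have q0 : (0 : ℝ) < q := by exact_mod_cast (by omega : 0 < q)
  have hq1 : (h : ℝ) + 1 ≤ q := by exact_mod_cast hq
  have h1 : 1 / (h : ℝ) + 1 ≤ Real.exp (1 / (h : ℝ)) := Real.add_one_le_exp _
  have h2 : Real.exp (-(1 / (h : ℝ))) ≤ (1 / (h : ℝ) + 1)⁻¹ := by
    rw [Real.exp_neg]
    exact inv_anti₀ (by positivity) h1
  have h3 : (1 / (h : ℝ) + 1)⁻¹ = 1 - ((h : ℝ) + 1)⁻¹ := by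
    field_simp
    ring
  have h4 : (q : ℝ)⁻¹ ≤ ((h : ℝ) + 1)⁻¹ := inv_anti₀ (by positivity) hq1
  linarith

/-- ROW H4b. Let `S` be the set of the prime divisors of `rough h N`, all `> h`. Their product divides `rough ∣ choose N h`, so
`h ^ |S| ≤ ∏ q ≤ choose N h ≤ N ^ h`, `N = n + h - 1 ≤ 2 n ≤ 2 h^4 ≤ h^5`, hence `|S| ≤ 5 h` (`h ≥ 2`). And
`rough / φ(rough) = ∏_{q ∈ S} q/(q-1) ≤ (1 + 1/h)^{|S|} ≤ (1+1/h)^{5h} ≤ e^5` (`Real.add_one_le_exp`). Use
`Nat.totient_mul_prod_primeFactors` or `Nat.totient_eq_mul_prod_factors`. -/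
theorem rough_phi {n h : ℕ} (hh : 2 ≤ h) (hhn : h ≤ n) (hn : n ≤ h ^ 4) :
    ((rough h (n + h - 1) : ℕ) : ℝ) ≤ Real.exp 5 * ((rough h (n + h - 1)).totient : ℝ) := by
  have hcard := H4b_card hh hhn hn
  have hsub := H4b_sub h (n + h - 1)
  have h0 : (0 : ℝ) < h := by exact_mod_cast (by omega : 0 < h)
  have htot : (((rough h (n + h - 1)).totient : ℕ) : ℝ) = ((rough h (n + h - 1) : ℕ) : ℝ) *
      ∏ q ∈ (rough h (n + h - 1)).primeFactors, (1 - (q : ℝ)⁻¹) := by
    have h1 := Nat.totient_eq_mul_prod_factors (rough h (n + h - 1))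
    have h2 : ((((rough h (n + h - 1)).totient : ℕ) : ℚ) : ℝ) =
        (((((rough h (n + h - 1) : ℕ) : ℚ) *
          ∏ q ∈ (rough h (n + h - 1)).primeFactors, (1 - (q : ℚ)⁻¹) : ℚ)) : ℝ) := by
      rw [h1]
    push_cast at h2
    exact h2
  have hT : (rough h (n + h - 1)).primeFactors.card ≤ 5 * h :=
    (Finset.card_le_card hsub).trans hcard
  have hprod : Real.exp (-5) ≤
      ∏ q ∈ (rough h (n + h - 1)).primeFactors, (1 - (q : ℝ)⁻¹) := by
    have h1 : ∏ _q ∈ (rough h (n + h - 1)).primeFactors, Real.exp (-(1 / (h : ℝ))) ≤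
        ∏ q ∈ (rough h (n + h - 1)).primeFactors, (1 - (q : ℝ)⁻¹) :=
      Finset.prod_le_prod (fun q _ => (Real.exp_pos _).le)
        (fun q hq => H4b_factor hh (Finset.mem_filter.1 (hsub hq)).2)
    rw [Finset.prod_const, ← Real.exp_nat_mul] at h1
    refine le_trans (Real.exp_le_exp.2 ?_) h1
    have h2 : (((rough h (n + h - 1)).primeFactors.card : ℕ) : ℝ) ≤ 5 * h := by exact_mod_cast hT
    have h3 : (((rough h (n + h - 1)).primeFactors.card : ℕ) : ℝ) * (1 / (h : ℝ)) ≤ 5 := by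
      rw [mul_one_div, div_le_iff₀ h0]
      exact h2
    linarith
  have hr : (0 : ℝ) ≤ ((rough h (n + h - 1) : ℕ) : ℝ) := Nat.cast_nonneg _
  rw [htot]
  have h5 : (1 : ℝ) ≤ Real.exp 5 *
      ∏ q ∈ (rough h (n + h - 1)).primeFactors, (1 - (q : ℝ)⁻¹) := by
    have h6 : Real.exp 5 * Real.exp (-5) = 1 := by
      rw [← Real.exp_add]
      norm_num
    exact h6.symm.le.trans (mul_le_mul_of_nonneg_left hprod (Real.exp_pos _).le)
  calc ((rough h (n + h - 1) : ℕ) : ℝ) = ((rough h (n + h - 1) : ℕ) : ℝ) * 1 := (mul_one _).symm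
    _ ≤ ((rough h (n + h - 1) : ℕ) : ℝ) * (Real.exp 5 *
      ∏ q ∈ (rough h (n + h - 1)).primeFactors, (1 - (q : ℝ)⁻¹)) :=
        mul_le_mul_of_nonneg_left h5 hr
    _ = _ := by ring

end Pool.Agent.Lib.MP_de5eaa_nt.Poi
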