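import Pool.Agent.Lib.MP_de5eaa_nt.Poi.Defs

set_option autoImplicit false

namespace Pool.Agent.Lib.MP_de5eaa_nt.Poi

open Finset MeasureTheory Filter Topology
open Pool.Agent.Lib.MP_de5eaa_nt.Near (hs wq)

/-- ROW H5 (Chebyshev's upper bound). From `Chebyshev.pi_le_log4_mul_div` (`π ⌊x⌋₊ ≤ log 4 * x / log √x + √x`, `x > 1`) and
`√x ≤ C x / log x` (`Real.log_le_sub_one_of_pos` / `Real.add_one_le_exp` for `log √x ≤ √x`, so `√x log x ≤ 2 x`). E.g.
`c0 = 2 log 4 + 2`. -/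
theorem cheb : ∃ c0 : ℝ, 0 < c0 ∧ ∀ h : ℕ, 2 ≤ h → (Nat.primeCounting h : ℝ) ≤ c0 * h / Real.log h := by
  have h40 : 0 < Real.log 4 := Real.log_pos (by norm_num)
  refine ⟨2 * Real.log 4 + 2, by linarith, fun h hh => ?_⟩
  have hh' : (2 : ℝ) ≤ h := by exact_mod_cast hh
  have hx : (1 : ℝ) < h := by linarith
  have hx0 : (0 : ℝ) ≤ h := by linarith
  have h1 := Chebyshev.pi_le_log4_mul_div hx
  rw [Nat.floor_natCast, Real.log_sqrt hx0] at h1
  have hl : 0 < Real.log h := Real.log_pos hx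
  have hs : 0 < Real.sqrt h := Real.sqrt_pos.mpr (by linarith)
  have hss : Real.sqrt h * Real.sqrt h = h := Real.mul_self_sqrt hx0
  have h2 : Real.log h ≤ 2 * Real.sqrt h := by
    have h3 : Real.log (Real.sqrt h) ≤ Real.sqrt h - 1 := Real.log_le_sub_one_of_pos hs
    rw [Real.log_sqrt hx0] at h3
    linarith
  have h4 : Real.sqrt h ≤ 2 * h / Real.log h := by
    rw [le_div_iff₀ hl]
    have h5 := mul_le_mul_of_nonneg_left h2 hs.le
    nlinarith
  have h6 : Real.log 4 * h / (Real.log h / 2) = 2 * Real.log 4 * h / Real.log h := by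
    field_simp
  rw [h6] at h1
  have h7 : (2 * Real.log 4 + 2) * h / Real.log h =
      2 * Real.log 4 * h / Real.log h + 2 * h / Real.log h := by
    ring
  rw [h7]
  linarith

end Pool.Agent.Lib.MP_de5eaa_nt.Poi
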