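import Pool.Agent.Lib.MP_de5eaa_nt.Poi.Defs
import Pool.Agent.Lib.MP_de5eaa_nt.Poi.H4
import Pool.Agent.Lib.MP_de5eaa_nt.Poi.H5

set_option autoImplicit false

namespace Pool.Agent.Lib.MP_de5eaa_nt.Poi

open Finset MeasureTheory Filter Topology
open Pool.Agent.Lib.MP_de5eaa_nt.Near (hs wq)

theorem K4_exp (M : ℕ) : ∃ h0 : ℕ, 2 ≤ h0 ∧ ∀ h : ℕ, h0 ≤ h →
    (M : ℝ) * ((h : ℝ) ^ 4 + 1) ≤ Real.exp h := by
  have ho := (Real.tendsto_pow_mul_exp_neg_atTop_nhds_zero 4).comp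
    (tendsto_natCast_atTop_atTop (R := ℝ))
  have hpos : (0 : ℝ) < 1 / (2 * (M + 1)) := by positivity
  have hev := ho.eventually (gt_mem_nhds hpos)
  obtain ⟨h0, hh0⟩ := eventually_atTop.1 hev
  refine ⟨max h0 2, le_max_right _ _, fun h hh => ?_⟩
  have h1 := hh0 h ((le_max_left _ _).trans hh)
  have h2 : (1 : ℝ) ≤ (h : ℝ) := by exact_mod_cast (by omega : 1 ≤ h)
  have h3 : (1 : ℝ) ≤ (h : ℝ) ^ 4 := one_le_pow₀ h2
  simp only [Function.comp] at h1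
  rw [Real.exp_neg, ← div_eq_mul_inv, div_lt_div_iff₀ (Real.exp_pos _) (by positivity)] at h1
  have hM : (0 : ℝ) ≤ M := by positivity
  nlinarith

theorem K4_log {c0 : ℝ} (hc0 : 0 < c0)
    (hch : ∀ h : ℕ, 2 ≤ h → (Nat.primeCounting h : ℝ) ≤ c0 * h / Real.log h)
    {n h : ℕ} (hh : 2 ≤ h) (hn : n ≤ h ^ 4) (hη : (h : ℝ) ≤ Real.exp (-(5 * c0 + 1)) * n) :
    Real.exp h ≤ (rough h (n + h - 1) : ℝ) := by
  have hhR : (2 : ℝ) ≤ (h : ℝ) := by exact_mod_cast hh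
  have hη1 : Real.exp (-(5 * c0 + 1)) ≤ 1 := Real.exp_le_one_iff.2 (by nlinarith)
  have hhn : (h : ℝ) ≤ n := hη.trans (by
    have : (0 : ℝ) ≤ n := by positivity
    nlinarith)
  have hhn' : h ≤ n := by exact_mod_cast hhn
  have hge := rough_ge (n := n) (h := h) (by omega) (by omega)
  have hrp : 0 < rough h (n + h - 1) := rough_pos _ _
  have hnpos : (0 : ℝ) < n := by linarith
  have hhpos : (0 : ℝ) < h := by linarith
  have hrR : (0 : ℝ) < (rough h (n + h - 1) : ℝ) := by exact_mod_cast hrp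
  have hNpos : (0 : ℝ) < ((n + h - 1 : ℕ) : ℝ) := by exact_mod_cast (by omega : 0 < n + h - 1)
  have hcast : (n : ℝ) ^ h ≤ (h : ℝ) ^ h * ((n + h - 1 : ℕ) : ℝ) ^ (Nat.primeCounting h) *
      (rough h (n + h - 1) : ℝ) := by exact_mod_cast hge
  have hlog := Real.log_le_log (by positivity) hcast
  rw [Real.log_mul (by positivity) (by positivity), Real.log_mul (by positivity) (by positivity),
    Real.log_pow, Real.log_pow, Real.log_pow] at hlog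
  -- log n - log h ≥ 5 c0 + 1
  have hl1 : Real.log h ≤ -(5 * c0 + 1) + Real.log n := by
    have := Real.log_le_log hhpos hη
    rwa [Real.log_mul (by positivity) (by positivity), Real.log_exp] at this
  -- log (n + h - 1) ≤ 5 log h
  have hN5 : (n + h - 1 : ℕ) ≤ h ^ 5 := by
    have e1 : n + h - 1 ≤ 2 * h ^ 4 := by omega
    have e2 : 2 * h ^ 4 ≤ h ^ 5 := by
      rw [pow_succ h 4, mul_comm]
      exact Nat.mul_le_mul_left _ hh
    exact e1.trans e2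
  have hl2 : Real.log ((n + h - 1 : ℕ) : ℝ) ≤ 5 * Real.log h := by
    have h5 : ((n + h - 1 : ℕ) : ℝ) ≤ (h : ℝ) ^ 5 := by exact_mod_cast hN5
    have := Real.log_le_log hNpos h5
    rw [Real.log_pow] at this
    exact_mod_cast this
  have hlogh : 0 < Real.log h := Real.log_pos (by linarith)
  have hπ := hch h hh
  have hl3 : (Nat.primeCounting h : ℝ) * Real.log ((n + h - 1 : ℕ) : ℝ) ≤ 5 * c0 * h := by
    have h0 : (0 : ℝ) ≤ Nat.primeCounting h := by positivity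
    calc (Nat.primeCounting h : ℝ) * Real.log ((n + h - 1 : ℕ) : ℝ)
        ≤ (Nat.primeCounting h : ℝ) * (5 * Real.log h) := mul_le_mul_of_nonneg_left hl2 h0
      _ ≤ (c0 * h / Real.log h) * (5 * Real.log h) :=
          mul_le_mul_of_nonneg_right hπ (by positivity)
      _ = 5 * c0 * h := by field_simp
  have hfin : (h : ℝ) ≤ Real.log (rough h (n + h - 1) : ℝ) := by nlinarith
  calc Real.exp h ≤ Real.exp (Real.log (rough h (n + h - 1) : ℝ)) := Real.exp_le_exp.2 hfin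
    _ = _ := Real.exp_log hrR

/-- ROW K4. Take `η = exp(-(5 c0 + 1))`, `c0` from `cheb`. Let `L ≥ 2M`, `L / M ≤ n ≤ h^4`, `h ≤ η n ≤ n`, and let `L` be so
large that `h ≥ 2` and `exp h ≥ L` (`h ≥ n^{1/4} ≥ (L/(2M))^{1/4}`, and `exp(y^{1/4}) ` beats `2 M y`). By `rough_ge`:
`n^h ≤ h^h (n+h-1)^{π(h)} rough`. Take logarithms: `log rough ≥ h log(n/h) - π(h) log(n+h-1)`, where `log(n/h) ≥ log(1/η) =
5 c0 + 1`, `n + h - 1 ≤ 2n ≤ 2h^4 ≤ h^5`, so `π(h) log(n+h-1) ≤ (c0 h/log h) (5 log h) = 5 c0 h`. Hence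
`log rough ≥ h`, `rough ≥ exp h ≥ L`. -/
theorem rough_big : ∃ η : ℝ, 0 < η ∧ η ≤ 1 ∧ ∀ M : ℕ, 2 ≤ M → ∀ᶠ L : ℕ in atTop, ∀ n h : ℕ, L / M ≤ n → n ≤ h ^ 4 →
    (h : ℝ) ≤ η * n → 2 ≤ h ∧ L ≤ rough h (n + h - 1) := by
  obtain ⟨c0, hc0, hch⟩ := cheb
  refine ⟨Real.exp (-(5 * c0 + 1)), Real.exp_pos _, Real.exp_le_one_iff.2 (by nlinarith), ?_⟩
  intro M hM
  obtain ⟨h0, hh0, hexp⟩ := K4_exp M
  filter_upwards [eventually_ge_atTop (M * (h0 ^ 4 + 1))] with L hL n h hLn hnh hη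
  have hMpos : 0 < M := by omega
  have e1 : h0 ^ 4 + 1 ≤ L / M := (Nat.le_div_iff_mul_le hMpos).2 (by rw [mul_comm]; exact hL)
  have e2 : h0 ^ 4 < h ^ 4 := by omega
  have e3 : h0 < h := lt_of_pow_lt_pow_left₀ 4 (Nat.zero_le _) e2
  have h2 : 2 ≤ h := by omega
  refine ⟨h2, ?_⟩
  have e4 : L < M * (n + 1) := by
    have := (Nat.div_lt_iff_lt_mul hMpos).1 (Nat.lt_succ_of_le hLn)
    rw [mul_comm] at this
    exact this
  have e5 := K4_log hc0 hch h2 hnh hη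
  have e6 := hexp h e3.le
  have e7 : (L : ℝ) ≤ (rough h (n + h - 1) : ℝ) := by
    have f1 : (L : ℝ) ≤ (M : ℝ) * ((n : ℝ) + 1) := by exact_mod_cast e4.le
    have f2 : (n : ℝ) ≤ (h : ℝ) ^ 4 := by exact_mod_cast hnh
    have f3 : (M : ℝ) * ((n : ℝ) + 1) ≤ (M : ℝ) * ((h : ℝ) ^ 4 + 1) :=
      mul_le_mul_of_nonneg_left (by linarith) (by positivity)
    linarith
  exact_mod_cast e7

end Pool.Agent.Lib.MP_de5eaa_nt.Poi
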