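import Pool.Agent.Lib.MP_de5eaa_nt.Poi.Defs
import Pool.Agent.Lib.MP_de5eaa_nt.Poi.K4
import Pool.Agent.Lib.MP_de5eaa_nt.Poi.H3
import Pool.Agent.Lib.MP_de5eaa_nt.Poi.H6

set_option autoImplicit false

namespace Pool.Agent.Lib.MP_de5eaa_nt.Poi

open Finset MeasureTheory Filter Topology
open Pool.Agent.Lib.MP_de5eaa_nt.Near (hs wq)

/-- ROW K5. `η` from `rough_big`, `C = exp 5 * (4 R + 1)`. Let `h = m - n ≥ 2` (`m = n + h`), `b = rough h (n + h - 1)`. By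
`rough_dvd` and `pp_le`: `pp φ(b) ≤ 4 R b/L + 1 ≤ (4 R + 1) b / L` (`b ≥ L`), and `b ≤ e^5 φ(b)` (`rough_phi`, `h ≤ η n ≤ n`, `n ≤ h^4`); divide
by `φ(b) > 0`. -/
theorem pp_mid {R : ℝ} (hR : 0 ≤ R) : ∃ η : ℝ, 0 < η ∧ η ≤ 1 ∧ ∃ C : ℝ, 0 < C ∧ ∀ M : ℕ, 2 ≤ M → ∀ᶠ L : ℕ in atTop,
    ∀ n m : ℕ, L / M ≤ n → n < m → m ≤ L → n ≤ (m - n) ^ 4 → ((m - n : ℕ) : ℝ) ≤ η * n → pp R L n m ≤ C / L := by
  obtain ⟨η, h0, h1, hbig⟩ := rough_big
  refine ⟨η, h0, h1, Real.exp 5 * (4 * R + 1), by positivity, fun M hM => ?_⟩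
  filter_upwards [hbig M hM, eventually_gt_atTop (⌈4 * R⌉₊), eventually_ge_atTop M] with
    L hL hL2 hL3 n m hn hnm hm h4 hη
  have hn1 : 1 ≤ n := le_trans ((Nat.one_le_div_iff (by omega)).2 hL3) hn
  have hL4 : 4 * R < L := lt_of_le_of_lt (Nat.le_ceil _) (by exact_mod_cast hL2)
  obtain ⟨h, rfl⟩ : ∃ h, m = n + h := ⟨m - n, by omega⟩
  have e1 : n + h - n = h := by omega
  rw [e1] at h4 hη
  obtain ⟨hh2, hbL⟩ := hL n h hn h4 hη
  have hhn : h ≤ n := by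
    have h2 : (h : ℝ) ≤ n := hη.trans (by nlinarith [Nat.cast_nonneg (α := ℝ) n])
    exact_mod_cast h2
  obtain ⟨hd, hc⟩ := rough_dvd hn1 (by omega : 1 ≤ h)
  have h5 := pp_le hR hL4 hn1 (by omega : n + h ≤ L + 1) hd hc
  have h6 := rough_phi hh2 hhn h4
  have hb0 : 0 < rough h (n + h - 1) := lt_of_lt_of_le (by omega) hbL
  have hφ : 0 < ((rough h (n + h - 1)).totient : ℝ) := by exact_mod_cast Nat.totient_pos.2 hb0
  have hLpos : (0 : ℝ) < L := by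
    have h2 : 0 < L := by omega
    exact_mod_cast h2
  have hbL' : (L : ℝ) ≤ (rough h (n + h - 1) : ℕ) := by exact_mod_cast hbL
  refine le_of_mul_le_mul_right (h5.trans ?_) hφ
  have h7 : 4 * R * ((rough h (n + h - 1) : ℕ) : ℝ) / L + 1 ≤
      (4 * R + 1) * ((rough h (n + h - 1) : ℕ) : ℝ) / L := by
    rw [div_add_one hLpos.ne', div_le_div_iff_of_pos_right hLpos]
    linarith
  refine h7.trans ?_
  rw [div_mul_eq_mul_div, div_le_div_iff_of_pos_right hLpos]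
  calc (4 * R + 1) * ((rough h (n + h - 1) : ℕ) : ℝ)
      ≤ (4 * R + 1) * (Real.exp 5 * ((rough h (n + h - 1)).totient : ℝ)) :=
        mul_le_mul_of_nonneg_left h6 (by positivity)
    _ = Real.exp 5 * (4 * R + 1) * ((rough h (n + h - 1)).totient : ℝ) := by ring

end Pool.Agent.Lib.MP_de5eaa_nt.Poi
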