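import Pool.Agent.Lib.MP_de5eaa_nt.Poi.Defs
import Pool.Agent.Lib.MP_de5eaa_nt.Poi.H1
import Pool.Agent.Lib.MP_de5eaa_nt.Poi.H2
import Pool.Agent.Lib.MP_de5eaa_nt.Poi.H6

set_option autoImplicit false

namespace Pool.Agent.Lib.MP_de5eaa_nt.Poi

open Finset MeasureTheory Filter Topology
open Pool.Agent.Lib.MP_de5eaa_nt.Near (hs wq)

theorem K6_not_dvd {d e p q : ℕ} (hp : p.Prime) (hd : d ≠ 0) (he : d = p * q * e)
    (h1 : d.factorization p = 1) : ¬ p ∣ e := by
  intro h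
  obtain ⟨f, rfl⟩ := h
  have h2 : p ^ 2 ∣ d := ⟨q * f, by rw [he]; ring⟩
  have h3 := (hp.pow_dvd_iff_le_factorization hd).1 h2
  omega

theorem K6_coprime {d p q : ℕ} (hp : p.Prime) (hq : q.Prime) (hpq : p ≠ q) (hd : d ≠ 0)
    (h1 : d.factorization p = 1) (h2 : d.factorization q = 1) :
    p * q ∣ d ∧ (p * q).Coprime (d / (p * q)) := by
  have h3 : p ∣ d := by
    have := (hp.pow_dvd_iff_le_factorization hd (k := 1)).2 (by omega)
    rwa [pow_one] at this
  have h4 : q ∣ d := by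
    have := (hq.pow_dvd_iff_le_factorization hd (k := 1)).2 (by omega)
    rwa [pow_one] at this
  have h5 : p.Coprime q := (Nat.coprime_primes hp hq).2 hpq
  have h6 : p * q ∣ d := h5.mul_dvd_of_dvd_of_dvd h3 h4
  refine ⟨h6, ?_⟩
  obtain ⟨e, he⟩ := h6
  have hpos : 0 < p * q := Nat.mul_pos hp.pos hq.pos
  have h7 : d / (p * q) = e := by rw [he, Nat.mul_div_cancel_left _ hpos]
  rw [h7]
  apply Nat.Coprime.mul_left
  · rw [hp.coprime_iff_not_dvd]
    exact K6_not_dvd hp hd he h1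
  · rw [hq.coprime_iff_not_dvd]
    exact K6_not_dvd (q := p) hq hd (by rw [he]; ring) h2

/-- ROW K6. `C = 16 R + 1`. By `two_primes` with `η/2` there are primes `n < p < q ≤ (1 + η/2) n < m` for `n` large (`n ≥ L/M`, so for
`L` large; `η n ≤ m - n`). Since `n < p`, `q < m ≤ 2 n` each of `p`, `q` divides the denominator `B` of `hs n m` exactly once
(`den_prime`), so `b = p q ∣ B` and `b` is coprime to `B / b`. `pp_le`: `pp φ(b) ≤ 4 R b/L + 1`, where `b ≤ 4 φ(b)`
(`p ≤ 2 (p-1)`) and `φ(b) = (p-1)(q-1) ≥ n^2 ≥ (L/(2M))^2 ≥ L` for `L` large: `pp ≤ 16 R/L + 1/L`. -/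
theorem pp_far (hT : Tendsto (fun x : ℕ => Chebyshev.theta x / (x : ℝ)) atTop (𝓝 1)) {R : ℝ} (hR : 0 ≤ R) {η : ℝ}
    (hη : 0 < η) : ∃ C : ℝ, 0 < C ∧ ∀ M : ℕ, 2 ≤ M → ∀ᶠ L : ℕ in atTop,
    ∀ n m : ℕ, L / M ≤ n → n < m → m ≤ L → m ≤ 2 * n → η * n ≤ ((m - n : ℕ) : ℝ) → pp R L n m ≤ C / L := by
  refine ⟨16 * R + 1, by positivity, fun M hM => ?_⟩
  obtain ⟨N0, hN0⟩ := eventually_atTop.1 (two_primes hT (half_pos hη))
  have hL0 : ∀ᶠ L : ℕ in atTop, 4 * R < (L : ℝ) :=
    (tendsto_natCast_atTop_atTop (R := ℝ)).eventually (eventually_gt_atTop (4 * R))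
  filter_upwards [hL0, eventually_ge_atTop (M * (N0 + 2 * M + 1))] with L hL hLM n m h1 h2 h3 h4 h5
  have hMp : 0 < M := by omega
  have hn : N0 + 2 * M + 1 ≤ n := by
    refine le_trans ?_ h1
    rw [Nat.le_div_iff_mul_le hMp, mul_comm]
    exact hLM
  have hLn : L ≤ n * n := by
    have e1 : L < M * (L / M + 1) := by
      have := Nat.lt_mul_div_succ L hMp
      simpa using this
    have e2 : M * (L / M + 1) ≤ M * (n + 1) := Nat.mul_le_mul_left _ (by omega)
    have e3 : M * (n + 1) ≤ M * (2 * n) := Nat.mul_le_mul_left _ (by omega)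
    have e4 : M * (2 * n) = (2 * M) * n := by ring
    have e5 : (2 * M) * n ≤ n * n := Nat.mul_le_mul_right _ (by omega)
    omega
  obtain ⟨p, q, hp, hq, hnp, hpq, hqn⟩ := hN0 n (by omega)
  have hn0 : (0 : ℝ) < n := by
    have : 0 < n := by omega
    exact_mod_cast this
  have hqm : q < m := by
    have e1 : ((m - n : ℕ) : ℝ) = (m : ℝ) - n := by
      rw [Nat.cast_sub h2.le]
    rw [e1] at h5
    have e2 : (0 : ℝ) < η * n := mul_pos hη hn0
    have e3 : (q : ℝ) < m := by nlinarith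
    exact_mod_cast e3
  have hL1 : (0 : ℝ) < L := lt_of_le_of_lt (by positivity) hL
  obtain ⟨hb, hc⟩ := K6_coprime (d := (hs n m).den) hp hq (by omega) (hs n m).den_nz
    (den_prime hp (by omega) hnp.le (by omega) (by omega))
    (den_prime hq (by omega) (by omega) hqm (by omega))
  have h6 := pp_le hR (L := L) (n := n) (m := m) (b := p * q) hL (by omega) (by omega) hb hc
  have ht : (p * q).totient = (p - 1) * (q - 1) := by
    rw [Nat.totient_mul ((Nat.coprime_primes hp hq).2 (by omega)), Nat.totient_prime hp,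
      Nat.totient_prime hq]
  have h7 : L ≤ (p * q).totient := by
    rw [ht]
    exact hLn.trans (Nat.mul_le_mul (by omega) (by omega))
  have h8 : p * q ≤ 4 * (p * q).totient := by
    rw [ht]
    have e1 : p ≤ 2 * (p - 1) := by have := hp.two_le; omega
    have e2 : q ≤ 2 * (q - 1) := by have := hq.two_le; omega
    calc p * q ≤ (2 * (p - 1)) * (2 * (q - 1)) := Nat.mul_le_mul e1 e2
      _ = 4 * ((p - 1) * (q - 1)) := by ring
  have h7' : (L : ℝ) ≤ ((p * q).totient : ℝ) := by exact_mod_cast h7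
  have h8' : ((p * q : ℕ) : ℝ) ≤ 4 * ((p * q).totient : ℝ) := by exact_mod_cast h8
  set φ : ℝ := ((p * q).totient : ℝ) with hφ
  have hφ0 : 0 < φ := lt_of_lt_of_le hL1 h7'
  have h9 : pp R L n m * φ ≤ ((16 * R + 1) / L) * φ := by
    refine h6.trans ?_
    have e1 : 4 * R * ((p * q : ℕ) : ℝ) / L ≤ 4 * R * (4 * φ) / L := by
      apply div_le_div_of_nonneg_right _ hL1.le
      exact mul_le_mul_of_nonneg_left h8' (by positivity)
    have e2 : 1 ≤ φ / L := by rwa [one_le_div hL1]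
    have e3 : ((16 * R + 1) / L) * φ = 4 * R * (4 * φ) / L + φ / L := by
      field_simp
      ring
    rw [e3]
    linarith
  exact le_of_mul_le_mul_right h9 hφ0

end Pool.Agent.Lib.MP_de5eaa_nt.Poi
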