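import Pool.Agent.Lib.MP_de5eaa_nt.Poi.Defs
import Pool.Agent.Lib.MP_de5eaa_nt.Poi.K3
import Pool.Agent.Lib.MP_de5eaa_nt.Poi.K5
import Pool.Agent.Lib.MP_de5eaa_nt.Poi.K6

set_option autoImplicit false

namespace Pool.Agent.Lib.MP_de5eaa_nt.Poi

open Finset MeasureTheory Filter Topology
open Pool.Agent.Lib.MP_de5eaa_nt.Near (hs wq)

theorem K7_count (n L b : ℕ) (hnL : n ≤ L) :
    ((((Ioc n (min (n + b) L)).filter fun m => (m - n) ^ 4 < n).card : ℕ) : ℝ) ≤ (L : ℝ) ^ (1 / 4 : ℝ) := by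
  have hL0 : (0 : ℝ) ≤ L := Nat.cast_nonneg L
  have hx0 : (0 : ℝ) ≤ (L : ℝ) ^ (1 / 4 : ℝ) := Real.rpow_nonneg hL0 _
  have hsub : ((Ioc n (min (n + b) L)).filter fun m => (m - n) ^ 4 < n) ⊆
      Ioc n (n + ⌊(L : ℝ) ^ (1 / 4 : ℝ)⌋₊) := by
    intro m hm
    rw [mem_filter, mem_Ioc] at hm
    obtain ⟨⟨h1, _⟩, h3⟩ := hm
    rw [mem_Ioc]
    refine ⟨h1, ?_⟩
    have h4 : m - n ≤ ⌊(L : ℝ) ^ (1 / 4 : ℝ)⌋₊ := by
      rw [Nat.le_floor_iff hx0]
      have h5 : (((m - n : ℕ) : ℝ)) ^ 4 ≤ (L : ℝ) := by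
        have : (m - n) ^ 4 ≤ L := (h3.le).trans hnL
        exact_mod_cast this
      have h6 : (((m - n : ℕ) : ℝ)) = ((((m - n : ℕ) : ℝ)) ^ 4) ^ (1 / 4 : ℝ) := by
        rw [← Real.rpow_natCast, ← Real.rpow_mul (Nat.cast_nonneg _)]
        norm_num
      rw [h6]
      exact Real.rpow_le_rpow (by positivity) h5 (by norm_num)
    omega
  have h7 := card_le_card hsub
  rw [Nat.card_Ioc, Nat.add_sub_cancel_left] at h7
  calc ((((Ioc n (min (n + b) L)).filter fun m => (m - n) ^ 4 < n).card : ℕ) : ℝ)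
      ≤ ((⌊(L : ℝ) ^ (1 / 4 : ℝ)⌋₊ : ℕ) : ℝ) := by exact_mod_cast h7
    _ ≤ (L : ℝ) ^ (1 / 4 : ℝ) := Nat.floor_le hx0

theorem K7_ev (M : ℕ) (hM : 2 ≤ M) : ∀ᶠ L : ℕ in atTop,
    1 ≤ L ∧ ((L : ℝ) + 1) * ((L : ℝ) ^ (1 / 4 : ℝ) * (L : ℝ) ^ (-(3 / 8) : ℝ)) ≤ L / M := by
  have hM0 : (0 : ℝ) < M := by
    have : 0 < M := by omega
    exact_mod_cast this
  have h1 : Tendsto (fun L : ℕ => (L : ℝ) ^ (-(1 / 8) : ℝ)) atTop (𝓝 0) :=
    (tendsto_rpow_neg_atTop (by norm_num : (0 : ℝ) < 1 / 8)).comp tendsto_natCast_atTop_atTop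
  have h2 : ∀ᶠ L : ℕ in atTop, (L : ℝ) ^ (-(1 / 8) : ℝ) < 1 / (2 * M) :=
    h1.eventually (gt_mem_nhds (by positivity))
  filter_upwards [h2, eventually_ge_atTop 1] with L h3 h4
  refine ⟨h4, ?_⟩
  have hL : (1 : ℝ) ≤ L := by exact_mod_cast h4
  have hL0 : (0 : ℝ) < L := by linarith
  rw [← Real.rpow_add hL0]
  have h5 : (1 / 4 + -(3 / 8) : ℝ) = -(1 / 8) := by norm_num
  rw [h5]
  calc ((L : ℝ) + 1) * (L : ℝ) ^ (-(1 / 8) : ℝ) ≤ (2 * L) * (1 / (2 * M)) := by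
        apply mul_le_mul _ h3.le (Real.rpow_nonneg hL0.le _) (by positivity)
        linarith
    _ = L / M := by
        field_simp

/-- ROW K7. `η`, `C1` from `pp_mid`, `C2` from `pp_far` (with this `η`); `C' = max C1 C2`, `C = 2 C' + 1`. In the double sum
`L / M ≤ n < m ≤ min (n + L/M) L` so `m ≤ 2 n`. If `(m-n)^4 < n` then `pp ≤ L^{-3/8}` (`pp_small`), and for every `n` there are at
most `L^{1/4}` such `m` (`(m - n)^4 < L`): these pairs contribute at most `(L+1) L^{1/4} L^{-3/8} = (L+1) L^{-1/8} ≤ L / M` for `L`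
large. Otherwise `pp ≤ C'/L`, and there are at most `(L+1) (L/M)` pairs: `(L+1) (L/M) C'/L ≤ 2 C' L/M`. (Bound each
term by the sum of the two bounds: `pp ≤ C'/L + (if (m-n)^4 < n then L^{-3/8} else 0)`.) -/
theorem pairs_sum (hT : Tendsto (fun x : ℕ => Chebyshev.theta x / (x : ℝ)) atTop (𝓝 1)) {R : ℝ} (hR : 0 ≤ R) :
    ∃ C : ℝ, 0 < C ∧ ∀ M : ℕ, 2 ≤ M → ∀ᶠ L : ℕ in atTop,
      ∑ n ∈ Icc (L / M) L, ∑ m ∈ Ioc n (min (n + L / M) L), pp R L n m ≤ C * L / M := by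
  obtain ⟨η, hη, hη1, C1, hC1, h1⟩ := pp_mid hR
  obtain ⟨C2, hC2, h2⟩ := pp_far hT hR hη
  set C' : ℝ := max C1 C2 with hC'
  have hC'0 : 0 < C' := lt_max_of_lt_left hC1
  refine ⟨2 * C' + 1, by positivity, ?_⟩
  intro M hM
  have hM0 : (0 : ℝ) < M := by
    have : 0 < M := by omega
    exact_mod_cast this
  filter_upwards [pp_small hR hM, h1 M hM, h2 M hM, K7_ev M hM] with L hs1 hm1 hf1 hev
  obtain ⟨hL1, hev⟩ := hev
  have hL : (1 : ℝ) ≤ L := by exact_mod_cast hL1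
  have hL0 : (0 : ℝ) < L := by linarith
  set b : ℕ := L / M with hb
  have hbr : (b : ℝ) ≤ L / M := by
    rw [hb]; exact Nat.cast_div_le
  clear_value b
  set e : ℝ := (L : ℝ) ^ (-(3 / 8) : ℝ) with he
  have he0 : 0 ≤ e := Real.rpow_nonneg hL0.le _
  have hterm : ∀ n ∈ Icc b L, ∀ m ∈ Ioc n (min (n + b) L),
      pp R L n m ≤ C' / L + (if (m - n) ^ 4 < n then e else 0) := by
    intro n hn m hm
    rw [mem_Icc] at hn
    rw [mem_Ioc, le_min_iff] at hm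
    obtain ⟨hm1', hm2, hm3⟩ := hm
    have hCL : 0 ≤ C' / L := by positivity
    by_cases h4 : (m - n) ^ 4 < n
    · rw [if_pos h4]
      have := hs1 n m hn.1 hm1' hm3 h4
      linarith
    · rw [if_neg h4, add_zero]
      push Not at h4
      by_cases h5 : ((m - n : ℕ) : ℝ) ≤ η * n
      · refine (hm1 n m hn.1 hm1' hm3 h4 h5).trans ?_
        exact div_le_div_of_nonneg_right (le_max_left _ _) hL0.le
      · push Not at h5
        refine (hf1 n m hn.1 hm1' hm3 (by omega) h5.le).trans ?_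
        exact div_le_div_of_nonneg_right (le_max_right _ _) hL0.le
  have hinner : ∀ n ∈ Icc b L, ∑ m ∈ Ioc n (min (n + b) L), pp R L n m ≤
      (L / M) * (C' / L) + (L : ℝ) ^ (1 / 4 : ℝ) * e := by
    intro n hn
    have hn' := mem_Icc.1 hn
    calc ∑ m ∈ Ioc n (min (n + b) L), pp R L n m
        ≤ ∑ m ∈ Ioc n (min (n + b) L), (C' / L + (if (m - n) ^ 4 < n then e else 0)) :=
          sum_le_sum (hterm n hn)
      _ = ((Ioc n (min (n + b) L)).card : ℝ) * (C' / L) +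
          (((Ioc n (min (n + b) L)).filter fun m => (m - n) ^ 4 < n).card : ℝ) * e := by
          rw [sum_add_distrib, sum_const, nsmul_eq_mul, ← sum_filter, sum_const, nsmul_eq_mul]
      _ ≤ (L / M) * (C' / L) + (L : ℝ) ^ (1 / 4 : ℝ) * e := by
          apply add_le_add
          · apply mul_le_mul_of_nonneg_right _ (by positivity)
            have h6 : (Ioc n (min (n + b) L)).card ≤ b := by
              rw [Nat.card_Ioc]
              have := min_le_left (n + b) L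
              omega
            have h7 : ((Ioc n (min (n + b) L)).card : ℝ) ≤ (b : ℝ) := by exact_mod_cast h6
            exact h7.trans hbr
          · exact mul_le_mul_of_nonneg_right (K7_count n L b hn'.2) he0
  have hX0 : 0 ≤ (L / M : ℝ) * (C' / L) + (L : ℝ) ^ (1 / 4 : ℝ) * e := by positivity
  calc ∑ n ∈ Icc b L, ∑ m ∈ Ioc n (min (n + b) L), pp R L n m
      ≤ ∑ n ∈ Icc b L, ((L / M : ℝ) * (C' / L) + (L : ℝ) ^ (1 / 4 : ℝ) * e) := sum_le_sum hinner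
    _ = ((Icc b L).card : ℝ) * ((L / M : ℝ) * (C' / L) + (L : ℝ) ^ (1 / 4 : ℝ) * e) := by
        rw [sum_const, nsmul_eq_mul]
    _ ≤ ((L : ℝ) + 1) * ((L / M : ℝ) * (C' / L) + (L : ℝ) ^ (1 / 4 : ℝ) * e) := by
        apply mul_le_mul_of_nonneg_right _ hX0
        have h6 : (Icc b L).card ≤ L + 1 := by
          rw [Nat.card_Icc]; omega
        exact_mod_cast h6
    _ = ((L : ℝ) + 1) * (C' / M) + ((L : ℝ) + 1) * ((L : ℝ) ^ (1 / 4 : ℝ) * e) := by
        field_simp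
    _ ≤ (2 * L) * (C' / M) + L / M := by
        apply add_le_add _ hev
        apply mul_le_mul_of_nonneg_right _ (by positivity)
        linarith
    _ = (2 * C' + 1) * L / M := by
        field_simp

end Pool.Agent.Lib.MP_de5eaa_nt.Poi
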