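import Pool.Agent.Lib.MP_de5eaa_nt.Poi.Defs
import Pool.Agent.Lib.MP_de5eaa_nt.Poi.B4
import Pool.Agent.Lib.MP_de5eaa_nt.Poi.I1
import Pool.Agent.Lib.MP_de5eaa_nt.Poi.I2
import Pool.Agent.Lib.MP_de5eaa_nt.Poi.I3
import Pool.Agent.Lib.MP_de5eaa_nt.Poi.I4
import Pool.Agent.Lib.MP_de5eaa_nt.Poi.K7

set_option autoImplicit false

namespace Pool.Agent.Lib.MP_de5eaa_nt.Poi

open Finset MeasureTheory Filter Topology
open Pool.Agent.Lib.MP_de5eaa_nt.Near (hs wq)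

/-- ROW I5. `C = 1 + lam^2 + 2 lam C0`, `C0` from `pairs_sum`. Let `M ≥ 2`, `lam ≤ M`; for `L` large: a `Blk` (`blk_exists`), `2R < L`,
`L < (L/M)^2` (`L/M ≥ L/(2M)` real), `M^2 ≤ L`. Apply `gf_blocks` with `U = UU (QQ L)` (`card = φ(QQ L)`, `card_UU`), `k = M - 1`, `Y = YY`, `D =
φ(QQ L) 4K/(L/M)^2` (`lin_inst`), `|A j| lam/L ≤ lam/M ≤ 1` (`blk_card_le`). The three error terms:
`2 D ∑ |A j| ≤ 2 φ 4K/(L/M)^2 L ≤ φ 32 K M^2/L ≤ φ/M` for `L` large; `φ ∑ (|A j| lam/L)^2 ≤ φ M (lam/M)^2 = φ lam^2/M`;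
`2 (lam/L) φ ∑∑ pp ≤ 2 (lam/L) φ C0 L/M` (`pair_inst`, `pairs_sum`). -/
theorem closeness (hT : Tendsto (fun x : ℕ => Chebyshev.theta x / (x : ℝ)) atTop (𝓝 1)) {J : Set ℝ} {lam K R : ℝ}
    (hJ : Nice J lam K R) : ∃ C : ℝ, 0 < C ∧ ∀ M : ℕ, 2 ≤ M → lam ≤ M → ∀ᶠ L : ℕ in atTop,
      ∃ (A : ℕ → Finset ℕ) (P P' : ℕ → ℕ), Blk L M A P P' ∧ ∀ x y : ℝ, 0 ≤ x → x ≤ 1 → 0 ≤ y → y ≤ 1 →
        |(∑ u ∈ UU (QQ L), gf J L ((range (M - 1)).biUnion A) (YY u) x * gf J L ((range (M - 1)).biUnion A) (YY u) y) -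
          ((QQ L).totient : ℝ) * ∏ j ∈ range (M - 1), (1 - (2 - x - y) * (((A j).card : ℝ) * (lam / L)))| ≤
          ((QQ L).totient : ℝ) * (C / M) := by
  obtain ⟨C0, hC0, hps⟩ := pairs_sum hT hJ.R0
  have hlam := hJ.lam0
  have hK := hJ.K0
  refine ⟨1 + lam ^ 2 + 2 * lam * C0, by positivity, fun M hM hlM => ?_⟩
  have hMR : (2 : ℝ) ≤ M := by exact_mod_cast hM
  have hM0 : (0 : ℝ) < M := by linarith
  filter_upwards [blk_exists hT hM, hps M hM, eventually_gt_atTop ⌈2 * R⌉₊,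
    eventually_gt_atTop (4 * M ^ 2), eventually_ge_atTop ⌈32 * K * (M : ℝ) ^ 3⌉₊] with L hB hpair hLR hL4 hLK
  obtain ⟨A, P, P', hB⟩ := hB
  refine ⟨A, P, P', hB, fun x y hx0 hx1 hy0 hy1 => ?_⟩
  have hLR' : 2 * R < (L : ℝ) := (Nat.le_ceil _).trans_lt (by exact_mod_cast hLR)
  have hLK' : 32 * K * (M : ℝ) ^ 3 ≤ (L : ℝ) := (Nat.le_ceil _).trans (by exact_mod_cast hLK)
  have hL4' : 4 * (M : ℝ) ^ 2 < (L : ℝ) := by exact_mod_cast hL4
  have hL0 : (0 : ℝ) < L := lt_of_le_of_lt (by positivity) hL4'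
  have hφ0 : (0 : ℝ) ≤ ((QQ L).totient : ℝ) := Nat.cast_nonneg _
  -- `N0 = L / M`
  obtain ⟨N0, hN0⟩ : ∃ N0 : ℕ, N0 = L / M := ⟨_, rfl⟩
  have hML : M ≤ L := by nlinarith
  have hN1 : 1 ≤ N0 := by
    rw [hN0]
    exact (Nat.one_le_div_iff (by omega)).2 hML
  have hN2 : (L : ℝ) / (2 * M) ≤ N0 := by
    have h1 : L < (N0 + 1) * M := by
      rw [hN0]
      exact Nat.lt_mul_of_div_lt (Nat.lt_succ_self _) (by omega)
    have h2 : (L : ℝ) < (N0 + 1) * M := by exact_mod_cast h1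
    have h3 : (1 : ℝ) ≤ N0 := by exact_mod_cast hN1
    rw [div_le_iff₀ (by positivity)]
    nlinarith
  have hN0pos : (0 : ℝ) < N0 := by
    have : 0 < N0 := hN1
    exact_mod_cast this
  have hN3 : (L : ℝ) ^ 2 ≤ 4 * (M : ℝ) ^ 2 * (N0 : ℝ) ^ 2 := by
    have h1 : (L : ℝ) ≤ 2 * M * N0 := by
      rw [div_le_iff₀ (by positivity)] at hN2
      linarith
    calc (L : ℝ) ^ 2 ≤ (2 * M * N0) ^ 2 := pow_le_pow_left₀ hL0.le h1 2
      _ = 4 * (M : ℝ) ^ 2 * (N0 : ℝ) ^ 2 := by ring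
  have hLN : L < (L / M) ^ 2 := by
    rw [← hN0]
    have h1 : 4 * (M : ℝ) ^ 2 * L < 4 * (M : ℝ) ^ 2 * (N0 : ℝ) ^ 2 := by
      calc 4 * (M : ℝ) ^ 2 * L < L * L := mul_lt_mul_of_pos_right hL4' hL0
        _ = (L : ℝ) ^ 2 := by ring
        _ ≤ _ := hN3
    have h2 : (L : ℝ) < (N0 : ℝ) ^ 2 := lt_of_mul_lt_mul_left h1 (by positivity)
    exact_mod_cast h2
  have hA1 : ∀ j < M - 1, ((A j).card : ℝ) * (lam / L) ≤ lam / M := by
    intro j hj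
    have h1 := blk_card_le hB (show j + 1 < M by omega)
    calc ((A j).card : ℝ) * (lam / L) ≤ (L : ℝ) / M * (lam / L) :=
          mul_le_mul_of_nonneg_right h1 (by positivity)
      _ = lam / M := by field_simp
  have hlM1 : lam / M ≤ 1 := by
    rw [div_le_one hM0]
    exact hlM
  have hcard : (UU (QQ L)).card = (QQ L).totient := rfl
  have main := gf_blocks (UU (QQ L)) (M - 1) A (blk_disj hB) YY hJ hLR' hx0 hx1 hy0 hy1
    (fun j hj => (hA1 j hj).trans hlM1)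
    (D := ((QQ L).totient : ℝ) * (4 * K / (((L / M : ℕ) : ℝ)) ^ 2))
    (fun j hj n hn t G hG0 hG1 hG =>
      lin_inst hB hM hLN hJ hLR' (show j + 1 < M by omega) hn t G hG0 hG1 hG)
  rw [hcard] at main
  refine main.trans ?_
  -- the first error
  have hsum : ∑ j ∈ range (M - 1), ((A j).card : ℝ) ≤ L := by
    calc ∑ j ∈ range (M - 1), ((A j).card : ℝ) ≤ ∑ _j ∈ range (M - 1), (L : ℝ) / M :=
          sum_le_sum fun j hj => blk_card_le hB (by rw [mem_range] at hj; omega)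
      _ = ((M - 1 : ℕ) : ℝ) * (L / M) := by rw [sum_const, card_range, nsmul_eq_mul]
      _ ≤ (M : ℝ) * (L / M) := by
          refine mul_le_mul_of_nonneg_right ?_ (by positivity)
          exact_mod_cast Nat.sub_le M 1
      _ = L := by field_simp
  have e1 : 2 * (((QQ L).totient : ℝ) * (4 * K / (((L / M : ℕ) : ℝ)) ^ 2)) *
      (∑ j ∈ range (M - 1), ((A j).card : ℝ)) ≤ ((QQ L).totient : ℝ) * (1 / M) := by
    have h1 : 8 * K * L / (N0 : ℝ) ^ 2 ≤ 1 / M := by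
      rw [div_le_div_iff₀ (by positivity) hM0]
      have h2 : 32 * K * (M : ℝ) ^ 3 * L ≤ (L : ℝ) * L := mul_le_mul_of_nonneg_right hLK' hL0.le
      have h3 : 4 * (M : ℝ) ^ 2 * (8 * K * L * M) ≤ 4 * (M : ℝ) ^ 2 * (1 * (N0 : ℝ) ^ 2) := by
        calc 4 * (M : ℝ) ^ 2 * (8 * K * L * M) = 32 * K * (M : ℝ) ^ 3 * L := by ring
          _ ≤ (L : ℝ) * L := h2
          _ = (L : ℝ) ^ 2 := by ring
          _ ≤ 4 * (M : ℝ) ^ 2 * (1 * (N0 : ℝ) ^ 2) := by rw [one_mul]; exact hN3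
      exact le_of_mul_le_mul_left h3 (by positivity)
    rw [← hN0]
    calc 2 * (((QQ L).totient : ℝ) * (4 * K / (N0 : ℝ) ^ 2)) *
        (∑ j ∈ range (M - 1), ((A j).card : ℝ)) ≤
        2 * (((QQ L).totient : ℝ) * (4 * K / (N0 : ℝ) ^ 2)) * L :=
          mul_le_mul_of_nonneg_left hsum (by positivity)
      _ = ((QQ L).totient : ℝ) * (8 * K * L / (N0 : ℝ) ^ 2) := by ring
      _ ≤ ((QQ L).totient : ℝ) * (1 / M) := mul_le_mul_of_nonneg_left h1 hφ0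
  -- the second error
  have e2 : ((QQ L).totient : ℝ) * (∑ j ∈ range (M - 1), (((A j).card : ℝ) * (lam / L)) ^ 2) ≤
      ((QQ L).totient : ℝ) * (lam ^ 2 / M) := by
    refine mul_le_mul_of_nonneg_left ?_ hφ0
    calc ∑ j ∈ range (M - 1), (((A j).card : ℝ) * (lam / L)) ^ 2 ≤
        ∑ _j ∈ range (M - 1), (lam / M) ^ 2 :=
          sum_le_sum fun j hj => pow_le_pow_left₀ (by positivity) (hA1 j (mem_range.1 hj)) 2
      _ = ((M - 1 : ℕ) : ℝ) * (lam / M) ^ 2 := by rw [sum_const, card_range, nsmul_eq_mul]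
      _ ≤ (M : ℝ) * (lam / M) ^ 2 := by
          refine mul_le_mul_of_nonneg_right ?_ (by positivity)
          exact_mod_cast Nat.sub_le M 1
      _ = lam ^ 2 / M := by field_simp
  -- the third error
  have e3 : 2 * (lam / L) * (∑ j ∈ range (M - 1), ∑ n ∈ A j, ∑ m ∈ (A j).filter (n < ·),
      ∑ u ∈ UU (QQ L), hI (Set.Icc (-(2 * R)) (2 * R)) L 0 (YY u m - YY u n)) ≤
      ((QQ L).totient : ℝ) * (2 * lam * C0 / M) := by
    have h1 := (pair_inst hB hM R).trans (mul_le_mul_of_nonneg_left hpair hφ0)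
    calc 2 * (lam / L) * (∑ j ∈ range (M - 1), ∑ n ∈ A j, ∑ m ∈ (A j).filter (n < ·),
          ∑ u ∈ UU (QQ L), hI (Set.Icc (-(2 * R)) (2 * R)) L 0 (YY u m - YY u n)) ≤
        2 * (lam / L) * (((QQ L).totient : ℝ) * (C0 * L / M)) :=
          mul_le_mul_of_nonneg_left h1 (by positivity)
      _ = ((QQ L).totient : ℝ) * (2 * lam * C0 / M) := by field_simp
  calc _ ≤ ((QQ L).totient : ℝ) * (1 / M) + ((QQ L).totient : ℝ) * (lam ^ 2 / M) +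
        ((QQ L).totient : ℝ) * (2 * lam * C0 / M) := add_le_add (add_le_add e1 e2) e3
    _ = ((QQ L).totient : ℝ) * ((1 + lam ^ 2 + 2 * lam * C0) / M) := by ring

end Pool.Agent.Lib.MP_de5eaa_nt.Poi
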