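import Pool.Agent.Lib.MP_de5eaa_nt.Poi.Defs

set_option autoImplicit false

namespace Pool.Agent.Lib.MP_de5eaa_nt.Poi

open Finset MeasureTheory Filter Topology
open Pool.Agent.Lib.MP_de5eaa_nt.Near (hs wq)

theorem I6_prod (b : ℕ → ℝ) (c η : ℝ) (hc0 : 0 ≤ c) (hc1 : c ≤ 1) (n : ℕ)
    (h : ∀ j, j < n → 0 ≤ b j ∧ b j ≤ 1 ∧ |b j - c| ≤ η) :
    (0 ≤ ∏ j ∈ range n, b j) ∧ (∏ j ∈ range n, b j ≤ 1) ∧
      |(∏ j ∈ range n, b j) - c ^ n| ≤ n * η := by
  induction n with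
  | zero => simp
  | succ n ih =>
    obtain ⟨h1, h2, h3⟩ := ih fun j hj => h j (by omega)
    obtain ⟨g1, g2, g3⟩ := h n (by omega)
    rw [Finset.prod_range_succ]
    refine ⟨mul_nonneg h1 g1, mul_le_one₀ h2 g1 g2, ?_⟩
    have e : (∏ j ∈ range n, b j) * b n - c ^ (n + 1) =
        ((∏ j ∈ range n, b j) - c ^ n) * b n + c ^ n * (b n - c) := by ring
    rw [e]
    have k1 : |((∏ j ∈ range n, b j) - c ^ n) * b n| ≤ n * η := by
      rw [abs_mul, abs_of_nonneg g1]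
      calc |(∏ j ∈ range n, b j) - c ^ n| * b n ≤ |(∏ j ∈ range n, b j) - c ^ n| * 1 :=
            mul_le_mul_of_nonneg_left g2 (abs_nonneg _)
        _ ≤ n * η := by rw [mul_one]; exact h3
    have k2 : |c ^ n * (b n - c)| ≤ η := by
      rw [abs_mul, abs_of_nonneg (pow_nonneg hc0 n)]
      calc c ^ n * |b n - c| ≤ 1 * |b n - c| :=
            mul_le_mul_of_nonneg_right (pow_le_one₀ hc0 hc1) (abs_nonneg _)
        _ ≤ η := by rw [one_mul]; exact g3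
    calc |((∏ j ∈ range n, b j) - c ^ n) * b n + c ^ n * (b n - c)|
        ≤ |((∏ j ∈ range n, b j) - c ^ n) * b n| + |c ^ n * (b n - c)| := abs_add_le _ _
      _ ≤ n * η + η := add_le_add k1 k2
      _ = ((n + 1 : ℕ) : ℝ) * η := by push_cast; ring

/-- ROW I6 (numerics). Compare with `∏_{j<M-1} e^{-z lam/M} = e^{-z lam (M-1)/M}`. For `M` large all the factors
`1 - z a j` and `e^{-z lam/M}` are in `[0,1]`, and `|1 - z a j - e^{-z lam/M}| ≤ z |a j - lam/M| + |1 - s - e^{-s}|` with `s = z lam/M`, which is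
`≤ 8 lam/M^2 + s^2 ≤ (8 lam + 4 lam^2)/M^2` (`Real.one_sub_le_exp_neg`, `Real.abs_exp_sub_one_sub_id_le` for `s ≤ 1`). The difference of two
products of numbers in `[0,1]` is at most the sum of the differences: `≤ M (8 lam + 4 lam^2)/M^2`
(`Finset.abs_prod_sub_prod_le`-like; induction, or `norm_prod_sub_prod...`). And `|e^{-z lam (M-1)/M} - e^{-z lam}| ≤ z lam/M ≤ 2 lam/M`. -/
theorem kap_prod {lam ε : ℝ} (hlam : 0 ≤ lam) (hε : 0 < ε) : ∃ M0 : ℕ, ∀ M : ℕ, M0 ≤ M → ∀ a : ℕ → ℝ,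
    (∀ j, j + 1 < M → |a j - lam / M| ≤ 4 * lam / (M : ℝ) ^ 2) → ∀ z : ℝ, 0 ≤ z → z ≤ 2 →
      |(∏ j ∈ range (M - 1), (1 - z * a j)) - Real.exp (-(lam * z))| ≤ ε := by
  refine ⟨4 + ⌈4 * lam⌉₊ + ⌈(10 * lam + 4 * lam ^ 2) / ε⌉₊, ?_⟩
  intro M hM a ha z hz0 hz2
  have hM4 : (4 : ℝ) ≤ M := by
    have : 4 ≤ M := by omega
    exact_mod_cast this
  have hM0 : (0 : ℝ) < M := by linarith
  have hMl : 4 * lam ≤ M := by
    have h1 : 4 * lam ≤ (⌈4 * lam⌉₊ : ℝ) := Nat.le_ceil _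
    have h2 : (⌈4 * lam⌉₊ : ℝ) ≤ M := by
      have : ⌈4 * lam⌉₊ ≤ M := by omega
      exact_mod_cast this
    linarith
  have hMe : (10 * lam + 4 * lam ^ 2) / M ≤ ε := by
    have h1 : (10 * lam + 4 * lam ^ 2) / ε ≤ (⌈(10 * lam + 4 * lam ^ 2) / ε⌉₊ : ℝ) :=
      Nat.le_ceil _
    have h2 : (⌈(10 * lam + 4 * lam ^ 2) / ε⌉₊ : ℝ) ≤ M := by
      have : ⌈(10 * lam + 4 * lam ^ 2) / ε⌉₊ ≤ M := by omega
      exact_mod_cast this
    have h3 : (10 * lam + 4 * lam ^ 2) / ε ≤ M := h1.trans h2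
    rw [div_le_iff₀ hε] at h3
    rw [div_le_iff₀ hM0]
    linarith
  set x : ℝ := lam / M with hx
  have hx0 : 0 ≤ x := div_nonneg hlam hM0.le
  have hx4 : 4 * x ≤ 1 := by
    have h1 : 4 * x = 4 * lam / M := by rw [hx]; ring
    rw [h1]
    exact (div_le_one hM0).2 hMl
  have hd : 4 * lam / (M : ℝ) ^ 2 = 4 * x / M := by
    rw [hx]
    field_simp
  have hd1 : 4 * x / M ≤ x := by
    rw [div_le_iff₀ hM0]
    have := mul_le_mul_of_nonneg_left hM4 hx0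
    linarith
  have hd0 : 0 ≤ 4 * x / M := by positivity
  set s : ℝ := z * x with hs
  have hs0 : 0 ≤ s := mul_nonneg hz0 hx0
  have hs2 : s ≤ 2 * x := mul_le_mul_of_nonneg_right hz2 hx0
  set c : ℝ := Real.exp (-s) with hc
  have hc0 : 0 ≤ c := (Real.exp_pos _).le
  have hc1 : c ≤ 1 := Real.exp_le_one_iff.2 (by linarith)
  have hexp : |1 - s - c| ≤ s ^ 2 := by
    have h1 : |Real.exp (-s) - 1 - (-s)| ≤ (-s) ^ 2 :=
      Real.abs_exp_sub_one_sub_id_le (by rw [abs_neg, abs_of_nonneg hs0]; linarith)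
    have h2 : 1 - s - c = -(Real.exp (-s) - 1 - (-s)) := by rw [hc]; ring
    rw [h2, abs_neg]
    calc |Real.exp (-s) - 1 - (-s)| ≤ (-s) ^ 2 := h1
      _ = s ^ 2 := by ring
  set η : ℝ := 2 * (4 * x / M) + s ^ 2 with hη
  have hb : ∀ j, j < M - 1 → 0 ≤ 1 - z * a j ∧ 1 - z * a j ≤ 1 ∧ |1 - z * a j - c| ≤ η := by
    intro j hj
    have h1 := ha j (by omega)
    rw [hd] at h1
    have h2 := abs_le.1 h1
    have h3 : 0 ≤ a j := by linarith [h2.1]
    have h4 : a j ≤ 2 * x := by linarith [h2.2]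
    have h5 : z * a j ≤ 2 * (2 * x) := mul_le_mul hz2 h4 h3 (by norm_num)
    refine ⟨by linarith, by linarith [mul_nonneg hz0 h3], ?_⟩
    have h6 : 1 - z * a j - c = -(z * (a j - x)) + (1 - s - c) := by rw [hs]; ring
    rw [h6]
    calc |-(z * (a j - x)) + (1 - s - c)| ≤ |-(z * (a j - x))| + |1 - s - c| := abs_add_le _ _
      _ ≤ 2 * (4 * x / M) + s ^ 2 := by
          refine add_le_add ?_ hexp
          rw [abs_neg, abs_mul, abs_of_nonneg hz0]
          exact mul_le_mul hz2 h1 (abs_nonneg _) (by norm_num)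
  obtain ⟨_, _, hp⟩ := I6_prod (fun j => 1 - z * a j) c η hc0 hc1 (M - 1) hb
  have hη0 : 0 ≤ η := by positivity
  have hcast : ((M - 1 : ℕ) : ℝ) = M - 1 := by
    rw [Nat.cast_sub (by omega : 1 ≤ M), Nat.cast_one]
  have hp1 : ((M - 1 : ℕ) : ℝ) * η ≤ (8 * lam + 4 * lam ^ 2) / M := by
    have h1 : ((M - 1 : ℕ) : ℝ) * η ≤ M * η := by
      refine mul_le_mul_of_nonneg_right ?_ hη0
      rw [hcast]; linarith
    have h2 : s ^ 2 ≤ 4 * x ^ 2 := by
      have := pow_le_pow_left₀ hs0 hs2 2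
      calc s ^ 2 ≤ (2 * x) ^ 2 := this
        _ = 4 * x ^ 2 := by ring
    have h3 : M * η ≤ M * (2 * (4 * x / M) + 4 * x ^ 2) := by
      refine mul_le_mul_of_nonneg_left ?_ hM0.le
      rw [hη]; linarith
    have h4 : M * (2 * (4 * x / M) + 4 * x ^ 2) = (8 * lam + 4 * lam ^ 2) / M := by
      rw [hx]
      field_simp
      ring
    linarith
  have hq : |c ^ (M - 1) - Real.exp (-(lam * z))| ≤ 2 * lam / M := by
    have h1 : Real.exp (-(lam * z)) = c ^ (M - 1) * c := by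
      rw [← pow_succ, hc, ← Real.exp_nat_mul]
      congr 1
      have h2 : M - 1 + 1 = M := by omega
      rw [h2, hs, hx]
      field_simp
    rw [h1]
    have h2 : c ^ (M - 1) - c ^ (M - 1) * c = c ^ (M - 1) * (1 - c) := by ring
    rw [h2, abs_mul, abs_of_nonneg (pow_nonneg hc0 _), abs_of_nonneg (by linarith : 0 ≤ 1 - c)]
    have h3 : 1 - c ≤ s := by
      have := Real.add_one_le_exp (-s)
      rw [hc]; linarith
    calc c ^ (M - 1) * (1 - c) ≤ 1 * s :=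
          mul_le_mul (pow_le_one₀ hc0 hc1) h3 (by linarith) (by norm_num)
      _ ≤ 2 * x := by linarith
      _ = 2 * lam / M := by rw [hx]; ring
  have htot : (8 * lam + 4 * lam ^ 2) / M + 2 * lam / M = (10 * lam + 4 * lam ^ 2) / M := by
    rw [← add_div]
    congr 1
    ring
  calc |(∏ j ∈ range (M - 1), (1 - z * a j)) - Real.exp (-(lam * z))|
      = |((∏ j ∈ range (M - 1), (1 - z * a j)) - c ^ (M - 1)) +
          (c ^ (M - 1) - Real.exp (-(lam * z)))| := by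
        congr 1
        ring
    _ ≤ |(∏ j ∈ range (M - 1), (1 - z * a j)) - c ^ (M - 1)| +
          |c ^ (M - 1) - Real.exp (-(lam * z))| := abs_add_le _ _
    _ ≤ (8 * lam + 4 * lam ^ 2) / M + 2 * lam / M := add_le_add (hp.trans hp1) hq
    _ ≤ ε := by rw [htot]; exact hMe

end Pool.Agent.Lib.MP_de5eaa_nt.Poi
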