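import Pool.Agent.Lib.MP_de5eaa_nt.Poi.Defs
import Pool.Agent.Lib.MP_de5eaa_nt.Poi.I5
import Pool.Agent.Lib.MP_de5eaa_nt.Poi.I6
import Pool.Agent.Lib.MP_de5eaa_nt.Poi.B5

set_option autoImplicit false

namespace Pool.Agent.Lib.MP_de5eaa_nt.Poi

open Finset MeasureTheory Filter Topology
open Pool.Agent.Lib.MP_de5eaa_nt.Near (hs wq)

theorem I7_step {Q : Finset ℕ} {T φ : ℝ} (hφ : (Q.card : ℝ) = φ) (hφ0 : 0 < φ) (a a' b b' : ℕ → ℝ) (δ pr e ε : ℝ)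
    (ha : ∀ u ∈ Q, |a u - a' u| ≤ δ) (hb : ∀ u ∈ Q, |b u - b' u| ≤ δ) (ha0 : ∀ u ∈ Q, 0 ≤ a' u ∧ a' u ≤ 1)
    (hb0 : ∀ u ∈ Q, 0 ≤ b u ∧ b u ≤ 1) (hδ : 2 * δ ≤ ε / 4)
    (hT : |(∑ u ∈ Q, a' u * b' u) - φ * pr| ≤ φ * T) (hT' : T ≤ ε / 4) (he : |pr - e| ≤ ε / 4) (hε : 0 < ε) :
    |(∑ u ∈ Q, a u * b u) / φ - e| ≤ ε := by
  have h1 : |(∑ u ∈ Q, a u * b u) - ∑ u ∈ Q, a' u * b' u| ≤ φ * (ε / 4) := by
    rw [← Finset.sum_sub_distrib]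
    refine (Finset.abs_sum_le_sum_abs _ _).trans ?_
    have h2 : ∀ u ∈ Q, |a u * b u - a' u * b' u| ≤ ε / 4 := by
      intro u hu
      have e1 : a u * b u - a' u * b' u = (a u - a' u) * b u + a' u * (b u - b' u) := by ring
      rw [e1]
      refine (abs_add_le _ _).trans ?_
      rw [abs_mul, abs_mul, abs_of_nonneg (hb0 u hu).1, abs_of_nonneg (ha0 u hu).1]
      have h3 : |a u - a' u| * b u ≤ δ * 1 :=
        mul_le_mul (ha u hu) (hb0 u hu).2 (hb0 u hu).1 ((abs_nonneg _).trans (ha u hu))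
      have h4 : a' u * |b u - b' u| ≤ 1 * δ :=
        mul_le_mul (ha0 u hu).2 (hb u hu) (abs_nonneg _) zero_le_one
      linarith
    refine (Finset.sum_le_sum h2).trans (le_of_eq ?_)
    rw [Finset.sum_const, nsmul_eq_mul, hφ]
  have h5 : |φ * pr - φ * e| ≤ φ * (ε / 4) := by
    rw [← mul_sub, abs_mul, abs_of_pos hφ0]
    exact mul_le_mul_of_nonneg_left he hφ0.le
  have h6 : φ * T ≤ φ * (ε / 4) := mul_le_mul_of_nonneg_left hT' hφ0.le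
  have h7 : (∑ u ∈ Q, a u * b u) / φ - e = ((∑ u ∈ Q, a u * b u) - φ * e) / φ := by
    field_simp
  rw [h7, abs_div, abs_of_pos hφ0, div_le_iff₀ hφ0]
  have h8 : (∑ u ∈ Q, a u * b u) - φ * e = ((∑ u ∈ Q, a u * b u) - ∑ u ∈ Q, a' u * b' u) +
      (((∑ u ∈ Q, a' u * b' u) - φ * pr) + (φ * pr - φ * e)) := by ring
  rw [h8]
  refine (abs_add_le _ _).trans ?_
  have h9 := abs_add_le ((∑ u ∈ Q, a' u * b' u) - φ * pr) (φ * pr - φ * e)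
  have h10 : 0 < φ * ε := by positivity
  linarith

/-- ROW I7 (Theorem A). Fix `M` large (`M ≥ 2`, `M ≥ lam`, `C/M ≤ ε/4`, `6 lam/M ≤ ε/4`, and `M ≥ M0` of `kap_prod` with `ε/4`), then `L` large.
With `A' = (range (M-1)).biUnion A ⊆ I = Icc 1 L`: `|gf_I x gf_I y - gf_{A'} x gf_{A'} y| ≤ |gf_I x - gf_{A'} x| + |gf_I y - gf_{A'} y|
≤ 2 (L - |A'|) lam/L ≤ 6 lam/M` (`gf_diff`, `gf_le_one`, `blk_card_union`). `closeness`, and `kap_prod` for `a j = |A j| lam/L`, `z = 2 - x - y`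
(`|a j - lam/M| ≤ 2 lam/M^2` by `blk_card_le`, `blk_card_ge`). Divide by `φ(QQ L) > 0`. -/
theorem theoremA (hT : Tendsto (fun x : ℕ => Chebyshev.theta x / (x : ℝ)) atTop (𝓝 1)) {J : Set ℝ} {lam K R : ℝ}
    (hJ : Nice J lam K R) {ε : ℝ} (hε : 0 < ε) : ∀ᶠ L : ℕ in atTop, ∀ x y : ℝ, 0 ≤ x → x ≤ 1 → 0 ≤ y → y ≤ 1 →
      |(∑ u ∈ UU (QQ L), gf J L (Icc 1 L) (YY u) x * gf J L (Icc 1 L) (YY u) y) / ((QQ L).totient : ℝ) -
        Real.exp (-(lam * (2 - x - y)))| ≤ ε := by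
  obtain ⟨C, hC, hcl⟩ := closeness hT hJ
  have hlam := hJ.lam0
  obtain ⟨M0, hM0⟩ := kap_prod hlam (show 0 < ε / 4 by positivity)
  obtain ⟨M, hM⟩ : ∃ M : ℕ, 2 ≤ M ∧ M0 ≤ M ∧ lam ≤ M ∧ 4 * C / ε ≤ M ∧ 24 * lam / ε ≤ M := by
    refine ⟨2 + M0 + ⌈lam⌉₊ + ⌈4 * C / ε⌉₊ + ⌈24 * lam / ε⌉₊, by omega, by omega, ?_, ?_, ?_⟩
    · refine (Nat.le_ceil lam).trans ?_
      exact_mod_cast (by omega : ⌈lam⌉₊ ≤ 2 + M0 + ⌈lam⌉₊ + ⌈4 * C / ε⌉₊ + ⌈24 * lam / ε⌉₊)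
    · refine (Nat.le_ceil (4 * C / ε)).trans ?_
      exact_mod_cast (by omega : ⌈4 * C / ε⌉₊ ≤ 2 + M0 + ⌈lam⌉₊ + ⌈4 * C / ε⌉₊ + ⌈24 * lam / ε⌉₊)
    · refine (Nat.le_ceil (24 * lam / ε)).trans ?_
      exact_mod_cast (by omega : ⌈24 * lam / ε⌉₊ ≤ 2 + M0 + ⌈lam⌉₊ + ⌈4 * C / ε⌉₊ + ⌈24 * lam / ε⌉₊)
  obtain ⟨hM2, hMM0, hMlam, hMC, hMl⟩ := hM
  have hMpos : (0 : ℝ) < M := by exact_mod_cast (by omega : 0 < M)
  have hCM : C / M ≤ ε / 4 := by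
    rw [div_le_iff₀ hε] at hMC
    rw [div_le_iff₀ hMpos]
    linarith
  have hlM : 6 * lam / M ≤ ε / 4 := by
    rw [div_le_iff₀ hε] at hMl
    rw [div_le_iff₀ hMpos]
    linarith
  filter_upwards [hcl M hM2 hMlam, eventually_ge_atTop (M ^ 2), eventually_gt_atTop ⌈2 * R⌉₊] with L hL hLM hLR
  intro x y hx0 hx1 hy0 hy1
  obtain ⟨A, P, P', hB, hA⟩ := hL
  have hLpos : (0 : ℝ) < L := by
    have : 0 < L := lt_of_lt_of_le (by positivity) hLM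
    exact_mod_cast this
  have h2R : 2 * R < L := by
    refine (Nat.le_ceil (2 * R)).trans_lt ?_
    exact_mod_cast hLR
  have hφ0 : (0 : ℝ) < ((QQ L).totient : ℝ) := by
    exact_mod_cast Nat.totient_pos.2 (QQ_pos L)
  have hsub := blk_sub hB hM2
  have hcu := blk_card_union hB hM2 hLM
  have hIc : ((Icc 1 L).card : ℝ) = L := by
    rw [Nat.card_Icc]
    norm_num
  have hδ : ∀ (u : ℕ) {w : ℝ}, 0 ≤ w → w ≤ 1 →
      |gf J L (Icc 1 L) (YY u) w - gf J L ((range (M - 1)).biUnion A) (YY u) w| ≤ 3 * lam / M := by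
    intro u w hw0 hw1
    refine (gf_diff hJ h2R hsub (YY u) hw0 hw1).trans ?_
    rw [hIc]
    have h1 : (L : ℝ) - ((range (M - 1)).biUnion A).card ≤ 3 * L / M := by linarith
    have h2 : (0 : ℝ) ≤ lam / L := by positivity
    refine (mul_le_mul_of_nonneg_right h1 h2).trans (le_of_eq ?_)
    field_simp
  have hpr := hM0 M hMM0 (fun j => ((A j).card : ℝ) * (lam / L)) (fun j hj => by
    have h1 := blk_card_le hB hj
    have h2 := blk_card_ge hB hM2 hLM hj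
    have h3 : (0 : ℝ) ≤ lam / L := by positivity
    have h4 := mul_le_mul_of_nonneg_right h1 h3
    have h5 := mul_le_mul_of_nonneg_right h2 h3
    have e1 : (L : ℝ) / M * (lam / L) = lam / M := by field_simp
    have e2 : ((L : ℝ) / M - 2 * L / (M : ℝ) ^ 2) * (lam / L) = lam / M - 2 * lam / (M : ℝ) ^ 2 := by
      field_simp
    rw [e1] at h4
    rw [e2] at h5
    have h6 : 0 ≤ lam / (M : ℝ) ^ 2 := by positivity
    have e3 : 2 * lam / (M : ℝ) ^ 2 = 2 * (lam / (M : ℝ) ^ 2) := by ring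
    have e4 : 4 * lam / (M : ℝ) ^ 2 = 4 * (lam / (M : ℝ) ^ 2) := by ring
    rw [e3] at h5
    rw [e4, abs_le]
    constructor
    · linarith
    · linarith) (2 - x - y) (by linarith) (by linarith)
  refine I7_step (T := C / M) (by rw [card_UU]) hφ0 _ (fun u => gf J L ((range (M - 1)).biUnion A) (YY u) x) _
    (fun u => gf J L ((range (M - 1)).biUnion A) (YY u) y) (3 * lam / M) _ _ ε (fun u _ => hδ u hx0 hx1)
    (fun u _ => hδ u hy0 hy1)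
    (fun u _ => ⟨gf_nonneg _ _ _ hx0, gf_le_one hJ.meas _ _ _ hx0 hx1⟩)
    (fun u _ => ⟨gf_nonneg _ _ _ hy0, gf_le_one hJ.meas _ _ _ hy0 hy1⟩) ?_ (hA x y hx0 hx1 hy0 hy1) hCM hpr hε
  have e5 : 2 * (3 * lam / M) = 6 * lam / M := by ring
  rw [e5]
  exact hlM

end Pool.Agent.Lib.MP_de5eaa_nt.Poi
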