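import Pool.Agent.Lib.MP_de5eaa_nt.Poi.Defs
import Pool.Agent.Lib.MP_de5eaa_nt.Poi.I7
import Pool.Agent.Lib.MP_de5eaa_nt.Poi.C1
import Pool.Agent.Lib.MP_de5eaa_nt.Poi.C2
import Pool.Agent.Lib.MP_de5eaa_nt.Poi.C3

set_option autoImplicit false

namespace Pool.Agent.Lib.MP_de5eaa_nt.Poi

open Finset MeasureTheory Filter Topology
open Pool.Agent.Lib.MP_de5eaa_nt.Near (hs wq)

open Classical in
/-- ROW C4. `inversion` gives a finite set `X` and `δ`. For `x ∈ X` let `e = exp(-(lam (1-x))) ∈ [0,1]`, `ε' = min δ (ε/(|X|+1))`. By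
`theoremA` (with `ε'^3/3`) with `(x, x)` and `(x, 1)` (`gf_one`), for `L` large: `cheb_var` for `f u = gf J L (Icc 1 L) (YY u) x` (`f^2 = f * f`,
`e^2 = exp(-(lam (2-x-x)))`): at most `ε' φ(QQ L)` of the `u` have `|gf x - e| > ε'`. So all but `|X| ε' φ ≤ ε φ` of the `u` satisfy
`|gf x - e| ≤ δ` for all `x ∈ X`, and for these `inversion` with `q = pv J L (Icc 1 L) (YY u)`, `N = L` (`gf_eq`, `pv_nonneg`, `pv_le_one`,
`pv_zero`). -/
theorem finite_poisson (hT : Tendsto (fun x : ℕ => Chebyshev.theta x / (x : ℝ)) atTop (𝓝 1)) {J : Set ℝ} {lam K R : ℝ}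
    (hJ : Nice J lam K R) (r : ℕ) {ε : ℝ} (hε : 0 < ε) : ∀ᶠ L : ℕ in atTop,
      (((UU (QQ L)).filter fun u => ε < |pv J L (Icc 1 L) (YY u) r -
        Real.exp (-lam) * lam ^ r / (Nat.factorial r : ℝ)|).card : ℝ) ≤ ε * ((QQ L).totient : ℝ) := by
  obtain ⟨X, hX, δ, hδ, hinv⟩ := inversion hJ.lam0 r hε
  set ε' : ℝ := min δ (ε / ((X.card : ℝ) + 1)) with hε'
  have hX1 : (0 : ℝ) < (X.card : ℝ) + 1 := by positivity
  have hε'0 : 0 < ε' := lt_min hδ (div_pos hε hX1)
  have hε'δ : ε' ≤ δ := min_le_left _ _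
  have hε'ε : (X.card : ℝ) * ε' ≤ ε := by
    have h1 : ε' ≤ ε / ((X.card : ℝ) + 1) := min_le_right _ _
    have h2 : ε' * ((X.card : ℝ) + 1) ≤ ε := (le_div_iff₀ hX1).1 h1
    nlinarith
  have hδ' : 0 < ε' ^ 3 / 3 := by positivity
  filter_upwards [theoremA hT hJ hδ'] with L hL
  have hcard : ((UU (QQ L)).card : ℝ) = ((QQ L).totient : ℝ) := by rw [card_UU]
  set B : ℝ → Finset ℕ := fun x => (UU (QQ L)).filter fun u =>
    ε' < |gf J L (Icc 1 L) (YY u) x - Real.exp (-(lam * (1 - x)))| with hB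
  have hBx : ∀ x ∈ X, ((B x).card : ℝ) ≤ ε' * ((QQ L).totient : ℝ) := by
    intro x hx
    obtain ⟨hx0, hx1⟩ := hX x hx
    have he1 : Real.exp (-(lam * (1 - x))) ≤ 1 := by
      rw [Real.exp_le_one_iff]
      have : 0 ≤ lam * (1 - x) := mul_nonneg hJ.lam0 (by linarith)
      linarith
    have h2 := hL x x hx0 hx1 hx0 hx1
    have h1 := hL x 1 hx0 hx1 zero_le_one le_rfl
    have e2 : Real.exp (-(lam * (2 - x - x))) = Real.exp (-(lam * (1 - x))) ^ 2 := by
      rw [← Real.exp_nat_mul]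
      congr 1
      push_cast
      ring
    have e1 : Real.exp (-(lam * (2 - x - 1))) = Real.exp (-(lam * (1 - x))) := by
      congr 1
      ring
    rw [e2] at h2
    rw [e1] at h1
    simp only [gf_one, mul_one] at h1
    have h3 := cheb_var (UU (QQ L)) (fun u => gf J L (Icc 1 L) (YY u) x) (Real.exp_nonneg _) he1 hε'0
      (δ := ε' ^ 3 / 3) (by linarith)
      (by
        rw [hcard]
        simpa only [pow_two] using h2)
      (by
        rw [hcard]
        exact h1)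
    rw [hcard] at h3
    exact h3
  have hsub : ((UU (QQ L)).filter fun u => ε < |pv J L (Icc 1 L) (YY u) r -
      Real.exp (-lam) * lam ^ r / (Nat.factorial r : ℝ)|) ⊆ X.biUnion B := by
    intro u hu
    obtain ⟨huU, hu'⟩ := Finset.mem_filter.1 hu
    by_contra hcon
    rw [Finset.mem_biUnion] at hcon
    push Not at hcon
    refine absurd (hinv L (fun i => pv J L (Icc 1 L) (YY u) i) (fun i => pv_nonneg _ _ _ _ i)
      (fun i => pv_le_one _ _ _ _ i) (fun i hi => pv_zero _ _ _ _ (by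
        rw [Nat.card_Icc]
        omega)) ?_) (not_le.2 hu')
    intro x hx
    have h1 := hcon x hx
    rw [hB, Finset.mem_filter, not_and, not_lt] at h1
    have h2 := gf_eq hJ.meas (L : ℝ) (Icc 1 L) (YY u) x
    rw [Nat.card_Icc, Nat.add_sub_cancel] at h2
    rw [← h2]
    exact (h1 huU).trans hε'δ
  calc (((UU (QQ L)).filter fun u => ε < |pv J L (Icc 1 L) (YY u) r -
        Real.exp (-lam) * lam ^ r / (Nat.factorial r : ℝ)|).card : ℝ)
      ≤ ((X.biUnion B).card : ℝ) := by exact_mod_cast Finset.card_le_card hsub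
    _ ≤ ∑ x ∈ X, ((B x).card : ℝ) := by
        have h1 : (X.biUnion B).card ≤ ∑ x ∈ X, (B x).card := Finset.card_biUnion_le
        exact_mod_cast h1
    _ ≤ ∑ x ∈ X, ε' * ((QQ L).totient : ℝ) := Finset.sum_le_sum hBx
    _ = (X.card : ℝ) * ε' * ((QQ L).totient : ℝ) := by
        rw [Finset.sum_const, nsmul_eq_mul]
        ring
    _ ≤ ε * ((QQ L).totient : ℝ) := mul_le_mul_of_nonneg_right hε'ε (Nat.cast_nonneg _)

end Pool.Agent.Lib.MP_de5eaa_nt.Poi
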