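import Pool.Agent.Lib.MP_de5eaa_nt.Near.N1

/-! Definitions for the Poisson statistics of the Wilson quotients.

`J` is a bounded set of real numbers (a finite union of intervals), `L` the number of the points, `y n` (`n ∈ I`) the
points modulo one. `cnt J L I y t` is the number of the points in the small set `t + J / L` modulo one. -/

set_option autoImplicit false

namespace Pool.Agent.Lib.MP_de5eaa_nt.Poi

open Finset MeasureTheory
open Pool.Agent.Lib.MP_de5eaa_nt.Near (hs wq)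

/-- `y` is in `t + J / L` modulo one -/
def Hit (J : Set ℝ) (L t y : ℝ) : Prop := ∃ a : ℤ, L * (y - t - a) ∈ J

open Classical in
/-- the indicator function of `Hit` -/
noncomputable def hI (J : Set ℝ) (L t y : ℝ) : ℝ := if Hit J L t y then 1 else 0

open Classical in
/-- the number of the `n ∈ I` with `y n ∈ t + J / L` modulo one -/
noncomputable def cnt (J : Set ℝ) (L : ℝ) (I : Finset ℕ) (y : ℕ → ℝ) (t : ℝ) : ℕ :=
  (I.filter fun n => Hit J L t (y n)).card

/-- the generating function of the number of the points -/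
noncomputable def gf (J : Set ℝ) (L : ℝ) (I : Finset ℕ) (y : ℕ → ℝ) (x : ℝ) : ℝ :=
  ∫ t in (0 : ℝ)..1, x ^ cnt J L I y t

/-- the least common multiple of `1, ..., L` -/
def QQ (L : ℕ) : ℕ := (Icc 1 L).lcm id

/-- the reduced residues modulo `Q` -/
def UU (Q : ℕ) : Finset ℕ := (range Q).filter Q.Coprime

/-- the points: `-u (1 + 1/2 + ... + 1/(n-1))` -/
noncomputable def YY (u n : ℕ) : ℝ := -((u : ℝ) * ((hs 1 n : ℚ) : ℝ))

/-- the average over `u` of the indicator function of `u (1/n + ... + 1/(m-1))` being within `2R/L` of an integer -/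
noncomputable def pp (R : ℝ) (L n m : ℕ) : ℝ :=
  (∑ u ∈ UU (QQ L), hI (Set.Icc (-(2 * R)) (2 * R)) L 0 ((u : ℝ) * ((hs n m : ℚ) : ℝ))) / ((QQ L).totient : ℝ)

/-- the part of `choose N h` composed of the primes greater than `h` -/
def rough (h N : ℕ) : ℕ :=
  ∏ q ∈ (N.choose h).primeFactors.filter (h < ·), q ^ (N.choose h).factorization q

/-- what we use about `J` -/
structure Nice (J : Set ℝ) (lam K R : ℝ) : Prop where
  meas : MeasurableSet J
  lam0 : 0 ≤ lam
  K0 : 0 ≤ K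
  R0 : 0 ≤ R
  sub : J ⊆ Set.Icc (-R) R
  vol : volume J = ENNReal.ofReal lam
  grid : ∀ h : ℝ, 0 < h → ∀ c : ℝ, {m : ℤ | c + m * h ∈ J}.Finite ∧
    |(({m : ℤ | c + m * h ∈ J}.ncard : ℕ) : ℝ) - lam / h| ≤ K
  pert : ∀ δ : ℝ, volume {s | ¬ (s ∈ J ↔ s + δ ∈ J)} ≤ ENNReal.ofReal (2 * K * |δ|)

/-- a finite union of closed intervals -/
def Jset (k : ℕ) (c : ℕ → ℝ) : Set ℝ := {s | ∃ i < k, c (2 * i) ≤ s ∧ s ≤ c (2 * i + 1)}

/-- its length -/
noncomputable def Jlen (k : ℕ) (c : ℕ → ℝ) : ℝ := ∑ i ∈ range k, (c (2 * i + 1) - c (2 * i))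

/-- the blocks `A j ⊆ (1, L]`, `j + 1 < M`, each with two primes `P j < P' j` in front -/
structure Blk (L M : ℕ) (A : ℕ → Finset ℕ) (P P' : ℕ → ℕ) : Prop where
  prime : ∀ j, j + 1 < M → (P j).Prime
  prime' : ∀ j, j + 1 < M → (P' j).Prime
  lt : ∀ j, j + 1 < M → (j + 1) * (L / M) < P j
  lt' : ∀ j, j + 1 < M → P j < P' j
  le : ∀ j, j + 1 < M → P' j ≤ (j + 1) * (L / M) + (L / M) / M
  eq : ∀ j, j + 1 < M → A j = Ioc (P' j) ((j + 2) * (L / M))

end Pool.Agent.Lib.MP_de5eaa_nt.Poi
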