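import Pool.Agent.Lib.MP_de5eaa_nt.Poi.B2

set_option autoImplicit false

namespace Pool.Agent.Lib.MP_de5eaa_nt.Poi

open Finset MeasureTheory Filter Topology
open Pool.Agent.Lib.MP_de5eaa_nt.Near (hs wq)

theorem Lo1_add {f g : ℝ → ℝ} {α β v w : ℝ}
    (hf : IntervalIntegrable f volume α β ∧ ∫ t in α..β, f t = v)
    (hg : IntervalIntegrable g volume α β ∧ ∫ t in α..β, g t = w) :
    IntervalIntegrable (fun t => f t + g t) volume α β ∧ ∫ t in α..β, (f t + g t) = v + w :=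
  ⟨hf.1.add hg.1, by rw [intervalIntegral.integral_add hf.1 hg.1, hf.2, hg.2]⟩

theorem Lo1_sub {f g : ℝ → ℝ} {α β v w : ℝ}
    (hf : IntervalIntegrable f volume α β ∧ ∫ t in α..β, f t = v)
    (hg : IntervalIntegrable g volume α β ∧ ∫ t in α..β, g t = w) :
    IntervalIntegrable (fun t => f t - g t) volume α β ∧ ∫ t in α..β, (f t - g t) = v - w :=
  ⟨hf.1.sub hg.1, by rw [intervalIntegral.integral_sub hf.1 hg.1, hf.2, hg.2]⟩

theorem Lo1_const (α β v : ℝ) :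
    IntervalIntegrable (fun _ => v) volume α β ∧ ∫ _t in α..β, v = (β - α) * v :=
  ⟨intervalIntegrable_const, by simp⟩

theorem Lo1_mul {f : ℝ → ℝ} {α β v : ℝ} (r : ℝ)
    (hf : IntervalIntegrable f volume α β ∧ ∫ t in α..β, f t = v) :
    IntervalIntegrable (fun t => f t * r) volume α β ∧ ∫ t in α..β, (f t * r) = v * r :=
  ⟨hf.1.mul_const r, by rw [intervalIntegral.integral_mul_const, hf.2]⟩

theorem Lo1_sum {ι : Type*} (U : Finset ι) {α β : ℝ} {f : ι → ℝ → ℝ} {v : ι → ℝ}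
    (hf : ∀ u ∈ U, IntervalIntegrable (f u) volume α β ∧ ∫ t in α..β, f u t = v u) :
    IntervalIntegrable (fun t => ∑ u ∈ U, f u t) volume α β ∧
      ∫ t in α..β, (∑ u ∈ U, f u t) = ∑ u ∈ U, v u := by
  classical
  induction U using Finset.induction_on with
  | empty => simp
  | insert a s has ih =>
    have h1 := hf a (mem_insert_self a s)
    have h2 := ih fun u hu => hf u (mem_insert_of_mem hu)
    have h3 := Lo1_add h1 h2
    simp only [sum_insert has]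
    exact h3

theorem Lo1_abs {F G : ℝ → ℝ} {α β v w : ℝ} (hαβ : α ≤ β)
    (hF : IntervalIntegrable F volume α β ∧ ∫ t in α..β, F t = v)
    (hG : IntervalIntegrable G volume α β ∧ ∫ t in α..β, G t = w)
    (h : ∀ t, |F t| ≤ G t) : |v| ≤ w := by
  rw [← hF.2, ← hG.2]
  have h1 : ‖∫ t in α..β, F t‖ ≤ ∫ t in α..β, G t :=
    intervalIntegral.norm_integral_le_of_norm_le (f := F) hαβ
      (Filter.Eventually.of_forall fun t _ => by rw [Real.norm_eq_abs]; exact h t) hG.1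
  rwa [Real.norm_eq_abs] at h1

/-- ROW Lo1. The proof of `int_two` (file `Poi/B2.lean`) with the interval `[0,1]` replaced by `[α, β]`: integrate over `t` for fixed
`s` (the constants are multiplied by `β - α`), then over `s`. -/
theorem int_two' {ι κ : Type*} (U : Finset ι) (V : Finset κ) (a b P : ι → ℝ → ℝ) (C : ι → κ → ℝ → ℝ) (c e : ℝ)
    {α β : ℝ} (hαβ : α ≤ β)
    (ha : ∀ u ∈ U, IntervalIntegrable (a u) volume α β) (hb : ∀ u ∈ U, IntervalIntegrable (b u) volume α β)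
    (hP : ∀ u ∈ U, IntervalIntegrable (P u) volume α β)
    (hC : ∀ u ∈ U, ∀ j ∈ V, IntervalIntegrable (C u j) volume α β)
    (h : ∀ t s : ℝ, |(∑ u ∈ U, a u t * b u s) - c| ≤ e + ∑ u ∈ U, (P u t + P u s + ∑ j ∈ V, C u j t * C u j s)) :
    |(∑ u ∈ U, (∫ t in α..β, a u t) * ∫ t in α..β, b u t) - (β - α) ^ 2 * c| ≤
      (β - α) ^ 2 * e + ∑ u ∈ U, (2 * (β - α) * (∫ t in α..β, P u t) + ∑ j ∈ V, (∫ t in α..β, C u j t) ^ 2) := by
  have h1 : ∀ s : ℝ, |(∑ u ∈ U, (∫ t in α..β, a u t) * b u s) - (β - α) * c| ≤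
      (β - α) * e + ∑ u ∈ U, ((∫ t in α..β, P u t) + (β - α) * P u s +
        ∑ j ∈ V, (∫ t in α..β, C u j t) * C u j s) := by
    intro s
    refine Lo1_abs (F := fun t => (∑ u ∈ U, a u t * b u s) - c)
      (G := fun t => e + ∑ u ∈ U, (P u t + P u s + ∑ j ∈ V, C u j t * C u j s)) hαβ ?_ ?_
      (fun t => h t s)
    · exact Lo1_sub (Lo1_sum U fun u hu => Lo1_mul (b u s) ⟨ha u hu, rfl⟩) (Lo1_const α β c)
    · exact Lo1_add (Lo1_const α β e) (Lo1_sum U fun u hu =>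
        Lo1_add (Lo1_add ⟨hP u hu, rfl⟩ (Lo1_const α β (P u s)))
          (Lo1_sum V fun j hj => Lo1_mul (C u j s) ⟨hC u hu j hj, rfl⟩))
  have h2 : |(∑ u ∈ U, (∫ t in α..β, b u t) * ∫ t in α..β, a u t) - (β - α) * ((β - α) * c)| ≤
      (β - α) * ((β - α) * e) + ∑ u ∈ U, ((β - α) * (∫ t in α..β, P u t) + (∫ t in α..β, P u t) * (β - α) +
        ∑ j ∈ V, (∫ t in α..β, C u j t) * ∫ t in α..β, C u j t) := by
    refine Lo1_abs (F := fun s => (∑ u ∈ U, b u s * ∫ t in α..β, a u t) - (β - α) * c)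
      (G := fun s => (β - α) * e + ∑ u ∈ U, ((∫ t in α..β, P u t) + P u s * (β - α) +
        ∑ j ∈ V, C u j s * ∫ t in α..β, C u j t)) hαβ ?_ ?_ (fun s => ?_)
    · exact Lo1_sub (Lo1_sum U fun u hu => Lo1_mul _ ⟨hb u hu, rfl⟩) (Lo1_const α β _)
    · exact Lo1_add (Lo1_const α β _) (Lo1_sum U fun u hu =>
        Lo1_add (Lo1_add (Lo1_const α β _) (Lo1_mul _ ⟨hP u hu, rfl⟩))
          (Lo1_sum V fun j hj => Lo1_mul _ ⟨hC u hu j hj, rfl⟩))
    · have h3 := h1 s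
      have e2 : ∑ u ∈ U, b u s * (∫ t in α..β, a u t) = ∑ u ∈ U, (∫ t in α..β, a u t) * b u s :=
        sum_congr rfl fun u _ => mul_comm _ _
      have e3 : ∑ u ∈ U, ((∫ t in α..β, P u t) + P u s * (β - α) +
          ∑ j ∈ V, C u j s * ∫ t in α..β, C u j t) =
          ∑ u ∈ U, ((∫ t in α..β, P u t) + (β - α) * P u s +
          ∑ j ∈ V, (∫ t in α..β, C u j t) * C u j s) := by
        refine sum_congr rfl fun u _ => ?_
        rw [mul_comm (P u s), sum_congr rfl fun j _ => mul_comm (C u j s) _]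
      show |(∑ u ∈ U, b u s * ∫ t in α..β, a u t) - (β - α) * c| ≤
        (β - α) * e + ∑ u ∈ U, ((∫ t in α..β, P u t) + P u s * (β - α) +
          ∑ j ∈ V, C u j s * ∫ t in α..β, C u j t)
      rw [e2, e3]
      exact h3
  have e1 : ∑ u ∈ U, (∫ t in α..β, a u t) * ∫ t in α..β, b u t =
      ∑ u ∈ U, (∫ t in α..β, b u t) * ∫ t in α..β, a u t :=
    sum_congr rfl fun u _ => mul_comm _ _
  have e4 : ∑ u ∈ U, (2 * (β - α) * (∫ t in α..β, P u t) + ∑ j ∈ V, (∫ t in α..β, C u j t) ^ 2) =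
      ∑ u ∈ U, ((β - α) * (∫ t in α..β, P u t) + (∫ t in α..β, P u t) * (β - α) +
        ∑ j ∈ V, (∫ t in α..β, C u j t) * ∫ t in α..β, C u j t) := by
    refine sum_congr rfl fun u _ => ?_
    rw [sum_congr rfl fun j _ => sq (∫ t in α..β, C u j t)]
    ring
  rw [e1, e4, show (β - α) ^ 2 * c = (β - α) * ((β - α) * c) by ring,
    show (β - α) ^ 2 * e = (β - α) * ((β - α) * e) by ring]
  exact h2

end Pool.Agent.Lib.MP_de5eaa_nt.Poi
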