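import Pool.Agent.Lib.MP_de5eaa_nt.Poi.C3
import Pool.Agent.Lib.MP_de5eaa_nt.Poi.B5

set_option autoImplicit false

namespace Pool.Agent.Lib.MP_de5eaa_nt.Poi

open Finset MeasureTheory Filter Topology
open Pool.Agent.Lib.MP_de5eaa_nt.Near (hs wq)

/-- the generating function over the interval `[α, β]` -/
noncomputable def gfl (J : Set ℝ) (L : ℝ) (I : Finset ℕ) (y : ℕ → ℝ) (x α β : ℝ) : ℝ :=
  ∫ t in α..β, x ^ cnt J L I y t

/-- the measure of the `t` in `(α, β]` for which there are exactly `r` points in `t + J / L` -/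
noncomputable def pvl (J : Set ℝ) (L : ℝ) (I : Finset ℕ) (y : ℕ → ℝ) (r : ℕ) (α β : ℝ) : ℝ :=
  (volume ({t | cnt J L I y t = r} ∩ Set.Ioc α β)).toReal

/-- ROW Lo2a. As in `Poi/B5.lean` (`gf_nonneg`, `gf_le_one`, `gf_one`, `gf_diff`). For `gfl_diff`: the pointwise bound
`|x^{cnt I} - x^{cnt A}| ≤ cnt I - cnt A = ∑ n ∈ I \ A, hI`, and `∫_α^β hI ≤ ∫_0^1 hI = lam / L` (`hI ≥ 0`,
`intervalIntegral.integral_mono_interval`). -/
theorem gfl_nonneg {J : Set ℝ} (L : ℝ) (I : Finset ℕ) (y : ℕ → ℝ) {x : ℝ} (h0 : 0 ≤ x) {α β : ℝ} (hαβ : α ≤ β) :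
    0 ≤ gfl J L I y x α β := by
  unfold gfl
  exact intervalIntegral.integral_nonneg hαβ fun t _ => pow_nonneg h0 _

theorem gfl_le {J : Set ℝ} (hJ : MeasurableSet J) (L : ℝ) (I : Finset ℕ) (y : ℕ → ℝ) {x : ℝ} (h0 : 0 ≤ x)
    (h1 : x ≤ 1) {α β : ℝ} (hαβ : α ≤ β) : gfl J L I y x α β ≤ β - α := by
  unfold gfl
  have h2 : ∫ t in α..β, x ^ cnt J L I y t ≤ ∫ _t in α..β, (1 : ℝ) :=
    intervalIntegral.integral_mono_on hαβ (integrable_pow hJ L I y h0 h1 α β)
      intervalIntegrable_const fun t _ => pow_le_one₀ h0 h1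
  simpa using h2

theorem gfl_one (J : Set ℝ) (L : ℝ) (I : Finset ℕ) (y : ℕ → ℝ) (α β : ℝ) : gfl J L I y 1 α β = β - α := by
  unfold gfl
  simp

theorem gfl_diff {J : Set ℝ} {lam K R L : ℝ} (hJ : Nice J lam K R) (hL : 2 * R < L) {A I : Finset ℕ} (hAI : A ⊆ I)
    (y : ℕ → ℝ) {x : ℝ} (h0 : 0 ≤ x) (h1 : x ≤ 1) {α β : ℝ} (hα : 0 ≤ α) (hαβ : α ≤ β) (hβ : β ≤ 1) :
    |gfl J L I y x α β - gfl J L A y x α β| ≤ ((I.card : ℝ) - A.card) * (lam / L) := by
  have hcnt : ∀ t, (((cnt J L I y t : ℕ) : ℝ) - (cnt J L A y t : ℕ)) =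
      ∑ n ∈ I \ A, hI J L t (y n) := by
    intro t
    rw [B5b_cnt, B5b_cnt, ← Finset.sum_sdiff hAI]
    ring
  have hle : ∀ t, cnt J L A y t ≤ cnt J L I y t := by
    intro t
    classical
    unfold cnt
    exact Finset.card_le_card (Finset.filter_subset_filter _ hAI)
  have i1 := integrable_pow hJ.meas L I y h0 h1 α β
  have i2 := integrable_pow hJ.meas L A y h0 h1 α β
  have i3 : IntervalIntegrable (fun t => ∑ n ∈ I \ A, hI J L t (y n)) volume α β := by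
    have := IntervalIntegrable.sum (I \ A) (f := fun n t => hI J L t (y n)) (μ := volume)
      (a := α) (b := β) fun n _ => integrable_hI hJ.meas L (y n) α β
    have h7 : (fun t => ∑ n ∈ I \ A, hI J L t (y n)) =
        ∑ n ∈ I \ A, (fun t => hI J L t (y n)) := by
      funext t
      rw [Finset.sum_apply]
    rw [h7]
    exact this
  have hcard : ((I \ A).card : ℝ) = (I.card : ℝ) - A.card := by
    rw [Finset.card_sdiff_of_subset hAI, Nat.cast_sub (Finset.card_le_card hAI)]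
  have hone : ∀ n, ∫ t in α..β, hI J L t (y n) ≤ lam / L := by
    intro n
    rw [← int_hI hJ hL (y n)]
    refine intervalIntegral.integral_mono_interval hα hαβ hβ ?_ (integrable_hI hJ.meas L (y n) 0 1)
    refine Eventually.of_forall fun t => ?_
    show (0 : ℝ) ≤ hI J L t (y n)
    unfold hI
    split_ifs
    · exact zero_le_one
    · exact le_rfl
  unfold gfl
  rw [← intervalIntegral.integral_sub i1 i2]
  calc |∫ t in α..β, (x ^ cnt J L I y t - x ^ cnt J L A y t)|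
      ≤ ∫ t in α..β, |x ^ cnt J L I y t - x ^ cnt J L A y t| :=
        intervalIntegral.abs_integral_le_integral_abs hαβ
    _ ≤ ∫ t in α..β, ∑ n ∈ I \ A, hI J L t (y n) := by
        refine intervalIntegral.integral_mono_on hαβ (i1.sub i2).abs i3 fun t _ => ?_
        rw [← hcnt t]
        exact B5b_pow h0 h1 (hle t)
    _ = ∑ n ∈ I \ A, ∫ t in α..β, hI J L t (y n) :=
        intervalIntegral.integral_finsetSum fun n _ => integrable_hI hJ.meas L (y n) α β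
    _ ≤ ∑ _n ∈ I \ A, lam / L := Finset.sum_le_sum fun n _ => hone n
    _ = ((I.card : ℝ) - A.card) * (lam / L) := by
        rw [Finset.sum_const, nsmul_eq_mul, hcard]

theorem Lo2b_vol (S : Set ℝ) (α β : ℝ) : volume (S ∩ Set.Ioc α β) ≤ ENNReal.ofReal (β - α) := by
  refine (measure_mono Set.inter_subset_right).trans ?_
  rw [Real.volume_Ioc]

theorem Lo2b_fin (S : Set ℝ) (α β : ℝ) : volume (S ∩ Set.Ioc α β) ≠ ⊤ :=
  ne_top_of_le_ne_top ENNReal.ofReal_ne_top (Lo2b_vol S α β)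

/-- ROW Lo2b. As in `Poi/C3.lean` and `Poi/P5.lean` (`pv_nonneg`, `pv_le_one`, `pv_zero`, `gf_eq`, `pv_pert`, `pv_sum_le`). For `pvl_pert`: the
two sets differ inside `{cnt y ≠ cnt y'} ∩ (α, β]`, a subset of `{cnt y ≠ cnt y'} ∩ (0, 1]` (`cnt_pert`). -/
theorem pvl_nonneg (J : Set ℝ) (L : ℝ) (I : Finset ℕ) (y : ℕ → ℝ) (r : ℕ) (α β : ℝ) : 0 ≤ pvl J L I y r α β := by
  exact ENNReal.toReal_nonneg

theorem pvl_le (J : Set ℝ) (L : ℝ) (I : Finset ℕ) (y : ℕ → ℝ) (r : ℕ) {α β : ℝ} (hαβ : α ≤ β) :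
    pvl J L I y r α β ≤ β - α := by
  exact ENNReal.toReal_le_of_le_ofReal (by linarith) (Lo2b_vol _ α β)

theorem pvl_zero (J : Set ℝ) (L : ℝ) (I : Finset ℕ) (y : ℕ → ℝ) {r : ℕ} (hr : I.card < r) (α β : ℝ) :
    pvl J L I y r α β = 0 := by
  have h : ({t | cnt J L I y t = r} ∩ Set.Ioc α β) = ∅ := by
    ext t
    refine ⟨fun ht => ?_, fun ht => absurd ht (Set.notMem_empty t)⟩
    have h1 : cnt J L I y t = r := ht.1
    have h2 : cnt J L I y t ≤ I.card := C3a_cnt_le J L I y t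
    omega
  unfold pvl
  rw [h, measure_empty, ENNReal.toReal_zero]

theorem gfl_eq {J : Set ℝ} (hJ : MeasurableSet J) (L : ℝ) (I : Finset ℕ) (y : ℕ → ℝ) (x : ℝ) {α β : ℝ} (hαβ : α ≤ β) :
    gfl J L I y x α β = ∑ i ∈ range (I.card + 1), pvl J L I y i α β * x ^ i := by
  have hm : ∀ i : ℕ, MeasurableSet {t | cnt J L I y t = i} := fun i =>
    (meas_cnt hJ L I y) (measurableSet_singleton i)
  have h1 : ∀ t : ℝ, x ^ cnt J L I y t =
      ∑ i ∈ range (I.card + 1), Set.indicator {t | cnt J L I y t = i} (fun _ => x ^ i) t := by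
    intro t
    have h2 : cnt J L I y t ∈ range (I.card + 1) :=
      Finset.mem_range.2 (Nat.lt_succ_of_le (C3a_cnt_le J L I y t))
    rw [Finset.sum_eq_single_of_mem _ h2]
    · rw [Set.indicator_of_mem]
      exact rfl
    · intro i _ hi
      rw [Set.indicator_of_notMem]
      intro h3
      exact hi (Eq.symm h3)
  unfold gfl
  rw [intervalIntegral.integral_of_le hαβ]
  simp_rw [h1]
  rw [integral_finsetSum]
  · refine Finset.sum_congr rfl fun i _ => ?_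
    rw [integral_indicator_const _ (hm i), Measure.real, Measure.restrict_apply (hm i), smul_eq_mul]
    rfl
  · intro i _
    exact (integrable_const _).indicator (hm i)

theorem pvl_sum_le {J : Set ℝ} (hJ : MeasurableSet J) (L : ℝ) (I : Finset ℕ) (y : ℕ → ℝ) (F : Finset ℕ) {α β : ℝ}
    (hαβ : α ≤ β) : ∑ r ∈ F, pvl J L I y r α β ≤ β - α := by
  have hm : ∀ r, MeasurableSet ({t | cnt J L I y t = r} ∩ Set.Ioc α β) := fun r =>
    ((meas_cnt hJ L I y) (measurableSet_singleton r)).inter measurableSet_Ioc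
  have hd : Set.PairwiseDisjoint (F : Set ℕ) fun r => {t | cnt J L I y t = r} ∩ Set.Ioc α β := by
    intro r _ s _ hrs
    rw [Function.onFun, Set.disjoint_left]
    rintro t ⟨h1, _⟩ ⟨h2, _⟩
    exact hrs (h1.symm.trans h2)
  have h1 : volume (⋃ r ∈ F, {t | cnt J L I y t = r} ∩ Set.Ioc α β) =
      ∑ r ∈ F, volume ({t | cnt J L I y t = r} ∩ Set.Ioc α β) :=
    measure_biUnion_finset hd fun r _ => hm r
  have h2 : volume (⋃ r ∈ F, {t | cnt J L I y t = r} ∩ Set.Ioc α β) ≤ ENNReal.ofReal (β - α) := by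
    have h3 : (⋃ r ∈ F, {t | cnt J L I y t = r} ∩ Set.Ioc α β) ⊆ Set.Ioc α β := by
      intro t ht
      simp only [Set.mem_iUnion] at ht
      obtain ⟨r, _, hr⟩ := ht
      exact hr.2
    refine (measure_mono h3).trans ?_
    rw [Real.volume_Ioc]
  unfold pvl
  rw [← ENNReal.toReal_sum fun r _ => Lo2b_fin _ α β, ← h1]
  exact ENNReal.toReal_le_of_le_ofReal (by linarith) h2

theorem pvl_pert {J : Set ℝ} {lam K R L : ℝ} (hJ : Nice J lam K R) (hL : 0 < L) (I : Finset ℕ) (y y' : ℕ → ℝ) (r : ℕ)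
    {α β : ℝ} (hα : 0 ≤ α) (hαβ : α ≤ β) (hβ : β ≤ 1) :
    |pvl J L I y r α β - pvl J L I y' r α β| ≤ ∑ n ∈ I, 2 * K * |y' n - y n| := by
  have hs0 : 0 ≤ ∑ n ∈ I, 2 * K * |y' n - y n| :=
    Finset.sum_nonneg fun n _ => mul_nonneg (mul_nonneg (by norm_num) hJ.K0) (abs_nonneg _)
  have hd : (volume ({t | cnt J L I y t ≠ cnt J L I y' t} ∩ Set.Ioc α β)).toReal ≤
      ∑ n ∈ I, 2 * K * |y' n - y n| := by
    refine ENNReal.toReal_le_of_le_ofReal hs0 ((measure_mono ?_).trans (cnt_pert hJ hL I y y'))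
    rintro t ⟨h1, h2⟩
    exact ⟨h1, lt_of_le_of_lt hα h2.1, h2.2.trans hβ⟩
  have h1 : pvl J L I y r α β ≤ pvl J L I y' r α β +
      (volume ({t | cnt J L I y t ≠ cnt J L I y' t} ∩ Set.Ioc α β)).toReal := by
    unfold pvl
    rw [← ENNReal.toReal_add (Lo2b_fin _ α β) (Lo2b_fin _ α β)]
    refine ENNReal.toReal_mono (ENNReal.add_ne_top.2 ⟨Lo2b_fin _ α β, Lo2b_fin _ α β⟩)
      ((measure_mono ?_).trans (measure_union_le _ _))
    rintro t ⟨ht, ht'⟩
    by_cases h : cnt J L I y t = cnt J L I y' t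
    · exact Or.inl ⟨h.symm.trans ht, ht'⟩
    · exact Or.inr ⟨h, ht'⟩
  have h2 : pvl J L I y' r α β ≤ pvl J L I y r α β +
      (volume ({t | cnt J L I y t ≠ cnt J L I y' t} ∩ Set.Ioc α β)).toReal := by
    unfold pvl
    rw [← ENNReal.toReal_add (Lo2b_fin _ α β) (Lo2b_fin _ α β)]
    refine ENNReal.toReal_mono (ENNReal.add_ne_top.2 ⟨Lo2b_fin _ α β, Lo2b_fin _ α β⟩)
      ((measure_mono ?_).trans (measure_union_le _ _))
    rintro t ⟨ht, ht'⟩
    by_cases h : cnt J L I y t = cnt J L I y' t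
    · exact Or.inl ⟨h.trans ht, ht'⟩
    · exact Or.inr ⟨h, ht'⟩
  rw [abs_le]
  constructor <;> linarith

end Pool.Agent.Lib.MP_de5eaa_nt.Poi
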