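import Pool.Agent.Lib.MP_de5eaa_nt.Poi.Lo1
import Pool.Agent.Lib.MP_de5eaa_nt.Poi.Lo2
import Pool.Agent.Lib.MP_de5eaa_nt.Poi.B4

set_option autoImplicit false

namespace Pool.Agent.Lib.MP_de5eaa_nt.Poi

open Finset MeasureTheory Filter Topology
open Pool.Agent.Lib.MP_de5eaa_nt.Near (hs wq)

theorem Lo3_sum_int {κ : Type*} (s : Finset κ) (f : κ → ℝ → ℝ) (α β : ℝ)
    (h : ∀ i ∈ s, IntervalIntegrable (f i) volume α β) :
    IntervalIntegrable (fun t => ∑ i ∈ s, f i t) volume α β := by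
  have h1 := IntervalIntegrable.sum s (f := f) h
  have h2 : (∑ i ∈ s, f i) = fun t => ∑ i ∈ s, f i t := by
    funext t
    exact Finset.sum_apply t s f
  rwa [h2] at h1

theorem Lo3_prs_int {J : Set ℝ} {lam K R : ℝ} (L : ℝ) (hJ : Nice J lam K R) (A : Finset ℕ) (y : ℕ → ℝ) (α β : ℝ) :
    IntervalIntegrable (fun t => prs J L A y t) volume α β := by
  unfold prs
  exact Lo3_sum_int A _ α β fun n _ => Lo3_sum_int _ _ α β fun m _ => integrable_hI_mul hJ.meas L (y n) (y m) α β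

theorem Lo3_cnt_int {J : Set ℝ} {lam K R : ℝ} (L : ℝ) (hJ : Nice J lam K R) (A : Finset ℕ) (y : ℕ → ℝ) (α β : ℝ) :
    IntervalIntegrable (fun t => (cnt J L A y t : ℝ)) volume α β := by
  simp only [cnt_eq]
  exact Lo3_sum_int _ _ α β fun n _ => integrable_hI hJ.meas L (y n) α β

theorem Lo3_prs_nonneg (J : Set ℝ) (L : ℝ) (A : Finset ℕ) (y : ℕ → ℝ) (t : ℝ) : 0 ≤ prs J L A y t := by
  unfold prs
  exact Finset.sum_nonneg fun n _ => Finset.sum_nonneg fun m _ =>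
    mul_nonneg (hI_nonneg J L t (y n)) (hI_nonneg J L t (y m))

theorem Lo3_mono {f : ℝ → ℝ} {α β : ℝ} (hα : 0 ≤ α) (hαβ : α ≤ β) (hβ : β ≤ 1) (h0 : ∀ t, 0 ≤ f t)
    (hf : IntervalIntegrable f volume 0 1) : ∫ t in α..β, f t ≤ ∫ t in (0 : ℝ)..1, f t :=
  intervalIntegral.integral_mono_interval hα hαβ hβ (Filter.Eventually.of_forall fun t => h0 t) hf

/-- ROW Lo3. The proof of `gf_blocks` (file `Poi/B4.lean`): `pt_bound` and now `int_two'`. The integrals over `[α, β]` of the nonnegative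
functions `prs`, `cnt` are at most the integrals over `[0,1]` (which are computed in `B4.lean`), `0 ≤ β - α ≤ 1`, and the term
`2 * D * ∑ |A j|` is nonnegative (if some `A j` is not empty then `0 ≤ D` by `hlin` with `G = 0`). -/
theorem gf_blocks' {ι : Type*} (U : Finset ι) (k : ℕ) (A : ℕ → Finset ℕ)
    (hd : ∀ i < k, ∀ j < k, i ≠ j → Disjoint (A i) (A j)) (Y : ι → ℕ → ℝ) {J : Set ℝ} {lam K R L D x y : ℝ}
    (hJ : Nice J lam K R) (hL : 2 * R < L)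
    (hx0 : 0 ≤ x) (hx1 : x ≤ 1) (hy0 : 0 ≤ y) (hy1 : y ≤ 1) (hA : ∀ j < k, ((A j).card : ℝ) * (lam / L) ≤ 1)
    (hlin : ∀ j < k, ∀ n ∈ A j, ∀ t : ℝ, ∀ G : ι → ℝ, (∀ u, 0 ≤ G u) → (∀ u, G u ≤ 1) →
      (∀ u v, (∀ i < j, ∀ n' ∈ A i, ∀ t' : ℝ, Hit J L t' (Y u n') ↔ Hit J L t' (Y v n')) → G u = G v) →
      |∑ u ∈ U, G u * (hI J L t (Y u n) - lam / L)| ≤ D) {α β : ℝ} (hα : 0 ≤ α) (hαβ : α ≤ β) (hβ : β ≤ 1) :
    |(∑ u ∈ U, gfl J L ((range k).biUnion A) (Y u) x α β * gfl J L ((range k).biUnion A) (Y u) y α β) -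
      (β - α) ^ 2 * ((U.card : ℝ) * ∏ j ∈ range k, (1 - (2 - x - y) * (((A j).card : ℝ) * (lam / L))))| ≤
      2 * D * (∑ j ∈ range k, ((A j).card : ℝ)) + (U.card : ℝ) * (∑ j ∈ range k, (((A j).card : ℝ) * (lam / L)) ^ 2) +
        2 * (lam / L) * ∑ j ∈ range k, ∑ n ∈ A j, ∑ m ∈ (A j).filter (n < ·), ∑ u ∈ U,
          hI (Set.Icc (-(2 * R)) (2 * R)) L 0 (Y u m - Y u n) := by
  have hL0 : 0 < L := lt_of_le_of_lt (by linarith [hJ.R0]) hL
  have hw : 0 ≤ lam / L := div_nonneg hJ.lam0 hL0.le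
  have hb0 : 0 ≤ β - α := by linarith
  have hb1 : β - α ≤ 1 := by linarith
  have hb2 : (β - α) ^ 2 ≤ 1 := pow_le_one₀ hb0 hb1
  have hmain := int_two' U (range k) (fun u t => x ^ cnt J L ((range k).biUnion A) (Y u) t)
    (fun u t => y ^ cnt J L ((range k).biUnion A) (Y u) t)
    (fun u t => ∑ j ∈ range k, prs J L (A j) (Y u) t) (fun u j t => (cnt J L (A j) (Y u) t : ℝ))
    ((U.card : ℝ) * ∏ j ∈ range k, (1 - (2 - x - y) * (((A j).card : ℝ) * (lam / L))))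
    (2 * D * (∑ j ∈ range k, ((A j).card : ℝ))) hαβ
    (fun u _ => integrable_pow hJ.meas L _ (Y u) hx0 hx1 α β)
    (fun u _ => integrable_pow hJ.meas L _ (Y u) hy0 hy1 α β)
    (fun u _ => Lo3_sum_int _ _ α β fun j _ => Lo3_prs_int L hJ (A j) (Y u) α β)
    (fun u _ j _ => Lo3_cnt_int L hJ (A j) (Y u) α β)
    (fun t s => pt_bound U k A hd Y hx0 hx1 hy0 hy1 hw hA hlin t s)
  unfold gfl
  refine hmain.trans ?_
  have h1 : ∀ u ∈ U, 2 * (β - α) * (∫ t in α..β, ∑ j ∈ range k, prs J L (A j) (Y u) t) +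
      ∑ j ∈ range k, (∫ t in α..β, (cnt J L (A j) (Y u) t : ℝ)) ^ 2 ≤
      2 * (∑ j ∈ range k, ∑ n ∈ A j, ∑ m ∈ (A j).filter (n < ·),
        lam / L * hI (Set.Icc (-(2 * R)) (2 * R)) L 0 (Y u m - Y u n)) +
      ∑ j ∈ range k, (((A j).card : ℝ) * (lam / L)) ^ 2 := by
    intro u _
    have h2 : ∑ j ∈ range k, (∫ t in α..β, (cnt J L (A j) (Y u) t : ℝ)) ^ 2 ≤
        ∑ j ∈ range k, (((A j).card : ℝ) * (lam / L)) ^ 2 := by
      refine Finset.sum_le_sum fun j _ => ?_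
      refine pow_le_pow_left₀ (intervalIntegral.integral_nonneg hαβ fun t _ => Nat.cast_nonneg _) ?_ 2
      rw [← B4_cnt_int hJ hL (A j) (Y u)]
      exact Lo3_mono hα hαβ hβ (fun t => Nat.cast_nonneg _) (Lo3_cnt_int L hJ (A j) (Y u) 0 1)
    have h30 : 0 ≤ ∫ t in α..β, ∑ j ∈ range k, prs J L (A j) (Y u) t :=
      intervalIntegral.integral_nonneg hαβ fun t _ => Finset.sum_nonneg fun j _ =>
        Lo3_prs_nonneg J L (A j) (Y u) t
    have h31 : ∫ t in α..β, ∑ j ∈ range k, prs J L (A j) (Y u) t ≤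
        ∫ t in (0 : ℝ)..1, ∑ j ∈ range k, prs J L (A j) (Y u) t :=
      Lo3_mono hα hαβ hβ (fun t => Finset.sum_nonneg fun j _ => Lo3_prs_nonneg J L (A j) (Y u) t)
        (B4_sum_int _ _ fun j _ => B4_prs_int L hJ (A j) (Y u))
    have h3 : ∫ t in (0 : ℝ)..1, ∑ j ∈ range k, prs J L (A j) (Y u) t ≤
        ∑ j ∈ range k, ∑ n ∈ A j, ∑ m ∈ (A j).filter (n < ·),
        lam / L * hI (Set.Icc (-(2 * R)) (2 * R)) L 0 (Y u m - Y u n) := by
      rw [intervalIntegral.integral_finsetSum fun j _ => B4_prs_int L hJ (A j) (Y u)]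
      exact Finset.sum_le_sum fun j _ => B4_prs_le hJ hL (A j) (Y u)
    have h32 : 2 * (β - α) * (∫ t in α..β, ∑ j ∈ range k, prs J L (A j) (Y u) t) ≤
        2 * ∫ t in α..β, ∑ j ∈ range k, prs J L (A j) (Y u) t :=
      mul_le_mul_of_nonneg_right (by linarith) h30
    linarith
  have h4 := Finset.sum_le_sum h1
  have h6 : ∀ (X : ι → ℝ) (c : ℝ), ∑ u ∈ U, (2 * X u + c) = 2 * (∑ u ∈ U, X u) + (U.card : ℝ) * c := by
    intro X c
    rw [Finset.sum_add_distrib, Finset.sum_const, nsmul_eq_mul, ← Finset.mul_sum]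
  rw [h6] at h4
  have h5 : ∑ u ∈ U, ∑ j ∈ range k, ∑ n ∈ A j, ∑ m ∈ (A j).filter (n < ·),
        lam / L * hI (Set.Icc (-(2 * R)) (2 * R)) L 0 (Y u m - Y u n) =
      lam / L * ∑ j ∈ range k, ∑ n ∈ A j, ∑ m ∈ (A j).filter (n < ·), ∑ u ∈ U,
          hI (Set.Icc (-(2 * R)) (2 * R)) L 0 (Y u m - Y u n) := by
    rw [Finset.sum_comm, Finset.mul_sum]
    refine Finset.sum_congr rfl fun j _ => ?_
    rw [Finset.sum_comm, Finset.mul_sum]
    refine Finset.sum_congr rfl fun n _ => ?_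
    rw [Finset.sum_comm, Finset.mul_sum]
    refine Finset.sum_congr rfl fun m _ => ?_
    rw [Finset.mul_sum]
  rw [h5] at h4
  -- the first term
  have hD : 0 ≤ 2 * D * (∑ j ∈ range k, ((A j).card : ℝ)) := by
    by_cases hne : ∃ j < k, (A j).Nonempty
    · obtain ⟨j, hj, n, hn⟩ := hne
      have hD0 : 0 ≤ D := by
        have h7 := hlin j hj n hn 0 (fun _ => 0) (fun _ => le_rfl) (fun _ => zero_le_one) (fun _ _ _ => rfl)
        exact (abs_nonneg _).trans h7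
      exact mul_nonneg (by linarith) (Finset.sum_nonneg fun j _ => Nat.cast_nonneg _)
    · have h7 : ∑ j ∈ range k, ((A j).card : ℝ) = 0 := by
        refine Finset.sum_eq_zero fun j hj => ?_
        have h8 : A j = ∅ := by
          by_contra h9
          exact hne ⟨j, Finset.mem_range.1 hj, Finset.nonempty_iff_ne_empty.2 h9⟩
        rw [h8]
        simp
      rw [h7, mul_zero]
  have h8 : (β - α) ^ 2 * (2 * D * (∑ j ∈ range k, ((A j).card : ℝ))) ≤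
      2 * D * (∑ j ∈ range k, ((A j).card : ℝ)) := mul_le_of_le_one_left hD hb2
  linarith

end Pool.Agent.Lib.MP_de5eaa_nt.Poi
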