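import Pool.Agent.Lib.MP_de5eaa_nt.Poi.Lo3
import Pool.Agent.Lib.MP_de5eaa_nt.Poi.I7

set_option autoImplicit false

namespace Pool.Agent.Lib.MP_de5eaa_nt.Poi

open Finset MeasureTheory Filter Topology
open Pool.Agent.Lib.MP_de5eaa_nt.Near (hs wq)

/-- ROW Lo4a. The proof of `closeness` (file `Poi/I5.lean`) with `gf_blocks'`. -/
theorem closeness' (hT : Tendsto (fun x : ℕ => Chebyshev.theta x / (x : ℝ)) atTop (𝓝 1)) {J : Set ℝ} {lam K R : ℝ}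
    (hJ : Nice J lam K R) {α β : ℝ} (hα : 0 ≤ α) (hαβ : α ≤ β) (hβ : β ≤ 1) :
    ∃ C : ℝ, 0 < C ∧ ∀ M : ℕ, 2 ≤ M → lam ≤ M → ∀ᶠ L : ℕ in atTop,
      ∃ (A : ℕ → Finset ℕ) (P P' : ℕ → ℕ), Blk L M A P P' ∧ ∀ x y : ℝ, 0 ≤ x → x ≤ 1 → 0 ≤ y → y ≤ 1 →
        |(∑ u ∈ UU (QQ L), gfl J L ((range (M - 1)).biUnion A) (YY u) x α β *
            gfl J L ((range (M - 1)).biUnion A) (YY u) y α β) -
          (β - α) ^ 2 * (((QQ L).totient : ℝ) *
            ∏ j ∈ range (M - 1), (1 - (2 - x - y) * (((A j).card : ℝ) * (lam / L))))| ≤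
          ((QQ L).totient : ℝ) * (C / M) := by
  obtain ⟨C0, hC0, hps⟩ := pairs_sum hT hJ.R0
  have hlam := hJ.lam0
  have hK := hJ.K0
  refine ⟨1 + lam ^ 2 + 2 * lam * C0, by positivity, fun M hM hlM => ?_⟩
  have hMR : (2 : ℝ) ≤ M := by exact_mod_cast hM
  have hM0 : (0 : ℝ) < M := by linarith
  filter_upwards [blk_exists hT hM, hps M hM, eventually_gt_atTop ⌈2 * R⌉₊,
    eventually_gt_atTop (4 * M ^ 2), eventually_ge_atTop ⌈32 * K * (M : ℝ) ^ 3⌉₊] with L hB hpair hLR hL4 hLK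
  obtain ⟨A, P, P', hB⟩ := hB
  refine ⟨A, P, P', hB, fun x y hx0 hx1 hy0 hy1 => ?_⟩
  have hLR' : 2 * R < (L : ℝ) := (Nat.le_ceil _).trans_lt (by exact_mod_cast hLR)
  have hLK' : 32 * K * (M : ℝ) ^ 3 ≤ (L : ℝ) := (Nat.le_ceil _).trans (by exact_mod_cast hLK)
  have hL4' : 4 * (M : ℝ) ^ 2 < (L : ℝ) := by exact_mod_cast hL4
  have hL0 : (0 : ℝ) < L := lt_of_le_of_lt (by positivity) hL4'
  have hφ0 : (0 : ℝ) ≤ ((QQ L).totient : ℝ) := Nat.cast_nonneg _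
  -- `N0 = L / M`
  obtain ⟨N0, hN0⟩ : ∃ N0 : ℕ, N0 = L / M := ⟨_, rfl⟩
  have hML : M ≤ L := by nlinarith
  have hN1 : 1 ≤ N0 := by
    rw [hN0]
    exact (Nat.one_le_div_iff (by omega)).2 hML
  have hN2 : (L : ℝ) / (2 * M) ≤ N0 := by
    have h1 : L < (N0 + 1) * M := by
      rw [hN0]
      exact Nat.lt_mul_of_div_lt (Nat.lt_succ_self _) (by omega)
    have h2 : (L : ℝ) < (N0 + 1) * M := by exact_mod_cast h1
    have h3 : (1 : ℝ) ≤ N0 := by exact_mod_cast hN1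
    rw [div_le_iff₀ (by positivity)]
    nlinarith
  have hN0pos : (0 : ℝ) < N0 := by
    have : 0 < N0 := hN1
    exact_mod_cast this
  have hN3 : (L : ℝ) ^ 2 ≤ 4 * (M : ℝ) ^ 2 * (N0 : ℝ) ^ 2 := by
    have h1 : (L : ℝ) ≤ 2 * M * N0 := by
      rw [div_le_iff₀ (by positivity)] at hN2
      linarith
    calc (L : ℝ) ^ 2 ≤ (2 * M * N0) ^ 2 := pow_le_pow_left₀ hL0.le h1 2
      _ = 4 * (M : ℝ) ^ 2 * (N0 : ℝ) ^ 2 := by ring
  have hLN : L < (L / M) ^ 2 := by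
    rw [← hN0]
    have h1 : 4 * (M : ℝ) ^ 2 * L < 4 * (M : ℝ) ^ 2 * (N0 : ℝ) ^ 2 := by
      calc 4 * (M : ℝ) ^ 2 * L < L * L := mul_lt_mul_of_pos_right hL4' hL0
        _ = (L : ℝ) ^ 2 := by ring
        _ ≤ _ := hN3
    have h2 : (L : ℝ) < (N0 : ℝ) ^ 2 := lt_of_mul_lt_mul_left h1 (by positivity)
    exact_mod_cast h2
  have hA1 : ∀ j < M - 1, ((A j).card : ℝ) * (lam / L) ≤ lam / M := by
    intro j hj
    have h1 := blk_card_le hB (show j + 1 < M by omega)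
    calc ((A j).card : ℝ) * (lam / L) ≤ (L : ℝ) / M * (lam / L) :=
          mul_le_mul_of_nonneg_right h1 (by positivity)
      _ = lam / M := by field_simp
  have hlM1 : lam / M ≤ 1 := by
    rw [div_le_one hM0]
    exact hlM
  have hcard : (UU (QQ L)).card = (QQ L).totient := rfl
  have main := gf_blocks' (UU (QQ L)) (M - 1) A (blk_disj hB) YY hJ hLR' hx0 hx1 hy0 hy1
    (fun j hj => (hA1 j hj).trans hlM1)
    (D := ((QQ L).totient : ℝ) * (4 * K / (((L / M : ℕ) : ℝ)) ^ 2))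
    (fun j hj n hn t G hG0 hG1 hG =>
      lin_inst hB hM hLN hJ hLR' (show j + 1 < M by omega) hn t G hG0 hG1 hG) hα hαβ hβ
  rw [hcard] at main
  refine main.trans ?_
  -- the first error
  have hsum : ∑ j ∈ range (M - 1), ((A j).card : ℝ) ≤ L := by
    calc ∑ j ∈ range (M - 1), ((A j).card : ℝ) ≤ ∑ _j ∈ range (M - 1), (L : ℝ) / M :=
          sum_le_sum fun j hj => blk_card_le hB (by rw [mem_range] at hj; omega)
      _ = ((M - 1 : ℕ) : ℝ) * (L / M) := by rw [sum_const, card_range, nsmul_eq_mul]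
      _ ≤ (M : ℝ) * (L / M) := by
          refine mul_le_mul_of_nonneg_right ?_ (by positivity)
          exact_mod_cast Nat.sub_le M 1
      _ = L := by field_simp
  have e1 : 2 * (((QQ L).totient : ℝ) * (4 * K / (((L / M : ℕ) : ℝ)) ^ 2)) *
      (∑ j ∈ range (M - 1), ((A j).card : ℝ)) ≤ ((QQ L).totient : ℝ) * (1 / M) := by
    have h1 : 8 * K * L / (N0 : ℝ) ^ 2 ≤ 1 / M := by
      rw [div_le_div_iff₀ (by positivity) hM0]
      have h2 : 32 * K * (M : ℝ) ^ 3 * L ≤ (L : ℝ) * L := mul_le_mul_of_nonneg_right hLK' hL0.le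
      have h3 : 4 * (M : ℝ) ^ 2 * (8 * K * L * M) ≤ 4 * (M : ℝ) ^ 2 * (1 * (N0 : ℝ) ^ 2) := by
        calc 4 * (M : ℝ) ^ 2 * (8 * K * L * M) = 32 * K * (M : ℝ) ^ 3 * L := by ring
          _ ≤ (L : ℝ) * L := h2
          _ = (L : ℝ) ^ 2 := by ring
          _ ≤ 4 * (M : ℝ) ^ 2 * (1 * (N0 : ℝ) ^ 2) := by rw [one_mul]; exact hN3
      exact le_of_mul_le_mul_left h3 (by positivity)
    rw [← hN0]
    calc 2 * (((QQ L).totient : ℝ) * (4 * K / (N0 : ℝ) ^ 2)) *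
        (∑ j ∈ range (M - 1), ((A j).card : ℝ)) ≤
        2 * (((QQ L).totient : ℝ) * (4 * K / (N0 : ℝ) ^ 2)) * L :=
          mul_le_mul_of_nonneg_left hsum (by positivity)
      _ = ((QQ L).totient : ℝ) * (8 * K * L / (N0 : ℝ) ^ 2) := by ring
      _ ≤ ((QQ L).totient : ℝ) * (1 / M) := mul_le_mul_of_nonneg_left h1 hφ0
  -- the second error
  have e2 : ((QQ L).totient : ℝ) * (∑ j ∈ range (M - 1), (((A j).card : ℝ) * (lam / L)) ^ 2) ≤
      ((QQ L).totient : ℝ) * (lam ^ 2 / M) := by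
    refine mul_le_mul_of_nonneg_left ?_ hφ0
    calc ∑ j ∈ range (M - 1), (((A j).card : ℝ) * (lam / L)) ^ 2 ≤
        ∑ _j ∈ range (M - 1), (lam / M) ^ 2 :=
          sum_le_sum fun j hj => pow_le_pow_left₀ (by positivity) (hA1 j (mem_range.1 hj)) 2
      _ = ((M - 1 : ℕ) : ℝ) * (lam / M) ^ 2 := by rw [sum_const, card_range, nsmul_eq_mul]
      _ ≤ (M : ℝ) * (lam / M) ^ 2 := by
          refine mul_le_mul_of_nonneg_right ?_ (by positivity)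
          exact_mod_cast Nat.sub_le M 1
      _ = lam ^ 2 / M := by field_simp
  -- the third error
  have e3 : 2 * (lam / L) * (∑ j ∈ range (M - 1), ∑ n ∈ A j, ∑ m ∈ (A j).filter (n < ·),
      ∑ u ∈ UU (QQ L), hI (Set.Icc (-(2 * R)) (2 * R)) L 0 (YY u m - YY u n)) ≤
      ((QQ L).totient : ℝ) * (2 * lam * C0 / M) := by
    have h1 := (pair_inst hB hM R).trans (mul_le_mul_of_nonneg_left hpair hφ0)
    calc 2 * (lam / L) * (∑ j ∈ range (M - 1), ∑ n ∈ A j, ∑ m ∈ (A j).filter (n < ·),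
          ∑ u ∈ UU (QQ L), hI (Set.Icc (-(2 * R)) (2 * R)) L 0 (YY u m - YY u n)) ≤
        2 * (lam / L) * (((QQ L).totient : ℝ) * (C0 * L / M)) :=
          mul_le_mul_of_nonneg_left h1 (by positivity)
      _ = ((QQ L).totient : ℝ) * (2 * lam * C0 / M) := by field_simp
  calc _ ≤ ((QQ L).totient : ℝ) * (1 / M) + ((QQ L).totient : ℝ) * (lam ^ 2 / M) +
        ((QQ L).totient : ℝ) * (2 * lam * C0 / M) := add_le_add (add_le_add e1 e2) e3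
    _ = ((QQ L).totient : ℝ) * ((1 + lam ^ 2 + 2 * lam * C0) / M) := by ring

/-- ROW Lo4b. The proof of `theoremA` (file `Poi/I7.lean`) with `closeness'`, `gfl_diff`, `gfl_le`, `gfl_nonneg` (`β - α ≤ 1`). -/
theorem theoremA' (hT : Tendsto (fun x : ℕ => Chebyshev.theta x / (x : ℝ)) atTop (𝓝 1)) {J : Set ℝ} {lam K R : ℝ}
    (hJ : Nice J lam K R) {α β : ℝ} (hα : 0 ≤ α) (hαβ : α ≤ β) (hβ : β ≤ 1) {ε : ℝ} (hε : 0 < ε) :
    ∀ᶠ L : ℕ in atTop, ∀ x y : ℝ, 0 ≤ x → x ≤ 1 → 0 ≤ y → y ≤ 1 →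
      |(∑ u ∈ UU (QQ L), gfl J L (Icc 1 L) (YY u) x α β * gfl J L (Icc 1 L) (YY u) y α β) / ((QQ L).totient : ℝ) -
        (β - α) ^ 2 * Real.exp (-(lam * (2 - x - y)))| ≤ ε := by
  obtain ⟨C, hC, hcl⟩ := closeness' hT hJ hα hαβ hβ
  have hlam := hJ.lam0
  have hd0 : 0 ≤ β - α := by linarith
  have hd1 : β - α ≤ 1 := by linarith
  have hd2 : (β - α) ^ 2 ≤ 1 := pow_le_one₀ hd0 hd1
  obtain ⟨M0, hM0⟩ := kap_prod hlam (show 0 < ε / 4 by positivity)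
  obtain ⟨M, hM⟩ : ∃ M : ℕ, 2 ≤ M ∧ M0 ≤ M ∧ lam ≤ M ∧ 4 * C / ε ≤ M ∧ 24 * lam / ε ≤ M := by
    refine ⟨2 + M0 + ⌈lam⌉₊ + ⌈4 * C / ε⌉₊ + ⌈24 * lam / ε⌉₊, by omega, by omega, ?_, ?_, ?_⟩
    · refine (Nat.le_ceil lam).trans ?_
      exact_mod_cast (by omega : ⌈lam⌉₊ ≤ 2 + M0 + ⌈lam⌉₊ + ⌈4 * C / ε⌉₊ + ⌈24 * lam / ε⌉₊)
    · refine (Nat.le_ceil (4 * C / ε)).trans ?_
      exact_mod_cast (by omega : ⌈4 * C / ε⌉₊ ≤ 2 + M0 + ⌈lam⌉₊ + ⌈4 * C / ε⌉₊ + ⌈24 * lam / ε⌉₊)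
    · refine (Nat.le_ceil (24 * lam / ε)).trans ?_
      exact_mod_cast (by omega : ⌈24 * lam / ε⌉₊ ≤ 2 + M0 + ⌈lam⌉₊ + ⌈4 * C / ε⌉₊ + ⌈24 * lam / ε⌉₊)
  obtain ⟨hM2, hMM0, hMlam, hMC, hMl⟩ := hM
  have hMpos : (0 : ℝ) < M := by exact_mod_cast (by omega : 0 < M)
  have hCM : C / M ≤ ε / 4 := by
    rw [div_le_iff₀ hε] at hMC
    rw [div_le_iff₀ hMpos]
    linarith
  have hlM : 6 * lam / M ≤ ε / 4 := by
    rw [div_le_iff₀ hε] at hMl
    rw [div_le_iff₀ hMpos]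
    linarith
  filter_upwards [hcl M hM2 hMlam, eventually_ge_atTop (M ^ 2), eventually_gt_atTop ⌈2 * R⌉₊] with L hL hLM hLR
  intro x y hx0 hx1 hy0 hy1
  obtain ⟨A, P, P', hB, hA⟩ := hL
  have hLpos : (0 : ℝ) < L := by
    have : 0 < L := lt_of_lt_of_le (by positivity) hLM
    exact_mod_cast this
  have h2R : 2 * R < L := by
    refine (Nat.le_ceil (2 * R)).trans_lt ?_
    exact_mod_cast hLR
  have hφ0 : (0 : ℝ) < ((QQ L).totient : ℝ) := by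
    exact_mod_cast Nat.totient_pos.2 (QQ_pos L)
  have hsub := blk_sub hB hM2
  have hcu := blk_card_union hB hM2 hLM
  have hIc : ((Icc 1 L).card : ℝ) = L := by
    rw [Nat.card_Icc]
    norm_num
  have hδ : ∀ (u : ℕ) {w : ℝ}, 0 ≤ w → w ≤ 1 →
      |gfl J L (Icc 1 L) (YY u) w α β - gfl J L ((range (M - 1)).biUnion A) (YY u) w α β| ≤ 3 * lam / M := by
    intro u w hw0 hw1
    refine (gfl_diff hJ h2R hsub (YY u) hw0 hw1 hα hαβ hβ).trans ?_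
    rw [hIc]
    have h1 : (L : ℝ) - ((range (M - 1)).biUnion A).card ≤ 3 * L / M := by linarith
    have h2 : (0 : ℝ) ≤ lam / L := by positivity
    refine (mul_le_mul_of_nonneg_right h1 h2).trans (le_of_eq ?_)
    field_simp
  have hpr := hM0 M hMM0 (fun j => ((A j).card : ℝ) * (lam / L)) (fun j hj => by
    have h1 := blk_card_le hB hj
    have h2 := blk_card_ge hB hM2 hLM hj
    have h3 : (0 : ℝ) ≤ lam / L := by positivity
    have h4 := mul_le_mul_of_nonneg_right h1 h3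
    have h5 := mul_le_mul_of_nonneg_right h2 h3
    have e1 : (L : ℝ) / M * (lam / L) = lam / M := by field_simp
    have e2 : ((L : ℝ) / M - 2 * L / (M : ℝ) ^ 2) * (lam / L) = lam / M - 2 * lam / (M : ℝ) ^ 2 := by
      field_simp
    rw [e1] at h4
    rw [e2] at h5
    have h6 : 0 ≤ lam / (M : ℝ) ^ 2 := by positivity
    have e3 : 2 * lam / (M : ℝ) ^ 2 = 2 * (lam / (M : ℝ) ^ 2) := by ring
    have e4 : 4 * lam / (M : ℝ) ^ 2 = 4 * (lam / (M : ℝ) ^ 2) := by ring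
    rw [e3] at h5
    rw [e4, abs_le]
    constructor
    · linarith
    · linarith) (2 - x - y) (by linarith) (by linarith)
  have hpr' : |(β - α) ^ 2 * ∏ j ∈ range (M - 1), (1 - (2 - x - y) * (((A j).card : ℝ) * (lam / L))) -
      (β - α) ^ 2 * Real.exp (-(lam * (2 - x - y)))| ≤ ε / 4 := by
    rw [← mul_sub, abs_mul, abs_of_nonneg (sq_nonneg (β - α))]
    refine (mul_le_mul_of_nonneg_right hd2 (abs_nonneg _)).trans ?_
    rw [one_mul]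
    exact hpr
  have hA' := hA x y hx0 hx1 hy0 hy1
  rw [mul_left_comm ((β - α) ^ 2) (((QQ L).totient : ℝ))] at hA'
  refine I7_step (T := C / M) (by rw [card_UU]) hφ0 _ (fun u => gfl J L ((range (M - 1)).biUnion A) (YY u) x α β) _
    (fun u => gfl J L ((range (M - 1)).biUnion A) (YY u) y α β) (3 * lam / M) _ _ ε (fun u _ => hδ u hx0 hx1)
    (fun u _ => hδ u hy0 hy1)
    (fun u _ => ⟨gfl_nonneg _ _ _ hx0 hαβ, (gfl_le hJ.meas _ _ _ hx0 hx1 hαβ).trans hd1⟩)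
    (fun u _ => ⟨gfl_nonneg _ _ _ hy0 hαβ, (gfl_le hJ.meas _ _ _ hy0 hy1 hαβ).trans hd1⟩) ?_ hA' hCM hpr' hε
  have e5 : 2 * (3 * lam / M) = 6 * lam / M := by ring
  rw [e5]
  exact hlM

end Pool.Agent.Lib.MP_de5eaa_nt.Poi
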