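import Pool.Agent.Lib.MP_de5eaa_nt.Poi.Lo4
import Pool.Agent.Lib.MP_de5eaa_nt.Poi.C4

set_option autoImplicit false

namespace Pool.Agent.Lib.MP_de5eaa_nt.Poi

open Finset MeasureTheory Filter Topology
open Pool.Agent.Lib.MP_de5eaa_nt.Near (hs wq)

open Classical in
/-- ROW Lo5. The proof of `finite_poisson` (file `Poi/C4.lean`). With `h = β - α > 0`: `theoremA'` for `(x, x)` gives `avg f^2 → h^2 e^2`, and for
`(x, 1)` (`gfl_one`) `avg f * h → h^2 e` (divide by `h`: use `theoremA'` with `ε' h`), where `f u = gfl x`, `e = exp(-(lam (1-x)))`. `cheb_var` with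
`e := h e ∈ [0,1]`. For the good `u` apply `inversion` to `q i = pvl i / h ∈ [0,1]` (`gfl_eq`, `pvl_le`, `pvl_zero`; `|gfl x/h - e| ≤ δ` if
`|gfl x - h e| ≤ δ h`), and multiply by `h ≤ 1`. -/
theorem finite_poisson' (hT : Tendsto (fun x : ℕ => Chebyshev.theta x / (x : ℝ)) atTop (𝓝 1)) {J : Set ℝ} {lam K R : ℝ}
    (hJ : Nice J lam K R) (r : ℕ) {α β : ℝ} (hα : 0 ≤ α) (hαβ : α < β) (hβ : β ≤ 1) {ε : ℝ} (hε : 0 < ε) :
    ∀ᶠ L : ℕ in atTop, (((UU (QQ L)).filter fun u => ε < |pvl J L (Icc 1 L) (YY u) r α β -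
        (β - α) * (Real.exp (-lam) * lam ^ r / (Nat.factorial r : ℝ))|).card : ℝ) ≤ ε * ((QQ L).totient : ℝ) := by
  obtain ⟨X, hX, δ, hδ, hinv⟩ := inversion hJ.lam0 r hε
  obtain ⟨h, hh⟩ : ∃ h : ℝ, h = β - α := ⟨_, rfl⟩
  have hh0 : 0 < h := by
    rw [hh]
    linarith
  have hh1 : h ≤ 1 := by
    rw [hh]
    linarith
  set ε' : ℝ := min (δ * h) (ε / ((X.card : ℝ) + 1)) with hε'
  have hX1 : (0 : ℝ) < (X.card : ℝ) + 1 := by positivity
  have hδh : 0 < δ * h := mul_pos hδ hh0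
  have hε'0 : 0 < ε' := lt_min hδh (div_pos hε hX1)
  have hε'δ : ε' ≤ δ * h := min_le_left _ _
  have hε'ε : (X.card : ℝ) * ε' ≤ ε := by
    have h1 : ε' ≤ ε / ((X.card : ℝ) + 1) := min_le_right _ _
    have h2 : ε' * ((X.card : ℝ) + 1) ≤ ε := (le_div_iff₀ hX1).1 h1
    nlinarith
  have hδ' : 0 < ε' ^ 3 / 3 := by positivity
  have hδ'' : 0 < ε' ^ 3 / 3 * h := mul_pos hδ' hh0
  have hδ1 : ε' ^ 3 / 3 * h ≤ ε' ^ 3 / 3 := by nlinarith
  filter_upwards [theoremA' hT hJ hα hαβ.le hβ hδ''] with L hL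
  have hcard : ((UU (QQ L)).card : ℝ) = ((QQ L).totient : ℝ) := by rw [card_UU]
  set B : ℝ → Finset ℕ := fun x => (UU (QQ L)).filter fun u =>
    ε' < |gfl J L (Icc 1 L) (YY u) x α β - h * Real.exp (-(lam * (1 - x)))| with hB
  have hBx : ∀ x ∈ X, ((B x).card : ℝ) ≤ ε' * ((QQ L).totient : ℝ) := by
    intro x hx
    obtain ⟨hx0, hx1⟩ := hX x hx
    have he1 : Real.exp (-(lam * (1 - x))) ≤ 1 := by
      rw [Real.exp_le_one_iff]
      have : 0 ≤ lam * (1 - x) := mul_nonneg hJ.lam0 (by linarith)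
      linarith
    have he0 : 0 ≤ Real.exp (-(lam * (1 - x))) := Real.exp_nonneg _
    have h2 := hL x x hx0 hx1 hx0 hx1
    have h1 := hL x 1 hx0 hx1 zero_le_one le_rfl
    have e2 : (β - α) ^ 2 * Real.exp (-(lam * (2 - x - x))) = (h * Real.exp (-(lam * (1 - x)))) ^ 2 := by
      rw [mul_pow, ← Real.exp_nat_mul, hh]
      congr 2
      push_cast
      ring
    have e1 : Real.exp (-(lam * (2 - x - 1))) = Real.exp (-(lam * (1 - x))) := by
      congr 1
      ring
    rw [e2] at h2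
    rw [e1] at h1
    simp only [gfl_one] at h1
    rw [← hh, ← Finset.sum_mul] at h1
    have h1' : |(∑ u ∈ UU (QQ L), gfl J L (Icc 1 L) (YY u) x α β) / ((QQ L).totient : ℝ) -
        h * Real.exp (-(lam * (1 - x)))| ≤ ε' ^ 3 / 3 := by
      have e3 : (∑ u ∈ UU (QQ L), gfl J L (Icc 1 L) (YY u) x α β) * h / ((QQ L).totient : ℝ) -
          h ^ 2 * Real.exp (-(lam * (1 - x))) =
          ((∑ u ∈ UU (QQ L), gfl J L (Icc 1 L) (YY u) x α β) / ((QQ L).totient : ℝ) -
            h * Real.exp (-(lam * (1 - x)))) * h := by ring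
      rw [e3, abs_mul, abs_of_pos hh0] at h1
      exact le_of_mul_le_mul_right h1 hh0
    have h3 := cheb_var (UU (QQ L)) (fun u => gfl J L (Icc 1 L) (YY u) x α β)
      (e := h * Real.exp (-(lam * (1 - x)))) (mul_nonneg hh0.le he0) (by nlinarith) hε'0
      (δ := ε' ^ 3 / 3) (by linarith)
      (by
        rw [hcard]
        refine le_trans ?_ hδ1
        simpa only [pow_two] using h2)
      (by
        rw [hcard]
        exact h1')
    rw [hcard] at h3
    exact h3
  have hsub : ((UU (QQ L)).filter fun u => ε < |pvl J L (Icc 1 L) (YY u) r α β -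
      (β - α) * (Real.exp (-lam) * lam ^ r / (Nat.factorial r : ℝ))|) ⊆ X.biUnion B := by
    intro u hu
    obtain ⟨huU, hu'⟩ := Finset.mem_filter.1 hu
    by_contra hcon
    rw [Finset.mem_biUnion] at hcon
    push Not at hcon
    have hq := hinv L (fun i => pvl J L (Icc 1 L) (YY u) i α β / h)
      (fun i => div_nonneg (pvl_nonneg _ _ _ _ i α β) hh0.le)
      (fun i => (div_le_one hh0).2 (by
        rw [hh]
        exact pvl_le _ _ _ _ i hαβ.le))
      (fun i hi => by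
        show pvl J L (Icc 1 L) (YY u) i α β / h = 0
        rw [pvl_zero J (L : ℝ) (Icc 1 L) (YY u) (r := i) (by
          rw [Nat.card_Icc]
          omega) α β, zero_div]) ?_
    · refine absurd ?_ (not_le.2 hu')
      have e4 : pvl J L (Icc 1 L) (YY u) r α β -
          (β - α) * (Real.exp (-lam) * lam ^ r / (Nat.factorial r : ℝ)) =
          (pvl J L (Icc 1 L) (YY u) r α β / h -
            Real.exp (-lam) * lam ^ r / (Nat.factorial r : ℝ)) * h := by
        rw [← hh, sub_mul, div_mul_cancel₀ _ hh0.ne']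
        ring
      rw [e4, abs_mul, abs_of_pos hh0]
      calc |pvl J L (Icc 1 L) (YY u) r α β / h -
            Real.exp (-lam) * lam ^ r / (Nat.factorial r : ℝ)| * h ≤ ε * h :=
            mul_le_mul_of_nonneg_right hq hh0.le
        _ ≤ ε * 1 := mul_le_mul_of_nonneg_left hh1 hε.le
        _ = ε := mul_one ε
    · intro x hx
      have h1 := hcon x hx
      rw [hB, Finset.mem_filter, not_and, not_lt] at h1
      have h2 := gfl_eq hJ.meas (L : ℝ) (Icc 1 L) (YY u) x hαβ.le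
      rw [Nat.card_Icc, Nat.add_sub_cancel] at h2
      have h3 := (h1 huU).trans hε'δ
      have e5 : (∑ i ∈ range (L + 1), pvl J L (Icc 1 L) (YY u) i α β / h * x ^ i) =
          gfl J L (Icc 1 L) (YY u) x α β / h := by
        rw [h2, Finset.sum_div]
        refine Finset.sum_congr rfl fun i _ => ?_
        ring
      rw [e5]
      have e6 : gfl J L (Icc 1 L) (YY u) x α β - h * Real.exp (-(lam * (1 - x))) =
          (gfl J L (Icc 1 L) (YY u) x α β / h - Real.exp (-(lam * (1 - x)))) * h := by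
        rw [sub_mul, div_mul_cancel₀ _ hh0.ne']
        ring
      rw [e6, abs_mul, abs_of_pos hh0] at h3
      exact le_of_mul_le_mul_right h3 hh0
  calc (((UU (QQ L)).filter fun u => ε < |pvl J L (Icc 1 L) (YY u) r α β -
        (β - α) * (Real.exp (-lam) * lam ^ r / (Nat.factorial r : ℝ))|).card : ℝ)
      ≤ ((X.biUnion B).card : ℝ) := by exact_mod_cast Finset.card_le_card hsub
    _ ≤ ∑ x ∈ X, ((B x).card : ℝ) := by
        have h1 : (X.biUnion B).card ≤ ∑ x ∈ X, (B x).card := Finset.card_biUnion_le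
        exact_mod_cast h1
    _ ≤ ∑ x ∈ X, ε' * ((QQ L).totient : ℝ) := Finset.sum_le_sum hBx
    _ = (X.card : ℝ) * ε' * ((QQ L).totient : ℝ) := by
        rw [Finset.sum_const, nsmul_eq_mul]
        ring
    _ ≤ ε * ((QQ L).totient : ℝ) := mul_le_mul_of_nonneg_right hε'ε (Nat.cast_nonneg _)

end Pool.Agent.Lib.MP_de5eaa_nt.Poi
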