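import Pool.Agent.Lib.MP_de5eaa_nt.Poi.Lo2

set_option autoImplicit false

namespace Pool.Agent.Lib.MP_de5eaa_nt.Poi

open Finset MeasureTheory Filter Topology
open Pool.Agent.Lib.MP_de5eaa_nt.Near (hs wq)

theorem Lo6a_hit_t (J : Set ℝ) (L t y : ℝ) (a : ℤ) : Hit J L (t + a) y ↔ Hit J L t y := by
  constructor
  · rintro ⟨b, hb⟩
    refine ⟨a + b, ?_⟩
    have h1 : L * (y - t - ((a + b : ℤ) : ℝ)) = L * (y - (t + a) - b) := by
      push_cast
      ring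
    rw [h1]
    exact hb
  · rintro ⟨b, hb⟩
    refine ⟨b - a, ?_⟩
    have h1 : L * (y - (t + a) - ((b - a : ℤ) : ℝ)) = L * (y - t - b) := by
      push_cast
      ring
    rw [h1]
    exact hb

theorem Lo6a_hit_shift (J : Set ℝ) (L t y c : ℝ) : Hit J L t (y + c) ↔ Hit J L (t + -c) y := by
  constructor
  · rintro ⟨b, hb⟩
    refine ⟨b, ?_⟩
    have h1 : L * (y - (t + -c) - b) = L * (y + c - t - b) := by ring
    rw [h1]
    exact hb
  · rintro ⟨b, hb⟩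
    refine ⟨b, ?_⟩
    have h1 : L * (y + c - t - b) = L * (y - (t + -c) - b) := by ring
    rw [h1]
    exact hb

theorem Lo6a_cnt_t (J : Set ℝ) (L : ℝ) (I : Finset ℕ) (y : ℕ → ℝ) (t : ℝ) (a : ℤ) :
    cnt J L I y (t + a) = cnt J L I y t := by
  classical
  unfold cnt
  congr 1
  ext n
  rw [Finset.mem_filter, Finset.mem_filter]
  exact and_congr_right fun _ => Lo6a_hit_t J L t (y n) a

theorem Lo6a_cnt_shift (J : Set ℝ) (L : ℝ) (I : Finset ℕ) (y : ℕ → ℝ) (t c : ℝ) :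
    cnt J L I (fun n => y n + c) t = cnt J L I y (t + -c) := by
  classical
  unfold cnt
  congr 1
  ext n
  rw [Finset.mem_filter, Finset.mem_filter]
  exact and_congr_right fun _ => Lo6a_hit_shift J L t (y n) c

theorem Lo6a_trans (S S' : Set ℝ) (a α β α' β' : ℝ) (hα : α' = α + a) (hβ : β' = β + a)
    (h : ∀ t, t ∈ S ↔ t + a ∈ S') :
    volume (S ∩ Set.Ioc α β) = volume (S' ∩ Set.Ioc α' β') := by
  have h1 : S ∩ Set.Ioc α β = (fun t : ℝ => t + a) ⁻¹' (S' ∩ Set.Ioc α' β') := by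
    ext t
    rw [Set.mem_preimage, Set.mem_inter_iff, Set.mem_inter_iff, h t, Set.mem_Ioc, Set.mem_Ioc]
    constructor
    · rintro ⟨h2, h3, h4⟩
      exact ⟨h2, by linarith, by linarith⟩
    · rintro ⟨h2, h3, h4⟩
      exact ⟨h2, by linarith, by linarith⟩
  rw [h1, measure_preimage_add_right]

/-- ROW Lo6a. Translation invariance of the volume: `cnt J L I (fun n => y n + c) t = cnt J L I y (t - c)`, `cnt J L I y (t + k) = cnt J L I y t` for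
integers `k` (see `Poi/M5.lean`). `pvl_add`: disjoint union of `Ioc α β` and `Ioc β γ` (measurable sets, finite measures). -/
theorem pvl_shift {J : Set ℝ} (hJ : MeasurableSet J) (L : ℝ) (I : Finset ℕ) (y : ℕ → ℝ) (r : ℕ) (c α β : ℝ) :
    pvl J L I (fun n => y n + c) r α β = pvl J L I y r (α - c) (β - c) := by
  unfold pvl
  rw [Lo6a_trans {t | cnt J L I (fun n => y n + c) t = r} {t | cnt J L I y t = r} (-c) α β (α - c) (β - c)
    (sub_eq_add_neg α c) (sub_eq_add_neg β c) (fun t => ?_)]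
  change cnt J L I (fun n => y n + c) t = r ↔ cnt J L I y (t + -c) = r
  rw [Lo6a_cnt_shift]

theorem pvl_period {J : Set ℝ} (hJ : MeasurableSet J) (L : ℝ) (I : Finset ℕ) (y : ℕ → ℝ) (r : ℕ) (k : ℤ) (α β : ℝ) :
    pvl J L I y r (α + k) (β + k) = pvl J L I y r α β := by
  unfold pvl
  rw [← Lo6a_trans {t | cnt J L I y t = r} {t | cnt J L I y t = r} (k : ℝ) α β (α + k) (β + k) rfl rfl
    (fun t => ?_)]
  change cnt J L I y t = r ↔ cnt J L I y (t + (k : ℝ)) = r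
  rw [Lo6a_cnt_t]

theorem pvl_add {J : Set ℝ} (hJ : MeasurableSet J) (L : ℝ) (I : Finset ℕ) (y : ℕ → ℝ) (r : ℕ) {α β γ : ℝ}
    (h1 : α ≤ β) (h2 : β ≤ γ) : pvl J L I y r α γ = pvl J L I y r α β + pvl J L I y r β γ := by
  have hS : MeasurableSet {t | cnt J L I y t = r} := meas_cnt hJ L I y (measurableSet_singleton r)
  have hu : {t | cnt J L I y t = r} ∩ Set.Ioc α γ =
      ({t | cnt J L I y t = r} ∩ Set.Ioc α β) ∪ ({t | cnt J L I y t = r} ∩ Set.Ioc β γ) := by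
    rw [← Set.inter_union_distrib_left, Set.Ioc_union_Ioc_eq_Ioc h1 h2]
  have hd : Disjoint ({t | cnt J L I y t = r} ∩ Set.Ioc α β) ({t | cnt J L I y t = r} ∩ Set.Ioc β γ) := by
    rw [Set.disjoint_left]
    rintro t ⟨_, _, h3⟩ ⟨_, h4, _⟩
    exact absurd h3 (not_le.2 h4)
  have hf : ∀ a b : ℝ, volume ({t | cnt J L I y t = r} ∩ Set.Ioc a b) ≠ ⊤ := fun a b =>
    ne_top_of_le_ne_top measure_Ioc_lt_top.ne (measure_mono Set.inter_subset_right)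
  unfold pvl
  rw [hu, measure_union hd (hS.inter measurableSet_Ioc), ENNReal.toReal_add (hf α β) (hf β γ)]

theorem Lo6b_cell {f : ℝ → ℝ → ℝ} (hper : ∀ (k : ℤ) (α β : ℝ), f (α + k) (β + k) = f α β) {m : ℕ} (hm : 0 < m)
    {lam' η : ℝ} (h : ∀ i : ℕ, i < m → |f ((i : ℝ) / m) (((i : ℝ) + 1) / m) - lam' / m| ≤ η / m) (k : ℤ) :
    |f ((k : ℝ) / m) (((k : ℝ) + 1) / m) - lam' / m| ≤ η / m := by
  have hm0 : (m : ℝ) ≠ 0 := by exact_mod_cast hm.ne'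
  have hmz : (0 : ℤ) < m := by exact_mod_cast hm
  have h1 : (0 : ℤ) ≤ k % m := Int.emod_nonneg k hmz.ne'
  have h2 : k % m < m := Int.emod_lt_of_pos k hmz
  obtain ⟨i, hi⟩ := Int.eq_ofNat_of_zero_le h1
  have h3 : i < m := by
    have : (i : ℤ) < m := by rw [← hi]; exact h2
    exact_mod_cast this
  have h4 : k = (i : ℤ) + m * (k / m) := by
    rw [← hi]
    exact (Int.emod_add_mul_ediv k m).symm
  have h5 : (k : ℝ) = (i : ℝ) + m * ((k / (m : ℤ) : ℤ) : ℝ) := by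
    have h6 := congrArg (fun z : ℤ => (z : ℝ)) h4
    push_cast at h6
    exact h6
  have h7 := h i h3
  rw [← hper (k / (m : ℤ))] at h7
  have h8 : (i : ℝ) / m + ((k / (m : ℤ) : ℤ) : ℝ) = (k : ℝ) / m := by
    rw [h5]
    field_simp
  have h9 : ((i : ℝ) + 1) / m + ((k / (m : ℤ) : ℤ) : ℝ) = ((k : ℝ) + 1) / m := by
    rw [h5]
    field_simp
    ring
  rw [h8, h9] at h7
  exact h7

theorem Lo6b_sum {f : ℝ → ℝ → ℝ} (hadd : ∀ α β γ : ℝ, α ≤ β → β ≤ γ → f α γ = f α β + f β γ)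
    (hnn : ∀ α β : ℝ, 0 ≤ f α β) (hle : ∀ α β : ℝ, α ≤ β → f α β ≤ β - α) {m : ℕ} (hm : 0 < m)
    {lam' η : ℝ} (h : ∀ k : ℤ, |f ((k : ℝ) / m) (((k : ℝ) + 1) / m) - lam' / m| ≤ η / m) (k : ℤ) (j : ℕ) :
    |f ((k : ℝ) / m) (((k : ℝ) + j) / m) - j * (lam' / m)| ≤ j * (η / m) := by
  have hm0 : (0 : ℝ) < m := by exact_mod_cast hm
  induction j with
  | zero =>
    have h1 := hnn ((k : ℝ) / m) ((k : ℝ) / m)
    have h2 := hle ((k : ℝ) / m) ((k : ℝ) / m) le_rfl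
    rw [sub_self] at h2
    have h3 : f ((k : ℝ) / m) ((k : ℝ) / m) = 0 := le_antisymm h2 h1
    simp [h3]
  | succ j ih =>
    have h1 : (k : ℝ) / m ≤ ((k : ℝ) + j) / m := by
      apply div_le_div_of_nonneg_right _ hm0.le
      have : (0 : ℝ) ≤ j := Nat.cast_nonneg j
      linarith
    have h2 : ((k : ℝ) + j) / m ≤ ((k : ℝ) + (j + 1 : ℕ)) / m := by
      apply div_le_div_of_nonneg_right _ hm0.le
      push_cast
      linarith
    have h3 := hadd _ _ _ h1 h2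
    have h4 := h (k + j)
    have h5 : (((k + j : ℤ) : ℝ)) = (k : ℝ) + j := by push_cast; rfl
    rw [h5] at h4
    have h6 : (k : ℝ) + j + 1 = (k : ℝ) + (j + 1 : ℕ) := by push_cast; ring
    rw [h6] at h4
    rw [h3, abs_le]
    rw [abs_le] at h4 ih
    push_cast at h4 ⊢
    constructor
    · linarith [h4.1, ih.1]
    · linarith [h4.2, ih.2]

theorem Lo6b_all {f : ℝ → ℝ → ℝ} (hadd : ∀ α β γ : ℝ, α ≤ β → β ≤ γ → f α γ = f α β + f β γ)
    (hnn : ∀ α β : ℝ, 0 ≤ f α β) (hle : ∀ α β : ℝ, α ≤ β → f α β ≤ β - α) {m : ℕ} (hm : 0 < m)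
    {lam' η : ℝ} (h0 : 0 ≤ lam') (h1 : lam' ≤ 1)
    (h : ∀ k : ℤ, |f ((k : ℝ) / m) (((k : ℝ) + 1) / m) - lam' / m| ≤ η / m) (a b : ℝ) (hab : a ≤ b)
    (hb : b ≤ a + 1) : |f a b - (b - a) * lam'| ≤ 2 * η + 4 / m := by
  have hm0 : (0 : ℝ) < m := by exact_mod_cast hm
  have hη : 0 ≤ η := by
    have h2 := le_trans (abs_nonneg _) (h 0)
    rcases le_or_gt 0 η with h3 | h3
    · exact h3
    · exact absurd h2 (not_le.2 (div_neg_of_neg_of_pos h3 hm0))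
  have ha1 := Int.floor_le (a * m)
  have ha2 := Int.lt_floor_add_one (a * m)
  have hb1 := Int.floor_le (b * m)
  have hb2 := Int.lt_floor_add_one (b * m)
  have hle1 : ⌊a * m⌋ ≤ ⌊b * m⌋ := Int.floor_le_floor (mul_le_mul_of_nonneg_right hab hm0.le)
  obtain ⟨j, hj⟩ := Int.eq_ofNat_of_zero_le (sub_nonneg.2 hle1)
  have hjr : ((⌊b * m⌋ : ℤ) : ℝ) = (⌊a * m⌋ : ℤ) + (j : ℝ) := by
    have h2 := congrArg (fun z : ℤ => (z : ℝ)) hj
    push_cast at h2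
    linarith
  have hjm : (j : ℝ) ≤ m := by
    have h2 : ⌊b * m⌋ ≤ ⌊a * m⌋ + m := by
      have h3 : b * m ≤ a * m + ((m : ℤ) : ℝ) := by
        push_cast
        nlinarith
      have h4 := Int.floor_le_floor h3
      rwa [Int.floor_add_intCast] at h4
    have h3 : ((⌊b * m⌋ : ℤ) : ℝ) ≤ ((⌊a * m⌋ + m : ℤ) : ℝ) := by exact_mod_cast h2
    push_cast at h3
    linarith
  have e1 : (((⌊a * m⌋ : ℤ) : ℝ)) / m ≤ a := by
    rw [div_le_iff₀ hm0]
    exact ha1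
  have e2 : a - ((⌊a * m⌋ : ℤ) : ℝ) / m ≤ 1 / m := by
    rw [sub_le_iff_le_add, ← add_div, le_div_iff₀ hm0]
    linarith
  have e3 : (((⌊b * m⌋ : ℤ) : ℝ)) / m ≤ b := by
    rw [div_le_iff₀ hm0]
    exact hb1
  have e4 : b - ((⌊b * m⌋ : ℤ) : ℝ) / m ≤ 1 / m := by
    rw [sub_le_iff_le_add, ← add_div, le_div_iff₀ hm0]
    linarith
  have e5 : ((⌊a * m⌋ : ℤ) : ℝ) / m ≤ ((⌊b * m⌋ : ℤ) : ℝ) / m := by
    apply div_le_div_of_nonneg_right _ hm0.le
    exact_mod_cast hle1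
  have s1 := hadd _ _ _ e1 hab
  have s2 := hadd _ _ _ e5 e3
  have s3 := hle _ _ e1
  have s4 := hle _ _ e3
  have s5 := hnn (((⌊a * m⌋ : ℤ) : ℝ) / m) a
  have s6 := hnn (((⌊b * m⌋ : ℤ) : ℝ) / m) b
  have s7 := Lo6b_sum hadd hnn hle hm h ⌊a * m⌋ j
  rw [← hjr] at s7
  have s8 : ((⌊b * m⌋ : ℤ) : ℝ) / m = ((⌊a * m⌋ : ℤ) : ℝ) / m + j / m := by
    rw [hjr, add_div]
  have s9 : (j : ℝ) * (η / m) ≤ η := by
    have : (j : ℝ) * (η / m) = (j / m) * η := by ring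
    rw [this]
    have h2 : (j : ℝ) / m ≤ 1 := by
      rw [div_le_one hm0]
      exact hjm
    nlinarith
  have s10 : |(j : ℝ) / m - (b - a)| ≤ 1 / m := by
    rw [abs_le]
    constructor
    · linarith
    · linarith
  have s11 : |(j : ℝ) * (lam' / m) - (b - a) * lam'| ≤ 1 / m := by
    have h2 : (j : ℝ) * (lam' / m) - (b - a) * lam' = ((j : ℝ) / m - (b - a)) * lam' := by ring
    rw [h2, abs_mul, abs_of_nonneg h0]
    have h3 : |(j : ℝ) / m - (b - a)| * lam' ≤ |(j : ℝ) / m - (b - a)| * 1 :=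
      mul_le_mul_of_nonneg_left h1 (abs_nonneg _)
    linarith
  have s12 : (0 : ℝ) < 1 / m := by positivity
  have s13 : (4 : ℝ) / m = 4 * (1 / m) := by ring
  rw [s13]
  rw [abs_le] at s7 s11 ⊢
  constructor
  · linarith [s7.1, s7.2, s11.1, s11.2]
  · linarith [s7.1, s7.2, s11.1, s11.2]

/-- ROW Lo6b. By `pvl_period` the hypothesis holds for all integers `k`: `|pvl (k/m) ((k+1)/m) - lam'/m| ≤ η/m` (`k = i + m q`, `i = k % m`). Let
`i0 = ⌊a m⌋`, `i1 = ⌊b m⌋` (integers, `i0 ≤ i1 ≤ i0 + m + 1`). By `pvl_add` and `0 ≤ pvl ≤ length` (`pvl_le`) `pvl a b` differs from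
`pvl (i0/m) (i1/m) = ∑_{i0 ≤ k < i1} pvl (k/m) ((k+1)/m)` by at most `1/m` at each end; the sum differs from `lam' (i1 - i0)/m` by at
most `(m+1) η/m ≤ 2 η`, and `|(i1 - i0)/m - (b - a)| ≤ 1/m`, `0 ≤ lam' ≤ 1`. (`0 ≤ η` follows from the hypothesis for `i = 0`.) -/
theorem grid_all {J : Set ℝ} (hJ : MeasurableSet J) (L : ℝ) (I : Finset ℕ) (y : ℕ → ℝ) (r : ℕ) {m : ℕ} (hm : 0 < m)
    {lam' η : ℝ} (h0 : 0 ≤ lam') (h1 : lam' ≤ 1)
    (h : ∀ i : ℕ, i < m → |pvl J L I y r ((i : ℝ) / m) (((i : ℝ) + 1) / m) - lam' / m| ≤ η / m) (a b : ℝ) (hab : a ≤ b)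
    (hb : b ≤ a + 1) : |pvl J L I y r a b - (b - a) * lam'| ≤ 2 * η + 4 / m :=
  Lo6b_all (f := fun α β => pvl J L I y r α β) (fun _ _ _ h2 h3 => pvl_add hJ L I y r h2 h3)
    (fun α β => pvl_nonneg J L I y r α β) (fun _ _ h2 => pvl_le J L I y r h2) hm h0 h1
    (Lo6b_cell (f := fun α β => pvl J L I y r α β) (fun k α β => pvl_period hJ L I y r k α β) hm h) a b hab hb

end Pool.Agent.Lib.MP_de5eaa_nt.Poi
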