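import Pool.Agent.Lib.MP_de5eaa_nt.Poi.P4

/-! Total variation distance. -/

set_option autoImplicit false

namespace Pool.Agent.Lib.MP_de5eaa_nt.Poi

open Finset MeasureTheory Filter Topology
open Pool.Agent.Lib.MP_de5eaa_nt.Near (hs wq ppi)

/-- the Poisson probabilities -/
noncomputable def poi (lam : ℝ) (r : ℕ) : ℝ := Real.exp (-lam) * lam ^ r / (Nat.factorial r : ℝ)

theorem poi_nonneg {lam : ℝ} (h : 0 ≤ lam) (r : ℕ) : 0 ≤ poi lam r := by
  unfold poi
  positivity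

theorem poi_hasSum (lam : ℝ) : HasSum (poi lam) 1 := by
  have h1 : HasSum (fun r : ℕ => lam ^ r / (Nat.factorial r : ℝ)) (Real.exp lam) := by
    rw [Real.exp_eq_exp_ℝ]
    exact NormedSpace.expSeries_div_hasSum_exp lam
  have h2 := h1.mul_left (Real.exp (-lam))
  rw [← Real.exp_add, neg_add_cancel, Real.exp_zero] at h2
  refine h2.congr_fun ?_
  intro r
  unfold poi
  rw [mul_div_assoc]

theorem poi_sum_le {lam : ℝ} (h : 0 ≤ lam) (F : Finset ℕ) : ∑ r ∈ F, poi lam r ≤ 1 :=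
  sum_le_hasSum F (fun r _ => poi_nonneg h r) (poi_hasSum lam)

theorem pv_sum_le {J : Set ℝ} (hJ : MeasurableSet J) (L : ℝ) (I : Finset ℕ) (y : ℕ → ℝ) (F : Finset ℕ) :
    ∑ r ∈ F, pv J L I y r ≤ 1 := by
  have hm : ∀ r, MeasurableSet ({t | cnt J L I y t = r} ∩ Set.Ioc (0 : ℝ) 1) := fun r =>
    ((meas_cnt hJ L I y) (measurableSet_singleton r)).inter measurableSet_Ioc
  have hd : Set.PairwiseDisjoint (F : Set ℕ) fun r => {t | cnt J L I y t = r} ∩ Set.Ioc (0 : ℝ) 1 := by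
    intro r _ s _ hrs
    rw [Function.onFun, Set.disjoint_left]
    rintro t ⟨h1, _⟩ ⟨h2, _⟩
    exact hrs (h1.symm.trans h2)
  have hfin : ∀ r, volume ({t | cnt J L I y t = r} ∩ Set.Ioc (0 : ℝ) 1) ≠ ⊤ := by
    intro r
    refine ne_top_of_le_ne_top ?_ (measure_mono Set.inter_subset_right)
    rw [Real.volume_Ioc]
    exact ENNReal.ofReal_ne_top
  have h1 : volume (⋃ r ∈ F, {t | cnt J L I y t = r} ∩ Set.Ioc (0 : ℝ) 1) =
      ∑ r ∈ F, volume ({t | cnt J L I y t = r} ∩ Set.Ioc (0 : ℝ) 1) :=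
    measure_biUnion_finset hd fun r _ => hm r
  have h2 : volume (⋃ r ∈ F, {t | cnt J L I y t = r} ∩ Set.Ioc (0 : ℝ) 1) ≤ 1 := by
    have h3 : (⋃ r ∈ F, {t | cnt J L I y t = r} ∩ Set.Ioc (0 : ℝ) 1) ⊆ Set.Ioc (0 : ℝ) 1 := by
      intro t ht
      simp only [Set.mem_iUnion] at ht
      obtain ⟨r, _, hr⟩ := ht
      exact hr.2
    refine (measure_mono h3).trans ?_
    rw [Real.volume_Ioc]
    simp
  unfold pv
  rw [← ENNReal.toReal_sum fun r _ => hfin r, ← h1]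
  calc (volume (⋃ r ∈ F, {t | cnt J L I y t = r} ∩ Set.Ioc (0 : ℝ) 1)).toReal ≤ (1 : ENNReal).toReal :=
        ENNReal.toReal_mono ENNReal.one_ne_top h2
    _ = 1 := by simp

/-- Closeness for the small values gives closeness in total variation. -/
theorem tv_close {lam ε : ℝ} (hlam : 0 ≤ lam) (hε : 0 < ε) : ∃ r0 : ℕ, ∃ δ : ℝ, 0 < δ ∧ (r0 : ℝ) * δ ≤ ε ∧
    ∀ q : ℕ → ℝ, (∀ i, 0 ≤ q i) → (∀ F : Finset ℕ, ∑ i ∈ F, q i ≤ 1) → (∀ i < r0, |q i - poi lam i| ≤ δ) →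
      ∀ F : Finset ℕ, ∑ i ∈ F, |q i - poi lam i| ≤ ε := by
  have h1 := (poi_hasSum lam).tendsto_sum_nat
  have h2 : ∀ᶠ n : ℕ in atTop, 1 - ε / 8 < ∑ i ∈ range n, poi lam i :=
    h1.eventually (lt_mem_nhds (by linarith))
  obtain ⟨r0, hr0⟩ := h2.exists
  have hr1 : (0 : ℝ) < (r0 : ℝ) + 1 := by positivity
  refine ⟨r0, ε / (8 * (r0 + 1)), by positivity, ?_, ?_⟩
  · rw [mul_div_assoc', div_le_iff₀ (by positivity)]
    nlinarith
  · intro q hq hq1 hc F
    have hδ : (r0 : ℝ) * (ε / (8 * (r0 + 1))) ≤ ε / 8 := by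
      rw [mul_div_assoc', div_le_iff₀ (by positivity)]
      nlinarith
    have e1 : ∑ i ∈ range r0, |q i - poi lam i| ≤ ε / 8 := by
      have h3 : ∑ i ∈ range r0, |q i - poi lam i| ≤ ∑ _i ∈ range r0, ε / (8 * (r0 + 1)) :=
        Finset.sum_le_sum fun i hi => hc i (mem_range.1 hi)
      rw [Finset.sum_const, card_range, nsmul_eq_mul] at h3
      exact h3.trans hδ
    set F2 := F.filter fun i => ¬ i < r0 with hF2
    have hdis : Disjoint (range r0) F2 := by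
      rw [Finset.disjoint_left]
      intro i hi hi2
      rw [hF2, mem_filter] at hi2
      exact hi2.2 (mem_range.1 hi)
    have hsub : F ⊆ range r0 ∪ F2 := by
      intro i hi
      rw [mem_union, hF2, mem_filter, mem_range]
      by_cases h : i < r0
      · exact Or.inl h
      · exact Or.inr ⟨hi, h⟩
    have e2 : ∑ i ∈ F, |q i - poi lam i| ≤ (∑ i ∈ range r0, |q i - poi lam i|) + ∑ i ∈ F2, |q i - poi lam i| := by
      rw [← Finset.sum_union hdis]
      exact Finset.sum_le_sum_of_subset_of_nonneg hsub fun i _ _ => abs_nonneg _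
    have e3 : ∑ i ∈ F2, |q i - poi lam i| ≤ (∑ i ∈ F2, q i) + ∑ i ∈ F2, poi lam i := by
      rw [← Finset.sum_add_distrib]
      refine Finset.sum_le_sum fun i _ => ?_
      have := hq i
      have := poi_nonneg hlam i
      rw [abs_le]
      constructor <;> linarith
    have e4 : (∑ i ∈ range r0, q i) + ∑ i ∈ F2, q i ≤ 1 := by
      rw [← Finset.sum_union hdis]
      exact hq1 _
    have e5 : (∑ i ∈ range r0, poi lam i) + ∑ i ∈ F2, poi lam i ≤ 1 := by
      rw [← Finset.sum_union hdis]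
      exact poi_sum_le hlam _
    have e6 : ∑ i ∈ range r0, poi lam i ≤ (∑ i ∈ range r0, q i) + ∑ i ∈ range r0, |q i - poi lam i| := by
      rw [← Finset.sum_add_distrib]
      refine Finset.sum_le_sum fun i _ => ?_
      have := neg_abs_le (q i - poi lam i)
      linarith
    linarith

open Classical in
/-- **Theorem.** -/
theorem main_all {J : Set ℝ} {lam K R : ℝ} (hJ : Nice J lam K R) {ε : ℝ} (hε : 0 < ε) : ∃ L0 : ℕ, ∀ L : ℕ, L0 ≤ L →
    ∃ x0 : ℕ, ∀ x : ℕ, x0 ≤ x →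
      (((range (x + 1)).filter fun p => p.Prime ∧ ∃ F : Finset ℕ,
        ε < ∑ r ∈ F, |pv J L (Icc 1 L) (fun n => (wq n p : ℝ) / p) r - poi lam r|).card : ℝ) ≤ ε * ppi x := by
  obtain ⟨r0, δ, hδ, hr0, hclose⟩ := tv_close hJ.lam0 hε
  have h1 := fun r : ℕ => main hJ r hδ
  choose L1 hL1 using h1
  refine ⟨(range r0).sup L1, fun L hL => ?_⟩
  have h2 : ∀ r : ℕ, r < r0 → ∃ x0 : ℕ, ∀ x : ℕ, x0 ≤ x →
      (((range (x + 1)).filter fun p => p.Prime ∧ δ < |pv J L (Icc 1 L) (fun n => (wq n p : ℝ) / p) r -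
        Real.exp (-lam) * lam ^ r / (Nat.factorial r : ℝ)|).card : ℝ) ≤ δ * ppi x := by
    intro r hr
    exact hL1 r L ((Finset.le_sup (f := L1) (mem_range.2 hr)).trans hL)
  choose! x1 hx1 using h2
  refine ⟨(range r0).sup x1, fun x hx => ?_⟩
  have h3 : ((range (x + 1)).filter fun p => p.Prime ∧ ∃ F : Finset ℕ,
        ε < ∑ r ∈ F, |pv J L (Icc 1 L) (fun n => (wq n p : ℝ) / p) r - poi lam r|) ⊆
      (range r0).biUnion fun r => (range (x + 1)).filter fun p => p.Prime ∧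
        δ < |pv J L (Icc 1 L) (fun n => (wq n p : ℝ) / p) r - Real.exp (-lam) * lam ^ r / (Nat.factorial r : ℝ)| := by
    intro p hp
    rw [mem_filter] at hp
    obtain ⟨hpx, hpp, F, hF⟩ := hp
    by_contra hcon
    rw [mem_biUnion] at hcon
    push Not at hcon
    have h4 : ∀ i < r0, |pv J L (Icc 1 L) (fun n => (wq n p : ℝ) / p) i - poi lam i| ≤ δ := by
      intro i hi
      by_contra h5
      exact hcon i (mem_range.2 hi) (mem_filter.2 ⟨hpx, hpp, not_le.1 h5⟩)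
    have h5 := hclose (pv J L (Icc 1 L) (fun n => (wq n p : ℝ) / p)) (fun i => pv_nonneg _ _ _ _ _)
      (fun F => pv_sum_le hJ.meas _ _ _ F) h4 F
    exact absurd hF (not_lt.2 h5)
  have h4 : (((range (x + 1)).filter fun p => p.Prime ∧ ∃ F : Finset ℕ,
        ε < ∑ r ∈ F, |pv J L (Icc 1 L) (fun n => (wq n p : ℝ) / p) r - poi lam r|).card : ℝ) ≤
      ∑ r ∈ range r0, δ * (ppi x : ℝ) := by
    refine le_trans ?_ (Finset.sum_le_sum fun r hr => hx1 r (mem_range.1 hr) x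
      ((Finset.le_sup (f := x1) hr).trans hx))
    exact_mod_cast (Finset.card_le_card h3).trans Finset.card_biUnion_le
  refine h4.trans ?_
  rw [Finset.sum_const, card_range, nsmul_eq_mul, ← mul_assoc]
  exact mul_le_mul_of_nonneg_right hr0 (Nat.cast_nonneg _)

end Pool.Agent.Lib.MP_de5eaa_nt.Poi
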