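import Pool.Agent.Lib.MP_de5eaa_nt.Poi.U1
import Pool.Agent.Lib.MP_de5eaa_nt.Poi.P5

/-! The uniform theorem: the number of the orders may grow with `x`. -/

set_option autoImplicit false

namespace Pool.Agent.Lib.MP_de5eaa_nt.Poi

open Finset MeasureTheory Filter Topology
open Pool.Agent.Lib.MP_de5eaa_nt.Near (hs wq ppi)

/-- `√x ≤ c ppi x` for large `x` -/
theorem sqrt_le_ppi {c : ℝ} (hc : 0 < c) : ∀ᶠ x : ℕ in atTop, Real.sqrt x + 1 ≤ c * ppi x := by
  have h1 : ∀ᶠ x : ℕ in atTop, (1 / 2 : ℝ) < (ppi x : ℝ) * Real.log x / (x : ℝ) :=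
    Pool.Agent.Lib.MP_de5eaa_nt.Near.ppi_tendsto.eventually (lt_mem_nhds (by norm_num))
  have h2 : ∀ᶠ x : ℕ in atTop, ‖Real.log (x : ℝ)‖ ≤ c / 4 * ‖(x : ℝ) ^ (1 / 2 : ℝ)‖ :=
    (tendsto_natCast_atTop_atTop (R := ℝ)).eventually
      ((isLittleO_log_rpow_atTop (r := 1 / 2) (by positivity)).bound (by positivity))
  filter_upwards [h1, h2, eventually_ge_atTop 2] with x h3 h4 h5
  have hx2 : (2 : ℝ) ≤ x := by exact_mod_cast h5
  have hx0 : (0 : ℝ) < x := by linarith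
  have hlog : 0 < Real.log x := Real.log_pos (by linarith)
  rw [← Real.sqrt_eq_rpow, Real.norm_eq_abs, abs_of_pos hlog, Real.norm_eq_abs,
    abs_of_nonneg (Real.sqrt_nonneg _)] at h4
  rw [lt_div_iff₀ hx0] at h3
  have h6 : 1 ≤ Real.sqrt x := by
    rw [Real.one_le_sqrt]
    linarith
  have h7 : (Real.sqrt x + 1) * Real.log x ≤ c * ppi x * Real.log x := by
    have h8 : Real.sqrt x * Real.sqrt x = x := Real.mul_self_sqrt hx0.le
    have h9 : (Real.sqrt x + 1) * Real.log x ≤ (2 * Real.sqrt x) * (c / 4 * Real.sqrt x) :=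
      mul_le_mul (by linarith) h4 hlog.le (by positivity)
    have h10 : (2 * Real.sqrt x) * (c / 4 * Real.sqrt x) = c / 2 * x := by
      rw [show (2 * Real.sqrt x) * (c / 4 * Real.sqrt x) = c / 2 * (Real.sqrt x * Real.sqrt x) by ring, h8]
    have h11 : c / 2 * x ≤ c * (ppi x * Real.log x) := by nlinarith
    linarith
  exact le_of_mul_le_mul_right h7 hlog

/-- `2 K (log x)^2 / √x ≤ ε` and `log x < √x` for large `x` -/
theorem log_small (K : ℝ) {ε : ℝ} (hε : 0 < ε) (hK : 0 ≤ K) : ∀ᶠ x : ℕ in atTop,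
    2 * K * Real.log x ^ 2 ≤ ε * Real.sqrt x ∧ Real.log x < Real.sqrt x ∧ 0 ≤ Real.log x := by
  have hc : 0 < ε / (2 * K + 1) := by positivity
  have h2 : ∀ᶠ x : ℕ in atTop, ‖Real.log (x : ℝ)‖ ≤ min (ε / (2 * K + 1)) (1 / 2) * ‖(x : ℝ) ^ (1 / 4 : ℝ)‖ :=
    (tendsto_natCast_atTop_atTop (R := ℝ)).eventually
      ((isLittleO_log_rpow_atTop (r := 1 / 4) (by positivity)).bound (lt_min hc (by norm_num)))
  have h2' : ∀ᶠ x : ℕ in atTop, ‖Real.log (x : ℝ)‖ ≤ 1 * ‖(x : ℝ) ^ (1 / 4 : ℝ)‖ :=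
    (tendsto_natCast_atTop_atTop (R := ℝ)).eventually
      ((isLittleO_log_rpow_atTop (r := 1 / 4) (by positivity)).bound one_pos)
  filter_upwards [h2, h2', eventually_ge_atTop 2] with x h3 h3' h5
  have hx2 : (2 : ℝ) ≤ x := by exact_mod_cast h5
  have hx0 : (0 : ℝ) < x := by linarith
  have hlog : 0 < Real.log x := Real.log_pos (by linarith)
  have hz0 : 0 < (x : ℝ) ^ (1 / 4 : ℝ) := Real.rpow_pos_of_pos hx0 _
  have hz1 : 1 ≤ (x : ℝ) ^ (1 / 4 : ℝ) := Real.one_le_rpow (by linarith) (by norm_num)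
  rw [Real.norm_eq_abs, abs_of_pos hlog, Real.norm_eq_abs, abs_of_pos hz0] at h3 h3'
  rw [one_mul] at h3'
  set z := (x : ℝ) ^ (1 / 4 : ℝ) with hz
  have hzz : z * z = Real.sqrt x := by
    rw [hz, ← Real.rpow_add hx0, Real.sqrt_eq_rpow]
    norm_num
  have h4 : Real.log x ≤ ε / (2 * K + 1) * z := h3.trans (mul_le_mul_of_nonneg_right (min_le_left _ _) hz0.le)
  have h6 : Real.log x ≤ 1 / 2 * z := h3.trans (mul_le_mul_of_nonneg_right (min_le_right _ _) hz0.le)
  refine ⟨?_, ?_, hlog.le⟩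
  · rw [← hzz]
    have h7 : Real.log x ^ 2 ≤ (ε / (2 * K + 1) * z) * z := by
      rw [sq]
      exact mul_le_mul h4 h3' hlog.le (by positivity)
    have h8 : 2 * K * Real.log x ^ 2 ≤ 2 * K * ((ε / (2 * K + 1) * z) * z) :=
      mul_le_mul_of_nonneg_left h7 (by positivity)
    refine h8.trans ?_
    have h9 : 2 * K * (ε / (2 * K + 1)) ≤ ε := by
      rw [mul_div_assoc', div_le_iff₀ (by positivity)]
      nlinarith
    have h10 : 2 * K * ((ε / (2 * K + 1) * z) * z) = (2 * K * (ε / (2 * K + 1))) * (z * z) := by ring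
    rw [h10]
    exact mul_le_mul_of_nonneg_right h9 (by positivity)
  · rw [← hzz]
    nlinarith

open Classical in
/-- The uniform theorem for one value `r`. -/
theorem main_u {J : Set ℝ} {lam K R : ℝ} (hJ : Nice J lam K R) {δ : ℝ} (hδ : 0 < δ) (hδ1 : δ < 1) (r : ℕ) {ε : ℝ}
    (hε : 0 < ε) : ∃ L0 : ℕ, ∀ L x : ℕ, L0 ≤ L → (L : ℝ) ≤ (1 - δ) * Real.log x →
      (((range (x + 1)).filter fun p => p.Prime ∧ ε < |pv J L (Icc 1 L) (fun n => (wq n p : ℝ) / p) r -
        Real.exp (-lam) * lam ^ r / (Nat.factorial r : ℝ)|).card : ℝ) ≤ ε * ppi x := by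
  obtain ⟨C, hC, x1, hbt⟩ := bt_mean (half_pos hδ)
  set ε' := min (ε / 2) (ε / (4 * C)) with hε'
  have hε'0 : 0 < ε' := lt_min (by positivity) (by positivity)
  obtain ⟨L1, hL1⟩ := eventually_atTop.1 ((finite_poisson theta_tendsto hJ r hε'0).and (log_QQ (half_pos hδ)))
  obtain ⟨x2, hx2⟩ := eventually_atTop.1 (((sqrt_le_ppi (c := ε / 4) (by positivity)).and
    (log_small K (half_pos hε) hJ.K0)).and (eventually_ge_atTop x1))
  -- `x` is large
  have hlogx : ∃ L2 : ℕ, ∀ L x : ℕ, L2 ≤ L → (L : ℝ) ≤ (1 - δ) * Real.log x → x2 ≤ x := by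
    refine ⟨x2 + 1, fun L x hL hLx => ?_⟩
    by_contra hcon
    push Not at hcon
    rcases Nat.eq_zero_or_pos x with h0 | h0
    · rw [h0] at hLx
      simp at hLx
      omega
    · have h1 : Real.log x ≤ (x : ℝ) := (Real.log_le_sub_one_of_pos (by exact_mod_cast h0)).trans (by linarith)
      have h2 : 0 ≤ Real.log (x : ℝ) := Real.log_natCast_nonneg x
      have h3 : (L : ℝ) ≤ x := by nlinarith
      have h4 : L ≤ x := by exact_mod_cast h3
      omega
  obtain ⟨L2, hL2⟩ := hlogx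
  refine ⟨max (max L1 L2) 1, fun L x hL hLx => ?_⟩
  have hLL1 : L1 ≤ L := (le_max_left _ _).trans ((le_max_left _ _).trans hL)
  have hLL2 : L2 ≤ L := (le_max_right _ _).trans ((le_max_left _ _).trans hL)
  have hL0 : 1 ≤ L := (le_max_right _ _).trans hL
  have hL0r : (1 : ℝ) ≤ L := by exact_mod_cast hL0
  obtain ⟨hbad, hQlog⟩ := hL1 L hLL1
  obtain ⟨⟨hsq, hls, hlt, hlog0⟩, hxx1⟩ := hx2 x (hL2 L x hLL2 hLx)
  obtain ⟨e, he⟩ : ∃ e : ℝ, e = Real.exp (-lam) * lam ^ r / (Nat.factorial r : ℝ) := ⟨_, rfl⟩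
  rw [← he] at hbad ⊢
  obtain ⟨Bad, hBad⟩ : ∃ Bad : Finset ℕ, Bad = (UU (QQ L)).filter fun u =>
    ε' < |pv J L (Icc 1 L) (YY u) r - e| := ⟨_, rfl⟩
  rw [← hBad] at hbad
  have hQ := P4_QQ_pos L
  have hφ : (0 : ℝ) < ((QQ L).totient : ℝ) := by exact_mod_cast Nat.totient_pos.2 hQ
  have hlogpos : 0 < Real.log (x : ℝ) := by
    by_contra hcon
    have : Real.log (x : ℝ) = 0 := le_antisymm (not_lt.1 hcon) hlog0
    rw [this] at hLx
    linarith
  have hx0 : (0 : ℝ) < x := by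
    by_contra hcon
    have h1 : (x : ℝ) = 0 := le_antisymm (not_lt.1 hcon) (Nat.cast_nonneg x)
    rw [h1, Real.log_zero] at hlogpos
    exact lt_irrefl _ hlogpos
  have hLlog : (L : ℝ) ≤ Real.log x := by nlinarith
  -- the modulus
  have hQx : (QQ L : ℝ) ≤ (x : ℝ) ^ (1 - δ / 2) := by
    have hQr : (0 : ℝ) < QQ L := by exact_mod_cast hQ
    rw [← Real.exp_log hQr, ← Real.exp_log (Real.rpow_pos_of_pos hx0 _), Real.log_rpow hx0]
    apply Real.exp_le_exp.2
    refine hQlog.trans ?_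
    have h1 : (1 + δ / 2) * (L : ℝ) ≤ (1 + δ / 2) * ((1 - δ) * Real.log x) :=
      mul_le_mul_of_nonneg_left hLx (by positivity)
    have h2 : (1 + δ / 2) * ((1 - δ) * Real.log x) ≤ (1 - δ / 2) * Real.log x := by
      have : 0 ≤ δ ^ 2 / 2 * Real.log x := by positivity
      nlinarith
    linarith
  have hmean := hbt x (QQ L) hxx1 hQ hQx (fun u => if u ∈ Bad then 1 else 0) (fun u _ => by
    split_ifs <;> norm_num)
  have hBsum : ∑ u ∈ UU (QQ L), (if u ∈ Bad then (1 : ℝ) else 0) ≤ Bad.card := by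
    rw [Finset.sum_ite_mem, Finset.sum_const, nsmul_eq_mul, mul_one]
    exact_mod_cast Finset.card_le_card Finset.inter_subset_right
  -- the cover
  have hcov : ((range (x + 1)).filter fun p => p.Prime ∧
      ε < |pv J L (Icc 1 L) (fun n => (wq n p : ℝ) / p) r - e|) ⊆
      range (Nat.sqrt x + 1) ∪ (((range (x + 1)).filter Nat.Prime).filter fun p =>
        ∃ u ∈ Bad, u ∈ UU (QQ L) ∧ u * p ≡ 1 [MOD QQ L]) := by
    intro p hp
    rw [mem_filter] at hp
    obtain ⟨hpx, hpp, hpe⟩ := hp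
    rw [mem_union]
    by_cases hpx1 : p < Nat.sqrt x + 1
    · exact Or.inl (mem_range.2 hpx1)
    · right
      push Not at hpx1
      have hp1 : Nat.sqrt x < p := hpx1
      have hp2 : Real.sqrt x < p := by
        have h1 : x < p * p := Nat.sqrt_lt.1 hp1
        have h2 : (x : ℝ) < (p : ℝ) * p := by exact_mod_cast h1
        rw [Real.sqrt_lt' (by exact_mod_cast hpp.pos), sq]
        exact h2
      have hLp : L < p := by
        have : (L : ℝ) < p := by linarith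
        exact_mod_cast this
      have hcop : p.Coprime (QQ L) := by
        rw [Nat.Prime.coprime_iff_not_dvd hpp]
        intro h
        have h1 := (Nat.Prime.dvd_factorial hpp).1 (h.trans (P4_QQ_dvd L))
        omega
      obtain ⟨u, hu, hup⟩ := P4_inv hQ hcop
      rw [mem_filter, mem_filter]
      refine ⟨⟨hpx, hpp⟩, u, ?_, hu, hup⟩
      rw [hBad, mem_filter]
      refine ⟨hu, ?_⟩
      have h1 := wq_pv hJ hpp hL0 hLp hup r
      have hp0 : (0 : ℝ) < (p : ℝ) := by exact_mod_cast hpp.pos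
      have h2 : 2 * K * (L : ℝ) ^ 2 / p ≤ ε / 2 := by
        rw [div_le_iff₀ hp0]
        have hK0 := hJ.K0
        have h3 : 2 * K * (L : ℝ) ^ 2 ≤ 2 * K * Real.log x ^ 2 := by
          apply mul_le_mul_of_nonneg_left _ (by positivity)
          exact pow_le_pow_left₀ (by linarith) hLlog 2
        have h4 : ε / 2 * Real.sqrt x ≤ ε / 2 * p := mul_le_mul_of_nonneg_left hp2.le (by positivity)
        linarith
      have h4 := abs_sub_le (pv J L (Icc 1 L) (fun n => (wq n p : ℝ) / p) r)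
        (pv J L (Icc 1 L) (YY u) r) e
      have h5 : ε' ≤ ε / 2 := min_le_left _ _
      linarith
  have hc2 : (((((range (x + 1)).filter Nat.Prime).filter fun p =>
        ∃ u ∈ Bad, u ∈ UU (QQ L) ∧ u * p ≡ 1 [MOD QQ L]).card : ℕ) : ℝ) ≤
      ∑ p ∈ (range (x + 1)).filter Nat.Prime, ∑ u ∈ (UU (QQ L)).filter (fun u => u * p ≡ 1 [MOD QQ L]),
        (if u ∈ Bad then (1 : ℝ) else 0) := by
    rw [Finset.card_filter]
    push_cast
    refine Finset.sum_le_sum fun p _ => ?_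
    split_ifs with h
    · obtain ⟨u, hu, huU, hup⟩ := h
      refine le_trans ?_ (Finset.single_le_sum (f := fun u => if u ∈ Bad then (1 : ℝ) else 0) (fun u _ => by
        split_ifs <;> norm_num) (mem_filter.2 ⟨huU, hup⟩))
      rw [if_pos hu]
    · exact Finset.sum_nonneg fun u _ => by split_ifs <;> norm_num
  have hppos : 0 ≤ (ppi x : ℝ) := Nat.cast_nonneg _
  have hc3 : C * ppi x / ((QQ L).totient : ℝ) * ∑ u ∈ UU (QQ L), (if u ∈ Bad then (1 : ℝ) else 0) ≤ ε / 4 * ppi x := by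
    have h1 : C * ppi x / ((QQ L).totient : ℝ) * ∑ u ∈ UU (QQ L), (if u ∈ Bad then (1 : ℝ) else 0) ≤
        C * ppi x / ((QQ L).totient : ℝ) * (ε' * (QQ L).totient) :=
      mul_le_mul_of_nonneg_left (hBsum.trans hbad) (by positivity)
    have h2 : C * ppi x / ((QQ L).totient : ℝ) * (ε' * (QQ L).totient) = C * ε' * ppi x := by
      field_simp
    have h3 : C * ε' ≤ ε / 4 := by
      have h4 : ε' ≤ ε / (4 * C) := min_le_right _ _
      calc C * ε' ≤ C * (ε / (4 * C)) := mul_le_mul_of_nonneg_left h4 hC.le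
        _ = ε / 4 := by field_simp
    rw [h2] at h1
    exact h1.trans (mul_le_mul_of_nonneg_right h3 hppos)
  have hc1 : (((range (x + 1)).filter fun p => p.Prime ∧
      ε < |pv J L (Icc 1 L) (fun n => (wq n p : ℝ) / p) r - e|).card : ℝ) ≤
      ((Nat.sqrt x : ℝ) + 1) + (((((range (x + 1)).filter Nat.Prime).filter fun p =>
        ∃ u ∈ Bad, u ∈ UU (QQ L) ∧ u * p ≡ 1 [MOD QQ L]).card : ℕ) : ℝ) := by
    have h1 := (card_le_card hcov).trans (card_union_le _ _)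
    rw [card_range] at h1
    exact_mod_cast h1
  have hsq2 : (Nat.sqrt x : ℝ) ≤ Real.sqrt x := Real.nat_sqrt_le_real_sqrt
  linarith

end Pool.Agent.Lib.MP_de5eaa_nt.Poi
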