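import Pool.Agent.Lib.MP_de5eaa_nt.Poi.Lo5
import Pool.Agent.Lib.MP_de5eaa_nt.Poi.Lo6
import Pool.Agent.Lib.MP_de5eaa_nt.Poi.U2

set_option autoImplicit false

namespace Pool.Agent.Lib.MP_de5eaa_nt.Poi

open Finset MeasureTheory Filter Topology
open Pool.Agent.Lib.MP_de5eaa_nt.Near (hs wq)

open Pool.Agent.Lib.MP_de5eaa_nt.Near (ppi)

theorem Lo7a_hs_nonneg (n : ℕ) : (0 : ℚ) ≤ hs 1 n := by
  unfold Pool.Agent.Lib.MP_de5eaa_nt.Near.hs
  exact Finset.sum_nonneg fun k _ => by positivity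

theorem Lo7a_hs_le (n : ℕ) : hs 1 n ≤ (n : ℚ) := by
  unfold Pool.Agent.Lib.MP_de5eaa_nt.Near.hs
  calc ∑ k ∈ Ico 1 n, 1 / (k : ℚ) ≤ ∑ _k ∈ Ico 1 n, (1 : ℚ) := by
        refine Finset.sum_le_sum fun k hk => ?_
        have h1 : 1 ≤ k := (Finset.mem_Ico.1 hk).1
        have h2 : (1 : ℚ) ≤ k := by exact_mod_cast h1
        rw [div_le_one (by linarith)]
        exact h2
    _ = ((n - 1 : ℕ) : ℚ) := by simp
    _ ≤ (n : ℚ) := by exact_mod_cast Nat.sub_le n 1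

/-- ROW Lo7a. As `wq_pv` (file `Poi/P2.lean`). With `c = wq 1 p / p`: by `wq_point` and `cnt_add_int` the points `wq n p / p` may be replaced by
`YY u n + hs 1 n / p + c`; `pvl_pert` compares with `YY u n + c` (error `∑ 2 K hs 1 n / p ≤ 2 K L^2 / p`), and `pvl_shift`. -/
theorem wq_pvl {J : Set ℝ} {lam K R : ℝ} (hJ : Nice J lam K R) {p L u : ℕ} (hp : p.Prime) (hL0 : 1 ≤ L) (hL : L < p)
    (hu : u * p ≡ 1 [MOD QQ L]) (r : ℕ) {α β : ℝ} (hα : 0 ≤ α) (hαβ : α ≤ β) (hβ : β ≤ 1) :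
    |pvl J L (Icc 1 L) (fun n => (wq n p : ℝ) / p) r α β -
      pvl J L (Icc 1 L) (YY u) r (α - (wq 1 p : ℝ) / p) (β - (wq 1 p : ℝ) / p)| ≤ 2 * K * (L : ℝ) ^ 2 / p := by
  have hp0 : (0 : ℝ) < p := by exact_mod_cast hp.pos
  have hLr : (0 : ℝ) < L := by exact_mod_cast (show 0 < L by omega)
  have e1 : pvl J L (Icc 1 L) (fun n => (wq n p : ℝ) / p) r α β =
      pvl J L (Icc 1 L) (fun n => (YY u n + ((hs 1 n : ℚ) : ℝ) / p) + (wq 1 p : ℝ) / p) r α β := by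
    unfold pvl
    have h1 : ∀ t, cnt J L (Icc 1 L) (fun n => (wq n p : ℝ) / p) t =
        cnt J L (Icc 1 L) (fun n => (YY u n + ((hs 1 n : ℚ) : ℝ) / p) + (wq 1 p : ℝ) / p) t := by
      intro t
      refine cnt_add_int J L (Icc 1 L) _ _ (fun n hn => ?_) t
      obtain ⟨h2, h3⟩ := Finset.mem_Icc.1 hn
      obtain ⟨a, ha⟩ := wq_point hp hL hu h2 h3
      exact ⟨a, by rw [ha]; ring⟩
    simp only [h1]
  have e2 : pvl J L (Icc 1 L) (YY u) r (α - (wq 1 p : ℝ) / p) (β - (wq 1 p : ℝ) / p) =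
      pvl J L (Icc 1 L) (fun n => YY u n + (wq 1 p : ℝ) / p) r α β :=
    (pvl_shift hJ.meas L (Icc 1 L) (YY u) r ((wq 1 p : ℝ) / p) α β).symm
  rw [e1, e2]
  refine le_trans (pvl_pert hJ hLr (Icc 1 L)
    (fun n => (YY u n + ((hs 1 n : ℚ) : ℝ) / p) + (wq 1 p : ℝ) / p)
    (fun n => YY u n + (wq 1 p : ℝ) / p) r hα hαβ hβ) ?_
  have h4 : ∀ n ∈ Icc 1 L, 2 * K * |(YY u n + (wq 1 p : ℝ) / p) -
      ((YY u n + ((hs 1 n : ℚ) : ℝ) / p) + (wq 1 p : ℝ) / p)| ≤ 2 * K * (L : ℝ) / p := by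
    intro n hn
    obtain ⟨h2, h3⟩ := Finset.mem_Icc.1 hn
    have h5 : (0 : ℝ) ≤ ((hs 1 n : ℚ) : ℝ) := by exact_mod_cast Lo7a_hs_nonneg n
    have h6 : ((hs 1 n : ℚ) : ℝ) ≤ (L : ℝ) := by
      have h7 : (hs 1 n : ℚ) ≤ (L : ℚ) := le_trans (Lo7a_hs_le n) (by exact_mod_cast h3)
      exact_mod_cast h7
    have h8 : |(YY u n + (wq 1 p : ℝ) / p) -
        ((YY u n + ((hs 1 n : ℚ) : ℝ) / p) + (wq 1 p : ℝ) / p)| = ((hs 1 n : ℚ) : ℝ) / p := by
      rw [show (YY u n + (wq 1 p : ℝ) / p) -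
        ((YY u n + ((hs 1 n : ℚ) : ℝ) / p) + (wq 1 p : ℝ) / p) = -(((hs 1 n : ℚ) : ℝ) / p) by ring,
        abs_neg, abs_of_nonneg (div_nonneg h5 hp0.le)]
    rw [h8, mul_div_assoc]
    have hK := hJ.K0
    exact mul_le_mul_of_nonneg_left (div_le_div_of_nonneg_right h6 hp0.le) (by positivity)
  refine le_trans (Finset.sum_le_sum h4) ?_
  rw [Finset.sum_const, Nat.card_Icc, nsmul_eq_mul, Nat.add_sub_cancel]
  apply le_of_eq
  ring

open Classical in
/-- ROW Lo7b. The proof of `main_u` (file `Poi/U2.lean`) with the following changes. Let `e = exp(-lam) lam^r/r! ∈ [0,1]` (`poi_sum_le` with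
`F = {r}`), `m` a natural number with `4/m ≤ ε/8` and `ε1 = min (ε/(32 m)) (ε/(4 C m))` (`C` from `bt_mean (δ/2)`). `finite_poisson'` for each of
the `m` cells `(i/m, (i+1)/m]` with `ε1` (`eventually_all_finset` or `Filter.eventually_all_finset`); `Bad` = the set of the `u` which are bad for
some `i < m`: at most `m ε1 φ ≤ ε/(4C) φ`. For `u` not in `Bad`: `grid_all` with `η = m ε1 ≤ ε/32` gives `|pvl (YY u) a b - (b - a) e| ≤ ε/16 + ε/8`
for all `a ≤ b ≤ a + 1`, and `wq_pvl` (error `≤ ε/2`, `log_small`) gives `≤ ε` for the points `wq n p / p`, all `0 ≤ α ≤ β ≤ 1`. -/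
theorem main_l {J : Set ℝ} {lam K R : ℝ} (hJ : Nice J lam K R) {δ : ℝ} (hδ : 0 < δ) (hδ1 : δ < 1) (r : ℕ) {ε : ℝ}
    (hε : 0 < ε) : ∃ L0 : ℕ, ∀ L x : ℕ, L0 ≤ L → (L : ℝ) ≤ (1 - δ) * Real.log x →
      (((range (x + 1)).filter fun p => p.Prime ∧ ∃ α β : ℝ, 0 ≤ α ∧ α ≤ β ∧ β ≤ 1 ∧
        ε < |pvl J L (Icc 1 L) (fun n => (wq n p : ℝ) / p) r α β -
        (β - α) * (Real.exp (-lam) * lam ^ r / (Nat.factorial r : ℝ))|).card : ℝ) ≤ ε * ppi x := by
  obtain ⟨C, hC, x1, hbt⟩ := bt_mean (half_pos hδ)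
  obtain ⟨m, hm1⟩ := exists_nat_gt (32 / ε)
  have hmr : (0 : ℝ) < (m : ℝ) := lt_trans (by positivity) hm1
  have hm0 : 0 < m := by exact_mod_cast hmr
  have hm4 : 4 / (m : ℝ) ≤ ε / 8 := by
    rw [div_le_iff₀ hmr]
    rw [div_lt_iff₀ hε] at hm1
    nlinarith
  set ε' := min (ε / (32 * m)) (ε / (4 * C * m)) with hε'
  have hε'0 : 0 < ε' := lt_min (by positivity) (by positivity)
  have hε'1 : (m : ℝ) * ε' ≤ ε / 32 := by
    have h1 : ε' ≤ ε / (32 * m) := min_le_left _ _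
    calc (m : ℝ) * ε' ≤ m * (ε / (32 * m)) := mul_le_mul_of_nonneg_left h1 hmr.le
      _ = ε / 32 := by field_simp
  have hε'2 : (m : ℝ) * ε' ≤ ε / (4 * C) := by
    have h1 : ε' ≤ ε / (4 * C * m) := min_le_right _ _
    calc (m : ℝ) * ε' ≤ m * (ε / (4 * C * m)) := mul_le_mul_of_nonneg_left h1 hmr.le
      _ = ε / (4 * C) := by field_simp
  have hcells : ∀ᶠ L : ℕ in atTop, ∀ i ∈ range m,
      (((UU (QQ L)).filter fun u => ε' < |pvl J L (Icc 1 L) (YY u) r ((i : ℝ) / m) (((i : ℝ) + 1) / m) -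
        (((i : ℝ) + 1) / m - (i : ℝ) / m) * (Real.exp (-lam) * lam ^ r / (Nat.factorial r : ℝ))|).card : ℝ) ≤
        ε' * ((QQ L).totient : ℝ) := by
    rw [Filter.eventually_all_finset]
    intro i hi
    rw [mem_range] at hi
    have hi1 : (i : ℝ) + 1 ≤ m := by exact_mod_cast hi
    refine finite_poisson' theta_tendsto hJ r (by positivity) ?_ ?_ hε'0
    · exact div_lt_div_of_pos_right (by linarith) hmr
    · rw [div_le_one hmr]
      exact hi1
  obtain ⟨L1, hL1⟩ := eventually_atTop.1 (hcells.and (log_QQ (half_pos hδ)))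
  obtain ⟨x2, hx2⟩ := eventually_atTop.1 (((sqrt_le_ppi (c := ε / 4) (by positivity)).and
    (log_small K (half_pos hε) hJ.K0)).and (eventually_ge_atTop x1))
  -- `x` is large
  have hlogx : ∃ L2 : ℕ, ∀ L x : ℕ, L2 ≤ L → (L : ℝ) ≤ (1 - δ) * Real.log x → x2 ≤ x := by
    refine ⟨x2 + 1, fun L x hL hLx => ?_⟩
    by_contra hcon
    push Not at hcon
    rcases Nat.eq_zero_or_pos x with h0 | h0
    · rw [h0] at hLx
      simp at hLx
      omega
    · have h1 : Real.log x ≤ (x : ℝ) := (Real.log_le_sub_one_of_pos (by exact_mod_cast h0)).trans (by linarith)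
      have h2 : 0 ≤ Real.log (x : ℝ) := Real.log_natCast_nonneg x
      have h3 : (L : ℝ) ≤ x := by nlinarith
      have h4 : L ≤ x := by exact_mod_cast h3
      omega
  obtain ⟨L2, hL2⟩ := hlogx
  refine ⟨max (max L1 L2) 1, fun L x hL hLx => ?_⟩
  have hLL1 : L1 ≤ L := (le_max_left _ _).trans ((le_max_left _ _).trans hL)
  have hLL2 : L2 ≤ L := (le_max_right _ _).trans ((le_max_left _ _).trans hL)
  have hL0 : 1 ≤ L := (le_max_right _ _).trans hL
  have hL0r : (1 : ℝ) ≤ L := by exact_mod_cast hL0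
  obtain ⟨hbad0, hQlog⟩ := hL1 L hLL1
  obtain ⟨⟨hsq, hls, hlt, hlog0⟩, hxx1⟩ := hx2 x (hL2 L x hLL2 hLx)
  have he0 : 0 ≤ Real.exp (-lam) * lam ^ r / (Nat.factorial r : ℝ) := poi_nonneg hJ.lam0 r
  have he1 : Real.exp (-lam) * lam ^ r / (Nat.factorial r : ℝ) ≤ 1 := by
    have h1 := poi_sum_le hJ.lam0 {r}
    rw [Finset.sum_singleton] at h1
    exact h1
  obtain ⟨e, he⟩ : ∃ e : ℝ, e = Real.exp (-lam) * lam ^ r / (Nat.factorial r : ℝ) := ⟨_, rfl⟩
  rw [← he] at hbad0 he0 he1 ⊢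
  obtain ⟨Bad, hBad⟩ : ∃ Bad : Finset ℕ, Bad = (range m).biUnion fun i => (UU (QQ L)).filter fun u =>
    ε' < |pvl J L (Icc 1 L) (YY u) r ((i : ℝ) / m) (((i : ℝ) + 1) / m) -
      (((i : ℝ) + 1) / m - (i : ℝ) / m) * e| := ⟨_, rfl⟩
  have hbad : (Bad.card : ℝ) ≤ ε / (4 * C) * ((QQ L).totient : ℝ) := by
    have h1 : (Bad.card : ℝ) ≤ ∑ i ∈ range m, ε' * ((QQ L).totient : ℝ) := by
      refine le_trans ?_ (Finset.sum_le_sum hbad0)
      rw [hBad]
      exact_mod_cast Finset.card_biUnion_le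
    rw [Finset.sum_const, card_range, nsmul_eq_mul, ← mul_assoc] at h1
    exact h1.trans (mul_le_mul_of_nonneg_right hε'2 (Nat.cast_nonneg _))
  have hQ := P4_QQ_pos L
  have hφ : (0 : ℝ) < ((QQ L).totient : ℝ) := by exact_mod_cast Nat.totient_pos.2 hQ
  have hlogpos : 0 < Real.log (x : ℝ) := by
    by_contra hcon
    have : Real.log (x : ℝ) = 0 := le_antisymm (not_lt.1 hcon) hlog0
    rw [this] at hLx
    linarith
  have hx0 : (0 : ℝ) < x := by
    by_contra hcon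
    have h1 : (x : ℝ) = 0 := le_antisymm (not_lt.1 hcon) (Nat.cast_nonneg x)
    rw [h1, Real.log_zero] at hlogpos
    exact lt_irrefl _ hlogpos
  have hLlog : (L : ℝ) ≤ Real.log x := by nlinarith
  -- the modulus
  have hQx : (QQ L : ℝ) ≤ (x : ℝ) ^ (1 - δ / 2) := by
    have hQr : (0 : ℝ) < QQ L := by exact_mod_cast hQ
    rw [← Real.exp_log hQr, ← Real.exp_log (Real.rpow_pos_of_pos hx0 _), Real.log_rpow hx0]
    apply Real.exp_le_exp.2
    refine hQlog.trans ?_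
    have h1 : (1 + δ / 2) * (L : ℝ) ≤ (1 + δ / 2) * ((1 - δ) * Real.log x) :=
      mul_le_mul_of_nonneg_left hLx (by positivity)
    have h2 : (1 + δ / 2) * ((1 - δ) * Real.log x) ≤ (1 - δ / 2) * Real.log x := by
      have : 0 ≤ δ ^ 2 / 2 * Real.log x := by positivity
      nlinarith
    linarith
  have hmean := hbt x (QQ L) hxx1 hQ hQx (fun u => if u ∈ Bad then 1 else 0) (fun u _ => by
    split_ifs <;> norm_num)
  have hBsum : ∑ u ∈ UU (QQ L), (if u ∈ Bad then (1 : ℝ) else 0) ≤ Bad.card := by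
    rw [Finset.sum_ite_mem, Finset.sum_const, nsmul_eq_mul, mul_one]
    exact_mod_cast Finset.card_le_card Finset.inter_subset_right
  -- the cover
  have hcov : ((range (x + 1)).filter fun p => p.Prime ∧ ∃ α β : ℝ, 0 ≤ α ∧ α ≤ β ∧ β ≤ 1 ∧
      ε < |pvl J L (Icc 1 L) (fun n => (wq n p : ℝ) / p) r α β - (β - α) * e|) ⊆
      range (Nat.sqrt x + 1) ∪ (((range (x + 1)).filter Nat.Prime).filter fun p =>
        ∃ u ∈ Bad, u ∈ UU (QQ L) ∧ u * p ≡ 1 [MOD QQ L]) := by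
    intro p hp
    rw [mem_filter] at hp
    obtain ⟨hpx, hpp, α, β, hα, hαβ, hβ, hpe⟩ := hp
    rw [mem_union]
    by_cases hpx1 : p < Nat.sqrt x + 1
    · exact Or.inl (mem_range.2 hpx1)
    · right
      push Not at hpx1
      have hp1 : Nat.sqrt x < p := hpx1
      have hp2 : Real.sqrt x < p := by
        have h1 : x < p * p := Nat.sqrt_lt.1 hp1
        have h2 : (x : ℝ) < (p : ℝ) * p := by exact_mod_cast h1
        rw [Real.sqrt_lt' (by exact_mod_cast hpp.pos), sq]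
        exact h2
      have hLp : L < p := by
        have : (L : ℝ) < p := by linarith
        exact_mod_cast this
      have hcop : p.Coprime (QQ L) := by
        rw [Nat.Prime.coprime_iff_not_dvd hpp]
        intro h
        have h1 := (Nat.Prime.dvd_factorial hpp).1 (h.trans (P4_QQ_dvd L))
        omega
      obtain ⟨u, hu, hup⟩ := P4_inv hQ hcop
      rw [mem_filter, mem_filter]
      refine ⟨⟨hpx, hpp⟩, u, ?_, hu, hup⟩
      by_contra hgood
      have hcell : ∀ i : ℕ, i < m → |pvl J L (Icc 1 L) (YY u) r ((i : ℝ) / m) (((i : ℝ) + 1) / m) - e / m| ≤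
          (m * ε') / m := by
        intro i hi
        have h1 : ((i : ℝ) + 1) / m - (i : ℝ) / m = 1 / m := by
          rw [← sub_div]
          congr 1
          ring
        have h2 : (m * ε') / m = ε' := by field_simp
        rw [h2]
        by_contra hc
        push Not at hc
        apply hgood
        rw [hBad, mem_biUnion]
        refine ⟨i, mem_range.2 hi, mem_filter.2 ⟨hu, ?_⟩⟩
        rw [h1, one_div_mul_eq_div]
        exact hc
      have h0 := grid_all hJ.meas (L : ℝ) (Icc 1 L) (YY u) r hm0 he0 he1 hcell (α - (wq 1 p : ℝ) / p)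
        (β - (wq 1 p : ℝ) / p) (by linarith) (by linarith)
      have h1 := wq_pvl hJ hpp hL0 hLp hup r hα hαβ hβ
      have hp0 : (0 : ℝ) < (p : ℝ) := by exact_mod_cast hpp.pos
      have h2 : 2 * K * (L : ℝ) ^ 2 / p ≤ ε / 2 := by
        rw [div_le_iff₀ hp0]
        have hK0 := hJ.K0
        have h3 : 2 * K * (L : ℝ) ^ 2 ≤ 2 * K * Real.log x ^ 2 := by
          apply mul_le_mul_of_nonneg_left _ (by positivity)
          exact pow_le_pow_left₀ (by linarith) hLlog 2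
        have h4 : ε / 2 * Real.sqrt x ≤ ε / 2 * p := mul_le_mul_of_nonneg_left hp2.le (by positivity)
        linarith
      have h3 : (β - (wq 1 p : ℝ) / p - (α - (wq 1 p : ℝ) / p)) * e = (β - α) * e := by ring
      rw [h3] at h0
      have h4 := abs_sub_le (pvl J L (Icc 1 L) (fun n => (wq n p : ℝ) / p) r α β)
        (pvl J L (Icc 1 L) (YY u) r (α - (wq 1 p : ℝ) / p) (β - (wq 1 p : ℝ) / p)) ((β - α) * e)
      linarith
  have hc2 : (((((range (x + 1)).filter Nat.Prime).filter fun p =>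
        ∃ u ∈ Bad, u ∈ UU (QQ L) ∧ u * p ≡ 1 [MOD QQ L]).card : ℕ) : ℝ) ≤
      ∑ p ∈ (range (x + 1)).filter Nat.Prime, ∑ u ∈ (UU (QQ L)).filter (fun u => u * p ≡ 1 [MOD QQ L]),
        (if u ∈ Bad then (1 : ℝ) else 0) := by
    rw [Finset.card_filter]
    push_cast
    refine Finset.sum_le_sum fun p _ => ?_
    split_ifs with h
    · obtain ⟨u, hu, huU, hup⟩ := h
      refine le_trans ?_ (Finset.single_le_sum (f := fun u => if u ∈ Bad then (1 : ℝ) else 0) (fun u _ => by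
        split_ifs <;> norm_num) (mem_filter.2 ⟨huU, hup⟩))
      rw [if_pos hu]
    · exact Finset.sum_nonneg fun u _ => by split_ifs <;> norm_num
  have hppos : 0 ≤ (ppi x : ℝ) := Nat.cast_nonneg _
  have hc3 : C * ppi x / ((QQ L).totient : ℝ) * ∑ u ∈ UU (QQ L), (if u ∈ Bad then (1 : ℝ) else 0) ≤ ε / 4 * ppi x := by
    have h1 : C * ppi x / ((QQ L).totient : ℝ) * ∑ u ∈ UU (QQ L), (if u ∈ Bad then (1 : ℝ) else 0) ≤
        C * ppi x / ((QQ L).totient : ℝ) * (ε / (4 * C) * (QQ L).totient) :=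
      mul_le_mul_of_nonneg_left (hBsum.trans hbad) (by positivity)
    have h2 : C * ppi x / ((QQ L).totient : ℝ) * (ε / (4 * C) * (QQ L).totient) = ε / 4 * ppi x := by
      field_simp
    rw [h2] at h1
    exact h1
  have hc1 : (((range (x + 1)).filter fun p => p.Prime ∧ ∃ α β : ℝ, 0 ≤ α ∧ α ≤ β ∧ β ≤ 1 ∧
      ε < |pvl J L (Icc 1 L) (fun n => (wq n p : ℝ) / p) r α β - (β - α) * e|).card : ℝ) ≤
      ((Nat.sqrt x : ℝ) + 1) + (((((range (x + 1)).filter Nat.Prime).filter fun p =>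
        ∃ u ∈ Bad, u ∈ UU (QQ L) ∧ u * p ≡ 1 [MOD QQ L]).card : ℕ) : ℝ) := by
    have h1 := (card_le_card hcov).trans (card_union_le _ _)
    rw [card_range] at h1
    exact_mod_cast h1
  have hsq2 : (Nat.sqrt x : ℝ) ≤ Real.sqrt x := Real.nat_sqrt_le_real_sqrt
  linarith

end Pool.Agent.Lib.MP_de5eaa_nt.Poi
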