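import Pool.Agent.Lib.MP_de5eaa_nt.Poi.Lo7

/-! The local theorem in total variation, uniformly over all the arcs of the circle. -/

set_option autoImplicit false

namespace Pool.Agent.Lib.MP_de5eaa_nt.Poi

open Finset MeasureTheory Filter Topology
open Pool.Agent.Lib.MP_de5eaa_nt.Near (hs wq ppi)

/-- Closeness for the small values gives closeness in total variation, for measures of total mass `s ≤ 1`. -/
theorem tv_close_l {lam ε : ℝ} (hlam : 0 ≤ lam) (hε : 0 < ε) : ∃ r0 : ℕ, ∃ δ : ℝ, 0 < δ ∧ (r0 : ℝ) * δ ≤ ε ∧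
    ∀ s : ℝ, 0 ≤ s → s ≤ 1 → ∀ q : ℕ → ℝ, (∀ i, 0 ≤ q i) → (∀ F : Finset ℕ, ∑ i ∈ F, q i ≤ s) →
      (∀ i < r0, |q i - s * poi lam i| ≤ δ) → ∀ F : Finset ℕ, ∑ i ∈ F, |q i - s * poi lam i| ≤ ε := by
  have h1 := (poi_hasSum lam).tendsto_sum_nat
  have h2 : ∀ᶠ n : ℕ in atTop, 1 - ε / 8 < ∑ i ∈ range n, poi lam i :=
    h1.eventually (lt_mem_nhds (by linarith))
  obtain ⟨r0, hr0⟩ := h2.exists
  have hr1 : (0 : ℝ) < (r0 : ℝ) + 1 := by positivity
  refine ⟨r0, ε / (8 * (r0 + 1)), by positivity, ?_, ?_⟩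
  · rw [mul_div_assoc', div_le_iff₀ (by positivity)]
    nlinarith
  · intro s hs0 hs1 q hq hq1 hc F
    have hδ : (r0 : ℝ) * (ε / (8 * (r0 + 1))) ≤ ε / 8 := by
      rw [mul_div_assoc', div_le_iff₀ (by positivity)]
      nlinarith
    have e1 : ∑ i ∈ range r0, |q i - s * poi lam i| ≤ ε / 8 := by
      have h3 : ∑ i ∈ range r0, |q i - s * poi lam i| ≤ ∑ _i ∈ range r0, ε / (8 * (r0 + 1)) :=
        Finset.sum_le_sum fun i hi => hc i (mem_range.1 hi)
      rw [Finset.sum_const, card_range, nsmul_eq_mul] at h3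
      exact h3.trans hδ
    set F2 := F.filter fun i => ¬ i < r0 with hF2
    have hdis : Disjoint (range r0) F2 := by
      rw [Finset.disjoint_left]
      intro i hi hi2
      rw [hF2, mem_filter] at hi2
      exact hi2.2 (mem_range.1 hi)
    have hsub : F ⊆ range r0 ∪ F2 := by
      intro i hi
      rw [mem_union, hF2, mem_filter, mem_range]
      by_cases h : i < r0
      · exact Or.inl h
      · exact Or.inr ⟨hi, h⟩
    have e2 : ∑ i ∈ F, |q i - s * poi lam i| ≤
        (∑ i ∈ range r0, |q i - s * poi lam i|) + ∑ i ∈ F2, |q i - s * poi lam i| := by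
      rw [← Finset.sum_union hdis]
      exact Finset.sum_le_sum_of_subset_of_nonneg hsub fun i _ _ => abs_nonneg _
    have e3 : ∑ i ∈ F2, |q i - s * poi lam i| ≤ (∑ i ∈ F2, q i) + s * ∑ i ∈ F2, poi lam i := by
      rw [Finset.mul_sum, ← Finset.sum_add_distrib]
      refine Finset.sum_le_sum fun i _ => ?_
      have := hq i
      have := mul_nonneg hs0 (poi_nonneg hlam i)
      rw [abs_le]
      constructor <;> linarith
    have e4 : (∑ i ∈ range r0, q i) + ∑ i ∈ F2, q i ≤ s := by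
      rw [← Finset.sum_union hdis]
      exact hq1 _
    have e5 : s * (∑ i ∈ range r0, poi lam i) + s * ∑ i ∈ F2, poi lam i ≤ s := by
      rw [← mul_add, ← Finset.sum_union hdis]
      calc s * ∑ i ∈ range r0 ∪ F2, poi lam i ≤ s * 1 := mul_le_mul_of_nonneg_left (poi_sum_le hlam _) hs0
        _ = s := mul_one s
    have e6 : s * (∑ i ∈ range r0, poi lam i) ≤ (∑ i ∈ range r0, q i) + ∑ i ∈ range r0, |q i - s * poi lam i| := by
      rw [Finset.mul_sum, ← Finset.sum_add_distrib]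
      refine Finset.sum_le_sum fun i _ => ?_
      have := neg_abs_le (q i - s * poi lam i)
      linarith
    have e7 : s - ε / 8 ≤ s * ∑ i ∈ range r0, poi lam i := by
      have h4 : s * (1 - ε / 8) ≤ s * ∑ i ∈ range r0, poi lam i := mul_le_mul_of_nonneg_left hr0.le hs0
      have h5 : s * (ε / 8) ≤ 1 * (ε / 8) := mul_le_mul_of_nonneg_right hs1 (by positivity)
      linarith
    linarith

/-- From the subintervals of `[0, 1]` to the arcs of the circle. -/
theorem arcs_of_unit {J : Set ℝ} (hJ : MeasurableSet J) (L : ℝ) (I : Finset ℕ) (y : ℕ → ℝ) {lam ε : ℝ}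
    (h : ∀ α β : ℝ, 0 ≤ α → α ≤ β → β ≤ 1 → ∀ F : Finset ℕ,
      ∑ r ∈ F, |pvl J L I y r α β - (β - α) * poi lam r| ≤ ε / 2)
    {α β : ℝ} (h1 : α ≤ β) (h2 : β ≤ α + 1) (F : Finset ℕ) :
    ∑ r ∈ F, |pvl J L I y r α β - (β - α) * poi lam r| ≤ ε := by
  have hε : 0 ≤ ε / 2 := by
    have := h 0 0 le_rfl le_rfl zero_le_one ∅
    simpa using this
  set k : ℤ := ⌊α⌋ with hk
  have ha0 : 0 ≤ α - k := by
    have := Int.floor_le α
    rw [← hk] at this
    linarith
  have ha1 : α - k < 1 := by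
    have := Int.lt_floor_add_one α
    rw [← hk] at this
    linarith
  have hab : ∀ r, pvl J L I y r α β = pvl J L I y r (α - k) (β - k) := by
    intro r
    rw [← pvl_period hJ L I y r k (α - k) (β - k)]
    rw [sub_add_cancel, sub_add_cancel]
  rcases le_or_gt (β - k) 1 with hb | hb
  · have h3 := h (α - k) (β - k) ha0 (by linarith) hb F
    have h4 : ∑ r ∈ F, |pvl J L I y r α β - (β - α) * poi lam r| =
        ∑ r ∈ F, |pvl J L I y r (α - k) (β - k) - ((β - k) - (α - k)) * poi lam r| := by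
      refine Finset.sum_congr rfl fun r _ => ?_
      rw [hab r]
      congr 2
      ring
    rw [h4]
    linarith
  · have h3 := h (α - k) 1 ha0 ha1.le le_rfl F
    have h4 := h 0 (β - k - 1) le_rfl (by linarith) (by linarith) F
    have h5 : ∀ r, pvl J L I y r α β = pvl J L I y r (α - k) 1 + pvl J L I y r 0 (β - k - 1) := by
      intro r
      rw [hab r, pvl_add hJ L I y r ha1.le hb.le]
      congr 1
      rw [← pvl_period hJ L I y r 1 0 (β - k - 1)]
      simp
    calc ∑ r ∈ F, |pvl J L I y r α β - (β - α) * poi lam r|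
        ≤ ∑ r ∈ F, (|pvl J L I y r (α - k) 1 - (1 - (α - k)) * poi lam r| +
            |pvl J L I y r 0 (β - k - 1) - ((β - k - 1) - 0) * poi lam r|) := by
          refine Finset.sum_le_sum fun r _ => ?_
          have h6 : pvl J L I y r α β - (β - α) * poi lam r =
              (pvl J L I y r (α - k) 1 - (1 - (α - k)) * poi lam r) +
              (pvl J L I y r 0 (β - k - 1) - ((β - k - 1) - 0) * poi lam r) := by
            rw [h5 r]
            ring
          rw [h6]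
          exact abs_add_le _ _
      _ = (∑ r ∈ F, |pvl J L I y r (α - k) 1 - (1 - (α - k)) * poi lam r|) +
            ∑ r ∈ F, |pvl J L I y r 0 (β - k - 1) - ((β - k - 1) - 0) * poi lam r| := Finset.sum_add_distrib
      _ ≤ ε / 2 + ε / 2 := add_le_add h3 h4
      _ = ε := by ring

open Classical in
/-- **Theorem** (uniform, local, total variation). -/
theorem main_all_l {J : Set ℝ} {lam K R : ℝ} (hJ : Nice J lam K R) {δ : ℝ} (hδ : 0 < δ) {ε : ℝ} (hε : 0 < ε) :
    ∃ L0 : ℕ, ∀ L x : ℕ, L0 ≤ L → (L : ℝ) ≤ (1 - δ) * Real.log x →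
      (((range (x + 1)).filter fun p => p.Prime ∧ ∃ α β : ℝ, α ≤ β ∧ β ≤ α + 1 ∧ ∃ F : Finset ℕ,
        ε < ∑ r ∈ F, |pvl J L (Icc 1 L) (fun n => (wq n p : ℝ) / p) r α β - (β - α) * poi lam r|).card : ℝ) ≤
      ε * ppi x := by
  -- we may suppose `δ < 1`
  set δ' := min δ (1 / 2) with hδ'
  have hδ'0 : 0 < δ' := lt_min hδ (by norm_num)
  have hδ'1 : δ' < 1 := lt_of_le_of_lt (min_le_right _ _) (by norm_num)
  obtain ⟨r0, η, hη, hr0, hclose⟩ := tv_close_l hJ.lam0 (half_pos hε)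
  have h1 := fun r : ℕ => main_l hJ hδ'0 hδ'1 r hη
  choose L1 hL1 using h1
  refine ⟨(range r0).sup L1, fun L x hL hLx => ?_⟩
  have hLx' : (L : ℝ) ≤ (1 - δ') * Real.log x := by
    refine hLx.trans (mul_le_mul_of_nonneg_right ?_ (Real.log_natCast_nonneg x))
    have : δ' ≤ δ := min_le_left _ _
    linarith
  have h3 : ((range (x + 1)).filter fun p => p.Prime ∧ ∃ α β : ℝ, α ≤ β ∧ β ≤ α + 1 ∧ ∃ F : Finset ℕ,
        ε < ∑ r ∈ F, |pvl J L (Icc 1 L) (fun n => (wq n p : ℝ) / p) r α β - (β - α) * poi lam r|) ⊆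
      (range r0).biUnion fun r => (range (x + 1)).filter fun p => p.Prime ∧ ∃ α β : ℝ, 0 ≤ α ∧ α ≤ β ∧ β ≤ 1 ∧
        η < |pvl J L (Icc 1 L) (fun n => (wq n p : ℝ) / p) r α β -
          (β - α) * (Real.exp (-lam) * lam ^ r / (Nat.factorial r : ℝ))| := by
    intro p hp
    rw [mem_filter] at hp
    obtain ⟨hpx, hpp, α, β, hαβ, hβα, F, hF⟩ := hp
    by_contra hcon
    rw [mem_biUnion] at hcon
    push Not at hcon
    have h4 : ∀ a b : ℝ, 0 ≤ a → a ≤ b → b ≤ 1 → ∀ F : Finset ℕ,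
        ∑ r ∈ F, |pvl J L (Icc 1 L) (fun n => (wq n p : ℝ) / p) r a b - (b - a) * poi lam r| ≤ ε / 2 := by
      intro a b ha hab hb F
      refine hclose (b - a) (by linarith) (by linarith) (fun r => pvl J L (Icc 1 L) (fun n => (wq n p : ℝ) / p) r a b)
        (fun i => pvl_nonneg _ _ _ _ _ _ _) (fun F => pvl_sum_le hJ.meas _ _ _ F hab) (fun i hi => ?_) F
      by_contra h5
      exact hcon i (mem_range.2 hi) (mem_filter.2 ⟨hpx, hpp, a, b, ha, hab, hb, not_le.1 h5⟩)
    exact absurd hF (not_lt.2 (arcs_of_unit hJ.meas _ _ _ h4 hαβ hβα F))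
  have h4 : (((range (x + 1)).filter fun p => p.Prime ∧ ∃ α β : ℝ, α ≤ β ∧ β ≤ α + 1 ∧ ∃ F : Finset ℕ,
        ε < ∑ r ∈ F, |pvl J L (Icc 1 L) (fun n => (wq n p : ℝ) / p) r α β - (β - α) * poi lam r|).card : ℝ) ≤
      ∑ r ∈ range r0, η * (ppi x : ℝ) := by
    refine le_trans ?_ (Finset.sum_le_sum fun r hr => hL1 r L x
      ((Finset.le_sup (f := L1) hr).trans hL) hLx')
    exact_mod_cast (Finset.card_le_card h3).trans Finset.card_biUnion_le
  refine h4.trans ?_
  rw [Finset.sum_const, card_range, nsmul_eq_mul, ← mul_assoc]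
  exact mul_le_mul_of_nonneg_right (by linarith) (Nat.cast_nonneg _)

end Pool.Agent.Lib.MP_de5eaa_nt.Poi
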