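import Pool.Agent.Lib.MP_de5eaa_nt.Poi.Defs
import Pool.Agent.Lib.MP_de5eaa_nt.Poi.N1a

set_option autoImplicit false

namespace Pool.Agent.Lib.MP_de5eaa_nt.Poi

open Finset MeasureTheory Filter Topology
open Pool.Agent.Lib.MP_de5eaa_nt.Near (hs wq)

/-- ROW N1b. Adding an interval on the right. `J ∩ [a,b] ⊆ {a}`. MEAS: union. VOL: `measure_union_add_inter`, the
intersection is a subset of `{a}` and has volume zero; `ENNReal.ofReal_add`. GRID: the set for `J ∪ [a,b]` is the union of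
the two sets (both finite), their intersection has at most one element (`c + m h = a` determines `m`), so by
`Set.ncard_union_add_ncard_inter` the number is within one of the sum of the two numbers; then `nice_Icc.grid` and
`hJ.grid` (total error `K + 1 + 1`). PERT: a point which is bad for the union is bad for `J` or for `[a,b]`;
`measure_union_le`. SUB: `R' ≥ R`, `b ≤ R'`, `-R' ≤ a`. -/
theorem nice_add {J : Set ℝ} {lam K R R' a b : ℝ} (hJ : Nice J lam K R) (hJa : ∀ s ∈ J, s ≤ a) (hab : a ≤ b)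
    (hR : R ≤ R') (ha : -R' ≤ a) (hb : b ≤ R') : Nice (J ∪ Set.Icc a b) (lam + (b - a)) (K + 2) R' := by
  have hI : Nice (Set.Icc a b) (b - a) 1 R' := nice_Icc hab ha hb
  have hba : 0 ≤ b - a := sub_nonneg.2 hab
  have hint : J ∩ Set.Icc a b ⊆ {a} := by
    intro s hs
    exact Set.mem_singleton_iff.2 (le_antisymm (hJa s hs.1) hs.2.1)
  refine ⟨hJ.meas.union measurableSet_Icc, add_nonneg hJ.lam0 hba, by linarith [hJ.K0],
    by linarith [hJ.R0], ?_, ?_, ?_, ?_⟩
  · refine Set.union_subset (hJ.sub.trans (Set.Icc_subset_Icc (by linarith) hR)) ?_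
    exact Set.Icc_subset_Icc ha hb
  · have h1 := measure_union_add_inter (μ := volume) J (measurableSet_Icc (a := a) (b := b))
    have h2 : volume (J ∩ Set.Icc a b) = 0 := measure_mono_null hint (Real.volume_singleton)
    rw [h2, add_zero, hJ.vol, hI.vol, ← ENNReal.ofReal_add hJ.lam0 hba] at h1
    exact h1
  · intro h hh c
    obtain ⟨f1, g1⟩ := hJ.grid h hh c
    obtain ⟨f2, g2⟩ := hI.grid h hh c
    have hu : {m : ℤ | c + m * h ∈ J ∪ Set.Icc a b} =
        {m : ℤ | c + m * h ∈ J} ∪ {m : ℤ | c + m * h ∈ Set.Icc a b} := rfl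
    refine ⟨hu ▸ f1.union f2, ?_⟩
    have h1 := Set.ncard_union_add_ncard_inter {m : ℤ | c + m * h ∈ J}
      {m : ℤ | c + m * h ∈ Set.Icc a b} f1 f2
    have h2 : ({m : ℤ | c + m * h ∈ J} ∩ {m : ℤ | c + m * h ∈ Set.Icc a b}).ncard ≤ 1 := by
      rw [Set.ncard_le_one (f1.inter_of_left _)]
      intro m hm m' hm'
      have e1 : c + m * h = a := hint ⟨hm.1, hm.2⟩
      have e2 : c + m' * h = a := hint ⟨hm'.1, hm'.2⟩
      have e3 : (m : ℝ) * h = m' * h := by linarith
      have e4 : (m : ℝ) = m' := mul_right_cancel₀ hh.ne' e3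
      exact_mod_cast e4
    rw [hu]
    have h3 : (({m : ℤ | c + m * h ∈ J} ∪ {m : ℤ | c + m * h ∈ Set.Icc a b}).ncard : ℝ) +
        (({m : ℤ | c + m * h ∈ J} ∩ {m : ℤ | c + m * h ∈ Set.Icc a b}).ncard : ℝ) =
        ({m : ℤ | c + m * h ∈ J}.ncard : ℝ) + ({m : ℤ | c + m * h ∈ Set.Icc a b}.ncard : ℝ) := by
      exact_mod_cast h1
    have h4 : (({m : ℤ | c + m * h ∈ J} ∩ {m : ℤ | c + m * h ∈ Set.Icc a b}).ncard : ℝ) ≤ 1 := by
      exact_mod_cast h2
    have h5 : (0 : ℝ) ≤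
        (({m : ℤ | c + m * h ∈ J} ∩ {m : ℤ | c + m * h ∈ Set.Icc a b}).ncard : ℝ) :=
      Nat.cast_nonneg _
    rw [abs_le] at g1 g2 ⊢
    rw [add_div]
    constructor
    · linarith [g1.1, g2.1]
    · linarith [g1.2, g2.2]
  · intro δ
    have h1 : {s | ¬ (s ∈ J ∪ Set.Icc a b ↔ s + δ ∈ J ∪ Set.Icc a b)} ⊆
        {s | ¬ (s ∈ J ↔ s + δ ∈ J)} ∪ {s | ¬ (s ∈ Set.Icc a b ↔ s + δ ∈ Set.Icc a b)} := by
      intro s hs
      by_contra hcon
      rw [Set.mem_union, not_or] at hcon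
      obtain ⟨c1, c2⟩ := hcon
      have c1' : s ∈ J ↔ s + δ ∈ J := not_not.1 c1
      have c2' : s ∈ Set.Icc a b ↔ s + δ ∈ Set.Icc a b := not_not.1 c2
      apply hs
      rw [Set.mem_union, Set.mem_union, c1', c2']
    refine (measure_mono h1).trans ((measure_union_le _ _).trans
      ((add_le_add (hJ.pert δ) (hI.pert δ)).trans ?_))
    have hK := hJ.K0
    have hd := abs_nonneg δ
    rw [← ENNReal.ofReal_add (by positivity) (by positivity)]
    apply ENNReal.ofReal_le_ofReal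
    nlinarith

end Pool.Agent.Lib.MP_de5eaa_nt.Poi
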