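import Pool.Agent.Lib.MP_de5eaa_nt.Poi.Defs
import Pool.Agent.Lib.MP_de5eaa_nt.Poi.N1b

set_option autoImplicit false

namespace Pool.Agent.Lib.MP_de5eaa_nt.Poi

open Finset MeasureTheory Filter Topology
open Pool.Agent.Lib.MP_de5eaa_nt.Near (hs wq)

/-- ROW N1c. Induction on `k` with `nice_add`. `k = 0`: the empty set (all fields are trivial: `ncard` of the empty set is
`0`, `lam = 0`, `K = 0`; take `R = 0`). `k + 1`: `Jset (k+1) c = Jset k c ∪ Set.Icc (c (2k)) (c (2k+1))`,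
`Jlen (k+1) c = Jlen k c + (c (2k+1) - c (2k))`, and the elements of `Jset k c` are `≤ c (2i+1) ≤ c (2k)` (`i < k`,
monotone); `R' = max R (max |c (2k)| |c (2k+1)|)`. -/
theorem nice_union (k : ℕ) (c : ℕ → ℝ) (hc : Monotone c) : ∃ R, Nice (Jset k c) (Jlen k c) (2 * k) R := by
  induction k with
  | zero =>
    refine ⟨0, ?_⟩
    have h0 : Jset 0 c = ∅ := by
      ext s
      simp [Jset]
    have h1 : Jlen 0 c = 0 := by simp [Jlen]
    have h2 : (2 * ((0 : ℕ) : ℝ)) = 0 := by simp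
    rw [h0, h1, h2]
    refine ⟨MeasurableSet.empty, le_refl 0, le_refl 0, le_refl 0, Set.empty_subset _, by simp, ?_, ?_⟩
    · intro h _ x
      have h3 : {m : ℤ | x + m * h ∈ (∅ : Set ℝ)} = ∅ := by
        ext m
        simp
      rw [h3]
      refine ⟨Set.finite_empty, ?_⟩
      simp
    · intro δ
      have h3 : {s : ℝ | ¬ (s ∈ (∅ : Set ℝ) ↔ s + δ ∈ (∅ : Set ℝ))} = ∅ := by
        ext s
        simp
      rw [h3, measure_empty]
      exact zero_le
  | succ k ih =>
    obtain ⟨R, hR⟩ := ih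
    have e : Jset (k + 1) c = Jset k c ∪ Set.Icc (c (2 * k)) (c (2 * k + 1)) := by
      ext s
      constructor
      · rintro ⟨i, hi, h1, h2⟩
        rcases Nat.lt_succ_iff_lt_or_eq.1 hi with h | h
        · exact Or.inl ⟨i, h, h1, h2⟩
        · subst h
          exact Or.inr ⟨h1, h2⟩
      · rintro (⟨i, hi, h1, h2⟩ | ⟨h1, h2⟩)
        · exact ⟨i, Nat.lt_succ_of_lt hi, h1, h2⟩
        · exact ⟨k, Nat.lt_succ_self k, h1, h2⟩
    have e1 : Jlen (k + 1) c = Jlen k c + (c (2 * k + 1) - c (2 * k)) := by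
      unfold Jlen
      rw [sum_range_succ]
    have e2 : (2 * ((k + 1 : ℕ) : ℝ)) = 2 * k + 2 := by
      push_cast
      ring
    have hJa : ∀ s ∈ Jset k c, s ≤ c (2 * k) := by
      rintro s ⟨i, hi, -, h2⟩
      exact h2.trans (hc (by omega))
    have h4 : -(max R (max |c (2 * k)| |c (2 * k + 1)|)) ≤ c (2 * k) := by
      have h5 : |c (2 * k)| ≤ max R (max |c (2 * k)| |c (2 * k + 1)|) :=
        (le_max_left _ _).trans (le_max_right _ _)
      have h6 := neg_abs_le (c (2 * k))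
      linarith
    have h5 : c (2 * k + 1) ≤ max R (max |c (2 * k)| |c (2 * k + 1)|) :=
      (le_abs_self _).trans ((le_max_right _ _).trans (le_max_right _ _))
    refine ⟨max R (max |c (2 * k)| |c (2 * k + 1)|), ?_⟩
    rw [e, e1, e2]
    exact nice_add hR hJa (hc (by omega)) (le_max_left _ _) h4 h5

end Pool.Agent.Lib.MP_de5eaa_nt.Poi
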