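import Pool.Agent.Lib.MP_de5eaa_nt.Poi.Defs
import Pool.Agent.Lib.MP_de5eaa_nt.Poi.H7

set_option autoImplicit false

namespace Pool.Agent.Lib.MP_de5eaa_nt.Poi

open Finset MeasureTheory Filter Topology
open Pool.Agent.Lib.MP_de5eaa_nt.Near (hs wq)

/-- ROW P1 (reciprocity). Let `s = hs 1 n = A / B` in lowest terms; `B ∣ QQ L` (`den_dvd_QQ`). `Near.wq_rat` with `n := 1`, `m := n`, `j := 1`:
`(wq n p - wq 1 p) B = A + p v` with an integer `v`. So `(wq n p - wq 1 p)/p = s/p + v/B`. Modulo `B`: `p v ≡ -A`, and `u p ≡ 1`, so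
`v ≡ -u A`, `v/B = -u s + a` with an integer `a`, and `YY u n = -(u s)`. -/
theorem wq_point {p L u n : ℕ} (hp : p.Prime) (hL : L < p) (hu : u * p ≡ 1 [MOD QQ L]) (hn : 1 ≤ n) (hnL : n ≤ L) :
    ∃ a : ℤ, (wq n p : ℝ) / p = (wq 1 p : ℝ) / p + ((hs 1 n : ℚ) : ℝ) / p + YY u n + a := by
  have h1 := Pool.Agent.Lib.MP_de5eaa_nt.Near.wq_rat hp (le_refl 1) hn (by omega : n ≤ p) 1
  rw [Int.cast_one, one_mul, one_mul] at h1
  obtain ⟨v, hv⟩ := h1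
  have hB : (hs 1 n).den ∣ QQ L := den_dvd_QQ (le_refl 1) (by omega)
  have h2 : ((hs 1 n).den : ℤ) ∣ (u : ℤ) * p - 1 := by
    have h3 : u * p ≡ 1 [MOD (hs 1 n).den] := hu.of_dvd hB
    have h4 := (Nat.modEq_iff_dvd.1 h3.symm)
    push_cast at h4
    exact h4
  obtain ⟨w, hw⟩ := h2
  set W : ℤ := wq n p - wq 1 p with hW
  refine ⟨u * W - w * v, ?_⟩
  have hp0 : (p : ℝ) ≠ 0 := Nat.cast_ne_zero.2 hp.ne_zero
  have hB0 : ((hs 1 n).den : ℝ) ≠ 0 := Nat.cast_ne_zero.2 (hs 1 n).den_nz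
  have hs1 : ((hs 1 n : ℚ) : ℝ) = ((hs 1 n).num : ℝ) / ((hs 1 n).den : ℝ) := Rat.cast_def _
  have hvR : (W : ℝ) * ((hs 1 n).den : ℝ) - ((hs 1 n).num : ℝ) = p * v := by exact_mod_cast hv
  have hwR : (u : ℝ) * p - 1 = ((hs 1 n).den : ℝ) * w := by exact_mod_cast hw
  have hWR : (W : ℝ) = (wq n p : ℝ) - (wq 1 p : ℝ) := by rw [hW]; push_cast; ring
  unfold YY
  rw [hs1]
  push_cast
  have hnum : ((hs 1 n).num : ℝ) = (W : ℝ) * ((hs 1 n).den : ℝ) - p * v := by linarith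
  rw [hnum]
  have hwq : (wq n p : ℝ) = (wq 1 p : ℝ) + W := by rw [hWR]; ring
  rw [hwq]
  field_simp
  linear_combination (-(p : ℝ) * v) * hwR

end Pool.Agent.Lib.MP_de5eaa_nt.Poi
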