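import Pool.Agent.Lib.MP_de5eaa_nt.Poi.Defs
import Pool.Agent.Lib.MP_de5eaa_nt.Poi.P1
import Pool.Agent.Lib.MP_de5eaa_nt.Poi.C3

set_option autoImplicit false

namespace Pool.Agent.Lib.MP_de5eaa_nt.Poi

open Finset MeasureTheory Filter Topology
open Pool.Agent.Lib.MP_de5eaa_nt.Near (hs wq)

theorem P2_hs_nonneg (n : ℕ) : (0 : ℚ) ≤ hs 1 n := by
  unfold Pool.Agent.Lib.MP_de5eaa_nt.Near.hs
  exact Finset.sum_nonneg fun k _ => by positivity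

theorem P2_hs_le (n : ℕ) : hs 1 n ≤ (n : ℚ) := by
  unfold Pool.Agent.Lib.MP_de5eaa_nt.Near.hs
  calc ∑ k ∈ Ico 1 n, 1 / (k : ℚ) ≤ ∑ _k ∈ Ico 1 n, (1 : ℚ) := by
        refine Finset.sum_le_sum fun k hk => ?_
        have h1 : 1 ≤ k := (Finset.mem_Ico.1 hk).1
        have h2 : (1 : ℚ) ≤ k := by exact_mod_cast h1
        rw [div_le_one (by linarith)]
        exact h2
    _ = ((n - 1 : ℕ) : ℚ) := by simp
    _ ≤ (n : ℚ) := by exact_mod_cast Nat.sub_le n 1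

/-- ROW P2. By `cnt_add_int` and `cnt_shift` (with `c = wq 1 p / p`) the points `wq n p / p` may be replaced by
`y' n = YY u n + hs 1 n / p` (`wq_point`), and `pv_pert` compares with `YY u n`: the error is
`∑_{n ≤ L} 2 K hs 1 n / p ≤ 2 K L^2/p` (`0 ≤ hs 1 n ≤ n ≤ L`). -/
theorem wq_pv {J : Set ℝ} {lam K R : ℝ} (hJ : Nice J lam K R) {p L u : ℕ} (hp : p.Prime) (hL0 : 1 ≤ L) (hL : L < p)
    (hu : u * p ≡ 1 [MOD QQ L]) (r : ℕ) :
    |pv J L (Icc 1 L) (fun n => (wq n p : ℝ) / p) r - pv J L (Icc 1 L) (YY u) r| ≤ 2 * K * (L : ℝ) ^ 2 / p := by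
  have hp0 : (0 : ℝ) < p := by exact_mod_cast hp.pos
  have hLr : (0 : ℝ) < L := by exact_mod_cast (show 0 < L by omega)
  have e1 : pv J L (Icc 1 L) (fun n => (wq n p : ℝ) / p) r =
      pv J L (Icc 1 L) (fun n => (YY u n + ((hs 1 n : ℚ) : ℝ) / p) + (wq 1 p : ℝ) / p) r := by
    unfold pv
    have h1 : ∀ t, cnt J L (Icc 1 L) (fun n => (wq n p : ℝ) / p) t =
        cnt J L (Icc 1 L) (fun n => (YY u n + ((hs 1 n : ℚ) : ℝ) / p) + (wq 1 p : ℝ) / p) t := by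
      intro t
      refine cnt_add_int J L (Icc 1 L) _ _ (fun n hn => ?_) t
      obtain ⟨h2, h3⟩ := Finset.mem_Icc.1 hn
      obtain ⟨a, ha⟩ := wq_point hp hL hu h2 h3
      exact ⟨a, by rw [ha]; ring⟩
    simp only [h1]
  have e2 : pv J L (Icc 1 L) (fun n => (YY u n + ((hs 1 n : ℚ) : ℝ) / p) + (wq 1 p : ℝ) / p) r =
      pv J L (Icc 1 L) (fun n => YY u n + ((hs 1 n : ℚ) : ℝ) / p) r := by
    unfold pv
    rw [cnt_shift hJ.meas L (Icc 1 L) (fun n => YY u n + ((hs 1 n : ℚ) : ℝ) / p)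
      ((wq 1 p : ℝ) / p) r]
  rw [e1, e2]
  refine le_trans (pv_pert hJ hLr (Icc 1 L) (fun n => YY u n + ((hs 1 n : ℚ) : ℝ) / p) (YY u) r) ?_
  have h4 : ∀ n ∈ Icc 1 L, 2 * K * |YY u n - (YY u n + ((hs 1 n : ℚ) : ℝ) / p)| ≤
      2 * K * (L : ℝ) / p := by
    intro n hn
    obtain ⟨h2, h3⟩ := Finset.mem_Icc.1 hn
    have h5 : (0 : ℝ) ≤ ((hs 1 n : ℚ) : ℝ) := by exact_mod_cast P2_hs_nonneg n
    have h6 : ((hs 1 n : ℚ) : ℝ) ≤ (L : ℝ) := by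
      have h7 : (hs 1 n : ℚ) ≤ (L : ℚ) := le_trans (P2_hs_le n) (by exact_mod_cast h3)
      exact_mod_cast h7
    have h8 : |YY u n - (YY u n + ((hs 1 n : ℚ) : ℝ) / p)| = ((hs 1 n : ℚ) : ℝ) / p := by
      rw [show YY u n - (YY u n + ((hs 1 n : ℚ) : ℝ) / p) = -(((hs 1 n : ℚ) : ℝ) / p) by ring,
        abs_neg, abs_of_nonneg (div_nonneg h5 hp0.le)]
    rw [h8, mul_div_assoc]
    have hK := hJ.K0
    exact mul_le_mul_of_nonneg_left (div_le_div_of_nonneg_right h6 hp0.le) (by positivity)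
  refine le_trans (Finset.sum_le_sum h4) ?_
  rw [Finset.sum_const, Nat.card_Icc, nsmul_eq_mul, Nat.add_sub_cancel]
  apply le_of_eq
  ring

end Pool.Agent.Lib.MP_de5eaa_nt.Poi
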