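import Pool.Agent.Lib.MP_de5eaa_nt.Poi.Defs
import Pool.Agent.Lib.MP_de5eaa_nt.Near.O1

set_option autoImplicit false

namespace Pool.Agent.Lib.MP_de5eaa_nt.Poi

open Finset MeasureTheory Filter Topology
open Pool.Agent.Lib.MP_de5eaa_nt.Near (hs wq ppi)

theorem theta_tendsto : Tendsto (fun x : ℕ => Chebyshev.theta x / (x : ℝ)) atTop (𝓝 1) := by
  have h := Near.th_tendsto
  simp only [Near.th_theta] at h
  exact h

theorem ppi_atTop : Tendsto (fun x : ℕ => (ppi x : ℝ)) atTop atTop := by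
  refine tendsto_natCast_atTop_atTop.comp ?_
  have h : ppi = Nat.primeCounting := funext Near.ppi_eq
  rw [h]
  exact Nat.tendsto_primeCounting

theorem P3b_sub {Q : ℕ} (Bad : Finset ℕ) (x : ℕ) (A : Finset ℕ)
    (hA : ∀ p ∈ A, p.Prime ∧ p ≤ x ∧ ∃ u ∈ Bad, u * p ≡ 1 [MOD Q]) :
    ∑ p ∈ A, Pool.Agent.Lib.MP_d9bc60_nt.TH.lam p ≤
      ∑ u ∈ Bad, Pool.Agent.Lib.MP_d9bc60_nt.TH.tz Q 0 x ((u : ZMod Q)⁻¹) := by
  classical
  have hsub : A ⊆ Ioc 0 x := by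
    intro p hp
    obtain ⟨h1, h2, -⟩ := hA p hp
    rw [mem_Ioc]
    exact ⟨h1.pos, h2⟩
  have h1 : ∑ p ∈ A, Pool.Agent.Lib.MP_d9bc60_nt.TH.lam p ≤
      ∑ p ∈ A, ∑ u ∈ Bad, (if (p : ZMod Q) = (u : ZMod Q)⁻¹ then
        Pool.Agent.Lib.MP_d9bc60_nt.TH.lam p else 0) := by
    refine Finset.sum_le_sum fun p hp => ?_
    obtain ⟨-, -, u, hu, hup⟩ := hA p hp
    have h3 : (u : ZMod Q) * (p : ZMod Q) = 1 := by
      have h4 := (ZMod.natCast_eq_natCast_iff _ _ _).mpr hup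
      push_cast at h4
      exact h4
    have h5 : (u : ZMod Q)⁻¹ = (p : ZMod Q) := ZMod.inv_eq_of_mul_eq_one Q _ _ h3
    have h6 : (if (p : ZMod Q) = (u : ZMod Q)⁻¹ then
        Pool.Agent.Lib.MP_d9bc60_nt.TH.lam p else 0) = Pool.Agent.Lib.MP_d9bc60_nt.TH.lam p :=
      if_pos h5.symm
    calc Pool.Agent.Lib.MP_d9bc60_nt.TH.lam p = (if (p : ZMod Q) = (u : ZMod Q)⁻¹ then
        Pool.Agent.Lib.MP_d9bc60_nt.TH.lam p else 0) := h6.symm
      _ ≤ _ := Finset.single_le_sum (f := fun u : ℕ => (if (p : ZMod Q) = (u : ZMod Q)⁻¹ then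
        Pool.Agent.Lib.MP_d9bc60_nt.TH.lam p else 0)) (fun v _ => by
          split_ifs
          · exact Near.lam_nonneg p
          · exact le_rfl) hu
  have h2 : ∑ p ∈ A, ∑ u ∈ Bad, (if (p : ZMod Q) = (u : ZMod Q)⁻¹ then
        Pool.Agent.Lib.MP_d9bc60_nt.TH.lam p else 0) ≤
      ∑ p ∈ Ioc 0 x, ∑ u ∈ Bad, (if (p : ZMod Q) = (u : ZMod Q)⁻¹ then
        Pool.Agent.Lib.MP_d9bc60_nt.TH.lam p else 0) := by
    refine Finset.sum_le_sum_of_subset_of_nonneg hsub fun p _ _ => Finset.sum_nonneg fun u _ => ?_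
    split_ifs
    · exact Near.lam_nonneg p
    · exact le_rfl
  refine h1.trans (h2.trans (le_of_eq ?_))
  rw [Finset.sum_comm]
  refine Finset.sum_congr rfl fun u _ => ?_
  unfold Pool.Agent.Lib.MP_d9bc60_nt.TH.tz
  rw [Finset.sum_filter]

theorem P3b_diff (x : ℕ) (A : Finset ℕ) (hA : ∀ p ∈ A, p.Prime ∧ p ≤ x) :
    (A.card : ℝ) * Real.log x - ∑ p ∈ A, Pool.Agent.Lib.MP_d9bc60_nt.TH.lam p ≤
      (ppi x : ℝ) * Real.log x - Near.th x := by
  classical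
  have h3 : (ppi x : ℝ) * Real.log x - Near.th x =
      ∑ p ∈ (range (x + 1)).filter Nat.Prime, (Real.log x - Pool.Agent.Lib.MP_d9bc60_nt.TH.lam p) := by
    rw [Finset.sum_sub_distrib, Finset.sum_const, nsmul_eq_mul]
    unfold Near.th ppi
    congr 1
    rw [Finset.sum_filter]
    refine Finset.sum_congr rfl fun n _ => ?_
    by_cases h : n.Prime
    · rw [if_pos h]
    · rw [if_neg h]
      unfold Pool.Agent.Lib.MP_d9bc60_nt.TH.lam
      rw [if_neg h]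
  have h4 : (A.card : ℝ) * Real.log x - ∑ p ∈ A, Pool.Agent.Lib.MP_d9bc60_nt.TH.lam p =
      ∑ p ∈ A, (Real.log x - Pool.Agent.Lib.MP_d9bc60_nt.TH.lam p) := by
    rw [Finset.sum_sub_distrib, Finset.sum_const, nsmul_eq_mul]
  rw [h3, h4]
  refine Finset.sum_le_sum_of_subset_of_nonneg ?_ ?_
  · intro p hp
    obtain ⟨h1, h2⟩ := hA p hp
    rw [mem_filter, mem_range]
    exact ⟨by omega, h1⟩
  · intro p hp _
    rw [mem_filter, mem_range] at hp
    have h5 : Pool.Agent.Lib.MP_d9bc60_nt.TH.lam p ≤ Real.log x := by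
      rw [Near.lam_prime hp.2]
      apply Real.log_le_log
      · exact_mod_cast hp.2.pos
      · have : p ≤ x := by omega
        exact_mod_cast this
    linarith

open Classical in
/-- ROW P3 (primes in residue classes). The primes `p ≤ x` of the set are in one of the `|Bad|` classes `u^{-1}` modulo `Q`
(`u ∈ Bad` is a unit modulo `Q`, and `u p ≡ 1` determines the class of `p`). For each class the number of the primes is
`≤ (1/φ(Q) + ε') ppi x` for `x` large: from `Pool.Agent.Lib.MP_d9bc60_nt.TH.tz_tendsto` (`∑_{p ≤ x, p ≡ a} log p ~ x/φ(Q)`),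
`Near.ppi_tendsto` (`ppi x log x/x → 1`), and the primes `p ≤ x^{1-η}` are negligible (the others have `log p ≥ (1-η) log x`;
compare the proof of `Near.count_of_weight`). Then sum over `u ∈ Bad`, `ε' = ε/(|Bad|+1)`. -/
theorem class_count {Q : ℕ} (hQ : 0 < Q) (Bad : Finset ℕ) (hB : Bad ⊆ UU Q) {ε : ℝ} (hε : 0 < ε) :
    ∀ᶠ x : ℕ in atTop, (((range (x + 1)).filter fun p => p.Prime ∧ ∃ u ∈ Bad, u * p ≡ 1 [MOD Q]).card : ℝ) ≤
      ((Bad.card : ℝ) / (Q.totient : ℝ) + ε) * ppi x := by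
  have : NeZero Q := ⟨hQ.ne'⟩
  have hunit : ∀ u ∈ Bad, IsUnit ((u : ZMod Q)⁻¹) := by
    intro u hu
    have h1 := hB hu
    unfold UU at h1
    rw [mem_filter] at h1
    have h2 : (u : ZMod Q) * (u : ZMod Q)⁻¹ = 1 := ZMod.coe_mul_inv_eq_one u h1.2.symm
    exact ⟨⟨(u : ZMod Q)⁻¹, (u : ZMod Q), by rw [mul_comm]; exact h2, h2⟩, rfl⟩
  have hT : Tendsto (fun x : ℕ => (∑ u ∈ Bad,
      Pool.Agent.Lib.MP_d9bc60_nt.TH.tz Q 0 x ((u : ZMod Q)⁻¹)) / (x : ℝ)) atTop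
      (𝓝 ((Bad.card : ℝ) / (Q.totient : ℝ))) := by
    have h1 : Tendsto (fun x : ℕ => ∑ u ∈ Bad,
        Pool.Agent.Lib.MP_d9bc60_nt.TH.tz Q 0 x ((u : ZMod Q)⁻¹) / (x : ℝ)) atTop
        (𝓝 (∑ _u ∈ Bad, ((Q.totient : ℝ))⁻¹)) :=
      tendsto_finsetSum _ fun u hu => Pool.Agent.Lib.MP_d9bc60_nt.TH.tz_tendsto (hunit u hu)
    rw [Finset.sum_const, nsmul_eq_mul, ← div_eq_mul_inv] at h1
    refine h1.congr fun x => ?_
    rw [Finset.sum_div]
  have hl : Tendsto (fun x : ℕ => (∑ u ∈ Bad,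
      Pool.Agent.Lib.MP_d9bc60_nt.TH.tz Q 0 x ((u : ZMod Q)⁻¹)) / (x : ℝ) +
      ((ppi x : ℝ) * Real.log x / (x : ℝ) - Near.th x / (x : ℝ))) atTop
      (𝓝 ((Bad.card : ℝ) / (Q.totient : ℝ))) := by
    have h1 := hT.add (Near.ppi_tendsto.sub Near.th_tendsto)
    simpa using h1
  have hr : Tendsto (fun x : ℕ => ((Bad.card : ℝ) / (Q.totient : ℝ) + ε) *
      ((ppi x : ℝ) * Real.log x / (x : ℝ))) atTop (𝓝 ((Bad.card : ℝ) / (Q.totient : ℝ) + ε)) := by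
    have h1 := Near.ppi_tendsto.const_mul ((Bad.card : ℝ) / (Q.totient : ℝ) + ε)
    simpa using h1
  have hlt := hl.eventually_lt hr (by linarith)
  filter_upwards [hlt, eventually_ge_atTop 2] with x hx hx2
  have hx2' : (2 : ℝ) ≤ x := by exact_mod_cast hx2
  have hlog : 0 < Real.log x := Real.log_pos (by linarith)
  have hx0 : (0 : ℝ) < x := by linarith
  set A := (range (x + 1)).filter fun p => p.Prime ∧ ∃ u ∈ Bad, u * p ≡ 1 [MOD Q] with hAdef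
  have hA : ∀ p ∈ A, p.Prime ∧ p ≤ x ∧ ∃ u ∈ Bad, u * p ≡ 1 [MOD Q] := by
    intro p hp
    rw [hAdef, mem_filter, mem_range] at hp
    exact ⟨hp.2.1, by omega, hp.2.2⟩
  have h1 := P3b_sub Bad x A hA
  have h2 := P3b_diff x A (fun p hp => ⟨(hA p hp).1, (hA p hp).2.1⟩)
  have h3 : (A.card : ℝ) * Real.log x ≤ (∑ u ∈ Bad,
      Pool.Agent.Lib.MP_d9bc60_nt.TH.tz Q 0 x ((u : ZMod Q)⁻¹)) +
      ((ppi x : ℝ) * Real.log x - Near.th x) := by linarith
  have h4 : (A.card : ℝ) * Real.log x / x < ((Bad.card : ℝ) / (Q.totient : ℝ) + ε) *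
      ((ppi x : ℝ) * Real.log x / (x : ℝ)) := by
    refine lt_of_le_of_lt ?_ hx
    rw [← sub_div, ← add_div]
    exact div_le_div_of_nonneg_right h3 hx0.le
  have h5 : (A.card : ℝ) * (Real.log x / x) < ((Bad.card : ℝ) / (Q.totient : ℝ) + ε) * ppi x *
      (Real.log x / x) := by
    calc (A.card : ℝ) * (Real.log x / x) = (A.card : ℝ) * Real.log x / x := by ring
      _ < _ := h4
      _ = _ := by ring
  exact (lt_of_mul_lt_mul_right h5 (div_pos hlog hx0).le).le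

end Pool.Agent.Lib.MP_de5eaa_nt.Poi
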