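import Pool.Agent.Lib.MP_de5eaa_nt.Poi.P3
import Pool.Agent.Lib.MP_de5eaa_nt.Poi.P2
import Pool.Agent.Lib.MP_de5eaa_nt.Poi.C4

set_option autoImplicit false

namespace Pool.Agent.Lib.MP_de5eaa_nt.Poi

open Finset MeasureTheory Filter Topology
open Pool.Agent.Lib.MP_de5eaa_nt.Near (hs wq ppi)

theorem P4_QQ_dvd (L : ℕ) : QQ L ∣ L.factorial := by
  unfold QQ
  refine Finset.lcm_dvd fun i hi => ?_
  rw [mem_Icc] at hi
  exact Nat.dvd_factorial hi.1 hi.2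

theorem P4_QQ_pos (L : ℕ) : 0 < QQ L :=
  Nat.pos_of_dvd_of_pos (P4_QQ_dvd L) (Nat.factorial_pos L)

theorem P4_inv {p Q : ℕ} (hQ : 0 < Q) (h : p.Coprime Q) : ∃ u ∈ UU Q, u * p ≡ 1 [MOD Q] := by
  have : NeZero Q := ⟨hQ.ne'⟩
  have h1 := ZMod.coe_mul_inv_eq_one p h
  refine ⟨((p : ZMod Q)⁻¹).val, ?_, ?_⟩
  · unfold UU
    rw [mem_filter, mem_range]
    refine ⟨ZMod.val_lt _, ?_⟩
    have h2 : IsUnit ((((p : ZMod Q)⁻¹).val : ℕ) : ZMod Q) := by
      rw [ZMod.natCast_val, ZMod.cast_id']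
      exact IsUnit.of_mul_eq_one _ (by rw [id, mul_comm]; exact h1)
    exact ((ZMod.isUnit_iff_coprime _ _).1 h2).symm
  · rw [← ZMod.natCast_eq_natCast_iff]
    push_cast
    rw [ZMod.natCast_val, ZMod.cast_id', id, mul_comm]
    exact h1

open Classical in
/-- ROW P4 (assembly). `L ≥ 1` large: `finite_poisson` with `ε/2` (`theta_tendsto`): the set `Bad ⊆ UU (QQ L)` of the bad `u` has at most
`(ε/2) φ(QQ L)` elements. Let `p ≤ x` be a prime of the set, `p > x1` where `x1 ≥ L` and `2 K L^2/x1 ≤ ε/2`. `p` is coprime to `QQ L` (its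
prime factors are `≤ L`), so there is `u ∈ UU (QQ L)` with `u p ≡ 1`; by `wq_pv` `u ∈ Bad`. So the number is at most `x1 + 1 +
#{p ≤ x | ∃ u ∈ Bad, u p ≡ 1} ≤ x1 + 1 + (ε/2 + ε/4) ppi x ≤ ε ppi x` for `x` large (`class_count` with `ε/4`, `ppi_atTop`). -/
theorem main {J : Set ℝ} {lam K R : ℝ} (hJ : Nice J lam K R) (r : ℕ) {ε : ℝ} (hε : 0 < ε) : ∃ L0 : ℕ, ∀ L : ℕ, L0 ≤ L →
    ∃ x0 : ℕ, ∀ x : ℕ, x0 ≤ x →
      (((range (x + 1)).filter fun p => p.Prime ∧ ε < |pv J L (Icc 1 L) (fun n => (wq n p : ℝ) / p) r -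
        Real.exp (-lam) * lam ^ r / (Nat.factorial r : ℝ)|).card : ℝ) ≤ ε * ppi x := by
  obtain ⟨L1, hL1⟩ := eventually_atTop.1 (finite_poisson theta_tendsto hJ r (half_pos hε))
  refine ⟨max L1 1, fun L hL => ?_⟩
  have hLL : L1 ≤ L := (le_max_left _ _).trans hL
  have hL0 : 1 ≤ L := (le_max_right _ _).trans hL
  have hbad := hL1 L hLL
  obtain ⟨e, he⟩ : ∃ e : ℝ, e = Real.exp (-lam) * lam ^ r / (Nat.factorial r : ℝ) := ⟨_, rfl⟩
  rw [← he] at hbad ⊢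
  obtain ⟨Bad, hBad⟩ : ∃ Bad : Finset ℕ, Bad = (UU (QQ L)).filter fun u =>
    ε / 2 < |pv J L (Icc 1 L) (YY u) r - e| := ⟨_, rfl⟩
  rw [← hBad] at hbad
  have hQ := P4_QQ_pos L
  have hsub : Bad ⊆ UU (QQ L) := by
    rw [hBad]
    exact filter_subset _ _
  have hφ : (0 : ℝ) < ((QQ L).totient : ℝ) := by exact_mod_cast Nat.totient_pos.2 hQ
  obtain ⟨x1, hx1⟩ : ∃ x1 : ℕ, x1 = max L ⌈4 * K * (L : ℝ) ^ 2 / ε⌉₊ := ⟨_, rfl⟩
  have hx1L : L ≤ x1 := by rw [hx1]; exact le_max_left _ _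
  have hx1K : 4 * K * (L : ℝ) ^ 2 / ε ≤ (x1 : ℝ) := by
    refine (Nat.le_ceil _).trans ?_
    rw [hx1]
    exact_mod_cast le_max_right _ _
  have hcc := class_count hQ Bad hsub (by positivity : 0 < ε / 4)
  have hpp := ppi_atTop.eventually_ge_atTop (((x1 : ℝ) + 1) / (ε / 4))
  obtain ⟨x0, hx0⟩ := eventually_atTop.1 (hcc.and hpp)
  refine ⟨x0, fun x hx => ?_⟩
  obtain ⟨g1, g2⟩ := hx0 x hx
  have hcov : ((range (x + 1)).filter fun p => p.Prime ∧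
      ε < |pv J L (Icc 1 L) (fun n => (wq n p : ℝ) / p) r - e|) ⊆
      range (x1 + 1) ∪ ((range (x + 1)).filter fun p => p.Prime ∧
        ∃ u ∈ Bad, u * p ≡ 1 [MOD QQ L]) := by
    intro p hp
    rw [mem_filter] at hp
    obtain ⟨hpx, hpp, hpe⟩ := hp
    rw [mem_union]
    by_cases hpx1 : p < x1 + 1
    · exact Or.inl (mem_range.2 hpx1)
    · right
      push Not at hpx1
      have hp1 : x1 < p := hpx1
      have hLp : L < p := lt_of_le_of_lt hx1L hp1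
      have hcop : p.Coprime (QQ L) := by
        rw [Nat.Prime.coprime_iff_not_dvd hpp]
        intro h
        have h1 := (Nat.Prime.dvd_factorial hpp).1 (h.trans (P4_QQ_dvd L))
        omega
      obtain ⟨u, hu, hup⟩ := P4_inv hQ hcop
      rw [mem_filter]
      refine ⟨hpx, hpp, u, ?_, hup⟩
      rw [hBad, mem_filter]
      refine ⟨hu, ?_⟩
      have h1 := wq_pv hJ hpp hL0 hLp hup r
      have hp0 : (0 : ℝ) < (p : ℝ) := by exact_mod_cast hpp.pos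
      have h2 : 2 * K * (L : ℝ) ^ 2 / p ≤ ε / 2 := by
        have h3 : 4 * K * (L : ℝ) ^ 2 / ε ≤ (p : ℝ) := hx1K.trans (by exact_mod_cast hp1.le)
        rw [div_le_iff₀ hε] at h3
        rw [div_le_iff₀ hp0]
        linarith
      have h4 := abs_sub_le (pv J L (Icc 1 L) (fun n => (wq n p : ℝ) / p) r)
        (pv J L (Icc 1 L) (YY u) r) e
      linarith
  have hc1 : (((range (x + 1)).filter fun p => p.Prime ∧
      ε < |pv J L (Icc 1 L) (fun n => (wq n p : ℝ) / p) r - e|).card : ℝ) ≤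
      ((x1 : ℝ) + 1) + (((range (x + 1)).filter fun p => p.Prime ∧
        ∃ u ∈ Bad, u * p ≡ 1 [MOD QQ L]).card : ℝ) := by
    have h1 := (card_le_card hcov).trans (card_union_le _ _)
    rw [card_range] at h1
    exact_mod_cast h1
  have hb2 : (Bad.card : ℝ) / ((QQ L).totient : ℝ) ≤ ε / 2 := by
    rw [div_le_iff₀ hφ]
    exact hbad
  have hppos : 0 ≤ (ppi x : ℝ) := Nat.cast_nonneg _
  have h5 : ((Bad.card : ℝ) / ((QQ L).totient : ℝ) + ε / 4) * ppi x ≤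
      (ε / 2 + ε / 4) * ppi x := by
    refine mul_le_mul_of_nonneg_right ?_ hppos
    linarith
  have h6 : (x1 : ℝ) + 1 ≤ ε / 4 * ppi x := by
    have h7 : ((x1 : ℝ) + 1) / (ε / 4) ≤ ppi x := g2
    rw [div_le_iff₀ (by positivity)] at h7
    linarith
  refine hc1.trans ?_
  nlinarith

end Pool.Agent.Lib.MP_de5eaa_nt.Poi
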