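import Pool.Agent.Lib.MP_de5eaa_nt.Poi.Lo8

set_option autoImplicit false

namespace Pool.Agent.Lib.MP_de5eaa_nt.Poi

open Finset MeasureTheory Filter Topology
open Pool.Agent.Lib.MP_de5eaa_nt.Near (hs wq ppi)

/-- ROW Se1a. The proof of `inversion` (file `Poi/C2.lean`) with `lam` quantified at the end: the recursion there chooses `X` and `δ` without
using `lam` (`C2_key`, `C2_min`, `C2_hasSum`, `C2_e_nonneg`, `C2_e_le_one` are for one `lam`, used inside). -/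
theorem inversion_u (r : ℕ) {ε : ℝ} (hε : 0 < ε) :
    ∃ X : Finset ℝ, (∀ x ∈ X, 0 ≤ x ∧ x ≤ 1) ∧ ∃ δ : ℝ, 0 < δ ∧ ∀ lam : ℝ, 0 ≤ lam → ∀ (N : ℕ) (q : ℕ → ℝ),
      (∀ i, 0 ≤ q i) → (∀ i, q i ≤ 1) → (∀ i, N < i → q i = 0) →
      (∀ x ∈ X, |(∑ i ∈ range (N + 1), q i * x ^ i) - Real.exp (-(lam * (1 - x)))| ≤ δ) →
      |q r - poi lam r| ≤ ε := by
  induction r using Nat.strong_induction_on generalizing ε with
  | _ r ih =>
    obtain ⟨x, hxdef⟩ : ∃ x : ℝ, x = min (1 / 2) (ε / 8) := ⟨_, rfl⟩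
    have hx0 : 0 < x := by
      rw [hxdef]
      exact lt_min (by norm_num) (by linarith)
    have hx : x ≤ 1 / 2 := by
      rw [hxdef]
      exact min_le_left _ _
    have hxe : x ≤ ε / 8 := by
      rw [hxdef]
      exact min_le_right _ _
    have hε' : 0 < ε * x ^ r / (4 * ((r : ℝ) + 1)) := by positivity
    have hih : ∀ i : Fin r, ∃ X : Finset ℝ, (∀ x ∈ X, 0 ≤ x ∧ x ≤ 1) ∧ ∃ δ : ℝ, 0 < δ ∧
        ∀ lam : ℝ, 0 ≤ lam → ∀ (N : ℕ) (q : ℕ → ℝ), (∀ i, 0 ≤ q i) → (∀ i, q i ≤ 1) → (∀ i, N < i → q i = 0) →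
        (∀ x ∈ X, |(∑ i ∈ range (N + 1), q i * x ^ i) - Real.exp (-(lam * (1 - x)))| ≤ δ) →
        |q i - poi lam i| ≤ ε * x ^ r / (4 * ((r : ℝ) + 1)) :=
      fun i => ih i i.2 hε'
    choose X hX δ hδ hmain using hih
    obtain ⟨δ0, hδ0, hδi⟩ := C2_min r δ hδ
    refine ⟨insert x (Finset.univ.biUnion X), ?_, min δ0 (ε * x ^ r / 4), ?_, ?_⟩
    · intro y hy
      rw [Finset.mem_insert, Finset.mem_biUnion] at hy
      rcases hy with rfl | ⟨i, -, hi⟩
      · exact ⟨hx0.le, by linarith⟩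
      · exact hX i y hi
    · exact lt_min hδ0 (by positivity)
    · intro lam hlam N q hq0 hq1 hqN hq
      have hqs : HasSum (fun i => q i * x ^ i) (∑ i ∈ range (N + 1), q i * x ^ i) := by
        apply hasSum_sum_of_ne_finset_zero
        intro i hi
        rw [Finset.mem_range, not_lt] at hi
        rw [hqN i (by omega), zero_mul]
      have hD : HasSum (fun i => (q i - C2_e lam i) * x ^ i)
          ((∑ i ∈ range (N + 1), q i * x ^ i) - Real.exp (-(lam * (1 - x)))) := by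
        have h1 := hqs.sub (C2_hasSum lam x)
        have h2 : (fun i => (q i - C2_e lam i) * x ^ i) =
            fun i => q i * x ^ i - C2_e lam i * x ^ i := by
          funext i
          ring
        rw [h2]
        exact h1
      have hd : ∀ i, |q i - C2_e lam i| ≤ 1 := by
        intro i
        rw [abs_le]
        have h1 := hq0 i
        have h2 := hq1 i
        have h3 := C2_e_nonneg hlam i
        have h4 := C2_e_le_one hlam i
        constructor <;> linarith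
      refine C2_key (d := fun i => q i - C2_e lam i) hd hx0 hx hxe hD r ?_ ?_
      · exact (hq x (Finset.mem_insert_self _ _)).trans (min_le_right _ _)
      · intro i hir
        refine hmain ⟨i, hir⟩ lam hlam N q hq0 hq1 hqN fun y hy => ?_
        refine (hq y ?_).trans ((min_le_left _ _).trans (hδi ⟨i, hir⟩))
        exact Finset.mem_insert_of_mem (Finset.mem_biUnion.2 ⟨⟨i, hir⟩, Finset.mem_univ _, hy⟩)

theorem Se1b_prod (s : Finset ℕ) (f g : ℕ → ℝ) (hf : ∀ j ∈ s, 0 ≤ f j ∧ f j ≤ 1) (hg : ∀ j ∈ s, 0 ≤ g j ∧ g j ≤ 1) :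
    |∏ j ∈ s, f j - ∏ j ∈ s, g j| ≤ ∑ j ∈ s, |f j - g j| := by
  induction s using Finset.induction_on with
  | empty => simp
  | insert a s ha ih =>
    have h1 := ih (fun j hj => hf j (Finset.mem_insert_of_mem hj)) (fun j hj => hg j (Finset.mem_insert_of_mem hj))
    obtain ⟨f0, f1⟩ := hf a (Finset.mem_insert_self a s)
    have p0 : 0 ≤ ∏ j ∈ s, g j := Finset.prod_nonneg fun j hj => (hg j (Finset.mem_insert_of_mem hj)).1
    have p1 : ∏ j ∈ s, g j ≤ 1 := Finset.prod_le_one (fun j hj => (hg j (Finset.mem_insert_of_mem hj)).1)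
      fun j hj => (hg j (Finset.mem_insert_of_mem hj)).2
    rw [Finset.prod_insert ha, Finset.prod_insert ha, Finset.sum_insert ha]
    have e : f a * ∏ j ∈ s, f j - g a * ∏ j ∈ s, g j =
        f a * (∏ j ∈ s, f j - ∏ j ∈ s, g j) + (f a - g a) * ∏ j ∈ s, g j := by ring
    rw [e]
    refine (abs_add_le _ _).trans ?_
    rw [abs_mul, abs_mul, abs_of_nonneg f0, abs_of_nonneg p0]
    have h2 : f a * |∏ j ∈ s, f j - ∏ j ∈ s, g j| ≤ 1 * |∏ j ∈ s, f j - ∏ j ∈ s, g j| :=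
      mul_le_mul_of_nonneg_right f1 (abs_nonneg _)
    have h3 : |f a - g a| * ∏ j ∈ s, g j ≤ |f a - g a| * 1 := mul_le_mul_of_nonneg_left p1 (abs_nonneg _)
    linarith

theorem Se1b_exp {t : ℝ} (h0 : 0 ≤ t) (h1 : t ≤ 1) : |(1 - t) - Real.exp (-t)| ≤ t ^ 2 := by
  have h2 := Real.abs_exp_sub_one_sub_id_le (x := -t) (by rw [abs_neg, abs_of_nonneg h0]; exact h1)
  have e : (1 - t) - Real.exp (-t) = -(Real.exp (-t) - 1 - -t) := by ring
  rw [e, abs_neg]
  refine h2.trans (le_of_eq ?_)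
  ring

theorem Se1b_lip {x y : ℝ} (hx : 0 ≤ x) (hy : 0 ≤ y) : |Real.exp (-x) - Real.exp (-y)| ≤ |x - y| := by
  have key : ∀ u v : ℝ, 0 ≤ u → u ≤ v → |Real.exp (-u) - Real.exp (-v)| ≤ |u - v| := by
    intro u v hu huv
    have h1 : Real.exp (-v) = Real.exp (-u) * Real.exp (-(v - u)) := by
      rw [← Real.exp_add]
      congr 1
      ring
    have h2 : Real.exp (-u) ≤ 1 := Real.exp_le_one_iff.2 (by linarith)
    have h3 := Real.add_one_le_exp (-(v - u))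
    have h4 : Real.exp (-(v - u)) ≤ 1 := Real.exp_le_one_iff.2 (by linarith)
    have h5 := (Real.exp_pos (-u)).le
    have e : Real.exp (-u) - Real.exp (-v) = Real.exp (-u) * (1 - Real.exp (-(v - u))) := by
      rw [h1]
      ring
    rw [e, abs_of_nonneg (mul_nonneg h5 (by linarith)), abs_sub_comm, abs_of_nonneg (by linarith)]
    have h6 : Real.exp (-u) * (1 - Real.exp (-(v - u))) ≤ 1 * (1 - Real.exp (-(v - u))) :=
      mul_le_mul_of_nonneg_right h2 (by linarith)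
    linarith
  rcases le_total x y with h | h
  · exact key x y hx h
  · rw [abs_sub_comm, abs_sub_comm x y]
    exact key y x hy h

/-- ROW Se1b. Let `M0 ≥ 2`, `2 Λ ≤ M0`, `(4 Λ^2 + 6 Λ) / M0 ≤ ε`. The numbers `1 - z a j` and `exp(-z a j)` are in `[0, 1]` and differ by at most
`(z a j)^2` (`Real.add_one_le_exp`, and `exp(-t) ≤ 1 - t + t^2` for `t ≥ 0`, or `Real.abs_exp_sub_one_sub_id_le`), so the products differ by at most
`∑ (z a j)^2 ≤ 4 Λ^2 / M` (induction; `∏ exp = exp ∑`, `Real.exp_sum`), and `|exp(-z S) - exp(-z μ)| ≤ z |S - μ| ≤ 6 Λ / M`, `S = ∑ a j ≥ 0`. -/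
theorem kap_u {Λ ε : ℝ} (hΛ : 0 ≤ Λ) (hε : 0 < ε) : ∃ M0 : ℕ, ∀ M : ℕ, M0 ≤ M → ∀ (a : ℕ → ℝ) (μ : ℝ), 0 ≤ μ →
    (∀ j, j + 1 < M → 0 ≤ a j ∧ a j ≤ Λ / M) → |(∑ j ∈ range (M - 1), a j) - μ| ≤ 3 * Λ / M → ∀ z : ℝ, 0 ≤ z → z ≤ 2 →
      |(∏ j ∈ range (M - 1), (1 - z * a j)) - Real.exp (-(μ * z))| ≤ ε := by
  refine ⟨max 2 (max ⌈2 * Λ⌉₊ ⌈(4 * Λ ^ 2 + 6 * Λ) / ε⌉₊), fun M hM a μ hμ ha hS z hz0 hz2 => ?_⟩
  have hM2 : 2 ≤ M := (le_max_left _ _).trans hM
  have hMa : ⌈2 * Λ⌉₊ ≤ M := ((le_max_left _ _).trans (le_max_right _ _)).trans hM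
  have hMb : ⌈(4 * Λ ^ 2 + 6 * Λ) / ε⌉₊ ≤ M := ((le_max_right _ _).trans (le_max_right _ _)).trans hM
  have hM1 : 2 * Λ ≤ M := Nat.ceil_le.1 hMa
  have hM3 : (4 * Λ ^ 2 + 6 * Λ) / ε ≤ M := Nat.ceil_le.1 hMb
  have hMp : (0 : ℝ) < M := by
    have : (2 : ℝ) ≤ M := by exact_mod_cast hM2
    linarith
  have hza : ∀ j ∈ range (M - 1), 0 ≤ z * a j ∧ z * a j ≤ 2 * Λ / M ∧ z * a j ≤ 1 := by
    intro j hj
    obtain ⟨h1, h2⟩ := ha j (by have := Finset.mem_range.1 hj; omega)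
    have h3 : z * a j ≤ 2 * (Λ / M) := mul_le_mul hz2 h2 h1 (by norm_num)
    have h4 : 2 * (Λ / M) = 2 * Λ / M := by ring
    have h5 : 2 * Λ / M ≤ 1 := (div_le_one hMp).2 hM1
    rw [h4] at h3
    exact ⟨mul_nonneg hz0 h1, h3, h3.trans h5⟩
  have h1 := Se1b_prod (range (M - 1)) (fun j => 1 - z * a j) (fun j => Real.exp (-(z * a j)))
    (fun j hj => by
      obtain ⟨b1, -, b3⟩ := hza j hj
      constructor <;> linarith)
    (fun j hj => by
      obtain ⟨b1, -, b3⟩ := hza j hj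
      exact ⟨(Real.exp_pos _).le, Real.exp_le_one_iff.2 (by linarith)⟩)
  have h2 : ∑ j ∈ range (M - 1), |(1 - z * a j) - Real.exp (-(z * a j))| ≤ 4 * Λ ^ 2 / M := by
    calc ∑ j ∈ range (M - 1), |(1 - z * a j) - Real.exp (-(z * a j))|
        ≤ ∑ _j ∈ range (M - 1), (2 * Λ / M) ^ 2 := by
          refine Finset.sum_le_sum fun j hj => ?_
          obtain ⟨b1, b2, b3⟩ := hza j hj
          exact (Se1b_exp b1 b3).trans (pow_le_pow_left₀ b1 b2 2)
      _ = ((M - 1 : ℕ) : ℝ) * (2 * Λ / M) ^ 2 := by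
          rw [Finset.sum_const, Finset.card_range, nsmul_eq_mul]
      _ ≤ (M : ℝ) * (2 * Λ / M) ^ 2 := by
          refine mul_le_mul_of_nonneg_right ?_ (sq_nonneg _)
          exact_mod_cast Nat.sub_le M 1
      _ = 4 * Λ ^ 2 / M := by
          field_simp
          ring
  have h3 : ∏ j ∈ range (M - 1), Real.exp (-(z * a j)) = Real.exp (-((∑ j ∈ range (M - 1), a j) * z)) := by
    rw [← Real.exp_sum]
    congr 1
    rw [Finset.sum_neg_distrib, Finset.sum_mul]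
    congr 1
    exact Finset.sum_congr rfl fun j _ => mul_comm _ _
  have hS0 : 0 ≤ ∑ j ∈ range (M - 1), a j :=
    Finset.sum_nonneg fun j hj => (ha j (by have := Finset.mem_range.1 hj; omega)).1
  have h4 := Se1b_lip (mul_nonneg hS0 hz0) (mul_nonneg hμ hz0)
  have h5 : |(∑ j ∈ range (M - 1), a j) * z - μ * z| ≤ 6 * Λ / M := by
    rw [← sub_mul, abs_mul, abs_of_nonneg hz0]
    calc |(∑ j ∈ range (M - 1), a j) - μ| * z ≤ (3 * Λ / M) * 2 :=
          mul_le_mul hS hz2 hz0 (div_nonneg (by linarith) hMp.le)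
      _ = 6 * Λ / M := by ring
  have h6 : 4 * Λ ^ 2 / M + 6 * Λ / M ≤ ε := by
    rw [← add_div, div_le_iff₀ hMp]
    rw [div_le_iff₀ hε] at hM3
    linarith
  rw [h3] at h1
  have h7 := abs_sub_le (∏ j ∈ range (M - 1), (1 - z * a j)) (Real.exp (-((∑ j ∈ range (M - 1), a j) * z)))
    (Real.exp (-(μ * z)))
  linarith

theorem Se1c_succ (lam : ℝ) (j : ℕ) : ((j : ℝ) + 1) * poi lam (j + 1) = lam * poi lam j := by
  unfold poi
  rw [Nat.factorial_succ]
  push_cast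
  have h1 : (0 : ℝ) < (Nat.factorial j : ℝ) := by exact_mod_cast Nat.factorial_pos j
  have h2 : (0 : ℝ) < (j : ℝ) + 1 := by positivity
  field_simp
  ring

theorem Se1c_tail {lam : ℝ} (h : 0 ≤ lam) (k : ℕ) : 1 - lam / ((k : ℝ) + 1) ≤ ∑ i ∈ range (k + 1), poi lam i := by
  have hk : (0 : ℝ) < (k : ℝ) + 1 := by positivity
  have h1 := (poi_hasSum lam).tendsto_sum_nat
  have key : ∀ n : ℕ, k + 1 ≤ n → ∑ i ∈ range n, poi lam i ≤ (∑ i ∈ range (k + 1), poi lam i) + lam / ((k : ℝ) + 1) := by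
    intro n hn
    obtain ⟨m, rfl⟩ : ∃ m, n = k + 1 + m := ⟨n - (k + 1), by omega⟩
    rw [Finset.sum_range_add]
    have h2 : ∑ x ∈ range m, poi lam (k + x) ≤ 1 := by
      have h3 := poi_sum_le h (range (k + m))
      rw [Finset.sum_range_add] at h3
      have h4 : 0 ≤ ∑ x ∈ range k, poi lam x := Finset.sum_nonneg fun x _ => poi_nonneg h x
      linarith
    have h5 : ((k : ℝ) + 1) * ∑ x ∈ range m, poi lam (k + 1 + x) ≤ lam * ∑ x ∈ range m, poi lam (k + x) := by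
      rw [Finset.mul_sum, Finset.mul_sum]
      refine Finset.sum_le_sum fun x _ => ?_
      have h6 := Se1c_succ lam (k + x)
      have h7 : k + 1 + x = k + x + 1 := by omega
      rw [h7, ← h6]
      refine mul_le_mul_of_nonneg_right ?_ (poi_nonneg h _)
      push_cast
      have : (0 : ℝ) ≤ x := Nat.cast_nonneg x
      linarith
    have h8 : ∑ x ∈ range m, poi lam (k + 1 + x) ≤ lam / ((k : ℝ) + 1) := by
      rw [le_div_iff₀ hk]
      have h9 : lam * ∑ x ∈ range m, poi lam (k + x) ≤ lam * 1 := mul_le_mul_of_nonneg_left h2 h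
      linarith
    linarith
  have h10 : (1 : ℝ) ≤ (∑ i ∈ range (k + 1), poi lam i) + lam / ((k : ℝ) + 1) := by
    refine le_of_tendsto h1 ?_
    filter_upwards [eventually_ge_atTop (k + 1)] with n hn
    exact key n hn
  linarith

/-- ROW Se1c. `tv_close_l` (file `Poi/Lo8.lean`) uniformly in `lam ≤ Λ`: there only `1 - ε / 8 < ∑ i ∈ range r0, poi lam i` depends on `lam`.
Take `r0 ≥ 1`, `r0 > 8 Λ / ε`: `i * poi lam i = lam * poi lam (i - 1)` for `i ≥ 1`, so `∑_{r0 ≤ i < N} poi lam i ≤ lam / r0` (`poi_sum_le`), and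
`poi_hasSum`. -/
theorem tv_close_u {Λ ε : ℝ} (hΛ : 0 ≤ Λ) (hε : 0 < ε) : ∃ r0 : ℕ, ∃ δ : ℝ, 0 < δ ∧ (r0 : ℝ) * δ ≤ ε ∧
    ∀ lam : ℝ, 0 ≤ lam → lam ≤ Λ → ∀ s : ℝ, 0 ≤ s → s ≤ 1 → ∀ q : ℕ → ℝ, (∀ i, 0 ≤ q i) →
      (∀ F : Finset ℕ, ∑ i ∈ F, q i ≤ s) → (∀ i < r0, |q i - s * poi lam i| ≤ δ) →
      ∀ F : Finset ℕ, ∑ i ∈ F, |q i - s * poi lam i| ≤ ε := by
  obtain ⟨k, hk⟩ : ∃ k : ℕ, 8 * Λ / ε ≤ k := ⟨⌈8 * Λ / ε⌉₊, Nat.le_ceil _⟩
  have hk1 : (0 : ℝ) < ((k + 1 : ℕ) : ℝ) + 1 := by positivity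
  refine ⟨k + 1, ε / (8 * (((k + 1 : ℕ) : ℝ) + 1)), by positivity, ?_, ?_⟩
  · rw [mul_div_assoc', div_le_iff₀ (by positivity)]
    nlinarith
  · intro lam hlam hlam2 s hs0 hs1 q hq hq1 hc F
    have hr0 : 1 - ε / 8 ≤ ∑ i ∈ range (k + 1), poi lam i := by
      have h1 := Se1c_tail hlam k
      have h2 : lam / ((k : ℝ) + 1) ≤ ε / 8 := by
        rw [div_le_iff₀ (by positivity)]
        rw [div_le_iff₀ hε] at hk
        nlinarith
      linarith
    obtain ⟨r0, hr⟩ : ∃ r0 : ℕ, r0 = k + 1 := ⟨_, rfl⟩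
    rw [← hr] at hr0 hc hk1
    have hδ : (r0 : ℝ) * (ε / (8 * (r0 + 1))) ≤ ε / 8 := by
      rw [mul_div_assoc', div_le_iff₀ (by positivity)]
      nlinarith
    have e1 : ∑ i ∈ range r0, |q i - s * poi lam i| ≤ ε / 8 := by
      have h3 : ∑ i ∈ range r0, |q i - s * poi lam i| ≤ ∑ _i ∈ range r0, ε / (8 * (r0 + 1)) :=
        Finset.sum_le_sum fun i hi => hc i (mem_range.1 hi)
      rw [Finset.sum_const, card_range, nsmul_eq_mul] at h3
      exact h3.trans hδ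
    set F2 := F.filter fun i => ¬ i < r0 with hF2
    have hdis : Disjoint (range r0) F2 := by
      rw [Finset.disjoint_left]
      intro i hi hi2
      rw [hF2, mem_filter] at hi2
      exact hi2.2 (mem_range.1 hi)
    have hsub : F ⊆ range r0 ∪ F2 := by
      intro i hi
      rw [mem_union, hF2, mem_filter, mem_range]
      by_cases h : i < r0
      · exact Or.inl h
      · exact Or.inr ⟨hi, h⟩
    have e2 : ∑ i ∈ F, |q i - s * poi lam i| ≤
        (∑ i ∈ range r0, |q i - s * poi lam i|) + ∑ i ∈ F2, |q i - s * poi lam i| := by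
      rw [← Finset.sum_union hdis]
      exact Finset.sum_le_sum_of_subset_of_nonneg hsub fun i _ _ => abs_nonneg _
    have e3 : ∑ i ∈ F2, |q i - s * poi lam i| ≤ (∑ i ∈ F2, q i) + s * ∑ i ∈ F2, poi lam i := by
      rw [Finset.mul_sum, ← Finset.sum_add_distrib]
      refine Finset.sum_le_sum fun i _ => ?_
      have := hq i
      have := mul_nonneg hs0 (poi_nonneg hlam i)
      rw [abs_le]
      constructor <;> linarith
    have e4 : (∑ i ∈ range r0, q i) + ∑ i ∈ F2, q i ≤ s := by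
      rw [← Finset.sum_union hdis]
      exact hq1 _
    have e5 : s * (∑ i ∈ range r0, poi lam i) + s * ∑ i ∈ F2, poi lam i ≤ s := by
      rw [← mul_add, ← Finset.sum_union hdis]
      calc s * ∑ i ∈ range r0 ∪ F2, poi lam i ≤ s * 1 := mul_le_mul_of_nonneg_left (poi_sum_le hlam _) hs0
        _ = s := mul_one s
    have e6 : s * (∑ i ∈ range r0, poi lam i) ≤ (∑ i ∈ range r0, q i) + ∑ i ∈ range r0, |q i - s * poi lam i| := by
      rw [Finset.mul_sum, ← Finset.sum_add_distrib]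
      refine Finset.sum_le_sum fun i _ => ?_
      have := neg_abs_le (q i - s * poi lam i)
      linarith
    have e7 : s - ε / 8 ≤ s * ∑ i ∈ range r0, poi lam i := by
      have h4 : s * (1 - ε / 8) ≤ s * ∑ i ∈ range r0, poi lam i := mul_le_mul_of_nonneg_left hr0 hs0
      have h5 : s * (ε / 8) ≤ 1 * (ε / 8) := mul_le_mul_of_nonneg_right hs1 (by positivity)
      linarith
    linarith

end Pool.Agent.Lib.MP_de5eaa_nt.Poi
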