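import Pool.Agent.Lib.MP_de5eaa_nt.Poi.Lo8

set_option autoImplicit false

namespace Pool.Agent.Lib.MP_de5eaa_nt.Poi

open Finset MeasureTheory Filter Topology
open Pool.Agent.Lib.MP_de5eaa_nt.Near (hs wq ppi)

/-- The pair sum over the blocks intersected with `D` is at most the full pair sum. -/
theorem Se2_pair {D : Finset ℕ} {A : ℕ → Finset ℕ} {k : ℕ} {ι : Type*} {U : Finset ι} {J : Set ℝ} {L : ℝ}
    {Y : ι → ℕ → ℝ} :
    ∑ j ∈ range k, ∑ n ∈ A j ∩ D, ∑ m ∈ (A j ∩ D).filter (n < ·), ∑ u ∈ U, hI J L 0 (Y u m - Y u n) ≤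
      ∑ j ∈ range k, ∑ n ∈ A j, ∑ m ∈ (A j).filter (n < ·), ∑ u ∈ U, hI J L 0 (Y u m - Y u n) := by
  have h0 : ∀ n m : ℕ, 0 ≤ ∑ u ∈ U, hI J L 0 (Y u m - Y u n) := fun n m =>
    sum_nonneg fun u _ => hI_nonneg _ _ _ _
  refine sum_le_sum fun j _ => ?_
  calc ∑ n ∈ A j ∩ D, ∑ m ∈ (A j ∩ D).filter (n < ·), ∑ u ∈ U, hI J L 0 (Y u m - Y u n)
      ≤ ∑ n ∈ A j ∩ D, ∑ m ∈ (A j).filter (n < ·), ∑ u ∈ U, hI J L 0 (Y u m - Y u n) :=
        sum_le_sum fun n _ => sum_le_sum_of_subset_of_nonneg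
          (filter_subset_filter _ inter_subset_left) fun m _ _ => h0 n m
    _ ≤ ∑ n ∈ A j, ∑ m ∈ (A j).filter (n < ·), ∑ u ∈ U, hI J L 0 (Y u m - Y u n) :=
        sum_le_sum_of_subset_of_nonneg inter_subset_left fun n _ _ => sum_nonneg fun m _ => h0 n m

/-- ROW Se2. The proof of `closeness'` (file `Poi/Lo4.lean`) with `A j` replaced by `A j ∩ D`, and `J, lam, D, α, β` quantified after the
blocks (the blocks and `C = 1 + Λ^2 + 2 Λ C0` depend only on `Λ, K, R, M, L`: `pairs_sum hT hR`). `gf_blocks'` for `fun j => A j ∩ D`: disjoint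
(subsets), `card ≤ card (A j)` (`lam ≤ Λ`); for `hlin` use `lin_inst` (a function `G` which depends only on the hits in `A i ∩ D` depends only on
the hits in `A i`); the pair sum over `A j ∩ D` is at most the one over `A j` (nonnegative terms). -/
theorem closeness_s (hT : Tendsto (fun x : ℕ => Chebyshev.theta x / (x : ℝ)) atTop (𝓝 1)) {Λ K R : ℝ} (hΛ : 0 ≤ Λ)
    (hK : 0 ≤ K) (hR : 0 ≤ R) :
    ∃ C : ℝ, 0 < C ∧ ∀ M : ℕ, 2 ≤ M → Λ ≤ M → ∀ᶠ L : ℕ in atTop,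
      ∃ (A : ℕ → Finset ℕ) (P P' : ℕ → ℕ), Blk L M A P P' ∧ ∀ (J : Set ℝ) (lam : ℝ), Nice J lam K R → lam ≤ Λ →
        ∀ D : Finset ℕ, ∀ α β : ℝ, 0 ≤ α → α ≤ β → β ≤ 1 → ∀ x y : ℝ, 0 ≤ x → x ≤ 1 → 0 ≤ y → y ≤ 1 →
        |(∑ u ∈ UU (QQ L), gfl J L ((range (M - 1)).biUnion fun j => A j ∩ D) (YY u) x α β *
            gfl J L ((range (M - 1)).biUnion fun j => A j ∩ D) (YY u) y α β) -
          (β - α) ^ 2 * (((QQ L).totient : ℝ) *
            ∏ j ∈ range (M - 1), (1 - (2 - x - y) * (((A j ∩ D).card : ℝ) * (lam / L))))| ≤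
          ((QQ L).totient : ℝ) * (C / M) := by
  obtain ⟨C0, hC0, hps⟩ := pairs_sum hT hR
  refine ⟨1 + Λ ^ 2 + 2 * Λ * C0, by positivity, fun M hM hlM => ?_⟩
  have hMR : (2 : ℝ) ≤ M := by exact_mod_cast hM
  have hM0 : (0 : ℝ) < M := by linarith
  filter_upwards [blk_exists hT hM, hps M hM, eventually_gt_atTop ⌈2 * R⌉₊,
    eventually_gt_atTop (4 * M ^ 2), eventually_ge_atTop ⌈32 * K * (M : ℝ) ^ 3⌉₊] with L hB hpair hLR hL4 hLK
  obtain ⟨A, P, P', hB⟩ := hB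
  refine ⟨A, P, P', hB, fun J lam hJ hlamΛ D α β hα hαβ hβ x y hx0 hx1 hy0 hy1 => ?_⟩
  have hlam := hJ.lam0
  have hLR' : 2 * R < (L : ℝ) := (Nat.le_ceil _).trans_lt (by exact_mod_cast hLR)
  have hLK' : 32 * K * (M : ℝ) ^ 3 ≤ (L : ℝ) := (Nat.le_ceil _).trans (by exact_mod_cast hLK)
  have hL4' : 4 * (M : ℝ) ^ 2 < (L : ℝ) := by exact_mod_cast hL4
  have hL0 : (0 : ℝ) < L := lt_of_le_of_lt (by positivity) hL4'
  have hφ0 : (0 : ℝ) ≤ ((QQ L).totient : ℝ) := Nat.cast_nonneg _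
  -- `N0 = L / M`
  obtain ⟨N0, hN0⟩ : ∃ N0 : ℕ, N0 = L / M := ⟨_, rfl⟩
  have hML : M ≤ L := by nlinarith
  have hN1 : 1 ≤ N0 := by
    rw [hN0]
    exact (Nat.one_le_div_iff (by omega)).2 hML
  have hN2 : (L : ℝ) / (2 * M) ≤ N0 := by
    have h1 : L < (N0 + 1) * M := by
      rw [hN0]
      exact Nat.lt_mul_of_div_lt (Nat.lt_succ_self _) (by omega)
    have h2 : (L : ℝ) < (N0 + 1) * M := by exact_mod_cast h1
    have h3 : (1 : ℝ) ≤ N0 := by exact_mod_cast hN1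
    rw [div_le_iff₀ (by positivity)]
    nlinarith
  have hN0pos : (0 : ℝ) < N0 := by
    have : 0 < N0 := hN1
    exact_mod_cast this
  have hN3 : (L : ℝ) ^ 2 ≤ 4 * (M : ℝ) ^ 2 * (N0 : ℝ) ^ 2 := by
    have h1 : (L : ℝ) ≤ 2 * M * N0 := by
      rw [div_le_iff₀ (by positivity)] at hN2
      linarith
    calc (L : ℝ) ^ 2 ≤ (2 * M * N0) ^ 2 := pow_le_pow_left₀ hL0.le h1 2
      _ = 4 * (M : ℝ) ^ 2 * (N0 : ℝ) ^ 2 := by ring
  have hLN : L < (L / M) ^ 2 := by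
    rw [← hN0]
    have h1 : 4 * (M : ℝ) ^ 2 * L < 4 * (M : ℝ) ^ 2 * (N0 : ℝ) ^ 2 := by
      calc 4 * (M : ℝ) ^ 2 * L < L * L := mul_lt_mul_of_pos_right hL4' hL0
        _ = (L : ℝ) ^ 2 := by ring
        _ ≤ _ := hN3
    have h2 : (L : ℝ) < (N0 : ℝ) ^ 2 := lt_of_mul_lt_mul_left h1 (by positivity)
    exact_mod_cast h2
  have hAD : ∀ j < M - 1, ((A j ∩ D).card : ℝ) ≤ (L : ℝ) / M := by
    intro j hj
    have h1 := blk_card_le hB (show j + 1 < M by omega)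
    have h2 : ((A j ∩ D).card : ℝ) ≤ ((A j).card : ℝ) := by
      exact_mod_cast Finset.card_le_card (inter_subset_left : A j ∩ D ⊆ A j)
    exact h2.trans h1
  have hA1 : ∀ j < M - 1, ((A j ∩ D).card : ℝ) * (lam / L) ≤ Λ / M := by
    intro j hj
    calc ((A j ∩ D).card : ℝ) * (lam / L) ≤ (L : ℝ) / M * (Λ / L) :=
          mul_le_mul (hAD j hj) (div_le_div_of_nonneg_right hlamΛ hL0.le) (by positivity) (by positivity)
      _ = Λ / M := by field_simp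
  have hlM1 : Λ / M ≤ 1 := by
    rw [div_le_one hM0]
    exact hlM
  have hcard : (UU (QQ L)).card = (QQ L).totient := rfl
  have main := gf_blocks' (UU (QQ L)) (M - 1) (fun j => A j ∩ D)
    (fun i hi j hj hij => (blk_disj hB i hi j hj hij).mono inter_subset_left inter_subset_left)
    YY hJ hLR' hx0 hx1 hy0 hy1
    (fun j hj => (hA1 j hj).trans hlM1)
    (D := ((QQ L).totient : ℝ) * (4 * K / (((L / M : ℕ) : ℝ)) ^ 2))
    (fun j hj n hn t G hG0 hG1 hG =>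
      lin_inst hB hM hLN hJ hLR' (show j + 1 < M by omega) (mem_of_mem_inter_left hn) t G hG0 hG1
        (fun u v huv => hG u v fun i hi n' hn' t' => huv i hi n' (mem_of_mem_inter_left hn') t')) hα hαβ hβ
  rw [hcard] at main
  refine main.trans ?_
  -- the first error
  have hsum : ∑ j ∈ range (M - 1), ((A j ∩ D).card : ℝ) ≤ L := by
    calc ∑ j ∈ range (M - 1), ((A j ∩ D).card : ℝ) ≤ ∑ _j ∈ range (M - 1), (L : ℝ) / M :=
          sum_le_sum fun j hj => hAD j (mem_range.1 hj)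
      _ = ((M - 1 : ℕ) : ℝ) * (L / M) := by rw [sum_const, card_range, nsmul_eq_mul]
      _ ≤ (M : ℝ) * (L / M) := by
          refine mul_le_mul_of_nonneg_right ?_ (by positivity)
          exact_mod_cast Nat.sub_le M 1
      _ = L := by field_simp
  have e1 : 2 * (((QQ L).totient : ℝ) * (4 * K / (((L / M : ℕ) : ℝ)) ^ 2)) *
      (∑ j ∈ range (M - 1), ((A j ∩ D).card : ℝ)) ≤ ((QQ L).totient : ℝ) * (1 / M) := by
    have h1 : 8 * K * L / (N0 : ℝ) ^ 2 ≤ 1 / M := by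
      rw [div_le_div_iff₀ (by positivity) hM0]
      have h2 : 32 * K * (M : ℝ) ^ 3 * L ≤ (L : ℝ) * L := mul_le_mul_of_nonneg_right hLK' hL0.le
      have h3 : 4 * (M : ℝ) ^ 2 * (8 * K * L * M) ≤ 4 * (M : ℝ) ^ 2 * (1 * (N0 : ℝ) ^ 2) := by
        calc 4 * (M : ℝ) ^ 2 * (8 * K * L * M) = 32 * K * (M : ℝ) ^ 3 * L := by ring
          _ ≤ (L : ℝ) * L := h2
          _ = (L : ℝ) ^ 2 := by ring
          _ ≤ 4 * (M : ℝ) ^ 2 * (1 * (N0 : ℝ) ^ 2) := by rw [one_mul]; exact hN3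
      exact le_of_mul_le_mul_left h3 (by positivity)
    rw [← hN0]
    calc 2 * (((QQ L).totient : ℝ) * (4 * K / (N0 : ℝ) ^ 2)) *
        (∑ j ∈ range (M - 1), ((A j ∩ D).card : ℝ)) ≤
        2 * (((QQ L).totient : ℝ) * (4 * K / (N0 : ℝ) ^ 2)) * L :=
          mul_le_mul_of_nonneg_left hsum (by positivity)
      _ = ((QQ L).totient : ℝ) * (8 * K * L / (N0 : ℝ) ^ 2) := by ring
      _ ≤ ((QQ L).totient : ℝ) * (1 / M) := mul_le_mul_of_nonneg_left h1 hφ0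
  -- the second error
  have e2 : ((QQ L).totient : ℝ) * (∑ j ∈ range (M - 1), (((A j ∩ D).card : ℝ) * (lam / L)) ^ 2) ≤
      ((QQ L).totient : ℝ) * (Λ ^ 2 / M) := by
    refine mul_le_mul_of_nonneg_left ?_ hφ0
    calc ∑ j ∈ range (M - 1), (((A j ∩ D).card : ℝ) * (lam / L)) ^ 2 ≤
        ∑ _j ∈ range (M - 1), (Λ / M) ^ 2 :=
          sum_le_sum fun j hj => pow_le_pow_left₀ (by positivity) (hA1 j (mem_range.1 hj)) 2
      _ = ((M - 1 : ℕ) : ℝ) * (Λ / M) ^ 2 := by rw [sum_const, card_range, nsmul_eq_mul]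
      _ ≤ (M : ℝ) * (Λ / M) ^ 2 := by
          refine mul_le_mul_of_nonneg_right ?_ (by positivity)
          exact_mod_cast Nat.sub_le M 1
      _ = Λ ^ 2 / M := by field_simp
  -- the third error
  have hpairD := Se2_pair (D := D) (A := A) (k := M - 1) (U := UU (QQ L)) (J := Set.Icc (-(2 * R)) (2 * R)) (L := (L : ℝ)) (Y := YY)
  have e3 : 2 * (lam / L) * (∑ j ∈ range (M - 1), ∑ n ∈ A j ∩ D, ∑ m ∈ (A j ∩ D).filter (n < ·),
      ∑ u ∈ UU (QQ L), hI (Set.Icc (-(2 * R)) (2 * R)) L 0 (YY u m - YY u n)) ≤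
      ((QQ L).totient : ℝ) * (2 * Λ * C0 / M) := by
    have h1 := hpairD.trans ((pair_inst hB hM R).trans (mul_le_mul_of_nonneg_left hpair hφ0))
    have h2 : 2 * (lam / L) ≤ 2 * (Λ / L) :=
      mul_le_mul_of_nonneg_left (div_le_div_of_nonneg_right hlamΛ hL0.le) (by norm_num)
    have h3 : (0 : ℝ) ≤ ((QQ L).totient : ℝ) * (C0 * L / M) := by positivity
    calc 2 * (lam / L) * (∑ j ∈ range (M - 1), ∑ n ∈ A j ∩ D, ∑ m ∈ (A j ∩ D).filter (n < ·),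
          ∑ u ∈ UU (QQ L), hI (Set.Icc (-(2 * R)) (2 * R)) L 0 (YY u m - YY u n)) ≤
        2 * (lam / L) * (((QQ L).totient : ℝ) * (C0 * L / M)) :=
          mul_le_mul_of_nonneg_left h1 (by positivity)
      _ ≤ 2 * (Λ / L) * (((QQ L).totient : ℝ) * (C0 * L / M)) := mul_le_mul_of_nonneg_right h2 h3
      _ = ((QQ L).totient : ℝ) * (2 * Λ * C0 / M) := by field_simp
  calc _ ≤ ((QQ L).totient : ℝ) * (1 / M) + ((QQ L).totient : ℝ) * (Λ ^ 2 / M) +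
        ((QQ L).totient : ℝ) * (2 * Λ * C0 / M) := add_le_add (add_le_add e1 e2) e3
    _ = ((QQ L).totient : ℝ) * ((1 + Λ ^ 2 + 2 * Λ * C0) / M) := by ring

end Pool.Agent.Lib.MP_de5eaa_nt.Poi
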