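import Pool.Agent.Lib.MP_de5eaa_nt.Poi.Se1
import Pool.Agent.Lib.MP_de5eaa_nt.Poi.Se2

set_option autoImplicit false

namespace Pool.Agent.Lib.MP_de5eaa_nt.Poi

open Finset MeasureTheory Filter Topology
open Pool.Agent.Lib.MP_de5eaa_nt.Near (hs wq ppi)

/-- ROW Se3. The proof of `theoremA'` (file `Poi/Lo4.lean`) with `closeness_s` and `kap_u` (with `ε / 4`, `a j = |A j ∩ D| (lam / L)`,
`μ = lam |D| / L`). The union of the `A j ∩ D` is contained in `D`, and `|D|` minus its cardinality is at most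
`|Icc 1 L|` minus the cardinality of the union of the `A j`, so at most `3 L / M` (`blk_card_union`, `blk_sub`; `D` minus the union is contained in
`Icc 1 L` minus the union of the `A j`); `gfl_diff`. The sum of the `a j` is `(lam / L)` times the cardinality of the union (disjoint). -/
theorem theoremA_s (hT : Tendsto (fun x : ℕ => Chebyshev.theta x / (x : ℝ)) atTop (𝓝 1)) {Λ K R : ℝ} (hΛ : 0 ≤ Λ)
    (hK : 0 ≤ K) (hR : 0 ≤ R) {ε : ℝ} (hε : 0 < ε) :
    ∀ᶠ L : ℕ in atTop, ∀ (J : Set ℝ) (lam : ℝ), Nice J lam K R → lam ≤ Λ → ∀ D : Finset ℕ, D ⊆ Icc 1 L →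
      ∀ α β : ℝ, 0 ≤ α → α ≤ β → β ≤ 1 → ∀ x y : ℝ, 0 ≤ x → x ≤ 1 → 0 ≤ y → y ≤ 1 →
      |(∑ u ∈ UU (QQ L), gfl J L D (YY u) x α β * gfl J L D (YY u) y α β) / ((QQ L).totient : ℝ) -
        (β - α) ^ 2 * Real.exp (-(lam * D.card / L * (2 - x - y)))| ≤ ε := by
  obtain ⟨C, hC, hcl⟩ := closeness_s hT hΛ hK hR
  obtain ⟨M0, hM0⟩ := kap_u hΛ (show 0 < ε / 4 by positivity)
  obtain ⟨M, hM⟩ : ∃ M : ℕ, 2 ≤ M ∧ M0 ≤ M ∧ Λ ≤ M ∧ 4 * C / ε ≤ M ∧ 24 * Λ / ε ≤ M := by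
    refine ⟨2 + M0 + ⌈Λ⌉₊ + ⌈4 * C / ε⌉₊ + ⌈24 * Λ / ε⌉₊, by omega, by omega, ?_, ?_, ?_⟩
    · refine (Nat.le_ceil Λ).trans ?_
      exact_mod_cast (by omega : ⌈Λ⌉₊ ≤ 2 + M0 + ⌈Λ⌉₊ + ⌈4 * C / ε⌉₊ + ⌈24 * Λ / ε⌉₊)
    · refine (Nat.le_ceil (4 * C / ε)).trans ?_
      exact_mod_cast (by omega : ⌈4 * C / ε⌉₊ ≤ 2 + M0 + ⌈Λ⌉₊ + ⌈4 * C / ε⌉₊ + ⌈24 * Λ / ε⌉₊)
    · refine (Nat.le_ceil (24 * Λ / ε)).trans ?_
      exact_mod_cast (by omega : ⌈24 * Λ / ε⌉₊ ≤ 2 + M0 + ⌈Λ⌉₊ + ⌈4 * C / ε⌉₊ + ⌈24 * Λ / ε⌉₊)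
  obtain ⟨hM2, hMM0, hMlam, hMC, hMl⟩ := hM
  have hMpos : (0 : ℝ) < M := by exact_mod_cast (by omega : 0 < M)
  have hCM : C / M ≤ ε / 4 := by
    rw [div_le_iff₀ hε] at hMC
    rw [div_le_iff₀ hMpos]
    linarith
  have hlM : 6 * Λ / M ≤ ε / 4 := by
    rw [div_le_iff₀ hε] at hMl
    rw [div_le_iff₀ hMpos]
    linarith
  filter_upwards [hcl M hM2 hMlam, eventually_ge_atTop (M ^ 2), eventually_gt_atTop ⌈2 * R⌉₊] with L hL hLM hLR
  obtain ⟨A, P, P', hB, hA⟩ := hL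
  intro J lam hJ hlam' D hD α β hα hαβ hβ x y hx0 hx1 hy0 hy1
  have hlam := hJ.lam0
  have hd0 : 0 ≤ β - α := by linarith
  have hd1 : β - α ≤ 1 := by linarith
  have hd2 : (β - α) ^ 2 ≤ 1 := pow_le_one₀ hd0 hd1
  have hLpos : (0 : ℝ) < L := by
    have : 0 < L := lt_of_lt_of_le (by positivity) hLM
    exact_mod_cast this
  have h2R : 2 * R < L := by
    refine (Nat.le_ceil (2 * R)).trans_lt ?_
    exact_mod_cast hLR
  have hφ0 : (0 : ℝ) < ((QQ L).totient : ℝ) := by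
    exact_mod_cast Nat.totient_pos.2 (QQ_pos L)
  have hsub := blk_sub hB hM2
  have hcu := blk_card_union hB hM2 hLM
  have hIc : ((Icc 1 L).card : ℝ) = L := by
    rw [Nat.card_Icc]
    norm_num
  have hlL : (0 : ℝ) ≤ lam / L := by positivity
  have hbi : ((range (M - 1)).biUnion fun j => A j ∩ D) = (range (M - 1)).biUnion A ∩ D :=
    (Finset.biUnion_inter _ _ _).symm
  have hsubD : ((range (M - 1)).biUnion fun j => A j ∩ D) ⊆ D := by
    rw [hbi]
    exact inter_subset_right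
  -- the cardinality of `D` outside the blocks
  have hcD : (D.card : ℝ) - (((range (M - 1)).biUnion fun j => A j ∩ D).card : ℝ) ≤ 3 * L / M := by
    have h1 : (D \ (range (M - 1)).biUnion A).card ≤ (Icc 1 L \ (range (M - 1)).biUnion A).card :=
      card_le_card (sdiff_subset_sdiff hD le_rfl)
    have h2 : (Icc 1 L \ (range (M - 1)).biUnion A).card + ((range (M - 1)).biUnion A).card = (Icc 1 L).card :=
      card_sdiff_add_card_eq_card hsub
    have h3 : (D ∩ (range (M - 1)).biUnion A).card + (D \ (range (M - 1)).biUnion A).card = D.card :=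
      card_inter_add_card_sdiff _ _
    have h4 : (((range (M - 1)).biUnion fun j => A j ∩ D).card : ℕ) = (D ∩ (range (M - 1)).biUnion A).card := by
      rw [hbi, inter_comm]
    rw [h4]
    have h1' : ((D \ (range (M - 1)).biUnion A).card : ℝ) ≤ ((Icc 1 L \ (range (M - 1)).biUnion A).card : ℝ) := by
      exact_mod_cast h1
    have h2' : ((Icc 1 L \ (range (M - 1)).biUnion A).card : ℝ) + (((range (M - 1)).biUnion A).card : ℝ) = L := by
      rw [← hIc]
      exact_mod_cast h2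
    have h3' : ((D ∩ (range (M - 1)).biUnion A).card : ℝ) + ((D \ (range (M - 1)).biUnion A).card : ℝ) = D.card := by
      exact_mod_cast h3
    linarith
  have hcD0 : (((range (M - 1)).biUnion fun j => A j ∩ D).card : ℝ) ≤ D.card := by
    exact_mod_cast card_le_card hsubD
  have hδ : ∀ (u : ℕ) {w : ℝ}, 0 ≤ w → w ≤ 1 →
      |gfl J L D (YY u) w α β - gfl J L ((range (M - 1)).biUnion fun j => A j ∩ D) (YY u) w α β| ≤
        3 * lam / M := by
    intro u w hw0 hw1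
    refine (gfl_diff hJ h2R hsubD (YY u) hw0 hw1 hα hαβ hβ).trans ?_
    refine (mul_le_mul_of_nonneg_right hcD hlL).trans (le_of_eq ?_)
    field_simp
  have hsum : ∑ j ∈ range (M - 1), (((A j ∩ D).card : ℝ) * (lam / L)) =
      (((range (M - 1)).biUnion fun j => A j ∩ D).card : ℝ) * (lam / L) := by
    rw [← sum_mul]
    congr 1
    rw [Finset.card_biUnion (fun i hi j hj hij =>
      (blk_disj hB i (mem_range.mp hi) j (mem_range.mp hj) hij).mono inter_subset_left inter_subset_left),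
      Nat.cast_sum]
  have hpr := hM0 M hMM0 (fun j => ((A j ∩ D).card : ℝ) * (lam / L)) (lam * D.card / L) (by positivity)
    (fun j hj => by
      refine ⟨by positivity, ?_⟩
      have h1 := blk_card_le hB hj
      have h2 : ((A j ∩ D).card : ℝ) ≤ (A j).card := by exact_mod_cast card_le_card inter_subset_left
      calc ((A j ∩ D).card : ℝ) * (lam / L) ≤ (L : ℝ) / M * (lam / L) :=
            mul_le_mul_of_nonneg_right (h2.trans h1) hlL
        _ = lam / M := by field_simp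
        _ ≤ Λ / M := by gcongr)
    (by
      rw [hsum]
      have e1 : lam * D.card / L = (D.card : ℝ) * (lam / L) := by ring
      rw [e1, ← sub_mul, abs_mul, abs_of_nonneg hlL, abs_sub_comm, abs_of_nonneg (by linarith)]
      calc ((D.card : ℝ) - (((range (M - 1)).biUnion fun j => A j ∩ D).card : ℝ)) * (lam / L) ≤
            3 * L / M * (lam / L) := mul_le_mul_of_nonneg_right hcD hlL
        _ = 3 * lam / M := by field_simp
        _ ≤ 3 * Λ / M := by gcongr) (2 - x - y) (by linarith) (by linarith)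
  have hpr' : |(β - α) ^ 2 * ∏ j ∈ range (M - 1), (1 - (2 - x - y) * (((A j ∩ D).card : ℝ) * (lam / L))) -
      (β - α) ^ 2 * Real.exp (-(lam * D.card / L * (2 - x - y)))| ≤ ε / 4 := by
    rw [← mul_sub, abs_mul, abs_of_nonneg (sq_nonneg (β - α))]
    refine (mul_le_mul_of_nonneg_right hd2 (abs_nonneg _)).trans ?_
    rw [one_mul]
    exact hpr
  have hA' := hA J lam hJ hlam' D α β hα hαβ hβ x y hx0 hx1 hy0 hy1
  rw [mul_left_comm ((β - α) ^ 2) (((QQ L).totient : ℝ))] at hA'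
  refine I7_step (T := C / M) (by rw [card_UU]) hφ0 _
    (fun u => gfl J L ((range (M - 1)).biUnion fun j => A j ∩ D) (YY u) x α β) _
    (fun u => gfl J L ((range (M - 1)).biUnion fun j => A j ∩ D) (YY u) y α β) (3 * lam / M) _ _ ε
    (fun u _ => hδ u hx0 hx1) (fun u _ => hδ u hy0 hy1)
    (fun u _ => ⟨gfl_nonneg _ _ _ hx0 hαβ, (gfl_le hJ.meas _ _ _ hx0 hx1 hαβ).trans hd1⟩)
    (fun u _ => ⟨gfl_nonneg _ _ _ hy0 hαβ, (gfl_le hJ.meas _ _ _ hy0 hy1 hαβ).trans hd1⟩) ?_ hA' hCM hpr' hε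
  calc 2 * (3 * lam / M) = 6 * lam / M := by ring
    _ ≤ 6 * Λ / M := by gcongr
    _ ≤ ε / 4 := hlM

end Pool.Agent.Lib.MP_de5eaa_nt.Poi
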