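import Pool.Agent.Lib.MP_de5eaa_nt.Poi.Se3

set_option autoImplicit false

namespace Pool.Agent.Lib.MP_de5eaa_nt.Poi

open Finset MeasureTheory Filter Topology
open Pool.Agent.Lib.MP_de5eaa_nt.Near (hs wq ppi)

open Classical in
/-- ROW Se4. The proof of `finite_poisson'` (file `Poi/Lo5.lean`) with `theoremA_s` and `inversion_u` (`N = D.card`, mean `lam |D| / L`, which is
nonnegative). There `h = β - α`; now `h ≤ β - α ≤ 1`: use `ε' = min (δ h) ...` and `ε'^3 / 3 * h`, and divide by `β - α ≥ h`. (`1 ≤ L` may be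
added to the eventual conditions.) -/
theorem finite_poisson_s (hT : Tendsto (fun x : ℕ => Chebyshev.theta x / (x : ℝ)) atTop (𝓝 1)) {Λ K R : ℝ} (hΛ : 0 ≤ Λ)
    (hK : 0 ≤ K) (hR : 0 ≤ R) (r : ℕ) {h : ℝ} (hh : 0 < h) {ε : ℝ} (hε : 0 < ε) :
    ∀ᶠ L : ℕ in atTop, ∀ (J : Set ℝ) (lam : ℝ), Nice J lam K R → lam ≤ Λ → ∀ D : Finset ℕ, D ⊆ Icc 1 L →
      ∀ α β : ℝ, 0 ≤ α → h ≤ β - α → β ≤ 1 →
      (((UU (QQ L)).filter fun u => ε < |pvl J L D (YY u) r α β - (β - α) * poi (lam * D.card / L) r|).card : ℝ) ≤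
        ε * ((QQ L).totient : ℝ) := by
  obtain ⟨X, hX, δ, hδ, hinv⟩ := inversion_u r hε
  set ε' : ℝ := min (δ * h) (ε / ((X.card : ℝ) + 1)) with hε'
  have hX1 : (0 : ℝ) < (X.card : ℝ) + 1 := by positivity
  have hδh : 0 < δ * h := mul_pos hδ hh
  have hε'0 : 0 < ε' := lt_min hδh (div_pos hε hX1)
  have hε'ε : (X.card : ℝ) * ε' ≤ ε := by
    have h1 : ε' ≤ ε / ((X.card : ℝ) + 1) := min_le_right _ _
    have h2 : ε' * ((X.card : ℝ) + 1) ≤ ε := (le_div_iff₀ hX1).1 h1
    nlinarith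
  have hδ' : 0 < ε' ^ 3 / 3 := by positivity
  have hδ'' : 0 < ε' ^ 3 / 3 * h := mul_pos hδ' hh
  filter_upwards [theoremA_s hT hΛ hK hR hδ''] with L hL0
  intro J lam hJ hlam D hD α β hα hhb hβ
  obtain ⟨b, hb⟩ : ∃ b : ℝ, b = β - α := ⟨_, rfl⟩
  rw [← hb] at hhb
  have hb0 : 0 < b := lt_of_lt_of_le hh hhb
  have hb1 : b ≤ 1 := by
    rw [hb]
    linarith
  have hαβ : α ≤ β := by linarith
  have hL := hL0 J lam hJ hlam D hD α β hα hαβ hβ
  obtain ⟨μ, hμ⟩ : ∃ μ : ℝ, μ = lam * D.card / L := ⟨_, rfl⟩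
  rw [← hμ] at hL ⊢
  have hμ0 : 0 ≤ μ := by
    rw [hμ]
    exact div_nonneg (mul_nonneg hJ.lam0 (Nat.cast_nonneg _)) (Nat.cast_nonneg _)
  have hε'δ : ε' ≤ δ * b := (min_le_left _ _).trans (mul_le_mul_of_nonneg_left hhb hδ.le)
  have hδb : ε' ^ 3 / 3 * h ≤ ε' ^ 3 / 3 * b := mul_le_mul_of_nonneg_left hhb hδ'.le
  have hδ1 : ε' ^ 3 / 3 * h ≤ ε' ^ 3 / 3 := by nlinarith
  have hcard : ((UU (QQ L)).card : ℝ) = ((QQ L).totient : ℝ) := by rw [card_UU]
  set B : ℝ → Finset ℕ := fun x => (UU (QQ L)).filter fun u =>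
    ε' < |gfl J L D (YY u) x α β - b * Real.exp (-(μ * (1 - x)))| with hB
  have hBx : ∀ x ∈ X, ((B x).card : ℝ) ≤ ε' * ((QQ L).totient : ℝ) := by
    intro x hx
    obtain ⟨hx0, hx1⟩ := hX x hx
    have he1 : Real.exp (-(μ * (1 - x))) ≤ 1 := by
      rw [Real.exp_le_one_iff]
      have : 0 ≤ μ * (1 - x) := mul_nonneg hμ0 (by linarith)
      linarith
    have he0 : 0 ≤ Real.exp (-(μ * (1 - x))) := Real.exp_nonneg _
    have h2 := hL x x hx0 hx1 hx0 hx1
    have h1 := hL x 1 hx0 hx1 zero_le_one le_rfl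
    have e2 : (β - α) ^ 2 * Real.exp (-(μ * (2 - x - x))) = (b * Real.exp (-(μ * (1 - x)))) ^ 2 := by
      rw [mul_pow, ← Real.exp_nat_mul, hb]
      congr 2
      push_cast
      ring
    have e1 : Real.exp (-(μ * (2 - x - 1))) = Real.exp (-(μ * (1 - x))) := by
      congr 1
      ring
    rw [e2] at h2
    rw [e1] at h1
    simp only [gfl_one] at h1
    rw [← hb, ← Finset.sum_mul] at h1
    have h1' : |(∑ u ∈ UU (QQ L), gfl J L D (YY u) x α β) / ((QQ L).totient : ℝ) -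
        b * Real.exp (-(μ * (1 - x)))| ≤ ε' ^ 3 / 3 := by
      have e3 : (∑ u ∈ UU (QQ L), gfl J L D (YY u) x α β) * b / ((QQ L).totient : ℝ) -
          b ^ 2 * Real.exp (-(μ * (1 - x))) =
          ((∑ u ∈ UU (QQ L), gfl J L D (YY u) x α β) / ((QQ L).totient : ℝ) -
            b * Real.exp (-(μ * (1 - x)))) * b := by ring
      rw [e3, abs_mul, abs_of_pos hb0] at h1
      exact le_of_mul_le_mul_right (h1.trans hδb) hb0
    have h3 := cheb_var (UU (QQ L)) (fun u => gfl J L D (YY u) x α β)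
      (e := b * Real.exp (-(μ * (1 - x)))) (mul_nonneg hb0.le he0) (by nlinarith) hε'0
      (δ := ε' ^ 3 / 3) (by linarith)
      (by
        rw [hcard]
        refine le_trans ?_ hδ1
        simpa only [pow_two] using h2)
      (by
        rw [hcard]
        exact h1')
    rw [hcard] at h3
    exact h3
  have hsub : ((UU (QQ L)).filter fun u => ε < |pvl J L D (YY u) r α β - (β - α) * poi μ r|) ⊆ X.biUnion B := by
    intro u hu
    obtain ⟨huU, hu'⟩ := Finset.mem_filter.1 hu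
    by_contra hcon
    rw [Finset.mem_biUnion] at hcon
    push Not at hcon
    have hq := hinv μ hμ0 D.card (fun i => pvl J L D (YY u) i α β / b)
      (fun i => div_nonneg (pvl_nonneg _ _ _ _ i α β) hb0.le)
      (fun i => (div_le_one hb0).2 (by
        rw [hb]
        exact pvl_le _ _ _ _ i hαβ))
      (fun i hi => by
        show pvl J L D (YY u) i α β / b = 0
        rw [pvl_zero J (L : ℝ) D (YY u) (r := i) hi α β, zero_div]) ?_
    · refine absurd ?_ (not_le.2 hu')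
      have e4 : pvl J L D (YY u) r α β - (β - α) * poi μ r =
          (pvl J L D (YY u) r α β / b - poi μ r) * b := by
        rw [← hb, sub_mul, div_mul_cancel₀ _ hb0.ne']
        ring
      rw [e4, abs_mul, abs_of_pos hb0]
      calc |pvl J L D (YY u) r α β / b - poi μ r| * b ≤ ε * b :=
            mul_le_mul_of_nonneg_right hq hb0.le
        _ ≤ ε * 1 := mul_le_mul_of_nonneg_left hb1 hε.le
        _ = ε := mul_one ε
    · intro x hx
      have h1 := hcon x hx
      rw [hB, Finset.mem_filter, not_and, not_lt] at h1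
      have h2 := gfl_eq hJ.meas (L : ℝ) D (YY u) x hαβ
      have h3 := (h1 huU).trans hε'δ
      have e5 : (∑ i ∈ range (D.card + 1), pvl J L D (YY u) i α β / b * x ^ i) =
          gfl J L D (YY u) x α β / b := by
        rw [h2, Finset.sum_div]
        refine Finset.sum_congr rfl fun i _ => ?_
        ring
      rw [e5]
      have e6 : gfl J L D (YY u) x α β - b * Real.exp (-(μ * (1 - x))) =
          (gfl J L D (YY u) x α β / b - Real.exp (-(μ * (1 - x)))) * b := by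
        rw [sub_mul, div_mul_cancel₀ _ hb0.ne']
        ring
      rw [e6, abs_mul, abs_of_pos hb0] at h3
      exact le_of_mul_le_mul_right h3 hb0
  calc (((UU (QQ L)).filter fun u => ε < |pvl J L D (YY u) r α β - (β - α) * poi μ r|).card : ℝ)
      ≤ ((X.biUnion B).card : ℝ) := by exact_mod_cast Finset.card_le_card hsub
    _ ≤ ∑ x ∈ X, ((B x).card : ℝ) := by
        have h1 : (X.biUnion B).card ≤ ∑ x ∈ X, (B x).card := Finset.card_biUnion_le
        exact_mod_cast h1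
    _ ≤ ∑ x ∈ X, ε' * ((QQ L).totient : ℝ) := Finset.sum_le_sum hBx
    _ = (X.card : ℝ) * ε' * ((QQ L).totient : ℝ) := by
        rw [Finset.sum_const, nsmul_eq_mul]
        ring
    _ ≤ ε * ((QQ L).totient : ℝ) := mul_le_mul_of_nonneg_right hε'ε (Nat.cast_nonneg _)

end Pool.Agent.Lib.MP_de5eaa_nt.Poi
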