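import Pool.Agent.Lib.MP_de5eaa_nt.Poi.Se5

set_option autoImplicit false

namespace Pool.Agent.Lib.MP_de5eaa_nt.Poi

open Finset MeasureTheory Filter Topology
open Pool.Agent.Lib.MP_de5eaa_nt.Near (hs wq ppi)

open Classical in
/-- ROW Se6. The proof of `main_all_l` (file `Poi/Lo8.lean`) with `tv_close_u`, `main_s` (`0 ≤ lam * D.card / L ≤ lam ≤ Λ` as `D.card ≤ L`),
`arcs_of_unit`. -/
theorem main_all_s {Λ K R : ℝ} (hΛ : 0 ≤ Λ) (hK : 0 ≤ K) (hR : 0 ≤ R) {δ : ℝ} (hδ : 0 < δ) {ε : ℝ} (hε : 0 < ε) :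
    ∃ L0 : ℕ, ∀ L x : ℕ, L0 ≤ L → (L : ℝ) ≤ (1 - δ) * Real.log x → ∀ (J : Set ℝ) (lam : ℝ), Nice J lam K R →
      lam ≤ Λ → ∀ D : Finset ℕ, D ⊆ Icc 1 L →
      (((range (x + 1)).filter fun p => p.Prime ∧ ∃ α β : ℝ, α ≤ β ∧ β ≤ α + 1 ∧ ∃ F : Finset ℕ,
        ε < ∑ r ∈ F, |pvl J L D (fun n => (wq n p : ℝ) / p) r α β - (β - α) * poi (lam * D.card / L) r|).card : ℝ) ≤
      ε * ppi x := by
  -- we may suppose `δ < 1`
  set δ' := min δ (1 / 2) with hδ'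
  have hδ'0 : 0 < δ' := lt_min hδ (by norm_num)
  have hδ'1 : δ' < 1 := lt_of_le_of_lt (min_le_right _ _) (by norm_num)
  obtain ⟨r0, η, hη, hr0, hclose⟩ := tv_close_u hΛ (half_pos hε)
  have h1 := fun r : ℕ => main_s hΛ hK hR hδ'0 hδ'1 r hη
  choose L1 hL1 using h1
  refine ⟨(range r0).sup L1, fun L x hL hLx J lam hJ hlam D hD => ?_⟩
  have hLx' : (L : ℝ) ≤ (1 - δ') * Real.log x := by
    refine hLx.trans (mul_le_mul_of_nonneg_right ?_ (Real.log_natCast_nonneg x))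
    have : δ' ≤ δ := min_le_left _ _
    linarith
  have hcard : (D.card : ℝ) ≤ (L : ℝ) := by
    have h := Finset.card_le_card hD
    rw [Nat.card_Icc, Nat.add_sub_cancel] at h
    exact_mod_cast h
  set μ : ℝ := lam * D.card / L with hμ
  have hμ0 : 0 ≤ μ := div_nonneg (mul_nonneg hJ.lam0 (Nat.cast_nonneg _)) (Nat.cast_nonneg _)
  have hμ1 : μ ≤ Λ := by
    refine le_trans ?_ hlam
    rw [hμ, mul_div_assoc]
    exact mul_le_of_le_one_right hJ.lam0 (div_le_one_of_le₀ hcard (Nat.cast_nonneg _))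
  have h3 : ((range (x + 1)).filter fun p => p.Prime ∧ ∃ α β : ℝ, α ≤ β ∧ β ≤ α + 1 ∧ ∃ F : Finset ℕ,
        ε < ∑ r ∈ F, |pvl J L D (fun n => (wq n p : ℝ) / p) r α β - (β - α) * poi μ r|) ⊆
      (range r0).biUnion fun r => (range (x + 1)).filter fun p => p.Prime ∧ ∃ α β : ℝ, 0 ≤ α ∧ α ≤ β ∧ β ≤ 1 ∧
        η < |pvl J L D (fun n => (wq n p : ℝ) / p) r α β - (β - α) * poi μ r| := by
    intro p hp
    rw [mem_filter] at hp
    obtain ⟨hpx, hpp, α, β, hαβ, hβα, F, hF⟩ := hp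
    by_contra hcon
    rw [mem_biUnion] at hcon
    push Not at hcon
    have h4 : ∀ a b : ℝ, 0 ≤ a → a ≤ b → b ≤ 1 → ∀ F : Finset ℕ,
        ∑ r ∈ F, |pvl J L D (fun n => (wq n p : ℝ) / p) r a b - (b - a) * poi μ r| ≤ ε / 2 := by
      intro a b ha hab hb F
      refine hclose μ hμ0 hμ1 (b - a) (by linarith) (by linarith)
        (fun r => pvl J L D (fun n => (wq n p : ℝ) / p) r a b)
        (fun i => pvl_nonneg _ _ _ _ _ _ _) (fun F => pvl_sum_le hJ.meas _ _ _ F hab) (fun i hi => ?_) F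
      by_contra h5
      exact hcon i (mem_range.2 hi) (mem_filter.2 ⟨hpx, hpp, a, b, ha, hab, hb, not_le.1 h5⟩)
    exact absurd hF (not_lt.2 (arcs_of_unit hJ.meas _ _ _ h4 hαβ hβα F))
  have h4 : (((range (x + 1)).filter fun p => p.Prime ∧ ∃ α β : ℝ, α ≤ β ∧ β ≤ α + 1 ∧ ∃ F : Finset ℕ,
        ε < ∑ r ∈ F, |pvl J L D (fun n => (wq n p : ℝ) / p) r α β - (β - α) * poi μ r|).card : ℝ) ≤
      ∑ r ∈ range r0, η * (ppi x : ℝ) := by
    refine le_trans ?_ (Finset.sum_le_sum fun r hr => hL1 r L x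
      ((Finset.le_sup (f := L1) hr).trans hL) hLx' J lam hJ hlam D hD)
    exact_mod_cast (Finset.card_le_card h3).trans Finset.card_biUnion_le
  refine h4.trans ?_
  rw [Finset.sum_const, card_range, nsmul_eq_mul, ← mul_assoc]
  exact mul_le_mul_of_nonneg_right (by linarith) (Nat.cast_nonneg _)

end Pool.Agent.Lib.MP_de5eaa_nt.Poi
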