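import Pool.Agent.Lib.MP_de5eaa_nt.Poi.Se6
import Pool.Agent.Lib.MP_de5eaa_nt.Poi.N1c

set_option autoImplicit false

namespace Pool.Agent.Lib.MP_de5eaa_nt.Poi

open Finset MeasureTheory Filter Topology
open Pool.Agent.Lib.MP_de5eaa_nt.Near (hs wq ppi)

theorem Se7a_unfold {S : Set ℝ} (hS : MeasurableSet S) {L : ℝ} (hL : 0 < L) (y α : ℝ) :
    volume ({t | Hit S L t y} ∩ Set.Ioc α (α + 1)) ≤ ENNReal.ofReal (1 / L) * volume S := by
  have h1 : {t | Hit S L t y} ∩ Set.Ioc α (α + 1) =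
      (fun t : ℝ => t + -α) ⁻¹' ({t | Hit S L t (y + -α)} ∩ Set.Ioc 0 1) := by
    ext t
    have h2 : Hit S L (t + -α) (y + -α) ↔ Hit S L t y := by
      rw [M5_hit_shift]
      have h3 : t + -α + - -α = t := by ring
      rw [h3]
    constructor
    · rintro ⟨h3, h4, h5⟩
      refine ⟨h2.2 h3, ?_, ?_⟩
      · change 0 < t + -α
        linarith
      · change t + -α ≤ 1
        linarith
    · rintro ⟨h3, h4, h5⟩
      have h4' : 0 < t + -α := h4
      have h5' : t + -α ≤ 1 := h5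
      exact ⟨h2.1 h3, by linarith, by linarith⟩
  rw [h1, measure_preimage_add_right]
  exact unfold_le hS hL (y + -α)

theorem Se7a_part {f : ℝ → ℕ} (hf : ∀ r : ℕ, MeasurableSet {t | f t = r}) {E : Set ℝ} (hE : MeasurableSet E)
    (hfin : volume E ≠ ⊤) (F : Finset ℕ) :
    ∑ r ∈ F, (volume ({t | f t = r} ∩ E)).toReal ≤ (volume E).toReal := by
  have hd : Set.PairwiseDisjoint (F : Set ℕ) fun r => {t | f t = r} ∩ E := by
    intro r _ s _ hrs
    rw [Function.onFun, Set.disjoint_left]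
    rintro t ⟨h1, _⟩ ⟨h2, _⟩
    exact hrs (h1.symm.trans h2)
  have h1 : volume (⋃ r ∈ F, {t | f t = r} ∩ E) = ∑ r ∈ F, volume ({t | f t = r} ∩ E) :=
    measure_biUnion_finset hd fun r _ => (hf r).inter hE
  have h2 : volume (⋃ r ∈ F, {t | f t = r} ∩ E) ≤ volume E := by
    apply measure_mono
    intro t ht
    simp only [Set.mem_iUnion] at ht
    obtain ⟨r, _, hr⟩ := ht
    exact hr.2
  rw [← ENNReal.toReal_sum fun r _ => ((measure_mono Set.inter_subset_right).trans_lt hfin.lt_top).ne, ← h1]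
  exact ENNReal.toReal_mono hfin h2

theorem Se7a_ne {J J' : Set ℝ} {L w : ℝ} (hJ : MeasurableSet J) (hJ' : MeasurableSet J') (hL : 0 < L)
    (hv : volume {s | ¬ (s ∈ J ↔ s ∈ J')} ≤ ENNReal.ofReal w) (I : Finset ℕ) (y : ℕ → ℝ) {α β : ℝ}
    (h2 : β ≤ α + 1) :
    volume ({t | cnt J L I y t ≠ cnt J' L I y t} ∩ Set.Ioc α β) ≤ (I.card : ENNReal) * ENNReal.ofReal (w / L) := by
  classical
  have hSm : MeasurableSet {s | ¬ (s ∈ J ↔ s ∈ J')} :=
    ((measurableSet_setOfPred.1 hJ).iff (measurableSet_setOfPred.1 hJ')).not.setOf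
  have hsub : {t | cnt J L I y t ≠ cnt J' L I y t} ∩ Set.Ioc α β ⊆
      ⋃ n ∈ I, ({t | Hit {s | ¬ (s ∈ J ↔ s ∈ J')} L t (y n)} ∩ Set.Ioc α (α + 1)) := by
    rintro t ⟨ht, ht1⟩
    have hex : ∃ n ∈ I, ¬ (Hit J L t (y n) ↔ Hit J' L t (y n)) := by
      by_contra hcon
      push Not at hcon
      apply ht
      show cnt J L I y t = cnt J' L I y t
      unfold cnt
      congr 1
      exact Finset.filter_congr hcon
    obtain ⟨n, hn, hne⟩ := hex
    have hit : Hit {s | ¬ (s ∈ J ↔ s ∈ J')} L t (y n) := by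
      by_cases h1 : Hit J L t (y n)
      · have h3 : ¬ Hit J' L t (y n) := fun h3 => hne ⟨fun _ => h3, fun _ => h1⟩
        obtain ⟨a, ha⟩ := h1
        refine ⟨a, ?_⟩
        show ¬ (L * (y n - t - a) ∈ J ↔ L * (y n - t - a) ∈ J')
        exact fun h4 => h3 ⟨a, h4.1 ha⟩
      · have h3 : Hit J' L t (y n) := by
          by_contra h3
          exact hne ⟨fun h => absurd h h1, fun h => absurd h h3⟩
        obtain ⟨a, ha⟩ := h3
        refine ⟨a, ?_⟩
        show ¬ (L * (y n - t - a) ∈ J ↔ L * (y n - t - a) ∈ J')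
        exact fun h4 => h1 ⟨a, h4.2 ha⟩
    exact Set.mem_biUnion hn ⟨hit, ht1.1, ht1.2.trans h2⟩
  have hterm : ∀ n ∈ I, volume ({t | Hit {s | ¬ (s ∈ J ↔ s ∈ J')} L t (y n)} ∩ Set.Ioc α (α + 1)) ≤
      ENNReal.ofReal (w / L) := by
    intro n _
    calc volume ({t | Hit {s | ¬ (s ∈ J ↔ s ∈ J')} L t (y n)} ∩ Set.Ioc α (α + 1))
        ≤ ENNReal.ofReal (1 / L) * volume {s | ¬ (s ∈ J ↔ s ∈ J')} := Se7a_unfold hSm hL (y n) α
      _ ≤ ENNReal.ofReal (1 / L) * ENNReal.ofReal w := by gcongr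
      _ = ENNReal.ofReal (w / L) := by
          rw [← ENNReal.ofReal_mul (by positivity)]
          congr 1
          ring
  calc volume ({t | cnt J L I y t ≠ cnt J' L I y t} ∩ Set.Ioc α β)
      ≤ volume (⋃ n ∈ I, ({t | Hit {s | ¬ (s ∈ J ↔ s ∈ J')} L t (y n)} ∩ Set.Ioc α (α + 1))) :=
        measure_mono hsub
    _ ≤ ∑ n ∈ I, volume ({t | Hit {s | ¬ (s ∈ J ↔ s ∈ J')} L t (y n)} ∩ Set.Ioc α (α + 1)) :=
        measure_biUnion_finset_le I _
    _ ≤ ∑ n ∈ I, ENNReal.ofReal (w / L) := Finset.sum_le_sum hterm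
    _ = (I.card : ENNReal) * ENNReal.ofReal (w / L) := by
        rw [Finset.sum_const, nsmul_eq_mul]

theorem Se7a_step (J J' : Set ℝ) (L : ℝ) (I : Finset ℕ) (y : ℕ → ℝ) (r : ℕ) (α β : ℝ) :
    pvl J L I y r α β ≤ pvl J' L I y r α β +
      (volume ({t | cnt J L I y t = r} ∩ ({t | cnt J L I y t ≠ cnt J' L I y t} ∩ Set.Ioc α β))).toReal := by
  have hfin : ∀ S : Set ℝ, volume (S ∩ ({t | cnt J L I y t ≠ cnt J' L I y t} ∩ Set.Ioc α β)) ≠ ⊤ := fun S =>
    ((measure_mono Set.inter_subset_right).trans_lt (Lo2b_fin _ α β).lt_top).ne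
  unfold pvl
  rw [← ENNReal.toReal_add (Lo2b_fin _ α β) (hfin _)]
  refine ENNReal.toReal_mono (ENNReal.add_ne_top.2 ⟨Lo2b_fin _ α β, hfin _⟩)
    ((measure_mono ?_).trans (measure_union_le _ _))
  rintro t ⟨ht, ht'⟩
  by_cases h : cnt J L I y t = cnt J' L I y t
  · exact Or.inl ⟨h.symm.trans ht, ht'⟩
  · exact Or.inr ⟨ht, h, ht'⟩

/-- ROW Se7a. `∑ |pvl J r - pvl J' r| ≤ 2 vol {t ∈ (α, β] : cnt J ≠ cnt J'}` (the sets `cnt = r` are disjoint, measurable; as in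
`pvl_sum_le`, `pvl_pert` of `Poi/Lo2.lean`), and `cnt J ≠ cnt J'` only if for some `n ∈ I` exactly one of `Hit J`, `Hit J'` holds; that `t` is in a
set of measure at most `w / L` in each interval of length `1`: there is an integer `a` with `L (y n - t - a)` in the symmetric difference `S`
(volume at most `w`); the set of these `t` in `(α, α + 1]` has measure at most `w / L` (as in `cnt_pert`, files `Poi/M4.lean`, `Poi/M5.lean`, `Poi/C3.lean`:
the sets `(α, α + 1] ∩ (y n - a - S / L)` are translates of disjoint parts of `S / L`). -/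
theorem pvl_symm {J J' : Set ℝ} {L w : ℝ} (hJ : MeasurableSet J) (hJ' : MeasurableSet J') (hL : 0 < L) (hw : 0 ≤ w)
    (hv : volume {s | ¬ (s ∈ J ↔ s ∈ J')} ≤ ENNReal.ofReal w) (I : Finset ℕ) (y : ℕ → ℝ) {α β : ℝ} (h1 : α ≤ β)
    (h2 : β ≤ α + 1) (F : Finset ℕ) :
    ∑ r ∈ F, |pvl J L I y r α β - pvl J' L I y r α β| ≤ 2 * ((I.card : ℝ) * (w / L)) := by
  have hm : ∀ r : ℕ, MeasurableSet {t | cnt J L I y t = r} := fun r =>
    (meas_cnt hJ L I y) (measurableSet_singleton r)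
  have hm' : ∀ r : ℕ, MeasurableSet {t | cnt J' L I y t = r} := fun r =>
    (meas_cnt hJ' L I y) (measurableSet_singleton r)
  have hE : MeasurableSet ({t | cnt J L I y t ≠ cnt J' L I y t} ∩ Set.Ioc α β) :=
    (measurableSet_eq_fun (meas_cnt hJ L I y) (meas_cnt hJ' L I y)).compl.inter measurableSet_Ioc
  have hsymm : {t | cnt J' L I y t ≠ cnt J L I y t} = {t | cnt J L I y t ≠ cnt J' L I y t} := by
    ext t
    exact ne_comm
  have hfin : volume ({t | cnt J L I y t ≠ cnt J' L I y t} ∩ Set.Ioc α β) ≠ ⊤ := Lo2b_fin _ α β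
  have hbd : (volume ({t | cnt J L I y t ≠ cnt J' L I y t} ∩ Set.Ioc α β)).toReal ≤ (I.card : ℝ) * (w / L) := by
    apply ENNReal.toReal_le_of_le_ofReal
    · positivity
    · rw [ENNReal.ofReal_mul (Nat.cast_nonneg _), ENNReal.ofReal_natCast]
      exact Se7a_ne hJ hJ' hL hv I y h2
  have hp := Se7a_part hm hE hfin F
  have hp' := Se7a_part hm' hE hfin F
  calc ∑ r ∈ F, |pvl J L I y r α β - pvl J' L I y r α β|
      ≤ ∑ r ∈ F, ((volume ({t | cnt J L I y t = r} ∩ ({t | cnt J L I y t ≠ cnt J' L I y t} ∩ Set.Ioc α β))).toReal +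
        (volume ({t | cnt J' L I y t = r} ∩ ({t | cnt J L I y t ≠ cnt J' L I y t} ∩ Set.Ioc α β))).toReal) := by
        refine Finset.sum_le_sum fun r _ => ?_
        have s1 := Se7a_step J J' L I y r α β
        have s2 := Se7a_step J' J L I y r α β
        rw [hsymm] at s2
        have s3 : 0 ≤ (volume ({t | cnt J L I y t = r} ∩
          ({t | cnt J L I y t ≠ cnt J' L I y t} ∩ Set.Ioc α β))).toReal := ENNReal.toReal_nonneg
        have s4 : 0 ≤ (volume ({t | cnt J' L I y t = r} ∩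
          ({t | cnt J L I y t ≠ cnt J' L I y t} ∩ Set.Ioc α β))).toReal := ENNReal.toReal_nonneg
        rw [abs_le]
        constructor <;> linarith
    _ ≤ 2 * ((I.card : ℝ) * (w / L)) := by
        rw [Finset.sum_add_distrib]
        linarith

theorem Se7b_exp (μ : ℝ) : HasSum (fun r : ℕ => μ ^ r / (Nat.factorial r : ℝ)) (Real.exp μ) := by
  rw [Real.exp_eq_exp_ℝ]
  exact NormedSpace.expSeries_div_hasSum_exp μ

theorem Se7b_le {μ ν : ℝ} (hμ : 0 ≤ μ) (h : μ ≤ ν) (F : Finset ℕ) :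
    ∑ r ∈ F, |poi μ r - poi ν r| ≤ 2 * (ν - μ) := by
  have hE : Real.exp (-ν) ≤ Real.exp (-μ) := Real.exp_le_exp.2 (by linarith)
  have a0 : ∀ r : ℕ, 0 ≤ (Real.exp (-μ) - Real.exp (-ν)) * (μ ^ r / (Nat.factorial r : ℝ)) := fun r =>
    mul_nonneg (by linarith) (by positivity)
  have b0 : ∀ r : ℕ, 0 ≤ Real.exp (-ν) * (ν ^ r / (Nat.factorial r : ℝ) - μ ^ r / (Nat.factorial r : ℝ)) := by
    intro r
    refine mul_nonneg (Real.exp_pos _).le (sub_nonneg.2 ?_)
    exact div_le_div_of_nonneg_right (pow_le_pow_left₀ hμ h r) (Nat.cast_nonneg _)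
  have hs : HasSum (fun r : ℕ => (Real.exp (-μ) - Real.exp (-ν)) * (μ ^ r / (Nat.factorial r : ℝ))
      + Real.exp (-ν) * (ν ^ r / (Nat.factorial r : ℝ) - μ ^ r / (Nat.factorial r : ℝ)))
      ((Real.exp (-μ) - Real.exp (-ν)) * Real.exp μ + Real.exp (-ν) * (Real.exp ν - Real.exp μ)) :=
    ((Se7b_exp μ).mul_left _).add (((Se7b_exp ν).sub (Se7b_exp μ)).mul_left _)
  have h1 : ∑ r ∈ F, |poi μ r - poi ν r| ≤
      ∑ r ∈ F, ((Real.exp (-μ) - Real.exp (-ν)) * (μ ^ r / (Nat.factorial r : ℝ))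
      + Real.exp (-ν) * (ν ^ r / (Nat.factorial r : ℝ) - μ ^ r / (Nat.factorial r : ℝ))) := by
    refine Finset.sum_le_sum fun r _ => ?_
    have e1 : poi μ r - poi ν r = (Real.exp (-μ) - Real.exp (-ν)) * (μ ^ r / (Nat.factorial r : ℝ))
        - Real.exp (-ν) * (ν ^ r / (Nat.factorial r : ℝ) - μ ^ r / (Nat.factorial r : ℝ)) := by
      unfold poi
      ring
    rw [e1, abs_le]
    constructor <;> linarith [a0 r, b0 r]
  have h2 := sum_le_hasSum F (fun r _ => add_nonneg (a0 r) (b0 r)) hs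
  have h3 : (Real.exp (-μ) - Real.exp (-ν)) * Real.exp μ + Real.exp (-ν) * (Real.exp ν - Real.exp μ)
      = 2 * (1 - Real.exp (-(ν - μ))) := by
    have c1 : Real.exp (-μ) * Real.exp μ = 1 := by rw [← Real.exp_add]; simp
    have c2 : Real.exp (-ν) * Real.exp ν = 1 := by rw [← Real.exp_add]; simp
    have c3 : Real.exp (-(ν - μ)) = Real.exp (-ν) * Real.exp μ := by
      rw [← Real.exp_add]
      congr 1
      ring
    rw [c3]
    linear_combination c1 + c2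
  have h4 : 1 - Real.exp (-(ν - μ)) ≤ ν - μ := by
    have := Real.add_one_le_exp (-(ν - μ))
    linarith
  linarith

/-- ROW Se7b. Say `μ ≤ ν`. `|poi μ r - poi ν r| ≤ |e^-μ - e^-ν| μ^r/r! + e^-ν (ν^r - μ^r)/r!`; the sums over all `r` are
`(e^-μ - e^-ν) e^μ = 1 - e^-(ν-μ) ≤ ν - μ` and `e^-ν (e^ν - e^μ) = 1 - e^-(ν-μ) ≤ ν - μ` (`NormedSpace.expSeries_div_hasSum_exp` as in `poi_hasSum`,
`sum_le_hasSum`). -/
theorem poi_lip {μ ν : ℝ} (hμ : 0 ≤ μ) (hν : 0 ≤ ν) (F : Finset ℕ) : ∑ r ∈ F, |poi μ r - poi ν r| ≤ 2 * |μ - ν| := by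
  rcases le_total μ ν with h | h
  · rw [abs_sub_comm μ ν, abs_of_nonneg (sub_nonneg.2 h)]
    exact Se7b_le hμ h F
  · rw [abs_of_nonneg (sub_nonneg.2 h)]
    refine le_trans (le_of_eq (Finset.sum_congr rfl fun r _ => abs_sub_comm _ _)) (Se7b_le hν h F)

/-- ROW Se7c. An element `s` of exactly one of the two sets is, for some `i < 2 k`, in `[c' i, c i]` (`c' i ≤ c i ≤ c' i + η`), of length at most `η`. -/
theorem Jset_net (k : ℕ) {c c' : ℕ → ℝ} {η : ℝ} (hη : 0 ≤ η) (h : ∀ i < 2 * k, c' i ≤ c i ∧ c i ≤ c' i + η) :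
    volume {s | ¬ (s ∈ Jset k c ↔ s ∈ Jset k c')} ≤ ENNReal.ofReal (2 * k * η) ∧ |Jlen k c - Jlen k c'| ≤ 2 * k * η := by
  constructor
  · have hsub : {s | ¬ (s ∈ Jset k c ↔ s ∈ Jset k c')} ⊆ ⋃ i ∈ Finset.range (2 * k), Set.Icc (c' i) (c i) := by
      intro s hs
      have hs : ¬ (s ∈ Jset k c ↔ s ∈ Jset k c') := hs
      simp only [Set.mem_iUnion, Finset.mem_range, exists_prop, Set.mem_Icc]
      by_cases h1 : s ∈ Jset k c
      · have h2 : s ∉ Jset k c' := fun h => hs ⟨fun _ => h, fun _ => h1⟩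
        obtain ⟨i, hi, h3, h4⟩ := h1
        refine ⟨2 * i + 1, by omega, ?_, h4⟩
        by_contra h5
        push Not at h5
        exact h2 ⟨i, hi, (h (2 * i) (by omega)).1.trans h3, h5.le⟩
      · have h2 : s ∈ Jset k c' := by
          by_contra h3
          exact hs ⟨fun h => (h1 h).elim, fun h => (h3 h).elim⟩
        obtain ⟨i, hi, h3, h4⟩ := h2
        refine ⟨2 * i, by omega, h3, ?_⟩
        by_contra h5
        push Not at h5
        exact h1 ⟨i, hi, h5.le, h4.trans (h (2 * i + 1) (by omega)).1⟩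
    refine (measure_mono hsub).trans ((measure_biUnion_finset_le _ _).trans ?_)
    have h6 : ∀ i ∈ Finset.range (2 * k), volume (Set.Icc (c' i) (c i)) ≤ ENNReal.ofReal η := by
      intro i hi
      rw [Real.volume_Icc]
      exact ENNReal.ofReal_le_ofReal (by linarith [(h i (Finset.mem_range.1 hi)).2])
    refine (Finset.sum_le_sum h6).trans (le_of_eq ?_)
    rw [Finset.sum_const, Finset.card_range, nsmul_eq_mul,
      show (2 * (k : ℝ) * η) = ((2 * k : ℕ) : ℝ) * η by push_cast; ring,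
      ENNReal.ofReal_mul (Nat.cast_nonneg _), ENNReal.ofReal_natCast]
  · unfold Jlen
    rw [← Finset.sum_sub_distrib]
    refine (Finset.abs_sum_le_sum_abs _ _).trans ?_
    have h7 : ∀ i ∈ Finset.range k, |(c (2 * i + 1) - c (2 * i)) - (c' (2 * i + 1) - c' (2 * i))| ≤ η := by
      intro i hi
      have hi' := Finset.mem_range.1 hi
      obtain ⟨a1, a2⟩ := h (2 * i) (by omega)
      obtain ⟨b1, b2⟩ := h (2 * i + 1) (by omega)
      rw [abs_le]
      constructor <;> linarith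
    refine (Finset.sum_le_sum h7).trans ?_
    rw [Finset.sum_const, Finset.card_range, nsmul_eq_mul]
    have hk : (0 : ℝ) ≤ k := Nat.cast_nonneg k
    nlinarith [mul_nonneg hk hη]

/-- ROW Se7d. `nice_union` gives `Nice (Jset k c) (Jlen k c) (2 k) R` for some `R`; replace `R` by `B`: `Jset k c ⊆ Icc (-B) B` since
`-B ≤ c 0 ≤ c i ≤ c (2 k) ≤ B`. `Jlen k c ≤ 2 B` by `vol` and this inclusion. -/
theorem nice_B (k : ℕ) {c : ℕ → ℝ} (hc : Monotone c) {B : ℝ} (hB : 0 ≤ B) (h0 : -B ≤ c 0) (h1 : c (2 * k) ≤ B) :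
    Nice (Jset k c) (Jlen k c) (2 * k) B ∧ Jlen k c ≤ 2 * B := by
  obtain ⟨R, hR⟩ := nice_union k c hc
  have hsub : Jset k c ⊆ Set.Icc (-B) B := by
    rintro s ⟨i, hi, h2, h3⟩
    refine Set.mem_Icc.2 ⟨?_, ?_⟩
    · have h4 : c 0 ≤ c (2 * i) := hc (Nat.zero_le _)
      linarith
    · have h4 : c (2 * i + 1) ≤ c (2 * k) := hc (by omega)
      linarith
  refine ⟨⟨hR.meas, hR.lam0, hR.K0, hB, hsub, hR.vol, hR.grid, hR.pert⟩, ?_⟩
  have h5 : volume (Jset k c) ≤ volume (Set.Icc (-B) B) := measure_mono hsub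
  rw [hR.vol, Real.volume_Icc] at h5
  have h6 : Jlen k c ≤ B - -B := (ENNReal.ofReal_le_ofReal_iff (by linarith)).1 h5
  linarith

end Pool.Agent.Lib.MP_de5eaa_nt.Poi
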