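import Pool.Agent.Lib.MP_de5eaa_nt.Poi.Se7

set_option autoImplicit false

namespace Pool.Agent.Lib.MP_de5eaa_nt.Poi

open Finset MeasureTheory Filter Topology
open Pool.Agent.Lib.MP_de5eaa_nt.Near (hs wq ppi)

theorem Se8_nice (k : ℕ) {c : ℕ → ℝ} (hc : Monotone c) : MeasurableSet (Jset k c) ∧ 0 ≤ Jlen k c := by
  have hB : 0 ≤ max |c 0| |c (2 * k)| := le_max_of_le_left (abs_nonneg _)
  have h0 : -(max |c 0| |c (2 * k)|) ≤ c 0 :=
    (neg_le_neg (le_max_left _ _)).trans (neg_abs_le _)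
  have h1 : c (2 * k) ≤ max |c 0| |c (2 * k)| := (le_abs_self _).trans (le_max_right _ _)
  have h2 := (nice_B k hc hB h0 h1).1
  exact ⟨h2.meas, h2.lam0⟩

theorem Se8_key (k : ℕ) {η : ℝ} (hη : 0 ≤ η) {c c' : ℕ → ℝ} (hc : Monotone c) (hc' : Monotone c')
    (h : ∀ i < 2 * k, c' i ≤ c i ∧ c i ≤ c' i + η) {L : ℕ} (hL : 1 ≤ L) {D : Finset ℕ} (hD : D ⊆ Icc 1 L)
    (y : ℕ → ℝ) {α β : ℝ} (h1 : α ≤ β) (h2 : β ≤ α + 1) (F : Finset ℕ) :
    ∑ r ∈ F, |pvl (Jset k c) L D y r α β - (β - α) * poi (Jlen k c * D.card / L) r| ≤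
    ∑ r ∈ F, |pvl (Jset k c') L D y r α β - (β - α) * poi (Jlen k c' * D.card / L) r| + 8 * k * η := by
  obtain ⟨m1, n1⟩ := Se8_nice k hc
  obtain ⟨m2, n2⟩ := Se8_nice k hc'
  obtain ⟨v1, v2⟩ := Jset_net k hη h
  have hLr : (0 : ℝ) < (L : ℝ) := by exact_mod_cast hL
  have hk : (0 : ℝ) ≤ k := Nat.cast_nonneg k
  have hw : 0 ≤ 2 * (k : ℝ) * η := by positivity
  have hDc : (D.card : ℝ) ≤ L := by
    have := Finset.card_le_card hD
    rw [Nat.card_Icc, Nat.add_sub_cancel] at this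
    exact_mod_cast this
  have hDL : (D.card : ℝ) / L ≤ 1 := (div_le_one hLr).2 hDc
  have hDL0 : 0 ≤ (D.card : ℝ) / L := by positivity
  have a1 := pvl_symm m1 m2 hLr hw v1 D y h1 h2 F
  have a2 := poi_lip (μ := Jlen k c * D.card / L) (ν := Jlen k c' * D.card / L) (by positivity)
    (by positivity) F
  have a3 : |Jlen k c * D.card / L - Jlen k c' * D.card / L| ≤ 2 * k * η := by
    have e : Jlen k c * D.card / L - Jlen k c' * D.card / L =
        (Jlen k c - Jlen k c') * ((D.card : ℝ) / L) := by ring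
    rw [e, abs_mul, abs_of_nonneg hDL0]
    calc |Jlen k c - Jlen k c'| * ((D.card : ℝ) / L) ≤ (2 * k * η) * 1 :=
          mul_le_mul v2 hDL hDL0 hw
      _ = _ := by ring
  have a4 : (D.card : ℝ) * (2 * k * η / L) ≤ 2 * k * η := by
    have e : (D.card : ℝ) * (2 * k * η / L) = (2 * k * η) * ((D.card : ℝ) / L) := by ring
    rw [e]
    exact mul_le_of_le_one_right hw hDL
  have a5 : ∀ r ∈ F, |pvl (Jset k c) L D y r α β - (β - α) * poi (Jlen k c * D.card / L) r| ≤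
      |pvl (Jset k c') L D y r α β - (β - α) * poi (Jlen k c' * D.card / L) r| +
      (|pvl (Jset k c) L D y r α β - pvl (Jset k c') L D y r α β| +
      |poi (Jlen k c * D.card / L) r - poi (Jlen k c' * D.card / L) r|) := by
    intro r _
    have e : pvl (Jset k c) L D y r α β - (β - α) * poi (Jlen k c * D.card / L) r =
        (pvl (Jset k c') L D y r α β - (β - α) * poi (Jlen k c' * D.card / L) r) +
        ((pvl (Jset k c) L D y r α β - pvl (Jset k c') L D y r α β) -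
        (β - α) * (poi (Jlen k c * D.card / L) r - poi (Jlen k c' * D.card / L) r)) := by ring
    rw [e]
    refine (abs_add_le _ _).trans (add_le_add le_rfl ((abs_sub _ _).trans (add_le_add le_rfl ?_)))
    rw [abs_mul, abs_of_nonneg (sub_nonneg.2 h1)]
    exact mul_le_of_le_one_left (abs_nonneg _) (by linarith)
  have a6 := Finset.sum_le_sum a5
  rw [Finset.sum_add_distrib, Finset.sum_add_distrib] at a6
  linarith

open Classical in
/-- ROW Se8. A net. Let `η > 0` be small (`η = ε / (32 (k + 1))`), `N` a natural number with `B + 1 ≤ N η`. For a monotone `g : Fin (2 k + 1) → ℤ` with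
values in `[-N, N]` (a finite set `T` of functions, `Fintype.piFinset`; or a map from a finite set of codes) let `c_g i = η g (min i (2 k))`: monotone,
`-(N η) ≤ c_g 0`, `c_g (2 k) ≤ N η`: `nice_B` with `B' = N η`. `main_all_s` with `Λ = 2 B'`, `K = 2 k`, `R = B'` and `ε1 ≤ ε / 2`, `|T| ε1 ≤ ε`: at most
`|T| ε1 π(x) ≤ ε π(x)` primes are bad for some `g ∈ T`. For a good `p` and `c` as in the theorem take `g i = ⌊c i / η⌋`: `c_g i ≤ c i ≤ c_g i + η` for
`i ≤ 2 k`, so by `Jset_net` (`w = 2 k η`), `pvl_symm` (`|D| ≤ L`), `poi_lip` (`β - α ≤ 1`, `|D| ≤ L`): the sum for `c` is at most the one for `c_g`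
plus `2 * 2 k η + 2 * 2 k η ≤ ε / 4`. -/
theorem main_net (k : ℕ) {B : ℝ} (hB : 0 ≤ B) {δ : ℝ} (hδ : 0 < δ) {ε : ℝ} (hε : 0 < ε) :
    ∃ L0 : ℕ, ∀ L x : ℕ, L0 ≤ L → (L : ℝ) ≤ (1 - δ) * Real.log x → ∀ D : Finset ℕ, D ⊆ Icc 1 L →
      (((range (x + 1)).filter fun p => p.Prime ∧ ∃ c : ℕ → ℝ, Monotone c ∧ -B ≤ c 0 ∧ c (2 * k) ≤ B ∧
        ∃ α β : ℝ, α ≤ β ∧ β ≤ α + 1 ∧ ∃ F : Finset ℕ,
        ε < ∑ r ∈ F, |pvl (Jset k c) L D (fun n => (wq n p : ℝ) / p) r α β -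
          (β - α) * poi (Jlen k c * D.card / L) r|).card : ℝ) ≤ ε * ppi x := by
  have hk : (0 : ℝ) ≤ k := Nat.cast_nonneg k
  obtain ⟨η, hηd⟩ : ∃ η : ℝ, η = ε / (32 * (k + 1)) := ⟨_, rfl⟩
  have hη : 0 < η := by rw [hηd]; positivity
  have hηk : 8 * k * η ≤ ε / 4 := by
    rw [hηd, mul_div_assoc', div_le_iff₀ (by positivity)]
    nlinarith
  obtain ⟨N, hN⟩ : ∃ N : ℕ, (B + 1) / η ≤ N := ⟨⌈(B + 1) / η⌉₊, Nat.le_ceil _⟩
  rw [div_le_iff₀ hη] at hN
  have hN0 : 0 ≤ (N : ℝ) * η := by linarith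
  let T : Finset (Fin (2 * k + 1) → ℤ) :=
    (Fintype.piFinset fun _ => Finset.Icc (-(N : ℤ)) (N : ℤ)).filter Monotone
  let cg : (Fin (2 * k + 1) → ℤ) → ℕ → ℝ := fun g i => η * (g ⟨min i (2 * k), by omega⟩ : ℝ)
  have hcg : ∀ g, Monotone g → Monotone (cg g) := by
    intro g hg i j hij
    have h1 : g ⟨min i (2 * k), by omega⟩ ≤ g ⟨min j (2 * k), by omega⟩ := by
      apply hg
      rw [Fin.mk_le_mk]
      exact min_le_min_right _ hij
    exact mul_le_mul_of_nonneg_left (by exact_mod_cast h1) hη.le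
  obtain ⟨ε1, h1, h2, h3⟩ : ∃ ε1 : ℝ, 0 < ε1 ∧ ε1 ≤ ε / 2 ∧ (T.card : ℝ) * ε1 ≤ ε := by
    have hT : (0 : ℝ) ≤ T.card := Nat.cast_nonneg _
    refine ⟨min (ε / 2) (ε / (T.card + 1)), lt_min (by positivity) (by positivity), min_le_left _ _, ?_⟩
    calc (T.card : ℝ) * min (ε / 2) (ε / (T.card + 1)) ≤ (T.card : ℝ) * (ε / (T.card + 1)) :=
          mul_le_mul_of_nonneg_left (min_le_right _ _) hT
      _ ≤ ε := by
          rw [mul_div_assoc', div_le_iff₀ (by positivity)]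
          nlinarith
  obtain ⟨L0, hL0⟩ := main_all_s (Λ := 2 * (N * η)) (K := 2 * k) (R := N * η) (by positivity)
    (by positivity) hN0 hδ h1
  refine ⟨max L0 1, fun L x hL hx D hD => ?_⟩
  have hL1 : 1 ≤ L := (le_max_right _ _).trans hL
  have hL2 : L0 ≤ L := (le_max_left _ _).trans hL
  have hppi : (0 : ℝ) ≤ ppi x := Nat.cast_nonneg _
  let Bad : (Fin (2 * k + 1) → ℤ) → Finset ℕ := fun g => (range (x + 1)).filter fun p => p.Prime ∧
    ∃ α β : ℝ, α ≤ β ∧ β ≤ α + 1 ∧ ∃ F : Finset ℕ,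
      ε1 < ∑ r ∈ F, |pvl (Jset k (cg g)) L D (fun n => (wq n p : ℝ) / p) r α β -
        (β - α) * poi (Jlen k (cg g) * D.card / L) r|
  have hBad : ∀ g ∈ T, ((Bad g).card : ℝ) ≤ ε1 * ppi x := by
    intro g hg
    obtain ⟨hg1, hg2⟩ := Finset.mem_filter.1 hg
    have hg3 := fun i => Finset.mem_Icc.1 (Fintype.mem_piFinset.1 hg1 i)
    have b0 : -(N * η) ≤ cg g 0 := by
      have h4 : (-(N : ℤ) : ℝ) ≤ (g ⟨min 0 (2 * k), by omega⟩ : ℝ) := by
        exact_mod_cast (hg3 ⟨min 0 (2 * k), by omega⟩).1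
      have h5 := mul_le_mul_of_nonneg_left h4 hη.le
      show -(N * η) ≤ η * (g ⟨min 0 (2 * k), by omega⟩ : ℝ)
      push_cast at h5
      linarith
    have b1 : cg g (2 * k) ≤ N * η := by
      have h4 : (g ⟨min (2 * k) (2 * k), by omega⟩ : ℝ) ≤ ((N : ℤ) : ℝ) := by
        exact_mod_cast (hg3 ⟨min (2 * k) (2 * k), by omega⟩).2
      have h5 := mul_le_mul_of_nonneg_left h4 hη.le
      show η * (g ⟨min (2 * k) (2 * k), by omega⟩ : ℝ) ≤ N * η
      push_cast at h5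
      linarith
    obtain ⟨c1, c2⟩ := nice_B k (hcg g hg2) hN0 b0 b1
    exact hL0 L x hL2 hx (Jset k (cg g)) (Jlen k (cg g)) c1 c2 D hD
  have hsub : ((range (x + 1)).filter fun p => p.Prime ∧ ∃ c : ℕ → ℝ, Monotone c ∧ -B ≤ c 0 ∧ c (2 * k) ≤ B ∧
        ∃ α β : ℝ, α ≤ β ∧ β ≤ α + 1 ∧ ∃ F : Finset ℕ,
        ε < ∑ r ∈ F, |pvl (Jset k c) L D (fun n => (wq n p : ℝ) / p) r α β -
          (β - α) * poi (Jlen k c * D.card / L) r|) ⊆ T.biUnion Bad := by
    intro p hp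
    obtain ⟨hp1, hp2, c, hc, hc0, hc1, α, β, hα, hβ, F, hF⟩ := Finset.mem_filter.1 hp
    let g : Fin (2 * k + 1) → ℤ := fun i => ⌊c i / η⌋
    have hgm : Monotone g := by
      intro i j hij
      apply Int.floor_le_floor
      exact div_le_div_of_nonneg_right (hc (by exact_mod_cast hij)) hη.le
    have hgT : g ∈ T := by
      refine Finset.mem_filter.2 ⟨Fintype.mem_piFinset.2 (fun i => Finset.mem_Icc.2 ⟨?_, ?_⟩), hgm⟩
      · apply Int.le_floor.2
        rw [le_div_iff₀ hη]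
        have h4 : c 0 ≤ c i := hc (Nat.zero_le _)
        push_cast
        linarith
      · have h4 : c i ≤ c (2 * k) := hc (Nat.le_of_lt_succ i.2)
        have h5 : (⌊c i / η⌋ : ℝ) ≤ N := by
          refine (Int.floor_le _).trans ?_
          rw [div_le_iff₀ hη]
          linarith
        exact_mod_cast h5
    have hnet : ∀ i < 2 * k, cg g i ≤ c i ∧ c i ≤ cg g i + η := by
      intro i hi
      have e : cg g i = η * (⌊c i / η⌋ : ℝ) := by
        show η * (⌊c (min i (2 * k)) / η⌋ : ℝ) = _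
        rw [min_eq_left hi.le]
      rw [e]
      have h4 := Int.floor_le (c i / η)
      have h5 := (Int.lt_floor_add_one (c i / η)).le
      rw [le_div_iff₀ hη] at h4
      rw [div_le_iff₀ hη] at h5
      constructor
      · linarith
      · linarith
    have key := Se8_key k hη.le hc (hcg g hgm) hnet hL1 hD (fun n => (wq n p : ℝ) / p) hα hβ F
    refine Finset.mem_biUnion.2 ⟨g, hgT, Finset.mem_filter.2 ⟨hp1, hp2, α, β, hα, hβ, F, ?_⟩⟩
    linarith
  calc (((range (x + 1)).filter fun p => p.Prime ∧ ∃ c : ℕ → ℝ, Monotone c ∧ -B ≤ c 0 ∧ c (2 * k) ≤ B ∧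
        ∃ α β : ℝ, α ≤ β ∧ β ≤ α + 1 ∧ ∃ F : Finset ℕ,
        ε < ∑ r ∈ F, |pvl (Jset k c) L D (fun n => (wq n p : ℝ) / p) r α β -
          (β - α) * poi (Jlen k c * D.card / L) r|).card : ℝ) ≤ ((T.biUnion Bad).card : ℝ) := by
        exact_mod_cast Finset.card_le_card hsub
    _ ≤ ∑ g ∈ T, ((Bad g).card : ℝ) := by exact_mod_cast Finset.card_biUnion_le
    _ ≤ ∑ _g ∈ T, ε1 * ppi x := Finset.sum_le_sum hBad
    _ = (T.card : ℝ) * ε1 * ppi x := by rw [Finset.sum_const, nsmul_eq_mul]; ring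
    _ ≤ ε * ppi x := mul_le_mul_of_nonneg_right h3 hppi

end Pool.Agent.Lib.MP_de5eaa_nt.Poi
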