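import Pool.Agent.Lib.MP_de5eaa_nt.Poi.P3
import Pool.Agent.Lib.MP_d9bc60_nt.BrunTitchmarsh

/-! Means over the primes of nonnegative functions of `p^{-1}` modulo `Q`, by the Brun-Titchmarsh inequality. -/

set_option autoImplicit false

namespace Pool.Agent.Lib.MP_de5eaa_nt.Poi

open Finset Filter Topology
open Pool.Agent.Lib.MP_de5eaa_nt.Near (ppi)

theorem log_QQ {δ : ℝ} (hδ : 0 < δ) : ∀ᶠ L : ℕ in atTop, Real.log (QQ L : ℝ) ≤ (1 + δ) * L := by
  have e : ∀ L : ℕ, Real.log (QQ L : ℝ) = Chebyshev.psi L := fun L => (Chebyshev.psi_eq_log_lcmUpto L).symm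
  obtain ⟨C, hC⟩ := Chebyshev.psi_sub_theta_le_mul_sqrt
  have h1 : ∀ᶠ L : ℕ in atTop, Chebyshev.theta L / (L : ℝ) < 1 + δ / 2 :=
    theta_tendsto.eventually (gt_mem_nhds (by linarith))
  have h2 : Tendsto (fun L : ℕ => Real.sqrt (L : ℝ)) atTop atTop :=
    Real.tendsto_sqrt_atTop.comp tendsto_natCast_atTop_atTop
  have h3 : ∀ᶠ L : ℕ in atTop, C / (δ / 2) ≤ Real.sqrt (L : ℝ) := h2.eventually_ge_atTop _
  filter_upwards [h1, h3, eventually_gt_atTop 0] with L h4 h5 h6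
  have hL : (0 : ℝ) < L := by exact_mod_cast h6
  have h7 := hC L
  rw [e]
  rw [div_lt_iff₀ hL] at h4
  rw [div_le_iff₀ (by positivity)] at h5
  have h8 : C * Real.sqrt L ≤ δ / 2 * L := by
    have h9 := mul_le_mul_of_nonneg_right h5 (Real.sqrt_nonneg (L : ℝ))
    have h10 : Real.sqrt (L : ℝ) * Real.sqrt L = L := Real.mul_self_sqrt hL.le
    nlinarith
  linarith

/-- Brun-Titchmarsh, for `Q ≤ x ^ (1 - δ)`. -/
theorem bt_class {δ : ℝ} (hδ : 0 < δ) : ∃ C : ℝ, 0 < C ∧ ∃ x1 : ℕ, ∀ x Q a : ℕ, x1 ≤ x → 0 < Q →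
    (Q : ℝ) ≤ (x : ℝ) ^ (1 - δ) →
    (((range (x + 1)).filter fun p => p.Prime ∧ p ≡ a [MOD Q]).card : ℝ) ≤ C * ppi x / (Q.totient : ℝ) := by
  have h1 : ∀ᶠ x : ℕ in atTop, (1 / 2 : ℝ) < (ppi x : ℝ) * Real.log x / (x : ℝ) :=
    Pool.Agent.Lib.MP_de5eaa_nt.Near.ppi_tendsto.eventually (lt_mem_nhds (by norm_num))
  have h2 : ∀ᶠ x : ℕ in atTop, ‖Real.log (x : ℝ)‖ ≤ 1 / 2 * ‖(x : ℝ) ^ (δ / 3)‖ :=
    (tendsto_natCast_atTop_atTop (R := ℝ)).eventually
      ((isLittleO_log_rpow_atTop (r := δ / 3) (by positivity)).bound (by norm_num))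
  obtain ⟨x1, hx1⟩ := eventually_atTop.1 ((h1.and h2).and (eventually_ge_atTop 2))
  refine ⟨2 * (3 / δ + 1), by positivity, x1, fun x Q a hx hQ hQx => ?_⟩
  obtain ⟨⟨h3, h4⟩, h5⟩ := hx1 x hx
  have hx2 : (2 : ℝ) ≤ x := by exact_mod_cast h5
  have hx0 : (0 : ℝ) < x := by linarith
  have hlog : 0 < Real.log x := Real.log_pos (by linarith)
  have hph : (0 : ℝ) < (Q.totient : ℝ) := by exact_mod_cast Nat.totient_pos.2 hQ
  rw [Real.norm_eq_abs, abs_of_pos hlog, Real.norm_eq_abs, abs_of_pos (Real.rpow_pos_of_pos hx0 _)] at h4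
  set z : ℝ := (x : ℝ) ^ (δ / 3) with hz
  have hz1 : 1 ≤ z := Real.one_le_rpow (by linarith) (by positivity)
  set y : ℕ := ⌊z⌋₊ with hy
  have hy1 : 1 ≤ y := by
    rw [hy, Nat.one_le_floor_iff]
    exact hz1
  have hyz : (y : ℝ) ≤ z := Nat.floor_le (by linarith)
  have hzy : z < (y : ℝ) + 1 := Nat.lt_floor_add_one z
  have hlogz : δ / 3 * Real.log x ≤ Real.log ((y : ℝ) + 1) := by
    rw [← Real.log_rpow hx0]
    exact Real.log_le_log (by linarith) hzy.le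
  have h6 := Pool.Agent.Lib.MP_d9bc60_nt.Sieve.brun_titchmarsh x Q a y hQ hy1
  have h7 : (((range (x + 1)).filter fun p => p.Prime ∧ p ≡ a [MOD Q]).card : ℝ) ≤
      (((Finset.Icc 1 x).filter (fun p => p.Prime ∧ p ≡ a [MOD Q])).card : ℝ) := by
    have : ((range (x + 1)).filter fun p => p.Prime ∧ p ≡ a [MOD Q]) ⊆
        ((Finset.Icc 1 x).filter (fun p => p.Prime ∧ p ≡ a [MOD Q])) := by
      intro p hp
      rw [mem_filter, mem_range] at hp
      rw [mem_filter, mem_Icc]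
      exact ⟨⟨hp.2.1.one_lt.le, by omega⟩, hp.2⟩
    exact_mod_cast Finset.card_le_card this
  -- the main term
  have h8 : (x : ℝ) / (Q.totient * Real.log ((y : ℝ) + 1)) ≤ 3 / δ * ((x : ℝ) / (Q.totient * Real.log x)) := by
    have e1 : 3 / δ * ((x : ℝ) / (Q.totient * Real.log x)) = (x : ℝ) / (Q.totient * (δ / 3 * Real.log x)) := by
      field_simp
    rw [e1]
    apply div_le_div_of_nonneg_left hx0.le (by positivity)
    exact mul_le_mul_of_nonneg_left hlogz hph.le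
  -- the error
  have h9 : (y : ℝ) + (y : ℝ) ^ 2 ≤ (x : ℝ) / (Q.totient * Real.log x) := by
    rw [le_div_iff₀ (by positivity)]
    have a1 : (y : ℝ) + (y : ℝ) ^ 2 ≤ 2 * z ^ 2 := by nlinarith
    have a2 : (Q.totient : ℝ) ≤ (x : ℝ) ^ (1 - δ) := by
      refine le_trans ?_ hQx
      exact_mod_cast Nat.totient_le Q
    have a3 : z ^ 2 * z * (x : ℝ) ^ (1 - δ) = x := by
      have e1 : z ^ 2 * z = (x : ℝ) ^ δ := by
        rw [hz, ← pow_succ, ← Real.rpow_natCast, ← Real.rpow_mul hx0.le]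
        congr 1
        push_cast
        ring
      rw [e1, ← Real.rpow_add hx0]
      rw [show δ + (1 - δ) = 1 by ring, Real.rpow_one]
    have a4 : 0 ≤ (x : ℝ) ^ (1 - δ) := (Real.rpow_pos_of_pos hx0 _).le
    calc ((y : ℝ) + (y : ℝ) ^ 2) * (Q.totient * Real.log x)
        ≤ (2 * z ^ 2) * ((x : ℝ) ^ (1 - δ) * (1 / 2 * z)) := by
          apply mul_le_mul a1 _ (by positivity) (by positivity)
          exact mul_le_mul a2 h4 hlog.le a4
      _ = z ^ 2 * z * (x : ℝ) ^ (1 - δ) := by ring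
      _ = x := a3
  have h10 : (x : ℝ) / Real.log x ≤ 2 * ppi x := by
    rw [lt_div_iff₀ hx0] at h3
    rw [div_le_iff₀ hlog]
    linarith
  calc (((range (x + 1)).filter fun p => p.Prime ∧ p ≡ a [MOD Q]).card : ℝ)
      ≤ (y : ℝ) + (x : ℝ) / (Q.totient * Real.log ((y : ℝ) + 1)) + (y : ℝ) ^ 2 := h7.trans h6
    _ ≤ (3 / δ + 1) * ((x : ℝ) / (Q.totient * Real.log x)) := by linarith
    _ = (3 / δ + 1) * ((x : ℝ) / Real.log x) / Q.totient := by
      field_simp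
    _ ≤ 2 * (3 / δ + 1) * ppi x / (Q.totient : ℝ) := by
      apply div_le_div_of_nonneg_right _ hph.le
      have : 0 < 3 / δ + 1 := by positivity
      nlinarith

/-- The mean over the primes `p ≤ x` of a nonnegative function of `u = p^{-1}` modulo `Q` is at most `C` times the mean over the
units `u` modulo `Q`, for `Q ≤ x ^ (1 - δ)`. -/
theorem bt_mean {δ : ℝ} (hδ : 0 < δ) : ∃ C : ℝ, 0 < C ∧ ∃ x1 : ℕ, ∀ x Q : ℕ, x1 ≤ x → 0 < Q →
    (Q : ℝ) ≤ (x : ℝ) ^ (1 - δ) → ∀ F : ℕ → ℝ, (∀ u ∈ UU Q, 0 ≤ F u) →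
    ∑ p ∈ (range (x + 1)).filter Nat.Prime, ∑ u ∈ (UU Q).filter (fun u => u * p ≡ 1 [MOD Q]), F u ≤
      C * ppi x / (Q.totient : ℝ) * ∑ u ∈ UU Q, F u := by
  obtain ⟨C, hC, x1, h1⟩ := bt_class hδ
  refine ⟨C, hC, x1, fun x Q hx hQ hQx F hF => ?_⟩
  have e1 : ∑ p ∈ (range (x + 1)).filter Nat.Prime, ∑ u ∈ (UU Q).filter (fun u => u * p ≡ 1 [MOD Q]), F u =
      ∑ u ∈ UU Q, F u * ((((range (x + 1)).filter Nat.Prime).filter fun p => u * p ≡ 1 [MOD Q]).card : ℝ) := by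
    simp_rw [Finset.sum_filter (fun u => _ ≡ 1 [MOD Q])]
    rw [Finset.sum_comm]
    refine Finset.sum_congr rfl fun u _ => ?_
    rw [← Finset.sum_filter, Finset.sum_const, nsmul_eq_mul, mul_comm]
  rw [e1, Finset.mul_sum]
  refine Finset.sum_le_sum fun u hu => ?_
  rw [mul_comm]
  refine mul_le_mul_of_nonneg_right ?_ (hF u hu)
  have hu' : Q.Coprime u := by
    unfold UU at hu
    exact (mem_filter.1 hu).2
  obtain ⟨v, -, hv⟩ := Nat.exists_mul_mod_eq_of_coprime 1 hu'.symm hQ.ne'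
  have hv' : u * v ≡ 1 [MOD Q] := hv
  refine le_trans ?_ (h1 x Q v hx hQ hQx)
  have hsub : (((range (x + 1)).filter Nat.Prime).filter fun p => u * p ≡ 1 [MOD Q]) ⊆
      ((range (x + 1)).filter fun p => p.Prime ∧ p ≡ v [MOD Q]) := by
    intro p hp
    rw [mem_filter, mem_filter] at hp
    rw [mem_filter]
    refine ⟨hp.1.1, hp.1.2, ?_⟩
    have h2 : u * p ≡ u * v [MOD Q] := hp.2.trans hv'.symm
    exact Nat.ModEq.cancel_left_of_coprime hu' h2
  exact_mod_cast Finset.card_le_card hsub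

end Pool.Agent.Lib.MP_de5eaa_nt.Poi
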