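import Pool.Agent.Lib.MP_de5eaa_nt.Poi.U2

/-! The uniform theorem in total variation. -/

set_option autoImplicit false

namespace Pool.Agent.Lib.MP_de5eaa_nt.Poi

open Finset MeasureTheory Filter Topology
open Pool.Agent.Lib.MP_de5eaa_nt.Near (hs wq ppi)

open Classical in
/-- **Theorem** (uniform, total variation). -/
theorem main_all_u {J : Set ℝ} {lam K R : ℝ} (hJ : Nice J lam K R) {δ : ℝ} (hδ : 0 < δ) {ε : ℝ} (hε : 0 < ε) :
    ∃ L0 : ℕ, ∀ L x : ℕ, L0 ≤ L → (L : ℝ) ≤ (1 - δ) * Real.log x →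
      (((range (x + 1)).filter fun p => p.Prime ∧ ∃ F : Finset ℕ,
        ε < ∑ r ∈ F, |pv J L (Icc 1 L) (fun n => (wq n p : ℝ) / p) r - poi lam r|).card : ℝ) ≤ ε * ppi x := by
  -- we may suppose `δ < 1`
  set δ' := min δ (1 / 2) with hδ'
  have hδ'0 : 0 < δ' := lt_min hδ (by norm_num)
  have hδ'1 : δ' < 1 := lt_of_le_of_lt (min_le_right _ _) (by norm_num)
  obtain ⟨r0, η, hη, hr0, hclose⟩ := tv_close hJ.lam0 hε
  have h1 := fun r : ℕ => main_u hJ hδ'0 hδ'1 r hη
  choose L1 hL1 using h1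
  refine ⟨(range r0).sup L1, fun L x hL hLx => ?_⟩
  have hLx' : (L : ℝ) ≤ (1 - δ') * Real.log x := by
    refine hLx.trans (mul_le_mul_of_nonneg_right ?_ (Real.log_natCast_nonneg x))
    have : δ' ≤ δ := min_le_left _ _
    linarith
  have h3 : ((range (x + 1)).filter fun p => p.Prime ∧ ∃ F : Finset ℕ,
        ε < ∑ r ∈ F, |pv J L (Icc 1 L) (fun n => (wq n p : ℝ) / p) r - poi lam r|) ⊆
      (range r0).biUnion fun r => (range (x + 1)).filter fun p => p.Prime ∧
        η < |pv J L (Icc 1 L) (fun n => (wq n p : ℝ) / p) r - Real.exp (-lam) * lam ^ r / (Nat.factorial r : ℝ)| := by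
    intro p hp
    rw [mem_filter] at hp
    obtain ⟨hpx, hpp, F, hF⟩ := hp
    by_contra hcon
    rw [mem_biUnion] at hcon
    push Not at hcon
    have h4 : ∀ i < r0, |pv J L (Icc 1 L) (fun n => (wq n p : ℝ) / p) i - poi lam i| ≤ η := by
      intro i hi
      by_contra h5
      exact hcon i (mem_range.2 hi) (mem_filter.2 ⟨hpx, hpp, not_le.1 h5⟩)
    have h5 := hclose (pv J L (Icc 1 L) (fun n => (wq n p : ℝ) / p)) (fun i => pv_nonneg _ _ _ _ _)
      (fun F => pv_sum_le hJ.meas _ _ _ F) h4 F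
    exact absurd hF (not_lt.2 h5)
  have h4 : (((range (x + 1)).filter fun p => p.Prime ∧ ∃ F : Finset ℕ,
        ε < ∑ r ∈ F, |pv J L (Icc 1 L) (fun n => (wq n p : ℝ) / p) r - poi lam r|).card : ℝ) ≤
      ∑ r ∈ range r0, η * (ppi x : ℝ) := by
    refine le_trans ?_ (Finset.sum_le_sum fun r hr => hL1 r L x
      ((Finset.le_sup (f := L1) hr).trans hL) hLx')
    exact_mod_cast (Finset.card_le_card h3).trans Finset.card_biUnion_le
  refine h4.trans ?_
  rw [Finset.sum_const, card_range, nsmul_eq_mul, ← mul_assoc]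
  exact mul_le_mul_of_nonneg_right hr0 (Nat.cast_nonneg _)

end Pool.Agent.Lib.MP_de5eaa_nt.Poi
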