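import Pool.Agent.Lib.MP_de5eaa_nt.Poi.W6

/-! Joint distribution of the numbers of the hits in several intervals: abstract part. -/

set_option autoImplicit false

namespace Pool.Agent.Lib.MP_de5eaa_nt.Poi

open Finset MeasureTheory Filter Topology

/-- the joint distribution of the numbers of the hits in the `k` intervals `[c (2 i), c (2 i + 1)]` -/
noncomputable def jvl (k : ℕ) (c : ℕ → ℝ) (L : ℝ) (I : Finset ℕ) (y : ℕ → ℝ) (r : Fin k → ℕ) (α β : ℝ) : ℝ :=
  (volume ({t | ∀ i : Fin k, cnt (Set.Icc (c (2 * i)) (c (2 * i + 1))) L I y t = r i} ∩ Set.Ioc α β)).toReal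

/-- the weight of a pattern: independent events with probabilities `1 - w e` -/
noncomputable def rho {ι : Type} [Fintype ι] (w : ι → ℝ) (s : ι → Bool) : ℝ := ∏ e, (if s e then 1 - w e else w e)

/-- the weight of the patterns with exactly `r` events -/
noncomputable def Qr {ι : Type} [Fintype ι] [DecidableEq ι] (w : ι → ℝ) (r : ℕ) : ℝ :=
  ∑ s ∈ (Finset.univ : Finset (ι → Bool)).filter (fun s => (Finset.univ.filter fun e => s e = true).card = r), rho w s

theorem Va_id {ι : Type} [Fintype ι] [DecidableEq ι] (z : ι → ℝ) (s : ι → Bool) :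
    ∏ e, (if s e then 1 - z e else z e) =
      ∑ T ∈ (Finset.univ.filter fun e => s e = true).powerset,
        (-1) ^ T.card * ∏ e ∈ T ∪ (Finset.univ.filter fun e => ¬ s e = true), z e := by
  have h1 : ∏ e, (if s e then 1 - z e else z e) =
      (∏ e ∈ Finset.univ.filter fun e => s e = true, (-z e + 1)) *
        ∏ e ∈ Finset.univ.filter fun e => ¬ s e = true, z e := by
    rw [Finset.prod_ite]
    congr 1
    exact Finset.prod_congr rfl fun e _ => by ring
  rw [h1, Finset.prod_add, Finset.sum_mul]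
  refine Finset.sum_congr rfl fun T hT => ?_
  have hd : Disjoint T (Finset.univ.filter fun e => ¬ s e = true) := by
    rw [Finset.disjoint_left]
    intro e he h
    exact (Finset.mem_filter.1 h).2 (Finset.mem_filter.1 (Finset.mem_powerset.1 hT he)).2
  rw [Finset.prod_union hd, Finset.prod_const_one, mul_one, Finset.prod_neg]
  ring

theorem Va_int {ι : Type} [Fintype ι] [DecidableEq ι] (ν : Measure ℝ) [IsFiniteMeasure ν] (n : ι → ℝ → ℕ)
    (hn : ∀ e, Measurable (n e)) (S : Finset ι) :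
    Integrable (fun t => ∏ e ∈ S, (if n e t = 0 then (1 : ℝ) else 0)) ν ∧
    ∫ t, ∏ e ∈ S, (if n e t = 0 then (1 : ℝ) else 0) ∂ν = ν.real {t | ∀ e ∈ S, n e t = 0} := by
  have hm : MeasurableSet {t | ∀ e ∈ S, n e t = 0} := by
    have : {t | ∀ e ∈ S, n e t = 0} = ⋂ e ∈ S, {t | n e t = 0} := by ext t; simp
    rw [this]
    exact Finset.measurableSet_biInter S fun e _ => hn e (measurableSet_singleton 0)
  have hfun : (fun t => ∏ e ∈ S, (if n e t = 0 then (1 : ℝ) else 0)) = {t | ∀ e ∈ S, n e t = 0}.indicator 1 := by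
    funext t
    rw [Finset.prod_boole, Set.indicator_apply]
    by_cases h : ∀ i ∈ S, n i t = 0
    · rw [if_pos h, if_pos (show t ∈ {t | ∀ e ∈ S, n e t = 0} from h)]
      rfl
    · rw [if_neg h, if_neg (show t ∉ {t | ∀ e ∈ S, n e t = 0} from h)]
  rw [hfun]
  refine ⟨(integrable_const (1 : ℝ)).indicator hm, ?_⟩
  rw [integral_indicator_one hm]

/-- ROW Va. With `z e = ` the indicator function of `n e = 0` the indicator function of the set is `∏ e, (if s e then 1 - z e else z e)`, and
`∏ e, (if s e then 1 - z e else z e) = ∑ T ⊆ S1, (-1)^|T| ∏ e ∈ T ∪ S0, z e`, `S1 = {e | s e}`, `S0` the complement (`Finset.prod_one_sub_ordered`,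
`Finset.prod_sub`, `Finset.prod_add` ...); the same identity for `w`; integrate (`integral_finset_sum`, the integral of an indicator function is `ν.real`);
at most `2 ^ card` terms, each with error `ε'`. -/
theorem pattern_est {ι : Type} [Fintype ι] [DecidableEq ι] (ν : Measure ℝ) [IsFiniteMeasure ν] (n : ι → ℝ → ℕ)
    (hn : ∀ e, Measurable (n e)) {b ε' : ℝ} (hε' : 0 ≤ ε') (w : ι → ℝ)
    (H1 : ∀ S : Finset ι, |ν.real {t | ∀ e ∈ S, n e t = 0} - b * ∏ e ∈ S, w e| ≤ ε') (s : ι → Bool) :
    |ν.real {t | ∀ e, (s e = true ↔ n e t ≠ 0)} - b * rho w s| ≤ 2 ^ (Fintype.card ι) * ε' := by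
  have hm : MeasurableSet {t | ∀ e, (s e = true ↔ n e t ≠ 0)} := by
    have : {t | ∀ e, (s e = true ↔ n e t ≠ 0)} = ⋂ e, {t | (s e = true ↔ n e t ≠ 0)} := by ext t; simp
    rw [this]
    refine MeasurableSet.iInter fun e => ?_
    by_cases hs : s e = true
    · have : {t | (s e = true ↔ n e t ≠ 0)} = (n e) ⁻¹' {0}ᶜ := by ext t; simp [hs]
      rw [this]
      exact hn e (measurableSet_singleton 0).compl
    · have : {t | (s e = true ↔ n e t ≠ 0)} = (n e) ⁻¹' {0} := by
        ext t
        simp only [Set.mem_ofPred_eq, Set.mem_preimage, Set.mem_singleton_iff]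
        tauto
      rw [this]
      exact hn e (measurableSet_singleton 0)
  have hpt : ∀ t, ({t | ∀ e, (s e = true ↔ n e t ≠ 0)} : Set ℝ).indicator (1 : ℝ → ℝ) t =
      ∑ T ∈ (Finset.univ.filter fun e => s e = true).powerset,
        (-1) ^ T.card * ∏ e ∈ T ∪ (Finset.univ.filter fun e => ¬ s e = true), (if n e t = 0 then (1 : ℝ) else 0) := by
    intro t
    rw [← Va_id (fun e => if n e t = 0 then (1 : ℝ) else 0) s, Set.indicator_apply]
    have : ∀ e, (if s e = true then 1 - (if n e t = 0 then (1 : ℝ) else 0) else (if n e t = 0 then (1 : ℝ) else 0)) =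
        if (s e = true ↔ n e t ≠ 0) then 1 else 0 := by
      intro e
      by_cases h1 : s e = true <;> by_cases h2 : n e t = 0 <;> simp [h1, h2]
    simp only [this]
    rw [Finset.prod_boole]
    simp
  have hint : ν.real {t | ∀ e, (s e = true ↔ n e t ≠ 0)} =
      ∑ T ∈ (Finset.univ.filter fun e => s e = true).powerset,
        (-1) ^ T.card * ν.real {t | ∀ e ∈ T ∪ (Finset.univ.filter fun e => ¬ s e = true), n e t = 0} := by
    rw [← integral_indicator_one hm]
    simp only [hpt]
    rw [integral_finsetSum _ fun T _ => (Va_int ν n hn _).1.const_mul _]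
    refine Finset.sum_congr rfl fun T _ => ?_
    rw [integral_const_mul, (Va_int ν n hn _).2]
  rw [hint, rho, Va_id w s, Finset.mul_sum, ← Finset.sum_sub_distrib]
  refine (Finset.abs_sum_le_sum_abs _ _).trans ?_
  have hterm : ∀ T ∈ (Finset.univ.filter fun e => s e = true).powerset,
      |(-1) ^ T.card * ν.real {t | ∀ e ∈ T ∪ (Finset.univ.filter fun e => ¬ s e = true), n e t = 0} -
        b * ((-1) ^ T.card * ∏ e ∈ T ∪ (Finset.univ.filter fun e => ¬ s e = true), w e)| ≤ ε' := by
    intro T _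
    have := H1 (T ∪ (Finset.univ.filter fun e => ¬ s e = true))
    rw [show (-1) ^ T.card * ν.real {t | ∀ e ∈ T ∪ (Finset.univ.filter fun e => ¬ s e = true), n e t = 0} -
        b * ((-1) ^ T.card * ∏ e ∈ T ∪ (Finset.univ.filter fun e => ¬ s e = true), w e) =
        (-1) ^ T.card * (ν.real {t | ∀ e ∈ T ∪ (Finset.univ.filter fun e => ¬ s e = true), n e t = 0} -
        b * ∏ e ∈ T ∪ (Finset.univ.filter fun e => ¬ s e = true), w e) by ring, abs_mul, abs_pow, abs_neg, abs_one,
      one_pow, one_mul]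
    exact this
  refine (Finset.sum_le_sum hterm).trans ?_
  rw [Finset.sum_const, Finset.card_powerset, nsmul_eq_mul]
  refine mul_le_mul_of_nonneg_right ?_ hε'
  push_cast
  exact pow_le_pow_right₀ (by norm_num) (Finset.card_le_univ _)

theorem Vb_meas {ι : Type} [Fintype ι] (n : ι → ℝ → ℕ) (hn : ∀ e, Measurable (n e)) (s : ι → Bool) :
    MeasurableSet {t | ∀ e, (s e = true ↔ n e t ≠ 0)} := by
  have h1 : {t | ∀ e, (s e = true ↔ n e t ≠ 0)} = ⋂ e, (n e) ⁻¹' {k | s e = true ↔ k ≠ 0} := by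
    ext t; simp
  rw [h1]
  exact MeasurableSet.iInter fun e => (hn e) (MeasurableSet.of_discrete)

theorem Vb_split {ι β' : Type} [Fintype ι] [DecidableEq ι] [DecidableEq β'] (ν : Measure ℝ) [IsFiniteMeasure ν] (n : ι → ℝ → ℕ)
    (hn : ∀ e, Measurable (n e)) (h : (ι → Bool) → β') (r : β') :
    ν.real {t | h (fun e => decide (n e t ≠ 0)) = r} =
      ∑ s ∈ (Finset.univ : Finset (ι → Bool)).filter (fun s => h s = r), ν.real {t | ∀ e, (s e = true ↔ n e t ≠ 0)} := by
  have h1 : {t | h (fun e => decide (n e t ≠ 0)) = r} =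
      ⋃ s ∈ (Finset.univ : Finset (ι → Bool)).filter (fun s => h s = r), {t | ∀ e, (s e = true ↔ n e t ≠ 0)} := by
    ext t
    simp only [Set.mem_ofPred_eq, Set.mem_iUnion, Finset.mem_filter, Finset.mem_univ, true_and, exists_prop]
    constructor
    · intro ht
      exact ⟨fun e => decide (n e t ≠ 0), ht, fun e => by simp⟩
    · rintro ⟨s, hs, hst⟩
      have h2 : (fun e => decide (n e t ≠ 0)) = s := by
        funext e
        have h3 := hst e
        cases h4 : s e
        · rw [h4] at h3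
          simp only [decide_eq_false_iff_not]
          intro h5
          exact absurd (h3.2 h5) (by simp)
        · rw [h4] at h3
          simp only [decide_eq_true_eq]
          exact h3.1 rfl
      rw [h2]; exact hs
  rw [h1, measureReal_biUnion_finset]
  · intro s _ s' _ hss
    rw [Function.onFun, Set.disjoint_left]
    intro t ht ht'
    apply hss
    funext e
    have h2 := ht e
    have h3 := ht' e
    exact Bool.eq_iff_iff.2 (h2.trans h3.symm)
  · intro s _
    exact Vb_meas n hn s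

/-- ROW Vb. `{t | h (pat t) = r}` is the disjoint union of the sets `{t | ∀ e, s e = true ↔ n e t ≠ 0}`, `h s = r` (there are `2 ^ card` patterns `s`; the sets are
measurable and disjoint); so the sum is at most `∑ s, |ν.real {...} - b * rho w s| ≤ 2^card * (2^card * ε')`. -/
theorem stat_est {ι β' : Type} [Fintype ι] [DecidableEq ι] [DecidableEq β'] (ν : Measure ℝ) [IsFiniteMeasure ν] (n : ι → ℝ → ℕ)
    (hn : ∀ e, Measurable (n e)) {b ε' : ℝ} (hε' : 0 ≤ ε') (w : ι → ℝ)
    (H1 : ∀ S : Finset ι, |ν.real {t | ∀ e ∈ S, n e t = 0} - b * ∏ e ∈ S, w e| ≤ ε') (h : (ι → Bool) → β') (F : Finset β') :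
    ∑ r ∈ F, |ν.real {t | h (fun e => decide (n e t ≠ 0)) = r} -
      b * ∑ s ∈ (Finset.univ : Finset (ι → Bool)).filter (fun s => h s = r), rho w s| ≤ 4 ^ (Fintype.card ι) * ε' := by
  calc ∑ r ∈ F, |ν.real {t | h (fun e => decide (n e t ≠ 0)) = r} -
      b * ∑ s ∈ (Finset.univ : Finset (ι → Bool)).filter (fun s => h s = r), rho w s|
      ≤ ∑ r ∈ F, ∑ s ∈ (Finset.univ : Finset (ι → Bool)).filter (fun s => h s = r),
        |ν.real {t | ∀ e, (s e = true ↔ n e t ≠ 0)} - b * rho w s| := by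
        refine Finset.sum_le_sum fun r _ => ?_
        rw [Vb_split ν n hn h r, Finset.mul_sum, ← Finset.sum_sub_distrib]
        exact Finset.abs_sum_le_sum_abs _ _
    _ ≤ ∑ s : ι → Bool, |ν.real {t | ∀ e, (s e = true ↔ n e t ≠ 0)} - b * rho w s| := by
        rw [← Finset.sum_biUnion]
        · exact Finset.sum_le_sum_of_subset_of_nonneg (Finset.subset_univ _) (fun _ _ _ => abs_nonneg _)
        · intro r _ r' _ hrr
          rw [Function.onFun, Finset.disjoint_left]
          intro s hs hs'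
          rw [Finset.mem_filter] at hs hs'
          exact hrr (hs.2.symm.trans hs'.2)
    _ ≤ ∑ _s : ι → Bool, 2 ^ (Fintype.card ι) * ε' :=
        Finset.sum_le_sum fun s _ => pattern_est ν n hn hε' w H1 s
    _ = 4 ^ (Fintype.card ι) * ε' := by
        rw [Finset.sum_const, Finset.card_univ, Fintype.card_fun, Fintype.card_bool, nsmul_eq_mul]
        push_cast
        rw [← mul_assoc, ← mul_pow]
        norm_num

theorem Vc_sum_le {β' : Type} (ν : Measure ℝ) [IsFiniteMeasure ν] (f : ℝ → β') (G : Set ℝ) (hG : MeasurableSet G)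
    (hf : ∀ r, MeasurableSet {t | f t = r}) (F : Finset β') :
    ∑ r ∈ F, ν.real ({t | f t = r} ∩ G) ≤ ν.real G := by
  rw [← measureReal_biUnion_finset]
  · exact measureReal_mono (Set.iUnion₂_subset fun r _ => Set.inter_subset_right)
  · intro r _ s _ hrs
    rw [Function.onFun, Set.disjoint_left]
    rintro t ⟨h1, _⟩ ⟨h2, _⟩
    exact hrs (h1.symm.trans h2)
  · intro r _
    exact (hf r).inter hG

/-- ROW Vc. Two functions which agree outside `G`: `|ν {f = r} - ν {g = r}| ≤ ν ({f = r} ∩ G) + ν ({g = r} ∩ G)`, and the sums over `r` are at most `ν G`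
(disjoint sets). No measurability of the fibres of `f`, `g` is needed if one uses the measurability hypotheses below. -/
theorem two_fun {β' : Type} [DecidableEq β'] (ν : Measure ℝ) [IsFiniteMeasure ν] (f g : ℝ → β') (G : Set ℝ) (hG : MeasurableSet G)
    (hf : ∀ r, MeasurableSet {t | f t = r}) (hg : ∀ r, MeasurableSet {t | g t = r}) (hfg : ∀ t, t ∉ G → f t = g t) (F : Finset β') :
    ∑ r ∈ F, |ν.real {t | f t = r} - ν.real {t | g t = r}| ≤ 2 * ν.real G := by
  have key : ∀ r, |ν.real {t | f t = r} - ν.real {t | g t = r}| ≤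
      ν.real ({t | f t = r} ∩ G) + ν.real ({t | g t = r} ∩ G) := by
    intro r
    have e1 : ν.real ({t | f t = r} ∩ G) + ν.real ({t | f t = r} \ G) = ν.real {t | f t = r} :=
      measureReal_inter_add_sdiff hG
    have e2 : ν.real ({t | g t = r} ∩ G) + ν.real ({t | g t = r} \ G) = ν.real {t | g t = r} :=
      measureReal_inter_add_sdiff hG
    have e3 : ({t | f t = r} \ G : Set ℝ) = {t | g t = r} \ G := by
      ext t
      constructor
      · rintro ⟨h1, h2⟩
        exact ⟨(hfg t h2).symm.trans h1, h2⟩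
      · rintro ⟨h1, h2⟩
        exact ⟨(hfg t h2).trans h1, h2⟩
    rw [e3] at e1
    have p1 : 0 ≤ ν.real ({t | f t = r} ∩ G) := measureReal_nonneg
    have p2 : 0 ≤ ν.real ({t | g t = r} ∩ G) := measureReal_nonneg
    rw [abs_le]
    constructor <;> linarith
  have h1 := Vc_sum_le ν f G hG hf F
  have h2 := Vc_sum_le ν g G hG hg F
  calc ∑ r ∈ F, |ν.real {t | f t = r} - ν.real {t | g t = r}|
      ≤ ∑ r ∈ F, (ν.real ({t | f t = r} ∩ G) + ν.real ({t | g t = r} ∩ G)) :=
        Finset.sum_le_sum fun r _ => key r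
    _ = ∑ r ∈ F, ν.real ({t | f t = r} ∩ G) + ∑ r ∈ F, ν.real ({t | g t = r} ∩ G) :=
        Finset.sum_add_distrib
    _ ≤ 2 * ν.real G := by linarith

/-- the sum over a set of vectors is at most the sum over the box spanned by it -/
theorem Vd_box {k : ℕ} (F : Finset (Fin (k + 1) → ℕ)) (g : ℕ → (Fin k → ℕ) → ℝ) (hg : ∀ a b, 0 ≤ g a b) :
    ∑ r ∈ F, g (r 0) (fun i => r i.succ) ≤
      ∑ a ∈ F.image (fun r => r 0), ∑ b ∈ F.image (fun r => fun i : Fin k => r i.succ), g a b := by
  classical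
  have hinj : Function.Injective (fun r : Fin (k + 1) → ℕ => ((r 0, fun i : Fin k => r i.succ) : ℕ × (Fin k → ℕ))) := by
    intro r s h
    have h1 : r 0 = s 0 := congrArg Prod.fst h
    have h2 : (fun i : Fin k => r i.succ) = (fun i : Fin k => s i.succ) := congrArg Prod.snd h
    funext i
    refine Fin.cases h1 (fun j => ?_) i
    exact congrFun h2 j
  have e1 : ∑ r ∈ F, g (r 0) (fun i => r i.succ) =
      ∑ x ∈ F.image (fun r : Fin (k + 1) → ℕ => ((r 0, fun i : Fin k => r i.succ) : ℕ × (Fin k → ℕ))), g x.1 x.2 := by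
    rw [Finset.sum_image (fun _ _ _ _ h => hinj h)]
  rw [e1, ← Finset.sum_product']
  refine Finset.sum_le_sum_of_subset_of_nonneg ?_ (fun x _ _ => hg _ _)
  intro x hx
  obtain ⟨r, hr, rfl⟩ := Finset.mem_image.1 hx
  exact Finset.mem_product.2 ⟨Finset.mem_image_of_mem _ hr, Finset.mem_image.2 ⟨r, hr, rfl⟩⟩

/-- the sum of the products over a set of vectors is at most one -/
theorem Vd_one : ∀ (k : ℕ) (Q : Fin k → ℕ → ℝ), (∀ i r, 0 ≤ Q i r) → (∀ i (F : Finset ℕ), ∑ r ∈ F, Q i r ≤ 1) →
    ∀ F : Finset (Fin k → ℕ), ∑ r ∈ F, ∏ i, Q i (r i) ≤ 1 := by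
  intro k
  induction k with
  | zero =>
    intro Q _ _ F
    have h1 : F.card ≤ 1 := Finset.card_le_one_of_subsingleton F
    have h2 : ((F.card : ℕ) : ℝ) ≤ 1 := by exact_mod_cast h1
    simpa using h2
  | succ k ih =>
    intro Q h0 h1 F
    have h2 := Vd_box F (fun a b => Q 0 a * ∏ i : Fin k, Q i.succ (b i))
      (fun a b => mul_nonneg (h0 _ _) (Finset.prod_nonneg fun i _ => h0 _ _))
    have h3 := ih (fun i => Q i.succ) (fun i r => h0 _ _) (fun i F => h1 _ F)
      (F.image (fun r => fun i : Fin k => r i.succ))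
    have h4 := h1 0 (F.image (fun r => r 0))
    calc ∑ r ∈ F, ∏ i, Q i (r i) = ∑ r ∈ F, Q 0 (r 0) * ∏ i : Fin k, Q i.succ (r i.succ) := by
          refine Finset.sum_congr rfl fun r _ => ?_
          rw [Fin.prod_univ_succ]
      _ ≤ ∑ a ∈ F.image (fun r => r 0), ∑ b ∈ F.image (fun r => fun i : Fin k => r i.succ),
            Q 0 a * ∏ i : Fin k, Q i.succ (b i) := h2
      _ = (∑ a ∈ F.image (fun r => r 0), Q 0 a) *
            ∑ b ∈ F.image (fun r => fun i : Fin k => r i.succ), ∏ i : Fin k, Q i.succ (b i) := by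
          rw [Finset.sum_mul_sum]
      _ ≤ 1 * 1 := mul_le_mul h4 h3 (Finset.sum_nonneg fun b _ => Finset.prod_nonneg fun i _ => h0 _ _) (by norm_num)
      _ = 1 := by norm_num

/-- ROW Vd. Induction on `k` (`Fin.consEquiv`, `Fin.prod_univ_succ`): enlarge `F` to a box `Fintype.piFinset` (`F ⊆ piFinset (fun i => F.image (· i))`), and
`|q0 q' - p0 p'| ≤ |q0 - p0| q' + p0 |q' - p'|`; the sum over the box of a product is a product of sums (`Finset.prod_univ_sum`), each at most `1`. -/
theorem prod_tv (k : ℕ) (P Q : Fin k → ℕ → ℝ) (hP0 : ∀ i r, 0 ≤ P i r) (hQ0 : ∀ i r, 0 ≤ Q i r)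
    (hP1 : ∀ i (F : Finset ℕ), ∑ r ∈ F, P i r ≤ 1) (hQ1 : ∀ i (F : Finset ℕ), ∑ r ∈ F, Q i r ≤ 1) {τ : ℝ}
    (hτ : ∀ i (F : Finset ℕ), ∑ r ∈ F, |Q i r - P i r| ≤ τ) (F : Finset (Fin k → ℕ)) :
    ∑ r ∈ F, |∏ i, Q i (r i) - ∏ i, P i (r i)| ≤ k * τ := by
  induction k with
  | zero => simp
  | succ k ih =>
    have hτ0 : 0 ≤ τ := by simpa using hτ 0 ∅
    have h2 := Vd_box F (fun a b => |Q 0 a - P 0 a| * ∏ i : Fin k, Q i.succ (b i) +
        P 0 a * |∏ i : Fin k, Q i.succ (b i) - ∏ i : Fin k, P i.succ (b i)|)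
      (fun a b => add_nonneg (mul_nonneg (abs_nonneg _) (Finset.prod_nonneg fun i _ => hQ0 _ _))
        (mul_nonneg (hP0 _ _) (abs_nonneg _)))
    have h3 := ih (fun i => P i.succ) (fun i => Q i.succ) (fun i r => hP0 _ _) (fun i r => hQ0 _ _)
      (fun i F => hP1 _ F) (fun i F => hQ1 _ F) (fun i F => hτ _ F)
      (F.image (fun r => fun i : Fin k => r i.succ))
    have h4 := hτ 0 (F.image (fun r => r 0))
    have h5 := hP1 0 (F.image (fun r => r 0))
    have h6 := Vd_one k (fun i => Q i.succ) (fun i r => hQ0 _ _) (fun i F => hQ1 _ F)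
      (F.image (fun r => fun i : Fin k => r i.succ))
    calc ∑ r ∈ F, |∏ i, Q i (r i) - ∏ i, P i (r i)|
        ≤ ∑ r ∈ F, (|Q 0 (r 0) - P 0 (r 0)| * ∏ i : Fin k, Q i.succ (r i.succ) +
            P 0 (r 0) * |∏ i : Fin k, Q i.succ (r i.succ) - ∏ i : Fin k, P i.succ (r i.succ)|) := by
          refine Finset.sum_le_sum fun r _ => ?_
          rw [Fin.prod_univ_succ, Fin.prod_univ_succ]
          set A := ∏ i : Fin k, Q i.succ (r i.succ) with hA
          set B := ∏ i : Fin k, P i.succ (r i.succ) with hB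
          have hA0 : 0 ≤ A := Finset.prod_nonneg fun i _ => hQ0 _ _
          have e : Q 0 (r 0) * A - P 0 (r 0) * B = (Q 0 (r 0) - P 0 (r 0)) * A + P 0 (r 0) * (A - B) := by ring
          rw [e]
          refine (abs_add_le _ _).trans ?_
          rw [abs_mul, abs_mul, abs_of_nonneg hA0, abs_of_nonneg (hP0 0 (r 0))]
      _ ≤ ∑ a ∈ F.image (fun r => r 0), ∑ b ∈ F.image (fun r => fun i : Fin k => r i.succ),
            (|Q 0 a - P 0 a| * ∏ i : Fin k, Q i.succ (b i) +
              P 0 a * |∏ i : Fin k, Q i.succ (b i) - ∏ i : Fin k, P i.succ (b i)|) := h2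
      _ = (∑ a ∈ F.image (fun r => r 0), |Q 0 a - P 0 a|) *
            (∑ b ∈ F.image (fun r => fun i : Fin k => r i.succ), ∏ i : Fin k, Q i.succ (b i)) +
          (∑ a ∈ F.image (fun r => r 0), P 0 a) *
            (∑ b ∈ F.image (fun r => fun i : Fin k => r i.succ),
              |∏ i : Fin k, Q i.succ (b i) - ∏ i : Fin k, P i.succ (b i)|) := by
          rw [Finset.sum_mul_sum, Finset.sum_mul_sum, ← Finset.sum_add_distrib]
          refine Finset.sum_congr rfl fun a _ => ?_
          rw [← Finset.sum_add_distrib]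
      _ ≤ τ * 1 + 1 * (k * τ) := by
          refine add_le_add (mul_le_mul h4 h6 (Finset.sum_nonneg fun b _ => Finset.prod_nonneg fun i _ => hQ0 _ _) hτ0)
            (mul_le_mul h5 h3 (Finset.sum_nonneg fun b _ => abs_nonneg _) (by norm_num))
      _ = ((k + 1 : ℕ) : ℝ) * τ := by push_cast; ring

/-- ROW Ve. The patterns `s : Fin k × Fin q → Bool` are the families `(s i)`, `s i : Fin q → Bool` (`Equiv.curry`, `Fintype.piFinset`, `Finset.prod_univ_sum`,
`Fintype.prod_prod_type`). -/
theorem rho_group (k q : ℕ) (w : Fin k × Fin q → ℝ) (r : Fin k → ℕ) :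
    ∑ s ∈ (Finset.univ : Finset (Fin k × Fin q → Bool)).filter
      (fun s => (fun i => (Finset.univ.filter fun j => s (i, j) = true).card) = r), rho w s =
      ∏ i, Qr (fun j => w (i, j)) (r i) := by
  unfold Qr
  rw [Finset.prod_univ_sum]
  refine Finset.sum_equiv (Equiv.curry (Fin k) (Fin q) Bool) ?_ ?_
  · intro s
    simp only [Finset.mem_filter, Finset.mem_univ, true_and, Fintype.mem_piFinset]
    constructor
    · intro h i
      exact congrFun h i
    · intro h
      funext i
      exact h i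
  · intro s _
    unfold rho
    rw [Fintype.prod_prod_type]
    rfl

theorem Vf_one {ι : Type} [Fintype ι] [DecidableEq ι] (w : ι → ℝ) : ∑ s : ι → Bool, rho w s = 1 := by
  have h := Finset.prod_univ_sum (fun _ : ι => (Finset.univ : Finset Bool))
    (fun e b => if b = true then 1 - w e else w e)
  rw [Fintype.piFinset_univ] at h
  unfold rho
  rw [← h]
  apply Finset.prod_eq_one
  intro e _
  rw [Fintype.sum_bool]
  simp

/-- ROW Vf. As `rho_group`, with no condition on the other groups, whose weights sum up to `∏ j, (1 - w + w) = 1`. -/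
theorem rho_marg (k q : ℕ) (w : Fin k × Fin q → ℝ) (i : Fin k) (r : ℕ) :
    ∑ s ∈ (Finset.univ : Finset (Fin k × Fin q → Bool)).filter
      (fun s => (Finset.univ.filter fun j => s (i, j) = true).card = r), rho w s = Qr (fun j => w (i, j)) r := by
  classical
  have h := Finset.prod_univ_sum (fun i' : Fin k => if i' = i then
    (Finset.univ : Finset (Fin q → Bool)).filter (fun g => (Finset.univ.filter fun j => g j = true).card = r)
    else Finset.univ) (fun i' g => rho (fun j => w (i', j)) g)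
  have h1 : ∏ i' : Fin k, ∑ g ∈ (if i' = i then
    (Finset.univ : Finset (Fin q → Bool)).filter (fun g => (Finset.univ.filter fun j => g j = true).card = r)
    else Finset.univ), rho (fun j => w (i', j)) g = Qr (fun j => w (i, j)) r := by
    rw [Finset.prod_eq_single i]
    · rw [if_pos rfl]
      rfl
    · intro b _ hb
      rw [if_neg hb]
      exact Vf_one _
    · intro hi
      exact absurd (Finset.mem_univ i) hi
  rw [← h1, h]
  refine Finset.sum_bij' (fun s _ => fun i' j => s (i', j)) (fun f _ => fun p => f p.1 p.2) ?_ ?_ ?_ ?_ ?_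
  · intro s hs
    rw [Fintype.mem_piFinset]
    intro i'
    by_cases hi : i' = i
    · subst hi
      rw [if_pos rfl, Finset.mem_filter]
      exact ⟨Finset.mem_univ _, (Finset.mem_filter.1 hs).2⟩
    · rw [if_neg hi]
      exact Finset.mem_univ _
  · intro f hf
    rw [Fintype.mem_piFinset] at hf
    have h2 := hf i
    rw [if_pos rfl, Finset.mem_filter] at h2
    rw [Finset.mem_filter]
    exact ⟨Finset.mem_univ _, h2.2⟩
  · intro s _
    rfl
  · intro f _
    rfl
  · intro s _
    unfold rho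
    exact Fintype.prod_prod_type _

theorem Vg_rho_nonneg {ι : Type} [Fintype ι] (w : ι → ℝ) (h0 : ∀ e, 0 ≤ w e) (h1 : ∀ e, w e ≤ 1) (s : ι → Bool) :
    0 ≤ rho w s := by
  unfold rho
  refine Finset.prod_nonneg (fun e _ => ?_)
  split_ifs
  · linarith [h1 e]
  · exact h0 e

theorem Vg_rho_total {ι : Type} [Fintype ι] [DecidableEq ι] (w : ι → ℝ) :
    ∑ s : ι → Bool, rho w s = 1 := by
  have h := Finset.prod_univ_sum (fun _ : ι => (Finset.univ : Finset Bool))
    (fun e b => if b = true then 1 - w e else w e)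
  rw [Fintype.piFinset_univ] at h
  unfold rho
  rw [← h]
  simp

/-- ROW Vg. `0 ≤ Qr`; the sum over all patterns of `rho` is `∏ e, (1 - w e + w e) = 1` (`Finset.prod_univ_sum` or `Fintype.piFinset_univ`), and the fibres are
disjoint. -/
theorem Qr_nonneg {ι : Type} [Fintype ι] [DecidableEq ι] (w : ι → ℝ) (h0 : ∀ e, 0 ≤ w e) (h1 : ∀ e, w e ≤ 1) (r : ℕ) : 0 ≤ Qr w r := by
  unfold Qr
  exact Finset.sum_nonneg (fun s _ => Vg_rho_nonneg w h0 h1 s)

theorem Qr_sum {ι : Type} [Fintype ι] [DecidableEq ι] (w : ι → ℝ) (h0 : ∀ e, 0 ≤ w e) (h1 : ∀ e, w e ≤ 1) (F : Finset ℕ) :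
    ∑ r ∈ F, Qr w r ≤ 1 := by
  refine le_trans ?_ (Vg_rho_total w).le
  unfold Qr
  simp only [Finset.sum_filter]
  rw [Finset.sum_comm]
  refine Finset.sum_le_sum (fun s _ => ?_)
  rw [Finset.sum_ite_eq]
  split_ifs
  · exact le_rfl
  · exact Vg_rho_nonneg w h0 h1 s

end Pool.Agent.Lib.MP_de5eaa_nt.Poi
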