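import Pool.Agent.Lib.MP_de5eaa_nt.Poi.V0

set_option autoImplicit false

namespace Pool.Agent.Lib.MP_de5eaa_nt.Poi

open Finset MeasureTheory Filter Topology

theorem Vh_G {k q : ℕ} (ν : Measure ℝ) [IsFiniteMeasure ν] (n : Fin k × Fin q → ℝ → ℕ) {θ : ℝ}
    (H2 : ∀ e, ν.real {t | 2 ≤ n e t} ≤ θ) : ν.real {t | ∃ e, 2 ≤ n e t} ≤ (k * q) * θ := by
  have h1 : {t | ∃ e, 2 ≤ n e t} = ⋃ e ∈ (Finset.univ : Finset (Fin k × Fin q)), {t | 2 ≤ n e t} := by
    ext t; simp
  rw [h1]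
  refine (measureReal_biUnion_finset_le _ _).trans ?_
  refine (Finset.sum_le_sum fun e _ => H2 e).trans ?_
  simp [Finset.sum_const, Finset.card_univ, Fintype.card_prod]

theorem Vh_one {k q : ℕ} {β' : Type} [DecidableEq β'] (ν : Measure ℝ) [IsFiniteMeasure ν] (n : Fin k × Fin q → ℝ → ℕ)
    (hn : ∀ e, Measurable (n e)) {b ε' θ : ℝ} (hε' : 0 ≤ ε')
    (w : Fin k × Fin q → ℝ)
    (H1 : ∀ S : Finset (Fin k × Fin q), |ν.real {t | ∀ e ∈ S, n e t = 0} - b * ∏ e ∈ S, w e| ≤ ε')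
    (H2 : ∀ e, ν.real {t | 2 ≤ n e t} ≤ θ) (f : ℝ → β') (hf : ∀ r, MeasurableSet {t | f t = r})
    (h : (Fin k × Fin q → Bool) → β') (hfh : ∀ t, (∀ e, n e t < 2) → f t = h (fun e => decide (n e t ≠ 0)))
    (F : Finset β') :
    ∑ r ∈ F, |ν.real {t | f t = r} - b * ∑ s ∈ (Finset.univ : Finset (Fin k × Fin q → Bool)).filter (fun s => h s = r), rho w s| ≤
      4 ^ (k * q) * ε' + 2 * (k * q) * θ := by
  have hpat : Measurable (fun t => (fun e => decide (n e t ≠ 0) : Fin k × Fin q → Bool)) := by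
    refine measurable_pi_iff.2 fun e => ?_
    exact (Measurable.of_discrete (f := fun m : ℕ => decide (m ≠ 0))).comp (hn e)
  have hg : ∀ r, MeasurableSet {t | h (fun e => decide (n e t ≠ 0)) = r} := by
    intro r
    have : MeasurableSet {s : Fin k × Fin q → Bool | h s = r} := (Set.toFinite _).measurableSet
    exact hpat this
  have hG : MeasurableSet {t | ∃ e, 2 ≤ n e t} := by
    have : {t | ∃ e, 2 ≤ n e t} = ⋃ e, {t | 2 ≤ n e t} := by ext t; simp
    rw [this]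
    refine MeasurableSet.iUnion fun e => ?_
    exact hn e (measurableSet_Ici (a := 2))
  have h1 := two_fun ν f (fun t => h (fun e => decide (n e t ≠ 0))) _ hG hf hg
    (fun t ht => hfh t (fun e => by
      by_contra hc
      exact ht ⟨e, not_lt.1 hc⟩)) F
  have h2 := stat_est ν n hn hε' w H1 h F
  have hcard : Fintype.card (Fin k × Fin q) = k * q := by simp
  rw [hcard] at h2
  have h3 := Vh_G ν n H2
  calc ∑ r ∈ F, |ν.real {t | f t = r} - b * ∑ s ∈ (Finset.univ : Finset (Fin k × Fin q → Bool)).filter (fun s => h s = r), rho w s|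
      ≤ ∑ r ∈ F, (|ν.real {t | f t = r} - ν.real {t | h (fun e => decide (n e t ≠ 0)) = r}| +
        |ν.real {t | h (fun e => decide (n e t ≠ 0)) = r} -
          b * ∑ s ∈ (Finset.univ : Finset (Fin k × Fin q → Bool)).filter (fun s => h s = r), rho w s|) :=
        Finset.sum_le_sum fun r _ => abs_sub_le _ _ _
    _ ≤ 4 ^ (k * q) * ε' + 2 * (k * q) * θ := by
        rw [Finset.sum_add_distrib]
        have : 2 * ν.real {t | ∃ e, 2 ≤ n e t} ≤ 2 * (k * q) * θ := by linarith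
        linarith

theorem Vh_card {q : ℕ} (m : Fin q → ℕ) (hm : ∀ j, m j < 2) :
    ∑ j, m j = (Finset.univ.filter fun j => decide (m j ≠ 0) = true).card := by
  rw [Finset.card_filter]
  refine Finset.sum_congr rfl fun j _ => ?_
  have := hm j
  interval_cases h : m j <;> simp

/-- ROW Vh. Let `N i = ∑ j, n (i, j)`, `o i = ` the number of the `j` with `n (i, j) ≠ 0`, `G = {t | ∃ e, 2 ≤ n e t}`, `ν.real G ≤ k q θ` (union bound). Off `G` `N = o`.
(1) `two_fun` for `N`, `o` (vectors, and for each single `i`). (2) `stat_est` with `h s = (fun i => card {j | s (i, j)})`, and `rho_group`. (3) for each `i`: `stat_est` with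
`h s = card {j | s (i, j)}`, `rho_marg`, `two_fun`, `H3`: `b ∑ r ∈ F, |Qr - P i r| ≤ 4^(k q) ε' + 2 k q θ + ε'`. (4) `prod_tv`, applied with `τ = ` that bound divided by `b` if `b > 0`
(if `b = 0` all terms with the factor `b` vanish). -/
theorem joint_abstract {k q : ℕ} (ν : Measure ℝ) [IsFiniteMeasure ν] (n : Fin k × Fin q → ℝ → ℕ) (hn : ∀ e, Measurable (n e))
    {b ε' θ : ℝ} (hb0 : 0 ≤ b) (hε' : 0 ≤ ε') (hθ : 0 ≤ θ)
    (w : Fin k × Fin q → ℝ) (hw0 : ∀ e, 0 ≤ w e) (hw1 : ∀ e, w e ≤ 1)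
    (H1 : ∀ S : Finset (Fin k × Fin q), |ν.real {t | ∀ e ∈ S, n e t = 0} - b * ∏ e ∈ S, w e| ≤ ε')
    (H2 : ∀ e, ν.real {t | 2 ≤ n e t} ≤ θ)
    (P : Fin k → ℕ → ℝ) (hP0 : ∀ i r, 0 ≤ P i r) (hP1 : ∀ i (F : Finset ℕ), ∑ r ∈ F, P i r ≤ 1)
    (H3 : ∀ i (F : Finset ℕ), ∑ r ∈ F, |ν.real {t | ∑ j, n (i, j) t = r} - b * P i r| ≤ ε') (F : Finset (Fin k → ℕ)) :
    ∑ r ∈ F, |ν.real {t | ∀ i, ∑ j, n (i, j) t = r i} - b * ∏ i, P i (r i)| ≤
      (k + 1) * (4 ^ (k * q) * ε' + 2 * (k * q) * θ) + k * ε' := by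
  have hsum : ∀ i, Measurable fun t => ∑ j, n (i, j) t := fun i =>
    Finset.measurable_fun_sum _ fun j _ => hn (i, j)
  have hV := Vh_one ν n hn (b := b) hε' w H1 H2 (fun t i => ∑ j, n (i, j) t)
    (fun r => by
      have : {t | (fun i => ∑ j, n (i, j) t) = r} = ⋂ i, {t | ∑ j, n (i, j) t = r i} := by
        ext t; simp [funext_iff]
      rw [this]
      exact MeasurableSet.iInter fun i => hsum i (measurableSet_singleton (r i)))
    (fun s i => (Finset.univ.filter fun j => s (i, j) = true).card)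
    (fun t ht => funext fun i => Vh_card (fun j => n (i, j) t) fun j => ht (i, j)) F
  have hI : ∀ (i : Fin k) (F' : Finset ℕ), ∑ r ∈ F', |b * Qr (fun j => w (i, j)) r - b * P i r| ≤
      4 ^ (k * q) * ε' + 2 * (k * q) * θ + ε' := by
    intro i F'
    have h1 := Vh_one ν n hn (b := b) hε' w H1 H2 (fun t => ∑ j, n (i, j) t)
      (fun r => hsum i (measurableSet_singleton r))
      (fun s => (Finset.univ.filter fun j => s (i, j) = true).card)
      (fun t ht => Vh_card (fun j => n (i, j) t) fun j => ht (i, j)) F'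
    have h2 := H3 i F'
    calc ∑ r ∈ F', |b * Qr (fun j => w (i, j)) r - b * P i r|
        ≤ ∑ r ∈ F', (|ν.real {t | ∑ j, n (i, j) t = r} -
          b * ∑ s ∈ (Finset.univ : Finset (Fin k × Fin q → Bool)).filter
            (fun s => (Finset.univ.filter fun j => s (i, j) = true).card = r), rho w s| +
          |ν.real {t | ∑ j, n (i, j) t = r} - b * P i r|) := by
          refine Finset.sum_le_sum fun r _ => ?_
          rw [rho_marg]
          refine (abs_sub_le _ (ν.real {t | ∑ j, n (i, j) t = r}) _).trans ?_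
          rw [abs_sub_comm (b * Qr (fun j => w (i, j)) r)]
      _ ≤ _ := by
          rw [Finset.sum_add_distrib]
          exact add_le_add h1 h2
  have hQ0 : ∀ i r, 0 ≤ Qr (fun j => w (i, j)) r := fun i r =>
    Qr_nonneg _ (fun j => hw0 _) (fun j => hw1 _) r
  have hQ1 : ∀ i (F : Finset ℕ), ∑ r ∈ F, Qr (fun j => w (i, j)) r ≤ 1 := fun i F =>
    Qr_sum _ (fun j => hw0 _) (fun j => hw1 _) F
  have hE : 0 ≤ 4 ^ (k * q) * ε' + 2 * (k * q) * θ + ε' := by positivity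
  have hP : b * ∑ r ∈ F, |∏ i, Qr (fun j => w (i, j)) (r i) - ∏ i, P i (r i)| ≤
      k * (4 ^ (k * q) * ε' + 2 * (k * q) * θ + ε') := by
    rcases hb0.eq_or_lt with hb | hb
    · rw [← hb, zero_mul]
      positivity
    · have h1 := prod_tv k P (fun i => Qr (fun j => w (i, j))) hP0 hQ0 hP1 hQ1
        (τ := (4 ^ (k * q) * ε' + 2 * (k * q) * θ + ε') / b)
        (fun i F' => by
          rw [le_div_iff₀ hb, mul_comm, Finset.mul_sum]
          refine le_trans (le_of_eq (Finset.sum_congr rfl fun r _ => ?_)) (hI i F')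
          rw [← mul_sub, abs_mul, abs_of_pos hb]) F
      calc b * ∑ r ∈ F, |∏ i, Qr (fun j => w (i, j)) (r i) - ∏ i, P i (r i)|
          ≤ b * (k * ((4 ^ (k * q) * ε' + 2 * (k * q) * θ + ε') / b)) :=
            mul_le_mul_of_nonneg_left h1 hb.le
        _ = k * (4 ^ (k * q) * ε' + 2 * (k * q) * θ + ε') := by
            field_simp
  calc ∑ r ∈ F, |ν.real {t | ∀ i, ∑ j, n (i, j) t = r i} - b * ∏ i, P i (r i)|
      ≤ ∑ r ∈ F, (|ν.real {t | (fun i => ∑ j, n (i, j) t) = r} -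
          b * ∑ s ∈ (Finset.univ : Finset (Fin k × Fin q → Bool)).filter
            (fun s => (fun i => (Finset.univ.filter fun j => s (i, j) = true).card) = r), rho w s| +
          b * |∏ i, Qr (fun j => w (i, j)) (r i) - ∏ i, P i (r i)|) := by
        refine Finset.sum_le_sum fun r _ => ?_
        rw [rho_group]
        have hset : {t | ∀ i, ∑ j, n (i, j) t = r i} = {t | (fun i => ∑ j, n (i, j) t) = r} := by
          ext t; simp [funext_iff]
        rw [hset]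
        refine (abs_sub_le _ (b * ∏ i, Qr (fun j => w (i, j)) (r i)) _).trans ?_
        rw [← mul_sub b, abs_mul, abs_of_nonneg hb0]
    _ ≤ _ := by
        rw [Finset.sum_add_distrib, ← Finset.mul_sum]
        have := add_le_add hV hP
        refine this.trans (le_of_eq ?_)
        ring

/-- the cells: each of the intervals `[c (2 i), c (2 i + 1)]` is divided into `q` cells `[fine (2 (i q + j)), fine (2 (i q + j) + 1)]` -/
noncomputable def fine (q : ℕ) (c : ℕ → ℝ) (s : ℕ) : ℝ :=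
  c (2 * (s / 2 / q)) + (((s / 2 % q + s % 2 : ℕ) : ℝ)) * ((c (2 * (s / 2 / q) + 1) - c (2 * (s / 2 / q))) / q)

open Classical in
/-- the cells outside `S` are replaced by points -/
noncomputable def sel (c : ℕ → ℝ) (S : Finset ℕ) (s : ℕ) : ℝ := if s % 2 = 1 ∧ s / 2 ∉ S then c (s - 1) else c s

theorem Vi_even {q : ℕ} (hq : 1 ≤ q) (c : ℕ → ℝ) (i j : ℕ) (hj : j < q) :
    fine q c (2 * (i * q + j)) = c (2 * i) + (j : ℝ) * ((c (2 * i + 1) - c (2 * i)) / q) := by
  have h1 : 2 * (i * q + j) / 2 = i * q + j := by omega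
  have h2 : (i * q + j) / q = i := by
    rw [Nat.mul_comm, Nat.mul_add_div (by omega), Nat.div_eq_of_lt hj, Nat.add_zero]
  have h3 : (i * q + j) % q = j := by
    rw [Nat.mul_comm, Nat.mul_add_mod, Nat.mod_eq_of_lt hj]
  have h4 : 2 * (i * q + j) % 2 = 0 := by omega
  unfold fine
  rw [h1, h2, h3, h4, Nat.add_zero]

theorem Vi_odd {q : ℕ} (hq : 1 ≤ q) (c : ℕ → ℝ) (i j : ℕ) (hj : j < q) :
    fine q c (2 * (i * q + j) + 1) = c (2 * i) + ((j : ℝ) + 1) * ((c (2 * i + 1) - c (2 * i)) / q) := by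
  have h1 : (2 * (i * q + j) + 1) / 2 = i * q + j := by omega
  have h2 : (i * q + j) / q = i := by
    rw [Nat.mul_comm, Nat.mul_add_div (by omega), Nat.div_eq_of_lt hj, Nat.add_zero]
  have h3 : (i * q + j) % q = j := by
    rw [Nat.mul_comm, Nat.mul_add_mod, Nat.mod_eq_of_lt hj]
  have h4 : (2 * (i * q + j) + 1) % 2 = 1 := by omega
  unfold fine
  rw [h1, h2, h3, h4]
  push_cast
  ring

theorem Vi_split {q : ℕ} (hq : 1 ≤ q) (s : ℕ) : ∃ i j : ℕ, j < q ∧ (s = 2 * (i * q + j) ∨ s = 2 * (i * q + j) + 1) := by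
  refine ⟨s / 2 / q, s / 2 % q, Nat.mod_lt _ (by omega), ?_⟩
  have h : s / 2 / q * q + s / 2 % q = s / 2 := Nat.div_add_mod' _ _
  rw [h]
  omega

/-- ROW Vi. `fine` at `2 e`, `2 e + 1` with `e = i q + j`, `j < q` (`i = e / q`); consecutive values: within a cell, from the end of a cell to the beginning of the next one
(equal, or a step from `c (2 i + 1)` to `c (2 i + 2)` if `j = q - 1`). `monotone_nat_of_le_succ`. -/
theorem fine_mono {q : ℕ} (hq : 1 ≤ q) {c : ℕ → ℝ} (hc : Monotone c) : Monotone (fine q c) := by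
  have hq0 : (0 : ℝ) < q := by exact_mod_cast hq
  refine monotone_nat_of_le_succ fun s => ?_
  obtain ⟨i, j, hj, rfl | rfl⟩ := Vi_split hq s
  · rw [Vi_even hq c i j hj, Vi_odd hq c i j hj]
    have h1 : 0 ≤ (c (2 * i + 1) - c (2 * i)) / q := div_nonneg (sub_nonneg.2 (hc (by omega))) hq0.le
    nlinarith
  · have h1 : 0 ≤ (c (2 * i + 1) - c (2 * i)) / q := div_nonneg (sub_nonneg.2 (hc (by omega))) hq0.le
    rcases Nat.lt_or_ge (j + 1) q with h | h
    · have e1 : 2 * (i * q + j) + 1 + 1 = 2 * (i * q + (j + 1)) := by ring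
      rw [e1, Vi_odd hq c i j hj, Vi_even hq c i (j + 1) h]
      push_cast
      exact le_rfl
    · have e2 : j + 1 = q := by omega
      have e1 : 2 * (i * q + j) + 1 + 1 = 2 * ((i + 1) * q + 0) := by
        rw [← e2]
        ring
      rw [e1, Vi_odd hq c i j hj, Vi_even hq c (i + 1) 0 (by omega)]
      have e3 : ((j : ℝ) + 1) = (q : ℝ) := by exact_mod_cast e2
      rw [e3, mul_div_cancel₀ _ hq0.ne']
      have h2 : c (2 * i + 1) ≤ c (2 * (i + 1)) := hc (by omega)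
      push_cast
      linarith

theorem fine_bound {q : ℕ} (hq : 1 ≤ q) {c : ℕ → ℝ} (hc : Monotone c) {B : ℝ} (hB : ∀ i, |c i| ≤ B) (s : ℕ) : |fine q c s| ≤ B := by
  have hq0 : (0 : ℝ) < q := by exact_mod_cast hq
  obtain ⟨i, j, hj, hs⟩ := Vi_split hq s
  obtain ⟨d, hd⟩ : ∃ d : ℝ, d = (c (2 * i + 1) - c (2 * i)) / q := ⟨_, rfl⟩
  have hd0 : 0 ≤ d := by
    rw [hd]
    exact div_nonneg (sub_nonneg.2 (hc (by omega))) hq0.le
  have hqd : (q : ℝ) * d = c (2 * i + 1) - c (2 * i) := by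
    rw [hd, mul_div_cancel₀ _ hq0.ne']
  have hj0 : (0 : ℝ) ≤ (j : ℝ) := Nat.cast_nonneg j
  have hj1 : (j : ℝ) + 1 ≤ (q : ℝ) := by exact_mod_cast hj
  have h1 := abs_le.1 (hB (2 * i))
  have h2 := abs_le.1 (hB (2 * i + 1))
  have h3 : 0 ≤ (j : ℝ) * d := mul_nonneg hj0 hd0
  have h4 : ((j : ℝ) + 1) * d ≤ q * d := mul_le_mul_of_nonneg_right hj1 hd0
  rcases hs with rfl | rfl
  · rw [Vi_even hq c i j hj, ← hd, abs_le]
    constructor <;> nlinarith
  · rw [Vi_odd hq c i j hj, ← hd, abs_le]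
    constructor <;> nlinarith

theorem fine_len {q : ℕ} (hq : 1 ≤ q) (c : ℕ → ℝ) (i j : ℕ) (hj : j < q) :
    fine q c (2 * (i * q + j) + 1) - fine q c (2 * (i * q + j)) = (c (2 * i + 1) - c (2 * i)) / q := by
  rw [Vi_even hq c i j hj, Vi_odd hq c i j hj]
  ring

theorem Vj_fine_even {q : ℕ} (hq : 1 ≤ q) (c : ℕ → ℝ) (i j : ℕ) (hj : j < q) :
    fine q c (2 * (i * q + j)) = c (2 * i) + (j : ℝ) * ((c (2 * i + 1) - c (2 * i)) / q) := by
  have h1 : 2 * (i * q + j) / 2 = i * q + j := by omega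
  have h2 : (i * q + j) / q = i := by
    rw [Nat.mul_comm, Nat.mul_add_div (by omega), Nat.div_eq_of_lt hj, Nat.add_zero]
  have h3 : (i * q + j) % q = j := by
    rw [Nat.mul_comm, Nat.mul_add_mod, Nat.mod_eq_of_lt hj]
  have h4 : 2 * (i * q + j) % 2 = 0 := by omega
  unfold fine
  rw [h1, h2, h3, h4, Nat.add_zero]

theorem Vj_fine_odd {q : ℕ} (hq : 1 ≤ q) (c : ℕ → ℝ) (i j : ℕ) (hj : j < q) :
    fine q c (2 * (i * q + j) + 1) = c (2 * i) + ((j : ℝ) + 1) * ((c (2 * i + 1) - c (2 * i)) / q) := by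
  have h1 : (2 * (i * q + j) + 1) / 2 = i * q + j := by omega
  have h2 : (i * q + j) / q = i := by
    rw [Nat.mul_comm, Nat.mul_add_div (by omega), Nat.div_eq_of_lt hj, Nat.add_zero]
  have h3 : (i * q + j) % q = j := by
    rw [Nat.mul_comm, Nat.mul_add_mod, Nat.mod_eq_of_lt hj]
  have h4 : (2 * (i * q + j) + 1) % 2 = 1 := by omega
  unfold fine
  rw [h1, h2, h3, h4]
  push_cast
  ring

theorem Vj_steps (a d x : ℝ) (hx : a ≤ x) : ∀ n : ℕ, 1 ≤ n → x ≤ a + (n : ℝ) * d →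
    ∃ j < n, a + (j : ℝ) * d ≤ x ∧ x ≤ a + ((j : ℝ) + 1) * d := by
  intro n
  induction n with
  | zero => intro h; omega
  | succ n ih =>
    intro _ h
    by_cases h1 : a + (n : ℝ) * d ≤ x
    · refine ⟨n, Nat.lt_succ_self n, h1, ?_⟩
      push_cast at h
      exact h
    · rcases Nat.eq_zero_or_pos n with rfl | hn
      · exfalso
        apply h1
        simpa using hx
      · obtain ⟨j, hj, h2, h3⟩ := ih hn (le_of_lt (not_le.1 h1))
        exact ⟨j, Nat.lt_succ_of_lt hj, h2, h3⟩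

/-- ROW Vj. -/
theorem fine_cover {q : ℕ} (hq : 1 ≤ q) {c : ℕ → ℝ} (hc : Monotone c) (i : ℕ) (x : ℝ) :
    x ∈ Set.Icc (c (2 * i)) (c (2 * i + 1)) ↔
      ∃ e ∈ Ico (i * q) (i * q + q), x ∈ Set.Icc (fine q c (2 * e)) (fine q c (2 * e + 1)) := by
  have hq0 : (0 : ℝ) < q := by exact_mod_cast hq
  have hcc : c (2 * i) ≤ c (2 * i + 1) := hc (Nat.le_succ _)
  obtain ⟨d, hd⟩ : ∃ d, d = (c (2 * i + 1) - c (2 * i)) / q := ⟨_, rfl⟩
  have hd0 : 0 ≤ d := by
    rw [hd]
    exact div_nonneg (by linarith) hq0.le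
  have hqd : (q : ℝ) * d = c (2 * i + 1) - c (2 * i) := by
    rw [hd]
    field_simp
  constructor
  · rintro ⟨h1, h2⟩
    obtain ⟨j, hj, h3, h4⟩ := Vj_steps (c (2 * i)) d x h1 q hq (by rw [hqd]; linarith)
    refine ⟨i * q + j, Finset.mem_Ico.2 ⟨by omega, by omega⟩, ?_, ?_⟩
    · rw [Vj_fine_even hq c i j hj, ← hd]
      exact h3
    · rw [Vj_fine_odd hq c i j hj, ← hd]
      exact h4
  · rintro ⟨e, he, h1, h2⟩
    obtain ⟨he1, he2⟩ := Finset.mem_Ico.1 he
    obtain ⟨j, rfl⟩ := Nat.exists_eq_add_of_le he1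
    have hj : j < q := by omega
    rw [Vj_fine_even hq c i j hj, ← hd] at h1
    rw [Vj_fine_odd hq c i j hj, ← hd] at h2
    have hj0 : (0 : ℝ) ≤ (j : ℝ) := Nat.cast_nonneg j
    have hj1 : (j : ℝ) + 1 ≤ (q : ℝ) := by exact_mod_cast hj
    constructor
    · have := mul_nonneg hj0 hd0
      linarith
    · have := mul_le_mul_of_nonneg_right hj1 hd0
      linarith

theorem Vk_even (c : ℕ → ℝ) (S : Finset ℕ) (e : ℕ) : sel c S (2 * e) = c (2 * e) := by
  unfold sel
  rw [if_neg (by omega)]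

theorem Vk_odd_mem (c : ℕ → ℝ) {S : Finset ℕ} {e : ℕ} (he : e ∈ S) :
    sel c S (2 * e + 1) = c (2 * e + 1) := by
  unfold sel
  have h1 : (2 * e + 1) / 2 = e := by omega
  rw [if_neg]
  rw [h1]
  exact fun h => h.2 he

theorem Vk_odd_not (c : ℕ → ℝ) {S : Finset ℕ} {e : ℕ} (he : e ∉ S) :
    sel c S (2 * e + 1) = c (2 * e) := by
  unfold sel
  have h1 : (2 * e + 1) / 2 = e := by omega
  have h2 : (2 * e + 1) % 2 = 1 := by omega
  rw [if_pos (by rw [h1]; exact ⟨h2, he⟩), Nat.add_sub_cancel]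

/-- ROW Vk. -/
theorem sel_mono {c : ℕ → ℝ} (hc : Monotone c) (S : Finset ℕ) : Monotone (sel c S) := by
  refine monotone_nat_of_le_succ fun s => ?_
  rcases Nat.even_or_odd' s with ⟨e, rfl | rfl⟩
  · rw [Vk_even]
    by_cases he : e ∈ S
    · rw [Vk_odd_mem c he]
      exact hc (Nat.le_succ _)
    · rw [Vk_odd_not c he]
  · have h1 : sel c S (2 * e + 1 + 1) = c (2 * (e + 1)) := by
      rw [show 2 * e + 1 + 1 = 2 * (e + 1) by ring, Vk_even]
    rw [h1]
    by_cases he : e ∈ S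
    · rw [Vk_odd_mem c he]
      exact hc (by omega)
    · rw [Vk_odd_not c he]
      exact hc (by omega)

theorem sel_even (c : ℕ → ℝ) (S : Finset ℕ) (e : ℕ) : sel c S (2 * e) = c (2 * e) :=
  Vk_even c S e

theorem sel_Jlen (c : ℕ → ℝ) {K : ℕ} {S : Finset ℕ} (hS : S ⊆ range K) :
    Jlen K (sel c S) = ∑ e ∈ S, (c (2 * e + 1) - c (2 * e)) := by
  unfold Jlen
  rw [← Finset.sum_subset hS]
  · refine Finset.sum_congr rfl fun e he => ?_
    rw [Vk_even, Vk_odd_mem c he]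
  · intro e _ he
    rw [Vk_even, Vk_odd_not c he, sub_self]

theorem sel_mem (c : ℕ → ℝ) {K : ℕ} {S : Finset ℕ} (hS : S ⊆ range K) {x : ℝ} (hx : ∀ s, x ≠ c s) :
    x ∈ Jset K (sel c S) ↔ ∃ e ∈ S, x ∈ Set.Icc (c (2 * e)) (c (2 * e + 1)) := by
  constructor
  · rintro ⟨e, _, h1, h2⟩
    rw [Vk_even] at h1
    by_cases he : e ∈ S
    · rw [Vk_odd_mem c he] at h2
      exact ⟨e, he, h1, h2⟩
    · rw [Vk_odd_not c he] at h2
      exact absurd (le_antisymm h2 h1) (hx _)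
  · rintro ⟨e, he, h1, h2⟩
    refine ⟨e, Finset.mem_range.1 (hS he), ?_, ?_⟩
    · rw [Vk_even]
      exact h1
    · rw [Vk_odd_mem c he]
      exact h2

/-- ROW Vl. The set `Z` of the `t` with `L (y n - t - a) = c s` for some `n ∈ D`, `a : ℤ`, `s : ℕ` is countable (`Set.Countable.ae_notMem`). For `t ∉ Z` and `n ∈ D`: `Hit J L t (y n)`
iff `Hit (cell e) L t (y n)` for some `e ∈ T`, and then for only one `e`: if `L (y - t - a) ∈ cell e`, `L (y - t - a') ∈ cell e'`, `e < e'`, then `L |a - a'| ≤ 2 B < L`, so `a = a'`, and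
`c (2 e + 1) ≤ c (2 e')`, so `L (y - t - a) = c (2 e + 1)`, a contradiction. `Finset.card_biUnion`. -/
theorem ae_add {c : ℕ → ℝ} (hc : Monotone c) {B : ℝ} (hB : ∀ i, |c i| ≤ B) {L : ℝ} (hL : 2 * B < L) (hL0 : 0 < L) (D : Finset ℕ) (y : ℕ → ℝ)
    (T : Finset ℕ) {J : Set ℝ}
    (hJ : ∀ x : ℝ, (∀ s, x ≠ c s) → (x ∈ J ↔ ∃ e ∈ T, x ∈ Set.Icc (c (2 * e)) (c (2 * e + 1)))) :
    ∀ᵐ t : ℝ, cnt J L D y t = ∑ e ∈ T, cnt (Set.Icc (c (2 * e)) (c (2 * e + 1))) L D y t := by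
  classical
  have hcount : (⋃ n ∈ D, ⋃ a : ℤ, ⋃ s : ℕ, {t : ℝ | L * (y n - t - a) = c s}).Countable := by
    refine Set.Countable.biUnion D.countable_toSet fun n _ => ?_
    refine Set.countable_iUnion fun a => Set.countable_iUnion fun s => ?_
    refine Set.Subsingleton.countable ?_
    intro t ht t' ht'
    have h : L * (y n - t - a) = L * (y n - t' - a) := by
      rw [Set.mem_ofPred_eq] at ht ht'
      rw [ht, ht']
    have h1 := mul_left_cancel₀ hL0.ne' h
    linarith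
  filter_upwards [hcount.ae_notMem volume] with t ht
  have hne : ∀ n ∈ D, ∀ a : ℤ, ∀ s, L * (y n - t - a) ≠ c s := by
    intro n hn a s h
    apply ht
    simp only [Set.mem_iUnion]
    exact ⟨n, hn, a, s, h⟩
  have hset : D.filter (fun n => Hit J L t (y n)) =
      T.biUnion (fun e => D.filter (fun n => Hit (Set.Icc (c (2 * e)) (c (2 * e + 1))) L t (y n))) := by
    ext n
    simp only [Finset.mem_filter, Finset.mem_biUnion]
    constructor
    · rintro ⟨hn, a, ha⟩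
      obtain ⟨e, he, hx⟩ := (hJ _ (hne n hn a)).1 ha
      exact ⟨e, he, hn, a, hx⟩
    · rintro ⟨e, he, hn, a, hx⟩
      exact ⟨hn, a, (hJ _ (hne n hn a)).2 ⟨e, he, hx⟩⟩
  have key : ∀ e e' : ℕ, e < e' → ∀ n ∈ D, Hit (Set.Icc (c (2 * e)) (c (2 * e + 1))) L t (y n) →
      Hit (Set.Icc (c (2 * e')) (c (2 * e' + 1))) L t (y n) → False := by
    rintro e e' hee n hn ⟨a, ha1, ha2⟩ ⟨a', hb1, hb2⟩
    have h1 := (abs_le.1 (hB (2 * e))).1
    have h2 := (abs_le.1 (hB (2 * e + 1))).2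
    have h3 := (abs_le.1 (hB (2 * e'))).1
    have h4 := (abs_le.1 (hB (2 * e' + 1))).2
    have h5 : L * ((a : ℝ) - a') < L * 1 := by
      have : L * ((a : ℝ) - a') = L * (y n - t - a') - L * (y n - t - a) := by ring
      linarith
    have h6 : L * ((a' : ℝ) - a) < L * 1 := by
      have : L * ((a' : ℝ) - a) = L * (y n - t - a) - L * (y n - t - a') := by ring
      linarith
    have h7 : (a : ℝ) - a' < 1 := lt_of_mul_lt_mul_left h5 hL0.le
    have h8 : (a' : ℝ) - a < 1 := lt_of_mul_lt_mul_left h6 hL0.le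
    have h9 : a - a' < 1 := by exact_mod_cast h7
    have h10 : a' - a < 1 := by exact_mod_cast h8
    have haa : a = a' := by omega
    subst haa
    have hm : c (2 * e + 1) ≤ c (2 * e') := hc (by omega)
    exact hne n hn a (2 * e + 1) (le_antisymm ha2 (hm.trans hb1))
  have hcard : (D.filter (fun n => Hit J L t (y n))).card =
      ∑ e ∈ T, (D.filter (fun n => Hit (Set.Icc (c (2 * e)) (c (2 * e + 1))) L t (y n))).card := by
    rw [hset]
    refine Finset.card_biUnion ?_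
    intro e _ e' _ hee
    rw [Function.onFun, Finset.disjoint_left]
    intro n hn hn'
    rw [Finset.mem_filter] at hn hn'
    rcases lt_or_gt_of_ne hee with h | h
    · exact key e e' h n hn.1 hn.2 hn'.2
    · exact key e' e h n hn.1 hn'.2 hn.2
  unfold cnt
  exact hcard

/-- ROW Vm. `e^(-m) ≥ 1 - m`. -/
theorem two_le_bound {m : ℝ} (hm : 0 ≤ m) : 1 - Real.exp (-m) - m * Real.exp (-m) ≤ m ^ 2 := by
  have h := Real.add_one_le_exp (-m)
  have h2 : 0 ≤ (1 + m) * (Real.exp (-m) - (-m + 1)) := mul_nonneg (by linarith) (by linarith)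
  nlinarith [h2]

/-- `t ↦ cnt` is measurable (see `measurable_cnt` or `P5`) -/
theorem cnt_meas (a b L : ℝ) (D : Finset ℕ) (y : ℕ → ℝ) : Measurable fun t => cnt (Set.Icc a b) L D y t := by
  exact meas_cnt measurableSet_Icc L D y

end Pool.Agent.Lib.MP_de5eaa_nt.Poi
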