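import Pool.Agent.Lib.MP_de5eaa_nt.Poi.V1

set_option autoImplicit false

namespace Pool.Agent.Lib.MP_de5eaa_nt.Poi

open Finset MeasureTheory Filter Topology

/-- the number of the hits in the cell `e` -/
noncomputable def ncell (q : ℕ) (c : ℕ → ℝ) (L : ℝ) (D : Finset ℕ) (y : ℕ → ℝ) (e : ℕ) (t : ℝ) : ℕ :=
  cnt (Set.Icc (fine q c (2 * e)) (fine q c (2 * e + 1))) L D y t

/-- the number of a cell -/
def cidx {k q : ℕ} (e : Fin k × Fin q) : ℕ := e.1 * q + e.2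

/-- the hypothesis on the unions of `K` intervals -/
def VHyp (K : ℕ) (B ε' : ℝ) (L : ℕ) (D : Finset ℕ) (y : ℕ → ℝ) (α β : ℝ) : Prop :=
  ∀ c : ℕ → ℝ, Monotone c → -B ≤ c 0 → c (2 * K) ≤ B → ∀ F : Finset ℕ,
    ∑ r ∈ F, |pvl (Jset K c) L D y r α β - (β - α) * poi (Jlen K c * D.card / L) r| ≤ ε'

/-- ROW Vn. `VHyp` for `sel (fine q c) S`, with `sel_mono`, `fine_mono`, `fine_bound`, `sel_Jlen`, and `pvl (Jset ..) .. r` is the measure of `{∑ e ∈ S, ncell = r}` by `ae_add` (with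
`hJ` from `sel_mem`), `measure_congr`. -/
theorem sel_law {k q : ℕ} (hq : 1 ≤ q) {B : ℝ} {ε' : ℝ} {L : ℕ} {D : Finset ℕ} {y : ℕ → ℝ} {α β : ℝ}
    (hL : 2 * B < L) (hL0 : 0 < L) (Hyp : VHyp (k * q) B ε' L D y α β)
    {c : ℕ → ℝ} (hc : Monotone c) (hcB : ∀ i, |c i| ≤ B) {S : Finset ℕ} (hS : S ⊆ range (k * q)) (F : Finset ℕ) :
    ∑ r ∈ F, |(volume.restrict (Set.Ioc α β)).real {t | ∑ e ∈ S, ncell q c L D y e t = r} -
      (β - α) * poi ((∑ e ∈ S, (fine q c (2 * e + 1) - fine q c (2 * e))) * D.card / L) r| ≤ ε' := by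
  have hm : Monotone (fine q c) := fine_mono hq hc
  have hb : ∀ s, |fine q c s| ≤ B := fine_bound hq hc hcB
  have h0 : -B ≤ sel (fine q c) S 0 := by
    have h1 := sel_even (fine q c) S 0
    rw [Nat.mul_zero] at h1
    rw [h1]
    exact (abs_le.1 (hb 0)).1
  have h2 : sel (fine q c) S (2 * (k * q)) ≤ B := by
    rw [sel_even]
    exact (abs_le.1 (hb _)).2
  have h := Hyp (sel (fine q c) S) (sel_mono hm S) h0 h2 F
  refine le_trans (le_of_eq ?_) h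
  refine Finset.sum_congr rfl fun r _ => ?_
  have hae := ae_add hm hb hL (Nat.cast_pos.2 hL0) D y S (J := Jset (k * q) (sel (fine q c) S))
    (fun x hx => sel_mem (fine q c) hS hx)
  have hmeas : (volume.restrict (Set.Ioc α β)).real {t | ∑ e ∈ S, ncell q c L D y e t = r} =
      pvl (Jset (k * q) (sel (fine q c) S)) L D y r α β := by
    unfold pvl
    rw [measureReal_def, Measure.restrict_apply' measurableSet_Ioc]
    have hset : ({t | ∑ e ∈ S, ncell q c L D y e t = r} : Set ℝ) =ᵐ[volume]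
        ({t | cnt (Jset (k * q) (sel (fine q c) S)) L D y t = r} : Set ℝ) := by
      refine Filter.eventuallyEq_set.2 (hae.mono fun t ht => ?_)
      show ∑ e ∈ S, ncell q c L D y e t = r ↔ cnt (Jset (k * q) (sel (fine q c) S)) L D y t = r
      rw [ht]
      rfl
    exact congrArg ENNReal.toReal (measure_congr (ae_eq_set_inter hset (ae_eq_refl (Set.Ioc α β))))
  rw [hmeas, sel_Jlen _ hS]

theorem Vo_cidx_inj {k q : ℕ} : Function.Injective (cidx : Fin k × Fin q → ℕ) := by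
  rintro ⟨i, j⟩ ⟨i', j'⟩ h
  have hq : 0 < q := lt_of_le_of_lt (Nat.zero_le _) j.2
  have h' : (i : ℕ) * q + j = i' * q + j' := h
  have h1 : (i : ℕ) = i' := by
    have e1 : ((i : ℕ) * q + j) / q = i := by
      rw [mul_comm, Nat.mul_add_div hq, Nat.div_eq_of_lt j.2, add_zero]
    have e2 : ((i' : ℕ) * q + j') / q = i' := by
      rw [mul_comm, Nat.mul_add_div hq, Nat.div_eq_of_lt j'.2, add_zero]
    rw [← e1, ← e2, h']
  have h2 : (j : ℕ) = j' := by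
    rw [h1] at h'
    exact Nat.add_left_cancel h'
  exact Prod.ext (Fin.ext h1) (Fin.ext h2)

theorem Vo_cidx_lt {k q : ℕ} (e : Fin k × Fin q) : cidx e < k * q := by
  have h1 : (e.1 : ℕ) + 1 ≤ k := e.1.2
  have h2 : (e.2 : ℕ) < q := e.2.2
  have h3 : ((e.1 : ℕ) + 1) * q ≤ k * q := Nat.mul_le_mul_right q h1
  have h4 : ((e.1 : ℕ) + 1) * q = (e.1 : ℕ) * q + q := by ring
  show (e.1 : ℕ) * q + e.2 < k * q
  omega

theorem Vo_poi_zero (a : ℝ) : poi a 0 = Real.exp (-a) := by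
  simp [poi]

/-- ROW Vo. `sel_law` for the image of `S` under `cidx` (injective), `F = {0}`; `poi a 0 = exp (-a)`, `Real.exp_sum`, `fine_len`. -/
theorem cell_void {k q : ℕ} (hq : 1 ≤ q) {B : ℝ} {ε' : ℝ} {L : ℕ} {D : Finset ℕ} {y : ℕ → ℝ} {α β : ℝ}
    (hL : 2 * B < L) (hL0 : 0 < L) (Hyp : VHyp (k * q) B ε' L D y α β)
    {c : ℕ → ℝ} (hc : Monotone c) (hcB : ∀ i, |c i| ≤ B) (S : Finset (Fin k × Fin q)) :
    |(volume.restrict (Set.Ioc α β)).real {t | ∀ e ∈ S, ncell q c L D y (cidx e) t = 0} -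
      (β - α) * ∏ e ∈ S, Real.exp (-((c (2 * e.1 + 1) - c (2 * e.1)) / q * D.card / L))| ≤ ε' := by
  classical
  have hS : S.image cidx ⊆ range (k * q) := by
    intro a ha
    obtain ⟨e, -, rfl⟩ := Finset.mem_image.1 ha
    exact Finset.mem_range.2 (Vo_cidx_lt e)
  have h := sel_law hq hL hL0 Hyp hc hcB hS {0}
  rw [Finset.sum_singleton, Vo_poi_zero] at h
  have h1 : {t : ℝ | ∑ e ∈ S.image cidx, ncell q c L D y e t = 0} =
      {t : ℝ | ∀ e ∈ S, ncell q c L D y (cidx e) t = 0} := by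
    ext t
    simp only [Set.mem_setOf_eq, Finset.sum_eq_zero_iff, Finset.mem_image, forall_exists_index, and_imp,
      forall_apply_eq_imp_iff₂]
  have h2 : Real.exp (-((∑ e ∈ S.image cidx, (fine q c (2 * e + 1) - fine q c (2 * e))) * D.card / L)) =
      ∏ e ∈ S, Real.exp (-((c (2 * e.1 + 1) - c (2 * e.1)) / q * D.card / L)) := by
    rw [← Real.exp_sum]
    refine congrArg Real.exp ?_
    rw [Finset.sum_image fun a _ b _ hab => Vo_cidx_inj hab, Finset.sum_neg_distrib, Finset.sum_mul, Finset.sum_div]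
    refine congrArg Neg.neg (Finset.sum_congr rfl fun e _ => ?_)
    have h3 : fine q c (2 * cidx e + 1) - fine q c (2 * cidx e) =
        (c (2 * e.1 + 1) - c (2 * e.1)) / q := fine_len hq c e.1 e.2 e.2.2
    rw [h3]
  rw [h1, h2] at h
  exact h

theorem Vp_cidx {k q : ℕ} (e : Fin k × Fin q) : cidx e < k * q := by
  have h1 := e.1.2
  have h2 := e.2.2
  have h3 : (e.1 + 1 : ℕ) * q ≤ k * q := Nat.mul_le_mul_right q h1
  unfold cidx
  nlinarith

/-- ROW Vp. `sel_law` for `S = {cidx e}`, `F = {0, 1}`; the measure of `(α, β]` is `β - α ≤ 1`, so the measure of `{2 ≤ ncell}` is `(β - α)` minus those of `{ncell = 0}`,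
`{ncell = 1}`; `two_le_bound` with `m = (c (2 i + 1) - c (2 i)) / q * |D| / L ≤ 2 B / q`. -/
theorem cell_two {k q : ℕ} (hq : 1 ≤ q) {B : ℝ} (hB : 0 ≤ B) {ε' : ℝ} {L : ℕ} {D : Finset ℕ} {y : ℕ → ℝ} {α β : ℝ}
    (hL : 2 * B < L) (hL0 : 0 < L) (hD : D.card ≤ L) (hαβ : α ≤ β) (hβ : β ≤ α + 1) (Hyp : VHyp (k * q) B ε' L D y α β)
    {c : ℕ → ℝ} (hc : Monotone c) (hcB : ∀ i, |c i| ≤ B) (e : Fin k × Fin q) :
    (volume.restrict (Set.Ioc α β)).real {t | 2 ≤ ncell q c L D y (cidx e) t} ≤ (2 * B / q) ^ 2 + ε' := by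
  set ν := volume.restrict (Set.Ioc α β) with hν
  set N : ℝ → ℕ := fun t => ncell q c L D y (cidx e) t with hN
  set m : ℝ := (c (2 * e.1 + 1) - c (2 * e.1)) / q * D.card / L with hm
  have hNm : Measurable N := cnt_meas _ _ _ _ _
  have h := sel_law (k := k) hq hL hL0 Hyp hc hcB (S := {cidx e})
    (Finset.singleton_subset_iff.2 (Finset.mem_range.2 (Vp_cidx e))) {0, 1}
  simp only [Finset.sum_singleton] at h
  rw [Finset.sum_pair (by norm_num : (0 : ℕ) ≠ 1)] at h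
  have hlen : fine q c (2 * cidx e + 1) - fine q c (2 * cidx e) = (c (2 * e.1 + 1) - c (2 * e.1)) / q :=
    fine_len hq c e.1 e.2 e.2.2
  rw [hlen, ← hm] at h
  have hL1 : (0 : ℝ) < L := by exact_mod_cast hL0
  have hq1 : (0 : ℝ) < q := by exact_mod_cast hq
  have hc0 : 0 ≤ c (2 * e.1 + 1) - c (2 * e.1) := sub_nonneg.2 (hc (Nat.le_succ _))
  have hm0 : 0 ≤ m := by positivity
  have hmB : m ≤ 2 * B / q := by
    have h1 : c (2 * e.1 + 1) - c (2 * e.1) ≤ 2 * B := by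
      have a1 := (abs_le.1 (hcB (2 * e.1 + 1))).2
      have a2 := (abs_le.1 (hcB (2 * e.1))).1
      linarith
    have h2 : (D.card : ℝ) / L ≤ 1 := (div_le_one hL1).2 (by exact_mod_cast hD)
    calc m = (c (2 * e.1 + 1) - c (2 * e.1)) / q * (D.card / L) := by rw [hm]; ring
      _ ≤ (c (2 * e.1 + 1) - c (2 * e.1)) / q * 1 := mul_le_mul_of_nonneg_left h2 (by positivity)
      _ = (c (2 * e.1 + 1) - c (2 * e.1)) / q := mul_one _
      _ ≤ 2 * B / q := by gcongr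
  have hpoi0 : poi m 0 = Real.exp (-m) := by simp [poi]
  have hpoi1 : poi m 1 = m * Real.exp (-m) := by simp [poi]; try ring
  rw [hpoi0, hpoi1] at h
  have huniv : ν.real Set.univ = β - α := by
    rw [hν, measureReal_restrict_apply MeasurableSet.univ, Set.univ_inter, Real.volume_real_Ioc_of_le hαβ]
  have hpart : ν.real {t | 2 ≤ N t} = (β - α) - ν.real {t | N t = 0} - ν.real {t | N t = 1} := by
    have m0 : MeasurableSet {t | N t = 0} := hNm (measurableSet_singleton 0)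
    have m1 : MeasurableSet {t | N t = 1} := hNm (measurableSet_singleton 1)
    have h1 : ν.real ({t | N t = 0} ∪ {t | N t = 1}) = ν.real {t | N t = 0} + ν.real {t | N t = 1} :=
      measureReal_union (Set.disjoint_left.2 fun t (h0 : N t = 0) (h1 : N t = 1) => by omega) m1
    have h2 : {t | 2 ≤ N t} = ({t | N t = 0} ∪ {t | N t = 1})ᶜ := by
      ext t
      show 2 ≤ N t ↔ ¬ (N t = 0 ∨ N t = 1)
      omega
    rw [h2, measureReal_compl (m0.union m1), h1, huniv]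
    ring
  have hA := (abs_le.1 ((le_add_of_nonneg_right (abs_nonneg _)).trans h))
  have hsum : (β - α) * Real.exp (-m) - ν.real {t | N t = 0} + ((β - α) * (m * Real.exp (-m)) - ν.real {t | N t = 1}) ≤ ε' := by
    refine le_trans (add_le_add ?_ ?_) h
    · rw [abs_sub_comm]; exact le_abs_self _
    · rw [abs_sub_comm]; exact le_abs_self _
  have hexp := two_le_bound hm0
  have hm2 : m ^ 2 ≤ (2 * B / q) ^ 2 := pow_le_pow_left₀ hm0 hmB 2
  have hba : 0 ≤ β - α := sub_nonneg.2 hαβ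
  have hb1 : β - α ≤ 1 := by linarith
  have h5 : (β - α) * (1 - Real.exp (-m) - m * Real.exp (-m)) ≤ m ^ 2 :=
    (mul_le_mul_of_nonneg_left hexp hba).trans (by nlinarith [sq_nonneg m])
  show ν.real {t | 2 ≤ N t} ≤ _
  rw [hpart]
  nlinarith

theorem Vq_sum {M : Type} [AddCommMonoid M] (k q : ℕ) (i : Fin k) (f : ℕ → M) :
    ∑ e ∈ Ico ((i : ℕ) * q) (i * q + q), f e = ∑ j : Fin q, f (cidx (i, j)) := by
  rw [Finset.sum_Ico_eq_sum_range, Nat.add_sub_cancel_left, Finset.sum_range]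
  rfl

/-- ROW Vq. `sel_law` for `S = Ico (i q) (i q + q)` (the image of `Fin q` under `j ↦ i q + j`); `fine_len`. -/
theorem cell_marg {k q : ℕ} (hq : 1 ≤ q) {B : ℝ} {ε' : ℝ} {L : ℕ} {D : Finset ℕ} {y : ℕ → ℝ} {α β : ℝ}
    (hL : 2 * B < L) (hL0 : 0 < L) (Hyp : VHyp (k * q) B ε' L D y α β)
    {c : ℕ → ℝ} (hc : Monotone c) (hcB : ∀ i, |c i| ≤ B) (i : Fin k) (F : Finset ℕ) :
    ∑ r ∈ F, |(volume.restrict (Set.Ioc α β)).real {t | ∑ j : Fin q, ncell q c L D y (cidx (i, j)) t = r} -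
      (β - α) * poi ((c (2 * i + 1) - c (2 * i)) * D.card / L) r| ≤ ε' := by
  have hS : Ico ((i : ℕ) * q) (i * q + q) ⊆ range (k * q) := by
    intro e he
    have h1 := (Finset.mem_Ico.1 he).2
    have h2 := i.2
    have h3 : (i + 1 : ℕ) * q ≤ k * q := Nat.mul_le_mul_right q h2
    rw [Finset.mem_range]
    nlinarith
  have h := sel_law (k := k) hq hL hL0 Hyp hc hcB hS F
  have hq1 : (0 : ℝ) < q := by exact_mod_cast hq
  have hlen : ∑ e ∈ Ico ((i : ℕ) * q) (i * q + q), (fine q c (2 * e + 1) - fine q c (2 * e)) =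
      c (2 * i + 1) - c (2 * i) := by
    rw [Vq_sum k q i]
    have : ∀ j : Fin q, fine q c (2 * cidx (i, j) + 1) - fine q c (2 * cidx (i, j)) = (c (2 * i + 1) - c (2 * i)) / q :=
      fun j => fine_len hq c i j j.2
    simp only [this]
    rw [Finset.sum_const, Finset.card_univ, Fintype.card_fin, nsmul_eq_mul]
    field_simp
  rw [hlen] at h
  refine le_trans (le_of_eq (Finset.sum_congr rfl fun r _ => ?_)) h
  have hset : {t | ∑ j : Fin q, ncell q c L D y (cidx (i, j)) t = r} =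
      {t | ∑ e ∈ Ico ((i : ℕ) * q) (i * q + q), ncell q c L D y e t = r} := by
    ext t
    show (∑ j : Fin q, ncell q c L D y (cidx (i, j)) t = r) ↔ (∑ e ∈ Ico ((i : ℕ) * q) (i * q + q), ncell q c L D y e t = r)
    rw [Vq_sum k q i fun e => ncell q c L D y e t]
  rw [hset]

/-- ROW Vr. `fine_cover` and `ae_add` for each `i` (`ae_all_iff`), `measure_congr`. -/
theorem jvl_eq {k q : ℕ} (hq : 1 ≤ q) {B : ℝ} {L : ℕ} {D : Finset ℕ} {y : ℕ → ℝ} {α β : ℝ}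
    (hL : 2 * B < L) (hL0 : 0 < L)
    {c : ℕ → ℝ} (hc : Monotone c) (hcB : ∀ i, |c i| ≤ B) (r : Fin k → ℕ) :
    jvl k c L D y r α β =
      (volume.restrict (Set.Ioc α β)).real {t | ∀ i : Fin k, ∑ j : Fin q, ncell q c L D y (cidx (i, j)) t = r i} := by
  have hL0' : (0 : ℝ) < (L : ℝ) := by exact_mod_cast hL0
  have h1 : ∀ᵐ t : ℝ, ∀ i : Fin k, cnt (Set.Icc (c (2 * (i : ℕ))) (c (2 * (i : ℕ) + 1))) L D y t =
      ∑ j : Fin q, ncell q c L D y (cidx (i, j)) t := by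
    rw [ae_all_iff]
    intro i
    have h := ae_add (fine_mono hq hc) (fine_bound hq hc hcB) hL hL0' D y (Ico ((i : ℕ) * q) ((i : ℕ) * q + q))
      (J := Set.Icc (c (2 * (i : ℕ))) (c (2 * (i : ℕ) + 1))) (fun x _ => fine_cover hq hc i x)
    filter_upwards [h] with t ht
    rw [ht, Finset.sum_Ico_eq_sum_range, Nat.add_sub_cancel_left, Finset.sum_range]
    rfl
  unfold jvl
  rw [Measure.real, Measure.restrict_apply' measurableSet_Ioc]
  congr 1
  apply measure_congr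
  filter_upwards [h1] with t ht
  apply propext
  change (t ∈ {t | ∀ i : Fin k, cnt (Set.Icc (c (2 * i)) (c (2 * i + 1))) L D y t = r i} ∩ Set.Ioc α β) ↔
    (t ∈ {t | ∀ i : Fin k, ∑ j : Fin q, ncell q c L D y (cidx (i, j)) t = r i} ∩ Set.Ioc α β)
  rw [Set.mem_inter_iff, Set.mem_inter_iff, Set.mem_setOf_eq, Set.mem_setOf_eq]
  refine and_congr_left fun _ => forall_congr' fun i => ?_
  rw [ht i]

theorem joint_at {k q : ℕ} (hq : 1 ≤ q) {B : ℝ} (hB : 0 ≤ B) {ε' : ℝ} (hε' : 0 ≤ ε') {L : ℕ} {D : Finset ℕ} {y : ℕ → ℝ} {α β : ℝ}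
    (hL : 2 * B < L) (hL0 : 0 < L) (hD : D.card ≤ L) (hαβ : α ≤ β) (hβ : β ≤ α + 1) (Hyp : VHyp (k * q) B ε' L D y α β)
    {c : ℕ → ℝ} (hc : Monotone c) (hcB : ∀ i, |c i| ≤ B) (F : Finset (Fin k → ℕ)) :
    ∑ r ∈ F, |jvl k c L D y r α β - (β - α) * ∏ i : Fin k, poi ((c (2 * i + 1) - c (2 * i)) * D.card / L) (r i)| ≤
      (k + 1) * (4 ^ (k * q) * ε' + 2 * (k * q) * ((2 * B / q) ^ 2 + ε')) + k * ε' := by
  have hlen : ∀ i : ℕ, 0 ≤ c (2 * i + 1) - c (2 * i) := fun i => sub_nonneg.2 (hc (Nat.le_succ _))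
  have h := joint_abstract (volume.restrict (Set.Ioc α β)) (fun e : Fin k × Fin q => ncell q c L D y (cidx e))
    (fun e => cnt_meas _ _ _ _ _) (b := β - α) (ε' := ε') (θ := (2 * B / q) ^ 2 + ε') (sub_nonneg.2 hαβ) hε' (by positivity)
    (fun e => Real.exp (-((c (2 * e.1 + 1) - c (2 * e.1)) / q * D.card / L))) (fun e => (Real.exp_pos _).le)
    (fun e => Real.exp_le_one_iff.2 (neg_nonpos.2 (div_nonneg (mul_nonneg (div_nonneg (hlen _) (Nat.cast_nonneg _)) (Nat.cast_nonneg _))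
      (Nat.cast_nonneg _))))
    (cell_void hq hL hL0 Hyp hc hcB) (cell_two hq hB hL hL0 hD hαβ hβ Hyp hc hcB)
    (fun i => poi ((c (2 * i + 1) - c (2 * i)) * D.card / L))
    (fun i r => poi_nonneg (div_nonneg (mul_nonneg (hlen _) (Nat.cast_nonneg _)) (Nat.cast_nonneg _)) r)
    (fun i F => poi_sum_le (div_nonneg (mul_nonneg (hlen _) (Nat.cast_nonneg _)) (Nat.cast_nonneg _)) F)
    (cell_marg hq hL hL0 Hyp hc hcB) F
  refine le_trans (le_of_eq ?_) h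
  refine Finset.sum_congr rfl fun r _ => ?_
  rw [jvl_eq hq hL hL0 hc hcB]

theorem Vs_bound (k : ℕ) (B : ℝ) {ε : ℝ} (hε : 0 < ε) : ∃ q : ℕ, 1 ≤ q ∧ ∃ ε' : ℝ, 0 < ε' ∧ ε' ≤ ε ∧
    ((k : ℝ) + 1) * (4 ^ (k * q) * ε' + 2 * (k * q) * ((2 * B / q) ^ 2 + ε')) + k * ε' ≤ ε := by
  have hk : (0 : ℝ) ≤ k := Nat.cast_nonneg k
  obtain ⟨q0, hq0⟩ : ∃ q0 : ℕ, 16 * (k : ℝ) * (k + 1) * B ^ 2 / ε ≤ q0 :=
    ⟨⌈16 * (k : ℝ) * (k + 1) * B ^ 2 / ε⌉₊, Nat.le_ceil _⟩
  rw [div_le_iff₀ hε] at hq0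
  obtain ⟨q, hq⟩ : ∃ q : ℕ, q = q0 + 1 := ⟨_, rfl⟩
  have hqc : (q : ℝ) = q0 + 1 := by rw [hq]; push_cast; ring
  have hQ : (0 : ℝ) < q := by
    rw [hqc]
    positivity
  have hbd : 16 * (k : ℝ) * (k + 1) * B ^ 2 ≤ q * ε := by
    rw [hqc]
    linarith
  obtain ⟨A, hA⟩ : ∃ A : ℝ, A = ((k : ℝ) + 1) * (4 ^ (k * q) + 2 * (k * q)) + k := ⟨_, rfl⟩
  have hA0 : 0 ≤ A := by
    rw [hA]
    positivity
  refine ⟨q, by omega, min ε (ε / (2 * (A + 1))), lt_min hε (by positivity), min_le_left _ _, ?_⟩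
  have h1 : A * min ε (ε / (2 * (A + 1))) ≤ ε / 2 := by
    refine (mul_le_mul_of_nonneg_left (min_le_right _ _) hA0).trans ?_
    rw [mul_div_assoc', div_le_div_iff₀ (by positivity) (by norm_num)]
    nlinarith
  have h2 : ((k : ℝ) + 1) * (2 * (k * q) * (2 * B / q) ^ 2) ≤ ε / 2 := by
    have e : ((k : ℝ) + 1) * (2 * (k * q) * (2 * B / q) ^ 2) = 8 * (k : ℝ) * (k + 1) * B ^ 2 / q := by
      field_simp
      ring
    rw [e, div_le_div_iff₀ hQ (by norm_num)]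
    linarith
  have e : ((k : ℝ) + 1) * (4 ^ (k * q) * min ε (ε / (2 * (A + 1))) +
      2 * (k * q) * ((2 * B / q) ^ 2 + min ε (ε / (2 * (A + 1))))) + k * min ε (ε / (2 * (A + 1))) =
      A * min ε (ε / (2 * (A + 1))) + ((k : ℝ) + 1) * (2 * (k * q) * (2 * B / q) ^ 2) := by
    nth_rewrite 4 [hA]
    ring
  rw [e]
  linarith

open Classical in
/-- ROW Vs. Choose `q ≥ 1` with `(k + 1) * 2 * (k * q) * (2 B / q)^2 ≤ ε / 2` (it is `8 k (k + 1) B^2 / q`), then `ε' ≤ ε`, `ε' > 0` with the rest of the bound of `joint_at`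
`≤ ε / 2`; `main_net_all` (file `Poi/W6.lean`) with `k * q` intervals and `ε'`; `L0` also `> 2 B`, `≥ 1`; `D.card ≤ L` (`D ⊆ Ioc M (M + L)`). The set is contained in that of
`main_net_all`: if there are `c, α, β, F` with the sum `> ε`, then `VHyp (k * q) B ε' L D y α β` fails. -/
theorem joint_net (k : ℕ) {B : ℝ} (hB : 0 ≤ B) {δ : ℝ} (hδ : 0 < δ) {ε : ℝ} (hε : 0 < ε) :
    ∃ L0 : ℕ, ∀ L M x : ℕ, L0 ≤ L → Short δ M L x → ∀ D : Finset ℕ, D ⊆ Ioc M (M + L) →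
      (((range (x + 1)).filter fun p => p.Prime ∧ ∃ c : ℕ → ℝ, Monotone c ∧ (∀ i, |c i| ≤ B) ∧
        ∃ α β : ℝ, α ≤ β ∧ β ≤ α + 1 ∧ ∃ F : Finset (Fin k → ℕ),
        ε < ∑ r ∈ F, |jvl k c L D (fun n => (Pool.Agent.Lib.MP_de5eaa_nt.Near.wq n p : ℝ) / p) r α β -
          (β - α) * ∏ i : Fin k, poi ((c (2 * i + 1) - c (2 * i)) * D.card / L) (r i)|).card : ℝ) ≤
        ε * Pool.Agent.Lib.MP_de5eaa_nt.Near.ppi x := by
  obtain ⟨q, hq, ε', hε'0, hε'1, hbd⟩ := Vs_bound k B hε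
  obtain ⟨L1, h1⟩ := main_net_all (k * q) hB hδ hε'0
  refine ⟨max L1 (⌈2 * B⌉₊ + 1), fun L M x hL hS D hD => ?_⟩
  have hL1 : L1 ≤ L := (le_max_left _ _).trans hL
  have hL2 : ⌈2 * B⌉₊ + 1 ≤ L := (le_max_right _ _).trans hL
  have hLB : 2 * B < (L : ℝ) := by
    refine lt_of_le_of_lt (Nat.le_ceil _) ?_
    exact_mod_cast Nat.lt_of_succ_le hL2
  have hL0 : 0 < L := by omega
  have hDc : D.card ≤ L := by
    have h := Finset.card_le_card hD
    rwa [Nat.card_Ioc, Nat.add_sub_cancel_left] at h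
  have hppi : (0 : ℝ) ≤ Pool.Agent.Lib.MP_de5eaa_nt.Near.ppi x := Nat.cast_nonneg _
  refine le_trans ?_ (mul_le_mul_of_nonneg_right hε'1 hppi)
  refine le_trans (Nat.cast_le.2 (Finset.card_le_card ?_)) (h1 L M x hL1 hS D hD)
  intro p hp
  obtain ⟨hp0, hpp, c, hc, hcB, α, β, hαβ, hβ, F, hF⟩ := Finset.mem_filter.1 hp
  refine Finset.mem_filter.2 ⟨hp0, hpp, ?_⟩
  by_contra hcon
  have Hyp : VHyp (k * q) B ε' L D (fun n => (Pool.Agent.Lib.MP_de5eaa_nt.Near.wq n p : ℝ) / p) α β := by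
    intro c' h2 h3 h4 F'
    by_contra h5
    exact hcon ⟨c', h2, h3, h4, α, β, hαβ, hβ, F', not_le.1 h5⟩
  have h6 := joint_at hq hB hε'0.le hLB hL0 hDc hαβ hβ Hyp hc hcB F
  exact absurd (lt_of_lt_of_le hF (h6.trans hbd)) (lt_irrefl _)

end Pool.Agent.Lib.MP_de5eaa_nt.Poi
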