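import Pool.Agent.Lib.MP_de5eaa_nt.Poi.Se8
import Pool.Agent.Lib.MP_de5eaa_nt.Near.Q5

/-! Windows of orders: definitions. -/

set_option autoImplicit false

namespace Pool.Agent.Lib.MP_de5eaa_nt.Poi

open Finset MeasureTheory Filter Topology
open Pool.Agent.Lib.MP_de5eaa_nt.Near (hs wq ppi LW ZW)

/-- the average over `u` of the indicator function of `u (1/n + ... + 1/(m-1))` being within `2R/L` of an integer -/
noncomputable def ppW (R : ℝ) (M L n m : ℕ) : ℝ :=
  (∑ u ∈ UU (LW M L), hI (Set.Icc (-(2 * R)) (2 * R)) L 0 ((u : ℝ) * ((hs n m : ℚ) : ℝ))) / ((LW M L).totient : ℝ)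

/-- `m` blocks in the window `(M, M + L]`, each with two numbers `κ j < κ' j` in front which have prime factors `q j, q' j`
greater than `L` -/
structure BlkW (M L m : ℕ) (κ κ' q q' : ℕ → ℕ) : Prop where
  prime : ∀ j < m, (q j).Prime
  prime' : ∀ j < m, (q' j).Prime
  big : ∀ j < m, L < q j
  big' : ∀ j < m, L < q' j
  dvd : ∀ j < m, q j ∣ κ j
  dvd' : ∀ j < m, q' j ∣ κ' j
  lo : ∀ j < m, M + j * (L / m) < κ j
  lt : ∀ j < m, κ j < κ' j
  hi : ∀ j < m, κ' j ≤ M + j * (L / m) + (L / m) / m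

/-- the block `j` -/
def blk (M L m : ℕ) (κ' : ℕ → ℕ) (j : ℕ) : Finset ℕ := Ioc (κ' j) (M + (j + 1) * (L / m))

/-- the part of `k` composed of the primes greater than `L` -/
def bigp (L k : ℕ) : ℕ := ∏ q ∈ k.primeFactors.filter (L < ·), q ^ k.factorization q

/-- the window is short enough for `x` -/
def Short (δ : ℝ) (M L x : ℕ) : Prop :=
  ((M + L : ℕ) : ℝ) ≤ (1 - δ) * Real.log x ∨ (L : ℝ) * Real.log ((M + L : ℕ) : ℝ) ≤ (1 - δ) * Real.log x

end Pool.Agent.Lib.MP_de5eaa_nt.Poi
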