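import Pool.Agent.Lib.MP_de5eaa_nt.Poi.W0

set_option autoImplicit false

namespace Pool.Agent.Lib.MP_de5eaa_nt.Poi

open Finset MeasureTheory Filter Topology
open Pool.Agent.Lib.MP_de5eaa_nt.Near (hs wq ppi LW ZW)

theorem Wa_UU (g : ℕ → ℝ) {p q : ℕ} (hp : p.Prime) (hq : q.Prime) (hpq : p ≠ q) (a b : ℕ) :
    ∑ r ∈ UU (p ^ (a + 1) * q ^ (b + 1)), g r = ∑ r ∈ range (p ^ (a + 1) * q ^ (b + 1)), g r -
      ∑ r ∈ range (p ^ a * q ^ (b + 1)), g (p * r) - ∑ r ∈ range (p ^ (a + 1) * q ^ b), g (q * r) +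
      ∑ r ∈ range (p ^ a * q ^ b), g (p * q * r) := by
  have hc : Nat.Coprime p q := (Nat.coprime_primes hp hq).2 hpq
  have h1 := G1a_dvd g (p ^ a * q ^ (b + 1)) hp.pos
  have h2 := G1a_dvd g (p ^ (a + 1) * q ^ b) hq.pos
  have h3 := G1a_dvd g (p ^ a * q ^ b) (Nat.mul_pos hp.pos hq.pos)
  have m1 : p * (p ^ a * q ^ (b + 1)) = p ^ (a + 1) * q ^ (b + 1) := by ring
  have m2 : q * (p ^ (a + 1) * q ^ b) = p ^ (a + 1) * q ^ (b + 1) := by ring
  have m3 : p * q * (p ^ a * q ^ b) = p ^ (a + 1) * q ^ (b + 1) := by ring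
  rw [m1] at h1
  rw [m2] at h2
  rw [m3] at h3
  rw [← h1, ← h2, ← h3, ← Finset.sum_sub_distrib, ← Finset.sum_sub_distrib,
    ← Finset.sum_add_distrib, UU, Finset.sum_filter]
  refine Finset.sum_congr rfl fun r _ => ?_
  have e1 : (p ^ (a + 1) * q ^ (b + 1)).Coprime r ↔ ¬ p ∣ r ∧ ¬ q ∣ r := by
    rw [Nat.coprime_mul_iff_left, Nat.coprime_pow_left_iff (Nat.succ_pos a),
      Nat.coprime_pow_left_iff (Nat.succ_pos b), hp.coprime_iff_not_dvd, hq.coprime_iff_not_dvd]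
  have e2 : p * q ∣ r ↔ p ∣ r ∧ q ∣ r :=
    ⟨fun h => ⟨dvd_trans (Dvd.intro _ rfl) h, dvd_trans (Dvd.intro_left _ rfl) h⟩,
      fun h => hc.mul_dvd_of_dvd_of_dvd h.1 h.2⟩
  by_cases hpr : p ∣ r <;> by_cases hqr : q ∣ r
  · rw [if_neg (fun h => (e1.1 h).1 hpr), if_pos hpr, if_pos hqr, if_pos (e2.2 ⟨hpr, hqr⟩)]
    ring
  · rw [if_neg (fun h => (e1.1 h).1 hpr), if_pos hpr, if_neg hqr, if_neg (fun h => hqr (e2.1 h).2)]
    ring
  · rw [if_neg (fun h => (e1.1 h).2 hqr), if_neg hpr, if_pos hqr, if_neg (fun h => hpr (e2.1 h).1)]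
    ring
  · rw [if_pos (e1.2 ⟨hpr, hqr⟩), if_neg hpr, if_neg hqr, if_neg (fun h => hpr (e2.1 h).1)]
    ring

theorem Wa_succ {J : Set ℝ} {lam K R L : ℝ} (hJ : Nice J lam K R) (hL : 2 * R < L) {p q : ℕ} (hp : p.Prime)
    (hq : q.Prime) (hpq : p ≠ q) (a b : ℕ) (t c : ℝ) :
    |(∑ r ∈ UU (p ^ (a + 1) * q ^ (b + 1)),
      hI J L t (c + (r : ℝ) / ((p ^ (a + 1) * q ^ (b + 1) : ℕ) : ℝ))) -
      lam / L * ((p ^ (a + 1) * q ^ (b + 1)).totient : ℝ)| ≤ 4 * K := by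
  have hp0 : (p : ℝ) ≠ 0 := Nat.cast_ne_zero.2 hp.ne_zero
  have hq0 : (q : ℝ) ≠ 0 := Nat.cast_ne_zero.2 hq.ne_zero
  rw [Wa_UU (fun r => hI J L t (c + (r : ℝ) / ((p ^ (a + 1) * q ^ (b + 1) : ℕ) : ℝ))) hp hq hpq a b]
  have h0 := grid_sum hJ hL (Nat.mul_pos (pow_pos hp.pos (a + 1)) (pow_pos hq.pos (b + 1))) t c
  have h1 := grid_sum hJ hL (Nat.mul_pos (pow_pos hp.pos a) (pow_pos hq.pos (b + 1))) t c
  have h2 := grid_sum hJ hL (Nat.mul_pos (pow_pos hp.pos (a + 1)) (pow_pos hq.pos b)) t c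
  have h3 := grid_sum hJ hL (Nat.mul_pos (pow_pos hp.pos a) (pow_pos hq.pos b)) t c
  have m1 : ((p ^ (a + 1) * q ^ (b + 1) : ℕ) : ℝ) = (p : ℝ) * ((p ^ a * q ^ (b + 1) : ℕ) : ℝ) := by
    push_cast
    ring
  have m2 : ((p ^ (a + 1) * q ^ (b + 1) : ℕ) : ℝ) = (q : ℝ) * ((p ^ (a + 1) * q ^ b : ℕ) : ℝ) := by
    push_cast
    ring
  have m3 : ((p ^ (a + 1) * q ^ (b + 1) : ℕ) : ℝ) = ((p : ℝ) * q) * ((p ^ a * q ^ b : ℕ) : ℝ) := by
    push_cast
    ring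
  have e1 : ∑ r ∈ range (p ^ a * q ^ (b + 1)),
      hI J L t (c + ((p * r : ℕ) : ℝ) / ((p ^ (a + 1) * q ^ (b + 1) : ℕ) : ℝ)) =
      ∑ r ∈ range (p ^ a * q ^ (b + 1)), hI J L t (c + (r : ℝ) / ((p ^ a * q ^ (b + 1) : ℕ) : ℝ)) := by
    refine Finset.sum_congr rfl fun r _ => ?_
    rw [m1, Nat.cast_mul, mul_div_mul_left _ _ hp0]
  have e2 : ∑ r ∈ range (p ^ (a + 1) * q ^ b),
      hI J L t (c + ((q * r : ℕ) : ℝ) / ((p ^ (a + 1) * q ^ (b + 1) : ℕ) : ℝ)) =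
      ∑ r ∈ range (p ^ (a + 1) * q ^ b), hI J L t (c + (r : ℝ) / ((p ^ (a + 1) * q ^ b : ℕ) : ℝ)) := by
    refine Finset.sum_congr rfl fun r _ => ?_
    rw [m2, Nat.cast_mul, mul_div_mul_left _ _ hq0]
  have e3 : ∑ r ∈ range (p ^ a * q ^ b),
      hI J L t (c + ((p * q * r : ℕ) : ℝ) / ((p ^ (a + 1) * q ^ (b + 1) : ℕ) : ℝ)) =
      ∑ r ∈ range (p ^ a * q ^ b), hI J L t (c + (r : ℝ) / ((p ^ a * q ^ b : ℕ) : ℝ)) := by
    refine Finset.sum_congr rfl fun r _ => ?_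
    rw [m3, Nat.cast_mul, Nat.cast_mul, mul_div_mul_left _ _ (mul_ne_zero hp0 hq0)]
  have e4 : ((p ^ (a + 1) * q ^ (b + 1)).totient : ℝ) =
      ((p ^ (a + 1) * q ^ (b + 1) : ℕ) : ℝ) - ((p ^ a * q ^ (b + 1) : ℕ) : ℝ) -
        ((p ^ (a + 1) * q ^ b : ℕ) : ℝ) + ((p ^ a * q ^ b : ℕ) : ℝ) := by
    rw [Nat.totient_mul (Nat.Coprime.pow (a + 1) (b + 1) ((Nat.coprime_primes hp hq).2 hpq)),
      Nat.totient_prime_pow_succ hp, Nat.totient_prime_pow_succ hq]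
    push_cast [Nat.cast_sub hp.one_le, Nat.cast_sub hq.one_le]
    ring
  rw [e1, e2, e3, e4]
  have e5 : lam / L * (((p ^ (a + 1) * q ^ (b + 1) : ℕ) : ℝ) - ((p ^ a * q ^ (b + 1) : ℕ) : ℝ) -
        ((p ^ (a + 1) * q ^ b : ℕ) : ℝ) + ((p ^ a * q ^ b : ℕ) : ℝ)) =
      lam * ((p ^ (a + 1) * q ^ (b + 1) : ℕ) : ℝ) / L - lam * ((p ^ a * q ^ (b + 1) : ℕ) : ℝ) / L -
        lam * ((p ^ (a + 1) * q ^ b : ℕ) : ℝ) / L + lam * ((p ^ a * q ^ b : ℕ) : ℝ) / L := by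
    ring
  rw [e5]
  rw [abs_le] at h0 h1 h2 h3 ⊢
  constructor <;> linarith [h0.1, h0.2, h1.1, h1.2, h2.1, h2.2, h3.1, h3.2]

/-- ROW Wa. The proof of `units_arc` (file `Poi/G1.lean`) for prime powers: the elements of `UU (p^a q^b)` are the `r < p^a q^b` divisible neither by
`p` nor by `q`; inclusion and exclusion: the multiples `p r'` of `p` give the points `c + r' / (p^(a-1) q^b)`, `r' < p^(a-1) q^b` (`G1a_dvd`), and so on; four sums
over full grids, each with error at most `K` (`grid_sum`); `φ(p^a q^b) = p^a q^b - p^(a-1) q^b - p^a q^(b-1) + p^(a-1) q^(b-1)`. -/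
theorem units_arc_pp {J : Set ℝ} {lam K R L : ℝ} (hJ : Nice J lam K R) (hL : 2 * R < L) {p q : ℕ} (hp : p.Prime)
    (hq : q.Prime) (hpq : p ≠ q) {a b : ℕ} (ha : 0 < a) (hb : 0 < b) (t c : ℝ) :
    |(∑ r ∈ UU (p ^ a * q ^ b), hI J L t (c + (r : ℝ) / ((p ^ a * q ^ b : ℕ) : ℝ))) -
      lam / L * ((p ^ a * q ^ b).totient : ℝ)| ≤ 4 * K := by
  obtain ⟨a, rfl⟩ : ∃ a', a = a' + 1 := ⟨a - 1, by omega⟩
  obtain ⟨b, rfl⟩ : ∃ b', b = b' + 1 := ⟨b - 1, by omega⟩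
  exact Wa_succ hJ hL hp hq hpq a b t c

theorem Wb_uniq {M L q k1 k2 : ℕ} (hqL : L < q) (h1 : M < k1) (h1' : k1 ≤ M + L) (h2 : M < k2)
    (h2' : k2 ≤ M + L) (hd1 : q ∣ k1) (hd2 : q ∣ k2) : k1 = k2 := by
  rcases Nat.lt_trichotomy k1 k2 with h | h | h
  · have h3 : q ∣ k2 - k1 := Nat.dvd_sub hd2 hd1
    have h4 := Nat.le_of_dvd (by omega) h3
    omega
  · exact h
  · have h3 : q ∣ k1 - k2 := Nat.dvd_sub hd1 hd2
    have h4 := Nat.le_of_dvd (by omega) h3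
    omega

theorem Wb_lcm (ℓ v : ℕ) (s : Finset ℕ) (hs : ∀ k ∈ s, k ≠ 0 ∧ k.factorization ℓ ≤ v) :
    s.lcm id ≠ 0 ∧ (s.lcm id).factorization ℓ ≤ v := by
  classical
  induction s using Finset.induction_on with
  | empty => simp
  | insert a t ha ih =>
    have h1 := ih fun k hk => hs k (Finset.mem_insert_of_mem hk)
    have h2 := hs a (Finset.mem_insert_self a t)
    have e : (insert a t).lcm id = Nat.lcm a (t.lcm id) := by
      rw [Finset.lcm_insert]; rfl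
    rw [e]
    refine ⟨Nat.lcm_ne_zero h2.1 h1.1, ?_⟩
    rw [Nat.factorization_lcm h2.1 h1.1, Finsupp.sup_apply]
    exact sup_le h2.2 h1.2

theorem Wb_fac {M L q K : ℕ} (hq : q.Prime) (hqL : L < q) (h1 : M < K) (h2 : K ≤ M + L) (hd : q ∣ K) :
    (LW M L).factorization q = K.factorization q := by
  have hK : K ≠ 0 := by omega
  have h0 := Wb_lcm q (K.factorization q) (Icc (M + 1) (M + L)) (by
    intro k hk
    rw [Finset.mem_Icc] at hk
    refine ⟨by omega, ?_⟩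
    by_cases hkd : q ∣ k
    · rw [Wb_uniq hqL (by omega) hk.2 h1 h2 hkd hd]
    · rw [Nat.factorization_eq_zero_of_not_dvd hkd]
      exact Nat.zero_le _)
  have h3 : K ∣ LW M L := by
    unfold LW
    exact Finset.dvd_lcm (f := id) (Finset.mem_Icc.2 ⟨by omega, h2⟩)
  refine le_antisymm h0.2 ?_
  exact (Nat.factorization_le_iff_dvd hK (Pool.Agent.Lib.MP_de5eaa_nt.Near.LW_pos M L).ne').2 h3 q

theorem Wb_notdvd {N q q' a Q' : ℕ} (hq : q.Prime) (hN : 0 < N) (ha : N.factorization q = a)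
    (h : N = (q ^ a * q') * Q') : (q ^ a).Coprime Q' := by
  apply Nat.Coprime.pow_left
  rw [Nat.Prime.coprime_iff_not_dvd hq]
  rintro ⟨s, rfl⟩
  have h2 : q ^ (a + 1) ∣ N := ⟨q' * s, by rw [h, pow_succ]; ring⟩
  have h3 := (hq.pow_dvd_iff_le_factorization hN.ne').1 h2
  omega

theorem Wb_den {M L q K n : ℕ} (hq : q.Prime) (hqL : L < q) (h1 : M < K) (h2 : K ≤ M + L) (hd : q ∣ K)
    (hn : n ≤ K) (a : ℕ) : (hs (M + 1) n).den.Coprime (q ^ a) := by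
  apply Nat.Coprime.pow_right
  rw [Nat.coprime_comm, Nat.Prime.coprime_iff_not_dvd hq]
  intro hdv
  have h3 := den_zero (q := q) (n := M + 1) (m := n) hq (by omega) (by
    intro k hk1 hk2 hkd
    have := Wb_uniq hqL (by omega) (by omega) h1 h2 hkd hd
    omega)
  have h4 := hq.factorization_pos_of_dvd (hs (M + 1) n).den_nz hdv
  omega

theorem Wb_val {M L q K n : ℕ} (hq : q.Prime) (hqL : L < q) (h1 : M < K) (h2 : K ≤ M + L) (hd : q ∣ K)
    (hn : K < n) (hn2 : n ≤ M + L) : q ^ (K.factorization q) ∣ (hs (M + 1) n).den := by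
  have hpos : 0 < K.factorization q := hq.factorization_pos_of_dvd (by omega) hd
  have h3 := den_val (q := q) (n := M + 1) (m := n) (k0 := K) hq (by omega) (by omega) hn hpos (by
    intro k hk1 hk2 hk3
    rw [Nat.factorization_eq_zero_of_not_dvd (fun hkd =>
      hk3 (Wb_uniq hqL (by omega) (by omega) h1 h2 hkd hd))]
    exact hpos)
  exact (hq.pow_dvd_iff_le_factorization (hs (M + 1) n).den_nz).2 h3.ge

/-- ROW Wb. `κ j, κ' j ∈ (M, M + L]` (`(L/m)/m ≤ L/m`, `(j + 1) (L/m) ≤ L`). A prime `q > L` divides at most one number of `(M, M + L]`; so `q j ≠ q' j`. Let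
`a = (κ j).factorization (q j)`, `b = (κ' j).factorization (q' j)`. The factorization of `LW M L` (the lcm) at `q j` is `a` (as in `H7b_aux`, `QQ_val`, file
`Poi/H7.lean`), at `q' j` it is `b`. For `M < n ≤ κ j` no number of `[M + 1, n)` is divisible by `q j` or `q' j` (`den_zero`, file `Poi/H2.lean`), the denominator
divides `LW M L` (`den_dvd_LW`, file `Near/Q5.lean`) and is prime to `q j`, `q' j`. For `κ' j < n`: `den_val` (file `Poi/H2.lean`) for both primes. -/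
theorem LW_split {M L m : ℕ} {κ κ' q q' : ℕ → ℕ} (hB : BlkW M L m κ κ' q q') (hm : 1 ≤ m) {j : ℕ} (hj : j < m) :
    ∃ a b Q' : ℕ, 0 < a ∧ 0 < b ∧ q j ≠ q' j ∧ LW M L = (q j ^ a * q' j ^ b) * Q' ∧ (q j ^ a * q' j ^ b).Coprime Q' ∧
      (∀ n, M < n → n ≤ κ j → (hs (M + 1) n).den ∣ Q') ∧
      (∀ n, κ' j < n → n ≤ M + L → (q j ^ a * q' j ^ b) ∣ (hs (M + 1) n).den) := by
  have hp := hB.prime j hj
  have hp' := hB.prime' j hj
  have hL := hB.big j hj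
  have hL' := hB.big' j hj
  have hd := hB.dvd j hj
  have hd' := hB.dvd' j hj
  have hlo := hB.lo j hj
  have hlt := hB.lt j hj
  have hhi := hB.hi j hj
  have h1 : (L / m) / m ≤ L / m := Nat.div_le_self _ _
  have h2 : (j + 1) * (L / m) ≤ m * (L / m) := Nat.mul_le_mul_right _ hj
  have h3 : m * (L / m) ≤ L := Nat.mul_div_le L m
  have h4 : (j + 1) * (L / m) = j * (L / m) + L / m := by ring
  have hK1 : M < κ j := by omega
  have hK2 : κ j ≤ M + L := by omega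
  have hK1' : M < κ' j := by omega
  have hK2' : κ' j ≤ M + L := by omega
  have hne : q j ≠ q' j := by
    intro he
    rw [← he] at hd'
    have := Wb_uniq hL hK1 hK2 hK1' hK2' hd hd'
    omega
  have hN := Pool.Agent.Lib.MP_de5eaa_nt.Near.LW_pos M L
  have f1 := Wb_fac hp hL hK1 hK2 hd
  have f2 := Wb_fac hp' hL' hK1' hK2' hd'
  have ha : 0 < (κ j).factorization (q j) := hp.factorization_pos_of_dvd (by omega) hd
  have hb : 0 < (κ' j).factorization (q' j) := hp'.factorization_pos_of_dvd (by omega) hd'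
  have hcop : (q j ^ (κ j).factorization (q j)).Coprime (q' j ^ (κ' j).factorization (q' j)) :=
    Nat.Coprime.pow _ _ ((Nat.coprime_primes hp hp').2 hne)
  have d1 : q j ^ (κ j).factorization (q j) ∣ LW M L :=
    (hp.pow_dvd_iff_le_factorization hN.ne').2 f1.ge
  have d2 : q' j ^ (κ' j).factorization (q' j) ∣ LW M L :=
    (hp'.pow_dvd_iff_le_factorization hN.ne').2 f2.ge
  obtain ⟨Q', hQ⟩ := Nat.Coprime.mul_dvd_of_dvd_of_dvd hcop d1 d2
  refine ⟨_, _, Q', ha, hb, hne, hQ, ?_, ?_, ?_⟩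
  · exact Nat.Coprime.mul_left (Wb_notdvd hp hN f1 hQ)
      (Wb_notdvd (q' := q j ^ (κ j).factorization (q j)) hp' hN f2 (by rw [hQ]; ring))
  · intro n hn hn2
    have e1 : (hs (M + 1) n).den ∣ LW M L :=
      Pool.Agent.Lib.MP_de5eaa_nt.Near.den_dvd_LW (Nat.lt_succ_self M) (by omega)
    have e3 : (hs (M + 1) n).den.Coprime
        (q j ^ (κ j).factorization (q j) * q' j ^ (κ' j).factorization (q' j)) :=
      Nat.Coprime.mul_right (Wb_den hp hL hK1 hK2 hd hn2 _)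
        (Wb_den hp' hL' hK1' hK2' hd' (by omega) _)
    rw [hQ] at e1
    exact e3.dvd_of_dvd_mul_left e1
  · intro n hn hn2
    exact Nat.Coprime.mul_dvd_of_dvd_of_dvd hcop (Wb_val hp hL hK1 hK2 hd (by omega) hn2)
      (Wb_val hp' hL' hK1' hK2' hd' hn hn2)

/-- ROW Wc. The proof of `lin_inst` (file `Poi/I2.lean`) with `LW_split`, `units_arc_pp`, `fib_mean` (`Q = LW M L`), `I2_int`, `I2_hit`;
`ZW M u n = -(u * hs (M + 1) n)`; for `i < j` the elements of `blk M L m κ' i` are in `(M, M + (i+1) (L/m)]`, so `≤ κ j`.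
`φ(q^a q'^b) ≥ (q - 1) (q' - 1) ≥ L^2`. -/
theorem lin_w {M L m : ℕ} {κ κ' q q' : ℕ → ℕ} (hB : BlkW M L m κ κ' q q') (hm : 1 ≤ m) (hL1 : 1 ≤ L)
    {J : Set ℝ} {lam K R : ℝ} (hJ : Nice J lam K R) (hL : 2 * R < L) {j : ℕ} (hj : j < m) {n : ℕ}
    (hn : n ∈ blk M L m κ' j) (t : ℝ) (G : ℕ → ℝ) (hG0 : ∀ u, 0 ≤ G u) (hG1 : ∀ u, G u ≤ 1)
    (hG : ∀ u v, (∀ i < j, ∀ n' ∈ blk M L m κ' i, ∀ t' : ℝ, Hit J L t' (ZW M u n') ↔ Hit J L t' (ZW M v n')) →
      G u = G v) :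
    |∑ u ∈ UU (LW M L), G u * (hI J L t (ZW M u n) - lam / L)| ≤ ((LW M L).totient : ℝ) * (4 * K / (L : ℝ) ^ 2) := by
  obtain ⟨a, b, Q', ha, hb, hne, hQ, hcop, hQ', hdv⟩ := LW_split hB hm hj
  have hp := hB.prime j hj
  have hq := hB.prime' j hj
  have hbp := hB.big j hj
  have hbq := hB.big' j hj
  have hmL : m * (L / m) ≤ L := Nat.mul_div_le L m
  have hjm : (j + 1) * (L / m) ≤ m * (L / m) := Nat.mul_le_mul_right _ hj
  unfold blk at hn
  rw [Finset.mem_Ioc] at hn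
  obtain ⟨hn1, hn2⟩ := hn
  have hnL : n ≤ M + L := by omega
  have hMn : M < n := by
    have h1 := hB.lo j hj
    have h2 := hB.lt j hj
    omega
  have dpq : q j ^ a * q' j ^ b ∣ (hs (M + 1) n).den := hdv n hn1 hnL
  have dQ : (hs (M + 1) n).den ∣ LW M L := Near.den_dvd_LW (Nat.lt_succ_self M) (by omega)
  have hGmod : ∀ u v : ℕ, u ≡ v [MOD Q'] → G u = G v := by
    intro u v huv
    apply hG u v
    intro i hi n' hn' t'
    unfold blk at hn'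
    rw [Finset.mem_Ioc] at hn'
    have him : i < m := by omega
    have hin : (i + 1) * (L / m) ≤ j * (L / m) := Nat.mul_le_mul_right _ hi
    have hl1 := hB.lo i him
    have hl2 := hB.lt i him
    have hl3 := hB.lo j hj
    have hd := hQ' n' (by omega) (by omega)
    obtain ⟨b', hb'⟩ := I2_int hd huv
    have hb2 : ZW M v n' = ZW M u n' + b' := by
      unfold ZW; exact hb'
    constructor
    · exact I2_hit b' hb2
    · exact I2_hit (-b') (by rw [hb2]; push_cast; ring)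
  have main := fib_mean (Q := LW M L) (m := q j ^ a * q' j ^ b) (Q' := Q') (Near.LW_pos M L) hQ hcop
    (h := hs (M + 1) n) dQ dpq (J := J) (L := L) (t := t) (w := lam / L) (D := 4 * K)
    (fun c => units_arc_pp hJ hL hp hq hne ha hb t c) G hG0 hG1 hGmod
  have eS : ∑ u ∈ UU (LW M L), G u * (hI J L t (ZW M u n) - lam / L) =
      ∑ u ∈ UU (LW M L), G u * (hI J L t (-((u : ℝ) * ((hs (M + 1) n : ℚ) : ℝ))) - lam / L) := rfl
  rw [eS]
  set S := |∑ u ∈ UU (LW M L), G u * (hI J L t (-((u : ℝ) * ((hs (M + 1) n : ℚ) : ℝ))) - lam / L)| with hS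
  have htot : L ^ 2 ≤ (q j ^ a * q' j ^ b).totient := by
    have hc2 : (q j ^ a).Coprime (q' j ^ b) :=
      Nat.Coprime.pow _ _ ((Nat.coprime_primes hp hq).mpr hne)
    have t1 : L ≤ (q j ^ a).totient := by
      rw [Nat.totient_prime_pow hp ha]
      calc L ≤ q j - 1 := by omega
        _ = 1 * (q j - 1) := (one_mul _).symm
        _ ≤ q j ^ (a - 1) * (q j - 1) := Nat.mul_le_mul_right _ (Nat.pow_pos hp.pos)
    have t2 : L ≤ (q' j ^ b).totient := by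
      rw [Nat.totient_prime_pow hq hb]
      calc L ≤ q' j - 1 := by omega
        _ = 1 * (q' j - 1) := (one_mul _).symm
        _ ≤ q' j ^ (b - 1) * (q' j - 1) := Nat.mul_le_mul_right _ (Nat.pow_pos hq.pos)
    rw [Nat.totient_mul hc2, pow_two]
    exact Nat.mul_le_mul t1 t2
  have htot' : ((L : ℝ)) ^ 2 ≤ ((q j ^ a * q' j ^ b).totient : ℝ) := by exact_mod_cast htot
  have hLpos : (0 : ℝ) < L := by exact_mod_cast hL1
  have hN0r : (0 : ℝ) < (L : ℝ) ^ 2 := by positivity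
  have hS0 : 0 ≤ S := abs_nonneg _
  have h5 : S * (L : ℝ) ^ 2 ≤ ((LW M L).totient : ℝ) * (4 * K) :=
    le_trans (mul_le_mul_of_nonneg_left htot' hS0) main
  have h6 : S ≤ ((LW M L).totient : ℝ) * (4 * K) / (L : ℝ) ^ 2 := by
    rw [le_div_iff₀ hN0r]; exact h5
  calc S ≤ ((LW M L).totient : ℝ) * (4 * K) / (L : ℝ) ^ 2 := h6
    _ = ((LW M L).totient : ℝ) * (4 * K / (L : ℝ) ^ 2) := by ring

end Pool.Agent.Lib.MP_de5eaa_nt.Poi
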