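import Pool.Agent.Lib.MP_de5eaa_nt.Poi.W0

set_option autoImplicit false

namespace Pool.Agent.Lib.MP_de5eaa_nt.Poi

open Finset MeasureTheory Filter Topology
open Pool.Agent.Lib.MP_de5eaa_nt.Near (hs wq ppi LW ZW)

theorem Wd1_small {N h L : ℕ} (hN : 1 ≤ N) :
    ∏ q ∈ (N.choose h).primeFactors.filter (fun q => ¬ L < q), q ^ (N.choose h).factorization q ≤
      N ^ (Nat.primeCounting L) := by
  have h1 : ∏ q ∈ (N.choose h).primeFactors.filter (fun q => ¬ L < q),
      q ^ (N.choose h).factorization q ≤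
      N ^ ((N.choose h).primeFactors.filter (fun q => ¬ L < q)).card := by
    refine Finset.prod_le_pow_card _ _ _ fun q _ => ?_
    exact Nat.pow_factorization_choose_le (by omega)
  have h2 : ((N.choose h).primeFactors.filter (fun q => ¬ L < q)).card ≤ Nat.primeCounting L := by
    unfold Nat.primeCounting Nat.primeCounting'
    rw [Nat.count_eq_card_filter_range]
    refine Finset.card_le_card fun q hq => ?_
    rw [Finset.mem_filter] at hq ⊢
    rw [Finset.mem_range]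
    exact ⟨by omega, Nat.prime_of_mem_primeFactors hq.1⟩
  exact h1.trans (Nat.pow_le_pow_right hN h2)

theorem Wd1_super {L k : ℕ} {S : Finset ℕ} (hS : k.primeFactors ⊆ S) :
    bigp L k = ∏ q ∈ S.filter (L < ·), q ^ k.factorization q := by
  unfold bigp
  refine Finset.prod_subset (Finset.filter_subset_filter _ hS) fun q hq hq2 => ?_
  rw [Finset.mem_filter] at hq hq2
  have h1 : q ∉ k.primeFactors := fun h => hq2 ⟨h, hq.2⟩
  have h2 : k.factorization q = 0 := by
    rw [← Nat.support_factorization] at h1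
    exact Finsupp.notMem_support_iff.1 h1
  rw [h2, pow_zero]

theorem Wd1_mul {L a b : ℕ} (ha : a ≠ 0) (hb : b ≠ 0) : bigp L (a * b) = bigp L a * bigp L b := by
  have h1 : (a * b).primeFactors ⊆ a.primeFactors ∪ b.primeFactors := by
    rw [Nat.primeFactors_mul ha hb]
  rw [Wd1_super h1, Wd1_super (L := L) (k := a) (Finset.subset_union_left (s₂ := b.primeFactors)),
    Wd1_super (L := L) (k := b) (Finset.subset_union_right (s₁ := a.primeFactors)),
    ← Finset.prod_mul_distrib]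
  refine Finset.prod_congr rfl fun q _ => ?_
  rw [Nat.factorization_mul ha hb, Finsupp.add_apply, pow_add]

theorem Wd1_fac {L h : ℕ} (hhL : h ≤ L) : bigp L h.factorial = 1 := by
  unfold bigp
  refine Finset.prod_eq_one fun q hq => ?_
  rw [Finset.mem_filter] at hq
  have h1 := Nat.prime_of_mem_primeFactors hq.1
  have h2 := (Nat.Prime.dvd_factorial h1).1 (Nat.dvd_of_mem_primeFactors hq.1)
  omega

theorem Wd1_asc (L : ℕ) {n : ℕ} (hn : 1 ≤ n) (h : ℕ) :
    bigp L (n.ascFactorial h) = ∏ k ∈ Ico n (n + h), bigp L k := by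
  induction h with
  | zero =>
    rw [Nat.ascFactorial_zero]
    simp [bigp]
  | succ h ih =>
    have h1 : n.ascFactorial h ≠ 0 := by
      have h2 := Nat.pow_succ_le_ascFactorial n h
      have h3 : 0 < n ^ h := Nat.pow_pos hn
      omega
    rw [Nat.ascFactorial_succ, Wd1_mul (by omega) h1, ih, ← Nat.add_assoc,
      Finset.prod_Ico_succ_top (by omega), mul_comm]

/-- ROW Wd1. As `rough_ge` (file `Poi/H4.lean`). With `N = n + h - 1`: `n^h ≤ ∏ k ∈ Ico n (n + h), k = h! choose(N, h)`, `h! ≤ h^h`; `choose(N, h)` is the product of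
`q^(v_q)`; over the primes `q ≤ L` at most `N^π(L)` (`Nat.pow_factorization_choose_le`), and for `q > L ≥ h` `v_q(choose(N, h)) = ∑ k, v_q(k)`
(`q` does not divide `h!`), so the product over the primes `q > L` is `∏ k, bigp L k`. -/
theorem smooth_prod {n h L : ℕ} (hn : 1 ≤ n) (hh : 1 ≤ h) (hhL : h ≤ L) :
    n ^ h ≤ h ^ h * (n + h - 1) ^ (Nat.primeCounting L) * ∏ k ∈ Ico n (n + h), bigp L k := by
  obtain ⟨N, hN⟩ : ∃ N, N = n + h - 1 := ⟨_, rfl⟩
  have hN1 : 1 ≤ N := by omega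
  have hhN : h ≤ N := by omega
  have h0 := Nat.pow_succ_le_ascFactorial n h
  have hasc := Nat.ascFactorial_eq_factorial_mul_choose' n h
  rw [← hN] at hasc
  have hC : N.choose h ≠ 0 := (Nat.choose_pos hhN).ne'
  have h3 : N.choose h ≤ N ^ (Nat.primeCounting L) * ∏ k ∈ Ico n (n + h), bigp L k := by
    have h4 : N.choose h = (∏ q ∈ (N.choose h).primeFactors.filter (L < ·),
        q ^ (N.choose h).factorization q) * ∏ q ∈ (N.choose h).primeFactors.filter
          (fun q => ¬ L < q), q ^ (N.choose h).factorization q := by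
      rw [Finset.prod_filter_mul_prod_filter_not]
      have h5 := Nat.prod_factorization_pow_eq_self hC
      conv_lhs => rw [← h5]
      rw [Finsupp.prod, Nat.support_factorization]
    have h6 : bigp L (N.choose h) = ∏ k ∈ Ico n (n + h), bigp L k := by
      rw [← Wd1_asc L hn h, hasc, Wd1_mul (Nat.factorial_ne_zero h) hC, Wd1_fac hhL, one_mul]
    rw [← h6]
    calc N.choose h = bigp L (N.choose h) * ∏ q ∈ (N.choose h).primeFactors.filter
          (fun q => ¬ L < q), q ^ (N.choose h).factorization q := h4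
      _ ≤ bigp L (N.choose h) * N ^ (Nat.primeCounting L) :=
        Nat.mul_le_mul_left _ (Wd1_small hN1)
      _ = N ^ (Nat.primeCounting L) * bigp L (N.choose h) := mul_comm _ _
  rw [← hN]
  rw [hasc] at h0
  calc n ^ h ≤ h.factorial * N.choose h := h0
    _ ≤ h ^ h * (N ^ (Nat.primeCounting L) * ∏ k ∈ Ico n (n + h), bigp L k) :=
      Nat.mul_le_mul (Nat.factorial_le_pow h) h3
    _ = h ^ h * N ^ (Nat.primeCounting L) * ∏ k ∈ Ico n (n + h), bigp L k := by ring

theorem Wd2_bigp_le {L k : ℕ} (hk : k ≠ 0) : bigp L k ≤ k := by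
  have h1 : ∏ q ∈ k.primeFactors, q ^ k.factorization q = k := by
    have h2 := Nat.factorization_prod_pow_eq_self hk
    rwa [Finsupp.prod, Nat.support_factorization] at h2
  have h3 : bigp L k ≤ ∏ q ∈ k.primeFactors, q ^ k.factorization q := by
    unfold bigp
    apply Finset.prod_le_prod_of_subset_of_one_le' (Finset.filter_subset _ _)
    intro q hq _
    exact Nat.one_le_pow _ _ (Nat.prime_of_mem_primeFactors hq).pos
  exact h3.trans h1.le

theorem Wd2_bigp_one {L k : ℕ} (h : ¬ ∃ q, q.Prime ∧ L < q ∧ q ∣ k) : bigp L k = 1 := by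
  unfold bigp
  have h1 : k.primeFactors.filter (L < ·) = ∅ := by
    rw [Finset.filter_eq_empty_iff]
    intro q hq hL
    exact h ⟨q, Nat.prime_of_mem_primeFactors hq, hL, Nat.dvd_of_mem_primeFactors hq⟩
  rw [h1, Finset.prod_empty]

theorem Wd2_prod {L n h : ℕ} (hn : 1 ≤ n) (hh : 1 ≤ h)
    (H : ∀ k ∈ Ico n (n + h), ∀ k' ∈ Ico n (n + h), (∃ q, q.Prime ∧ L < q ∧ q ∣ k) →
      (∃ q, q.Prime ∧ L < q ∧ q ∣ k') → k = k') :
    ∏ k ∈ Ico n (n + h), bigp L k ≤ n + h - 1 := by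
  by_cases hB : ∃ k0 ∈ Ico n (n + h), ∃ q, q.Prime ∧ L < q ∧ q ∣ k0
  · obtain ⟨k0, hk0, hq0⟩ := hB
    rw [Finset.prod_eq_single_of_mem k0 hk0]
    · rw [Finset.mem_Ico] at hk0
      have h1 := Wd2_bigp_le (L := L) (k := k0) (by omega)
      omega
    · intro b hb hne
      exact Wd2_bigp_one fun hq => hne (H b hb k0 hk0 hq hq0)
  · rw [Finset.prod_eq_one]
    · omega
    · intro k hk
      exact Wd2_bigp_one fun hq => hB ⟨k, hk, hq⟩

theorem Wd2_log {L n h : ℕ} (hn : 1 ≤ n) (hh : 1 ≤ h) (hhL : h ≤ L) (hnL : L ≤ n)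
    (hp : ∏ k ∈ Ico n (n + h), bigp L k ≤ n + h - 1) :
    (h : ℝ) * (Real.log n - Real.log L) ≤ ((Nat.primeCounting L : ℝ) + 1) * Real.log (2 * n) := by
  have hN : n + h - 1 ≤ 2 * n := by omega
  have h1 : n ^ h ≤ L ^ h * (2 * n) ^ (Nat.primeCounting L + 1) := by
    calc n ^ h ≤ h ^ h * (n + h - 1) ^ (Nat.primeCounting L) * ∏ k ∈ Ico n (n + h), bigp L k :=
          smooth_prod hn hh hhL
      _ ≤ L ^ h * (2 * n) ^ (Nat.primeCounting L) * (2 * n) := by
          refine Nat.mul_le_mul (Nat.mul_le_mul (Nat.pow_le_pow_left hhL _) (Nat.pow_le_pow_left hN _)) (hp.trans hN)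
      _ = L ^ h * (2 * n) ^ (Nat.primeCounting L + 1) := by rw [pow_succ, mul_assoc]
  have h2 : (n : ℝ) ^ h ≤ (L : ℝ) ^ h * (2 * (n : ℝ)) ^ (Nat.primeCounting L + 1) := by
    exact_mod_cast h1
  have hn0 : (0 : ℝ) < n := by exact_mod_cast hn
  have hL0 : (0 : ℝ) < L := by exact_mod_cast (hh.trans hhL)
  have h3 := Real.log_le_log (by positivity) h2
  rw [Real.log_mul (by positivity) (by positivity), Real.log_pow, Real.log_pow, Real.log_pow] at h3
  push_cast at h3
  linarith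

/-- ROW Wd2. `cheb` (file `Poi/H5.lean`) gives `c0`. If at most one `k ∈ Ico n (n + h)` has a prime factor `> L` then all `bigp L k` but one are `1`, the
remaining one is at most `n + h - 1 ≤ 2 n` (`bigp L k ∣ k`), so by `smooth_prod` `n^h ≤ h^h (2 n)^(π(L) + 1)`:
`h log (n/h) ≤ (π(L) + 1) log (2 n)`. With `s = n / L ≥ C`, `h ≥ η L`, `h ≤ L`: `η L log s ≤ (c0 L / log L + 1) (log 2 + log s + log L)`, and for `L` large the right
side is at most `(2 c0 + 1) L + (η / 4) L log s`; a contradiction for `log s ≥ log C := 4 (2 c0 + 2) / η`. -/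
theorem two_big {η : ℝ} (hη : 0 < η) : ∃ C : ℝ, 1 ≤ C ∧ ∀ᶠ L : ℕ in atTop, ∀ n h : ℕ, C * L ≤ n → η * L ≤ h → h ≤ L →
    ∃ k k' q q' : ℕ, n ≤ k ∧ k < k' ∧ k' < n + h ∧ q.Prime ∧ q'.Prime ∧ L < q ∧ L < q' ∧ q ∣ k ∧ q' ∣ k' := by
  obtain ⟨c0, hc0, hc⟩ := cheb
  have hE : 0 < 2 * (c0 + 2) / η := by positivity
  refine ⟨Real.exp (2 * (c0 + 2) / η), Real.one_le_exp hE.le, ?_⟩
  have ht : Tendsto (fun L : ℕ => Real.log (L : ℝ)) atTop atTop :=
    Real.tendsto_log_atTop.comp tendsto_natCast_atTop_atTop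
  filter_upwards [eventually_ge_atTop 2, ht.eventually_ge_atTop (8 * c0 / η), ht.eventually_ge_atTop (c0 * Real.log 2),
    (tendsto_natCast_atTop_atTop (R := ℝ)).eventually_ge_atTop (8 / η)] with L hL2 hb hc2 he n h hCn hηh hhL
  have hLr : (2 : ℝ) ≤ L := by exact_mod_cast hL2
  have hL0 : (0 : ℝ) < L := by linarith
  have hh0 : (0 : ℝ) < h := lt_of_lt_of_le (by positivity) hηh
  have hh1 : 1 ≤ h := by exact_mod_cast Nat.one_le_iff_ne_zero.2 (by rintro rfl; simp at hh0)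
  have hexp : 1 ≤ Real.exp (2 * (c0 + 2) / η) := Real.one_le_exp hE.le
  have hLn' : (L : ℝ) ≤ n := by nlinarith
  have hLn : L ≤ n := by exact_mod_cast hLn'
  have hn1 : 1 ≤ n := by omega
  have hn0 : (0 : ℝ) < n := by linarith
  by_contra hcon
  have hp := Wd2_prod (L := L) hn1 hh1 (by
    intro k hk k' hk' hq hq'
    rw [Finset.mem_Ico] at hk hk'
    obtain ⟨q, hqp, hLq, hqk⟩ := hq
    obtain ⟨q', hqp', hLq', hqk'⟩ := hq'
    rcases lt_trichotomy k k' with hlt | heq | hgt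
    · exact absurd ⟨k, k', q, q', hk.1, hlt, hk'.2, hqp, hqp', hLq, hLq', hqk, hqk'⟩ hcon
    · exact heq
    · exact absurd ⟨k', k, q', q, hk'.1, hgt, hk.2, hqp', hqp, hLq', hLq, hqk', hqk⟩ hcon)
  have hlog := Wd2_log hn1 hh1 hhL hLn hp
  have hls : 2 * (c0 + 2) / η ≤ Real.log n - Real.log L := by
    have h1 := Real.log_le_log (by positivity) hCn
    rw [Real.log_mul (Real.exp_pos _).ne' hL0.ne', Real.log_exp] at h1
    linarith
  obtain ⟨s, hs⟩ : ∃ s, s = Real.log n - Real.log L := ⟨_, rfl⟩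
  have hlL : 0 < Real.log L := Real.log_pos (by linarith)
  have hlogn : Real.log (2 * n) = Real.log 2 + s + Real.log L := by
    rw [Real.log_mul (by norm_num) hn0.ne', hs]; ring
  rw [hlogn, ← hs] at hlog
  rw [← hs] at hls
  have hs0 : 0 < s := lt_of_lt_of_le hE hls
  have hpi := hc L hL2
  have hl2 : Real.log 2 ≤ 1 := by
    have := Real.log_le_sub_one_of_pos (show (0 : ℝ) < 2 by norm_num)
    linarith
  have hl20 : 0 < Real.log 2 := Real.log_pos (by norm_num)
  have hlL1 : Real.log L ≤ L - 1 := Real.log_le_sub_one_of_pos hL0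
  -- the quotient `c0 / log L`
  obtain ⟨a, ha⟩ : ∃ a, a = c0 * L / Real.log L := ⟨_, rfl⟩
  have ha1 : a * Real.log L = c0 * L := by rw [ha]; field_simp
  have ha0 : 0 ≤ a := by rw [ha]; positivity
  have ha2 : a ≤ η / 8 * L := by
    rw [ha, div_le_iff₀ hlL]
    rw [div_le_iff₀ hη] at hb
    nlinarith
  have ha3 : a * Real.log 2 ≤ L := by
    have h1 : a * Real.log 2 * Real.log L ≤ L * Real.log L := by
      calc a * Real.log 2 * Real.log L = (c0 * Real.log 2) * L := by rw [mul_right_comm, ha1]; ring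
        _ ≤ Real.log L * L := by nlinarith
        _ = L * Real.log L := by ring
    exact le_of_mul_le_mul_right h1 hlL
  have he' : 8 ≤ η * L := by
    rw [div_le_iff₀ hη] at he
    linarith
  rw [← ha] at hpi
  have h1 : η * L * s ≤ (a + 1) * (Real.log 2 + s + Real.log L) := by
    calc η * L * s ≤ h * s := mul_le_mul_of_nonneg_right hηh hs0.le
      _ ≤ ((Nat.primeCounting L : ℝ) + 1) * (Real.log 2 + s + Real.log L) := hlog
      _ ≤ (a + 1) * (Real.log 2 + s + Real.log L) := by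
          apply mul_le_mul_of_nonneg_right (by linarith)
          positivity
  have h2 : (a + 1) * (Real.log 2 + s + Real.log L) =
      a * Real.log 2 + a * s + c0 * L + Real.log 2 + s + Real.log L := by
    rw [← ha1]; ring
  have h3 : a * s ≤ η / 8 * L * s := mul_le_mul_of_nonneg_right ha2 hs0.le
  have h4 : s ≤ η / 8 * L * s := by nlinarith
  have h5 : 2 * (c0 + 2) ≤ η * s := by
    rw [div_le_iff₀ hη] at hls
    linarith
  have h6 : 2 * (c0 + 2) * L ≤ η * s * L := mul_le_mul_of_nonneg_right h5 hL0.le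
  have h7 : 0 < (c0 + 2) * L := by positivity
  nlinarith

/-- ROW Wd3. `two_big` with `η = 1 / (4 m^2)`, `n = M + j (L/m) + 1`, `h = (L/m)/m` (`≥ η L` for `L` large), for each `j < m`; `choose` (for `j ≥ m` anything). -/
theorem blkW_exists {m : ℕ} (hm : 2 ≤ m) : ∃ C : ℝ, 1 ≤ C ∧ ∀ᶠ L : ℕ in atTop, ∀ M : ℕ, C * L ≤ M →
    ∃ κ κ' q q' : ℕ → ℕ, BlkW M L m κ κ' q q' := by
  have hm0 : (0 : ℝ) < m := by exact_mod_cast (show 0 < m by omega)
  obtain ⟨C, hC, h⟩ := two_big (η := 1 / (4 * (m : ℝ) ^ 2)) (by positivity)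
  refine ⟨C, hC, ?_⟩
  filter_upwards [h, eventually_ge_atTop (2 * m ^ 2)] with L hL hL2 M hM
  have hη : 1 / (4 * (m : ℝ) ^ 2) * L ≤ (((L / m) / m : ℕ) : ℝ) := by
    rw [Nat.div_div_eq_div_mul]
    have hpos : 0 < m * m := Nat.mul_pos (by omega) (by omega)
    have h1 : L < m * m * (L / (m * m) + 1) := Nat.lt_mul_div_succ L hpos
    have h1' : (L : ℝ) < m * m * (((L / (m * m) : ℕ) : ℝ) + 1) := by exact_mod_cast h1
    have h2 : 2 * (m : ℝ) ^ 2 ≤ L := by exact_mod_cast hL2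
    have h3 : (0 : ℝ) ≤ (m : ℝ) ^ 2 := by positivity
    rw [div_mul_eq_mul_div, one_mul, div_le_iff₀ (by positivity)]
    have h4 : (m : ℝ) * m * (((L / (m * m) : ℕ) : ℝ) + 1) = (m : ℝ) ^ 2 * ((L / (m * m) : ℕ) : ℝ) + (m : ℝ) ^ 2 := by
      ring
    rw [h4] at h1'
    have h5 : ((L / (m * m) : ℕ) : ℝ) * (4 * (m : ℝ) ^ 2) = 4 * ((m : ℝ) ^ 2 * ((L / (m * m) : ℕ) : ℝ)) := by ring
    rw [h5]
    linarith
  have key : ∀ j : ℕ, ∃ k k' q q' : ℕ, M + j * (L / m) + 1 ≤ k ∧ k < k' ∧ k' < M + j * (L / m) + 1 + (L / m) / m ∧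
      q.Prime ∧ q'.Prime ∧ L < q ∧ L < q' ∧ q ∣ k ∧ q' ∣ k' := by
    intro j
    refine hL (M + j * (L / m) + 1) ((L / m) / m) ?_ hη ((Nat.div_le_self _ _).trans (Nat.div_le_self _ _))
    have h1 : M ≤ M + j * (L / m) + 1 := by omega
    exact hM.trans (by exact_mod_cast h1)
  choose κ κ' q q' hk using key
  refine ⟨κ, κ', q, q', ?_⟩
  exact {
    prime := fun j _ => (hk j).2.2.2.1
    prime' := fun j _ => (hk j).2.2.2.2.1
    big := fun j _ => (hk j).2.2.2.2.2.1
    big' := fun j _ => (hk j).2.2.2.2.2.2.1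
    dvd := fun j _ => (hk j).2.2.2.2.2.2.2.1
    dvd' := fun j _ => (hk j).2.2.2.2.2.2.2.2
    lo := fun j _ => (hk j).1
    lt := fun j _ => (hk j).2.1
    hi := fun j _ => by have := (hk j).2.2.1; omega }

theorem We3_exp {M L : ℕ} (hM : L * L ≤ M) : (M + L) ^ L ≤ 3 * (M + 1) ^ L := by
  have hM1 : (0 : ℝ) < (M : ℝ) + 1 := by positivity
  have h1 : ((M : ℝ) + L) ≤ ((M : ℝ) + 1) * Real.exp (L / (M + 1)) := by
    have h2 := Real.add_one_le_exp ((L : ℝ) / (M + 1))
    have h3 : ((M : ℝ) + 1) * ((L : ℝ) / (M + 1) + 1) = L + (M + 1) := by field_simp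
    nlinarith
  have h4 : ((M : ℝ) + L) ^ L ≤ (((M : ℝ) + 1) * Real.exp (L / (M + 1))) ^ L :=
    pow_le_pow_left₀ (by positivity) h1 L
  rw [mul_pow, ← Real.exp_nat_mul] at h4
  have h5 : (L : ℝ) * (L / (M + 1)) ≤ 1 := by
    rw [← mul_div_assoc, div_le_one hM1]
    have : (L : ℝ) * L ≤ M := by exact_mod_cast hM
    linarith
  have h6 : Real.exp ((L : ℝ) * (L / (M + 1))) ≤ 3 :=
    (Real.exp_le_exp.2 h5).trans (by have := Real.exp_one_lt_d9; linarith)
  have h7 : ((M : ℝ) + L) ^ L ≤ 3 * ((M : ℝ) + 1) ^ L := by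
    calc ((M : ℝ) + L) ^ L ≤ _ := h4
      _ ≤ ((M : ℝ) + 1) ^ L * 3 := by gcongr
      _ = _ := by ring
  exact_mod_cast h7

theorem We3_le {L k : ℕ} (hk : k ≠ 0) : bigp L k ≤ k := by
  have h1 : bigp L k ∣ ∏ q ∈ k.primeFactors, q ^ k.factorization q :=
    Finset.prod_dvd_prod_of_subset _ _ _ (Finset.filter_subset _ _)
  have h2 : ∏ q ∈ k.primeFactors, q ^ k.factorization q = k := by
    have h3 := Nat.prod_factorization_pow_eq_self hk
    rwa [Nat.prod_factorization_eq_prod_primeFactors] at h3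
  rw [h2] at h1
  exact Nat.le_of_dvd (Nat.pos_of_ne_zero hk) h1

theorem We3_prod {M L : ℕ} :
    (∏ k ∈ Ioc M (M + L), bigp L k) * (M + L) ^ ((Ioc M (M + L)).filter fun n => bigp L n = 1).card ≤
      (M + L) ^ L := by
  have h1 : (M + L) ^ ((Ioc M (M + L)).filter fun n => bigp L n = 1).card =
      ∏ k ∈ Ioc M (M + L), if bigp L k = 1 then M + L else 1 := by
    rw [← Finset.prod_filter, Finset.prod_const]
  have h2 : (M + L) ^ L = ∏ _k ∈ Ioc M (M + L), (M + L) := by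
    rw [Finset.prod_const, Nat.card_Ioc]; congr 1; omega
  rw [h1, h2, ← Finset.prod_mul_distrib]
  refine Finset.prod_le_prod' fun k hk => ?_
  rw [Finset.mem_Ioc] at hk
  split_ifs with h
  · rw [h, one_mul]
  · rw [mul_one]
    exact (We3_le (by omega)).trans hk.2

theorem We3_main {M L A : ℕ} (hL : 3 ≤ L) (hA : 2 ≤ A) (hM : L ^ A ≤ M) :
    ((Ioc M (M + L)).filter fun n => bigp L n = 1).card ≤ 2 + L / A + Nat.primeCounting L := by
  set s := ((Ioc M (M + L)).filter fun n => bigp L n = 1).card with hs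
  set P := ∏ k ∈ Ioc M (M + L), bigp L k with hP
  have hLM : L * L ≤ M := by
    calc L * L = L ^ 2 := by ring
      _ ≤ L ^ A := Nat.pow_le_pow_right (by omega) hA
      _ ≤ M := hM
  have h1 : (M + 1) ^ L ≤ L ^ L * (M + L) ^ (Nat.primeCounting L) * P := by
    have h := smooth_prod (n := M + 1) (h := L) (L := L) (by omega) (by omega) le_rfl
    have e1 : M + 1 + L - 1 = M + L := by omega
    have e2 : Ico (M + 1) (M + 1 + L) = Ioc M (M + L) := by
      ext z; simp only [Finset.mem_Ico, Finset.mem_Ioc]; omega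
    rw [e1, e2] at h
    exact h
  have h2 : P * (M + L) ^ s ≤ (M + L) ^ L := We3_prod
  have h3 : (M + L) ^ L ≤ 3 * (M + 1) ^ L := We3_exp hLM
  have h4 : L ^ L ≤ (M + L) ^ (L / A + 1) := by
    calc L ^ L ≤ L ^ (A * (L / A + 1)) :=
          Nat.pow_le_pow_right (by omega) (Nat.lt_mul_div_succ L (by omega)).le
      _ = (L ^ A) ^ (L / A + 1) := by rw [pow_mul]
      _ ≤ (M + L) ^ (L / A + 1) := Nat.pow_le_pow_left (by omega) _
  have h5 : (M + L) ^ s * (M + 1) ^ L ≤ (3 * L ^ L * (M + L) ^ (Nat.primeCounting L)) * (M + 1) ^ L := by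
    calc (M + L) ^ s * (M + 1) ^ L ≤ (M + L) ^ s * (L ^ L * (M + L) ^ (Nat.primeCounting L) * P) :=
          Nat.mul_le_mul_left _ h1
      _ = L ^ L * (M + L) ^ (Nat.primeCounting L) * (P * (M + L) ^ s) := by ring
      _ ≤ L ^ L * (M + L) ^ (Nat.primeCounting L) * (3 * (M + 1) ^ L) :=
          Nat.mul_le_mul_left _ (h2.trans h3)
      _ = _ := by ring
  have h6 : (M + L) ^ s ≤ 3 * L ^ L * (M + L) ^ (Nat.primeCounting L) :=
    Nat.le_of_mul_le_mul_right h5 (by positivity)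
  have h7 : (M + L) ^ s ≤ (M + L) ^ (2 + L / A + Nat.primeCounting L) := by
    calc (M + L) ^ s ≤ 3 * L ^ L * (M + L) ^ (Nat.primeCounting L) := h6
      _ ≤ (M + L) * (M + L) ^ (L / A + 1) * (M + L) ^ (Nat.primeCounting L) := by
          gcongr
          omega
      _ = _ := by ring
  exact (Nat.pow_le_pow_iff_right (by omega)).1 h7

/-- ROW We3. `smooth_prod` with `n = M + 1`, `h = L`: let `s` be the cardinality of the set. `bigp L k = 1` for its elements and `bigp L k ≤ k ≤ M + L` for the others: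
`(M + 1)^L ≤ L^L (M + L)^π(L) (M + L)^(L - s)`, and `(M + L)^L ≤ (M + 1)^L (1 + L/M)^L ≤ 3 (M + 1)^L` (`M ≥ L^2`): `s log (M + L) ≤ L log L + π(L) log (M + L) + log 3`,
so `s ≤ L / A + π(L) + 2`; `π(L) ≤ c0 L / log L` (`cheb`). `A ≥ 2`, `A ≥ 4/ε`. -/
theorem smooth_few {ε : ℝ} (hε : 0 < ε) : ∃ A : ℕ, 1 ≤ A ∧ ∀ᶠ L : ℕ in atTop, ∀ M : ℕ, L ^ A ≤ M →
    (((Ioc M (M + L)).filter fun n => bigp L n = 1).card : ℝ) ≤ ε * L := by
  obtain ⟨c0, hc0, hc⟩ := cheb
  obtain ⟨A0, hA0⟩ := exists_nat_ge (4 / ε)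
  refine ⟨max 2 A0, by omega, ?_⟩
  have e1 : ∀ᶠ L : ℕ in atTop, (2 : ℝ) ≤ ε / 4 * L :=
    ((tendsto_natCast_atTop_atTop (R := ℝ)).const_mul_atTop
      (show 0 < ε / 4 by positivity)).eventually_ge_atTop 2
  have e2 : ∀ᶠ L : ℕ in atTop, 4 * c0 / ε ≤ Real.log L :=
    (Real.tendsto_log_atTop.comp tendsto_natCast_atTop_atTop).eventually_ge_atTop _
  filter_upwards [e1, e2, eventually_ge_atTop 3] with L h1 h2 h3 M hM
  have h4 := We3_main h3 (le_max_left 2 A0) hM
  have hL0 : (0 : ℝ) < L := by exact_mod_cast (show 0 < L by omega)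
  have h5 : ((L / max 2 A0 : ℕ) : ℝ) ≤ ε / 4 * L := by
    have hA : 4 / ε ≤ ((max 2 A0 : ℕ) : ℝ) := hA0.trans (by exact_mod_cast le_max_right 2 A0)
    have hApos : (0 : ℝ) < ((max 2 A0 : ℕ) : ℝ) := lt_of_lt_of_le (by positivity) hA
    refine (Nat.cast_div_le).trans ?_
    rw [div_le_iff₀ hApos]
    have h6 : 1 ≤ ε / 4 * ((max 2 A0 : ℕ) : ℝ) := by
      rw [div_le_iff₀ hε] at hA
      linarith
    nlinarith
  have hlog : 0 < Real.log L := Real.log_pos (by exact_mod_cast (show 1 < L by omega))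
  have h7 : (Nat.primeCounting L : ℝ) ≤ ε / 4 * L := by
    refine (hc L (by omega)).trans ?_
    rw [div_le_iff₀ hlog]
    rw [div_le_iff₀ hε] at h2
    nlinarith
  have h8 : (((Ioc M (M + L)).filter fun n => bigp L n = 1).card : ℝ) ≤
      2 + ((L / max 2 A0 : ℕ) : ℝ) + (Nat.primeCounting L : ℝ) := by exact_mod_cast h4
  linarith [mul_pos hε hL0]

end Pool.Agent.Lib.MP_de5eaa_nt.Poi
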