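import Pool.Agent.Lib.MP_de5eaa_nt.Poi.W0

set_option autoImplicit false

namespace Pool.Agent.Lib.MP_de5eaa_nt.Poi

open Finset MeasureTheory Filter Topology
open Pool.Agent.Lib.MP_de5eaa_nt.Near (hs wq ppi LW ZW)

/-- ROW We1. The proofs of `pp_le`, `pp_nonneg` (file `Poi/H6.lean`) with `LW M L` (`den_dvd_LW`, `LW_pos`, file `Near/Q5.lean`). -/
theorem ppW_le {R : ℝ} (hR : 0 ≤ R) {M L n m b : ℕ} (hL : 4 * R < L) (hn : M < n) (hm : m ≤ M + L + 1)
    (hb : b ∣ (hs n m).den) (hc : b.Coprime ((hs n m).den / b)) :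
    ppW R M L n m * (b.totient : ℝ) ≤ 4 * R * b / L + 1 := by
  have hb0 : 0 < b := Nat.pos_of_dvd_of_pos hb (hs n m).den_pos
  have hN : Nice (Set.Icc (-(2 * R)) (2 * R)) (2 * R - -(2 * R)) 1 (2 * R) :=
    nice_Icc (by linarith) le_rfl le_rfl
  have hA : ∀ c : ℝ, ∑ r ∈ UU b, hI (Set.Icc (-(2 * R)) (2 * R)) (L : ℝ) 0 (c + (r : ℝ) / b)
      ≤ 4 * R * b / L + 1 := by
    intro c
    have h := arc_le hN (L := (L : ℝ)) (by linarith) hb0 0 c
    have e : (2 * R - -(2 * R)) * (b : ℝ) / L + 1 = 4 * R * b / L + 1 := by ring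
    linarith
  have hF := fib_le (Near.LW_pos M L) (Near.den_dvd_LW hn hm) hb hc hA
  have hφ : (0 : ℝ) < ((LW M L).totient : ℝ) := by
    exact_mod_cast Nat.totient_pos.2 (Near.LW_pos M L)
  unfold ppW
  rw [div_mul_eq_mul_div, div_le_iff₀ hφ]
  linarith

theorem ppW_nonneg (R : ℝ) (M L n m : ℕ) : 0 ≤ ppW R M L n m := by
  unfold ppW
  refine div_nonneg (Finset.sum_nonneg fun u _ => ?_) (Nat.cast_nonneg _)
  unfold hI
  split_ifs
  · exact zero_le_one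
  · exact le_rfl

/-- ROW We2. `ppW_le` with `b = q^a`, `a = k.factorization q`: `k` is the only number of `[n, m)` divisible by `q` (`m - n ≤ L < q`), so `a` is the factorization of
the denominator at `q` (`den_val`, file `Poi/H2.lean`). `φ(b) ≥ b / 2`, `b ≥ L`. -/
theorem ppW_big {R : ℝ} (hR : 0 ≤ R) {M L n m k q : ℕ} (hL : 4 * R < L) (hn : M < n) (hm : m ≤ M + L) (h1 : n ≤ k)
    (h2 : k < m) (hq : q.Prime) (hLq : L < q) (hqk : q ∣ k) : ppW R M L n m ≤ (8 * R + 2) / L := by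
  have hL0 : (0 : ℝ) < L := by linarith
  have hk0 : k ≠ 0 := by omega
  have ha : 0 < k.factorization q := hq.factorization_pos_of_dvd hk0 hqk
  have hval : (hs n m).den.factorization q = k.factorization q := by
    refine den_val hq (by omega) h1 h2 ha fun l hl1 hl2 hl3 => ?_
    have hnd : ¬ q ∣ l := by
      intro hd
      rcases lt_or_gt_of_ne hl3 with h | h
      · have := Nat.le_of_dvd (by omega) (Nat.dvd_sub hqk hd)
        omega
      · have := Nat.le_of_dvd (by omega) (Nat.dvd_sub hd hqk)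
        omega
    rw [Nat.factorization_eq_zero_of_not_dvd hnd]
    exact ha
  set a := k.factorization q with hadef
  have hb : q ^ a ∣ (hs n m).den := by
    rw [← hval]
    exact Nat.ordProj_dvd _ _
  have hc : (q ^ a).Coprime ((hs n m).den / q ^ a) := by
    have h3 := Nat.coprime_ordCompl hq (hs n m).den_ne_zero
    rw [hval] at h3
    exact Nat.Coprime.pow_left a h3
  have h4 := ppW_le hR hL hn (by omega : m ≤ M + L + 1) hb hc
  have hqL : (L : ℝ) < q := by exact_mod_cast hLq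
  have hq0 : (0 : ℝ) < q := by exact_mod_cast hq.pos
  have hq2 : (2 : ℝ) ≤ q := by exact_mod_cast hq.two_le
  have h5 : ((q ^ a).totient : ℝ) = (q : ℝ) ^ (a - 1) * ((q : ℝ) - 1) := by
    rw [Nat.totient_prime_pow hq ha]
    push_cast [Nat.cast_sub hq.one_le]
    ring
  have h6 : ((q ^ a : ℕ) : ℝ) = (q : ℝ) ^ (a - 1) * q := by
    rw [← pow_succ, Nat.sub_add_cancel ha]
    push_cast
    ring
  have h7 : (1 : ℝ) ≤ (q : ℝ) ^ (a - 1) := one_le_pow₀ (by linarith)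
  have h8 : ((q ^ a : ℕ) : ℝ) ≤ 2 * ((q ^ a).totient : ℝ) := by
    rw [h5, h6]
    nlinarith
  have h9 : (L : ℝ) ≤ 2 * ((q ^ a).totient : ℝ) := by
    refine le_trans ?_ h8
    rw [h6]
    nlinarith
  have h10 : (0 : ℝ) < ((q ^ a).totient : ℝ) := by linarith
  rw [← mul_le_mul_iff_left₀ h10]
  refine h4.trans ?_
  have h11 : 4 * R * ((q ^ a : ℕ) : ℝ) / L ≤ 8 * R / L * ((q ^ a).totient : ℝ) := by
    rw [div_mul_eq_mul_div]
    refine div_le_div_of_nonneg_right ?_ hL0.le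
    nlinarith
  have h12 : (1 : ℝ) ≤ 2 / L * ((q ^ a).totient : ℝ) := by
    rw [div_mul_eq_mul_div, le_div_iff₀ hL0]
    linarith
  have h13 : (8 * R + 2) / L * ((q ^ a).totient : ℝ) = 8 * R / L * ((q ^ a).totient : ℝ) + 2 / L * ((q ^ a).totient : ℝ) := by
    ring
  rw [h13]
  linarith

theorem We4_expl {R : ℝ} (hR : 0 ≤ R) {M L n m : ℕ} (hL : 4 * R < L) (hn : M < n) (hnm : n < m)
    (hm : m ≤ M + L) :
    ppW R M L n m ≤ (((m - n : ℕ) : ℝ) * ((Nat.log 2 (M + L) : ℕ) + 1) + 1) *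
      (4 * R / L + ((m - n : ℕ) : ℝ) / n) := by
  have hn1 : 1 ≤ n := by omega
  have hB : 0 < (hs n m).den := (hs n m).pos
  have hL0 : (0 : ℝ) < L := lt_of_le_of_lt (mul_nonneg (by norm_num) hR) hL
  have hn0 : (0 : ℝ) < n := by exact_mod_cast hn1
  have h1 := ppW_le (b := (hs n m).den) hR hL hn (hm.trans (Nat.le_succ (M + L))) dvd_rfl (by
    rw [Nat.div_self hB]
    exact Nat.coprime_one_right _)
  have h2 := totient_ge (hs n m).den hB
  have h3 := den_ge hn1 hnm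
  have h4 := den_le (L := M + L) hn1 (hm.trans (Nat.le_succ (M + L)))
  have hφ : (0 : ℝ) < ((hs n m).den.totient : ℝ) := by
    exact_mod_cast Nat.totient_pos.2 hB
  have hh0 : (0 : ℝ) ≤ ((m - n : ℕ) : ℝ) / n := div_nonneg (Nat.cast_nonneg _) hn0.le
  have hR0 : 0 ≤ 4 * R / L := div_nonneg (mul_nonneg (by norm_num) hR) hL0.le
  have hs0 : 0 ≤ 4 * R / L + ((m - n : ℕ) : ℝ) / n := add_nonneg hR0 hh0
  have h5 : 4 * R * ((hs n m).den : ℝ) / L + 1 ≤
      (4 * R / L + ((m - n : ℕ) : ℝ) / n) * ((hs n m).den : ℝ) := by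
    have h6 : 1 ≤ ((m - n : ℕ) : ℝ) / n * ((hs n m).den : ℝ) := by
      rw [div_mul_eq_mul_div, le_div_iff₀ hn0, one_mul]
      exact h3
    have h7 : 4 * R * ((hs n m).den : ℝ) / L = 4 * R / L * ((hs n m).den : ℝ) := by ring
    rw [h7, add_mul]
    linarith
  have hlog : Nat.log 2 (hs n m).den ≤ (m - n) * (Nat.log 2 (M + L) + 1) := by
    have h8 : (hs n m).den ≤ 2 ^ ((m - n) * (Nat.log 2 (M + L) + 1)) := by
      refine h4.trans ?_
      rw [Nat.mul_comm, pow_mul]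
      exact Nat.pow_le_pow_left (Nat.lt_pow_succ_log_self (by norm_num) (M + L)).le _
    calc Nat.log 2 (hs n m).den ≤ Nat.log 2 (2 ^ ((m - n) * (Nat.log 2 (M + L) + 1))) :=
          Nat.log_mono_right h8
      _ = (m - n) * (Nat.log 2 (M + L) + 1) := Nat.log_pow (by norm_num) _
  have hlog' : ((Nat.log 2 (hs n m).den : ℕ) : ℝ) ≤
      ((m - n : ℕ) : ℝ) * ((Nat.log 2 (M + L) : ℕ) + 1) := by
    exact_mod_cast hlog
  have h9 : ppW R M L n m * ((hs n m).den.totient : ℝ) ≤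
      ((((m - n : ℕ) : ℝ) * ((Nat.log 2 (M + L) : ℕ) + 1) + 1) *
        (4 * R / L + ((m - n : ℕ) : ℝ) / n)) * ((hs n m).den.totient : ℝ) := by
    calc ppW R M L n m * ((hs n m).den.totient : ℝ) ≤ 4 * R * ((hs n m).den : ℝ) / L + 1 := h1
      _ ≤ (4 * R / L + ((m - n : ℕ) : ℝ) / n) * ((hs n m).den : ℝ) := h5
      _ ≤ (4 * R / L + ((m - n : ℕ) : ℝ) / n) *
            (((Nat.log 2 (hs n m).den : ℕ) + 1 : ℝ) * ((hs n m).den.totient : ℝ)) :=
          mul_le_mul_of_nonneg_left h2 hs0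
      _ ≤ (4 * R / L + ((m - n : ℕ) : ℝ) / n) *
            ((((m - n : ℕ) : ℝ) * ((Nat.log 2 (M + L) : ℕ) + 1) + 1) *
              ((hs n m).den.totient : ℝ)) := by
          refine mul_le_mul_of_nonneg_left ?_ hs0
          refine mul_le_mul_of_nonneg_right ?_ hφ.le
          linarith
      _ = _ := by ring
  exact le_of_mul_le_mul_right h9 hφ

theorem We4_log {A M L : ℕ} (hL : 2 ≤ L) (hM : M ≤ L ^ A) (hLM : L ≤ M) :
    ((Nat.log 2 (M + L) : ℕ) : ℝ) ≤ 2 * ((A : ℝ) + 1) * Real.log (L : ℝ) := by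
  have h1 : M + L ≤ L ^ (A + 1) := by
    have h2 : M + L ≤ 2 * L ^ A := by omega
    have h3 : 2 * L ^ A ≤ L * L ^ A := Nat.mul_le_mul_right _ hL
    rw [pow_succ]
    calc M + L ≤ 2 * L ^ A := h2
      _ ≤ L * L ^ A := h3
      _ = L ^ A * L := Nat.mul_comm _ _
  have h4 := K3_log (L := M + L) (by omega)
  have h5 : Real.log ((M + L : ℕ) : ℝ) ≤ ((A : ℝ) + 1) * Real.log (L : ℝ) := by
    have h6 : ((M + L : ℕ) : ℝ) ≤ (L : ℝ) ^ (A + 1) := by exact_mod_cast h1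
    have h7 : (0 : ℝ) < ((M + L : ℕ) : ℝ) := by exact_mod_cast (by omega : 0 < M + L)
    have h8 := Real.log_le_log h7 h6
    rw [Real.log_pow] at h8
    push_cast at h8 ⊢
    exact h8
  calc ((Nat.log 2 (M + L) : ℕ) : ℝ) ≤ 2 * Real.log ((M + L : ℕ) : ℝ) := h4
    _ ≤ 2 * (((A : ℝ) + 1) * Real.log (L : ℝ)) := by linarith
    _ = 2 * ((A : ℝ) + 1) * Real.log (L : ℝ) := by ring

/-- ROW We4. As `pp_small` (file `Poi/K3.lean`, with `pp_expl` of `Poi/K2.lean`, `totient_ge`, `den_ge`, `den_le` of `Poi/K1.lean`): `ppW_le` with `b = den`. Let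
`h = m - n`; `n ≤ M + L ≤ 2 L^A`, so `h^(8 A) < 2 L^A`, `h ≤ 2 L^(1/8)`; `den ≥ n/h ≥ L/h`, `den ≤ (M + L)^h ≤ (2 L^A)^h`, so
`ppW ≤ (Nat.log 2 den + 1) (4 R / L + 1 / den) ≤ (h (1 + A log2 L) + 1) (4 R / L + h / L) ≤ L^(-1/2)` for `L` large. -/
theorem ppW_small {A : ℕ} (hA : 1 ≤ A) {R : ℝ} (hR : 0 ≤ R) : ∀ᶠ L : ℕ in atTop, ∀ M n m : ℕ, L ≤ M → M ≤ L ^ A →
    M < n → n < m → m ≤ M + L → (m - n) ^ (8 * A) < n → ppW R M L n m ≤ (L : ℝ) ^ (-(1 / 2) : ℝ) := by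
  have e1 : ∀ᶠ L : ℕ in atTop, 4 * R < (L : ℝ) :=
    tendsto_natCast_atTop_atTop.eventually (eventually_gt_atTop (4 * R))
  filter_upwards [e1, eventually_ge_atTop 2, K3_ev (2 * (4 * R + 2) * ((A : ℝ) + 1))] with L hL1 hL2 hL3
  intro M n m hLM hMA hn hnm hm h8
  have hL0 : 1 ≤ L := by omega
  have hLpos : (0 : ℝ) < (L : ℝ) := by exact_mod_cast hL0
  have hn1 : 1 ≤ n := by omega
  have hnpos : (0 : ℝ) < (n : ℝ) := by exact_mod_cast hn1
  have hLn : (L : ℝ) ≤ (n : ℝ) := by exact_mod_cast (by omega : L ≤ n)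
  have hexpl := We4_expl hR hL1 hn hnm hm
  have hlog := We4_log hL2 hMA hLM
  obtain ⟨h, hh⟩ : ∃ h : ℕ, h = m - n := ⟨_, rfl⟩
  rw [← hh] at hexpl h8
  have hh1 : 1 ≤ h := by omega
  have hh1' : (1 : ℝ) ≤ (h : ℝ) := by exact_mod_cast hh1
  -- `t = L^(1/8)`
  obtain ⟨t, ht⟩ : ∃ t : ℝ, t = (L : ℝ) ^ (1 / 8 : ℝ) := ⟨_, rfl⟩
  have htpos : 0 < t := by rw [ht]; exact Real.rpow_pos_of_pos hLpos _
  have ht8 : t ^ 8 = (L : ℝ) := by
    rw [ht, ← Real.rpow_natCast, ← Real.rpow_mul hLpos.le]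
    norm_num
  have ht4 : (L : ℝ) ^ (-(1 / 2) : ℝ) = (t ^ 4)⁻¹ := by
    rw [Real.rpow_neg hLpos.le, ht, ← Real.rpow_natCast, ← Real.rpow_mul hLpos.le]
    norm_num
  have hL1' : (1 : ℝ) ≤ (L : ℝ) := by exact_mod_cast hL0
  have ht1 : 1 ≤ t := by
    rw [ht]
    exact Real.one_le_rpow hL1' (by norm_num)
  rw [← ht] at hL3
  have hlogL : 0 ≤ Real.log (L : ℝ) := Real.log_nonneg hL1'
  have hA1 : (1 : ℝ) ≤ (A : ℝ) + 1 := by
    have : (0 : ℝ) ≤ (A : ℝ) := Nat.cast_nonneg _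
    linarith
  -- `h ≤ 2 t`
  have hht : (h : ℝ) ≤ 2 * t := by
    refine le_of_pow_le_pow_left₀ (n := 8 * A) (by omega) (by positivity) ?_
    have h9 : (h : ℝ) ^ (8 * A) ≤ 2 * (L : ℝ) ^ A := by
      have h10 : h ^ (8 * A) ≤ 2 * L ^ A := by
        have h11 : n ≤ 2 * L ^ A := by omega
        exact h8.le.trans h11
      exact_mod_cast h10
    have h12 : (2 * t) ^ (8 * A) = 2 ^ (8 * A) * (L : ℝ) ^ A := by
      rw [mul_pow, pow_mul t, ht8]
    rw [h12]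
    refine h9.trans (mul_le_mul_of_nonneg_right ?_ (by positivity))
    calc (2 : ℝ) = 2 ^ 1 := (pow_one _).symm
      _ ≤ 2 ^ (8 * A) := pow_le_pow_right₀ (by norm_num) (by omega)
  have hlog0 : (0 : ℝ) ≤ ((Nat.log 2 (M + L) : ℕ) : ℝ) := Nat.cast_nonneg _
  -- first factor
  have hC : (h : ℝ) * (((Nat.log 2 (M + L) : ℕ) : ℝ) + 1) + 1 ≤
      2 * t * (((A : ℝ) + 1) * (2 * Real.log (L : ℝ) + 2)) := by
    have c1 : (h : ℝ) * (((Nat.log 2 (M + L) : ℕ) : ℝ) + 1) + 1 ≤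
        (h : ℝ) * (((Nat.log 2 (M + L) : ℕ) : ℝ) + 2) := by
      have : (h : ℝ) * (((Nat.log 2 (M + L) : ℕ) : ℝ) + 2) =
        (h : ℝ) * (((Nat.log 2 (M + L) : ℕ) : ℝ) + 1) + h := by ring
      rw [this]
      linarith
    have c2 : ((Nat.log 2 (M + L) : ℕ) : ℝ) + 2 ≤ ((A : ℝ) + 1) * (2 * Real.log (L : ℝ) + 2) := by
      have : ((A : ℝ) + 1) * (2 * Real.log (L : ℝ) + 2) =
        2 * ((A : ℝ) + 1) * Real.log (L : ℝ) + 2 * ((A : ℝ) + 1) := by ring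
      rw [this]
      linarith
    exact c1.trans (mul_le_mul hht c2 (by positivity) (by positivity))
  -- second factor
  have hB : 4 * R / (L : ℝ) + (h : ℝ) / n ≤ (4 * R + 2) * t / t ^ 8 := by
    rw [ht8]
    have b1 : 4 * R / (L : ℝ) ≤ 4 * R * t / L := by
      refine div_le_div_of_nonneg_right ?_ hLpos.le
      have : 4 * R * 1 ≤ 4 * R * t := mul_le_mul_of_nonneg_left ht1 (by positivity)
      linarith
    have b2 : (h : ℝ) / n ≤ 2 * t / L := by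
      refine (div_le_div_of_nonneg_right hht hnpos.le).trans ?_
      exact div_le_div_of_nonneg_left (by positivity) hLpos hLn
    calc 4 * R / (L : ℝ) + (h : ℝ) / n ≤ 4 * R * t / L + 2 * t / L := add_le_add b1 b2
      _ = (4 * R + 2) * t / L := by ring
  rw [ht4]
  refine hexpl.trans ?_
  calc ((h : ℝ) * (((Nat.log 2 (M + L) : ℕ) : ℝ) + 1) + 1) * (4 * R / (L : ℝ) + (h : ℝ) / n)
      ≤ (2 * t * (((A : ℝ) + 1) * (2 * Real.log (L : ℝ) + 2))) * ((4 * R + 2) * t / t ^ 8) :=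
        mul_le_mul hC hB (by positivity) (by positivity)
    _ = (2 * (4 * R + 2) * ((A : ℝ) + 1) * (2 * Real.log (L : ℝ) + 2)) * (t ^ 2 / t ^ 8) := by ring
    _ ≤ t * (t ^ 2 / t ^ 8) := mul_le_mul_of_nonneg_right hL3 (by positivity)
    _ ≤ (t ^ 4)⁻¹ := by
        have d1 : t * (t ^ 2 / t ^ 8) = (t ^ 5)⁻¹ := by field_simp
        rw [d1]
        exact inv_anti₀ (by positivity) (pow_le_pow_right₀ ht1 (by norm_num))

theorem We5_expB (B : ℕ) : ∃ h0 : ℕ, 2 ≤ h0 ∧ ∀ h : ℕ, h0 ≤ h → (h : ℝ) ^ B ≤ Real.exp h := by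
  have ho := (Real.tendsto_pow_mul_exp_neg_atTop_nhds_zero B).comp
    (tendsto_natCast_atTop_atTop (R := ℝ))
  have hev := ho.eventually (gt_mem_nhds (zero_lt_one' ℝ))
  obtain ⟨h0, hh0⟩ := eventually_atTop.1 hev
  refine ⟨max h0 2, le_max_right _ _, fun h hh => ?_⟩
  have h1 := hh0 h ((le_max_left _ _).trans hh)
  simp only [Function.comp] at h1
  rw [Real.exp_neg, ← div_eq_mul_inv, div_lt_one (Real.exp_pos _)] at h1
  exact h1.le

theorem We5_two {B n h : ℕ} (hh : 2 ≤ h) (hhn : h ≤ n) (hn : n ≤ h ^ B) : n + h - 1 ≤ h ^ (B + 1) := by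
  have e2 : h ^ B * 2 ≤ h ^ B * h := Nat.mul_le_mul_left _ hh
  rw [pow_succ]
  omega

theorem We5_card {B n h : ℕ} (hh : 2 ≤ h) (hhn : h ≤ n) (hn : n ≤ h ^ B) :
    (((n + h - 1).choose h).primeFactors.filter (h < ·)).card ≤ (B + 1) * h := by
  have hC : 0 < (n + h - 1).choose h := Nat.choose_pos (by omega)
  have h1 : h ^ (((n + h - 1).choose h).primeFactors.filter (h < ·)).card ≤
      ∏ q ∈ ((n + h - 1).choose h).primeFactors.filter (h < ·), q := by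
    rw [← Finset.prod_const]
    exact Finset.prod_le_prod' fun q hq => (Finset.mem_filter.1 hq).2.le
  have h2 : ∏ q ∈ ((n + h - 1).choose h).primeFactors.filter (h < ·), q ≤
      ∏ q ∈ ((n + h - 1).choose h).primeFactors, q :=
    Finset.prod_le_prod_of_subset_of_one_le' (Finset.filter_subset _ _)
      fun q hq _ => (Nat.prime_of_mem_primeFactors hq).one_le
  have h3 : ∏ q ∈ ((n + h - 1).choose h).primeFactors, q ≤ (n + h - 1).choose h :=
    Nat.le_of_dvd hC (Nat.prod_primeFactors_dvd _)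
  have h4 : (n + h - 1).choose h ≤ (n + h - 1) ^ h := Nat.choose_le_pow _ _
  have h5 := We5_two hh hhn hn
  have h6 : (n + h - 1) ^ h ≤ h ^ ((B + 1) * h) := by
    rw [pow_mul]
    exact Nat.pow_le_pow_left h5 h
  exact (Nat.pow_le_pow_iff_right (by omega)).1 (h1.trans (h2.trans (h3.trans (h4.trans h6))))

theorem We5_phi {B n h : ℕ} (hh : 2 ≤ h) (hhn : h ≤ n) (hn : n ≤ h ^ B) :
    ((rough h (n + h - 1) : ℕ) : ℝ) ≤ Real.exp (B + 1) * ((rough h (n + h - 1)).totient : ℝ) := by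
  have hcard := We5_card hh hhn hn
  have hsub := H4b_sub h (n + h - 1)
  have h0 : (0 : ℝ) < h := by exact_mod_cast (by omega : 0 < h)
  have htot : (((rough h (n + h - 1)).totient : ℕ) : ℝ) = ((rough h (n + h - 1) : ℕ) : ℝ) *
      ∏ q ∈ (rough h (n + h - 1)).primeFactors, (1 - (q : ℝ)⁻¹) := by
    have h1 := Nat.totient_eq_mul_prod_factors (rough h (n + h - 1))
    have h2 : ((((rough h (n + h - 1)).totient : ℕ) : ℚ) : ℝ) =
        (((((rough h (n + h - 1) : ℕ) : ℚ) *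
          ∏ q ∈ (rough h (n + h - 1)).primeFactors, (1 - (q : ℚ)⁻¹) : ℚ)) : ℝ) := by
      rw [h1]
    push_cast at h2
    exact h2
  have hT : (rough h (n + h - 1)).primeFactors.card ≤ (B + 1) * h :=
    (Finset.card_le_card hsub).trans hcard
  have hprod : Real.exp (-((B : ℝ) + 1)) ≤
      ∏ q ∈ (rough h (n + h - 1)).primeFactors, (1 - (q : ℝ)⁻¹) := by
    have h1 : ∏ _q ∈ (rough h (n + h - 1)).primeFactors, Real.exp (-(1 / (h : ℝ))) ≤
        ∏ q ∈ (rough h (n + h - 1)).primeFactors, (1 - (q : ℝ)⁻¹) :=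
      Finset.prod_le_prod (fun q _ => (Real.exp_pos _).le)
        (fun q hq => H4b_factor hh (Finset.mem_filter.1 (hsub hq)).2)
    rw [Finset.prod_const, ← Real.exp_nat_mul] at h1
    refine le_trans (Real.exp_le_exp.2 ?_) h1
    have h2 : (((rough h (n + h - 1)).primeFactors.card : ℕ) : ℝ) ≤ ((B : ℝ) + 1) * h := by
      exact_mod_cast hT
    have h3 : (((rough h (n + h - 1)).primeFactors.card : ℕ) : ℝ) * (1 / (h : ℝ)) ≤ (B : ℝ) + 1 := by
      rw [mul_one_div, div_le_iff₀ h0]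
      exact h2
    linarith
  have hr : (0 : ℝ) ≤ ((rough h (n + h - 1) : ℕ) : ℝ) := Nat.cast_nonneg _
  rw [htot]
  have h5 : (1 : ℝ) ≤ Real.exp (B + 1) *
      ∏ q ∈ (rough h (n + h - 1)).primeFactors, (1 - (q : ℝ)⁻¹) := by
    have h6 : Real.exp ((B : ℝ) + 1) * Real.exp (-((B : ℝ) + 1)) = 1 := by
      rw [← Real.exp_add]
      simp
    exact h6.symm.le.trans (mul_le_mul_of_nonneg_left hprod (Real.exp_pos _).le)
  calc ((rough h (n + h - 1) : ℕ) : ℝ) = ((rough h (n + h - 1) : ℕ) : ℝ) * 1 := (mul_one _).symm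
    _ ≤ ((rough h (n + h - 1) : ℕ) : ℝ) * (Real.exp (B + 1) *
      ∏ q ∈ (rough h (n + h - 1)).primeFactors, (1 - (q : ℝ)⁻¹)) :=
        mul_le_mul_of_nonneg_left h5 hr
    _ = _ := by ring

theorem We5_log {c0 : ℝ} (hc0 : 0 < c0)
    (hch : ∀ h : ℕ, 2 ≤ h → (Nat.primeCounting h : ℝ) ≤ c0 * h / Real.log h)
    {B n h : ℕ} (hh : 2 ≤ h) (hn : n ≤ h ^ B) (hη : (h : ℝ) ≤ Real.exp (-(((B : ℝ) + 1) * c0 + 1)) * n) :
    Real.exp h ≤ (rough h (n + h - 1) : ℝ) := by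
  have hhR : (2 : ℝ) ≤ (h : ℝ) := by exact_mod_cast hh
  have hB0 : (0 : ℝ) ≤ (B : ℝ) := Nat.cast_nonneg _
  have hη1 : Real.exp (-(((B : ℝ) + 1) * c0 + 1)) ≤ 1 :=
    Real.exp_le_one_iff.2 (by have : 0 ≤ ((B : ℝ) + 1) * c0 := by positivity
                              linarith)
  have hhn : (h : ℝ) ≤ n := hη.trans (by
    have : (0 : ℝ) ≤ n := by positivity
    nlinarith)
  have hhn' : h ≤ n := by exact_mod_cast hhn
  have hge := rough_ge (n := n) (h := h) (by omega) (by omega)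
  have hrp : 0 < rough h (n + h - 1) := rough_pos _ _
  have hnpos : (0 : ℝ) < n := by linarith
  have hhpos : (0 : ℝ) < h := by linarith
  have hrR : (0 : ℝ) < (rough h (n + h - 1) : ℝ) := by exact_mod_cast hrp
  have hNpos : (0 : ℝ) < ((n + h - 1 : ℕ) : ℝ) := by exact_mod_cast (by omega : 0 < n + h - 1)
  have hcast : (n : ℝ) ^ h ≤ (h : ℝ) ^ h * ((n + h - 1 : ℕ) : ℝ) ^ (Nat.primeCounting h) *
      (rough h (n + h - 1) : ℝ) := by exact_mod_cast hge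
  have hlog := Real.log_le_log (by positivity) hcast
  rw [Real.log_mul (by positivity) (by positivity), Real.log_mul (by positivity) (by positivity),
    Real.log_pow, Real.log_pow, Real.log_pow] at hlog
  have hl1 : Real.log h ≤ -(((B : ℝ) + 1) * c0 + 1) + Real.log n := by
    have := Real.log_le_log hhpos hη
    rwa [Real.log_mul (by positivity) (by positivity), Real.log_exp] at this
  have hN5 : (n + h - 1 : ℕ) ≤ h ^ (B + 1) := We5_two hh hhn' hn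
  have hl2 : Real.log ((n + h - 1 : ℕ) : ℝ) ≤ ((B : ℝ) + 1) * Real.log h := by
    have h5 : ((n + h - 1 : ℕ) : ℝ) ≤ (h : ℝ) ^ (B + 1) := by exact_mod_cast hN5
    have := Real.log_le_log hNpos h5
    rw [Real.log_pow] at this
    push_cast at this ⊢
    exact this
  have hlogh : 0 < Real.log h := Real.log_pos (by linarith)
  have hπ := hch h hh
  have hl3 : (Nat.primeCounting h : ℝ) * Real.log ((n + h - 1 : ℕ) : ℝ) ≤ ((B : ℝ) + 1) * c0 * h := by
    have h0 : (0 : ℝ) ≤ Nat.primeCounting h := by positivity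
    calc (Nat.primeCounting h : ℝ) * Real.log ((n + h - 1 : ℕ) : ℝ)
        ≤ (Nat.primeCounting h : ℝ) * (((B : ℝ) + 1) * Real.log h) := mul_le_mul_of_nonneg_left hl2 h0
      _ ≤ (c0 * h / Real.log h) * (((B : ℝ) + 1) * Real.log h) :=
          mul_le_mul_of_nonneg_right hπ (by positivity)
      _ = ((B : ℝ) + 1) * c0 * h := by field_simp
  have hfin : (h : ℝ) ≤ Real.log (rough h (n + h - 1) : ℝ) := by nlinarith
  calc Real.exp h ≤ Real.exp (Real.log (rough h (n + h - 1) : ℝ)) := Real.exp_le_exp.2 hfin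
    _ = _ := Real.exp_log hrR

/-- ROW We5. As `pp_mid` (file `Poi/K5.lean`), `rough_big` (`Poi/K4.lean`), `rough_phi` (`Poi/H4.lean`), with the exponent `4` replaced by `B = 8 A` and `ppW_le`:
`b = rough h (n + h - 1)`, `h = m - n` (`rough_dvd`, file `Poi/H3.lean`). (1) `b` has at most `(B + 1) h` prime factors, all `> h`
(`h^card ≤ choose ≤ (2 n)^h ≤ h^((B + 1) h)`), so `b ≤ exp(B + 1) φ(b)`; (2) `rough_ge` and `π(h) ≤ c0 h / log h` (`cheb`):
`b ≥ (n/h)^h (2 n)^(-π(h)) ≥ exp(h (log (n/h) - c0 (B + 1))) ≥ exp h` if `n / h ≥ M / L ≥ C0 := exp(c0 (B + 1) + 1)`; (3) `h^B ≥ n ≥ L`, so `exp h ≥ L` and `h ≥ 2` for `L`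
large. `ppW ≤ (4 R b / L + 1) / φ(b) ≤ exp(B + 1) (4 R + 1) / L`. -/
theorem ppW_mid {A : ℕ} (hA : 1 ≤ A) {R : ℝ} (hR : 0 ≤ R) : ∃ C0 : ℝ, 1 ≤ C0 ∧ ∃ C : ℝ, 0 < C ∧ ∀ᶠ L : ℕ in atTop,
    ∀ M n m : ℕ, C0 * L ≤ M → M ≤ L ^ A → M < n → n < m → m ≤ M + L → n ≤ (m - n) ^ (8 * A) → ppW R M L n m ≤ C / L := by
  obtain ⟨c0, hc0, hch⟩ := cheb
  obtain ⟨h0, hh0, hexp⟩ := We5_expB (8 * A)
  have hpos : 0 ≤ (((8 * A : ℕ) : ℝ) + 1) * c0 + 1 := by positivity
  refine ⟨Real.exp ((((8 * A : ℕ) : ℝ) + 1) * c0 + 1), Real.one_le_exp hpos,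
    Real.exp (((8 * A : ℕ) : ℝ) + 1) * (4 * R + 1), by positivity, ?_⟩
  filter_upwards [eventually_gt_atTop (⌈4 * R⌉₊), eventually_gt_atTop (h0 ^ (8 * A))] with
    L hL2 hL3 M n m hML hMA hMn hnm hm h4
  have hL4 : 4 * R < L := lt_of_le_of_lt (Nat.le_ceil _) (by exact_mod_cast hL2)
  obtain ⟨h, rfl⟩ : ∃ h, m = n + h := ⟨m - n, by omega⟩
  have e1 : n + h - n = h := by omega
  rw [e1] at h4
  have hhL : h ≤ L := by omega
  have hLpos : (0 : ℝ) < L := by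
    have h2 : 0 < L := by omega
    exact_mod_cast h2
  have hhL' : (h : ℝ) ≤ L := by exact_mod_cast hhL
  have hMn' : (M : ℝ) ≤ n := by exact_mod_cast hMn.le
  have hE1 : (1 : ℝ) ≤ Real.exp ((((8 * A : ℕ) : ℝ) + 1) * c0 + 1) := Real.one_le_exp hpos
  have hLn' : (L : ℝ) ≤ n := by nlinarith
  have hLn : L ≤ n := by exact_mod_cast hLn'
  have hη : (h : ℝ) ≤ Real.exp (-((((8 * A : ℕ) : ℝ) + 1) * c0 + 1)) * n := by
    rw [Real.exp_neg, inv_mul_eq_div, le_div_iff₀ (Real.exp_pos _), mul_comm]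
    refine le_trans (mul_le_mul_of_nonneg_left hhL' (Real.exp_pos _).le) (hML.trans hMn')
  have hhn : h ≤ n := hhL.trans hLn
  have hlt : h0 ^ (8 * A) < h ^ (8 * A) := by omega
  have hlt2 : h0 < h := lt_of_pow_lt_pow_left₀ (8 * A) (Nat.zero_le _) hlt
  have hh2 : 2 ≤ h := by omega
  have hbig := We5_log hc0 hch hh2 h4 hη
  have hbL' : (L : ℝ) ≤ (rough h (n + h - 1) : ℕ) := by
    have f1 : (n : ℝ) ≤ (h : ℝ) ^ (8 * A) := by exact_mod_cast h4
    have f2 := hexp h hlt2.le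
    linarith
  have hbL : L ≤ rough h (n + h - 1) := by exact_mod_cast hbL'
  obtain ⟨hd, hc⟩ := rough_dvd (by omega : 1 ≤ n) (by omega : 1 ≤ h)
  have h5 := ppW_le hR hL4 hMn (by omega : n + h ≤ M + L + 1) hd hc
  have h6 := We5_phi hh2 hhn h4
  have hb0 : 0 < rough h (n + h - 1) := lt_of_lt_of_le (by omega) hbL
  have hφ : 0 < ((rough h (n + h - 1)).totient : ℝ) := by exact_mod_cast Nat.totient_pos.2 hb0
  refine le_of_mul_le_mul_right (h5.trans ?_) hφ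
  have h7 : 4 * R * ((rough h (n + h - 1) : ℕ) : ℝ) / L + 1 ≤
      (4 * R + 1) * ((rough h (n + h - 1) : ℕ) : ℝ) / L := by
    rw [div_add_one hLpos.ne', div_le_div_iff_of_pos_right hLpos]
    linarith
  refine h7.trans ?_
  rw [div_mul_eq_mul_div, div_le_div_iff_of_pos_right hLpos]
  calc (4 * R + 1) * ((rough h (n + h - 1) : ℕ) : ℝ)
      ≤ (4 * R + 1) * (Real.exp (((8 * A : ℕ) : ℝ) + 1) * ((rough h (n + h - 1)).totient : ℝ)) :=
        mul_le_mul_of_nonneg_left h6 (by positivity)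
    _ = Real.exp (((8 * A : ℕ) : ℝ) + 1) * (4 * R + 1) * ((rough h (n + h - 1)).totient : ℝ) := by ring

end Pool.Agent.Lib.MP_de5eaa_nt.Poi
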