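import Pool.Agent.Lib.MP_de5eaa_nt.Poi.W1
import Pool.Agent.Lib.MP_de5eaa_nt.Poi.W2
import Pool.Agent.Lib.MP_de5eaa_nt.Poi.W3

set_option autoImplicit false

namespace Pool.Agent.Lib.MP_de5eaa_nt.Poi

open Finset MeasureTheory Filter Topology
open Pool.Agent.Lib.MP_de5eaa_nt.Near (hs wq ppi LW ZW)

theorem We6_count (n L b A X : ℕ) (hA : 1 ≤ A) (hnL : n ≤ 2 * L ^ A) :
    ((((Ioc n (min (n + b) X)).filter fun k => (k - n) ^ (8 * A) < n).card : ℕ) : ℝ) ≤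
      2 * (L : ℝ) ^ (1 / 8 : ℝ) := by
  have hL0 : (0 : ℝ) ≤ L := Nat.cast_nonneg L
  have hx0 : (0 : ℝ) ≤ (L : ℝ) ^ (1 / 8 : ℝ) := Real.rpow_nonneg hL0 _
  have hx1 : (0 : ℝ) ≤ 2 * (L : ℝ) ^ (1 / 8 : ℝ) := by linarith
  have h8 : ((L : ℝ) ^ (1 / 8 : ℝ)) ^ 8 = L := by
    rw [← Real.rpow_natCast, ← Real.rpow_mul hL0]
    norm_num
  have hsub : ((Ioc n (min (n + b) X)).filter fun k => (k - n) ^ (8 * A) < n) ⊆
      Ioc n (n + ⌊2 * (L : ℝ) ^ (1 / 8 : ℝ)⌋₊) := by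
    intro k hk
    rw [mem_filter, mem_Ioc] at hk
    obtain ⟨⟨h1, _⟩, h3⟩ := hk
    rw [mem_Ioc]
    refine ⟨h1, ?_⟩
    have h4 : k - n ≤ ⌊2 * (L : ℝ) ^ (1 / 8 : ℝ)⌋₊ := by
      rw [Nat.le_floor_iff hx1]
      by_contra hcon
      push Not at hcon
      have h5 : (2 * (L : ℝ) ^ (1 / 8 : ℝ)) ^ (8 * A) < ((k - n : ℕ) : ℝ) ^ (8 * A) :=
        pow_lt_pow_left₀ hcon hx1 (by omega)
      have h6 : ((k - n : ℕ) : ℝ) ^ (8 * A) < 2 * (L : ℝ) ^ A := by
        have : (k - n) ^ (8 * A) < 2 * L ^ A := h3.trans_le hnL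
        exact_mod_cast this
      have h7 : (2 * (L : ℝ) ^ (1 / 8 : ℝ)) ^ (8 * A) = 2 ^ (8 * A) * (L : ℝ) ^ A := by
        rw [mul_pow, pow_mul ((L : ℝ) ^ (1 / 8 : ℝ)), h8]
      have h9 : (2 : ℝ) ≤ 2 ^ (8 * A) := by
        calc (2 : ℝ) = 2 ^ 1 := by norm_num
          _ ≤ 2 ^ (8 * A) := pow_le_pow_right₀ (by norm_num) (by omega)
      have h10 : (0 : ℝ) ≤ (L : ℝ) ^ A := by positivity
      rw [h7] at h5
      have h11 := mul_le_mul_of_nonneg_right h9 h10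
      linarith
    omega
  have h7 := card_le_card hsub
  rw [Nat.card_Ioc, Nat.add_sub_cancel_left] at h7
  calc ((((Ioc n (min (n + b) X)).filter fun k => (k - n) ^ (8 * A) < n).card : ℕ) : ℝ)
      ≤ ((⌊2 * (L : ℝ) ^ (1 / 8 : ℝ)⌋₊ : ℕ) : ℝ) := by exact_mod_cast h7
    _ ≤ 2 * (L : ℝ) ^ (1 / 8 : ℝ) := Nat.floor_le hx1

theorem We6_ev (R : ℝ) (m : ℕ) (hm : 2 ≤ m) : ∀ᶠ L : ℕ in atTop,
    1 ≤ L ∧ 4 * R < L ∧
      (L : ℝ) * (2 * (L : ℝ) ^ (1 / 8 : ℝ) * (L : ℝ) ^ (-(1 / 2) : ℝ)) ≤ L / m := by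
  have hm0 : (0 : ℝ) < m := by
    have : 0 < m := by omega
    exact_mod_cast this
  have h1 : Tendsto (fun L : ℕ => (L : ℝ) ^ (-(3 / 8) : ℝ)) atTop (𝓝 0) :=
    (tendsto_rpow_neg_atTop (by norm_num : (0 : ℝ) < 3 / 8)).comp tendsto_natCast_atTop_atTop
  have h2 : ∀ᶠ L : ℕ in atTop, (L : ℝ) ^ (-(3 / 8) : ℝ) < 1 / (2 * m) :=
    h1.eventually (gt_mem_nhds (by positivity))
  have h3 : ∀ᶠ L : ℕ in atTop, 4 * R < (L : ℝ) :=
    (tendsto_natCast_atTop_atTop (R := ℝ)).eventually_gt_atTop _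
  filter_upwards [h2, h3, eventually_ge_atTop 1] with L h4 h5 h6
  refine ⟨h6, h5, ?_⟩
  have hL : (1 : ℝ) ≤ L := by exact_mod_cast h6
  have hL0 : (0 : ℝ) < L := by linarith
  have h7 : 2 * (L : ℝ) ^ (1 / 8 : ℝ) * (L : ℝ) ^ (-(1 / 2) : ℝ) =
      2 * (L : ℝ) ^ (-(3 / 8) : ℝ) := by
    rw [mul_assoc, ← Real.rpow_add hL0]
    norm_num
  rw [h7]
  calc (L : ℝ) * (2 * (L : ℝ) ^ (-(3 / 8) : ℝ)) ≤ L * (2 * (1 / (2 * m))) := by
        apply mul_le_mul_of_nonneg_left _ hL0.le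
        linarith
    _ = L / m := by
        field_simp

/-- ROW We6. `A` from `smooth_few` (with `ε1`), `C0, C2` from `ppW_mid`, `C = 2 (8 R + 2) + 2 C2 + 2`. If `L^A ≤ M`: `D0` = the set of `smooth_few`; every other `n` of the window has a prime
factor `> L`, so all terms are at most `(8 R + 2) / L` (`ppW_big` with `k = n`), and there are at most `L (L/m)` pairs. If `M < L^A`: `D0 = ∅`; a term is at most
`C2 / L`, or `L^(-1/2)` if `(k - n)^(8 A) < n ≤ 2 L^A` (`ppW_small`), then `k - n ≤ 2 L^(1/8)`: at most `L (2 L^(1/8))` such pairs. See `pairs_sum`, file `Poi/K7.lean`. -/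
theorem pairs_w {R : ℝ} (hR : 0 ≤ R) {ε1 : ℝ} (hε1 : 0 < ε1) : ∃ C : ℝ, 0 < C ∧ ∃ C0 : ℝ, 1 ≤ C0 ∧ ∀ m : ℕ, 2 ≤ m →
    ∀ᶠ L : ℕ in atTop, ∀ M : ℕ, C0 * L ≤ M → ∃ D0 : Finset ℕ, (D0.card : ℝ) ≤ ε1 * L ∧
      ∑ n ∈ (Ioc M (M + L)) \ D0, ∑ k ∈ Ioc n (min (n + L / m) (M + L)), ppW R M L n k ≤ C * L / m := by
  obtain ⟨A, hA, hfew⟩ := smooth_few hε1
  obtain ⟨C0, hC0, C2, hC2, hmid⟩ := ppW_mid hA hR
  refine ⟨(8 * R + 2) + C2 + 1, by positivity, C0, hC0, ?_⟩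
  intro m hm
  have hm0 : (0 : ℝ) < m := by
    have : 0 < m := by omega
    exact_mod_cast this
  filter_upwards [hfew, hmid, ppW_small hA hR, We6_ev R m hm] with L hf hmi hsm hev
  intro M hM
  obtain ⟨hL1, hRL, hev⟩ := hev
  have hL : (1 : ℝ) ≤ L := by exact_mod_cast hL1
  have hL0 : (0 : ℝ) < L := by linarith
  have hLM : L ≤ M := by
    have h1 : (L : ℝ) ≤ M := by
      have := mul_le_mul_of_nonneg_right hC0 hL0.le
      linarith
    exact_mod_cast h1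
  have hcard : ∀ D0 : Finset ℕ, (((Ioc M (M + L)) \ D0).card : ℝ) ≤ L := by
    intro D0
    have h1 : ((Ioc M (M + L)) \ D0).card ≤ (Ioc M (M + L)).card := card_le_card sdiff_subset
    rw [Nat.card_Ioc, Nat.add_sub_cancel_left] at h1
    exact_mod_cast h1
  have hin : ∀ n : ℕ, (((Ioc n (min (n + L / m) (M + L))).card : ℕ) : ℝ) ≤ (L : ℝ) / m := by
    intro n
    have h6 : ((Ioc n (min (n + L / m) (M + L))).card : ℕ) ≤ (L / m : ℕ) := by
      rw [Nat.card_Ioc]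
      have h60 : min (n + (L / m : ℕ)) (M + L) ≤ n + (L / m : ℕ) := min_le_left _ _
      exact Nat.sub_le_iff_le_add'.mpr h60
    have h7 : (((Ioc n (min (n + L / m) (M + L))).card : ℕ) : ℝ) ≤ ((L / m : ℕ) : ℝ) := by
      exact_mod_cast h6
    exact h7.trans Nat.cast_div_le
  have hLm : (0 : ℝ) ≤ L / m := by positivity
  by_cases hcase : L ^ A ≤ M
  · refine ⟨(Ioc M (M + L)).filter fun n => bigp L n = 1, hf M hcase, ?_⟩
    have hterm : ∀ n ∈ (Ioc M (M + L)) \ ((Ioc M (M + L)).filter fun n => bigp L n = 1),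
        ∑ k ∈ Ioc n (min (n + L / m) (M + L)), ppW R M L n k ≤ (L / m) * ((8 * R + 2) / L) := by
      intro n hn
      rw [Finset.mem_sdiff, mem_filter, not_and] at hn
      obtain ⟨hn1, hn2⟩ := hn
      have hn3 := hn2 hn1
      rw [mem_Ioc] at hn1
      obtain ⟨q, hq, hLq, hqn⟩ : ∃ q : ℕ, q.Prime ∧ L < q ∧ q ∣ n := by
        by_contra hcon
        push Not at hcon
        apply hn3
        unfold bigp
        apply Finset.prod_eq_one
        intro q hq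
        rw [mem_filter] at hq
        exact absurd (Nat.dvd_of_mem_primeFactors hq.1)
          (hcon q (Nat.prime_of_mem_primeFactors hq.1) hq.2)
      calc ∑ k ∈ Ioc n (min (n + L / m) (M + L)), ppW R M L n k
          ≤ ∑ k ∈ Ioc n (min (n + L / m) (M + L)), ((8 * R + 2) / L : ℝ) := by
            apply sum_le_sum
            intro k hk
            rw [mem_Ioc, le_min_iff] at hk
            exact ppW_big hR hRL hn1.1 hk.2.2 le_rfl hk.1 hq hLq hqn
        _ = ((Ioc n (min (n + L / m) (M + L))).card : ℝ) * ((8 * R + 2) / L) := by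
            rw [sum_const, nsmul_eq_mul]
        _ ≤ (L / m) * ((8 * R + 2) / L) :=
            mul_le_mul_of_nonneg_right (hin n) (by positivity)
    calc ∑ n ∈ (Ioc M (M + L)) \ ((Ioc M (M + L)).filter fun n => bigp L n = 1),
          ∑ k ∈ Ioc n (min (n + L / m) (M + L)), ppW R M L n k
        ≤ ∑ n ∈ (Ioc M (M + L)) \ ((Ioc M (M + L)).filter fun n => bigp L n = 1),
          ((L / m) * ((8 * R + 2) / L) : ℝ) := sum_le_sum hterm
      _ = (((Ioc M (M + L)) \ ((Ioc M (M + L)).filter fun n => bigp L n = 1)).card : ℝ) *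
          ((L / m) * ((8 * R + 2) / L)) := by
          rw [sum_const, nsmul_eq_mul]
      _ ≤ L * ((L / m) * ((8 * R + 2) / L)) :=
          mul_le_mul_of_nonneg_right (hcard _) (by positivity)
      _ = (8 * R + 2) * (L / m) := by
          field_simp
      _ ≤ ((8 * R + 2) + C2 + 1) * (L / m) := by
          apply mul_le_mul_of_nonneg_right _ hLm
          linarith
      _ = ((8 * R + 2) + C2 + 1) * L / m := by ring
  · push Not at hcase
    refine ⟨∅, by rw [card_empty, Nat.cast_zero]; positivity, ?_⟩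
    set e : ℝ := (L : ℝ) ^ (-(1 / 2) : ℝ) with he
    have he0 : 0 ≤ e := Real.rpow_nonneg hL0.le _
    have hLA : L ≤ L ^ A := Nat.le_self_pow (by omega) L
    have hterm : ∀ n ∈ (Ioc M (M + L)) \ (∅ : Finset ℕ),
        ∑ k ∈ Ioc n (min (n + L / m) (M + L)), ppW R M L n k ≤
          (L / m) * (C2 / L) + 2 * (L : ℝ) ^ (1 / 8 : ℝ) * e := by
      intro n hn
      rw [sdiff_empty, mem_Ioc] at hn
      calc ∑ k ∈ Ioc n (min (n + L / m) (M + L)), ppW R M L n k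
          ≤ ∑ k ∈ Ioc n (min (n + L / m) (M + L)),
            (C2 / L + (if (k - n) ^ (8 * A) < n then e else 0)) := by
            apply sum_le_sum
            intro k hk
            rw [mem_Ioc, le_min_iff] at hk
            have hCL : 0 ≤ C2 / L := by positivity
            by_cases h4 : (k - n) ^ (8 * A) < n
            · rw [if_pos h4]
              have := hsm M n k hLM hcase.le hn.1 hk.1 hk.2.2 h4
              linarith
            · rw [if_neg h4, add_zero]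
              push Not at h4
              exact hmi M n k hM hcase.le hn.1 hk.1 hk.2.2 h4
        _ = ((Ioc n (min (n + L / m) (M + L))).card : ℝ) * (C2 / L) +
            (((Ioc n (min (n + L / m) (M + L))).filter fun k => (k - n) ^ (8 * A) < n).card : ℝ) * e := by
            rw [sum_add_distrib, sum_const, nsmul_eq_mul, ← sum_filter, sum_const, nsmul_eq_mul]
        _ ≤ (L / m) * (C2 / L) + 2 * (L : ℝ) ^ (1 / 8 : ℝ) * e := by
            apply add_le_add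
            · exact mul_le_mul_of_nonneg_right (hin n) (by positivity)
            · exact mul_le_mul_of_nonneg_right (We6_count n L (L / m) A (M + L) hA (by omega)) he0
    calc ∑ n ∈ (Ioc M (M + L)) \ (∅ : Finset ℕ),
          ∑ k ∈ Ioc n (min (n + L / m) (M + L)), ppW R M L n k
        ≤ ∑ n ∈ (Ioc M (M + L)) \ (∅ : Finset ℕ),
          ((L / m) * (C2 / L) + 2 * (L : ℝ) ^ (1 / 8 : ℝ) * e) := sum_le_sum hterm
      _ = (((Ioc M (M + L)) \ (∅ : Finset ℕ)).card : ℝ) *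
          ((L / m) * (C2 / L) + 2 * (L : ℝ) ^ (1 / 8 : ℝ) * e) := by
          rw [sum_const, nsmul_eq_mul]
      _ ≤ L * ((L / m) * (C2 / L) + 2 * (L : ℝ) ^ (1 / 8 : ℝ) * e) :=
          mul_le_mul_of_nonneg_right (hcard _) (by positivity)
      _ = C2 * (L / m) + L * (2 * (L : ℝ) ^ (1 / 8 : ℝ) * e) := by
          field_simp
      _ ≤ C2 * (L / m) + L / m := by linarith
      _ ≤ ((8 * R + 2) + C2 + 1) * (L / m) := by
          have h1 : 0 ≤ (8 * R + 2) * ((L : ℝ) / m) := by positivity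
          linarith
      _ = ((8 * R + 2) + C2 + 1) * L / m := by ring

theorem Wf_YY {M n k : ℕ} (hn : M < n) (hnk : n ≤ k) (u : ℕ) :
    ZW M u k - ZW M u n = -((u : ℝ) * ((hs n k : ℚ) : ℝ)) := by
  have h : hs (M + 1) n + hs n k = hs (M + 1) k := by
    unfold Pool.Agent.Lib.MP_de5eaa_nt.Near.hs
    exact Finset.sum_Ico_consecutive _ hn hnk
  unfold Pool.Agent.Lib.MP_de5eaa_nt.Near.ZW
  rw [← h]
  push_cast
  ring

theorem Wf_nonneg (R : ℝ) (M L n k : ℕ) : 0 ≤ ppW R M L n k := by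
  unfold ppW
  exact div_nonneg (Finset.sum_nonneg fun u _ => hI_nonneg _ _ _ _) (Nat.cast_nonneg _)

theorem Wf_sum {M L n k : ℕ} (hn : M < n) (hnk : n ≤ k) (R : ℝ) :
    ∑ u ∈ UU (LW M L), hI (Set.Icc (-(2 * R)) (2 * R)) L 0 (ZW M u k - ZW M u n) =
      ((LW M L).totient : ℝ) * ppW R M L n k := by
  have hφ : ((LW M L).totient : ℝ) ≠ 0 := by
    have := Nat.totient_pos.2 (Pool.Agent.Lib.MP_de5eaa_nt.Near.LW_pos M L)
    exact_mod_cast this.ne'
  unfold ppW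
  rw [mul_div_cancel₀ _ hφ]
  refine Finset.sum_congr rfl fun u _ => ?_
  rw [Wf_YY hn hnk u, hI_neg]

theorem Wf_mem {M L m : ℕ} {κ κ' q q' : ℕ → ℕ} (hB : BlkW M L m κ κ' q q') {j n : ℕ} (hj : j < m)
    (hn : n ∈ blk M L m κ' j) : M + j * (L / m) < n ∧ n ≤ M + (j + 1) * (L / m) := by
  have h1 := hB.lo j hj
  have h2 := hB.lt j hj
  rw [blk, Finset.mem_Ioc] at hn
  exact ⟨by omega, hn.2⟩

theorem Wf_disj {M L m : ℕ} {κ κ' q q' : ℕ → ℕ} (hB : BlkW M L m κ κ' q q') :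
    ∀ i < m, ∀ j < m, i ≠ j → Disjoint (blk M L m κ' i) (blk M L m κ' j) := by
  have key : ∀ i j : ℕ, i < m → j < m → i < j → Disjoint (blk M L m κ' i) (blk M L m κ' j) := by
    intro i j hi hj hij
    rw [Finset.disjoint_left]
    intro n h1 h2
    have h3 := (Wf_mem hB hi h1).2
    have h4 := (Wf_mem hB hj h2).1
    have h5 : (i + 1) * (L / m) ≤ j * (L / m) := Nat.mul_le_mul_right _ (by omega)
    omega
  intro i hi j hj hij
  rcases lt_or_gt_of_ne hij with h | h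
  · exact key i j hi hj h
  · exact (key j i hj hi h).symm

theorem Wf_card {M L m : ℕ} {κ κ' q q' : ℕ → ℕ} (hB : BlkW M L m κ κ' q q') {j : ℕ} (hj : j < m) :
    ((blk M L m κ' j).card : ℝ) ≤ (L : ℝ) / m := by
  have h1 : (blk M L m κ' j).card ≤ L / m := by
    have h2 := hB.lo j hj
    have h3 := hB.lt j hj
    have h4 : (j + 1) * (L / m) = j * (L / m) + L / m := by ring
    rw [blk, Nat.card_Ioc, h4]
    generalize L / m = N at *
    omega
  have h5 : ((blk M L m κ' j).card : ℝ) ≤ ((L / m : ℕ) : ℝ) := by exact_mod_cast h1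
  exact h5.trans Nat.cast_div_le

theorem Wf_pair {M L m : ℕ} {κ κ' q q' : ℕ → ℕ} (hB : BlkW M L m κ κ' q q') (R : ℝ) {D D0 : Finset ℕ} :
    ∑ j ∈ range m, ∑ n ∈ blk M L m κ' j ∩ (D \ D0), ∑ k ∈ (blk M L m κ' j ∩ (D \ D0)).filter (n < ·), ∑ u ∈ UU (LW M L),
      hI (Set.Icc (-(2 * R)) (2 * R)) L 0 (ZW M u k - ZW M u n) ≤
    ((LW M L).totient : ℝ) * ∑ n ∈ (Ioc M (M + L)) \ D0, ∑ k ∈ Ioc n (min (n + L / m) (M + L)), ppW R M L n k := by
  have hterm : ∀ j ∈ range m, ∀ n ∈ blk M L m κ' j ∩ (D \ D0),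
      ∑ k ∈ (blk M L m κ' j ∩ (D \ D0)).filter (n < ·), ∑ u ∈ UU (LW M L),
        hI (Set.Icc (-(2 * R)) (2 * R)) L 0 (ZW M u k - ZW M u n) ≤
      ((LW M L).totient : ℝ) * ∑ k ∈ Ioc n (min (n + L / m) (M + L)), ppW R M L n k := by
    intro j hj n hn
    have hj' : j < m := Finset.mem_range.1 hj
    have hn' := Wf_mem hB hj' (Finset.mem_of_mem_inter_left hn)
    have hn1 : M < n := by
      have : 0 ≤ j * (L / m) := Nat.zero_le _
      omega
    have hML : m * (L / m) ≤ L := Nat.mul_div_le L m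
    have hjM : (j + 1) * (L / m) ≤ m * (L / m) := Nat.mul_le_mul_right _ (by omega)
    have hj1 : (j + 1) * (L / m) = j * (L / m) + L / m := by ring
    have e : ∀ k ∈ (blk M L m κ' j ∩ (D \ D0)).filter (n < ·), ∑ u ∈ UU (LW M L),
        hI (Set.Icc (-(2 * R)) (2 * R)) L 0 (ZW M u k - ZW M u n) =
        ((LW M L).totient : ℝ) * ppW R M L n k := by
      intro k hk
      exact Wf_sum hn1 (Finset.mem_filter.1 hk).2.le R
    rw [Finset.sum_congr rfl e, ← Finset.mul_sum]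
    refine mul_le_mul_of_nonneg_left ?_ (Nat.cast_nonneg _)
    refine Finset.sum_le_sum_of_subset_of_nonneg ?_ fun k _ _ => Wf_nonneg R M L n k
    intro k hk
    obtain ⟨hk1, hk2⟩ := Finset.mem_filter.1 hk
    have hk' := Wf_mem hB hj' (Finset.mem_of_mem_inter_left hk1)
    rw [Finset.mem_Ioc, le_min_iff]
    refine ⟨hk2, ?_, ?_⟩ <;> omega
  calc ∑ j ∈ range m, ∑ n ∈ blk M L m κ' j ∩ (D \ D0), ∑ k ∈ (blk M L m κ' j ∩ (D \ D0)).filter (n < ·),
        ∑ u ∈ UU (LW M L), hI (Set.Icc (-(2 * R)) (2 * R)) L 0 (ZW M u k - ZW M u n)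
      ≤ ∑ j ∈ range m, ∑ n ∈ blk M L m κ' j ∩ (D \ D0),
          ((LW M L).totient : ℝ) * ∑ k ∈ Ioc n (min (n + L / m) (M + L)), ppW R M L n k :=
        Finset.sum_le_sum fun j hj => Finset.sum_le_sum fun n hn => hterm j hj n hn
    _ = ∑ n ∈ (range m).biUnion (fun j => blk M L m κ' j ∩ (D \ D0)),
          ((LW M L).totient : ℝ) * ∑ k ∈ Ioc n (min (n + L / m) (M + L)), ppW R M L n k := by
        rw [Finset.sum_biUnion]
        intro i hi j hj hij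
        exact (Wf_disj hB i (Finset.mem_range.1 hi) j (Finset.mem_range.1 hj) hij).mono
          Finset.inter_subset_left Finset.inter_subset_left
    _ ≤ ∑ n ∈ (Ioc M (M + L)) \ D0,
          ((LW M L).totient : ℝ) * ∑ k ∈ Ioc n (min (n + L / m) (M + L)), ppW R M L n k := by
        refine Finset.sum_le_sum_of_subset_of_nonneg ?_ fun n _ _ =>
          mul_nonneg (Nat.cast_nonneg _) (Finset.sum_nonneg fun k _ => Wf_nonneg R M L n k)
        intro n hn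
        obtain ⟨j, hj, hnj⟩ := Finset.mem_biUnion.1 hn
        have hj' : j < m := Finset.mem_range.1 hj
        have hn' := Wf_mem hB hj' (Finset.mem_of_mem_inter_left hnj)
        have hn'' := (Finset.mem_sdiff.1 (Finset.mem_of_mem_inter_right hnj)).2
        have hML : m * (L / m) ≤ L := Nat.mul_div_le L m
        have hjM : (j + 1) * (L / m) ≤ m * (L / m) := Nat.mul_le_mul_right _ (by omega)
        have h0 : 0 ≤ j * (L / m) := Nat.zero_le _
        rw [Finset.mem_sdiff, Finset.mem_Ioc]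
        exact ⟨⟨by omega, by omega⟩, hn''⟩
    _ = ((LW M L).totient : ℝ) *
          ∑ n ∈ (Ioc M (M + L)) \ D0, ∑ k ∈ Ioc n (min (n + L / m) (M + L)), ppW R M L n k := by
        rw [Finset.mul_sum]

/-- ROW Wf. The proof of `closeness_s` (file `Poi/Se2.lean`) with `pairs_w`, `blkW_exists` (`C0` = the maximum of the two constants), `lin_w`, and `gf_blocks'` for
`U = UU (LW M L)`, `k = m`, `A j = blk M L m κ' j ∩ (D \ D0)`, `Y = ZW M`; `C = 1 + Λ^2 + 2 Λ C1`, `C1` from `pairs_w`. The blocks are disjoint, of cardinality `≤ L/m`. First error: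
`2 φ (4 K / L^2) L ≤ φ / m` for `L` large. Pairs: `ZW M u k - ZW M u n = -(u hs n k)` for `M < n ≤ k` (`I3_YY`), `hI_neg`. -/
theorem closeness_w {Λ K R : ℝ} (hΛ : 0 ≤ Λ) (hK : 0 ≤ K) (hR : 0 ≤ R) {ε1 : ℝ} (hε1 : 0 < ε1) :
    ∃ C : ℝ, 0 < C ∧ ∀ m : ℕ, 2 ≤ m → Λ ≤ m → ∃ C0 : ℝ, 1 ≤ C0 ∧ ∀ᶠ L : ℕ in atTop, ∀ M : ℕ, C0 * L ≤ M →
      ∃ (κ κ' q q' : ℕ → ℕ) (D0 : Finset ℕ), BlkW M L m κ κ' q q' ∧ (D0.card : ℝ) ≤ ε1 * L ∧
        ∀ (J : Set ℝ) (lam : ℝ), Nice J lam K R → lam ≤ Λ → ∀ D : Finset ℕ, D ⊆ Ioc M (M + L) →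
        ∀ α β : ℝ, 0 ≤ α → α ≤ β → β ≤ 1 → ∀ x y : ℝ, 0 ≤ x → x ≤ 1 → 0 ≤ y → y ≤ 1 →
        |(∑ u ∈ UU (LW M L), gfl J L ((range m).biUnion fun j => blk M L m κ' j ∩ (D \ D0)) (ZW M u) x α β *
            gfl J L ((range m).biUnion fun j => blk M L m κ' j ∩ (D \ D0)) (ZW M u) y α β) -
          (β - α) ^ 2 * (((LW M L).totient : ℝ) *
            ∏ j ∈ range m, (1 - (2 - x - y) * (((blk M L m κ' j ∩ (D \ D0)).card : ℝ) * (lam / L))))| ≤
          ((LW M L).totient : ℝ) * (C / m) := by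
  obtain ⟨C1, hC1, C0p, hC0p, hps⟩ := pairs_w hR hε1
  refine ⟨1 + Λ ^ 2 + 2 * Λ * C1, by positivity, fun m hm hlm => ?_⟩
  obtain ⟨Cb, hCb, hblk⟩ := blkW_exists hm
  refine ⟨max C0p Cb, le_max_of_le_left hC0p, ?_⟩
  have hmR : (2 : ℝ) ≤ m := by exact_mod_cast hm
  have hm0 : (0 : ℝ) < m := by linarith
  filter_upwards [hblk, hps m hm, eventually_gt_atTop ⌈2 * R⌉₊, eventually_ge_atTop 1,
    eventually_ge_atTop ⌈8 * K * (m : ℝ)⌉₊] with L hblkL hpsL hLR hL1 hLK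
  intro M hM
  have hLR' : 2 * R < (L : ℝ) := (Nat.le_ceil _).trans_lt (by exact_mod_cast hLR)
  have hLK' : 8 * K * (m : ℝ) ≤ (L : ℝ) := (Nat.le_ceil _).trans (by exact_mod_cast hLK)
  have hL0 : (0 : ℝ) < L := by exact_mod_cast hL1
  have hφ0 : (0 : ℝ) ≤ ((LW M L).totient : ℝ) := Nat.cast_nonneg _
  obtain ⟨D0, hD0, hpair⟩ := hpsL M ((mul_le_mul_of_nonneg_right (le_max_left _ _) hL0.le).trans hM)
  obtain ⟨κ, κ', q, q', hB⟩ := hblkL M ((mul_le_mul_of_nonneg_right (le_max_right _ _) hL0.le).trans hM)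
  refine ⟨κ, κ', q, q', D0, hB, hD0, fun J lam hJ hlamΛ D _ α β hα hαβ hβ x y hx0 hx1 hy0 hy1 => ?_⟩
  have hlam := hJ.lam0
  have hAD : ∀ j < m, ((blk M L m κ' j ∩ (D \ D0)).card : ℝ) ≤ (L : ℝ) / m := by
    intro j hj
    have h1 := Wf_card hB hj
    have h2 : ((blk M L m κ' j ∩ (D \ D0)).card : ℝ) ≤ ((blk M L m κ' j).card : ℝ) := by
      exact_mod_cast Finset.card_le_card (inter_subset_left : blk M L m κ' j ∩ (D \ D0) ⊆ blk M L m κ' j)
    exact h2.trans h1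
  have hA1 : ∀ j < m, ((blk M L m κ' j ∩ (D \ D0)).card : ℝ) * (lam / L) ≤ Λ / m := by
    intro j hj
    calc ((blk M L m κ' j ∩ (D \ D0)).card : ℝ) * (lam / L) ≤ (L : ℝ) / m * (Λ / L) :=
          mul_le_mul (hAD j hj) (div_le_div_of_nonneg_right hlamΛ hL0.le) (by positivity) (by positivity)
      _ = Λ / m := by field_simp
  have hlM1 : Λ / m ≤ 1 := by
    rw [div_le_one hm0]
    exact hlm
  have hcard : (UU (LW M L)).card = (LW M L).totient := rfl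
  have main := gf_blocks' (UU (LW M L)) m (fun j => blk M L m κ' j ∩ (D \ D0))
    (fun i hi j hj hij => (Wf_disj hB i hi j hj hij).mono inter_subset_left inter_subset_left)
    (ZW M) hJ hLR' hx0 hx1 hy0 hy1
    (fun j hj => (hA1 j hj).trans hlM1)
    (D := ((LW M L).totient : ℝ) * (4 * K / (L : ℝ) ^ 2))
    (fun j hj n hn t G hG0 hG1 hG =>
      lin_w hB (by omega) hL1 hJ hLR' hj (mem_of_mem_inter_left hn) t G hG0 hG1
        (fun u v huv => hG u v fun i hi n' hn' t' => huv i hi n' (mem_of_mem_inter_left hn') t')) hα hαβ hβ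
  rw [hcard] at main
  refine main.trans ?_
  -- the first error
  have hsum : ∑ j ∈ range m, ((blk M L m κ' j ∩ (D \ D0)).card : ℝ) ≤ L := by
    calc ∑ j ∈ range m, ((blk M L m κ' j ∩ (D \ D0)).card : ℝ) ≤ ∑ _j ∈ range m, (L : ℝ) / m :=
          sum_le_sum fun j hj => hAD j (mem_range.1 hj)
      _ = (m : ℝ) * (L / m) := by rw [sum_const, card_range, nsmul_eq_mul]
      _ = L := by field_simp
  have e1 : 2 * (((LW M L).totient : ℝ) * (4 * K / (L : ℝ) ^ 2)) *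
      (∑ j ∈ range m, ((blk M L m κ' j ∩ (D \ D0)).card : ℝ)) ≤ ((LW M L).totient : ℝ) * (1 / m) := by
    have h1 : 8 * K / (L : ℝ) ≤ 1 / m := by
      rw [div_le_div_iff₀ hL0 hm0]
      linarith
    calc 2 * (((LW M L).totient : ℝ) * (4 * K / (L : ℝ) ^ 2)) *
        (∑ j ∈ range m, ((blk M L m κ' j ∩ (D \ D0)).card : ℝ)) ≤
        2 * (((LW M L).totient : ℝ) * (4 * K / (L : ℝ) ^ 2)) * L :=
          mul_le_mul_of_nonneg_left hsum (by positivity)
      _ = ((LW M L).totient : ℝ) * (8 * K / (L : ℝ)) := by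
          field_simp
          ring
      _ ≤ ((LW M L).totient : ℝ) * (1 / m) := mul_le_mul_of_nonneg_left h1 hφ0
  -- the second error
  have e2 : ((LW M L).totient : ℝ) * (∑ j ∈ range m, (((blk M L m κ' j ∩ (D \ D0)).card : ℝ) * (lam / L)) ^ 2) ≤
      ((LW M L).totient : ℝ) * (Λ ^ 2 / m) := by
    refine mul_le_mul_of_nonneg_left ?_ hφ0
    calc ∑ j ∈ range m, (((blk M L m κ' j ∩ (D \ D0)).card : ℝ) * (lam / L)) ^ 2 ≤
        ∑ _j ∈ range m, (Λ / m) ^ 2 :=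
          sum_le_sum fun j hj => pow_le_pow_left₀ (by positivity) (hA1 j (mem_range.1 hj)) 2
      _ = (m : ℝ) * (Λ / m) ^ 2 := by rw [sum_const, card_range, nsmul_eq_mul]
      _ = Λ ^ 2 / m := by field_simp
  -- the third error
  have e3 : 2 * (lam / L) * (∑ j ∈ range m, ∑ n ∈ blk M L m κ' j ∩ (D \ D0),
      ∑ k ∈ (blk M L m κ' j ∩ (D \ D0)).filter (n < ·),
      ∑ u ∈ UU (LW M L), hI (Set.Icc (-(2 * R)) (2 * R)) L 0 (ZW M u k - ZW M u n)) ≤
      ((LW M L).totient : ℝ) * (2 * Λ * C1 / m) := by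
    have h1 := (Wf_pair (D := D) (D0 := D0) hB R).trans (mul_le_mul_of_nonneg_left hpair hφ0)
    have h2 : 2 * (lam / L) ≤ 2 * (Λ / L) :=
      mul_le_mul_of_nonneg_left (div_le_div_of_nonneg_right hlamΛ hL0.le) (by norm_num)
    have h3 : (0 : ℝ) ≤ ((LW M L).totient : ℝ) * (C1 * L / m) := by positivity
    calc 2 * (lam / L) * (∑ j ∈ range m, ∑ n ∈ blk M L m κ' j ∩ (D \ D0),
          ∑ k ∈ (blk M L m κ' j ∩ (D \ D0)).filter (n < ·),
          ∑ u ∈ UU (LW M L), hI (Set.Icc (-(2 * R)) (2 * R)) L 0 (ZW M u k - ZW M u n)) ≤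
        2 * (lam / L) * (((LW M L).totient : ℝ) * (C1 * L / m)) :=
          mul_le_mul_of_nonneg_left h1 (by positivity)
      _ ≤ 2 * (Λ / L) * (((LW M L).totient : ℝ) * (C1 * L / m)) := mul_le_mul_of_nonneg_right h2 h3
      _ = ((LW M L).totient : ℝ) * (2 * Λ * C1 / m) := by field_simp
  calc _ ≤ ((LW M L).totient : ℝ) * (1 / m) + ((LW M L).totient : ℝ) * (Λ ^ 2 / m) +
        ((LW M L).totient : ℝ) * (2 * Λ * C1 / m) := add_le_add (add_le_add e1 e2) e3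
    _ = ((LW M L).totient : ℝ) * ((1 + Λ ^ 2 + 2 * Λ * C1) / m) := by ring

theorem Wg_mem_blk {M L m : ℕ} {κ κ' q q' : ℕ → ℕ} (hB : BlkW M L m κ κ' q q') {j n : ℕ} (hj : j < m)
    (hn : n ∈ blk M L m κ' j) : M + j * (L / m) < n ∧ n ≤ M + (j + 1) * (L / m) := by
  unfold blk at hn
  rw [mem_Ioc] at hn
  have h1 := hB.lo j hj
  have h2 := hB.lt j hj
  exact ⟨by omega, hn.2⟩

theorem Wg_disj {M L m : ℕ} {κ κ' q q' : ℕ → ℕ} (hB : BlkW M L m κ κ' q q') {i j : ℕ} (hi : i < m)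
    (hj : j < m) (hij : i ≠ j) : Disjoint (blk M L m κ' i) (blk M L m κ' j) := by
  rw [Finset.disjoint_left]
  intro n h1 h2
  obtain ⟨a1, a2⟩ := Wg_mem_blk hB hi h1
  obtain ⟨b1, b2⟩ := Wg_mem_blk hB hj h2
  rcases lt_or_gt_of_ne hij with h | h
  · have h3 : (i + 1) * (L / m) ≤ j * (L / m) := Nat.mul_le_mul_right _ h
    omega
  · have h3 : (j + 1) * (L / m) ≤ i * (L / m) := Nat.mul_le_mul_right _ h
    omega

theorem Wg_card_blk {M L m : ℕ} {κ κ' q q' : ℕ → ℕ} (hB : BlkW M L m κ κ' q q') {j : ℕ} (hj : j < m) :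
    (blk M L m κ' j).card ≤ L / m := by
  have h1 := hB.lo j hj
  have h2 := hB.lt j hj
  unfold blk
  rw [Nat.card_Ioc]
  have h3 : (j + 1) * (L / m) = j * (L / m) + L / m := by ring
  rw [h3]
  generalize L / m = b at *
  generalize j * b = t at *
  omega

theorem Wg_cover {M L m : ℕ} {κ' : ℕ → ℕ} {D D0 : Finset ℕ} (hD : D ⊆ Ioc M (M + L)) :
    D \ ((range m).biUnion fun j => blk M L m κ' j ∩ (D \ D0)) ⊆
      (D0 ∪ (range m).biUnion fun j => Ioc (M + j * (L / m)) (κ' j)) ∪ Ioc (M + m * (L / m)) (M + L) := by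
  intro n hn
  rw [Finset.mem_sdiff] at hn
  obtain ⟨hnD, hnU⟩ := hn
  have hn1 := mem_Ioc.1 (hD hnD)
  by_cases h0 : n ∈ D0
  · exact mem_union_left _ (mem_union_left _ h0)
  by_cases h1 : M + m * (L / m) < n
  · exact mem_union_right _ (mem_Ioc.2 ⟨h1, hn1.2⟩)
  refine mem_union_left _ (mem_union_right _ ?_)
  have hb : 0 < L / m := by
    rcases Nat.eq_zero_or_pos (L / m) with h | h
    · rw [h, Nat.mul_zero] at h1
      omega
    · exact h
  have hj : (n - M - 1) / (L / m) < m := by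
    rw [Nat.div_lt_iff_lt_mul hb]
    omega
  have hj1 : (n - M - 1) / (L / m) * (L / m) ≤ n - M - 1 := Nat.div_mul_le_self _ _
  have hj2 : n - M - 1 < ((n - M - 1) / (L / m) + 1) * (L / m) := by
    have := Nat.lt_div_mul_add (a := n - M - 1) hb
    rw [Nat.add_mul, Nat.one_mul]
    exact this
  refine mem_biUnion.2 ⟨(n - M - 1) / (L / m), mem_range.2 hj, mem_Ioc.2 ⟨by omega, ?_⟩⟩
  by_contra hlt
  refine hnU (mem_biUnion.2 ⟨(n - M - 1) / (L / m), mem_range.2 hj, mem_inter.2 ⟨?_, Finset.mem_sdiff.2 ⟨hnD, h0⟩⟩⟩)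
  unfold blk
  exact mem_Ioc.2 ⟨by omega, by omega⟩

theorem Wg_card {M L m : ℕ} {κ κ' q q' : ℕ → ℕ} (hB : BlkW M L m κ κ' q q') (hm : 1 ≤ m) {D D0 : Finset ℕ}
    (hD : D ⊆ Ioc M (M + L)) :
    (D.card : ℝ) - (((range m).biUnion fun j => blk M L m κ' j ∩ (D \ D0)).card : ℝ) ≤
      D0.card + (L : ℝ) / m + m := by
  have hU : ((range m).biUnion fun j => blk M L m κ' j ∩ (D \ D0)) ⊆ D := by
    intro n hn
    obtain ⟨j, _, h⟩ := mem_biUnion.1 hn
    exact (Finset.mem_sdiff.1 (mem_inter.1 h).2).1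
  have h1 : (D \ ((range m).biUnion fun j => blk M L m κ' j ∩ (D \ D0))).card +
      ((range m).biUnion fun j => blk M L m κ' j ∩ (D \ D0)).card = D.card :=
    card_sdiff_add_card_eq_card hU
  have h2 := card_le_card (Wg_cover (κ' := κ') (D0 := D0) (m := m) hD)
  have h3 : ((range m).biUnion fun j => Ioc (M + j * (L / m)) (κ' j)).card ≤ L / m := by
    refine card_biUnion_le.trans ?_
    calc ∑ j ∈ range m, (Ioc (M + j * (L / m)) (κ' j)).card ≤ ∑ _j ∈ range m, L / m / m := by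
          refine sum_le_sum fun j hj => ?_
          rw [Nat.card_Ioc]
          have h0 := hB.hi j (mem_range.1 hj)
          exact Nat.sub_le_iff_le_add'.2 h0
      _ = m * (L / m / m) := by rw [sum_const, card_range, smul_eq_mul]
      _ ≤ L / m := Nat.mul_div_le _ _
  have h4 : (Ioc (M + m * (L / m)) (M + L)).card ≤ m := by
    rw [Nat.card_Ioc]
    have h5 : m * (L / m) + L % m = L := Nat.div_add_mod L m
    have h6 : L % m < m := Nat.mod_lt _ hm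
    omega
  have h7 : (D \ ((range m).biUnion fun j => blk M L m κ' j ∩ (D \ D0))).card ≤ D0.card + L / m + m := by
    refine h2.trans ((card_union_le _ _).trans ?_)
    have := card_union_le D0 ((range m).biUnion fun j => Ioc (M + j * (L / m)) (κ' j))
    omega
  have h8 : ((L / m : ℕ) : ℝ) ≤ (L : ℝ) / m := Nat.cast_div_le
  have h9 : ((D \ ((range m).biUnion fun j => blk M L m κ' j ∩ (D \ D0))).card : ℝ) ≤
      D0.card + ((L / m : ℕ) : ℝ) + m := by exact_mod_cast h7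
  have h10 : ((D \ ((range m).biUnion fun j => blk M L m κ' j ∩ (D \ D0))).card : ℝ) +
      (((range m).biUnion fun j => blk M L m κ' j ∩ (D \ D0)).card : ℝ) = D.card := by exact_mod_cast h1
  linarith

/-- ROW Wg. The proof of `theoremA_s` (file `Poi/Se3.lean`) with `closeness_w`. First `ε1` with `(2 Λ + 2) ε1` small compared with `ε`, then `m` large. `D` minus the union of the
`blk j ∩ (D \ D0)` has at most `ε1 L + L/m + m` elements: it is contained in `D0`, the `(M + j (L/m), κ' j]` (each of cardinality `≤ (L/m)/m`), and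
`(M + m (L/m), M + L]` (fewer than `m`). `kap_u` with `M := m + 1`, `Λ := 2 Λ` (`Λ/m ≤ 2 Λ/(m + 1)`) and `μ := ∑ a j`, then `|exp(-(S z)) - exp(-(μ z))| ≤ z |S - μ|` (as in the
proof of `kap_u`, file `Poi/Se1.lean`), `μ = lam |D| / L`. -/
theorem theoremA_w {Λ K R : ℝ} (hΛ : 0 ≤ Λ) (hK : 0 ≤ K) (hR : 0 ≤ R) {ε : ℝ} (hε : 0 < ε) :
    ∃ C0 : ℝ, 1 ≤ C0 ∧ ∀ᶠ L : ℕ in atTop, ∀ M : ℕ, C0 * L ≤ M → ∀ (J : Set ℝ) (lam : ℝ), Nice J lam K R → lam ≤ Λ →
      ∀ D : Finset ℕ, D ⊆ Ioc M (M + L) → ∀ α β : ℝ, 0 ≤ α → α ≤ β → β ≤ 1 →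
      ∀ x y : ℝ, 0 ≤ x → x ≤ 1 → 0 ≤ y → y ≤ 1 →
      |(∑ u ∈ UU (LW M L), gfl J L D (ZW M u) x α β * gfl J L D (ZW M u) y α β) / ((LW M L).totient : ℝ) -
        (β - α) ^ 2 * Real.exp (-(lam * D.card / L * (2 - x - y)))| ≤ ε := by
  obtain ⟨C, hC, hcl⟩ := closeness_w hΛ hK hR (ε1 := ε / (48 * (Λ + 1))) (by positivity)
  obtain ⟨M0, hM0⟩ := kap_u (show 0 ≤ 2 * Λ by linarith) (show 0 < ε / 8 by positivity)
  obtain ⟨m, hm⟩ : ∃ m : ℕ, 2 ≤ m ∧ M0 ≤ m ∧ Λ ≤ m ∧ 4 * C / ε ≤ m ∧ 48 * Λ / ε ≤ m := by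
    refine ⟨2 + M0 + ⌈Λ⌉₊ + ⌈4 * C / ε⌉₊ + ⌈48 * Λ / ε⌉₊, by omega, by omega, ?_, ?_, ?_⟩
    · refine (Nat.le_ceil Λ).trans ?_
      exact_mod_cast (by omega : ⌈Λ⌉₊ ≤ 2 + M0 + ⌈Λ⌉₊ + ⌈4 * C / ε⌉₊ + ⌈48 * Λ / ε⌉₊)
    · refine (Nat.le_ceil (4 * C / ε)).trans ?_
      exact_mod_cast (by omega : ⌈4 * C / ε⌉₊ ≤ 2 + M0 + ⌈Λ⌉₊ + ⌈4 * C / ε⌉₊ + ⌈48 * Λ / ε⌉₊)
    · refine (Nat.le_ceil (48 * Λ / ε)).trans ?_
      exact_mod_cast (by omega : ⌈48 * Λ / ε⌉₊ ≤ 2 + M0 + ⌈Λ⌉₊ + ⌈4 * C / ε⌉₊ + ⌈48 * Λ / ε⌉₊)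
  obtain ⟨hm2, hmM0, hmlam, hmC, hml⟩ := hm
  have hmpos : (0 : ℝ) < m := by exact_mod_cast (by omega : 0 < m)
  have hCm : C / m ≤ ε / 4 := by
    rw [div_le_iff₀ hε] at hmC
    rw [div_le_iff₀ hmpos]
    linarith
  have hlm : Λ / m ≤ ε / 48 := by
    rw [div_le_iff₀ hε] at hml
    rw [div_le_iff₀ hmpos]
    linarith
  obtain ⟨C0, hC0, hcl⟩ := hcl m hm2 hmlam
  refine ⟨C0, hC0, ?_⟩
  filter_upwards [hcl, eventually_gt_atTop ⌈2 * R⌉₊, eventually_ge_atTop ⌈48 * (Λ + 1) * m / ε⌉₊,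
    eventually_gt_atTop 0] with L hL hLR hLm hL0
  intro M hM
  obtain ⟨κ, κ', q, q', D0, hB, hD0, hA⟩ := hL M hM
  intro J lam hJ hlam' D hD α β hα hαβ hβ x y hx0 hx1 hy0 hy1
  have hlam := hJ.lam0
  have hd0 : 0 ≤ β - α := by linarith
  have hd1 : β - α ≤ 1 := by linarith
  have hd2 : (β - α) ^ 2 ≤ 1 := pow_le_one₀ hd0 hd1
  have hLpos : (0 : ℝ) < L := by exact_mod_cast hL0
  have h2R : 2 * R < L := by
    refine (Nat.le_ceil (2 * R)).trans_lt ?_
    exact_mod_cast hLR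
  have hφ0 : (0 : ℝ) < ((LW M L).totient : ℝ) := by
    exact_mod_cast Nat.totient_pos.2 (Pool.Agent.Lib.MP_de5eaa_nt.Near.LW_pos M L)
  have hlL : (0 : ℝ) ≤ lam / L := by positivity
  obtain ⟨U, hU⟩ : ∃ U : Finset ℕ, U = (range m).biUnion fun j => blk M L m κ' j ∩ (D \ D0) := ⟨_, rfl⟩
  have hUD : U ⊆ D := by
    rw [hU]
    intro n hn
    obtain ⟨j, _, h⟩ := mem_biUnion.1 hn
    exact (Finset.mem_sdiff.1 (mem_inter.1 h).2).1
  have hcD0 : (U.card : ℝ) ≤ D.card := by exact_mod_cast card_le_card hUD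
  have hcD := Wg_card (D0 := D0) hB (by omega) hD
  rw [← hU] at hcD
  have hgap : ((D.card : ℝ) - U.card) * (lam / L) ≤ ε / 16 := by
    have h1 : ((D.card : ℝ) - U.card) * (lam / L) ≤
        (ε / (48 * (Λ + 1)) * L + (L : ℝ) / m + m) * (Λ / L) := by
      refine mul_le_mul (by linarith) (div_le_div_of_nonneg_right hlam' hLpos.le) hlL (by positivity)
    have h2 : (ε / (48 * (Λ + 1)) * L + (L : ℝ) / m + m) * (Λ / L) =
        ε / (48 * (Λ + 1)) * Λ + Λ / m + m * Λ / L := by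
      field_simp
    have h3 : ε / (48 * (Λ + 1)) * Λ ≤ ε / 48 := by
      have h4 : ε / (48 * (Λ + 1)) * Λ = ε / 48 * (Λ / (Λ + 1)) := by
        field_simp
      rw [h4]
      have h5 : Λ / (Λ + 1) ≤ 1 := by
        rw [div_le_one (by linarith)]
        linarith
      calc ε / 48 * (Λ / (Λ + 1)) ≤ ε / 48 * 1 := mul_le_mul_of_nonneg_left h5 (by positivity)
        _ = ε / 48 := mul_one _
    have h6 : m * Λ / L ≤ ε / 48 := by
      have h7 : 48 * (Λ + 1) * m / ε ≤ L := by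
        refine (Nat.le_ceil _).trans ?_
        exact_mod_cast hLm
      rw [div_le_iff₀ hε] at h7
      rw [div_le_iff₀ hLpos]
      nlinarith [hmpos, hΛ]
    rw [h2] at h1
    linarith
  have hδ : ∀ (u : ℕ) {w : ℝ}, 0 ≤ w → w ≤ 1 →
      |gfl J L D (ZW M u) w α β - gfl J L U (ZW M u) w α β| ≤ ε / 16 := by
    intro u w hw0 hw1
    exact (gfl_diff hJ h2R hUD (ZW M u) hw0 hw1 hα hαβ hβ).trans hgap
  obtain ⟨a, ha⟩ : ∃ a : ℕ → ℝ, a = fun j => ((blk M L m κ' j ∩ (D \ D0)).card : ℝ) * (lam / L) := ⟨_, rfl⟩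
  have hsum : ∑ j ∈ range m, a j = (U.card : ℝ) * (lam / L) := by
    rw [ha, ← sum_mul]
    congr 1
    rw [hU, Finset.card_biUnion (fun i hi j hj hij =>
      (Wg_disj hB (mem_range.mp hi) (mem_range.mp hj) hij).mono inter_subset_left inter_subset_left),
      Nat.cast_sum]
  have hS0 : 0 ≤ ∑ j ∈ range m, a j := by
    rw [hsum]
    positivity
  have hpr := hM0 (m + 1) (by omega) a (∑ j ∈ range m, a j) hS0
    (fun j hj => by
      rw [ha]
      refine ⟨by positivity, ?_⟩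
      have h1 : (((blk M L m κ' j ∩ (D \ D0)).card : ℕ) : ℝ) ≤ ((L / m : ℕ) : ℝ) := by
        exact_mod_cast (card_le_card inter_subset_left).trans (Wg_card_blk hB (by omega))
      have h2 : ((L / m : ℕ) : ℝ) ≤ (L : ℝ) / m := Nat.cast_div_le
      calc ((blk M L m κ' j ∩ (D \ D0)).card : ℝ) * (lam / L) ≤ (L : ℝ) / m * (lam / L) :=
            mul_le_mul_of_nonneg_right (h1.trans h2) hlL
        _ = lam / m := by field_simp
        _ ≤ Λ / m := div_le_div_of_nonneg_right hlam' hmpos.le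
        _ ≤ 2 * Λ / ((m + 1 : ℕ) : ℝ) := by
            push_cast
            rw [div_le_div_iff₀ hmpos (by positivity)]
            have h3 : (1 : ℝ) ≤ m := by exact_mod_cast (by omega : 1 ≤ m)
            nlinarith)
    (by
      rw [Nat.add_sub_cancel, sub_self, abs_zero]
      positivity) (2 - x - y) (by linarith) (by linarith)
  rw [Nat.add_sub_cancel] at hpr
  have hlip : |Real.exp (-((∑ j ∈ range m, a j) * (2 - x - y))) - Real.exp (-(lam * D.card / L * (2 - x - y)))| ≤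
      ε / 8 := by
    refine (Se1b_lip (mul_nonneg hS0 (by linarith)) (mul_nonneg (by positivity) (by linarith))).trans ?_
    rw [← sub_mul, abs_mul, abs_of_nonneg (show (0 : ℝ) ≤ 2 - x - y by linarith)]
    have e1 : lam * D.card / L = (D.card : ℝ) * (lam / L) := by ring
    rw [hsum, e1, ← sub_mul, abs_mul, abs_of_nonneg hlL, abs_sub_comm, abs_of_nonneg (by linarith)]
    calc ((D.card : ℝ) - U.card) * (lam / L) * (2 - x - y) ≤ ε / 16 * 2 :=
          mul_le_mul hgap (by linarith) (by linarith) (by positivity)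
      _ = ε / 8 := by ring
  have hpr' : |(β - α) ^ 2 * ∏ j ∈ range m, (1 - (2 - x - y) * a j) -
      (β - α) ^ 2 * Real.exp (-(lam * D.card / L * (2 - x - y)))| ≤ ε / 4 := by
    rw [← mul_sub, abs_mul, abs_of_nonneg (sq_nonneg (β - α))]
    refine (mul_le_mul_of_nonneg_right hd2 (abs_nonneg _)).trans ?_
    rw [one_mul]
    have := abs_sub_le (∏ j ∈ range m, (1 - (2 - x - y) * a j))
      (Real.exp (-((∑ j ∈ range m, a j) * (2 - x - y)))) (Real.exp (-(lam * D.card / L * (2 - x - y))))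
    linarith
  have hA' := hA J lam hJ hlam' D hD α β hα hαβ hβ x y hx0 hx1 hy0 hy1
  rw [← hU, mul_left_comm ((β - α) ^ 2) (((LW M L).totient : ℝ))] at hA'
  have ha' : ∀ j, (((blk M L m κ' j ∩ (D \ D0)).card : ℝ) * (lam / L)) = a j := fun j => by rw [ha]
  simp only [ha'] at hA'
  exact I7_step (T := C / m) (by rw [card_UU]) hφ0 _ (fun u => gfl J L U (ZW M u) x α β) _
    (fun u => gfl J L U (ZW M u) y α β) (ε / 16) _ _ ε
    (fun u _ => hδ u hx0 hx1) (fun u _ => hδ u hy0 hy1)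
    (fun u _ => ⟨gfl_nonneg _ _ _ hx0 hαβ, (gfl_le hJ.meas _ _ _ hx0 hx1 hαβ).trans hd1⟩)
    (fun u _ => ⟨gfl_nonneg _ _ _ hy0 hαβ, (gfl_le hJ.meas _ _ _ hy0 hy1 hαβ).trans hd1⟩) (by linarith) hA' hCm hpr' hε

end Pool.Agent.Lib.MP_de5eaa_nt.Poi
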