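import Pool.Agent.Lib.MP_de5eaa_nt.Poi.W4

set_option autoImplicit false

namespace Pool.Agent.Lib.MP_de5eaa_nt.Poi

open Finset MeasureTheory Filter Topology
open Pool.Agent.Lib.MP_de5eaa_nt.Near (hs wq ppi LW ZW)

open Classical in
/-- ROW Wh (helper78). As `finite_poisson_s`. -/
theorem finite_poisson_w {Λ K R : ℝ} (hΛ : 0 ≤ Λ) (hK : 0 ≤ K) (hR : 0 ≤ R) (r : ℕ) {h : ℝ} (hh : 0 < h) {ε : ℝ}
    (hε : 0 < ε) : ∃ C0 : ℝ, 1 ≤ C0 ∧ ∀ᶠ L : ℕ in atTop, ∀ M : ℕ, C0 * L ≤ M → ∀ (J : Set ℝ) (lam : ℝ),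
      Nice J lam K R → lam ≤ Λ → ∀ D : Finset ℕ, D ⊆ Ioc M (M + L) → ∀ α β : ℝ, 0 ≤ α → h ≤ β - α → β ≤ 1 →
      (((UU (LW M L)).filter fun u => ε < |pvl J L D (ZW M u) r α β - (β - α) * poi (lam * D.card / L) r|).card : ℝ) ≤
        ε * ((LW M L).totient : ℝ) := by
  obtain ⟨X, hX, δ, hδ, hinv⟩ := inversion_u r hε
  set ε' : ℝ := min (δ * h) (ε / ((X.card : ℝ) + 1)) with hε'
  have hX1 : (0 : ℝ) < (X.card : ℝ) + 1 := by positivity
  have hδh : 0 < δ * h := mul_pos hδ hh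
  have hε'0 : 0 < ε' := lt_min hδh (div_pos hε hX1)
  have hε'ε : (X.card : ℝ) * ε' ≤ ε := by
    have h1 : ε' ≤ ε / ((X.card : ℝ) + 1) := min_le_right _ _
    have h2 : ε' * ((X.card : ℝ) + 1) ≤ ε := (le_div_iff₀ hX1).1 h1
    nlinarith
  have hδ' : 0 < ε' ^ 3 / 3 := by positivity
  have hδ'' : 0 < ε' ^ 3 / 3 * h := mul_pos hδ' hh
  obtain ⟨C0, hC0, hA⟩ := theoremA_w hΛ hK hR hδ''
  refine ⟨C0, hC0, ?_⟩
  filter_upwards [hA] with L hL0'
  intro M hM J lam hJ hlam D hD α β hα hhb hβ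
  have hL0 := hL0' M hM
  obtain ⟨b, hb⟩ : ∃ b : ℝ, b = β - α := ⟨_, rfl⟩
  rw [← hb] at hhb
  have hb0 : 0 < b := lt_of_lt_of_le hh hhb
  have hb1 : b ≤ 1 := by
    rw [hb]
    linarith
  have hαβ : α ≤ β := by linarith
  have hL := hL0 J lam hJ hlam D hD α β hα hαβ hβ
  obtain ⟨μ, hμ⟩ : ∃ μ : ℝ, μ = lam * D.card / L := ⟨_, rfl⟩
  rw [← hμ] at hL ⊢
  have hμ0 : 0 ≤ μ := by
    rw [hμ]
    exact div_nonneg (mul_nonneg hJ.lam0 (Nat.cast_nonneg _)) (Nat.cast_nonneg _)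
  have hε'δ : ε' ≤ δ * b := (min_le_left _ _).trans (mul_le_mul_of_nonneg_left hhb hδ.le)
  have hδb : ε' ^ 3 / 3 * h ≤ ε' ^ 3 / 3 * b := mul_le_mul_of_nonneg_left hhb hδ'.le
  have hδ1 : ε' ^ 3 / 3 * h ≤ ε' ^ 3 / 3 := by nlinarith
  have hcard : ((UU (LW M L)).card : ℝ) = ((LW M L).totient : ℝ) := by rw [card_UU]
  set B : ℝ → Finset ℕ := fun x => (UU (LW M L)).filter fun u =>
    ε' < |gfl J L D (ZW M u) x α β - b * Real.exp (-(μ * (1 - x)))| with hB
  have hBx : ∀ x ∈ X, ((B x).card : ℝ) ≤ ε' * ((LW M L).totient : ℝ) := by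
    intro x hx
    obtain ⟨hx0, hx1⟩ := hX x hx
    have he1 : Real.exp (-(μ * (1 - x))) ≤ 1 := by
      rw [Real.exp_le_one_iff]
      have : 0 ≤ μ * (1 - x) := mul_nonneg hμ0 (by linarith)
      linarith
    have he0 : 0 ≤ Real.exp (-(μ * (1 - x))) := Real.exp_nonneg _
    have h2 := hL x x hx0 hx1 hx0 hx1
    have h1 := hL x 1 hx0 hx1 zero_le_one le_rfl
    have e2 : (β - α) ^ 2 * Real.exp (-(μ * (2 - x - x))) = (b * Real.exp (-(μ * (1 - x)))) ^ 2 := by
      rw [mul_pow, ← Real.exp_nat_mul, hb]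
      congr 2
      push_cast
      ring
    have e1 : Real.exp (-(μ * (2 - x - 1))) = Real.exp (-(μ * (1 - x))) := by
      congr 1
      ring
    rw [e2] at h2
    rw [e1] at h1
    simp only [gfl_one] at h1
    rw [← hb, ← Finset.sum_mul] at h1
    have h1' : |(∑ u ∈ UU (LW M L), gfl J L D (ZW M u) x α β) / ((LW M L).totient : ℝ) -
        b * Real.exp (-(μ * (1 - x)))| ≤ ε' ^ 3 / 3 := by
      have e3 : (∑ u ∈ UU (LW M L), gfl J L D (ZW M u) x α β) * b / ((LW M L).totient : ℝ) -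
          b ^ 2 * Real.exp (-(μ * (1 - x))) =
          ((∑ u ∈ UU (LW M L), gfl J L D (ZW M u) x α β) / ((LW M L).totient : ℝ) -
            b * Real.exp (-(μ * (1 - x)))) * b := by ring
      rw [e3, abs_mul, abs_of_pos hb0] at h1
      exact le_of_mul_le_mul_right (h1.trans hδb) hb0
    have h3 := cheb_var (UU (LW M L)) (fun u => gfl J L D (ZW M u) x α β)
      (e := b * Real.exp (-(μ * (1 - x)))) (mul_nonneg hb0.le he0) (by nlinarith) hε'0
      (δ := ε' ^ 3 / 3) (by linarith)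
      (by
        rw [hcard]
        refine le_trans ?_ hδ1
        simpa only [pow_two] using h2)
      (by
        rw [hcard]
        exact h1')
    rw [hcard] at h3
    exact h3
  have hsub : ((UU (LW M L)).filter fun u => ε < |pvl J L D (ZW M u) r α β - (β - α) * poi μ r|) ⊆ X.biUnion B := by
    intro u hu
    obtain ⟨huU, hu'⟩ := Finset.mem_filter.1 hu
    by_contra hcon
    rw [Finset.mem_biUnion] at hcon
    push Not at hcon
    have hq := hinv μ hμ0 D.card (fun i => pvl J L D (ZW M u) i α β / b)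
      (fun i => div_nonneg (pvl_nonneg _ _ _ _ i α β) hb0.le)
      (fun i => (div_le_one hb0).2 (by
        rw [hb]
        exact pvl_le _ _ _ _ i hαβ))
      (fun i hi => by
        show pvl J L D (ZW M u) i α β / b = 0
        rw [pvl_zero J (L : ℝ) D (ZW M u) (r := i) hi α β, zero_div]) ?_
    · refine absurd ?_ (not_le.2 hu')
      have e4 : pvl J L D (ZW M u) r α β - (β - α) * poi μ r =
          (pvl J L D (ZW M u) r α β / b - poi μ r) * b := by
        rw [← hb, sub_mul, div_mul_cancel₀ _ hb0.ne']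
        ring
      rw [e4, abs_mul, abs_of_pos hb0]
      calc |pvl J L D (ZW M u) r α β / b - poi μ r| * b ≤ ε * b :=
            mul_le_mul_of_nonneg_right hq hb0.le
        _ ≤ ε * 1 := mul_le_mul_of_nonneg_left hb1 hε.le
        _ = ε := mul_one ε
    · intro x hx
      have h1 := hcon x hx
      rw [hB, Finset.mem_filter, not_and, not_lt] at h1
      have h2 := gfl_eq hJ.meas (L : ℝ) D (ZW M u) x hαβ
      have h3 := (h1 huU).trans hε'δ
      have e5 : (∑ i ∈ range (D.card + 1), pvl J L D (ZW M u) i α β / b * x ^ i) =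
          gfl J L D (ZW M u) x α β / b := by
        rw [h2, Finset.sum_div]
        refine Finset.sum_congr rfl fun i _ => ?_
        ring
      rw [e5]
      have e6 : gfl J L D (ZW M u) x α β - b * Real.exp (-(μ * (1 - x))) =
          (gfl J L D (ZW M u) x α β / b - Real.exp (-(μ * (1 - x)))) * b := by
        rw [sub_mul, div_mul_cancel₀ _ hb0.ne']
        ring
      rw [e6, abs_mul, abs_of_pos hb0] at h3
      exact le_of_mul_le_mul_right h3 hb0
  calc (((UU (LW M L)).filter fun u => ε < |pvl J L D (ZW M u) r α β - (β - α) * poi μ r|).card : ℝ)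
      ≤ ((X.biUnion B).card : ℝ) := by exact_mod_cast Finset.card_le_card hsub
    _ ≤ ∑ x ∈ X, ((B x).card : ℝ) := by
        have h1 : (X.biUnion B).card ≤ ∑ x ∈ X, (B x).card := Finset.card_biUnion_le
        exact_mod_cast h1
    _ ≤ ∑ x ∈ X, ε' * ((LW M L).totient : ℝ) := Finset.sum_le_sum hBx
    _ = (X.card : ℝ) * ε' * ((LW M L).totient : ℝ) := by
        rw [Finset.sum_const, nsmul_eq_mul]
        ring
    _ ≤ ε * ((LW M L).totient : ℝ) := mul_le_mul_of_nonneg_right hε'ε (Nat.cast_nonneg _)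

/-- ROW Wi. The proof of `wq_pvl_s` (file `Poi/Se5.lean`) with `W_point'` (file `Near/Q5.lean`, full name `Pool.Agent.Lib.MP_de5eaa_nt.Near.W_point'`) instead of `wq_point`; `0 ≤ hs (M + 1) n ≤ L` for
`M < n ≤ M + L` (a sum of at most `L` terms `≤ 1`), `D.card ≤ L`. -/
theorem wq_pvl_w {J : Set ℝ} {lam K R : ℝ} (hJ : Nice J lam K R) {p M L u : ℕ} (hp : p.Prime) (hL0 : 1 ≤ L)
    (hL : M + L < p) (hu : u * p ≡ 1 [MOD LW M L]) (r : ℕ) {D : Finset ℕ} (hD : D ⊆ Ioc M (M + L)) {α β : ℝ}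
    (hα : 0 ≤ α) (hαβ : α ≤ β) (hβ : β ≤ 1) :
    |pvl J L D (fun n => (wq n p : ℝ) / p) r α β -
      pvl J L D (ZW M u) r (α - (wq (M + 1) p : ℝ) / p) (β - (wq (M + 1) p : ℝ) / p)| ≤ 2 * K * (L : ℝ) ^ 2 / p := by
  have hp0 : (0 : ℝ) < p := by exact_mod_cast hp.pos
  have hLr : (0 : ℝ) < L := by exact_mod_cast (show 0 < L by omega)
  have e1 : pvl J L D (fun n => (wq n p : ℝ) / p) r α β =
      pvl J L D (fun n => (ZW M u n + ((hs (M + 1) n : ℚ) : ℝ) / p) + (wq (M + 1) p : ℝ) / p) r α β := by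
    unfold pvl
    have h1 : ∀ t, cnt J L D (fun n => (wq n p : ℝ) / p) t =
        cnt J L D (fun n => (ZW M u n + ((hs (M + 1) n : ℚ) : ℝ) / p) + (wq (M + 1) p : ℝ) / p) t := by
      intro t
      refine cnt_add_int J L D _ _ (fun n hn => ?_) t
      obtain ⟨h2, h3⟩ := Finset.mem_Ioc.1 (hD hn)
      obtain ⟨a, ha⟩ := Pool.Agent.Lib.MP_de5eaa_nt.Near.W_point' hp hL hu h2 h3
      exact ⟨a, by rw [ha]; ring⟩
    simp only [h1]
  have e2 : pvl J L D (ZW M u) r (α - (wq (M + 1) p : ℝ) / p) (β - (wq (M + 1) p : ℝ) / p) =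
      pvl J L D (fun n => ZW M u n + (wq (M + 1) p : ℝ) / p) r α β :=
    (pvl_shift hJ.meas L D (ZW M u) r ((wq (M + 1) p : ℝ) / p) α β).symm
  rw [e1, e2]
  refine le_trans (pvl_pert hJ hLr D
    (fun n => (ZW M u n + ((hs (M + 1) n : ℚ) : ℝ) / p) + (wq (M + 1) p : ℝ) / p)
    (fun n => ZW M u n + (wq (M + 1) p : ℝ) / p) r hα hαβ hβ) ?_
  have hK := hJ.K0
  have h4 : ∀ n ∈ D, 2 * K * |(ZW M u n + (wq (M + 1) p : ℝ) / p) -
      ((ZW M u n + ((hs (M + 1) n : ℚ) : ℝ) / p) + (wq (M + 1) p : ℝ) / p)| ≤ 2 * K * (L : ℝ) / p := by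
    intro n hn
    obtain ⟨h2, h3⟩ := Finset.mem_Ioc.1 (hD hn)
    have h5 : (0 : ℝ) ≤ ((hs (M + 1) n : ℚ) : ℝ) := by
      exact_mod_cast Pool.Agent.Lib.MP_de5eaa_nt.Near.hs_nonneg_w M n
    have h6 : ((hs (M + 1) n : ℚ) : ℝ) ≤ (L : ℝ) := by
      have h7 : (hs (M + 1) n : ℚ) ≤ (L : ℚ) := Pool.Agent.Lib.MP_de5eaa_nt.Near.hs_le_w h3
      exact_mod_cast h7
    have h8 : |(ZW M u n + (wq (M + 1) p : ℝ) / p) -
        ((ZW M u n + ((hs (M + 1) n : ℚ) : ℝ) / p) + (wq (M + 1) p : ℝ) / p)| = ((hs (M + 1) n : ℚ) : ℝ) / p := by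
      rw [show (ZW M u n + (wq (M + 1) p : ℝ) / p) -
        ((ZW M u n + ((hs (M + 1) n : ℚ) : ℝ) / p) + (wq (M + 1) p : ℝ) / p) =
          -(((hs (M + 1) n : ℚ) : ℝ) / p) by ring,
        abs_neg, abs_of_nonneg (div_nonneg h5 hp0.le)]
    rw [h8, mul_div_assoc]
    exact mul_le_mul_of_nonneg_left (div_le_div_of_nonneg_right h6 hp0.le) (by positivity)
  refine le_trans (Finset.sum_le_sum h4) ?_
  rw [Finset.sum_const, nsmul_eq_mul]
  have hDL : (D.card : ℝ) ≤ L := by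
    have h9 := Finset.card_le_card hD
    rw [Nat.card_Ioc, Nat.add_sub_cancel_left] at h9
    exact_mod_cast h9
  calc (D.card : ℝ) * (2 * K * (L : ℝ) / p) ≤ L * (2 * K * (L : ℝ) / p) :=
        mul_le_mul_of_nonneg_right hDL (by positivity)
    _ = 2 * K * (L : ℝ) ^ 2 / p := by ring

theorem Wj_LW_le (M L : ℕ) (hL : 1 ≤ L) : LW M L ≤ (M + L) ^ L := by
  have h1 : LW M L ∣ ∏ i ∈ Icc (M + 1) (M + L), i := by
    unfold LW
    exact Finset.lcm_dvd fun i hi => Finset.dvd_prod_of_mem (fun i => i) hi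
  have h2 : 0 < ∏ i ∈ Icc (M + 1) (M + L), i := by
    apply Finset.prod_pos
    intro i hi
    rw [mem_Icc] at hi
    omega
  refine (Nat.le_of_dvd h2 h1).trans ?_
  have h3 : ∏ i ∈ Icc (M + 1) (M + L), i ≤ (M + L) ^ (Icc (M + 1) (M + L)).card := by
    apply Finset.prod_le_pow_card
    intro i hi
    exact (mem_Icc.1 hi).2
  have h4 : (Icc (M + 1) (M + L)).card = L := by
    rw [Nat.card_Icc]
    omega
  rwa [h4] at h3

/-- the conclusions in terms of `y = log x` -/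
theorem Wj_fin {δ : ℝ} {x2 L M x : ℕ} (hx0 : 0 < x) (hx2 : x2 ≤ L) (hL : (L : ℝ) ≤ Real.log x)
    (h1 : Real.log (LW M L : ℕ) ≤ (1 - δ / 2) * Real.log x)
    (h2 : ((M + L : ℕ) : ℝ) + 1 ≤ Real.exp (Real.log x / 2)) :
    x2 ≤ x ∧ ((LW M L : ℕ) : ℝ) ≤ (x : ℝ) ^ (1 - δ / 2) ∧ ((M + L : ℕ) : ℝ) + 1 ≤ Real.sqrt x ∧ (L : ℝ) ≤ Real.log x := by
  have hxr : (0 : ℝ) < x := by exact_mod_cast hx0
  refine ⟨?_, ?_, ?_, hL⟩
  · have h3 : (L : ℝ) ≤ x := hL.trans (Real.log_le_self hxr.le)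
    have h4 : L ≤ x := by exact_mod_cast h3
    exact hx2.trans h4
  · have h3 : (0 : ℝ) < ((LW M L : ℕ) : ℝ) := by exact_mod_cast Near.LW_pos M L
    rw [Real.rpow_def_of_pos hxr, ← Real.exp_log h3, mul_comm (Real.log x)]
    exact Real.exp_le_exp.2 h1
  · rwa [Real.exp_half, Real.exp_log hxr] at h2

/-- ROW Wj. `L ≥ L0`. Both cases: `L ≤ log x` (second case: `log (M + L) ≥ 1`), so `x ≥ exp L` is large. First case: `LW M L ∣ QQ (M + L)` (`LW_dvd_QQ`),
`log QQ (M + L) ≤ (1 + δ/2) (M + L)` (`log_QQ`, file `Poi/U1.lean`), `(1 + δ/2) (1 - δ) ≤ 1 - δ/2`; `M + L ≤ log x ≤ √x - 1`. Second case: `LW M L ≤ (M + L)^L` (an lcm of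
`L` numbers `≤ M + L`: it divides their product), so `≤ exp((1 - δ) log x) = x^(1 - δ) ≤ x^(1 - δ/2)`; `M + L = exp(log (M + L)) ≤ exp(log x / 3) = x^(1/3) ≤ √x - 1` (`L ≥ 3`). -/
theorem win_size {δ : ℝ} (hδ : 0 < δ) (hδ1 : δ < 1) (x2 : ℕ) : ∃ L0 : ℕ, ∀ L M x : ℕ, L0 ≤ L → Short δ M L x →
    x2 ≤ x ∧ ((LW M L : ℕ) : ℝ) ≤ (x : ℝ) ^ (1 - δ / 2) ∧ ((M + L : ℕ) : ℝ) + 1 ≤ Real.sqrt x ∧ (L : ℝ) ≤ Real.log x := by
  obtain ⟨N1, hN1⟩ := eventually_atTop.1 (log_QQ (δ := δ / 2) (by linarith))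
  refine ⟨max (max N1 x2) 6, fun L M x hL hS => ?_⟩
  have hL1 : N1 ≤ L := (le_max_left _ _).trans ((le_max_left _ _).trans hL)
  have hL2 : x2 ≤ L := (le_max_right _ _).trans ((le_max_left _ _).trans hL)
  have hL6 : 6 ≤ L := (le_max_right _ _).trans hL
  have hL6r : (6 : ℝ) ≤ L := by exact_mod_cast hL6
  have hML : (6 : ℝ) ≤ ((M + L : ℕ) : ℝ) := by
    have : 6 ≤ M + L := by omega
    exact_mod_cast this
  have hMLL : (L : ℝ) ≤ ((M + L : ℕ) : ℝ) := by
    have : L ≤ M + L := by omega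
    exact_mod_cast this
  have hlog1 : 1 ≤ Real.log ((M + L : ℕ) : ℝ) := by
    rw [Real.le_log_iff_exp_le (by linarith)]
    have := Real.exp_one_lt_d9
    linarith
  -- the logarithm of `x` is positive
  have hy : (L : ℝ) ≤ (1 - δ) * Real.log x := by
    rcases hS with h | h
    · linarith
    · have : (L : ℝ) * 1 ≤ (L : ℝ) * Real.log ((M + L : ℕ) : ℝ) := by gcongr
      linarith
  have hypos : 0 < Real.log x := by
    by_contra hc
    push Not at hc
    have : (1 - δ) * Real.log x ≤ 0 := mul_nonpos_of_nonneg_of_nonpos (by linarith) hc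
    linarith
  have hx0 : 0 < x := by
    rcases Nat.eq_zero_or_pos x with h | h
    · subst h
      simp at hypos
    · exact h
  have hLy : (L : ℝ) ≤ Real.log x := by
    have : (1 - δ) * Real.log x ≤ 1 * Real.log x := by gcongr; linarith
    linarith
  have hy6 : 6 ≤ Real.log x := by linarith
  have hposLW : (0 : ℝ) < ((LW M L : ℕ) : ℝ) := by exact_mod_cast Near.LW_pos M L
  refine Wj_fin hx0 hL2 hLy ?_ ?_
  · rcases hS with h | h
    · have h1 : Real.log ((LW M L : ℕ) : ℝ) ≤ Real.log ((QQ (M + L) : ℕ) : ℝ) := by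
        apply Real.log_le_log hposLW
        have hQ : 0 < QQ (M + L) := by
          rcases Nat.eq_zero_or_pos (QQ (M + L)) with h0 | h0
          · exfalso
            have := Near.LW_dvd_QQ 0 (M + L)
            have h5 := Near.QQ_dvd_LW 0 (M + L)
            rw [h0] at h5
            have h6 := Near.LW_pos 0 (M + L)
            have := Nat.eq_zero_of_zero_dvd h5
            omega
          · exact h0
        exact_mod_cast Nat.le_of_dvd hQ (Near.LW_dvd_QQ M L)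
      have h2 := hN1 (M + L) (by omega)
      have h3 : (1 + δ / 2) * ((M + L : ℕ) : ℝ) ≤ (1 + δ / 2) * ((1 - δ) * Real.log x) := by gcongr
      have h4 : (1 + δ / 2) * ((1 - δ) * Real.log x) ≤ (1 - δ / 2) * Real.log x := by
        have : 0 ≤ δ ^ 2 / 2 * Real.log x := by positivity
        nlinarith
      linarith
    · have h1 : Real.log ((LW M L : ℕ) : ℝ) ≤ (L : ℝ) * Real.log ((M + L : ℕ) : ℝ) := by
        have h2 : ((LW M L : ℕ) : ℝ) ≤ (((M + L : ℕ) : ℝ)) ^ L := by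
          exact_mod_cast Wj_LW_le M L (by omega)
        have h3 := Real.log_le_log hposLW h2
        rwa [Real.log_pow] at h3
      have h4 : (1 - δ) * Real.log x ≤ (1 - δ / 2) * Real.log x := by gcongr; linarith
      linarith
  · rcases hS with h | h
    · have h1 : ((M + L : ℕ) : ℝ) ≤ Real.log x := by
        have : (1 - δ) * Real.log x ≤ 1 * Real.log x := by gcongr; linarith
        linarith
      have h2 := Real.quadratic_le_exp_of_nonneg (x := Real.log x / 2) (by linarith)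
      nlinarith
    · have h1 : Real.log ((M + L : ℕ) : ℝ) ≤ Real.log x / 3 := by
        have h2 : (1 - δ) * Real.log x ≤ 1 * Real.log x := by gcongr; linarith
        have h3 : (3 : ℝ) * Real.log ((M + L : ℕ) : ℝ) ≤ (L : ℝ) * Real.log ((M + L : ℕ) : ℝ) := by
          gcongr
          linarith
        linarith
      have h2 : ((M + L : ℕ) : ℝ) ≤ Real.exp (Real.log x / 3) := by
        rwa [← Real.log_le_iff_le_exp (by linarith)]
      have h3 := Real.add_one_le_exp (Real.log x / 6)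
      set a : ℝ := Real.exp (Real.log x / 6) with ha
      have h4 : Real.exp (Real.log x / 3) = a ^ 2 := by
        rw [ha, ← Real.exp_nat_mul]
        congr 1
        push_cast
        ring
      have h5 : Real.exp (Real.log x / 2) = a ^ 3 := by
        rw [ha, ← Real.exp_nat_mul]
        congr 1
        push_cast
        ring
      rw [h4] at h2
      rw [h5]
      have h6 : 2 ≤ a := by linarith
      nlinarith [sq_nonneg a, mul_nonneg (sq_nonneg a) (sub_nonneg.2 h6)]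

open Classical in
/-- ROW Wk. The proof of `main_s` (file `Poi/Se5.lean`) with `finite_poisson_w` (`h = 1/m`), `wq_pvl_w`, `win_size` (`x2` = the bound for `x` of the other eventual conditions).
`LW_dvd_fac`: a prime `p > M + L` is prime to `LW M L`. -/
theorem main_w {Λ K R : ℝ} (hΛ : 0 ≤ Λ) (hK : 0 ≤ K) (hR : 0 ≤ R) {δ : ℝ} (hδ : 0 < δ) (hδ1 : δ < 1) (r : ℕ) {ε : ℝ}
    (hε : 0 < ε) : ∃ C0 : ℝ, 1 ≤ C0 ∧ ∃ L0 : ℕ, ∀ L M x : ℕ, L0 ≤ L → C0 * L ≤ M → Short δ M L x →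
      ∀ (J : Set ℝ) (lam : ℝ), Nice J lam K R → lam ≤ Λ → ∀ D : Finset ℕ, D ⊆ Ioc M (M + L) →
      (((range (x + 1)).filter fun p => p.Prime ∧ ∃ α β : ℝ, 0 ≤ α ∧ α ≤ β ∧ β ≤ 1 ∧
        ε < |pvl J L D (fun n => (wq n p : ℝ) / p) r α β - (β - α) * poi (lam * D.card / L) r|).card : ℝ) ≤
      ε * ppi x := by
  obtain ⟨C, hC, x1, hbt⟩ := bt_mean (half_pos hδ)
  obtain ⟨m, hm1⟩ := exists_nat_gt (32 / ε)
  have hmr : (0 : ℝ) < (m : ℝ) := lt_trans (by positivity) hm1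
  have hm0 : 0 < m := by exact_mod_cast hmr
  have hm4 : 4 / (m : ℝ) ≤ ε / 8 := by
    rw [div_le_iff₀ hmr]
    rw [div_lt_iff₀ hε] at hm1
    nlinarith
  set ε' := min (ε / (32 * m)) (ε / (4 * C * m)) with hε'
  have hε'0 : 0 < ε' := lt_min (by positivity) (by positivity)
  have hε'1 : (m : ℝ) * ε' ≤ ε / 32 := by
    have h1 : ε' ≤ ε / (32 * m) := min_le_left _ _
    calc (m : ℝ) * ε' ≤ m * (ε / (32 * m)) := mul_le_mul_of_nonneg_left h1 hmr.le
      _ = ε / 32 := by field_simp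
  have hε'2 : (m : ℝ) * ε' ≤ ε / (4 * C) := by
    have h1 : ε' ≤ ε / (4 * C * m) := min_le_right _ _
    calc (m : ℝ) * ε' ≤ m * (ε / (4 * C * m)) := mul_le_mul_of_nonneg_left h1 hmr.le
      _ = ε / (4 * C) := by field_simp
  obtain ⟨C0, hC0, hcells⟩ := finite_poisson_w hΛ hK hR r (h := 1 / (m : ℝ)) (by positivity) hε'0
  obtain ⟨L1, hL1⟩ := eventually_atTop.1 hcells
  obtain ⟨x2, hx2⟩ := eventually_atTop.1 (((sqrt_le_ppi (c := ε / 4) (by positivity)).and
    (log_small K (half_pos hε) hK)).and (eventually_ge_atTop x1))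
  obtain ⟨L2, hL2⟩ := win_size hδ hδ1 x2
  refine ⟨C0, hC0, max (max L1 L2) 1, fun L M x hL hCM hsh J lam hJ hlam D hD => ?_⟩
  have hLL1 : L1 ≤ L := (le_max_left _ _).trans ((le_max_left _ _).trans hL)
  have hLL2 : L2 ≤ L := (le_max_right _ _).trans ((le_max_left _ _).trans hL)
  have hL0 : 1 ≤ L := (le_max_right _ _).trans hL
  have hL0r : (1 : ℝ) ≤ L := by exact_mod_cast hL0
  have hbad0 := hL1 L hLL1 M hCM
  obtain ⟨hxx2, hQx, hMLx, hLlog⟩ := hL2 L M x hLL2 hsh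
  obtain ⟨⟨hsq, hls, hlt, hlog0⟩, hxx1⟩ := hx2 x hxx2
  have hmu : 0 ≤ lam * D.card / L := div_nonneg (mul_nonneg hJ.lam0 (Nat.cast_nonneg _)) (by linarith)
  have he0 : 0 ≤ poi (lam * D.card / L) r := poi_nonneg hmu r
  have he1 : poi (lam * D.card / L) r ≤ 1 := by
    have h1 := poi_sum_le hmu {r}
    rw [Finset.sum_singleton] at h1
    exact h1
  have hbad0' : ∀ i ∈ range m,
      (((UU (LW M L)).filter fun u => ε' < |pvl J L D (ZW M u) r ((i : ℝ) / m) (((i : ℝ) + 1) / m) -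
        (((i : ℝ) + 1) / m - (i : ℝ) / m) * poi (lam * D.card / L) r|).card : ℝ) ≤
        ε' * ((LW M L).totient : ℝ) := by
    intro i hi
    rw [mem_range] at hi
    have hi1 : (i : ℝ) + 1 ≤ m := by exact_mod_cast hi
    refine hbad0 J lam hJ hlam D hD ((i : ℝ) / m) (((i : ℝ) + 1) / m) (by positivity) ?_ ?_
    · apply le_of_eq
      rw [← sub_div]
      congr 1
      ring
    · rw [div_le_one hmr]
      exact hi1
  clear hbad0
  obtain ⟨e, he⟩ : ∃ e : ℝ, e = poi (lam * D.card / L) r := ⟨_, rfl⟩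
  rw [← he] at hbad0' he0 he1 ⊢
  obtain ⟨Bad, hBad⟩ : ∃ Bad : Finset ℕ, Bad = (range m).biUnion fun i => (UU (LW M L)).filter fun u =>
    ε' < |pvl J L D (ZW M u) r ((i : ℝ) / m) (((i : ℝ) + 1) / m) -
      (((i : ℝ) + 1) / m - (i : ℝ) / m) * e| := ⟨_, rfl⟩
  have hbad : (Bad.card : ℝ) ≤ ε / (4 * C) * ((LW M L).totient : ℝ) := by
    have h1 : (Bad.card : ℝ) ≤ ∑ i ∈ range m, ε' * ((LW M L).totient : ℝ) := by
      refine le_trans ?_ (Finset.sum_le_sum hbad0')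
      rw [hBad]
      exact_mod_cast Finset.card_biUnion_le
    rw [Finset.sum_const, card_range, nsmul_eq_mul, ← mul_assoc] at h1
    exact h1.trans (mul_le_mul_of_nonneg_right hε'2 (Nat.cast_nonneg _))
  have hQ := Pool.Agent.Lib.MP_de5eaa_nt.Near.LW_pos M L
  have hφ : (0 : ℝ) < ((LW M L).totient : ℝ) := by exact_mod_cast Nat.totient_pos.2 hQ
  have hmean := hbt x (LW M L) hxx1 hQ hQx (fun u => if u ∈ Bad then 1 else 0) (fun u _ => by
    split_ifs <;> norm_num)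
  have hBsum : ∑ u ∈ UU (LW M L), (if u ∈ Bad then (1 : ℝ) else 0) ≤ Bad.card := by
    rw [Finset.sum_ite_mem, Finset.sum_const, nsmul_eq_mul, mul_one]
    exact_mod_cast Finset.card_le_card Finset.inter_subset_right
  -- the cover
  have hcov : ((range (x + 1)).filter fun p => p.Prime ∧ ∃ α β : ℝ, 0 ≤ α ∧ α ≤ β ∧ β ≤ 1 ∧
      ε < |pvl J L D (fun n => (wq n p : ℝ) / p) r α β - (β - α) * e|) ⊆
      range (Nat.sqrt x + 1) ∪ (((range (x + 1)).filter Nat.Prime).filter fun p =>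
        ∃ u ∈ Bad, u ∈ UU (LW M L) ∧ u * p ≡ 1 [MOD LW M L]) := by
    intro p hp
    rw [mem_filter] at hp
    obtain ⟨hpx, hpp, α, β, hα, hαβ, hβ, hpe⟩ := hp
    rw [mem_union]
    by_cases hpx1 : p < Nat.sqrt x + 1
    · exact Or.inl (mem_range.2 hpx1)
    · right
      push Not at hpx1
      have hp1 : Nat.sqrt x < p := hpx1
      have hp2 : Real.sqrt x < p := by
        have h1 : x < p * p := Nat.sqrt_lt.1 hp1
        have h2 : (x : ℝ) < (p : ℝ) * p := by exact_mod_cast h1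
        rw [Real.sqrt_lt' (by exact_mod_cast hpp.pos), sq]
        exact h2
      have hLp : M + L < p := by
        have : ((M + L : ℕ) : ℝ) < p := by linarith
        exact_mod_cast this
      have hcop : p.Coprime (LW M L) := by
        rw [Nat.Prime.coprime_iff_not_dvd hpp]
        intro h
        have h1 := (Nat.Prime.dvd_factorial hpp).1 (h.trans (Pool.Agent.Lib.MP_de5eaa_nt.Near.LW_dvd_fac M L))
        omega
      obtain ⟨u, hu, hup⟩ := P4_inv hQ hcop
      rw [mem_filter, mem_filter]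
      refine ⟨⟨hpx, hpp⟩, u, ?_, hu, hup⟩
      by_contra hgood
      have hcell : ∀ i : ℕ, i < m → |pvl J L D (ZW M u) r ((i : ℝ) / m) (((i : ℝ) + 1) / m) - e / m| ≤
          (m * ε') / m := by
        intro i hi
        have h1 : ((i : ℝ) + 1) / m - (i : ℝ) / m = 1 / m := by
          rw [← sub_div]
          congr 1
          ring
        have h2 : (m * ε') / m = ε' := by field_simp
        rw [h2]
        by_contra hc
        push Not at hc
        apply hgood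
        rw [hBad, mem_biUnion]
        refine ⟨i, mem_range.2 hi, mem_filter.2 ⟨hu, ?_⟩⟩
        rw [h1, one_div_mul_eq_div]
        exact hc
      have h0 := grid_all hJ.meas (L : ℝ) D (ZW M u) r hm0 he0 he1 hcell (α - (wq (M + 1) p : ℝ) / p)
        (β - (wq (M + 1) p : ℝ) / p) (by linarith) (by linarith)
      have h1 := wq_pvl_w hJ hpp hL0 hLp hup r hD hα hαβ hβ
      have hp0 : (0 : ℝ) < (p : ℝ) := by exact_mod_cast hpp.pos
      have h2 : 2 * K * (L : ℝ) ^ 2 / p ≤ ε / 2 := by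
        rw [div_le_iff₀ hp0]
        have hK0 := hJ.K0
        have h3 : 2 * K * (L : ℝ) ^ 2 ≤ 2 * K * Real.log x ^ 2 := by
          apply mul_le_mul_of_nonneg_left _ (by positivity)
          exact pow_le_pow_left₀ (by linarith) hLlog 2
        have h4 : ε / 2 * Real.sqrt x ≤ ε / 2 * p := mul_le_mul_of_nonneg_left hp2.le (by positivity)
        linarith
      have h3 : (β - (wq (M + 1) p : ℝ) / p - (α - (wq (M + 1) p : ℝ) / p)) * e = (β - α) * e := by ring
      rw [h3] at h0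
      have h4 := abs_sub_le (pvl J L D (fun n => (wq n p : ℝ) / p) r α β)
        (pvl J L D (ZW M u) r (α - (wq (M + 1) p : ℝ) / p) (β - (wq (M + 1) p : ℝ) / p)) ((β - α) * e)
      linarith
  have hc2 : (((((range (x + 1)).filter Nat.Prime).filter fun p =>
        ∃ u ∈ Bad, u ∈ UU (LW M L) ∧ u * p ≡ 1 [MOD LW M L]).card : ℕ) : ℝ) ≤
      ∑ p ∈ (range (x + 1)).filter Nat.Prime, ∑ u ∈ (UU (LW M L)).filter (fun u => u * p ≡ 1 [MOD LW M L]),
        (if u ∈ Bad then (1 : ℝ) else 0) := by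
    rw [Finset.card_filter]
    push_cast
    refine Finset.sum_le_sum fun p _ => ?_
    split_ifs with h
    · obtain ⟨u, hu, huU, hup⟩ := h
      refine le_trans ?_ (Finset.single_le_sum (f := fun u => if u ∈ Bad then (1 : ℝ) else 0) (fun u _ => by
        split_ifs <;> norm_num) (mem_filter.2 ⟨huU, hup⟩))
      rw [if_pos hu]
    · exact Finset.sum_nonneg fun u _ => by split_ifs <;> norm_num
  have hppos : 0 ≤ (ppi x : ℝ) := Nat.cast_nonneg _
  have hc3 : C * ppi x / ((LW M L).totient : ℝ) * ∑ u ∈ UU (LW M L), (if u ∈ Bad then (1 : ℝ) else 0) ≤ ε / 4 * ppi x := by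
    have h1 : C * ppi x / ((LW M L).totient : ℝ) * ∑ u ∈ UU (LW M L), (if u ∈ Bad then (1 : ℝ) else 0) ≤
        C * ppi x / ((LW M L).totient : ℝ) * (ε / (4 * C) * (LW M L).totient) :=
      mul_le_mul_of_nonneg_left (hBsum.trans hbad) (by positivity)
    have h2 : C * ppi x / ((LW M L).totient : ℝ) * (ε / (4 * C) * (LW M L).totient) = ε / 4 * ppi x := by
      field_simp
    rw [h2] at h1
    exact h1
  have hc1 : (((range (x + 1)).filter fun p => p.Prime ∧ ∃ α β : ℝ, 0 ≤ α ∧ α ≤ β ∧ β ≤ 1 ∧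
      ε < |pvl J L D (fun n => (wq n p : ℝ) / p) r α β - (β - α) * e|).card : ℝ) ≤
      ((Nat.sqrt x : ℝ) + 1) + (((((range (x + 1)).filter Nat.Prime).filter fun p =>
        ∃ u ∈ Bad, u ∈ UU (LW M L) ∧ u * p ≡ 1 [MOD LW M L]).card : ℕ) : ℝ) := by
    have h1 := (card_le_card hcov).trans (card_union_le _ _)
    rw [card_range] at h1
    exact_mod_cast h1
  have hsq2 : (Nat.sqrt x : ℝ) ≤ Real.sqrt x := Real.nat_sqrt_le_real_sqrt
  linarith

end Pool.Agent.Lib.MP_de5eaa_nt.Poi
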