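import Pool.Agent.Lib.MP_de5eaa_nt.Poi.W5

set_option autoImplicit false

namespace Pool.Agent.Lib.MP_de5eaa_nt.Poi

open Finset MeasureTheory Filter Topology
open Pool.Agent.Lib.MP_de5eaa_nt.Near (hs wq ppi LW ZW)

open Classical in
/-- ROW Wl. The proof of `main_all_s` (file `Poi/Se6.lean`) with `main_w` (`C0` = a maximum over `r < r0`, `Finset.exists_le` or `∑`; `D.card ≤ L`). -/
theorem main_all_w {Λ K R : ℝ} (hΛ : 0 ≤ Λ) (hK : 0 ≤ K) (hR : 0 ≤ R) {δ : ℝ} (hδ : 0 < δ) (hδ1 : δ < 1) {ε : ℝ}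
    (hε : 0 < ε) : ∃ C0 : ℝ, 1 ≤ C0 ∧ ∃ L0 : ℕ, ∀ L M x : ℕ, L0 ≤ L → C0 * L ≤ M → Short δ M L x →
      ∀ (J : Set ℝ) (lam : ℝ), Nice J lam K R → lam ≤ Λ → ∀ D : Finset ℕ, D ⊆ Ioc M (M + L) →
      (((range (x + 1)).filter fun p => p.Prime ∧ ∃ α β : ℝ, α ≤ β ∧ β ≤ α + 1 ∧ ∃ F : Finset ℕ,
        ε < ∑ r ∈ F, |pvl J L D (fun n => (wq n p : ℝ) / p) r α β - (β - α) * poi (lam * D.card / L) r|).card : ℝ) ≤
      ε * ppi x := by
  obtain ⟨r0, η, hη, hr0, hclose⟩ := tv_close_u hΛ (half_pos hε)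
  have h1 := fun r : ℕ => main_w hΛ hK hR hδ hδ1 r hη
  choose C1 hC1 L1 hL1 using h1
  have hsum : ∀ r ∈ range r0, C1 r ≤ ∑ i ∈ range r0, C1 i := fun r hr =>
    Finset.single_le_sum (f := C1) (fun i _ => zero_le_one.trans (hC1 i)) hr
  have hsum0 : 0 ≤ ∑ i ∈ range r0, C1 i := Finset.sum_nonneg fun i _ => zero_le_one.trans (hC1 i)
  refine ⟨1 + ∑ i ∈ range r0, C1 i, by linarith, (range r0).sup L1,
    fun L M x hL hM hS J lam hJ hlam D hD => ?_⟩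
  have hcard : (D.card : ℝ) ≤ (L : ℝ) := by
    have h := Finset.card_le_card hD
    rw [Nat.card_Ioc, Nat.add_sub_cancel_left] at h
    exact_mod_cast h
  set μ : ℝ := lam * D.card / L with hμ
  have hμ0 : 0 ≤ μ := div_nonneg (mul_nonneg hJ.lam0 (Nat.cast_nonneg _)) (Nat.cast_nonneg _)
  have hμ1 : μ ≤ Λ := by
    refine le_trans ?_ hlam
    rw [hμ, mul_div_assoc]
    exact mul_le_of_le_one_right hJ.lam0 (div_le_one_of_le₀ hcard (Nat.cast_nonneg _))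
  have h3 : ((range (x + 1)).filter fun p => p.Prime ∧ ∃ α β : ℝ, α ≤ β ∧ β ≤ α + 1 ∧ ∃ F : Finset ℕ,
        ε < ∑ r ∈ F, |pvl J L D (fun n => (wq n p : ℝ) / p) r α β - (β - α) * poi μ r|) ⊆
      (range r0).biUnion fun r => (range (x + 1)).filter fun p => p.Prime ∧ ∃ α β : ℝ, 0 ≤ α ∧ α ≤ β ∧ β ≤ 1 ∧
        η < |pvl J L D (fun n => (wq n p : ℝ) / p) r α β - (β - α) * poi μ r| := by
    intro p hp
    rw [mem_filter] at hp
    obtain ⟨hpx, hpp, α, β, hαβ, hβα, F, hF⟩ := hp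
    by_contra hcon
    rw [mem_biUnion] at hcon
    push Not at hcon
    have h4 : ∀ a b : ℝ, 0 ≤ a → a ≤ b → b ≤ 1 → ∀ F : Finset ℕ,
        ∑ r ∈ F, |pvl J L D (fun n => (wq n p : ℝ) / p) r a b - (b - a) * poi μ r| ≤ ε / 2 := by
      intro a b ha hab hb F
      refine hclose μ hμ0 hμ1 (b - a) (by linarith) (by linarith)
        (fun r => pvl J L D (fun n => (wq n p : ℝ) / p) r a b)
        (fun i => pvl_nonneg _ _ _ _ _ _ _) (fun F => pvl_sum_le hJ.meas _ _ _ F hab) (fun i hi => ?_) F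
      by_contra h5
      exact hcon i (mem_range.2 hi) (mem_filter.2 ⟨hpx, hpp, a, b, ha, hab, hb, not_le.1 h5⟩)
    exact absurd hF (not_lt.2 (arcs_of_unit hJ.meas _ _ _ h4 hαβ hβα F))
  have h4 : (((range (x + 1)).filter fun p => p.Prime ∧ ∃ α β : ℝ, α ≤ β ∧ β ≤ α + 1 ∧ ∃ F : Finset ℕ,
        ε < ∑ r ∈ F, |pvl J L D (fun n => (wq n p : ℝ) / p) r α β - (β - α) * poi μ r|).card : ℝ) ≤
      ∑ r ∈ range r0, η * (ppi x : ℝ) := by
    refine le_trans ?_ (Finset.sum_le_sum fun r hr => hL1 r L M x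
      ((Finset.le_sup (f := L1) hr).trans hL)
      ((mul_le_mul_of_nonneg_right (by linarith [hsum r hr]) (Nat.cast_nonneg _)).trans hM) hS J lam hJ hlam D hD)
    exact_mod_cast (Finset.card_le_card h3).trans Finset.card_biUnion_le
  refine h4.trans ?_
  rw [Finset.sum_const, card_range, nsmul_eq_mul, ← mul_assoc]
  exact mul_le_mul_of_nonneg_right (by linarith) (Nat.cast_nonneg _)

theorem Wm_key (k : ℕ) {η : ℝ} (hη : 0 ≤ η) {c c' : ℕ → ℝ} (hc : Monotone c) (hc' : Monotone c')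
    (h : ∀ i < 2 * k, c' i ≤ c i ∧ c i ≤ c' i + η) {L : ℕ} (hL : 1 ≤ L) {D : Finset ℕ} (hDc : (D.card : ℝ) ≤ L)
    (y : ℕ → ℝ) {α β : ℝ} (h1 : α ≤ β) (h2 : β ≤ α + 1) (F : Finset ℕ) :
    ∑ r ∈ F, |pvl (Jset k c) L D y r α β - (β - α) * poi (Jlen k c * D.card / L) r| ≤
    ∑ r ∈ F, |pvl (Jset k c') L D y r α β - (β - α) * poi (Jlen k c' * D.card / L) r| + 8 * k * η := by
  obtain ⟨m1, n1⟩ := Se8_nice k hc
  obtain ⟨m2, n2⟩ := Se8_nice k hc'
  obtain ⟨v1, v2⟩ := Jset_net k hη h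
  have hLr : (0 : ℝ) < (L : ℝ) := by exact_mod_cast hL
  have hk : (0 : ℝ) ≤ k := Nat.cast_nonneg k
  have hw : 0 ≤ 2 * (k : ℝ) * η := by positivity
  have hDL : (D.card : ℝ) / L ≤ 1 := (div_le_one hLr).2 hDc
  have hDL0 : 0 ≤ (D.card : ℝ) / L := by positivity
  have a1 := pvl_symm m1 m2 hLr hw v1 D y h1 h2 F
  have a2 := poi_lip (μ := Jlen k c * D.card / L) (ν := Jlen k c' * D.card / L) (by positivity)
    (by positivity) F
  have a3 : |Jlen k c * D.card / L - Jlen k c' * D.card / L| ≤ 2 * k * η := by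
    have e : Jlen k c * D.card / L - Jlen k c' * D.card / L =
        (Jlen k c - Jlen k c') * ((D.card : ℝ) / L) := by ring
    rw [e, abs_mul, abs_of_nonneg hDL0]
    calc |Jlen k c - Jlen k c'| * ((D.card : ℝ) / L) ≤ (2 * k * η) * 1 :=
          mul_le_mul v2 hDL hDL0 hw
      _ = _ := by ring
  have a4 : (D.card : ℝ) * (2 * k * η / L) ≤ 2 * k * η := by
    have e : (D.card : ℝ) * (2 * k * η / L) = (2 * k * η) * ((D.card : ℝ) / L) := by ring
    rw [e]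
    exact mul_le_of_le_one_right hw hDL
  have a5 : ∀ r ∈ F, |pvl (Jset k c) L D y r α β - (β - α) * poi (Jlen k c * D.card / L) r| ≤
      |pvl (Jset k c') L D y r α β - (β - α) * poi (Jlen k c' * D.card / L) r| +
      (|pvl (Jset k c) L D y r α β - pvl (Jset k c') L D y r α β| +
      |poi (Jlen k c * D.card / L) r - poi (Jlen k c' * D.card / L) r|) := by
    intro r _
    have e : pvl (Jset k c) L D y r α β - (β - α) * poi (Jlen k c * D.card / L) r =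
        (pvl (Jset k c') L D y r α β - (β - α) * poi (Jlen k c' * D.card / L) r) +
        ((pvl (Jset k c) L D y r α β - pvl (Jset k c') L D y r α β) -
        (β - α) * (poi (Jlen k c * D.card / L) r - poi (Jlen k c' * D.card / L) r)) := by ring
    rw [e]
    refine (abs_add_le _ _).trans (add_le_add le_rfl ((abs_sub _ _).trans (add_le_add le_rfl ?_)))
    rw [abs_mul, abs_of_nonneg (sub_nonneg.2 h1)]
    exact mul_le_of_le_one_left (abs_nonneg _) (by linarith)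
  have a6 := Finset.sum_le_sum a5
  rw [Finset.sum_add_distrib, Finset.sum_add_distrib] at a6
  linarith

open Classical in
/-- ROW Wm. The proof of `main_net` (file `Poi/Se8.lean`) with `main_all_w`. -/
theorem main_net_w (k : ℕ) {B : ℝ} (hB : 0 ≤ B) {δ : ℝ} (hδ : 0 < δ) (hδ1 : δ < 1) {ε : ℝ} (hε : 0 < ε) :
    ∃ C0 : ℝ, 1 ≤ C0 ∧ ∃ L0 : ℕ, ∀ L M x : ℕ, L0 ≤ L → C0 * L ≤ M → Short δ M L x →
      ∀ D : Finset ℕ, D ⊆ Ioc M (M + L) →
      (((range (x + 1)).filter fun p => p.Prime ∧ ∃ c : ℕ → ℝ, Monotone c ∧ -B ≤ c 0 ∧ c (2 * k) ≤ B ∧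
        ∃ α β : ℝ, α ≤ β ∧ β ≤ α + 1 ∧ ∃ F : Finset ℕ,
        ε < ∑ r ∈ F, |pvl (Jset k c) L D (fun n => (wq n p : ℝ) / p) r α β -
          (β - α) * poi (Jlen k c * D.card / L) r|).card : ℝ) ≤ ε * ppi x := by
  have hk : (0 : ℝ) ≤ k := Nat.cast_nonneg k
  obtain ⟨η, hηd⟩ : ∃ η : ℝ, η = ε / (32 * (k + 1)) := ⟨_, rfl⟩
  have hη : 0 < η := by rw [hηd]; positivity
  have hηk : 8 * k * η ≤ ε / 4 := by
    rw [hηd, mul_div_assoc', div_le_iff₀ (by positivity)]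
    nlinarith
  obtain ⟨N, hN⟩ : ∃ N : ℕ, (B + 1) / η ≤ N := ⟨⌈(B + 1) / η⌉₊, Nat.le_ceil _⟩
  rw [div_le_iff₀ hη] at hN
  have hN0 : 0 ≤ (N : ℝ) * η := by linarith
  let T : Finset (Fin (2 * k + 1) → ℤ) :=
    (Fintype.piFinset fun _ => Finset.Icc (-(N : ℤ)) (N : ℤ)).filter Monotone
  let cg : (Fin (2 * k + 1) → ℤ) → ℕ → ℝ := fun g i => η * (g ⟨min i (2 * k), by omega⟩ : ℝ)
  have hcg : ∀ g, Monotone g → Monotone (cg g) := by
    intro g hg i j hij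
    have h1 : g ⟨min i (2 * k), by omega⟩ ≤ g ⟨min j (2 * k), by omega⟩ := by
      apply hg
      rw [Fin.mk_le_mk]
      exact min_le_min_right _ hij
    exact mul_le_mul_of_nonneg_left (by exact_mod_cast h1) hη.le
  obtain ⟨ε1, h1, h2, h3⟩ : ∃ ε1 : ℝ, 0 < ε1 ∧ ε1 ≤ ε / 2 ∧ (T.card : ℝ) * ε1 ≤ ε := by
    have hT : (0 : ℝ) ≤ T.card := Nat.cast_nonneg _
    refine ⟨min (ε / 2) (ε / (T.card + 1)), lt_min (by positivity) (by positivity), min_le_left _ _, ?_⟩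
    calc (T.card : ℝ) * min (ε / 2) (ε / (T.card + 1)) ≤ (T.card : ℝ) * (ε / (T.card + 1)) :=
          mul_le_mul_of_nonneg_left (min_le_right _ _) hT
      _ ≤ ε := by
          rw [mul_div_assoc', div_le_iff₀ (by positivity)]
          nlinarith
  obtain ⟨C0, hC0, L0, hL0⟩ := main_all_w (Λ := 2 * (N * η)) (K := 2 * k) (R := N * η) (by positivity)
    (by positivity) hN0 hδ hδ1 h1
  refine ⟨C0, hC0, max L0 1, fun L M x hL hM hx D hD => ?_⟩
  have hDc : (D.card : ℝ) ≤ L := by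
    have := Finset.card_le_card hD
    rw [Nat.card_Ioc, Nat.add_sub_cancel_left] at this
    exact_mod_cast this
  have hL1 : 1 ≤ L := (le_max_right _ _).trans hL
  have hL2 : L0 ≤ L := (le_max_left _ _).trans hL
  have hppi : (0 : ℝ) ≤ ppi x := Nat.cast_nonneg _
  let Bad : (Fin (2 * k + 1) → ℤ) → Finset ℕ := fun g => (range (x + 1)).filter fun p => p.Prime ∧
    ∃ α β : ℝ, α ≤ β ∧ β ≤ α + 1 ∧ ∃ F : Finset ℕ,
      ε1 < ∑ r ∈ F, |pvl (Jset k (cg g)) L D (fun n => (wq n p : ℝ) / p) r α β -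
        (β - α) * poi (Jlen k (cg g) * D.card / L) r|
  have hBad : ∀ g ∈ T, ((Bad g).card : ℝ) ≤ ε1 * ppi x := by
    intro g hg
    obtain ⟨hg1, hg2⟩ := Finset.mem_filter.1 hg
    have hg3 := fun i => Finset.mem_Icc.1 (Fintype.mem_piFinset.1 hg1 i)
    have b0 : -(N * η) ≤ cg g 0 := by
      have h4 : (-(N : ℤ) : ℝ) ≤ (g ⟨min 0 (2 * k), by omega⟩ : ℝ) := by
        exact_mod_cast (hg3 ⟨min 0 (2 * k), by omega⟩).1
      have h5 := mul_le_mul_of_nonneg_left h4 hη.le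
      show -(N * η) ≤ η * (g ⟨min 0 (2 * k), by omega⟩ : ℝ)
      push_cast at h5
      linarith
    have b1 : cg g (2 * k) ≤ N * η := by
      have h4 : (g ⟨min (2 * k) (2 * k), by omega⟩ : ℝ) ≤ ((N : ℤ) : ℝ) := by
        exact_mod_cast (hg3 ⟨min (2 * k) (2 * k), by omega⟩).2
      have h5 := mul_le_mul_of_nonneg_left h4 hη.le
      show η * (g ⟨min (2 * k) (2 * k), by omega⟩ : ℝ) ≤ N * η
      push_cast at h5
      linarith
    obtain ⟨c1, c2⟩ := nice_B k (hcg g hg2) hN0 b0 b1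
    exact hL0 L M x hL2 hM hx (Jset k (cg g)) (Jlen k (cg g)) c1 c2 D hD
  have hsub : ((range (x + 1)).filter fun p => p.Prime ∧ ∃ c : ℕ → ℝ, Monotone c ∧ -B ≤ c 0 ∧ c (2 * k) ≤ B ∧
        ∃ α β : ℝ, α ≤ β ∧ β ≤ α + 1 ∧ ∃ F : Finset ℕ,
        ε < ∑ r ∈ F, |pvl (Jset k c) L D (fun n => (wq n p : ℝ) / p) r α β -
          (β - α) * poi (Jlen k c * D.card / L) r|) ⊆ T.biUnion Bad := by
    intro p hp
    obtain ⟨hp1, hp2, c, hc, hc0, hc1, α, β, hα, hβ, F, hF⟩ := Finset.mem_filter.1 hp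
    let g : Fin (2 * k + 1) → ℤ := fun i => ⌊c i / η⌋
    have hgm : Monotone g := by
      intro i j hij
      apply Int.floor_le_floor
      exact div_le_div_of_nonneg_right (hc (by exact_mod_cast hij)) hη.le
    have hgT : g ∈ T := by
      refine Finset.mem_filter.2 ⟨Fintype.mem_piFinset.2 (fun i => Finset.mem_Icc.2 ⟨?_, ?_⟩), hgm⟩
      · apply Int.le_floor.2
        rw [le_div_iff₀ hη]
        have h4 : c 0 ≤ c i := hc (Nat.zero_le _)
        push_cast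
        linarith
      · have h4 : c i ≤ c (2 * k) := hc (Nat.le_of_lt_succ i.2)
        have h5 : (⌊c i / η⌋ : ℝ) ≤ N := by
          refine (Int.floor_le _).trans ?_
          rw [div_le_iff₀ hη]
          linarith
        exact_mod_cast h5
    have hnet : ∀ i < 2 * k, cg g i ≤ c i ∧ c i ≤ cg g i + η := by
      intro i hi
      have e : cg g i = η * (⌊c i / η⌋ : ℝ) := by
        show η * (⌊c (min i (2 * k)) / η⌋ : ℝ) = _
        rw [min_eq_left hi.le]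
      rw [e]
      have h4 := Int.floor_le (c i / η)
      have h5 := (Int.lt_floor_add_one (c i / η)).le
      rw [le_div_iff₀ hη] at h4
      rw [div_le_iff₀ hη] at h5
      constructor
      · linarith
      · linarith
    have key := Wm_key k hη.le hc (hcg g hgm) hnet hL1 hDc (fun n => (wq n p : ℝ) / p) hα hβ F
    refine Finset.mem_biUnion.2 ⟨g, hgT, Finset.mem_filter.2 ⟨hp1, hp2, α, β, hα, hβ, F, ?_⟩⟩
    linarith
  calc (((range (x + 1)).filter fun p => p.Prime ∧ ∃ c : ℕ → ℝ, Monotone c ∧ -B ≤ c 0 ∧ c (2 * k) ≤ B ∧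
        ∃ α β : ℝ, α ≤ β ∧ β ≤ α + 1 ∧ ∃ F : Finset ℕ,
        ε < ∑ r ∈ F, |pvl (Jset k c) L D (fun n => (wq n p : ℝ) / p) r α β -
          (β - α) * poi (Jlen k c * D.card / L) r|).card : ℝ) ≤ ((T.biUnion Bad).card : ℝ) := by
        exact_mod_cast Finset.card_le_card hsub
    _ ≤ ∑ g ∈ T, ((Bad g).card : ℝ) := by exact_mod_cast Finset.card_biUnion_le
    _ ≤ ∑ _g ∈ T, ε1 * ppi x := Finset.sum_le_sum hBad
    _ = (T.card : ℝ) * ε1 * ppi x := by rw [Finset.sum_const, nsmul_eq_mul]; ring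
    _ ≤ ε * ppi x := mul_le_mul_of_nonneg_right h3 hppi

theorem Wn_hit {k : ℕ} {c c' : ℕ → ℝ} {s L L' : ℝ} (hs : 0 < s) (hL' : L' = s * L) (hc : ∀ i, c' i = s * c i)
    (t y : ℝ) : Hit (Jset k c) L t y ↔ Hit (Jset k c') L' t y := by
  unfold Hit
  refine exists_congr fun a => ?_
  constructor
  · rintro ⟨i, hi, h1, h2⟩
    refine ⟨i, hi, ?_, ?_⟩
    · rw [hc, hL', mul_assoc]; exact mul_le_mul_of_nonneg_left h1 hs.le
    · rw [hc, hL', mul_assoc]; exact mul_le_mul_of_nonneg_left h2 hs.le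
  · rintro ⟨i, hi, h1, h2⟩
    rw [hc, hL', mul_assoc] at h1
    rw [hc, hL', mul_assoc] at h2
    exact ⟨i, hi, le_of_mul_le_mul_left h1 hs, le_of_mul_le_mul_left h2 hs⟩

theorem Wn_pvl {k : ℕ} {c c' : ℕ → ℝ} {s L L' : ℝ} (hs : 0 < s) (hL' : L' = s * L) (hc : ∀ i, c' i = s * c i)
    (I : Finset ℕ) (y : ℕ → ℝ) (r : ℕ) (α β : ℝ) : pvl (Jset k c) L I y r α β = pvl (Jset k c') L' I y r α β := by
  have h : ∀ t, cnt (Jset k c) L I y t = cnt (Jset k c') L' I y t := by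
    intro t
    classical
    unfold cnt
    refine congrArg Finset.card (Finset.ext fun n => ?_)
    rw [Finset.mem_filter, Finset.mem_filter, Wn_hit hs hL' hc]
  unfold pvl
  simp only [h]

theorem Wn_len {k : ℕ} {c c' : ℕ → ℝ} {s : ℝ} (hc : ∀ i, c' i = s * c i) : Jlen k c' = s * Jlen k c := by
  unfold Jlen
  rw [Finset.mul_sum]
  refine Finset.sum_congr rfl fun i _ => ?_
  rw [hc, hc, mul_sub]

open Classical in
/-- ROW Wn. The case `M ≤ C0 L`: `main_net` (file `Poi/Se8.lean`) with `B' = (C0 + 1) B` and `L' = M + L ≤ (C0 + 1) L` in place of `L`. `D ⊆ Icc 1 L'`; `L' ≤ (1 - δ) log x` (second case of `Short`: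
`L' ≤ (C0 + 1) L ≤ L log L' ≤ (1 - δ) log x` if `log L ≥ C0 + 1`). For `c` let `c' i = (L'/L) c i`: monotone, `-B' ≤ c' 0`, `c' (2 k) ≤ B'`;
`L (y - t - a) ∈ Jset k c ↔ L' (y - t - a) ∈ Jset k c'`, so `pvl (Jset k c) L = pvl (Jset k c') L'`, and `Jlen k c' / L' = Jlen k c / L`. -/
theorem near_net (k : ℕ) {B : ℝ} (hB : 0 ≤ B) {δ : ℝ} (hδ : 0 < δ) {ε : ℝ} (hε : 0 < ε) {C0 : ℝ} (hC0 : 1 ≤ C0) :
    ∃ L0 : ℕ, ∀ L M x : ℕ, L0 ≤ L → (M : ℝ) ≤ C0 * L → Short δ M L x →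
      ∀ D : Finset ℕ, D ⊆ Ioc M (M + L) →
      (((range (x + 1)).filter fun p => p.Prime ∧ ∃ c : ℕ → ℝ, Monotone c ∧ -B ≤ c 0 ∧ c (2 * k) ≤ B ∧
        ∃ α β : ℝ, α ≤ β ∧ β ≤ α + 1 ∧ ∃ F : Finset ℕ,
        ε < ∑ r ∈ F, |pvl (Jset k c) L D (fun n => (wq n p : ℝ) / p) r α β -
          (β - α) * poi (Jlen k c * D.card / L) r|).card : ℝ) ≤ ε * ppi x := by
  have hB' : 0 ≤ (C0 + 1) * B := mul_nonneg (by linarith) hB
  obtain ⟨L1, h1⟩ := main_net k hB' hδ hε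
  refine ⟨max (max 1 L1) ⌈Real.exp (C0 + 1)⌉₊, fun L M x hL hM hS D hD => ?_⟩
  have hL1 : 1 ≤ L := (le_max_left 1 L1).trans ((le_max_left _ _).trans hL)
  have hL2 : L1 ≤ L := (le_max_right 1 L1).trans ((le_max_left _ _).trans hL)
  have hL3 : Real.exp (C0 + 1) ≤ (L : ℝ) :=
    (Nat.le_ceil _).trans (Nat.cast_le.2 ((le_max_right _ _).trans hL))
  have hLp : (0 : ℝ) < L := by exact_mod_cast hL1
  have hcast : ((M + L : ℕ) : ℝ) = (M : ℝ) + L := by push_cast; ring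
  have hM0 : (0 : ℝ) ≤ M := Nat.cast_nonneg M
  have hlog : C0 + 1 ≤ Real.log (L : ℝ) := (Real.le_log_iff_exp_le hLp).2 hL3
  have hlog' : Real.log (L : ℝ) ≤ Real.log ((M + L : ℕ) : ℝ) :=
    Real.log_le_log hLp (by rw [hcast]; linarith)
  have hLL : ((M + L : ℕ) : ℝ) ≤ (C0 + 1) * L := by rw [hcast]; linarith
  have hx : ((M + L : ℕ) : ℝ) ≤ (1 - δ) * Real.log x := by
    rcases hS with h | h
    · exact h
    · refine hLL.trans (le_trans ?_ h)
      rw [mul_comm]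
      exact mul_le_mul_of_nonneg_left (hlog.trans hlog') hLp.le
  have hD' : D ⊆ Icc 1 (M + L) := by
    intro n hn
    have := Finset.mem_Ioc.1 (hD hn)
    exact Finset.mem_Icc.2 ⟨by omega, this.2⟩
  refine le_trans (Nat.cast_le.2 (Finset.card_le_card ?_)) (h1 (M + L) x (hL2.trans (Nat.le_add_left _ _)) hx D hD')
  intro p hp
  obtain ⟨hp0, hpp, c, hc, hc0, hc1, α, β, hαβ, hβ, F, hF⟩ := Finset.mem_filter.1 hp
  obtain ⟨s, hsd⟩ : ∃ s : ℝ, s = ((M + L : ℕ) : ℝ) / L := ⟨_, rfl⟩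
  have hsL : ((M + L : ℕ) : ℝ) = s * L := by rw [hsd, div_mul_cancel₀ _ hLp.ne']
  have hs : 0 < s := by
    rw [hsd]
    exact div_pos (by rw [hcast]; linarith) hLp
  have hsC : s ≤ C0 + 1 := by rw [hsd, div_le_iff₀ hLp]; exact hLL
  have hsB : s * B ≤ (C0 + 1) * B := mul_le_mul_of_nonneg_right hsC hB
  refine Finset.mem_filter.2 ⟨hp0, hpp, fun i => s * c i, fun i j hij => mul_le_mul_of_nonneg_left (hc hij) hs.le,
    ?_, ?_, α, β, hαβ, hβ, F, ?_⟩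
  · have := mul_le_mul_of_nonneg_left hc0 hs.le
    show -((C0 + 1) * B) ≤ s * c 0
    linarith
  · have := mul_le_mul_of_nonneg_left hc1 hs.le
    show s * c (2 * k) ≤ (C0 + 1) * B
    linarith
  · refine lt_of_lt_of_eq hF (Finset.sum_congr rfl fun r _ => ?_)
    rw [Wn_pvl (k := k) (c' := fun i => s * c i) hs hsL (fun _ => rfl), Wn_len (k := k) (c := c) (s := s) (fun _ => rfl)]
    have e : s * Jlen k c * D.card / ((M + L : ℕ) : ℝ) = Jlen k c * D.card / L := by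
      rw [hsL, mul_assoc, mul_div_mul_left _ _ hs.ne']
    rw [e]

open Classical in
theorem main_net_all (k : ℕ) {B : ℝ} (hB : 0 ≤ B) {δ : ℝ} (hδ : 0 < δ) {ε : ℝ} (hε : 0 < ε) :
    ∃ L0 : ℕ, ∀ L M x : ℕ, L0 ≤ L → Short δ M L x → ∀ D : Finset ℕ, D ⊆ Ioc M (M + L) →
      (((range (x + 1)).filter fun p => p.Prime ∧ ∃ c : ℕ → ℝ, Monotone c ∧ -B ≤ c 0 ∧ c (2 * k) ≤ B ∧
        ∃ α β : ℝ, α ≤ β ∧ β ≤ α + 1 ∧ ∃ F : Finset ℕ,
        ε < ∑ r ∈ F, |pvl (Jset k c) L D (fun n => (wq n p : ℝ) / p) r α β -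
          (β - α) * poi (Jlen k c * D.card / L) r|).card : ℝ) ≤ ε * ppi x := by
  have hm : ∀ L M x : ℕ, Short δ M L x → Short (min δ (1 / 2)) M L x := by
    intro L M x h
    have h1 : min δ (1 / 2) ≤ δ := min_le_left _ _
    have h2 : 0 ≤ Real.log (x : ℝ) := Real.log_natCast_nonneg x
    have h3 : (1 - δ) * Real.log x ≤ (1 - min δ (1 / 2)) * Real.log x :=
      mul_le_mul_of_nonneg_right (by linarith) h2
    rcases h with h | h
    · exact Or.inl (h.trans h3)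
    · exact Or.inr (h.trans h3)
  have hδ'0 : 0 < min δ (1 / 2) := lt_min hδ (by norm_num)
  have hδ'1 : min δ (1 / 2) < 1 := lt_of_le_of_lt (min_le_right _ _) (by norm_num)
  obtain ⟨C0, hC0, L1, h1⟩ := main_net_w k hB hδ'0 hδ'1 hε
  obtain ⟨L2, h2⟩ := near_net k hB hδ'0 hε hC0
  refine ⟨max L1 L2, fun L M x hL hS D hD => ?_⟩
  rcases le_total (C0 * L) (M : ℝ) with h | h
  · exact h1 L M x ((le_max_left _ _).trans hL) h (hm L M x hS) D hD
  · exact h2 L M x ((le_max_right _ _).trans hL) h (hm L M x hS) D hD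

end Pool.Agent.Lib.MP_de5eaa_nt.Poi
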